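import Pool.Agent.Helper85.BP.Defs

set_option autoImplicit false

open MeasureTheory Complex FourierTransform Filter Topology
open scoped ENNReal NNReal ComplexConjugate

noncomputable section

namespace Helper85.BP.P

open Helper72.BA Helper85.BP

/-- Lipschitz bound at `1` for a power. -/
theorem R10a_pow_lip (s : ℝ) (hs : 0 < s) (T : ℝ) (hT : 1 ≤ T) :
    ∃ C : ℝ, 0 < C ∧ ∀ t : ℝ, 0 ≤ t → t ≤ T → (t - 1) * (t ^ s - 1) ≤ C * (t - 1) ^ 2 := by
  obtain ⟨n, hn⟩ := exists_nat_ge s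
  have hn0 : 0 < (n : ℝ) := lt_of_lt_of_le hs hn
  have hn1 : 1 ≤ n := by
    have : 0 < n := by exact_mod_cast hn0
    omega
  have hTn : (1:ℝ) ≤ T ^ (n - 1) := one_le_pow₀ hT
  refine ⟨n * T ^ (n - 1), by positivity, fun t ht0 htT => ?_⟩
  rcases le_total t 1 with h1 | h1
  · -- 1 - t^s ≤ 1 - t^n ≤ n (1 - t)
    have h2 : t ^ (n:ℕ) ≤ t ^ s := by
      rw [← Real.rpow_natCast]
      rcases eq_or_lt_of_le ht0 with h0 | h0
      · rw [← h0, Real.zero_rpow hn0.ne', Real.zero_rpow hs.ne']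
      · exact Real.rpow_le_rpow_of_exponent_ge h0 h1 hn
    have h3 : 1 + (n:ℝ) * (t - 1) ≤ t ^ n := by
      have := one_add_mul_le_pow (a := t - 1) (by linarith) n
      simpa using this
    have h4 : 1 - t ^ s ≤ n * (1 - t) := by linarith
    have h5 : (t - 1) * (t ^ s - 1) = (1 - t) * (1 - t ^ s) := by ring
    rw [h5]
    calc (1 - t) * (1 - t ^ s) ≤ (1 - t) * (n * (1 - t)) :=
          mul_le_mul_of_nonneg_left h4 (by linarith)
      _ = (n * 1) * (t - 1) ^ 2 := by ring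
      _ ≤ (n * T ^ (n - 1)) * (t - 1) ^ 2 := by
          apply mul_le_mul_of_nonneg_right _ (sq_nonneg _)
          exact mul_le_mul_of_nonneg_left hTn hn0.le
  · have h2 : t ^ s ≤ t ^ (n:ℕ) := by
      rw [← Real.rpow_natCast]
      exact Real.rpow_le_rpow_of_exponent_le h1 hn
    have h3 : t ^ n - 1 ≤ (n:ℝ) * t ^ (n - 1) * (t - 1) := by
      have hg := geom_sum_mul t n
      have hs1 : ∑ i ∈ Finset.range n, t ^ i ≤ (n:ℝ) * t ^ (n - 1) := by
        have : ∑ i ∈ Finset.range n, t ^ i ≤ ∑ _i ∈ Finset.range n, t ^ (n - 1) := by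
          apply Finset.sum_le_sum
          intro i hi
          have := Finset.mem_range.1 hi
          exact pow_le_pow_right₀ h1 (by omega)
        simpa using this
      rw [← hg]
      exact mul_le_mul_of_nonneg_right hs1 (by linarith)
    have h4 : t ^ (n - 1) ≤ T ^ (n - 1) := pow_le_pow_left₀ ht0 htT _
    have h5 : t ^ s - 1 ≤ n * T ^ (n - 1) * (t - 1) := by
      calc t ^ s - 1 ≤ t ^ n - 1 := by linarith
        _ ≤ (n:ℝ) * t ^ (n - 1) * (t - 1) := h3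
        _ ≤ n * T ^ (n - 1) * (t - 1) := by
          apply mul_le_mul_of_nonneg_right _ (by linarith)
          exact mul_le_mul_of_nonneg_left h4 hn0.le
    calc (t - 1) * (t ^ s - 1) ≤ (t - 1) * (n * T ^ (n - 1) * (t - 1)) :=
          mul_le_mul_of_nonneg_left h5 (by linarith)
      _ = n * T ^ (n - 1) * (t - 1) ^ 2 := by ring

theorem R10a_one_var (s : ℝ) (hs : 0 < s) (T : ℝ) (hT : 1 ≤ T) :
    ∃ C : ℝ, 0 < C ∧ ∀ t : ℝ, 0 ≤ t → t ≤ T →
      t ^ (s + 1) ≤ 1 + (s + 1) * (t - 1) + C * (t - 1) ^ 2 := by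
  obtain ⟨C, hC, h⟩ := R10a_pow_lip s hs T hT
  refine ⟨(s + 1) * C, by positivity, fun t ht0 htT => ?_⟩
  have h1 : t ^ (s + 1) ≤ 1 + (s + 1) * (t - 1) * t ^ s := by
    rcases eq_or_lt_of_le ht0 with h0 | h0
    · rw [← h0, Real.zero_rpow hs.ne', Real.zero_rpow (by linarith)]
      norm_num
    · have hb := one_add_mul_self_le_rpow_one_add (s := t⁻¹ - 1) (p := s + 1)
        (by have := inv_pos.2 h0; linarith) (by linarith)
      have he : (1 + (t⁻¹ - 1)) = t⁻¹ := by ring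
      rw [he, Real.inv_rpow h0.le] at hb
      have hp : 0 < t ^ (s + 1) := Real.rpow_pos_of_pos h0 _
      have hb2 := mul_le_mul_of_nonneg_left hb hp.le
      rw [mul_inv_cancel₀ hp.ne'] at hb2
      have he2 : t ^ (s + 1) = t ^ s * t := Real.rpow_add_one h0.ne' s
      have he3 : t ^ (s + 1) * (1 + (s + 1) * (t⁻¹ - 1)) =
          t ^ (s + 1) + (s + 1) * (t ^ s * (1 - t)) := by
        rw [he2]; field_simp
      rw [he3] at hb2
      nlinarith
  have h2 := h t ht0 htT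
  have h3 : (s + 1) * ((t - 1) * (t ^ s - 1)) ≤ (s + 1) * (C * (t - 1) ^ 2) :=
    mul_le_mul_of_nonneg_left h2 (by linarith)
  nlinarith

theorem pointwise_real (p : ℝ) (hp : 2 < p) (ε : ℝ) (hε : 0 < ε) : ∃ C : ℝ, 0 < C ∧ ∀ a x : ℂ,
    ‖a + x‖ ^ p ≤ ‖a‖ ^ p + p * (‖a‖ ^ (p - 2) * (conj a * x).re)
      + (1 + ε) * ‖x‖ ^ p + C * (‖a‖ ^ (p - 2) * ‖x‖ ^ 2) := by
  -- choice of K
  obtain ⟨δ, hδ0, hδ⟩ : ∃ δ : ℝ, 0 < δ ∧ (1 + δ) ^ p ≤ 1 + ε := by
    refine ⟨(1 + ε) ^ (1 / p) - 1, ?_, ?_⟩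
    · have : 1 < (1 + ε) ^ (1 / p) := Real.one_lt_rpow (by linarith) (by positivity)
      linarith
    · have he : (1 + ((1 + ε) ^ (1 / p) - 1)) = (1 + ε) ^ (1 / p) := by ring
      rw [he, ← Real.rpow_mul (by linarith), one_div_mul_cancel (by linarith), Real.rpow_one]
  set K : ℝ := δ⁻¹ with hK
  have hK0 : 0 < K := inv_pos.2 hδ0
  have hT : 1 ≤ (1 + K) ^ 2 := by nlinarith
  obtain ⟨C1, hC1, hv⟩ := R10a_one_var (p / 2 - 1) (by linarith) ((1 + K) ^ 2) hT
  have hexp : p / 2 - 1 + 1 = p / 2 := by ring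
  rw [hexp] at hv
  refine ⟨p * δ + p / 2 + C1 * (2 + K) ^ 2, by positivity, fun a x => ?_⟩
  set A : ℝ := ‖a‖ with hA
  set X : ℝ := ‖x‖ with hX
  have hA0 : 0 ≤ A := norm_nonneg _
  have hX0 : 0 ≤ X := norm_nonneg _
  set r : ℝ := (conj a * x).re with hr
  have hrabs : |r| ≤ A * X := by
    calc |r| ≤ ‖conj a * x‖ := Complex.abs_re_le_norm _
      _ = A * X := by rw [norm_mul, RCLike.norm_conj]
  have hsum : ‖a + x‖ ^ 2 = A ^ 2 + 2 * r + X ^ 2 := by
    rw [hA, hX, hr, ← Complex.normSq_eq_norm_sq, ← Complex.normSq_eq_norm_sq,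
      ← Complex.normSq_eq_norm_sq, Complex.normSq_add]
    have : (a * conj x).re = (conj a * x).re := by
      simp [Complex.mul_re]
    rw [this]; ring
  have hAp : 0 ≤ A ^ (p - 2) := Real.rpow_nonneg hA0 _
  have hXp : 0 ≤ X ^ p := Real.rpow_nonneg hX0 _
  rcases le_total (K * A) X with hcase | hcase
  · -- large x
    have hAX : A ≤ δ * X := by
      have : δ * (K * A) ≤ δ * X := mul_le_mul_of_nonneg_left hcase hδ0.le
      rwa [← mul_assoc, hK, mul_inv_cancel₀ hδ0.ne', one_mul] at this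
    have h1 : ‖a + x‖ ≤ (1 + δ) * X := by
      calc ‖a + x‖ ≤ A + X := norm_add_le _ _
        _ ≤ (1 + δ) * X := by linarith
    have h2 : ‖a + x‖ ^ p ≤ (1 + ε) * X ^ p := by
      calc ‖a + x‖ ^ p ≤ ((1 + δ) * X) ^ p :=
            Real.rpow_le_rpow (norm_nonneg _) h1 (by linarith)
        _ = (1 + δ) ^ p * X ^ p := Real.mul_rpow (by linarith) hX0
        _ ≤ (1 + ε) * X ^ p := mul_le_mul_of_nonneg_right hδ hXp
    have h3 : -(δ * X ^ 2) ≤ r := by
      have := (abs_le.1 hrabs).1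
      nlinarith
    have h4 : 0 ≤ A ^ p := Real.rpow_nonneg hA0 _
    have h5 : A ^ (p - 2) * (-(δ * X ^ 2)) ≤ A ^ (p - 2) * r := mul_le_mul_of_nonneg_left h3 hAp
    have h6 : 0 ≤ (p / 2 + C1 * (2 + K) ^ 2) * (A ^ (p - 2) * X ^ 2) := by positivity
    have h7 : p * (A ^ (p - 2) * (-(δ * X ^ 2))) ≤ p * (A ^ (p - 2) * r) :=
      mul_le_mul_of_nonneg_left h5 (by linarith)
    nlinarith
  · rcases eq_or_lt_of_le hA0 with hAz | hApos
    · -- a = 0, then x = 0
      have hXz : X = 0 := by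
        have : X ≤ 0 := by rw [← hAz, mul_zero] at hcase; exact hcase
        linarith
      have ha : a = 0 := norm_eq_zero.1 hAz.symm
      have hx : x = 0 := norm_eq_zero.1 hXz
      have hp0 : p ≠ 0 := by linarith
      rw [ha, hx, add_zero, norm_zero, Real.zero_rpow hp0, ← hAz, hXz, Real.zero_rpow hp0,
        Real.zero_rpow (by linarith)]
      simp
    · set t : ℝ := ‖a + x‖ ^ 2 / A ^ 2 with ht
      have hA2 : 0 < A ^ 2 := by positivity
      have ht0 : 0 ≤ t := by positivity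
      have htT : t ≤ (1 + K) ^ 2 := by
        rw [ht, div_le_iff₀ hA2, ← mul_pow]
        apply pow_le_pow_left₀ (norm_nonneg _)
        calc ‖a + x‖ ≤ A + X := norm_add_le _ _
          _ ≤ (1 + K) * A := by linarith
      have h1 := hv t ht0 htT
      have h2 : ‖a + x‖ ^ p = A ^ p * t ^ (p / 2) := by
        have e1 : A ^ p = (A ^ 2) ^ (p / 2) := by
          rw [← Real.rpow_natCast, ← Real.rpow_mul hA0]; congr 1; push_cast; ring
        have e2 : ‖a + x‖ ^ p = (‖a + x‖ ^ 2) ^ (p / 2) := by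
          rw [← Real.rpow_natCast, ← Real.rpow_mul (norm_nonneg _)]; congr 1; push_cast; ring
        rw [e1, e2, ← Real.mul_rpow hA2.le ht0, ht, mul_div_cancel₀ _ hA2.ne']
      have h3 : A ^ p = A ^ (p - 2) * A ^ 2 := by
        rw [← Real.rpow_natCast, ← Real.rpow_add hApos]; congr 1; push_cast; ring
      have h4 : A ^ 2 * (t - 1) = 2 * r + X ^ 2 := by
        rw [ht]; field_simp; linarith
      have h5 : A ^ p * (t - 1) = A ^ (p - 2) * (2 * r + X ^ 2) := by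
        rw [h3, mul_assoc, h4]
      have h6 : A ^ 2 * (A ^ 2 * (t - 1) ^ 2) = (2 * r + X ^ 2) ^ 2 := by
        rw [← h4]; ring
      have h7 : |2 * r + X ^ 2| ≤ (2 + K) * (A * X) := by
        calc |2 * r + X ^ 2| ≤ |2 * r| + |X ^ 2| := abs_add_le _ _
          _ = 2 * |r| + X ^ 2 := by rw [abs_mul, abs_two, abs_of_nonneg (by positivity : 0 ≤ X ^ 2)]
          _ ≤ (2 + K) * (A * X) := by nlinarith
      have h8 : (2 * r + X ^ 2) ^ 2 ≤ ((2 + K) * (A * X)) ^ 2 := by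
        rw [← sq_abs]
        exact pow_le_pow_left₀ (abs_nonneg _) h7 2
      have h9 : A ^ 2 * (t - 1) ^ 2 ≤ (2 + K) ^ 2 * X ^ 2 := by
        have : A ^ 2 * (A ^ 2 * (t - 1) ^ 2) ≤ A ^ 2 * ((2 + K) ^ 2 * X ^ 2) := by
          rw [h6]; calc _ ≤ _ := h8
            _ = _ := by ring
        exact le_of_mul_le_mul_left this hA2
      have h10 : A ^ p * (t - 1) ^ 2 ≤ A ^ (p - 2) * ((2 + K) ^ 2 * X ^ 2) := by
        rw [h3, mul_assoc]
        exact mul_le_mul_of_nonneg_left h9 hAp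
      have hApp : 0 ≤ A ^ p := Real.rpow_nonneg hA0 _
      have h11 : A ^ p * t ^ (p / 2) ≤ A ^ p * (1 + p / 2 * (t - 1) + C1 * (t - 1) ^ 2) :=
        mul_le_mul_of_nonneg_left h1 hApp
      have h12 : A ^ p * (1 + p / 2 * (t - 1) + C1 * (t - 1) ^ 2) =
          A ^ p + p / 2 * (A ^ p * (t - 1)) + C1 * (A ^ p * (t - 1) ^ 2) := by ring
      rw [h2]
      have h13 : C1 * (A ^ p * (t - 1) ^ 2) ≤ C1 * (A ^ (p - 2) * ((2 + K) ^ 2 * X ^ 2)) :=
        mul_le_mul_of_nonneg_left h10 hC1.le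
      have h14 : 0 ≤ (1 + ε) * X ^ p := by positivity
      have h15 : 0 ≤ p * δ * (A ^ (p - 2) * X ^ 2) := by positivity
      rw [h12, h5] at h11
      nlinarith

end Helper85.BP.P
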