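import Mathlib

open scoped KaehlerDifferential

noncomputable section

namespace Pool.Agent.Helper43

universe u

open IntermediateField.algebraAdjoinAdjoin in
theorem formallyEtale_adjoin {k K : Type u} [Field k] [Field K] [Algebra k K] (s : Set K)
    [Algebra.IsSeparable (IntermediateField.adjoin k s) K] :
    Algebra.FormallyEtale (Algebra.adjoin k s) K := by
  have h1 : Algebra.FormallyEtale (Algebra.adjoin k s) (IntermediateField.adjoin k s) :=
    .of_isLocalization (nonZeroDivisors _)
  have h2 : Algebra.FormallyEtale (IntermediateField.adjoin k s) K :=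
    Algebra.FormallyEtale.of_isSeparable _ K
  exact .comp _ (IntermediateField.adjoin k s) _

/-- The differentials of a separating transcendence basis are a basis of the differentials. -/
theorem exists_basis_D {k K : Type u} [Field k] [Field K] [Algebra k K] {n : ℕ} {e : Fin n → K}
    (he : AlgebraicIndependent k e)
    (hs : Algebra.IsSeparable (IntermediateField.adjoin k (Set.range e)) K) :
    ∃ b : Module.Basis (Fin n) K Ω[K⁄k], ∀ i, b i = KaehlerDifferential.D k K (e i) := by
  let S := MvPolynomial (Fin n) k
  let _ : Algebra S K := (MvPolynomial.aeval e).toRingHom.toAlgebra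
  have : IsScalarTower k S K := IsScalarTower.of_algebraMap_eq fun c => by
    change _ = MvPolynomial.aeval e (MvPolynomial.C c)
    rw [MvPolynomial.aeval_C]
  have h1 : (MvPolynomial.aeval e : S →ₐ[k] K).toRingHom.FormallyEtale := by
    have h2 := formallyEtale_adjoin (k := k) (Set.range e)
    have h3 := RingHom.formallyEtale_algebraMap.mpr h2
    have h4 : (he.aevalEquiv : S ≃ₐ[k] Algebra.adjoin k (Set.range e)).toRingHom.FormallyEtale := by
      let _ := (he.aevalEquiv : S ≃ₐ[k] Algebra.adjoin k (Set.range e)).toRingHom.toAlgebra
      let f : S ≃ₐ[S] Algebra.adjoin k (Set.range e) :=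
        { he.aevalEquiv.toRingEquiv with commutes' := fun _ => rfl }
      exact Algebra.FormallyEtale.of_equiv f
    have h5 := h4.comp h3
    convert h5 using 1
    ext x
    · simp
    · simp
  have : Algebra.FormallyEtale S K := h1
  let b₀ := (KaehlerDifferential.mvPolynomialBasis k (Fin n)).baseChange K
  let b := b₀.map (KaehlerDifferential.tensorKaehlerEquivOfFormallyEtale k S K)
  refine ⟨b, fun i => ?_⟩
  simp only [b, b₀, Module.Basis.map_apply, Module.Basis.baseChange_apply,
    KaehlerDifferential.mvPolynomialBasis_apply]
  rw [KaehlerDifferential.tensorKaehlerEquivOfFormallyEtale_apply,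
    KaehlerDifferential.mapBaseChange_tmul, one_smul, KaehlerDifferential.map_D]
  congr 1
  change MvPolynomial.aeval e (MvPolynomial.X i) = e i
  simp

end Pool.Agent.Helper43
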