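import Pool.Agent.Helper43.GeoForms

set_option linter.unusedSimpArgs false

noncomputable section

namespace Pool.Agent.Helper43

universe u

/-- The coordinates `v_j = r_i ^ 4 r_l + r_i r_l ^ 4`, where `i`, `j`, `l` are distinct. -/
def exv {R : Type*} [CommRing R] (r : Fin 3 → R) (j : Fin 3) : R :=
  r (j + 1) ^ 4 * r (j + 2) + r (j + 1) * r (j + 2) ^ 4

/-- The coordinates `w_i = t r_i ^ 4 + t ^ 4 r_i`. -/
def exw {R : Type*} [CommRing R] (r : Fin 3 → R) (t : R) (i : Fin 3) : R :=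
  t * r i ^ 4 + t ^ 4 * r i

/-- The coordinates `t ^ 2`, `r_i ^ 2`. -/
def exU {R : Type*} [CommRing R] (r : Fin 3 → R) (t : R) (o : Option (Fin 3)) : R :=
  o.elim (t ^ 2) fun i => r i ^ 2

/-- The coordinates `v_j`, `w_i`. -/
def exV {R : Type*} [CommRing R] (r : Fin 3 → R) (t : R) (s : Fin 3 ⊕ Fin 3) : R :=
  s.elim (exv r) (exw r t)

/-- Three distinct indices. -/
structure Dist (i j l : Fin 3) : Prop where
  ij : i ≠ j
  jl : j ≠ l
  il : i ≠ l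

namespace Dist

variable {i j l : Fin 3} (h : Dist i j l)
include h

theorem jil : Dist j i l := ⟨h.ij.symm, h.il, h.jl⟩
theorem ilj : Dist i l j := ⟨h.il, h.jl.symm, h.ij⟩

theorem cases (m : Fin 3) : m = i ∨ m = j ∨ m = l := by
  obtain ⟨h1, h2, h3⟩ := h
  revert i j l m
  decide

end Dist

theorem exists_dist {i j : Fin 3} (h : i ≠ j) : ∃ l, Dist i j l := by
  have : ∃ l, j ≠ l ∧ i ≠ l := by
    revert i j
    decide
  obtain ⟨l, h1, h2⟩ := this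
  exact ⟨l, h, h1, h2⟩

theorem exv_eq {R : Type*} [CommRing R] (r : Fin 3 → R) {i j l : Fin 3} (h : Dist i j l) :
    exv r j = r i ^ 4 * r l + r i * r l ^ 4 := by
  obtain ⟨h1, h2, h3⟩ := h
  unfold exv
  fin_cases i <;> fin_cases j <;> fin_cases l <;> simp at h1 h2 h3 ⊢ <;> ring

section Rel

variable {R : Type*} [CommRing R] (r : Fin 3 → R) (t : R) {i j l : Fin 3} (h : Dist i j l)
  (h2 : (2 : R) = 0)
include h h2

theorem rel_R1 : r i ^ 4 * exv r i + r j ^ 4 * exv r j + r l ^ 4 * exv r l = 0 := by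
  simp only [exv_eq r h, exv_eq r h.jil, exv_eq r h.ilj, exw]
  linear_combination (r i * r j ^ 4 * r l ^ 4 + r i ^ 4 * r j * r l ^ 4 + r i ^ 4 * r j ^ 4
    * r l) * h2

theorem rel_R2 : r i ^ 2 * exv r i ^ 2 + r j ^ 2 * exv r j ^ 2 + r l ^ 2 * exv r l ^ 2 = 0 := by
  simp only [exv_eq r h, exv_eq r h.jil, exv_eq r h.ilj, exw]
  linear_combination (r i ^ 2 * r j ^ 2 * r l ^ 8 + r i ^ 2 * r j ^ 5 * r l ^ 5 + r i ^ 2 *
    r j ^ 8 * r l ^ 2 + r i ^ 5 * r j ^ 2 * r l ^ 5 + r i ^ 5 * r j ^ 5 * r l ^ 2 + r i ^ 8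
    * r j ^ 2 * r l ^ 2) * h2

theorem rel_R5 : exw r t i * exv r i + exw r t j * exv r j + exw r t l * exv r l = 0 := by
  simp only [exv_eq r h, exv_eq r h.jil, exv_eq r h.ilj, exw]
  linear_combination (r i * r j * r l ^ 4 * t ^ 4 + r i * r j ^ 4 * r l * t ^ 4 + r i * r j
    ^ 4 * r l ^ 4 * t + r i ^ 4 * r j * r l * t ^ 4 + r i ^ 4 * r j * r l ^ 4 * t + r i ^ 4
    * r j ^ 4 * r l * t) * h2

theorem rel_R6 : t ^ 4 * exv r j = r i ^ 4 * exw r t l + r l ^ 4 * exw r t i := by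
  simp only [exv_eq r h, exv_eq r h.jil, exv_eq r h.ilj, exw]
  linear_combination ((-1) * r i ^ 4 * r l ^ 4 * t) * h2

theorem rel_R7 : t ^ 2 * exv r j ^ 2 = r i ^ 2 * exw r t l ^ 2 + r l ^ 2 * exw r t i ^ 2 := by
  simp only [exv_eq r h, exv_eq r h.jil, exv_eq r h.ilj, exw]
  linear_combination ((-1) * r i ^ 2 * r l ^ 2 * t ^ 8 + (-1) * r i ^ 2 * r l ^ 5 * t ^ 5 +
    (-1) * r i ^ 5 * r l ^ 2 * t ^ 5 + r i ^ 5 * r l ^ 5 * t ^ 2) * h2

end Rel

/-- The data of the example in a field `F`. -/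
structure Gd {F : Type u} [Field F] (r : Fin 3 → F) (t : F) : Prop where
  h2 : (2 : F) = 0
  r0 : ∀ i, r i ≠ 0
  t0 : t ≠ 0
  v0 : ∀ i, exv r i ≠ 0
  w0 : ∀ i, exw r t i ≠ 0

section RelF

variable {F : Type u} [Field F] {r : Fin 3 → F} {t : F} (g : Gd r t) {i j l : Fin 3}
  (h : Dist i j l)
include g h

theorem rel_Y1 : exv r i / exv r j =
    (r j ^ 2 / r i ^ 2) ^ 2 + (r l ^ 2 / r i ^ 2) ^ 2 * (exv r l / exv r j) := by
  have h1 := rel_R1 r h g.h2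
  have hi := g.r0 i
  have hj := g.v0 j
  field_simp
  linear_combination h1 - (r j ^ 4 * exv r j + r l ^ 4 * exv r l) * g.h2

theorem rel_Y2 : (r j ^ 2 / r i ^ 2) + (r j ^ 2 / r i ^ 2) ^ 4 =
    (exv r l / exv r j) ^ 2 * ((r l ^ 2 / r i ^ 2) + (r l ^ 2 / r i ^ 2) ^ 4) := by
  have h1 := rel_Y1 g h
  have h3 := rel_R2 r h g.h2
  have hi := g.r0 i
  have hj := g.v0 j
  have h4 : (exv r i / exv r j) ^ 2 + r j ^ 2 / r i ^ 2 +
      (exv r l / exv r j) ^ 2 * (r l ^ 2 / r i ^ 2) = 0 := by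
    field_simp
    linear_combination h3
  rw [h1] at h4
  linear_combination h4 - ((r l ^ 2 / r i ^ 2) ^ 4 * (exv r l / exv r j) ^ 2 +
    (r l ^ 2 / r i ^ 2) * (exv r l / exv r j) ^ 2 + (r j ^ 2 / r i ^ 2) ^ 2 *
    (r l ^ 2 / r i ^ 2) ^ 2 * (exv r l / exv r j)) * g.h2

theorem rel_A1 : exw r t l / exv r j =
    (t ^ 2 / r i ^ 2) ^ 2 + (r l ^ 2 / r i ^ 2) ^ 2 * (exw r t i / exv r j) := by
  have h1 := rel_R6 r t h g.h2
  have hi := g.r0 i
  have hj := g.v0 j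
  field_simp
  linear_combination -h1 - (r l ^ 4 * exw r t i) * g.h2

theorem rel_A2 : exw r t j / exv r j =
    (exv r i / exv r j) * (exw r t i / exv r j) +
      (exw r t l / exv r j) * (exv r l / exv r j) := by
  have h1 := rel_R5 r t h g.h2
  have hj := g.v0 j
  field_simp
  linear_combination h1 - (exw r t i * exv r i + exw r t l * exv r l) * g.h2

theorem rel_A3 : (t ^ 2 / r i ^ 2) + (t ^ 2 / r i ^ 2) ^ 4 =
    (exw r t i / exv r j) ^ 2 * ((r l ^ 2 / r i ^ 2) + (r l ^ 2 / r i ^ 2) ^ 4) := by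
  have h1 := rel_A1 g h
  have h3 := rel_R7 r t h g.h2
  have hi := g.r0 i
  have hj := g.v0 j
  have h4 : t ^ 2 / r i ^ 2 = (exw r t l / exv r j) ^ 2 +
      (exw r t i / exv r j) ^ 2 * (r l ^ 2 / r i ^ 2) := by
    field_simp
    linear_combination h3
  rw [h1] at h4
  linear_combination h4 + ((t ^ 2 / r i ^ 2) ^ 4 + (t ^ 2 / r i ^ 2) ^ 2 *
    (r l ^ 2 / r i ^ 2) ^ 2 * (exw r t i / exv r j)) * g.h2

theorem rel_B1 : exw r t l / exw r t i =
    (t ^ 2 / r i ^ 2) ^ 2 * (exv r j / exw r t i) + (r l ^ 2 / r i ^ 2) ^ 2 := by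
  have h1 := rel_R6 r t h g.h2
  have hi := g.r0 i
  have hj := g.w0 i
  field_simp
  linear_combination -h1 - (r l ^ 4 * exw r t i) * g.h2

theorem rel_B2 : exw r t j / exw r t i =
    (exv r i / exv r j) + (exw r t l / exw r t i) * (exv r l / exv r j) := by
  have h1 := rel_R5 r t h g.h2
  have hj := g.v0 j
  have hi := g.w0 i
  field_simp
  linear_combination h1 - (exw r t i * exv r i + exw r t l * exv r l) * g.h2

theorem rel_B3 : (r l ^ 2 / r i ^ 2) + (r l ^ 2 / r i ^ 2) ^ 4 =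
    (exv r j / exw r t i) ^ 2 * ((t ^ 2 / r i ^ 2) + (t ^ 2 / r i ^ 2) ^ 4) := by
  rw [rel_A3 g h]
  have hj := g.v0 j
  have hi := g.w0 i
  field_simp

theorem rel_C1 : exv r j / exw r t i =
    (r i ^ 2 / t ^ 2) ^ 2 * (exw r t l / exw r t i + (r l ^ 2 / r i ^ 2) ^ 2) := by
  have h1 := rel_R6 r t h g.h2
  have hi := g.r0 i
  have hj := g.w0 i
  have ht := g.t0
  field_simp
  linear_combination h1

theorem rel_C3 : (r l ^ 2 / r i ^ 2) + (r i ^ 2 / t ^ 2) ^ 3 * (r l ^ 2 / r i ^ 2) ^ 4 =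
    (1 + (r i ^ 2 / t ^ 2) ^ 3) * (exw r t l / exw r t i) ^ 2 := by
  have h1 := rel_B3 g h
  have h3 := rel_C1 g h
  have hi := g.r0 i
  have ht := g.t0
  have h4 : (r i ^ 2 / t ^ 2) * (t ^ 2 / r i ^ 2) = 1 := by field_simp
  generalize (r i ^ 2 / t ^ 2) = β at *
  generalize (t ^ 2 / r i ^ 2) = α at *
  generalize (r l ^ 2 / r i ^ 2) = b at *
  generalize exw r t l / exw r t i = y at *
  rw [h3] at h1
  have h5 : b + b ^ 4 = (y + b ^ 2) ^ 2 * (β ^ 3 * (β * α) + (β * α) ^ 4) := by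
    rw [h1]; ring
  rw [h4] at h5
  linear_combination h5 + (b ^ 2 * y * (β ^ 3 + 1) + b ^ 4 * β ^ 3) * g.h2

end RelF

end Pool.Agent.Helper43
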