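import Pool.Agent.Helper43.ExFib

open scoped KaehlerDifferential

noncomputable section

namespace Pool.Agent.Helper43

universe u

open ProjVar

set_option linter.unusedSimpArgs false

open IntermediateField in
/-- In a simple transcendental extension, the algebraic elements are in the base. -/
theorem alg_mem_of_transcendental {K F : Type u} [Field K] [Field F] [Algebra K F] {τ : F}
    (hτ : Transcendental K τ) {z : F} (hz : z ∈ K⟮τ⟯) (ha : IsAlgebraic K z) :
    ∃ c : K, algebraMap K F c = z := by
  let e := RatFunc.algEquivOfTranscendental τ hτ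
  let f : RatFunc K := e.symm ⟨z, hz⟩
  have h1 : IsAlgebraic K (⟨z, hz⟩ : K⟮τ⟯) := by
    rw [IntermediateField.isAlgebraic_iff]
    exact ha
  have h2 : IsAlgebraic K f := h1.algHom (e.symm : K⟮τ⟯ →ₐ[K] RatFunc K)
  by_cases hc : ∃ c, f = RatFunc.C c
  · obtain ⟨c, hc⟩ := hc
    refine ⟨c, ?_⟩
    have h3 : e (RatFunc.C c) = ⟨z, hz⟩ := by
      rw [← hc]
      exact e.apply_symm_apply _
    have h4 : e (algebraMap K (RatFunc K) c) = algebraMap K K⟮τ⟯ c := e.commutes c
    rw [RatFunc.algebraMap_eq_C, h3] at h4
    exact (congrArg Subtype.val h4).symm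
  · exact absurd h2 (RatFunc.transcendental_of_ne_C f hc)

section

variable {k : Type u} [Field k] {F : Type u} [Field F] [Algebra k F] [Algebra (S4 k) F]
  [IsFractionRing (S4 k) F] [IsScalarTower k (S4 k) F] [CharP F 2]

/-- A derivation of `F` killing the function field of the threefold. -/
theorem exists_der : ∃ δ : Derivation k F F, (∀ i, δ (fr k F i) = fr k F i ^ 4) ∧
    δ (ft k F) = ft k F ^ 4 := by
  have hb := (basis4 (k := k) (F := F)).1
  have htop : IntermediateField.adjoin k (Set.range fun i : Fin 4 =>
      algebraMap (S4 k) F (MvPolynomial.X i)) = ⊤ := by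
    rw [eq_top_iff]
    intro z _
    have hS : ∀ f : S4 k, algebraMap (S4 k) F f ∈ IntermediateField.adjoin k (Set.range
        fun i : Fin 4 => algebraMap (S4 k) F (MvPolynomial.X i)) := by
      intro f
      induction f using MvPolynomial.induction_on with
      | C a =>
        have : algebraMap (S4 k) F (MvPolynomial.C a) = algebraMap k F a :=
          (IsScalarTower.algebraMap_apply k (S4 k) F a).symm
        rw [this]
        exact IntermediateField.algebraMap_mem _ a
      | add f g hf hg =>
        rw [map_add]
        exact add_mem hf hg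
      | mul_X f i hf =>
        rw [map_mul]
        exact mul_mem hf (IntermediateField.subset_adjoin _ _ ⟨i, rfl⟩)
    obtain ⟨a, b, -, rfl⟩ := IsFractionRing.div_surjective (A := S4 k) z
    exact div_mem (hS a) (hS b)
  have hsep : Algebra.IsSeparable (IntermediateField.adjoin k (Set.range fun i : Fin 4 =>
      algebraMap (S4 k) F (MvPolynomial.X i))) F := by
    rw [htop]
    exact ⟨fun z => isSeparable_algebraMap (F := (⊤ : IntermediateField k F))
      (⟨z, trivial⟩ : (⊤ : IntermediateField k F))⟩
  obtain ⟨b, hb'⟩ := exists_basis_D hb hsep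
  let ℓ : Ω[F⁄k] →ₗ[F] F := b.constr F fun i => algebraMap (S4 k) F (MvPolynomial.X i) ^ 4
  refine ⟨ℓ.compDer (KaehlerDifferential.D k F), fun i => ?_, ?_⟩
  · change ℓ (KaehlerDifferential.D k F (algebraMap (S4 k) F (MvPolynomial.X i.castSucc))) = _
    rw [← hb']
    simp only [ℓ, Module.Basis.constr_basis]
    rfl
  · change ℓ (KaehlerDifferential.D k F (algebraMap (S4 k) F (MvPolynomial.X 3))) = _
    rw [← hb']
    simp only [ℓ, Module.Basis.constr_basis]
    rfl

variable (g : Gd (fr k F) (ft k F))

theorem der_kill {δ : Derivation k F F} (h1 : ∀ i, δ (fr k F i) = fr k F i ^ 4)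
    (h2 : δ (ft k F) = ft k F ^ 4) : ∀ z ∈ (three k g).functionField, δ z = 0 := by
  have h20 : (2 : F) = 0 := CharTwo.two_eq_zero
  have hp : Closed (fun z (_ : k) => z ∈ (three k g).functionField) (fun z => δ z = 0) :=
    { const := fun c => δ.map_algebraMap c
      add := fun {z w} hz hw => by rw [map_add, hz, hw, add_zero]
      mul := fun {z w} hz hw => by rw [Derivation.leibniz, hz, hw, smul_zero, smul_zero, add_zero]
      inv := fun {z _} _ _ hz => by rw [Derivation.leibniz_inv, hz, smul_zero]
      root := fun {z s w} _ hs hw h => by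
        have h3 := congrArg δ h
        rw [map_add, Derivation.leibniz, hs, hw, der_four, smul_zero, smul_zero, add_zero,
          add_zero] at h3
        exact h3 }
  have hv : ∀ j, δ (exv (fr k F) j) = 0 := by
    intro j
    unfold exv
    rw [map_add, Derivation.leibniz, Derivation.leibniz, der_four, der_four, h1, h1]
    simp only [smul_zero, smul_eq_mul, add_zero, zero_add]
    linear_combination (fr k F (j + 1) ^ 4 * fr k F (j + 2) ^ 4) * h20
  have hw : ∀ j, δ (exw (fr k F) (ft k F) j) = 0 := by
    intro j
    unfold exw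
    rw [map_add, Derivation.leibniz, Derivation.leibniz, der_four, der_four, h1, h2]
    simp only [smul_zero, smul_eq_mul, add_zero, zero_add]
    linear_combination (fr k F j ^ 4 * ft k F ^ 4) * h20
  have hx : ∀ e, δ (exX (fr k F) (ft k F) e) = 0 := by
    intro e
    obtain ⟨⟨i, j⟩, ⟨o, s⟩⟩ := e
    have hU : δ (exU (fr k F) (ft k F) o) = 0 := by
      cases o with
      | none => exact der_sq δ _
      | some i => exact der_sq δ _
    have hV : δ (exV (fr k F) (ft k F) s) = 0 := by
      cases s with
      | inl i => exact hv i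
      | inr i => exact hw i
    change δ (fr k F i ^ 2 * exv (fr k F) j * (exU (fr k F) (ft k F) o *
      exV (fr k F) (ft k F) s)) = 0
    exact hp.mul (hp.mul (der_sq δ _) (hv j)) (hp.mul hU hV)
  refine functionField_induction (three k g) hp (g.X0 _) (o := (three k g).o) fun e => ?_
  rw [div_eq_mul_inv]
  have ho : δ ((three k g).x (three k g).o) = 0 := hx _
  exact hp.mul (hx e) (by rw [Derivation.leibniz_inv, ho, smul_zero])

/-- The field generated by the ratios `r_1 / r_0`, `r_2 / r_0`. -/
def midField (k F : Type u) [Field k] [Field F] [Algebra k F] [Algebra (S4 k) F] :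
    IntermediateField k F :=
  IntermediateField.adjoin k {fr k F 1 / fr k F 0, fr k F 2 / fr k F 0}

omit [IsFractionRing (S4 k) F] [IsScalarTower k (S4 k) F] [CharP F 2] in
include g in
theorem ratio_mem_mid (m : Fin 3) : fr k F m / fr k F 0 ∈ midField k F := by
  fin_cases m
  · change fr k F 0 / fr k F 0 ∈ midField k F
    rw [div_self (g.r0 0)]
    exact one_mem _
  · exact IntermediateField.subset_adjoin _ _ (Set.mem_insert _ _)
  · exact IntermediateField.subset_adjoin _ _ (Set.mem_insert_of_mem _ rfl)

/-- The four elements `r_0`, `r_1 / r_0`, `r_2 / r_0`, `t / r_0` are independent. -/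
theorem algInd_ratio : AlgebraicIndependent k
    (![fr k F 0, fr k F 1 / fr k F 0, fr k F 2 / fr k F 0, ft k F / fr k F 0] : Fin 4 → F) := by
  have g : Gd (fr k F) (ft k F) := gd
  set e : Fin 4 → F := ![fr k F 0, fr k F 1 / fr k F 0, fr k F 2 / fr k F 0, ft k F / fr k F 0]
    with he
  refine algInd_of_isAlgebraic basis4 ?_
  have h0 : e 0 ∈ IntermediateField.adjoin k (Set.range e) :=
    IntermediateField.subset_adjoin _ _ ⟨0, rfl⟩
  have h1 : ∀ q, e q * e 0 ∈ IntermediateField.adjoin k (Set.range e) := fun q =>
    mul_mem (IntermediateField.subset_adjoin _ _ ⟨q, rfl⟩) h0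
  have hr := g.r0 0
  intro q
  rw [← IntermediateField.isAlgebraic_adjoin_iff]
  have key : ∀ z ∈ IntermediateField.adjoin k (Set.range e),
      IsAlgebraic (IntermediateField.adjoin k (Set.range e)) z := fun z hz =>
    isAlgebraic_algebraMap (⟨z, hz⟩ : IntermediateField.adjoin k (Set.range e))
  fin_cases q
  · exact key _ h0
  · have h2 := h1 1
    have h3 : e 1 * e 0 = algebraMap (S4 k) F (MvPolynomial.X 1) := by
      change fr k F 1 / fr k F 0 * fr k F 0 = fr k F 1
      field_simp
    rw [h3] at h2
    exact key _ h2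
  · have h2 := h1 2
    have h3 : e 2 * e 0 = algebraMap (S4 k) F (MvPolynomial.X 2) := by
      change fr k F 2 / fr k F 0 * fr k F 0 = fr k F 2
      field_simp
    rw [h3] at h2
    exact key _ h2
  · have h2 := h1 3
    have h3 : e 3 * e 0 = algebraMap (S4 k) F (MvPolynomial.X 3) := by
      change ft k F / fr k F 0 * fr k F 0 = ft k F
      field_simp
    rw [h3] at h2
    exact key _ h2

theorem transcendental_tau : Transcendental (midField k F) (ft k F / fr k F 0) := by
  have h := (algInd_ratio (k := k) (F := F)).transcendental_adjoin (s := {1, 2}) (i := 3)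
    (by decide)
  rw [← IntermediateField.transcendental_adjoin_iff] at h
  have e : (![fr k F 0, fr k F 1 / fr k F 0, fr k F 2 / fr k F 0, ft k F / fr k F 0] :
      Fin 4 → F) '' {1, 2} = {fr k F 1 / fr k F 0, fr k F 2 / fr k F 0} := by
    rw [Set.image_pair]
    rfl
  rw [e] at h
  exact h

end

end Pool.Agent.Helper43
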