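import Pool.Agent.Helper43.ExGen

noncomputable section

namespace Pool.Agent.Helper43

universe u

section

variable {k F : Type u} [Field k] [Field F] [Algebra k F] {r : Fin 3 → F} {t : F} (g : Gd r t)
  {i j l : Fin 3} {H : F → k → Prop} (hH : Place H)

include hH

/-- Passing to another nonvanishing coordinate. -/
theorem move {ι : Type*} {y : ι → F} {o : ι} {c : ι → k} (hc : ∀ o', H (y o' / y o) (c o'))
    (hy : y o ≠ 0) {o₁ : ι} (h : c o₁ ≠ 0) (o') : ∃ d, H (y o' / y o₁) d := by
  refine ⟨c o' / c o₁, ?_⟩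
  have h1 := hH.div (hc o') (hc o₁) h
  have h2 : y o' / y o / (y o₁ / y o) = y o' / y o₁ := by
    have := hH.ne_zero (hc o₁) h
    have h3 : y o₁ ≠ 0 := by
      intro h0
      rw [h0, zero_div] at this
      exact this rfl
    field_simp
  rwa [h2] at h1

include g

/-- Every place with a centre on the surface lies on a chart with `i ≠ j`. -/
theorem nice_exists {i₀ j₀ : Fin 3} (hu : ∀ m, ∃ c, H (r m ^ 2 / r i₀ ^ 2) c)
    (hv : ∀ m, ∃ c, H (exv r m / exv r j₀) c) :
    ∃ i j l, Dist i j l ∧ (∀ m, ∃ c, H (r m ^ 2 / r i ^ 2) c) ∧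
      ∀ m, ∃ c, H (exv r m / exv r j) c := by
  by_cases hij : i₀ = j₀
  · subst hij
    obtain ⟨j, hj⟩ : ∃ j, i₀ ≠ j := (by decide : ∀ i : Fin 3, ∃ j, i ≠ j) i₀
    obtain ⟨l, h⟩ := exists_dist hj
    have hu' := hu
    have hv' := hv
    choose a ha using hu
    choose b hb using hv
    have h1 : 1 + a j ^ 2 * b j + a l ^ 2 * b l = 0 := by
      have h3 := hH.add (hH.add hH.one (hH.mul (hH.pow (ha j) 2) (hb j)))
        (hH.mul (hH.pow (ha l) 2) (hb l))
      refine hH.uniq h3 ?_
      have h4 : 1 + (r j ^ 2 / r i₀ ^ 2) ^ 2 * (exv r j / exv r i₀) +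
          (r l ^ 2 / r i₀ ^ 2) ^ 2 * (exv r l / exv r i₀) = 0 := by
        have h5 := rel_R1 r h g.h2
        have h6 := g.r0 i₀
        have h7 := g.v0 i₀
        field_simp
        linear_combination h5
      rw [h4]
      exact hH.zero
    by_cases haj : a j = 0
    · have hal : a l ≠ 0 := by
        intro hal
        rw [haj, hal] at h1
        simp at h1
      have h3 := move hH ha (pow_ne_zero _ (g.r0 i₀)) hal
      exact ⟨l, i₀, j, ⟨h.il.symm, h.ij, h.jl.symm⟩, h3, hv'⟩
    · have h3 := move hH ha (pow_ne_zero _ (g.r0 i₀)) haj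
      exact ⟨j, i₀, l, h.jil, h3, hv'⟩
  · obtain ⟨l, h⟩ := exists_dist hij
    exact ⟨i₀, j₀, l, h, hu, hv⟩

/-- Every place with a centre on the threefold, over the chart `i ≠ j` of the surface, lies on
one of the three charts. -/
theorem type_exists (h : Dist i j l) (hu : ∀ m, ∃ c, H (r m ^ 2 / r i ^ 2) c)
    (hv : ∀ m, ∃ c, H (exv r m / exv r j) c) {o₀ : Option (Fin 3)} {s₀ : Fin 3 ⊕ Fin 3}
    (hU : ∀ o, ∃ c, H (exU r t o / exU r t o₀) c)
    (hV : ∀ s, ∃ c, H (exV r t s / exV r t s₀) c) :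
    ∃ T : Ty, (∀ o, ∃ c, H (exU r t o / exU r t (T.idx i j).1) c) ∧
      ∀ s, ∃ c, H (exV r t s / exV r t (T.idx i j).2) c := by
  choose a ha using hu
  choose b hb using hv
  choose A hA using hU
  choose B hB using hV
  have hU0 := g.U0 o₀
  have hV0 := g.V0 s₀
  have hi := g.r0 i
  have hj := g.v0 j
  have ai : a i = 1 := hH.uniq (ha i) (by rw [div_self (pow_ne_zero _ hi)]; exact hH.one)
  have bj : b j = 1 := hH.uniq (hb j) (by rw [div_self hj]; exact hH.one)
  have Ao : A o₀ = 1 := hH.uniq (hA o₀) (by rw [div_self hU0]; exact hH.one)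
  have Bo : B s₀ = 1 := hH.uniq (hB s₀) (by rw [div_self hV0]; exact hH.one)
  -- the relations between the values
  have R3 : ∀ m, A (some m) = A (some i) * a m := by
    intro m
    refine hH.uniq (hA (some m)) ?_
    have := hH.mul (hA (some i)) (ha m)
    have e : exU r t (some i) / exU r t o₀ * (r m ^ 2 / r i ^ 2) =
        exU r t (some m) / exU r t o₀ := by
      change r i ^ 2 / exU r t o₀ * (r m ^ 2 / r i ^ 2) = r m ^ 2 / exU r t o₀
      field_simp
    rwa [e] at this
  have R4 : ∀ m, B (Sum.inl m) = B (Sum.inl j) * b m := by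
    intro m
    refine hH.uniq (hB (Sum.inl m)) ?_
    have := hH.mul (hB (Sum.inl j)) (hb m)
    have e : exV r t (Sum.inl j) / exV r t s₀ * (exv r m / exv r j) =
        exV r t (Sum.inl m) / exV r t s₀ := by
      change exv r j / exV r t s₀ * (exv r m / exv r j) = exv r m / exV r t s₀
      field_simp
    rwa [e] at this
  have R5 : B (Sum.inr i) * b i + B (Sum.inr j) * b j + B (Sum.inr l) * b l = 0 := by
    have h3 := hH.add (hH.add (hH.mul (hB (Sum.inr i)) (hb i)) (hH.mul (hB (Sum.inr j)) (hb j)))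
      (hH.mul (hB (Sum.inr l)) (hb l))
    refine hH.uniq h3 ?_
    have e : exV r t (Sum.inr i) / exV r t s₀ * (exv r i / exv r j) +
        exV r t (Sum.inr j) / exV r t s₀ * (exv r j / exv r j) +
        exV r t (Sum.inr l) / exV r t s₀ * (exv r l / exv r j) = 0 := by
      have h4 := rel_R5 r t h g.h2
      change exw r t i / exV r t s₀ * (exv r i / exv r j) +
        exw r t j / exV r t s₀ * (exv r j / exv r j) +
        exw r t l / exV r t s₀ * (exv r l / exv r j) = 0
      field_simp
      linear_combination h4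
    rw [e]
    exact hH.zero
  have R6 : A none ^ 2 * B (Sum.inl j) =
      A (some i) ^ 2 * B (Sum.inr l) + A (some l) ^ 2 * B (Sum.inr i) := by
    have h3 := hH.mul (hH.pow (hA none) 2) (hB (Sum.inl j))
    refine hH.uniq h3 ?_
    have h4 := hH.add (hH.mul (hH.pow (hA (some i)) 2) (hB (Sum.inr l)))
      (hH.mul (hH.pow (hA (some l)) 2) (hB (Sum.inr i)))
    have e : (exU r t none / exU r t o₀) ^ 2 * (exV r t (Sum.inl j) / exV r t s₀) =
        (exU r t (some i) / exU r t o₀) ^ 2 * (exV r t (Sum.inr l) / exV r t s₀) +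
        (exU r t (some l) / exU r t o₀) ^ 2 * (exV r t (Sum.inr i) / exV r t s₀) := by
      have h5 := rel_R6 r t h g.h2
      change (t ^ 2 / exU r t o₀) ^ 2 * (exv r j / exV r t s₀) =
        (r i ^ 2 / exU r t o₀) ^ 2 * (exw r t l / exV r t s₀) +
        (r l ^ 2 / exU r t o₀) ^ 2 * (exw r t i / exV r t s₀)
      field_simp
      linear_combination h5
    rwa [← e] at h4
  have R7 : A none * B (Sum.inl j) ^ 2 =
      A (some i) * B (Sum.inr l) ^ 2 + A (some l) * B (Sum.inr i) ^ 2 := by
    have h3 := hH.mul (hA none) (hH.pow (hB (Sum.inl j)) 2)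
    refine hH.uniq h3 ?_
    have h4 := hH.add (hH.mul (hA (some i)) (hH.pow (hB (Sum.inr l)) 2))
      (hH.mul (hA (some l)) (hH.pow (hB (Sum.inr i)) 2))
    have e : (exU r t none / exU r t o₀) * (exV r t (Sum.inl j) / exV r t s₀) ^ 2 =
        (exU r t (some i) / exU r t o₀) * (exV r t (Sum.inr l) / exV r t s₀) ^ 2 +
        (exU r t (some l) / exU r t o₀) * (exV r t (Sum.inr i) / exV r t s₀) ^ 2 := by
      have h5 := rel_R7 r t h g.h2
      change (t ^ 2 / exU r t o₀) * (exv r j / exV r t s₀) ^ 2 =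
        (r i ^ 2 / exU r t o₀) * (exw r t l / exV r t s₀) ^ 2 +
        (r l ^ 2 / exU r t o₀) * (exw r t i / exV r t s₀) ^ 2
      field_simp
      linear_combination h5
    rwa [← e] at h4
  have R8 : A none * (a i * B (Sum.inr l) ^ 2 + a l * B (Sum.inr i) ^ 2) =
      B (Sum.inl j) * (A (some i) * a i * B (Sum.inr l) + A (some l) * a l * B (Sum.inr i)) := by
    have h3 := hH.mul (hA none) (hH.add (hH.mul (ha i) (hH.pow (hB (Sum.inr l)) 2))
      (hH.mul (ha l) (hH.pow (hB (Sum.inr i)) 2)))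
    refine hH.uniq h3 ?_
    have h4 := hH.mul (hB (Sum.inl j)) (hH.add (hH.mul (hH.mul (hA (some i)) (ha i))
      (hB (Sum.inr l))) (hH.mul (hH.mul (hA (some l)) (ha l)) (hB (Sum.inr i))))
    have e : exU r t none / exU r t o₀ *
        ((r i ^ 2 / r i ^ 2) * (exV r t (Sum.inr l) / exV r t s₀) ^ 2 +
        (r l ^ 2 / r i ^ 2) * (exV r t (Sum.inr i) / exV r t s₀) ^ 2) =
        exV r t (Sum.inl j) / exV r t s₀ *
        ((exU r t (some i) / exU r t o₀) * (r i ^ 2 / r i ^ 2) *
          (exV r t (Sum.inr l) / exV r t s₀) +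
        (exU r t (some l) / exU r t o₀) * (r l ^ 2 / r i ^ 2) *
          (exV r t (Sum.inr i) / exV r t s₀)) := by
      have h5 := rel_R7 r t h g.h2
      have h6 := rel_R6 r t h g.h2
      change t ^ 2 / exU r t o₀ *
        ((r i ^ 2 / r i ^ 2) * (exw r t l / exV r t s₀) ^ 2 +
        (r l ^ 2 / r i ^ 2) * (exw r t i / exV r t s₀) ^ 2) =
        exv r j / exV r t s₀ *
        ((r i ^ 2 / exU r t o₀) * (r i ^ 2 / r i ^ 2) * (exw r t l / exV r t s₀) +
        (r l ^ 2 / exU r t o₀) * (r l ^ 2 / r i ^ 2) * (exw r t i / exV r t s₀))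
      field_simp
      linear_combination -t ^ 2 * h5 + exv r j * h6
    rwa [← e] at h4
  -- the case distinction
  have done : ∀ T : Ty, A (T.idx i j).1 ≠ 0 → B (T.idx i j).2 ≠ 0 → ∃ T : Ty,
      (∀ o, ∃ c, H (exU r t o / exU r t (T.idx i j).1) c) ∧
      ∀ s, ∃ c, H (exV r t s / exV r t (T.idx i j).2) c := fun T h1 h2 =>
    ⟨T, move hH hA hU0 h1, move hH hB hV0 h2⟩
  have hBne : ∀ {x : k}, x ≠ 0 → (∀ s, B s = 0) → False := fun _ h0 => by
    have := h0 s₀
    rw [Bo] at this
    exact one_ne_zero this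
  have allcases : ∀ {q : Fin 3 ⊕ Fin 3 → Prop}, (∀ m, q (Sum.inl m)) → q (Sum.inr i) →
      q (Sum.inr j) → q (Sum.inr l) → ∀ s, q s := by
    intro q q1 q2 q3 q4 s
    cases s with
    | inl m => exact q1 m
    | inr m => rcases h.cases m with rfl | rfl | rfl <;> assumption
  rw [bj, mul_one] at R5
  rw [ai, one_mul, mul_one] at R8
  by_cases hAi : A (some i) = 0
  · -- then all `A (some m)` vanish
    have hAm : ∀ m, A (some m) = 0 := fun m => by rw [R3, hAi, zero_mul]
    have hAn : A none ≠ 0 := by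
      intro h0
      have : ∀ o, A o = 0 := fun o => by
        cases o with
        | none => exact h0
        | some m => exact hAm m
      have := this o₀
      rw [Ao] at this
      exact one_ne_zero this
    have hBj : B (Sum.inl j) = 0 := by
      rw [hAm, hAm, zero_mul, zero_mul, add_zero] at R7
      have := (mul_eq_zero.mp R7).resolve_left hAn
      exact pow_eq_zero_iff (two_ne_zero) |>.mp this
    have hBi : B (Sum.inr i) ≠ 0 := by
      intro h0
      rw [hBj, h0] at R8
      simp only [zero_mul, ne_eq, OfNat.ofNat_ne_zero, not_false_eq_true, zero_pow, mul_zero,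
        add_zero] at R8
      have h4 := (mul_eq_zero.mp R8).resolve_left hAn
      have h5 : B (Sum.inr l) = 0 := pow_eq_zero_iff (two_ne_zero) |>.mp h4
      rw [h0, h5, zero_mul, zero_mul, zero_add, add_zero] at R5
      exact hBne (x := 1) one_ne_zero
        (allcases (fun m => by rw [R4, hBj, zero_mul]) h0 R5 h5)
    exact done Ty.C hAn hBi
  · by_cases hBj : B (Sum.inl j) = 0
    · have hBi : B (Sum.inr i) ≠ 0 := by
        intro h0
        rw [hBj, h0, mul_zero, mul_zero, add_zero] at R6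
        have h4 := (mul_eq_zero.mp R6.symm).resolve_left (pow_ne_zero _ hAi)
        rw [h0, h4, zero_mul, zero_mul, zero_add, add_zero] at R5
        exact hBne (x := 1) one_ne_zero
          (allcases (fun m => by rw [R4, hBj, zero_mul]) h0 R5 h4)
      exact done Ty.B hAi hBi
    · exact done Ty.A hAi hBj

end

end Pool.Agent.Helper43
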