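import Pool.Agent.Helper43.ExPseff

open scoped KaehlerDifferential

noncomputable section

namespace Pool.Agent.Helper43

universe u

open MvPolynomial

namespace ProjVar

variable {k : Type u} [Field k] {F : Type u} [Field F] [Algebra k F] {X Y : ProjVar k F}

theorem aeval_rename_proj (ψ : Y.ι → X.ι) {c : F} (hψ : ∀ e, X.x (ψ e) = c * Y.x e)
    (f : MvPolynomial Y.ι k) {n : ℕ} (hf : f.IsHomogeneous n) :
    aeval X.x (rename ψ f) = c ^ n * aeval Y.x f := by
  rw [aeval_rename, ← aeval_smul_homog hf]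
  congr 2
  funext e
  exact hψ e

theorem mapsTo_of (ψ : Y.ι → X.ι) {c' : F} (hψ : ∀ e, X.x (ψ e) = c' * Y.x e)
    {P : X.Pt} {Q : Y.Pt} {c₀ : k} (hc₀ : c₀ ≠ 0)
    (h : ∀ e, P.p (ψ e) = c₀ * Q.p e) : MapsTo P Q := by
  rintro z c ⟨n, a, b, ha, hb, hb0, h1, h2⟩
  have hev : ∀ f : MvPolynomial Y.ι k, f.IsHomogeneous n →
      eval P.p (rename ψ f) = c₀ ^ n * eval Q.p f := by
    intro f hf
    rw [eval_rename, ← aeval_eq_eval', ← aeval_eq_eval', ← aeval_smul_homog hf]
    congr 2
    funext e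
    exact h e
  refine ⟨n, rename ψ a, rename ψ b, ha.rename_isHomogeneous, hb.rename_isHomogeneous,
    ?_, ?_, ?_⟩
  · rw [hev b hb]
    exact mul_ne_zero (pow_ne_zero _ hc₀) hb0
  · rw [aeval_rename_proj ψ hψ a ha, aeval_rename_proj ψ hψ b hb, ← h1]
    ring
  · rw [hev a ha, hev b hb, ← h2]
    ring

theorem exists_image_of (ψ : Y.ι → X.ι) {c' : F} (hψ : ∀ e, X.x (ψ e) = c' * Y.x e)
    {P : X.Pt} {e₀ : Y.ι} (h₀ : P.p (ψ e₀) ≠ 0) : ∃ Q : Y.Pt, MapsTo P Q := by
  let Q : Y.Pt :=
    { p := fun e => P.p (ψ e)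
      ne := fun h => h₀ (congrFun h e₀)
      vanish := by
        intro n f hf h
        have h1 := P.vanish n (rename ψ f)
          hf.rename_isHomogeneous (by rw [aeval_rename_proj ψ hψ f hf, h, mul_zero])
        rw [eval_rename] at h1
        exact h1 }
  exact ⟨Q, mapsTo_of ψ hψ one_ne_zero fun e => (one_mul _).symm⟩

theorem exists_section (sp : X.ι → MvPolynomial Y.ι k) {d : ℕ} (hd : ∀ e, (sp e).IsHomogeneous d)
    (hsp : ∀ f : MvPolynomial X.ι k, aeval X.x f = 0 → aeval Y.x (aeval sp f) = 0)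
    (Q : Y.Pt) {e₀ : X.ι} (h₀ : eval Q.p (sp e₀) ≠ 0) :
    ∃ P : X.Pt, ∀ e, P.p e = eval Q.p (sp e) := by
  let P : X.Pt :=
    { p := fun e => eval Q.p (sp e)
      ne := fun h => h₀ (congrFun h e₀)
      vanish := by
        intro n f hf h
        have h7 := Q.vanish (d * n) (aeval sp f) (hf.aeval _ hd) (hsp f h)
        rw [MvPolynomial.map_aeval] at h7
        rw [← h7, eval, coe_eval₂Hom]
        congr 1
        ext c
        simp }
  exact ⟨P, fun _ => rfl⟩

end ProjVar

open ProjVar

section Maps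

variable {k : Type u} [Field k] {F : Type u} [Field F] [Algebra k F]
  {r : Fin 3 → F} {t : F} (g : Gd r t)

theorem exists_image (P : (three k g).Pt) : ∃ Q : (surf k g).Pt, MapsTo P Q := by
  obtain ⟨⟨e₀, ⟨o, s⟩⟩, h₀⟩ := P.exists_ne
  exact exists_image_of (X := three k g) (Y := surf k g) (fun e => (e, (o, s)))
    (c' := exU r t o * exV r t s) (fun e => mul_comm _ _) h₀

end Maps

section Section

variable {k : Type u} [Field k] {F : Type u} [Field F] [Algebra k F] [Algebra (S4 k) F]
  [IsFractionRing (S4 k) F] [IsScalarTower k (S4 k) F]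
  (g : Gd (fr k F) (ft k F))

/-- The coordinates of the threefold along the section `t = 0`, in those of the surface. -/
def secPoly (k : Type u) [Field k] :
    (Fin 3 × Fin 3) × (Option (Fin 3) × (Fin 3 ⊕ Fin 3)) → MvPolynomial (Fin 3 × Fin 3) k
  | (e, (some o, Sum.inl s)) => X e * X (o, s)
  | (_, (none, _)) => 0
  | (_, (some _, Sum.inr _)) => 0

theorem secPoly_homog (e) : (secPoly k e).IsHomogeneous 2 := by
  obtain ⟨e, ⟨o, s⟩⟩ := e
  cases o with
  | none => exact isHomogeneous_zero _ _ _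
  | some o =>
    cases s with
    | inl s => exact (isHomogeneous_X _ _).mul (isHomogeneous_X _ _)
    | inr s => exact isHomogeneous_zero _ _ _

/-- Setting `t = 0`. -/
def setZero (k : Type u) [Field k] : S4 k →ₐ[k] S4 k :=
  aeval fun q : Fin 4 => if q = 3 then 0 else X q

theorem setZero_exX (e) : setZero k (exX (pr k) (pt k) e) = aeval (exY (pr k)) (secPoly k e) := by
  have h1 : setZero k (exX (pr k) (pt k) e) = exX (pr k) 0 e := by
    have := map_exX (setZero k).toRingHom (pr k) (pt k) e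
    change setZero k (exX (pr k) (pt k) e) = _ at this
    rw [this]
    congr 1
    · funext i
      change setZero k (pr k i) = pr k i
      unfold setZero pr
      rw [aeval_X, if_neg]
      exact (by decide : ∀ i : Fin 3, i.castSucc ≠ 3) i
    · change setZero k (pt k) = 0
      unfold setZero pt
      rw [aeval_X, if_pos rfl]
  rw [h1]
  obtain ⟨e, ⟨o, s⟩⟩ := e
  cases o with
  | none =>
    simp [secPoly, exX, exU]
  | some o =>
    cases s with
    | inl s =>
      simp only [secPoly, exX, exU, exV, exY, map_mul, aeval_X]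
      rfl
    | inr s =>
      simp [secPoly, exX, exV, exw]

include g in
theorem secPoly_rel (f : MvPolynomial ((Fin 3 × Fin 3) × (Option (Fin 3) × (Fin 3 ⊕ Fin 3))) k)
    (h : aeval (exX (fr k F) (ft k F)) f = 0) :
    aeval (exY (fr k F)) (aeval (secPoly k) f) = 0 := by
  have h0 := aeval_three g f
  have h1 : aeval (exX (pr k) (pt k)) f = 0 := by
    apply IsFractionRing.injective (S4 k) F
    rw [← h0, map_zero]
    exact h
  have h2 : aeval (exY (pr k)) (aeval (secPoly k) f) = 0 := by
    have h3 := congrArg (setZero k) h1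
    rw [map_zero, ← AlgHom.comp_apply, comp_aeval] at h3
    rw [← AlgHom.comp_apply, comp_aeval, ← h3]
    congr 2
    funext e
    exact (setZero_exX e).symm
  have h5 : exY (fr k F) = fun e => algebraMap (S4 k) F (exY (pr k) e) := by
    funext e
    simp only [exY, map_mul, map_pow, map_exv]
    rfl
  have h6 := congrArg (algebraMap (S4 k) F) h2
  rw [map_zero, MvPolynomial.map_aeval] at h6
  rw [h5, aeval_def, ← h6]
  congr 1
  rw [← IsScalarTower.algebraMap_eq]

theorem exists_preimage (Q : (surf k g).Pt) : ∃ P : (three k g).Pt, MapsTo P Q := by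
  obtain ⟨⟨i, j⟩, h₀⟩ := Q.exists_ne
  have h1 : ∀ e : Fin 3 × Fin 3, eval Q.p (secPoly k (e, (some i, Sum.inl j))) =
      Q.p (i, j) * Q.p e := by
    intro e
    change eval (σ := Fin 3 × Fin 3) Q.p (X e * X (i, j)) = _
    simp only [map_mul, eval_X]
    exact mul_comm _ _
  obtain ⟨P, hP⟩ := exists_section (X := three k g) (Y := surf k g) (secPoly k) secPoly_homog
    (secPoly_rel g) Q (e₀ := ((i, j), (some i, Sum.inl j)))
    (fun h2 => mul_ne_zero h₀ h₀ ((h1 (i, j)).symm.trans h2))
  refine ⟨P, mapsTo_of (X := three k g) (Y := surf k g) (fun e => (e, (some i, Sum.inl j)))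
    (c' := exU (fr k F) (ft k F) (some i) * exV (fr k F) (ft k F) (Sum.inl j))
    (fun e => mul_comm _ _) h₀ fun e => ?_⟩
  rw [hP]
  exact h1 e

end Section

end Pool.Agent.Helper43
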