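import Pool.Agent.Helper43.ExAlg

noncomputable section

namespace Pool.Agent.Helper43

universe u

/-- The homogeneous coordinates of the surface. -/
def exY {R : Type*} [CommRing R] (r : Fin 3 → R) (e : Fin 3 × Fin 3) : R :=
  r e.1 ^ 2 * exv r e.2

/-- The homogeneous coordinates of the threefold. -/
def exX {R : Type*} [CommRing R] (r : Fin 3 → R) (t : R)
    (e : (Fin 3 × Fin 3) × (Option (Fin 3) × (Fin 3 ⊕ Fin 3))) : R :=
  exY r e.1 * (exU r t e.2.1 * exV r t e.2.2)

/-- The three kinds of charts of the threefold over a chart of the surface. -/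
inductive Ty
  | A
  | B
  | C

/-- The coordinates which do not vanish on the chart. -/
def Ty.idx (i j : Fin 3) : Ty → Option (Fin 3) × (Fin 3 ⊕ Fin 3)
  | .A => (some i, Sum.inl j)
  | .B => (some i, Sum.inr i)
  | .C => (none, Sum.inr i)

/-- The parameters on the chart. -/
def Ty.par {F : Type u} [Field F] (r : Fin 3 → F) (t : F) (i j l : Fin 3) : Ty → Fin 3 → F
  | .A => ![r l ^ 2 / r i ^ 2, exv r l / exv r j, exw r t i / exv r j]
  | .B => ![t ^ 2 / r i ^ 2, exv r l / exv r j, exv r j / exw r t i]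
  | .C => ![r i ^ 2 / t ^ 2, exv r l / exv r j, exw r t l / exw r t i]

section

variable {k F : Type u} [Field k] [Field F] [Algebra k F] {r : Fin 3 → F} {t : F} (g : Gd r t)
  {i j l : Fin 3} (h : Dist i j l) {H : F → k → Prop} {p : F → Prop}

include g

theorem Gd.U0 (o : Option (Fin 3)) : exU r t o ≠ 0 := by
  cases o with
  | none => exact pow_ne_zero _ g.t0
  | some i => exact pow_ne_zero _ (g.r0 i)

theorem Gd.V0 (s : Fin 3 ⊕ Fin 3) : exV r t s ≠ 0 := by
  cases s with
  | inl j => exact g.v0 j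
  | inr i => exact g.w0 i

theorem Gd.Y0 (e) : exY r e ≠ 0 := mul_ne_zero (pow_ne_zero _ (g.r0 _)) (g.v0 _)

theorem Gd.X0 (e) : exX r t e ≠ 0 := mul_ne_zero (g.Y0 _) (mul_ne_zero (g.U0 _) (g.V0 _))

include h

theorem gen_uv (hp : Closed H p) (ha : ∃ c, H (r j ^ 2 / r i ^ 2) c)
    (hb : p (r l ^ 2 / r i ^ 2)) (hc : p (exv r l / exv r j)) :
    (∀ m, p (r m ^ 2 / r i ^ 2)) ∧ ∀ m, p (exv r m / exv r j) := by
  have pa : p (r j ^ 2 / r i ^ 2) := by
    refine hp.root1 ha ?_ (rel_Y2 g h)
    exact hp.mul (hp.pow hc 2) (hp.add hb (hp.pow hb 4))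
  have e1 : r i ^ 2 / r i ^ 2 = 1 := div_self (pow_ne_zero _ (g.r0 i))
  have e2 : exv r j / exv r j = 1 := div_self (g.v0 j)
  constructor
  · intro m
    rcases h.cases m with rfl | rfl | rfl
    · rw [e1]; exact hp.one
    · exact pa
    · exact hb
  · intro m
    rcases h.cases m with rfl | rfl | rfl
    · rw [rel_Y1 g h]
      exact hp.add (hp.pow pa 2) (hp.mul (hp.pow hb 2) hc)
    · rw [e2]; exact hp.one
    · exact hc

theorem gen_A (hp : Closed H p) (hu : ∀ m, p (r m ^ 2 / r i ^ 2))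
    (hv : ∀ m, p (exv r m / exv r j)) (hα : ∃ c, H (t ^ 2 / r i ^ 2) c)
    (hη : p (exw r t i / exv r j)) :
    (∀ o, p (exU r t o / exU r t (some i))) ∧ ∀ s, p (exV r t s / exV r t (Sum.inl j)) := by
  have pα : p (t ^ 2 / r i ^ 2) := by
    refine hp.root1 hα ?_ (rel_A3 g h)
    exact hp.mul (hp.pow hη 2) (hp.add (hu l) (hp.pow (hu l) 4))
  have pw : p (exw r t l / exv r j) := by
    rw [rel_A1 g h]
    exact hp.add (hp.pow pα 2) (hp.mul (hp.pow (hu l) 2) hη)
  constructor
  · intro o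
    cases o with
    | none => exact pα
    | some m => exact hu m
  · intro s
    cases s with
    | inl m => exact hv m
    | inr m =>
      change p (exw r t m / exv r j)
      rcases h.cases m with rfl | rfl | rfl
      · exact hη
      · rw [rel_A2 g h]
        exact hp.add (hp.mul (hv i) hη) (hp.mul pw (hv l))
      · exact pw

theorem gen_B (hp : Closed H p) (hb : ∃ c, H (r l ^ 2 / r i ^ 2) c)
    (ha : ∃ c, H (r j ^ 2 / r i ^ 2) c) (hα : p (t ^ 2 / r i ^ 2))
    (hc : p (exv r l / exv r j)) (hγ : p (exv r j / exw r t i)) :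
    ((∀ m, p (r m ^ 2 / r i ^ 2)) ∧ ∀ m, p (exv r m / exv r j)) ∧
    (∀ o, p (exU r t o / exU r t (some i))) ∧ ∀ s, p (exV r t s / exV r t (Sum.inr i)) := by
  have pb : p (r l ^ 2 / r i ^ 2) := by
    refine hp.root1 hb ?_ (rel_B3 g h)
    exact hp.mul (hp.pow hγ 2) (hp.add hα (hp.pow hα 4))
  obtain ⟨hu, hv⟩ := gen_uv g h hp ha pb hc
  refine ⟨⟨hu, hv⟩, ?_, ?_⟩
  · intro o
    cases o with
    | none => exact hα
    | some m => exact hu m
  · have pw : p (exw r t l / exw r t i) := by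
      rw [rel_B1 g h]
      exact hp.add (hp.mul (hp.pow hα 2) hγ) (hp.pow pb 2)
    intro s
    cases s with
    | inl m =>
      have e : exV r t (Sum.inl m) / exV r t (Sum.inr i) =
          (exv r m / exv r j) * (exv r j / exw r t i) := by
        change exv r m / exw r t i = _
        have := g.v0 j
        field_simp
      rw [e]
      exact hp.mul (hv m) hγ
    | inr m =>
      change p (exw r t m / exw r t i)
      rcases h.cases m with rfl | rfl | rfl
      · rw [div_self (g.w0 m)]; exact hp.one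
      · rw [rel_B2 g h]
        exact hp.add (hv i) (hp.mul pw (hv l))
      · exact pw

theorem gen_C (hp : Closed H p) (hb : ∃ c, H (r l ^ 2 / r i ^ 2) c)
    (ha : ∃ c, H (r j ^ 2 / r i ^ 2) c) (hβ : p (r i ^ 2 / t ^ 2))
    (hc : p (exv r l / exv r j)) (hy : p (exw r t l / exw r t i)) :
    ((∀ m, p (r m ^ 2 / r i ^ 2)) ∧ ∀ m, p (exv r m / exv r j)) ∧
    (∀ o, p (exU r t o / exU r t none)) ∧ ∀ s, p (exV r t s / exV r t (Sum.inr i)) := by
  have pb : p (r l ^ 2 / r i ^ 2) := by
    refine hp.root hb (hp.pow hβ 3) ?_ (rel_C3 g h)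
    exact hp.mul (hp.add hp.one (hp.pow hβ 3)) (hp.pow hy 2)
  obtain ⟨hu, hv⟩ := gen_uv g h hp ha pb hc
  have pγ : p (exv r j / exw r t i) := by
    rw [rel_C1 g h]
    exact hp.mul (hp.pow hβ 2) (hp.add hy (hp.pow pb 2))
  refine ⟨⟨hu, hv⟩, ?_, ?_⟩
  · intro o
    cases o with
    | none =>
      rw [div_self (g.U0 none)]; exact hp.one
    | some m =>
      have e : exU r t (some m) / exU r t none = (r m ^ 2 / r i ^ 2) * (r i ^ 2 / t ^ 2) := by
        change r m ^ 2 / t ^ 2 = _
        have := g.r0 i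
        field_simp
      rw [e]
      exact hp.mul (hu m) hβ
  · intro s
    cases s with
    | inl m =>
      have e : exV r t (Sum.inl m) / exV r t (Sum.inr i) =
          (exv r m / exv r j) * (exv r j / exw r t i) := by
        change exv r m / exw r t i = _
        have := g.v0 j
        field_simp
      rw [e]
      exact hp.mul (hv m) pγ
    | inr m =>
      change p (exw r t m / exw r t i)
      rcases h.cases m with rfl | rfl | rfl
      · rw [div_self (g.w0 m)]; exact hp.one
      · rw [rel_B2 g h]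
        exact hp.add (hv i) (hp.mul hy (hv l))
      · exact hy

/-- All coordinate ratios on a chart are obtained from the parameters. -/
theorem gen_all (hp : Closed H p) (T : Ty) (hu : ∀ m, ∃ c, H (r m ^ 2 / r i ^ 2) c)
    (hU : ∀ o, ∃ c, H (exU r t o / exU r t (T.idx i j).1) c)
    (hpar : ∀ q, p (T.par r t i j l q)) (e) :
    p (exX r t e / exX r t ((i, j), T.idx i j)) := by
  have key : ((∀ m, p (r m ^ 2 / r i ^ 2)) ∧ ∀ m, p (exv r m / exv r j)) ∧
      (∀ o, p (exU r t o / exU r t (T.idx i j).1)) ∧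
      ∀ s, p (exV r t s / exV r t (T.idx i j).2) := by
    cases T with
    | A =>
      have h1 := gen_uv g h hp (hu j) (hpar 0) (hpar 1)
      exact ⟨h1, gen_A g h hp h1.1 h1.2 (hU none) (hpar 2)⟩
    | B => exact gen_B g h hp (hu l) (hu j) (hpar 0) (hpar 1) (hpar 2)
    | C => exact gen_C g h hp (hu l) (hu j) (hpar 0) (hpar 1) (hpar 2)
  obtain ⟨⟨h1, h2⟩, h3, h4⟩ := key
  have e1 : exX r t e / exX r t ((i, j), T.idx i j) =
      ((r e.1.1 ^ 2 / r i ^ 2) * (exv r e.1.2 / exv r j)) *
      ((exU r t e.2.1 / exU r t (T.idx i j).1) * (exV r t e.2.2 / exV r t (T.idx i j).2)) := by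
    simp only [exX, exY]
    have := g.r0 i
    have := g.v0 j
    have := g.U0 (T.idx i j).1
    have := g.V0 (T.idx i j).2
    field_simp
  rw [e1]
  exact hp.mul (hp.mul (h1 _) (h2 _)) (hp.mul (h3 _) (h4 _))

end

end Pool.Agent.Helper43
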