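import Pool.Agent.Helper43.ExModel

open scoped KaehlerDifferential

noncomputable section

namespace Pool.Agent.Helper43

universe u

variable {k F : Type u} [Field k] [Field F] [Algebra k F]

namespace ProjVar

/-- A criterion for regularity of the local ring. -/
theorem nonsing_of_gen [CharP F 2] {X : ProjVar k F} {P : X.Pt} {n : ℕ} {par : Fin n → F}
    (hpar : ∀ q, ∃ c, HasVal P (par q) c) {e : X.ι} (he : P.p e ≠ 0)
    (hgen : ∀ p : F → Prop, Closed (HasVal P) p → (∀ q, p (par q)) → ∀ e', p (X.x e' / X.x e)) :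
    ∃ s : Fin n → F, (∀ i, HasVal P (s i) 0) ∧
      ∀ z, HasVal P z 0 → ∃ c : Fin n → F, (∀ i, ∃ d, HasVal P (c i) d) ∧ z = ∑ i, c i * s i := by
  have hH := place P
  choose c hc using hpar
  let s : Fin n → F := fun q => par q - algebraMap k F (c q)
  have hp := hH.closed_ideal s
  have h1 := hgen _ hp (fun q => ⟨c q, hc q, Pi.single q 1, fun i => by
      by_cases h : i = q
      · subst h
        exact ⟨1, by simpa using hH.one⟩
      · exact ⟨0, by simpa [h] using hH.zero⟩, by simp [s, Pi.single_apply]⟩)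
  refine ⟨s, fun q => by simpa using hH.sub (hc q) (hH.const (c q)), fun z hz => ?_⟩
  obtain ⟨c', hc', d, hd, e'⟩ := regular_induction P hp.const (fun _ _ => hp.add)
    (fun _ _ => hp.mul) (fun _ _ => hp.inv) he h1 hz
  obtain rfl := hH.uniq hz hc'
  exact ⟨d, hd, by simpa using e'⟩

/-- A criterion for a form to generate the canonical sheaf. -/
theorem canonical_of_gen [CharP F 2] {X : ProjVar k F} {P : X.Pt} {n : ℕ}
    {par b : Fin n → X.functionField} {κ : X.functionField}
    (hpar : ∀ q, ∃ c, HasVal P (par q : F) c) {e : X.ι} (he : P.p e ≠ 0)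
    (hgen : ∀ p : F → Prop, Closed (HasVal P) p → (∀ q, p (par q)) → ∀ e', p (X.x e' / X.x e))
    (hb : IsDiffBasis k b) (hκ : IsJacobian k par b κ) : IsCanonicalGen P b κ := by
  refine isCanonicalGen_of_span (fun q => hpar q) (fun z hz => ?_) hb hκ
  have hp := closed_diff P (Submodule.span (X.localRing P)
    (Set.range fun q => KaehlerDifferential.D k X.functionField (par q)))
  obtain ⟨c, hc⟩ := hz
  obtain ⟨z', hz', -, h⟩ := regular_induction P hp.const (fun _ _ => hp.add)
    (fun _ _ => hp.mul) (fun _ _ => hp.inv) he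
    (hgen _ hp fun q => ⟨par q, rfl, hpar q, Submodule.subset_span ⟨q, rfl⟩⟩) hc
  obtain rfl : z' = z := Subtype.ext hz'
  exact h

end ProjVar

open ProjVar

variable {r : Fin 3 → F} {t : F} {g : Gd r t} {i j l : Fin 3}

/-- The charts cover the threefold. -/
theorem three_chart (h : Dist i j l) (P : (three k g).Pt)
    (hu : ∀ m, ∃ c, HasVal P (r m ^ 2 / r i ^ 2) c)
    (hv : ∀ m, ∃ c, HasVal P (exv r m / exv r j) c) :
    ∃ T : Ty, P.p ((i, j), T.idx i j) ≠ 0 ∧ (∀ q, ∃ c, HasVal P (T.par r t i j l q) c) ∧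
      ∀ p : F → Prop, Closed (HasVal P) p → (∀ q, p (T.par r t i j l q)) →
        ∀ e', p ((three k g).x e' / (three k g).x ((i, j), T.idx i j)) := by
  obtain ⟨i₀, j₀, o₀, s₀, -, -, hU, hV⟩ := three_regs P
  have hH := place P
  obtain ⟨T, hU', hV'⟩ := type_exists g hH h hu hv hU hV
  refine ⟨T, ?_, ?_, ?_⟩
  · refine ProjVar.Pt.ne_of_regular P (g.X0 _) fun e => ?_
    obtain ⟨c₁, h1⟩ := hu e.1.1
    obtain ⟨c₂, h2⟩ := hv e.1.2
    obtain ⟨c₃, h3⟩ := hU' e.2.1
    obtain ⟨c₄, h4⟩ := hV' e.2.2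
    have h5 := hH.mul (hH.mul h1 h2) (hH.mul h3 h4)
    have e1 : exX r t e / exX r t ((i, j), T.idx i j) =
      ((r e.1.1 ^ 2 / r i ^ 2) * (exv r e.1.2 / exv r j)) *
      ((exU r t e.2.1 / exU r t (T.idx i j).1) * (exV r t e.2.2 / exV r t (T.idx i j).2)) := by
      simp only [exX, exY]
      have := g.r0 i
      have := g.v0 j
      have := g.U0 (T.idx i j).1
      have := g.V0 (T.idx i j).2
      field_simp
    rw [← e1] at h5
    exact ⟨_, h5⟩
  · intro q
    cases T with
    | A =>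
      fin_cases q
      · exact hu l
      · exact hv l
      · exact hV' (Sum.inr i)
    | B =>
      fin_cases q
      · exact hU' none
      · exact hv l
      · exact hV' (Sum.inl j)
    | C =>
      fin_cases q
      · exact hU' (some i)
      · exact hv l
      · exact hV' (Sum.inr l)
  · intro p hp hpar e
    exact gen_all g h hp T hu hU' hpar e

/-- The charts cover the surface. -/
theorem surf_chart (h : Dist i j l) (Q : (surf k g).Pt)
    (hu : ∀ m, ∃ c, HasVal Q (r m ^ 2 / r i ^ 2) c)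
    (hv : ∀ m, ∃ c, HasVal Q (exv r m / exv r j) c) :
    Q.p (i, j) ≠ 0 ∧
      (∀ q, ∃ c, HasVal Q ((![r l ^ 2 / r i ^ 2, exv r l / exv r j] : Fin 2 → F) q) c) ∧
      ∀ p : F → Prop, Closed (HasVal Q) p →
        (∀ q, p ((![r l ^ 2 / r i ^ 2, exv r l / exv r j] : Fin 2 → F) q)) →
        ∀ e', p ((surf k g).x e' / (surf k g).x (i, j)) := by
  have hH := place Q
  have e1 : ∀ e : Fin 3 × Fin 3, exY r e / exY r (i, j) =
      (r e.1 ^ 2 / r i ^ 2) * (exv r e.2 / exv r j) := by
    intro e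
    simp only [exY]
    have := g.r0 i
    have := g.v0 j
    field_simp
  refine ⟨?_, ?_, ?_⟩
  · refine ProjVar.Pt.ne_of_regular Q (g.Y0 _) fun e => ?_
    obtain ⟨c₁, h1⟩ := hu e.1
    obtain ⟨c₂, h2⟩ := hv e.2
    have h5 := hH.mul h1 h2
    rw [← e1] at h5
    exact ⟨_, h5⟩
  · intro q
    fin_cases q
    · exact hu l
    · exact hv l
  · intro p hp hpar e
    obtain ⟨h1, h2⟩ := gen_uv g h hp (hu j) (hpar 0) (hpar 1)
    change p (exY r e / exY r (i, j))
    rw [e1]
    exact hp.mul (h1 _) (h2 _)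

end Pool.Agent.Helper43
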