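import Pool.Agent.Helper43.ExSep

open scoped KaehlerDifferential

noncomputable section

namespace Pool.Agent.Helper43

universe u

open ProjVar

variable {k : Type u} [Field k] {F : Type u} [Field F] [Algebra k F] [Algebra (S4 k) F]
  [IsFractionRing (S4 k) F] [IsScalarTower k (S4 k) F] [CharP F 2]
  (g : Gd (fr k F) (ft k F)) {i j l : Fin 3}

theorem three_algInd (h : Dist i j l) : AlgebraicIndependent k (fun q =>
    (⟨Ty.A.par (fr k F) (ft k F) i j l q, three_par_mem k g .A i j l q⟩ :
      (three k g).functionField)) := by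
  have h1 := (algInd4 F h (k := k)).comp Fin.succ (Fin.succ_injective _)
  exact AlgebraicIndependent.of_comp (three k g).functionField.val h1

theorem surf_algInd (h : Dist i j l) : AlgebraicIndependent k (fun q =>
    (⟨(![fr k F l ^ 2 / fr k F i ^ 2, exv (fr k F) l / exv (fr k F) j] : Fin 2 → F) q,
      surf_par_mem k g i j l q⟩ : (surf k g).functionField)) := by
  have h1 := (algInd4 F h (k := k)).comp (fun q : Fin 2 => (q.castSucc.succ : Fin 4))
    ((Fin.succ_injective _).comp (Fin.castSucc_injective _))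
  refine AlgebraicIndependent.of_comp (surf k g).functionField.val ?_
  convert h1 using 1
  funext q
  fin_cases q <;> rfl

theorem three_trdeg : Algebra.trdeg k (three k g).functionField = 3 :=
  have d : Dist 0 1 2 := ⟨by decide, by decide, by decide⟩
  trdeg_eq (three_algInd g d) (three_isSeparable g d)

theorem surf_trdeg : Algebra.trdeg k (surf k g).functionField = 2 :=
  have d : Dist 0 1 2 := ⟨by decide, by decide, by decide⟩
  trdeg_eq (surf_algInd g d) (surf_isSeparable g d)

theorem three_basis (h : Dist i j l) : IsDiffBasis k (par3 k g .A i j l) :=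
  isDiffBasis_of_sep (three_algInd g h) (three_isSeparable g h)

theorem surf_basis (h : Dist i j l) : IsDiffBasis k (par2 k g i j l) :=
  isDiffBasis_of_sep (surf_algInd g h) (surf_isSeparable g h)

omit [IsScalarTower k (S4 k) F] [IsFractionRing (S4 k) F] in
theorem three_canonical (h : Dist i j l) (P : (three k g).Pt)
    (hu : ∀ m, ∃ c, HasVal P (fr k F m ^ 2 / fr k F i ^ 2) c)
    (hv : ∀ m, ∃ c, HasVal P (exv (fr k F) m / exv (fr k F) j) c)
    {b : Fin 3 → (three k g).functionField} {κ : (three k g).functionField}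
    (hb : IsDiffBasis k b) (hκ : IsJacobian k (par3 k g .A i j l) b κ) :
    IsCanonicalGen P b κ := by
  obtain ⟨T, h1, h2, h3⟩ := three_chart h P hu hv
  have h4 := (form3_type g h T).trans hκ
  rw [one_mul] at h4
  exact canonical_of_gen (par := par3 k g T i j l) h2 h1 h3 hb h4

omit [IsScalarTower k (S4 k) F] [IsFractionRing (S4 k) F] [CharP F 2] in
theorem three_nice (P : (three k g).Pt) : ∃ i j l, Dist i j l ∧
    (∀ m, ∃ c, HasVal P (fr k F m ^ 2 / fr k F i ^ 2) c) ∧
    ∀ m, ∃ c, HasVal P (exv (fr k F) m / exv (fr k F) j) c := by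
  obtain ⟨i₀, j₀, o₀, s₀, hu, hv, -, -⟩ := three_regs P
  exact nice_exists g (place P) hu hv

omit [IsScalarTower k (S4 k) F] [IsFractionRing (S4 k) F] [CharP F 2] in
theorem surf_nice (Q : (surf k g).Pt) : ∃ i j l, Dist i j l ∧
    (∀ m, ∃ c, HasVal Q (fr k F m ^ 2 / fr k F i ^ 2) c) ∧
    ∀ m, ∃ c, HasVal Q (exv (fr k F) m / exv (fr k F) j) c := by
  obtain ⟨i₀, j₀, hu, hv⟩ := surf_regs Q
  exact nice_exists g (place Q) hu hv

theorem surf_canonical (Q : (surf k g).Pt) : IsCanonicalGen Q (par2 k g 0 1 2) 1 := by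
  obtain ⟨i, j, l, h, hu, hv⟩ := surf_nice g Q
  obtain ⟨h1, h2, h3⟩ := surf_chart h Q hu hv
  exact canonical_of_gen (par := par2 k g i j l) h2 h1 h3
    (surf_basis g ⟨by decide, by decide, by decide⟩) (form2_all g h)

theorem three_nonsing : (three k g).IsNonsingular 3 := by
  refine ⟨three_trdeg g, fun P => ?_⟩
  obtain ⟨i, j, l, h, hu, hv⟩ := three_nice g P
  obtain ⟨T, h1, h2, h3⟩ := three_chart h P hu hv
  exact nonsing_of_gen h2 h1 h3

theorem surf_nonsing : (surf k g).IsNonsingular 2 := by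
  refine ⟨surf_trdeg g, fun Q => ?_⟩
  obtain ⟨i, j, l, h, hu, hv⟩ := surf_nice g Q
  obtain ⟨h1, h2, h3⟩ := surf_chart h Q hu hv
  exact nonsing_of_gen h2 h1 h3

theorem surf_trivial : (surf k g).CanonicalTrivial 2 :=
  ⟨par2 k g 0 1 2, 1, surf_basis g ⟨by decide, by decide, by decide⟩, one_ne_zero,
    surf_canonical g⟩

theorem three_fibres : CanonicalTrivialOnFibres (three k g) (surf k g) 3 := by
  intro Q
  obtain ⟨i, j, l, h, hu, hv⟩ := surf_nice g Q
  refine ⟨par3 k g .A i j l, 1, three_basis g h, one_ne_zero, fun P hPQ => ?_⟩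
  refine three_canonical g h P (fun m => ?_) (fun m => ?_) (three_basis g h)
    (IsJacobian.refl _)
  · obtain ⟨c, hc⟩ := hu m
    exact ⟨c, hPQ _ _ hc⟩
  · obtain ⟨c, hc⟩ := hv m
    exact ⟨c, hPQ _ _ hc⟩

end Pool.Agent.Helper43
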