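import Pool.Agent.Helper43.ExAlgCl

open scoped KaehlerDifferential

noncomputable section

namespace Pool.Agent.Helper43

universe u

open ProjVar

section

variable {k : Type u} [Field k] {F : Type u} [Field F] [Algebra k F] [Algebra (S4 k) F]
  (g : Gd (fr k F) (ft k F))

include g in
theorem exv_mem_mid (j : Fin 3) : exv (fr k F) j / fr k F 0 ^ 5 ∈ midField k F := by
  have h : exv (fr k F) j / fr k F 0 ^ 5 =
      (fr k F (j + 1) / fr k F 0) ^ 4 * (fr k F (j + 2) / fr k F 0) +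
        (fr k F (j + 1) / fr k F 0) * (fr k F (j + 2) / fr k F 0) ^ 4 := by
    unfold exv
    have := g.r0 0
    field_simp
  rw [h]
  have h1 := ratio_mem_mid g
  exact add_mem (mul_mem (pow_mem (h1 _) 4) (h1 _)) (mul_mem (h1 _) (pow_mem (h1 _) 4))

include g in
theorem exY_mem_mid (e : Fin 3 × Fin 3) : exY (fr k F) e / fr k F 0 ^ 7 ∈ midField k F := by
  have h : exY (fr k F) e / fr k F 0 ^ 7 =
      (fr k F e.1 / fr k F 0) ^ 2 * (exv (fr k F) e.2 / fr k F 0 ^ 5) := by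
    unfold exY
    have := g.r0 0
    field_simp
  rw [h]
  exact mul_mem (pow_mem (ratio_mem_mid g _) 2) (exv_mem_mid g _)

theorem surf_le_mid : (surf k g).functionField ≤ midField k F := by
  refine IntermediateField.adjoin_le_iff.mpr ?_
  rintro _ ⟨e, rfl⟩
  have h := div_mem (exY_mem_mid g e) (exY_mem_mid g (0, 1))
  have h1 : exY (fr k F) e / fr k F 0 ^ 7 / (exY (fr k F) (0, 1) / fr k F 0 ^ 7) =
      exY (fr k F) e / exY (fr k F) (0, 1) := by
    have := g.r0 0
    have := g.Y0 (0, 1)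
    field_simp
  rw [h1] at h
  exact h

open IntermediateField in
theorem three_mem_tau {z : F} (hz : z ∈ (three k g).functionField) :
    z ∈ (midField k F)⟮ft k F / fr k F 0⟯ := by
  set τ := ft k F / fr k F 0 with hτ
  have hr := g.r0 0
  have hmid : ∀ x ∈ midField k F, x ∈ (midField k F)⟮τ⟯ := fun x hx =>
    IntermediateField.algebraMap_mem _ (⟨x, hx⟩ : midField k F)
  have hτm : τ ∈ (midField k F)⟮τ⟯ := mem_adjoin_simple_self _ _
  have hrm : ∀ m, fr k F m / fr k F 0 ∈ (midField k F)⟮τ⟯ := fun m =>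
    hmid _ (ratio_mem_mid g m)
  have hU : ∀ o, exU (fr k F) (ft k F) o / fr k F 0 ^ 2 ∈ (midField k F)⟮τ⟯ := by
    intro o
    cases o with
    | none =>
      have : exU (fr k F) (ft k F) none / fr k F 0 ^ 2 = τ ^ 2 := by
        change ft k F ^ 2 / fr k F 0 ^ 2 = (ft k F / fr k F 0) ^ 2
        rw [div_pow]
      rw [this]
      exact pow_mem hτm 2
    | some i =>
      have : exU (fr k F) (ft k F) (some i) / fr k F 0 ^ 2 = (fr k F i / fr k F 0) ^ 2 := by
        change fr k F i ^ 2 / fr k F 0 ^ 2 = (fr k F i / fr k F 0) ^ 2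
        rw [div_pow]
      rw [this]
      exact pow_mem (hrm i) 2
  have hV : ∀ s, exV (fr k F) (ft k F) s / fr k F 0 ^ 5 ∈ (midField k F)⟮τ⟯ := by
    intro s
    cases s with
    | inl j => exact hmid _ (exv_mem_mid g j)
    | inr i =>
      have : exV (fr k F) (ft k F) (Sum.inr i) / fr k F 0 ^ 5 =
          τ * (fr k F i / fr k F 0) ^ 4 + τ ^ 4 * (fr k F i / fr k F 0) := by
        change (ft k F * fr k F i ^ 4 + ft k F ^ 4 * fr k F i) / fr k F 0 ^ 5 = _
        rw [hτ]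
        field_simp
      rw [this]
      exact add_mem (mul_mem hτm (pow_mem (hrm i) 4)) (mul_mem (pow_mem hτm 4) (hrm i))
  have hX : ∀ e, exX (fr k F) (ft k F) e / fr k F 0 ^ 14 ∈ (midField k F)⟮τ⟯ := by
    intro e
    have : exX (fr k F) (ft k F) e / fr k F 0 ^ 14 = (exY (fr k F) e.1 / fr k F 0 ^ 7) *
        ((exU (fr k F) (ft k F) e.2.1 / fr k F 0 ^ 2) *
          (exV (fr k F) (ft k F) e.2.2 / fr k F 0 ^ 5)) := by
      unfold exX
      field_simp
    rw [this]
    exact mul_mem (hmid _ (exY_mem_mid g _)) (mul_mem (hU _) (hV _))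
  have hle : (three k g).functionField ≤
      ((midField k F)⟮τ⟯).restrictScalars k := by
    refine IntermediateField.adjoin_le_iff.mpr ?_
    rintro _ ⟨e, rfl⟩
    have h := div_mem (hX e) (hX (three k g).o)
    have h1 : exX (fr k F) (ft k F) e / fr k F 0 ^ 14 /
        (exX (fr k F) (ft k F) (three k g).o / fr k F 0 ^ 14) =
        exX (fr k F) (ft k F) e / exX (fr k F) (ft k F) (three k g).o := by
      have := g.X0 (three k g).o
      field_simp
    rw [h1] at h
    exact h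
  exact hle hz

variable [CharP F 2]

theorem mid_decomp {z : F} (hz : z ∈ midField k F) :
    ∃ y₀ ∈ (surf k g).functionField, ∃ y₁ ∈ (surf k g).functionField,
      z = y₀ + y₁ * (fr k F 2 / fr k F 0) := by
  have h2 : (2 : F) = 0 := CharTwo.two_eq_zero
  have hr := g.r0 0
  have ha := surf_u_mem k g 1 0
  have hb := surf_u_mem k g 2 0
  have hc := surf_v_mem k g 2 1
  refine IntermediateField.adjoin_induction (p := fun z _ =>
    ∃ y₀ ∈ (surf k g).functionField, ∃ y₁ ∈ (surf k g).functionField,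
      z = y₀ + y₁ * (fr k F 2 / fr k F 0)) k ?_ ?_ ?_ ?_ ?_ hz
  · rintro x (rfl | rfl)
    · refine ⟨(fr k F 1 ^ 2 / fr k F 0 ^ 2) ^ 2 +
        (exv (fr k F) 2 / exv (fr k F) 1) * (fr k F 2 ^ 2 / fr k F 0 ^ 2) ^ 2,
        add_mem (pow_mem ha 2) (mul_mem hc (pow_mem hb 2)),
        exv (fr k F) 2 / exv (fr k F) 1, hc, ?_⟩
      have d : Dist 0 1 2 := ⟨by decide, by decide, by decide⟩
      have e1 := exv_eq (fr k F) d
      have e2 := exv_eq (fr k F) d.ilj
      have h1 := g.v0 1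
      have h3 : exv (fr k F) 2 / exv (fr k F) 1 *
          ((fr k F 2 / fr k F 0) + (fr k F 2 / fr k F 0) ^ 4) =
          (fr k F 1 / fr k F 0) + (fr k F 1 / fr k F 0) ^ 4 := by
        field_simp
        rw [e1, e2]
        ring
      have h4 : fr k F 1 / fr k F 0 = exv (fr k F) 2 / exv (fr k F) 1 *
          ((fr k F 2 / fr k F 0) + (fr k F 2 / fr k F 0) ^ 4) -
          (fr k F 1 / fr k F 0) ^ 4 := by
        rw [h3]; ring
      have e3 : (fr k F 1 ^ 2 / fr k F 0 ^ 2) ^ 2 = (fr k F 1 / fr k F 0) ^ 4 := by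
        field_simp
      have e4 : (fr k F 2 ^ 2 / fr k F 0 ^ 2) ^ 2 = (fr k F 2 / fr k F 0) ^ 4 := by
        field_simp
      rw [e3, e4]
      linear_combination h4 - (fr k F 1 / fr k F 0) ^ 4 * h2
    · exact ⟨0, zero_mem _, 1, one_mem _, by ring⟩
  · intro c
    exact ⟨algebraMap k F c, IntermediateField.algebraMap_mem _ c, 0, zero_mem _, by ring⟩
  · rintro _ _ _ _ ⟨a₀, ha₀, a₁, ha₁, rfl⟩ ⟨b₀, hb₀, b₁, hb₁, rfl⟩
    exact ⟨a₀ + b₀, add_mem ha₀ hb₀, a₁ + b₁, add_mem ha₁ hb₁, by ring⟩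
  · rintro _ _ ⟨a₀, ha₀, a₁, ha₁, rfl⟩
    have hsq : (a₀ + a₁ * (fr k F 2 / fr k F 0)) ^ 2 =
        a₀ ^ 2 + a₁ ^ 2 * (fr k F 2 ^ 2 / fr k F 0 ^ 2) := by
      field_simp
      linear_combination (fr k F 0 * a₀ * fr k F 2 * a₁) * h2
    have hmem : (a₀ + a₁ * (fr k F 2 / fr k F 0)) ^ 2 ∈ (surf k g).functionField := by
      rw [hsq]
      exact add_mem (pow_mem ha₀ 2) (mul_mem (pow_mem ha₁ 2) hb)
    refine ⟨a₀ / (a₀ + a₁ * (fr k F 2 / fr k F 0)) ^ 2, div_mem ha₀ hmem,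
      a₁ / (a₀ + a₁ * (fr k F 2 / fr k F 0)) ^ 2, div_mem ha₁ hmem, ?_⟩
    by_cases h0 : a₀ + a₁ * (fr k F 2 / fr k F 0) = 0
    · rw [h0]; simp
    · generalize fr k F 2 / fr k F 0 = ρ at *
      field_simp
  · rintro _ _ _ _ ⟨a₀, ha₀, a₁, ha₁, rfl⟩ ⟨b₀, hb₀, b₁, hb₁, rfl⟩
    refine ⟨a₀ * b₀ + a₁ * b₁ * (fr k F 2 ^ 2 / fr k F 0 ^ 2),
      add_mem (mul_mem ha₀ hb₀) (mul_mem (mul_mem ha₁ hb₁) hb), a₀ * b₁ + a₁ * b₀,
      add_mem (mul_mem ha₀ hb₁) (mul_mem ha₁ hb₀), ?_⟩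
    have e4 : fr k F 2 ^ 2 / fr k F 0 ^ 2 = (fr k F 2 / fr k F 0) ^ 2 := by
      field_simp
    rw [e4]
    ring

variable [IsFractionRing (S4 k) F] [IsScalarTower k (S4 k) F]

theorem surf_alg_closed (z : F) (hz : z ∈ (three k g).functionField)
    (ha : IsAlgebraic (surf k g).functionField z) : z ∈ (surf k g).functionField := by
  have h2 : (2 : F) = 0 := CharTwo.two_eq_zero
  have h1 : IsAlgebraic (midField k F) z :=
    IsAlgebraic.tower_top_of_subalgebra_le (A := (surf k g).functionField.toSubalgebra)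
      (B := (midField k F).toSubalgebra) (surf_le_mid g) ha
  obtain ⟨c, hc⟩ := alg_mem_of_transcendental (transcendental_tau (k := k) (F := F))
    (three_mem_tau g hz) h1
  have hzm : z ∈ midField k F := by
    rw [← hc]
    exact c.2
  obtain ⟨y₀, hy₀, y₁, hy₁, rfl⟩ := mid_decomp g hzm
  obtain ⟨δ, hδ1, hδ2⟩ := exists_der (k := k) (F := F)
  have hkill := der_kill g hδ1 hδ2
  have hle := surf_le_three k g
  have h3 := hkill _ hz
  rw [map_add, Derivation.leibniz, hkill _ (hle hy₀), hkill _ (hle hy₁), smul_zero, add_zero,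
    zero_add, smul_eq_mul] at h3
  have h4 : δ (fr k F 2 / fr k F 0) = exv (fr k F) 1 / fr k F 0 ^ 2 := by
    have d : Dist 0 1 2 := ⟨by decide, by decide, by decide⟩
    rw [div_eq_mul_inv, Derivation.leibniz, Derivation.leibniz_inv, hδ1, hδ1, exv_eq _ d]
    have := g.r0 0
    simp only [smul_eq_mul]
    field_simp
    linear_combination (-(fr k F 2 * fr k F 0 ^ 3)) * h2
  have h5 : δ (fr k F 2 / fr k F 0) ≠ 0 := by
    rw [h4]
    exact div_ne_zero (g.v0 1) (pow_ne_zero _ (g.r0 0))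
  have h6 : y₁ = 0 := (mul_eq_zero.mp h3).resolve_right h5
  rw [h6, zero_mul, add_zero]
  exact hy₀

theorem isFibration : IsFibration (three k g) (surf k g) :=
  ⟨surf_le_three k g, exists_image g, exists_preimage g, surf_alg_closed g⟩

end

end Pool.Agent.Helper43
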