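import Pool.Agent.Helper43.ExVar

open scoped KaehlerDifferential

noncomputable section

namespace Pool.Agent.Helper43

universe u

section

variable (k : Type u) {F : Type u} [Field k] [Field F] [Algebra k F] {r : Fin 3 → F} {t : F}
  (g : Gd r t)

/-- The surface. -/
def surf : ProjVar k F where
  ι := Fin 3 × Fin 3
  fin := inferInstance
  x := exY r
  o := (0, 1)
  x_ne := g.Y0 _

/-- The threefold. -/
def three : ProjVar k F where
  ι := (Fin 3 × Fin 3) × (Option (Fin 3) × (Fin 3 ⊕ Fin 3))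
  fin := inferInstance
  x := exX r t
  o := ((0, 1), (some 0, Sum.inl 1))
  x_ne := g.X0 _

theorem surf_u_mem (i j : Fin 3) : r i ^ 2 / r j ^ 2 ∈ (surf k g).functionField := by
  have := (surf k g).ratio_mem (i, 0) (j, 0)
  have e : (surf k g).x (i, 0) / (surf k g).x (j, 0) = r i ^ 2 / r j ^ 2 := by
    change (r i ^ 2 * exv r 0) / (r j ^ 2 * exv r 0) = _
    have := g.v0 0
    have := g.r0 j
    field_simp
  rwa [e] at this

theorem surf_v_mem (i j : Fin 3) : exv r i / exv r j ∈ (surf k g).functionField := by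
  have := (surf k g).ratio_mem (0, i) (0, j)
  have e : (surf k g).x (0, i) / (surf k g).x (0, j) = exv r i / exv r j := by
    change (r 0 ^ 2 * exv r i) / (r 0 ^ 2 * exv r j) = _
    have := g.v0 j
    have := g.r0 0
    field_simp
  rwa [e] at this

theorem three_uv_mem (e e' : Fin 3 × Fin 3) : exY r e / exY r e' ∈ (three k g).functionField := by
  have := (three k g).ratio_mem (e, (none, Sum.inl 0)) (e', (none, Sum.inl 0))
  have e : (three k g).x (e, (none, Sum.inl 0)) / (three k g).x (e', (none, Sum.inl 0)) =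
      exY r e / exY r e' := by
    change (exY r e * (exU r t none * exV r t (Sum.inl 0))) /
      (exY r e' * (exU r t none * exV r t (Sum.inl 0))) = _
    have := g.U0 none
    have := g.V0 (Sum.inl 0)
    have := g.Y0 e'
    field_simp
  rwa [e] at this

theorem surf_le_three : (surf k g).functionField ≤ (three k g).functionField := by
  refine IntermediateField.adjoin_le_iff.mpr ?_
  rintro _ ⟨e, rfl⟩
  exact three_uv_mem k g _ _

theorem three_U_mem (o o') : exU r t o / exU r t o' ∈ (three k g).functionField := by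
  have := (three k g).ratio_mem ((0, 0), (o, Sum.inl 0)) ((0, 0), (o', Sum.inl 0))
  have e : (three k g).x ((0, 0), (o, Sum.inl 0)) / (three k g).x ((0, 0), (o', Sum.inl 0)) =
      exU r t o / exU r t o' := by
    change (exY r (0, 0) * (exU r t o * exV r t (Sum.inl 0))) /
      (exY r (0, 0) * (exU r t o' * exV r t (Sum.inl 0))) = _
    have := g.U0 o'
    have := g.V0 (Sum.inl 0)
    have := g.Y0 (0, 0)
    field_simp
  rwa [e] at this

theorem three_V_mem (s s') : exV r t s / exV r t s' ∈ (three k g).functionField := by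
  have := (three k g).ratio_mem ((0, 0), (none, s)) ((0, 0), (none, s'))
  have e : (three k g).x ((0, 0), (none, s)) / (three k g).x ((0, 0), (none, s')) =
      exV r t s / exV r t s' := by
    change (exY r (0, 0) * (exU r t none * exV r t s)) /
      (exY r (0, 0) * (exU r t none * exV r t s')) = _
    have := g.U0 none
    have := g.V0 s'
    have := g.Y0 (0, 0)
    field_simp
  rwa [e] at this

theorem three_par_mem (T : Ty) (i j l : Fin 3) (q : Fin 3) :
    T.par r t i j l q ∈ (three k g).functionField := by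
  have h1 : exv r l / exv r j ∈ (three k g).functionField :=
    three_V_mem k g (Sum.inl l) (Sum.inl j)
  have h2 := three_U_mem k g
  have h3 := three_V_mem k g
  cases T with
  | A =>
    fin_cases q
    · exact h2 (some l) (some i)
    · exact h1
    · exact h3 (Sum.inr i) (Sum.inl j)
  | B =>
    fin_cases q
    · exact h2 none (some i)
    · exact h1
    · exact h3 (Sum.inl j) (Sum.inr i)
  | C =>
    fin_cases q
    · exact h2 (some i) none
    · exact h1
    · exact h3 (Sum.inr l) (Sum.inr i)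

theorem surf_par_mem (i j l : Fin 3) (q : Fin 2) :
    (![r l ^ 2 / r i ^ 2, exv r l / exv r j] : Fin 2 → F) q ∈ (surf k g).functionField := by
  fin_cases q
  · exact surf_u_mem k g l i
  · exact surf_v_mem k g l j

/-- The coordinate functions of a chart of the threefold. -/
def par3 (T : Ty) (i j l : Fin 3) : Fin 3 → (three k g).functionField :=
  fun q => ⟨T.par r t i j l q, three_par_mem k g T i j l q⟩

/-- The coordinate functions of a chart of the surface. -/
def par2 (i j l : Fin 3) : Fin 2 → (surf k g).functionField :=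
  fun q => ⟨(![r l ^ 2 / r i ^ 2, exv r l / exv r j] : Fin 2 → F) q, surf_par_mem k g i j l q⟩

end

section Local

variable {k F : Type u} [Field k] [Field F] [Algebra k F] {r : Fin 3 → F} {t : F} {g : Gd r t}
  {i j l : Fin 3}

theorem surf_regs (Q : (surf k g).Pt) : ∃ i₀ j₀, (∀ m, ∃ c, ProjVar.HasVal Q (r m ^ 2 / r i₀ ^ 2) c) ∧
    (∀ m, ∃ c, ProjVar.HasVal Q (exv r m / exv r j₀) c) := by
  obtain ⟨⟨i₀, j₀⟩, h⟩ := Q.exists_ne
  refine ⟨i₀, j₀, fun m => ?_, fun m => ?_⟩
  · · have := ProjVar.hasVal_ratio h (m, j₀)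
      have e : (surf k g).x (m, j₀) / (surf k g).x (i₀, j₀) = r m ^ 2 / r i₀ ^ 2 := by
        change (r m ^ 2 * exv r j₀) / (r i₀ ^ 2 * exv r j₀) = _
        have := g.v0 j₀
        have := g.r0 i₀
        field_simp
      rw [e] at this
      exact ⟨_, this⟩
  · · have := ProjVar.hasVal_ratio h (i₀, m)
      have e : (surf k g).x (i₀, m) / (surf k g).x (i₀, j₀) = exv r m / exv r j₀ := by
        change (r i₀ ^ 2 * exv r m) / (r i₀ ^ 2 * exv r j₀) = _
        have := g.v0 j₀
        have := g.r0 i₀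
        field_simp
      rw [e] at this
      exact ⟨_, this⟩

theorem three_regs_of (P : (three k g).Pt) {i₀ j₀ : Fin 3} {o₀ : Option (Fin 3)}
    {s₀ : Fin 3 ⊕ Fin 3} (h : P.p ((i₀, j₀), (o₀, s₀)) ≠ 0) :
    (∀ m, ∃ c, ProjVar.HasVal P (r m ^ 2 / r i₀ ^ 2) c) ∧
    (∀ m, ∃ c, ProjVar.HasVal P (exv r m / exv r j₀) c) ∧
    (∀ o, ∃ c, ProjVar.HasVal P (exU r t o / exU r t o₀) c) ∧
    (∀ s, ∃ c, ProjVar.HasVal P (exV r t s / exV r t s₀) c) := by
  have h1 := g.r0 i₀
  have h2 := g.v0 j₀
  have h3 := g.U0 o₀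
  have h4 := g.V0 s₀
  refine ⟨fun m => ?_, fun m => ?_, fun m => ?_, fun m => ?_⟩
  · · have := ProjVar.hasVal_ratio h ((m, j₀), (o₀, s₀))
      have e : (three k g).x ((m, j₀), (o₀, s₀)) / (three k g).x ((i₀, j₀), (o₀, s₀)) =
          r m ^ 2 / r i₀ ^ 2 := by
        change (r m ^ 2 * exv r j₀) * (exU r t o₀ * exV r t s₀) /
          ((r i₀ ^ 2 * exv r j₀) * (exU r t o₀ * exV r t s₀)) = _
        field_simp
      rw [e] at this
      exact ⟨_, this⟩
  · · have := ProjVar.hasVal_ratio h ((i₀, m), (o₀, s₀))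
      have e : (three k g).x ((i₀, m), (o₀, s₀)) / (three k g).x ((i₀, j₀), (o₀, s₀)) =
          exv r m / exv r j₀ := by
        change (r i₀ ^ 2 * exv r m) * (exU r t o₀ * exV r t s₀) /
          ((r i₀ ^ 2 * exv r j₀) * (exU r t o₀ * exV r t s₀)) = _
        field_simp
      rw [e] at this
      exact ⟨_, this⟩
  · · have := ProjVar.hasVal_ratio h ((i₀, j₀), (m, s₀))
      have e : (three k g).x ((i₀, j₀), (m, s₀)) / (three k g).x ((i₀, j₀), (o₀, s₀)) =
          exU r t m / exU r t o₀ := by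
        change (r i₀ ^ 2 * exv r j₀) * (exU r t m * exV r t s₀) /
          ((r i₀ ^ 2 * exv r j₀) * (exU r t o₀ * exV r t s₀)) = _
        field_simp
      rw [e] at this
      exact ⟨_, this⟩
  · · have := ProjVar.hasVal_ratio h ((i₀, j₀), (o₀, m))
      have e : (three k g).x ((i₀, j₀), (o₀, m)) / (three k g).x ((i₀, j₀), (o₀, s₀)) =
          exV r t m / exV r t s₀ := by
        change (r i₀ ^ 2 * exv r j₀) * (exU r t o₀ * exV r t m) /
          ((r i₀ ^ 2 * exv r j₀) * (exU r t o₀ * exV r t s₀)) = _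
        field_simp
      rw [e] at this
      exact ⟨_, this⟩

theorem three_regs (P : (three k g).Pt) : ∃ i₀ j₀ o₀ s₀,
    (∀ m, ∃ c, ProjVar.HasVal P (r m ^ 2 / r i₀ ^ 2) c) ∧
    (∀ m, ∃ c, ProjVar.HasVal P (exv r m / exv r j₀) c) ∧
    (∀ o, ∃ c, ProjVar.HasVal P (exU r t o / exU r t o₀) c) ∧
    (∀ s, ∃ c, ProjVar.HasVal P (exV r t s / exV r t s₀) c) := by
  obtain ⟨⟨⟨i₀, j₀⟩, ⟨o₀, s₀⟩⟩, h⟩ := P.exists_ne
  exact ⟨i₀, j₀, o₀, s₀, three_regs_of P h⟩

/-- A coordinate whose ratios are all regular at `P` does not vanish at `P`. -/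
theorem ProjVar.Pt.ne_of_regular {X : ProjVar k F} (P : X.Pt) {e : X.ι} (he : X.x e ≠ 0)
    (h : ∀ e', ∃ c, ProjVar.HasVal P (X.x e' / X.x e) c) : P.p e ≠ 0 := by
  obtain ⟨e₀, h₀⟩ := P.exists_ne
  obtain ⟨c, hc⟩ := h e₀
  have h1 := (ProjVar.hasVal_ratio h₀ e).mul hc
  have h2 : X.x e / X.x e₀ * (X.x e₀ / X.x e) = 1 := by
    have := ProjVar.Pt.x_ne h₀
    field_simp
  rw [h2] at h1
  have h3 := h1.uniq (ProjVar.place P).one
  intro h4
  rw [h4, zero_div, zero_mul] at h3
  exact zero_ne_one h3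

end Local

end Pool.Agent.Helper43
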