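import Pool.Agent.Helper43.ExMain1

noncomputable section

namespace Pool.Agent.Helper43

universe u

open MvPolynomial

variable {k : Type u} [Field k]

theorem degreeOf_exv {s : Fin 4} {j : Fin 3} (h1 : s ≠ (j + 1).castSucc)
    (h2 : s ≠ (j + 2).castSucc) : degreeOf s (exv (pr k) j) = 0 := by
  have hm : ∀ {a b : S4 k}, degreeOf s a = 0 → degreeOf s b = 0 → degreeOf s (a * b) = 0 :=
    fun {a b} ha hb => Nat.le_zero.mp ((degreeOf_mul_le s a b).trans (by simp [ha, hb]))
  have hp : ∀ {a : S4 k} {n : ℕ}, degreeOf s a = 0 → degreeOf s (a ^ n) = 0 :=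
    fun {a n} ha => Nat.le_zero.mp ((degreeOf_pow_le s a n).trans (by simp [ha]))
  have ha : ∀ {a b : S4 k}, degreeOf s a = 0 → degreeOf s b = 0 → degreeOf s (a + b) = 0 :=
    fun {a b} ha hb => Nat.le_zero.mp ((degreeOf_add_le s a b).trans (by simp [ha, hb]))
  have x1 : degreeOf s (pr k (j + 1)) = 0 := degreeOf_X_of_ne h1
  have x2 : degreeOf s (pr k (j + 2)) = 0 := degreeOf_X_of_ne h2
  exact ha (hm (hp x1) x2) (hm x1 (hp x2))

/-- The polynomials `v_j` have no common factor. -/
theorem const_of_dvd {d : S4 k} (h : ∀ j : Fin 3, ∃ n, d ∣ exv (pr k) j ^ n) :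
    ∃ c, c ≠ 0 ∧ d = C c := by
  have hd0 : d ≠ 0 := by
    rintro rfl
    obtain ⟨n, hn⟩ := h 0
    exact pow_ne_zero n (exv_pr_ne 0) (zero_dvd_iff.mp hn)
  have key : ∀ (s : Fin 4) (j : Fin 3), s ≠ (j + 1).castSucc → s ≠ (j + 2).castSucc →
      degreeOf s d = 0 := by
    intro s j h1 h2
    obtain ⟨n, q, hq⟩ := h j
    have h3 : exv (pr k) j ^ n ≠ 0 := pow_ne_zero n (exv_pr_ne j)
    have hq0 : q ≠ 0 := by
      rintro rfl
      rw [mul_zero] at hq
      exact h3 hq
    have h4 := degreeOf_mul_eq (n := s) hd0 hq0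
    rw [← hq] at h4
    have h5 : degreeOf s (exv (pr k) j ^ n) = 0 :=
      Nat.le_zero.mp ((degreeOf_pow_le s _ n).trans (by simp [degreeOf_exv h1 h2]))
    omega
  have hvars : d.vars = ∅ := by
    rw [Finset.eq_empty_iff_forall_notMem]
    intro s hs
    rw [mem_vars_iff_degreeOf_ne_zero] at hs
    refine hs ?_
    obtain ⟨j, h1, h2⟩ := (by decide : ∀ s : Fin 4, ∃ j : Fin 3, s ≠ (j + 1).castSucc ∧
      s ≠ (j + 2).castSucc) s
    exact key s j h1 h2
  have h1 := vars_eq_empty_iff_eq_C.mp hvars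
  refine ⟨_, ?_, h1⟩
  intro h2
  rw [h2, map_zero] at h1
  exact hd0 h1

variable {F : Type u} [Field F] [Algebra k F] [Algebra (S4 k) F]
  [IsFractionRing (S4 k) F]

theorem aeval_eq_eval' {σ : Type*} (R : σ → k) (f : MvPolynomial σ k) :
    aeval R f = eval R f := by
  rw [← coe_aeval_eq_eval]
  rfl

omit [Algebra k F] in
/-- A rational function on affine space of dimension four which is regular outside the common
zeros of the `v_j` is a polynomial. -/
theorem poly_of_regular [IsAlgClosed k] (G : F)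
    (h : ∀ R : Fin 4 → k, (∃ j, eval R (exv (pr k) j) ≠ 0) → ∃ a b : S4 k, eval R b ≠ 0 ∧
      G * algebraMap (S4 k) F b = algebraMap (S4 k) F a) :
    ∃ G₀ : S4 k, algebraMap (S4 k) F G₀ = G := by
  set num := IsFractionRing.num (S4 k) G with hnum
  set den : S4 k := (IsFractionRing.den (S4 k) G : S4 k) with hden
  have hred : IsRelPrime num den := IsFractionRing.num_den_reduced (S4 k) G
  have hG : algebraMap (S4 k) F num / algebraMap (S4 k) F den = G :=
    IsFractionRing.mk'_num_den' (S4 k) G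
  have hden0 : den ≠ 0 := nonZeroDivisors.ne_zero (IsFractionRing.den (S4 k) G).2
  have hdenF : algebraMap (S4 k) F den ≠ 0 := by
    simpa using hden0
  have hinj : Function.Injective (algebraMap (S4 k) F) := IsFractionRing.injective _ _
  have h1 : ∀ R : Fin 4 → k, (∃ j, eval R (exv (pr k) j) ≠ 0) → eval R den ≠ 0 := by
    intro R hR
    obtain ⟨a, b, hb, hab⟩ := h R hR
    have h2 : num * b = a * den := by
      apply hinj
      rw [map_mul, map_mul, ← hab, ← hG]
      field_simp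
    have h3 : den ∣ num * b := ⟨a, by rw [h2]; ring⟩
    obtain ⟨q, hq⟩ := hred.symm.dvd_of_dvd_mul_left h3
    intro h4
    rw [hq, map_mul, h4, zero_mul] at hb
    exact hb rfl
  have h2 : ∀ j : Fin 3, ∃ n, den ∣ exv (pr k) j ^ n := by
    intro j
    have h3 : exv (pr k) j ∈ vanishingIdeal k (zeroLocus k (Ideal.span {den})) := by
      rw [mem_vanishingIdeal_iff]
      intro R hR
      by_contra h4
      refine h1 R ⟨j, ?_⟩ ?_
      · rwa [aeval_eq_eval'] at h4
      · have := hR den (Ideal.subset_span rfl)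
        rwa [aeval_eq_eval'] at this
    rw [vanishingIdeal_zeroLocus_eq_radical] at h3
    obtain ⟨n, hn⟩ := h3
    exact ⟨n, Ideal.mem_span_singleton.mp hn⟩
  obtain ⟨c, hc, hdc⟩ := const_of_dvd h2
  refine ⟨C c⁻¹ * num, ?_⟩
  rw [← hG, hdc, map_mul, eq_div_iff, mul_comm, ← mul_assoc, ← map_mul, ← C_mul,
    mul_inv_cancel₀ hc, C_1, map_one, one_mul]
  rw [← hdc]
  exact hdenF

section Homog

theorem exv_homog (j : Fin 3) : (exv (pr k) j).IsHomogeneous 5 := by
  have h : ∀ i : Fin 3, (pr k i).IsHomogeneous 1 := fun i => isHomogeneous_X _ _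
  exact (((h _).pow 4).mul (h _)).add ((h _).mul ((h _).pow 4))

theorem exX_homog (e) : (exX (pr k) (pt k) e).IsHomogeneous 14 := by
  have h : ∀ i : Fin 3, (pr k i).IsHomogeneous 1 := fun i => isHomogeneous_X _ _
  have ht : (pt k).IsHomogeneous 1 := isHomogeneous_X _ _
  have h1 : (exY (pr k) e.1).IsHomogeneous 7 := ((h _).pow 2).mul (exv_homog _)
  have h2 : (exU (pr k) (pt k) e.2.1).IsHomogeneous 2 := by
    cases e.2.1 with
    | none => exact ht.pow 2
    | some i => exact (h i).pow 2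
  have h3 : (exV (pr k) (pt k) e.2.2).IsHomogeneous 5 := by
    cases e.2.2 with
    | inl i => exact exv_homog i
    | inr i => exact (ht.mul ((h i).pow 4)).add ((ht.pow 4).mul (h i))
  exact h1.mul (h2.mul h3)

theorem exX_pr_ne (e) : exX (pr k) (pt k) e ≠ 0 := by
  have h : ∀ i : Fin 3, pr k i ≠ 0 := fun i => X_ne_zero _
  have ht : pt k ≠ 0 := X_ne_zero _
  refine mul_ne_zero (mul_ne_zero (pow_ne_zero _ (h _)) (exv_pr_ne _)) (mul_ne_zero ?_ ?_)
  · cases e.2.1 with
    | none => exact pow_ne_zero _ ht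
    | some i => exact pow_ne_zero _ (h i)
  · cases e.2.2 with
    | inl i => exact exv_pr_ne i
    | inr i => exact exw_pr_ne i

end Homog

end Pool.Agent.Helper43
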