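import Pool.Agent.Helper43.ExPoly

open scoped KaehlerDifferential

noncomputable section

namespace Pool.Agent.Helper43

universe u

open ProjVar MvPolynomial

variable {k : Type u} [Field k] {F : Type u} [Field F] [Algebra k F] [Algebra (S4 k) F]
  [IsFractionRing (S4 k) F] [IsScalarTower k (S4 k) F]
  (g : Gd (fr k F) (ft k F)) {i j l : Fin 3}

omit [Algebra k F] [IsScalarTower k (S4 k) F] [IsFractionRing (S4 k) F] in
theorem exX_fr (e) : exX (fr k F) (ft k F) e = algebraMap (S4 k) F (exX (pr k) (pt k) e) :=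
  (map_exX (algebraMap (S4 k) F) (pr k) (pt k) e).symm

omit [IsFractionRing (S4 k) F] in
theorem aeval_three (f : MvPolynomial (three k g).ι k) :
    aeval (three k g).x f = algebraMap (S4 k) F (aeval (exX (pr k) (pt k)) f) := by
  have h : (three k g).x = fun e => algebraMap (S4 k) F (exX (pr k) (pt k) e) :=
    funext fun e => exX_fr e
  rw [h]
  have := MvPolynomial.map_aeval (exX (pr k) (pt k)) (algebraMap (S4 k) F) f
  rw [this, aeval_def]
  congr 1
  rw [← IsScalarTower.algebraMap_eq]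

/-- The point of the threefold with coordinates given by evaluation at `R`. -/
def evalPt (R : Fin 4 → k) {e₀} (h : eval R (exX (pr k) (pt k) e₀) ≠ 0) : (three k g).Pt where
  p e := eval R (exX (pr k) (pt k) e)
  ne h0 := h (congrFun h0 e₀)
  vanish n f _ h0 := by
    rw [aeval_three] at h0
    have h1 : aeval (exX (pr k) (pt k)) f = 0 := by
      apply IsFractionRing.injective (S4 k) F
      rw [h0, map_zero]
    have h2 := congrArg (eval R) h1
    rw [map_zero, MvPolynomial.map_aeval] at h2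
    rw [← h2, eval, coe_eval₂Hom]
    congr 1
    ext c
    simp

theorem evalPt_eval (R : Fin 4 → k) {e₀} (h : eval R (exX (pr k) (pt k) e₀) ≠ 0)
    (f : MvPolynomial (three k g).ι k) :
    eval (evalPt g R h).p f = eval R (aeval (exX (pr k) (pt k)) f) := by
  rw [MvPolynomial.map_aeval, eval, coe_eval₂Hom]
  congr 1
  ext c
  simp

variable [CharP F 2]

/-- Local description of a section of the divisor at a point. -/
theorem local_section (h : Dist i j l) (P : (three k g).Pt)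
    (hP : P.p ((i, j), (some i, Sum.inl j)) ≠ 0) {N m : ℕ} {s : F}
    (hs : ∀ (P : (three k g).Pt) (l : (three k g).functionField) (i : (three k g).ι),
      IsCanonicalGen P (par3 k g .A 0 1 2) l → P.p i ≠ 0 →
        ∃ z, RegularAt P z ∧ s = z * (l ^ N * ((three k g).x i / (three k g).x (three k g).o)) ^ m) :
    ∃ z c, HasVal P z c ∧ s = z * ((fr k F i ^ 4 * exv (fr k F) 1 /
      (fr k F 0 ^ 4 * exv (fr k F) j)) ^ N *
      (exX (fr k F) (ft k F) ((i, j), (some i, Sum.inl j)) /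
        exX (fr k F) (ft k F) ((0, 1), (some 0, Sum.inl 1)))) ^ m := by
  obtain ⟨hu, hv, -, -⟩ := three_regs_of P hP
  have hcan := three_canonical g h P hu hv
    (three_basis g (i := 0) (j := 1) (l := 2) ⟨by decide, by decide, by decide⟩) (form3_all g h)
  obtain ⟨z, ⟨c, hc⟩, hz⟩ := hs P _ _ hcan hP
  exact ⟨z, c, hc, hz⟩

/-- The algebra of the local description. -/
theorem local_poly {R : Fin 4 → k} (h : Dist i j l) (hR : eval R (exv (pr k) j) ≠ 0) {m : ℕ}
    {s : F}
    (hs : ∀ (P : (three k g).Pt) (l : (three k g).functionField) (i : (three k g).ι),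
      IsCanonicalGen P (par3 k g .A 0 1 2) l → P.p i ≠ 0 →
        ∃ z, RegularAt P z ∧
          s = z * (l ^ 15 * ((three k g).x i / (three k g).x (three k g).o)) ^ m) :
    ∃ (n : ℕ) (A B : S4 k), A.IsHomogeneous (14 * n) ∧ B.IsHomogeneous (14 * n) ∧ eval R B ≠ 0 ∧
      s * ((fr k F 0 ^ 4 / exv (fr k F) 1) ^ 15 *
        exX (fr k F) (ft k F) ((0, 1), (some 0, Sum.inl 1))) ^ m *
        algebraMap (S4 k) F (B * (exv (pr k) j ^ 15) ^ m) =
      algebraMap (S4 k) F
        (A * (pr k i ^ 60 * exX (pr k) (pt k) ((i, j), (some i, Sum.inl j))) ^ m) := by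
  have hi : eval R (pr k i) ≠ 0 := by
    intro h0
    rw [exv_eq (pr k) h] at hR
    simp only [map_add, map_mul, map_pow, h0] at hR
    simp at hR
  have he : eval R (exX (pr k) (pt k) ((i, j), (some i, Sum.inl j))) ≠ 0 := by
    change eval R (pr k i ^ 2 * exv (pr k) j * (pr k i ^ 2 * exv (pr k) j)) ≠ 0
    simp only [map_mul, map_pow]
    exact mul_ne_zero (mul_ne_zero (pow_ne_zero _ hi) hR) (mul_ne_zero (pow_ne_zero _ hi) hR)
  obtain ⟨z, c, ⟨n, a, b, ha, hb, hb0, hzab, -⟩, hsz⟩ :=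
    local_section g h (evalPt g R he) he hs
  rw [evalPt_eval] at hb0
  rw [aeval_three, aeval_three] at hzab
  obtain ⟨A, hA⟩ : ∃ A : S4 k, A = aeval (exX (pr k) (pt k)) a := ⟨_, rfl⟩
  obtain ⟨B, hB⟩ : ∃ B : S4 k, B = aeval (exX (pr k) (pt k)) b := ⟨_, rfl⟩
  have hA' : A.IsHomogeneous (14 * n) := hA ▸ ha.aeval _ exX_homog
  have hB' : B.IsHomogeneous (14 * n) := hB ▸ hb.aeval _ exX_homog
  rw [← hA, ← hB] at hzab
  rw [← hB] at hb0
  refine ⟨n, A, B, hA', hB', hb0, ?_⟩
  have e1 : algebraMap (S4 k) F (exv (pr k) j) = exv (fr k F) j :=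
    map_exv (algebraMap (S4 k) F) (pr k) j
  have e2 : algebraMap (S4 k) F (pr k i) = fr k F i := rfl
  have e3 : algebraMap (S4 k) F (exX (pr k) (pt k) ((i, j), (some i, Sum.inl j))) =
      exX (fr k F) (ft k F) ((i, j), (some i, Sum.inl j)) := (exX_fr _).symm
  simp only [map_mul, map_pow, e1, e2, e3]
  rw [← hzab, hsz]
  have h1 := g.r0 0
  have h2 := g.v0 1
  have h3 := g.v0 j
  have h4 := g.X0 ((0, 1), (some 0, Sum.inl 1))
  have e4 : (fr k F i ^ 4 * exv (fr k F) 1 / (fr k F 0 ^ 4 * exv (fr k F) j)) ^ 15 *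
      (exX (fr k F) (ft k F) ((i, j), (some i, Sum.inl j)) /
        exX (fr k F) (ft k F) ((0, 1), (some 0, Sum.inl 1))) *
      ((fr k F 0 ^ 4 / exv (fr k F) 1) ^ 15 * exX (fr k F) (ft k F) ((0, 1), (some 0, Sum.inl 1))) *
      exv (fr k F) j ^ 15 =
      fr k F i ^ 60 * exX (fr k F) (ft k F) ((i, j), (some i, Sum.inl j)) := by
    field_simp
  rw [← e4]
  simp only [mul_pow]
  ring

theorem three_not_pseff [IsAlgClosed k] : ¬ (three k g).CanonicalPseudoEffective 3 := by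
  intro hps
  obtain ⟨m, hm, s, -, hs0, hs⟩ := hps (par3 k g .A 0 1 2)
    (three_basis g (i := 0) (j := 1) (l := 2) ⟨by decide, by decide, by decide⟩) 15
  set G : F := s * ((fr k F 0 ^ 4 / exv (fr k F) 1) ^ 15 *
    exX (fr k F) (ft k F) ((0, 1), (some 0, Sum.inl 1))) ^ m with hG
  have hG0 : G ≠ 0 := by
    exact mul_ne_zero hs0 (pow_ne_zero _ (mul_ne_zero (pow_ne_zero _ (div_ne_zero
      (pow_ne_zero _ (g.r0 _)) (g.v0 _))) (g.X0 _)))
  obtain ⟨G₀, hG₀⟩ := poly_of_regular (k := k) G (by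
    rintro R ⟨j, hj⟩
    obtain ⟨i, hij⟩ : ∃ i, i ≠ j := (by decide : ∀ j : Fin 3, ∃ i, i ≠ j) j
    obtain ⟨l, h⟩ := exists_dist hij
    obtain ⟨n, A, B, -, -, hB, hAB⟩ := local_poly g h hj hs
    refine ⟨_, _, ?_, hAB⟩
    simp only [map_mul, map_pow]
    exact mul_ne_zero hB (pow_ne_zero _ (pow_ne_zero _ hj)))
  obtain ⟨R, hR⟩ : ∃ R, eval R (exv (pr k) 1) ≠ 0 := by
    by_contra h
    push Not at h
    refine exv_pr_ne (k := k) 1 (MvPolynomial.funext fun R => ?_)
    rw [h R, map_zero]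
  have d : Dist 0 1 2 := ⟨by decide, by decide, by decide⟩
  obtain ⟨n, A, B, hA, hB, hB0, hAB⟩ := local_poly g d hR hs
  rw [← hG, ← hG₀, ← map_mul] at hAB
  have h1 := IsFractionRing.injective (S4 k) F hAB
  have hG₀0 : G₀ ≠ 0 := by
    rintro rfl
    rw [map_zero] at hG₀
    exact hG0 hG₀.symm
  have hBne : B ≠ 0 := by
    rintro rfl
    rw [map_zero] at hB0
    exact hB0 rfl
  have hv := exv_pr_ne (k := k) 1
  have hx := exX_pr_ne (k := k) ((0, 1), (some 0, Sum.inl 1))
  have hr : pr k 0 ≠ 0 := X_ne_zero _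
  have hL : G₀ * (B * (exv (pr k) 1 ^ 15) ^ m) ≠ 0 :=
    mul_ne_zero hG₀0 (mul_ne_zero hBne (pow_ne_zero _ (pow_ne_zero _ hv)))
  have hAne : A ≠ 0 := by
    rintro rfl
    rw [h1, zero_mul] at hL
    exact hL rfl
  have hdB : B.totalDegree = 14 * n := hB.totalDegree hBne
  have hdA : A.totalDegree = 14 * n := hA.totalDegree hAne
  have hd1 : ((exv (pr k) 1 ^ 15) ^ m).totalDegree = 5 * 15 * m :=
    (((exv_homog 1).pow 15).pow m).totalDegree (pow_ne_zero _ (pow_ne_zero _ hv))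
  have hd2 : ((pr k 0 ^ 60 * exX (pr k) (pt k) ((0, 1), (some 0, Sum.inl 1))) ^ m).totalDegree =
      (1 * 60 + 14) * m :=
    ((((isHomogeneous_X _ _).pow 60).mul (exX_homog _)).pow m).totalDegree
      (pow_ne_zero _ (mul_ne_zero (pow_ne_zero _ hr) hx))
  have h2 := congrArg totalDegree h1
  rw [totalDegree_mul_of_isDomain hG₀0 (mul_ne_zero hBne (pow_ne_zero _ (pow_ne_zero _ hv))),
    totalDegree_mul_of_isDomain hBne (pow_ne_zero _ (pow_ne_zero _ hv)),
    totalDegree_mul_of_isDomain hAne (pow_ne_zero _ (mul_ne_zero (pow_ne_zero _ hr) hx)),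
    hdB, hdA, hd1, hd2] at h2
  omega

end Pool.Agent.Helper43
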