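import Pool.Agent.Helper43.ExTr

open scoped KaehlerDifferential

noncomputable section

namespace Pool.Agent.Helper43

universe u

open ProjVar

section

variable {k F : Type u} [Field k] [Field F] [Algebra k F] [CharP F 2] {r : Fin 3 → F} {t : F}
  (g : Gd r t) {i j l : Fin 3}

theorem three_isSeparable (h : Dist i j l) :
    Algebra.IsSeparable (IntermediateField.adjoin k (Set.range fun q =>
      (⟨Ty.A.par r t i j l q, three_par_mem k g .A i j l q⟩ : (three k g).functionField)))
      (three k g).functionField := by
  set E := IntermediateField.adjoin k (Set.range fun q =>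
      (⟨Ty.A.par r t i j l q, three_par_mem k g .A i j l q⟩ : (three k g).functionField)) with hE
  have hp := closed_mem (three k g) (E := E) (B := separableClosure E (three k g).functionField)
    sepClosure_prop
  have h1 := gen_all g h (k := k) (H := fun z _ => z ∈ (three k g).functionField) hp .A
    (fun m => ⟨0, three_U_mem k g (some m) (some i)⟩) (fun o => ⟨0, three_U_mem k g o _⟩)
    (fun q => ⟨⟨Ty.A.par r t i j l q, three_par_mem k g .A i j l q⟩, rfl, by
      have hq : (⟨Ty.A.par r t i j l q, three_par_mem k g .A i j l q⟩ :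
          (three k g).functionField) ∈ E := IntermediateField.subset_adjoin _ _ ⟨q, rfl⟩
      exact (separableClosure E (three k g).functionField).algebraMap_mem ⟨_, hq⟩⟩)
  have h2 := functionField_induction (three k g) hp (g.X0 _) h1
  rw [← separableClosure.eq_top_iff, eq_top_iff]
  intro z _
  obtain ⟨z', hz', h3⟩ := h2 z z.2
  obtain rfl : z' = z := Subtype.ext hz'
  exact h3

theorem surf_isSeparable (h : Dist i j l) :
    Algebra.IsSeparable (IntermediateField.adjoin k (Set.range fun q =>
      (⟨(![r l ^ 2 / r i ^ 2, exv r l / exv r j] : Fin 2 → F) q, surf_par_mem k g i j l q⟩ :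
        (surf k g).functionField)))
      (surf k g).functionField := by
  set E := IntermediateField.adjoin k (Set.range fun q =>
      (⟨(![r l ^ 2 / r i ^ 2, exv r l / exv r j] : Fin 2 → F) q, surf_par_mem k g i j l q⟩ :
        (surf k g).functionField)) with hE
  have hp := closed_mem (surf k g) (E := E) (B := separableClosure E (surf k g).functionField)
    sepClosure_prop
  have hq : ∀ q, ∃ z' : (surf k g).functionField,
      (z' : F) = (![r l ^ 2 / r i ^ 2, exv r l / exv r j] : Fin 2 → F) q ∧
      z' ∈ separableClosure E (surf k g).functionField := fun q =>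
    ⟨⟨_, surf_par_mem k g i j l q⟩, rfl, by
      have hq : (⟨(![r l ^ 2 / r i ^ 2, exv r l / exv r j] : Fin 2 → F) q,
        surf_par_mem k g i j l q⟩ :
          (surf k g).functionField) ∈ E := IntermediateField.subset_adjoin _ _ ⟨q, rfl⟩
      exact (separableClosure E (surf k g).functionField).algebraMap_mem ⟨_, hq⟩⟩
  have h1 := gen_uv g h (k := k) (H := fun z _ => z ∈ (surf k g).functionField) hp
    ⟨0, surf_u_mem k g j i⟩ (hq 0) (hq 1)
  have h2 := functionField_induction (surf k g) hp (o := (i, j)) (g.Y0 _) (fun e => by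
    have e1 : exY r e / exY r (i, j) =
        (r e.1 ^ 2 / r i ^ 2) * (exv r e.2 / exv r j) := by
      simp only [exY]
      have := g.r0 i
      have := g.v0 j
      field_simp
    have e2 := hp.mul (h1.1 e.1) (h1.2 e.2)
    rw [← e1] at e2
    exact e2)
  rw [← separableClosure.eq_top_iff, eq_top_iff]
  intro z _
  obtain ⟨z', hz', h3⟩ := h2 z z.2
  obtain rfl : z' = z := Subtype.ext hz'
  exact h3

/-- The differentials of a separating transcendence basis form a basis. -/
theorem isDiffBasis_of_sep {X : ProjVar k F} {n : ℕ} {e : Fin n → X.functionField}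
    (he : AlgebraicIndependent k e)
    (hs : Algebra.IsSeparable (IntermediateField.adjoin k (Set.range e)) X.functionField) :
    IsDiffBasis k e := by
  obtain ⟨b, hb⟩ := exists_basis_D he hs
  have h1 : (fun i => KaehlerDifferential.D k X.functionField (e i)) = b :=
    funext fun i => (hb i).symm
  unfold IsDiffBasis
  rw [h1]
  exact ⟨b.linearIndependent, b.span_eq⟩

theorem trdeg_eq {X : ProjVar k F} {n : ℕ} {e : Fin n → X.functionField}
    (he : AlgebraicIndependent k e)
    (hs : Algebra.IsSeparable (IntermediateField.adjoin k (Set.range e)) X.functionField) :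
    Algebra.trdeg k X.functionField = n := by
  have h1 : Algebra.IsAlgebraic (IntermediateField.adjoin k (Set.range e)) X.functionField :=
    inferInstance
  have h2 := he.isTranscendenceBasis_iff_isAlgebraic.mpr
    (IntermediateField.isAlgebraic_adjoin_iff_top.mp h1)
  have h3 := h2.lift_cardinalMk_eq_trdeg
  simpa using h3.symm

end

section

variable {k : Type u} [Field k] (F : Type u) [Field F] [Algebra k F] [Algebra (S4 k) F]
  [IsFractionRing (S4 k) F] [IsScalarTower k (S4 k) F] [CharP F 2] {i j l : Fin 3}

theorem algInd4 (h : Dist i j l) :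
    AlgebraicIndependent k (Fin.cons (fr k F i) (Ty.A.par (fr k F) (ft k F) i j l) :
      Fin 4 → F) := by
  have g : Gd (fr k F) (ft k F) := gd
  refine algInd_of_isAlgebraic basis4 ?_
  set e4 : Fin 4 → F := Fin.cons (fr k F i) (Ty.A.par (fr k F) (ft k F) i j l) with he4
  let E := IntermediateField.adjoin k (Set.range e4)
  let B := algebraicClosure E F
  have hB : ∀ z : F, IsSeparable B z → z ∈ B := fun z hz =>
    algClosure_prop z hz.isIntegral.isAlgebraic
  have hp : Closed (fun (_ : F) (_ : k) => True) (fun z => z ∈ B) :=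
    { const := fun c => by
        have : algebraMap k F c = algebraMap E F (algebraMap k E c) := rfl
        rw [this]
        exact B.algebraMap_mem _
      add := add_mem
      mul := mul_mem
      inv := fun _ _ => inv_mem
      root := fun _ hs hw h => root_mem hB hs hw h }
  have hmem : ∀ q, e4 q ∈ B := fun q =>
    B.algebraMap_mem ⟨e4 q, IntermediateField.subset_adjoin _ _ ⟨q, rfl⟩⟩
  obtain ⟨hu, hv⟩ := gen_uv g h hp ⟨0, trivial⟩ (hmem 1) (hmem 2)
  obtain ⟨hU, -⟩ := gen_A g h hp hu hv ⟨0, trivial⟩ (hmem 3)
  have hr : ∀ m, fr k F m ∈ B := fun m => by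
    have h1 : fr k F m ^ 2 ∈ B := by
      have := mul_mem (hu m) (pow_mem (hmem 0) 2)
      have h2 : fr k F m ^ 2 / fr k F i ^ 2 * e4 0 ^ 2 = fr k F m ^ 2 := by
        change fr k F m ^ 2 / fr k F i ^ 2 * fr k F i ^ 2 = _
        have := g.r0 i
        field_simp
      rwa [h2] at this
    exact mem_algebraicClosure_iff.mpr (IsAlgebraic.of_pow two_pos
      (mem_algebraicClosure_iff.mp h1))
  have ht : ft k F ∈ B := by
    have h1 : ft k F ^ 2 ∈ B := by
      have := mul_mem (hU none) (pow_mem (hmem 0) 2)
      have h2 : exU (fr k F) (ft k F) none / exU (fr k F) (ft k F) (some i) * e4 0 ^ 2 =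
          ft k F ^ 2 := by
        change ft k F ^ 2 / fr k F i ^ 2 * fr k F i ^ 2 = _
        have := g.r0 i
        field_simp
      rwa [h2] at this
    exact mem_algebraicClosure_iff.mpr (IsAlgebraic.of_pow two_pos
      (mem_algebraicClosure_iff.mp h1))
  intro q
  rw [← IntermediateField.isAlgebraic_adjoin_iff]
  refine mem_algebraicClosure_iff.mp ?_
  fin_cases q
  · exact hr 0
  · exact hr 1
  · exact hr 2
  · exact ht

end

end Pool.Agent.Helper43
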