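import Pool.Agent.Helper43.ExTrans2

open scoped KaehlerDifferential

noncomputable section

namespace Pool.Agent.Helper43

universe u

open ProjVar

/-- A generating family up to algebraic extensions, as long as a transcendence basis, is
algebraically independent. -/
theorem algInd_of_isAlgebraic {k F : Type u} [Field k] [Field F] [Algebra k F] {n : ℕ}
    {x e : Fin n → F} (hx : IsTranscendenceBasis k x)
    (he : ∀ i, IsAlgebraic (Algebra.adjoin k (Set.range e)) (x i)) :
    AlgebraicIndependent k e := by
  have : Algebra.IsAlgebraic (Algebra.adjoin k (Set.range e)) F := ⟨fun z =>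
    IsAlgebraic.adjoin_of_forall_isAlgebraic (s := Set.range x)
      (by rintro _ ⟨⟨i, rfl⟩, _⟩; exact he i) (hx.isAlgebraic.isAlgebraic z)⟩
  refine (Algebra.IsAlgebraic.isTranscendenceBasis_of_lift_le_trdeg_of_finite k e ?_).1
  rw [hx.lift_cardinalMk_eq_trdeg]

variable {k : Type u} [Field k]

/-- The polynomial ring. -/
abbrev S4 (k : Type u) [Field k] := MvPolynomial (Fin 4) k

variable (k) in
/-- The variables `r_i`. -/
def pr (i : Fin 3) : S4 k := MvPolynomial.X i.castSucc

variable (k) in
/-- The variable `t`. -/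
def pt : S4 k := MvPolynomial.X 3

theorem cube_ne {a b : Fin 4} (h : a ≠ b) :
    (MvPolynomial.X a ^ 3 + MvPolynomial.X b ^ 3 : S4 k) ≠ 0 := by
  intro h0
  have := congrArg (MvPolynomial.eval (Pi.single a (1 : k))) h0
  simp [h.symm] at this

theorem exv_pr_ne (j : Fin 3) : exv (pr k) j ≠ 0 := by
  have h : exv (pr k) j = pr k (j + 1) * pr k (j + 2) *
      (MvPolynomial.X (j + 1).castSucc ^ 3 + MvPolynomial.X (j + 2).castSucc ^ 3) := by
    unfold exv pr; ring
  rw [h]
  refine mul_ne_zero (mul_ne_zero (MvPolynomial.X_ne_zero _) (MvPolynomial.X_ne_zero _))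
    (cube_ne ((by decide : ∀ j : Fin 3, (j + 1).castSucc ≠ (j + 2).castSucc) j))

theorem exw_pr_ne (i : Fin 3) : exw (pr k) (pt k) i ≠ 0 := by
  have h : exw (pr k) (pt k) i = pt k * pr k i *
      (MvPolynomial.X i.castSucc ^ 3 + MvPolynomial.X 3 ^ 3) := by
    unfold exw pr pt; ring
  rw [h]
  refine mul_ne_zero (mul_ne_zero (MvPolynomial.X_ne_zero _) (MvPolynomial.X_ne_zero _))
    (cube_ne ((by decide : ∀ j : Fin 3, j.castSucc ≠ 3) i))

variable (k) (F : Type u) [Field F] [Algebra k F] [Algebra (S4 k) F]

/-- The elements `r_i` of the field. -/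
def fr (i : Fin 3) : F := algebraMap (S4 k) F (pr k i)

/-- The element `t` of the field. -/
def ft : F := algebraMap (S4 k) F (pt k)

variable {k F}

theorem map_exv {R S : Type*} [CommRing R] [CommRing S] (f : R →+* S) (r : Fin 3 → R) (j) :
    f (exv r j) = exv (fun i => f (r i)) j := by
  simp [exv]

theorem map_exw {R S : Type*} [CommRing R] [CommRing S] (f : R →+* S) (r : Fin 3 → R) (t : R)
    (j) : f (exw r t j) = exw (fun i => f (r i)) (f t) j := by
  simp [exw]

theorem map_exU {R S : Type*} [CommRing R] [CommRing S] (f : R →+* S) (r : Fin 3 → R) (t : R)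
    (o) : f (exU r t o) = exU (fun i => f (r i)) (f t) o := by
  cases o <;> simp [exU]

theorem map_exV {R S : Type*} [CommRing R] [CommRing S] (f : R →+* S) (r : Fin 3 → R) (t : R)
    (o) : f (exV r t o) = exV (fun i => f (r i)) (f t) o := by
  cases o with
  | inl j => exact map_exv f r j
  | inr j => exact map_exw f r t j

theorem map_exX {R S : Type*} [CommRing R] [CommRing S] (f : R →+* S) (r : Fin 3 → R) (t : R)
    (e) : f (exX r t e) = exX (fun i => f (r i)) (f t) e := by
  simp only [exX, exY, map_mul, map_pow, map_exv, map_exU, map_exV]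

variable [IsFractionRing (S4 k) F]

theorem gd [CharP F 2] : Gd (fr k F) (ft k F) where
  h2 := CharTwo.two_eq_zero
  r0 i := by
    unfold fr
    have : pr k i ≠ 0 := MvPolynomial.X_ne_zero _
    simpa using this
  t0 := by
    unfold ft
    have : pt k ≠ 0 := MvPolynomial.X_ne_zero _
    simpa using this
  v0 j := by
    have h := exv_pr_ne (k := k) j
    have h1 := map_exv (algebraMap (S4 k) F) (pr k) j
    change _ = exv (fr k F) j at h1
    rw [← h1]
    simpa using h
  w0 j := by
    have h := exw_pr_ne (k := k) j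
    have h1 := map_exw (algebraMap (S4 k) F) (pr k) (pt k) j
    change _ = exw (fr k F) (ft k F) j at h1
    rw [← h1]
    simpa using h

variable [IsScalarTower k (S4 k) F]

theorem basis4 : IsTranscendenceBasis k
    (fun i : Fin 4 => algebraMap (S4 k) F (MvPolynomial.X i)) := by
  have : Algebra.IsAlgebraic (S4 k) F := IsLocalization.isAlgebraic F (nonZeroDivisors (S4 k))
  exact (IsTranscendenceBasis.mvPolynomial (Fin 4) k).algebraMap_comp

end Pool.Agent.Helper43
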