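import Pool.Agent.Helper43.ExLocal

open scoped KaehlerDifferential

noncomputable section

namespace Pool.Agent.Helper43

universe u

section Der

variable {k K M : Type u} [Field k] [Field K] [Algebra k K] [AddCommGroup M] [Module k M]
  [Module K M] [CharP K 2] (D : Derivation k K M)

theorem der_sq (z : K) : D (z ^ 2) = 0 := by
  rw [Derivation.leibniz_pow]
  have h : (2 : K) = 0 := CharTwo.two_eq_zero
  rw [← Nat.cast_smul_eq_nsmul K]
  push_cast
  rw [h, zero_smul]

theorem der_four (z : K) : D (z ^ 4) = 0 := by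
  have : z ^ 4 = (z ^ 2) ^ 2 := by ring
  rw [this, der_sq]

theorem der_root {a b c : K} (h : a + a ^ 4 = c ^ 2 * (b + b ^ 4)) : D a = c ^ 2 • D b := by
  have h1 := congrArg D h
  rw [map_add, der_four, Derivation.leibniz, der_sq, map_add, der_four] at h1
  simpa using h1

theorem smul_neg_eq (K : Type u) {M : Type u} [Field K] [AddCommGroup M] [Module K M]
    [CharP K 2] (m : M) : -m = m := by
  have h : (2 : K) = 0 := CharTwo.two_eq_zero
  have h1 : (2 : K) • m = 0 := by rw [h, zero_smul]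
  rw [two_smul] at h1
  exact (eq_neg_of_add_eq_zero_left h1).symm

theorem der_inv (c : K) : D c⁻¹ = (c⁻¹ ^ 2) • D c := by
  rw [Derivation.leibniz_inv, neg_smul, smul_neg_eq K]

theorem der_M2b {a b c e : K} (ha : a ≠ 0) (h : D a = c ^ 2 • D b) (he : a + b * c ^ 2 = e ^ 2) :
    D (b / a) = (e ^ 2 / a ^ 2) • D b := by
  rw [div_eq_mul_inv, Derivation.leibniz, der_inv, h, smul_smul, smul_smul, ← add_smul, ← he]
  congr 1
  field_simp
  ring

theorem der_M2c {a b c e : K} (he0 : e ≠ 0) (he : e = a ^ 2 + b ^ 2 * c) :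
    D (c / e) = (a ^ 2 / e ^ 2) • D c := by
  have h2 : (2 : K) = 0 := CharTwo.two_eq_zero
  have h1 : D e = b ^ 2 • D c := by
    rw [he, map_add, der_sq, Derivation.leibniz, der_sq, smul_zero, zero_add, add_zero]
  rw [div_eq_mul_inv, Derivation.leibniz, der_inv, h1, smul_smul, smul_smul, ← add_smul]
  congr 1
  field_simp
  rw [he]
  linear_combination (b ^ 2 * c) * h2

theorem der_M2h {a b c e α η : K} (he : e = a ^ 2 + b ^ 2 * c) :
    D ((a ^ 2 * η + c * α ^ 2) / e) = (a ^ 2 / e) • D η +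
      (α ^ 2 / e + (a ^ 2 * η + c * α ^ 2) * (e⁻¹ ^ 2 * b ^ 2)) • D c := by
  have h1 : D e = b ^ 2 • D c := by
    rw [he, map_add, der_sq, Derivation.leibniz, der_sq, smul_zero, zero_add, add_zero]
  have h3 : D (a ^ 2 * η + c * α ^ 2) = a ^ 2 • D η + α ^ 2 • D c := by
    rw [map_add, Derivation.leibniz, Derivation.leibniz, der_sq, der_sq, smul_zero, smul_zero,
      add_zero, zero_add]
  rw [div_eq_mul_inv, Derivation.leibniz, der_inv, h1, h3, smul_smul, smul_smul, smul_add,
    smul_smul, smul_smul, add_comm, add_assoc, ← add_smul]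
  congr 2
  · field_simp
  · field_simp

end Der

open ProjVar

section Forms

variable {k F : Type u} [Field k] [Field F] [Algebra k F] [CharP F 2] {r : Fin 3 → F} {t : F}
  (g : Gd r t) {i j l : Fin 3}

omit [CharP F 2] in
theorem par3_eq (T : Ty) (i j l : Fin 3) {x₀ x₁ x₂ : (three k g).functionField}
    (h₀ : (x₀ : F) = T.par r t i j l 0) (h₁ : (x₁ : F) = T.par r t i j l 1)
    (h₂ : (x₂ : F) = T.par r t i j l 2) :
    par3 k g T i j l = ![x₀, x₁, x₂] := by
  funext q
  apply Subtype.ext
  fin_cases q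
  · exact h₀.symm
  · exact h₁.symm
  · exact h₂.symm

omit [CharP F 2] in
theorem par2_eq (i j l : Fin 3) {x₀ x₁ : (surf k g).functionField}
    (h₀ : (x₀ : F) = r l ^ 2 / r i ^ 2) (h₁ : (x₁ : F) = exv r l / exv r j) :
    par2 k g i j l = ![x₀, x₁] := by
  funext q
  apply Subtype.ext
  fin_cases q
  · exact h₀.symm
  · exact h₁.symm

omit [CharP F 2] in
theorem exists_mk {X : ProjVar k F} {z : F} (h : z ∈ X.functionField) :
    ∃ x : X.functionField, (x : F) = z := ⟨⟨z, h⟩, rfl⟩

theorem form2_M1 (h : Dist i j l) : IsJacobian k (par2 k g i l j) (par2 k g i j l) 1 := by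
  obtain ⟨a, ha⟩ := exists_mk (surf_u_mem k g j i)
  obtain ⟨b, hb⟩ := exists_mk (surf_u_mem k g l i)
  obtain ⟨c, hc⟩ := exists_mk (surf_v_mem k g l j)
  have hc0 : c ≠ 0 := by
    rintro rfl
    have := div_ne_zero (g.v0 l) (g.v0 j)
    exact this hc.symm
  have hrel : a + a ^ 4 = c ^ 2 * (b + b ^ 4) := by
    apply Subtype.ext
    push_cast
    rw [ha, hb, hc]
    exact rel_Y2 g h
  have e1 : c ^ 2 * c⁻¹ ^ 2 = 1 := by field_simp
  rw [par2_eq g i j l hb hc, par2_eq g i l j ha (x₁ := c⁻¹) (by push_cast; rw [hc, inv_div]), ← e1]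
  exact isJacobian2 (der_root _ hrel) (der_inv _ c)

theorem form2_M2 (h : Dist i j l) : IsJacobian k (par2 k g j i l) (par2 k g i j l) 1 := by
  obtain ⟨a, ha⟩ := exists_mk (surf_u_mem k g j i)
  obtain ⟨b, hb⟩ := exists_mk (surf_u_mem k g l i)
  obtain ⟨c, hc⟩ := exists_mk (surf_v_mem k g l j)
  obtain ⟨e, he⟩ := exists_mk (surf_v_mem k g i j)
  have h2 : (2 : (surf k g).functionField) = 0 := CharTwo.two_eq_zero
  have ha0 : a ≠ 0 := by
    rintro rfl
    have := div_ne_zero (pow_ne_zero 2 (g.r0 j)) (pow_ne_zero 2 (g.r0 i))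
    exact this ha.symm
  have he0 : e ≠ 0 := by
    rintro rfl
    have := div_ne_zero (g.v0 i) (g.v0 j)
    exact this he.symm
  have hrel : a + a ^ 4 = c ^ 2 * (b + b ^ 4) := by
    apply Subtype.ext
    push_cast
    rw [ha, hb, hc]
    exact rel_Y2 g h
  have hrel1 : e = a ^ 2 + b ^ 2 * c := by
    apply Subtype.ext
    push_cast
    rw [ha, hb, hc, he]
    exact rel_Y1 g h
  have hrel2 : a + b * c ^ 2 = e ^ 2 := by
    rw [hrel1]
    linear_combination hrel + (b * c ^ 2 - a ^ 4 - a ^ 2 * b ^ 2 * c) * h2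
  have e1 : e ^ 2 / a ^ 2 * (a ^ 2 / e ^ 2) = 1 := by field_simp
  rw [par2_eq g i j l hb hc, par2_eq g j i l (x₀ := b / a) (x₁ := c / e)
    (by
      push_cast
      rw [ha, hb]
      have := g.r0 i
      have := g.r0 j
      field_simp)
    (by
      push_cast
      rw [hc, he]
      have := g.v0 i
      have := g.v0 j
      field_simp), ← e1]
  exact isJacobian2 (der_M2b _ ha0 (der_root _ hrel) hrel2) (der_M2c _ he0 hrel1)

theorem form3_M1 (h : Dist i j l) {κ : (three k g).functionField}
    (hκ : (κ : F) = exv r j / exv r l) :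
    IsJacobian k (par3 k g .A i l j) (par3 k g .A i j l) κ := by
  obtain ⟨a, ha⟩ := exists_mk (three_U_mem k g (some j) (some i))
  obtain ⟨b, hb⟩ := exists_mk (three_U_mem k g (some l) (some i))
  obtain ⟨c, hc⟩ := exists_mk (three_V_mem k g (Sum.inl l) (Sum.inl j))
  obtain ⟨η, hη⟩ := exists_mk (three_V_mem k g (Sum.inr i) (Sum.inl j))
  change (a : F) = r j ^ 2 / r i ^ 2 at ha
  change (b : F) = r l ^ 2 / r i ^ 2 at hb
  change (c : F) = exv r l / exv r j at hc
  change (η : F) = exw r t i / exv r j at hη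
  have hc0 : c ≠ 0 := by
    rintro rfl
    have := div_ne_zero (g.v0 l) (g.v0 j)
    exact this hc.symm
  have hrel : a + a ^ 4 = c ^ 2 * (b + b ^ 4) := by
    apply Subtype.ext
    push_cast
    rw [ha, hb, hc]
    exact rel_Y2 g h
  have hκ' : κ = c⁻¹ := by
    apply Subtype.ext
    push_cast
    rw [hκ, hc, inv_div]
  have hD : KaehlerDifferential.D k (three k g).functionField (c⁻¹ * η) =
      c⁻¹ • KaehlerDifferential.D k (three k g).functionField η +
        (η * c⁻¹ ^ 2) • KaehlerDifferential.D k (three k g).functionField c := by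
    rw [Derivation.leibniz, der_inv, smul_smul]
  have e1 : κ = c ^ 2 * c⁻¹ ^ 2 * c⁻¹ := by
    rw [hκ']
    field_simp
  rw [par3_eq g .A i j l (x₀ := b) (x₁ := c) (x₂ := η) hb hc hη,
    par3_eq g .A i l j (x₀ := a) (x₁ := c⁻¹) (x₂ := c⁻¹ * η) ha
      (by
        push_cast
        rw [hc, inv_div]
        rfl)
      (by
        push_cast
        rw [hc, inv_div, hη]
        change _ = exw r t i / exv r l
        have := g.v0 l
        have := g.v0 j
        field_simp), e1]
  exact isJacobian3 (der_root _ hrel) (der_inv _ c) hD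

theorem form3_M2 (h : Dist i j l) {κ : (three k g).functionField}
    (hκ : (κ : F) = r j ^ 4 * exv r j / (r i ^ 4 * exv r i)) :
    IsJacobian k (par3 k g .A j i l) (par3 k g .A i j l) κ := by
  obtain ⟨a, ha⟩ := exists_mk (three_U_mem k g (some j) (some i))
  obtain ⟨b, hb⟩ := exists_mk (three_U_mem k g (some l) (some i))
  obtain ⟨α, hα⟩ := exists_mk (three_U_mem k g none (some i))
  obtain ⟨c, hc⟩ := exists_mk (three_V_mem k g (Sum.inl l) (Sum.inl j))
  obtain ⟨e, he⟩ := exists_mk (three_V_mem k g (Sum.inl i) (Sum.inl j))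
  obtain ⟨η, hη⟩ := exists_mk (three_V_mem k g (Sum.inr i) (Sum.inl j))
  change (a : F) = r j ^ 2 / r i ^ 2 at ha
  change (b : F) = r l ^ 2 / r i ^ 2 at hb
  change (α : F) = t ^ 2 / r i ^ 2 at hα
  change (c : F) = exv r l / exv r j at hc
  change (e : F) = exv r i / exv r j at he
  change (η : F) = exw r t i / exv r j at hη
  have h2 : (2 : (three k g).functionField) = 0 := CharTwo.two_eq_zero
  have ha0 : a ≠ 0 := by
    rintro rfl
    have := div_ne_zero (pow_ne_zero 2 (g.r0 j)) (pow_ne_zero 2 (g.r0 i))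
    exact this ha.symm
  have he0 : e ≠ 0 := by
    rintro rfl
    have := div_ne_zero (g.v0 i) (g.v0 j)
    exact this he.symm
  have hrel : a + a ^ 4 = c ^ 2 * (b + b ^ 4) := by
    apply Subtype.ext
    push_cast
    rw [ha, hb, hc]
    exact rel_Y2 g h
  have hrel1 : e = a ^ 2 + b ^ 2 * c := by
    apply Subtype.ext
    push_cast
    rw [ha, hb, hc, he]
    exact rel_Y1 g h
  have hrel2 : a + b * c ^ 2 = e ^ 2 := by
    rw [hrel1]
    linear_combination hrel + (b * c ^ 2 - a ^ 4 - a ^ 2 * b ^ 2 * c) * h2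
  have hκ' : κ = a ^ 2 / e := by
    apply Subtype.ext
    push_cast
    rw [hκ, ha, he]
    have := g.r0 i
    have := g.v0 i
    have := g.v0 j
    field_simp
  have hw : (a : F) ^ 2 * η + c * α ^ 2 = exw r t j / exv r j := by
    rw [rel_A2 g h, rel_A1 g h, ← he, ← hη, ← hc, ← hα, ← hb]
    have h3 : (e : F) = a ^ 2 + b ^ 2 * c := by exact_mod_cast congrArg Subtype.val hrel1
    rw [h3]
    linear_combination (-(b : F) ^ 2 * c * η) * g.h2
  have e1 : κ = e ^ 2 / a ^ 2 * (a ^ 2 / e ^ 2) * (a ^ 2 / e) := by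
    rw [hκ']
    field_simp
  rw [par3_eq g .A i j l (x₀ := b) (x₁ := c) (x₂ := η) hb hc hη,
    par3_eq g .A j i l (x₀ := b / a) (x₁ := c / e) (x₂ := (a ^ 2 * η + c * α ^ 2) / e)
      (by
        push_cast
        rw [ha, hb]
        change _ = r l ^ 2 / r j ^ 2
        have := g.r0 i
        have := g.r0 j
        field_simp)
      (by
        push_cast
        rw [hc, he]
        change _ = exv r l / exv r i
        have := g.v0 i
        have := g.v0 j
        field_simp)
      (by
        push_cast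
        rw [hw, he]
        change _ = exw r t j / exv r i
        have := g.v0 i
        have := g.v0 j
        field_simp), e1]
  exact isJacobian3 (der_M2b _ ha0 (der_root _ hrel) hrel2) (der_M2c _ he0 hrel1)
    (der_M2h _ hrel1)

theorem form3_B (h : Dist i j l) : IsJacobian k (par3 k g .B i j l) (par3 k g .A i j l) 1 := by
  obtain ⟨b, hb⟩ := exists_mk (three_U_mem k g (some l) (some i))
  obtain ⟨α, hα⟩ := exists_mk (three_U_mem k g none (some i))
  obtain ⟨c, hc⟩ := exists_mk (three_V_mem k g (Sum.inl l) (Sum.inl j))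
  obtain ⟨η, hη⟩ := exists_mk (three_V_mem k g (Sum.inr i) (Sum.inl j))
  change (b : F) = r l ^ 2 / r i ^ 2 at hb
  change (α : F) = t ^ 2 / r i ^ 2 at hα
  change (c : F) = exv r l / exv r j at hc
  change (η : F) = exw r t i / exv r j at hη
  have hη0 : η ≠ 0 := by
    rintro rfl
    have := div_ne_zero (g.w0 i) (g.v0 j)
    exact this hη.symm
  have hrel : α + α ^ 4 = η ^ 2 * (b + b ^ 4) := by
    apply Subtype.ext
    push_cast
    rw [hα, hb, hη]
    exact rel_A3 g h
  have hD : KaehlerDifferential.D k (three k g).functionField η⁻¹ =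
      (η⁻¹ ^ 2) • KaehlerDifferential.D k (three k g).functionField η +
        (0 : (three k g).functionField) •
          KaehlerDifferential.D k (three k g).functionField c := by
    rw [der_inv, zero_smul, add_zero]
  have e1 : η ^ 2 * 1 * η⁻¹ ^ 2 = 1 := by field_simp
  rw [par3_eq g .A i j l (x₀ := b) (x₁ := c) (x₂ := η) hb hc hη,
    par3_eq g .B i j l (x₀ := α) (x₁ := c) (x₂ := η⁻¹) hα hc
      (by
        push_cast
        rw [hη, inv_div]
        rfl), ← e1]
  exact isJacobian3 (der_root _ hrel) (one_smul _ _).symm hD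

theorem form3_C (h : Dist i j l) : IsJacobian k (par3 k g .C i j l) (par3 k g .A i j l) 1 := by
  obtain ⟨b, hb⟩ := exists_mk (three_U_mem k g (some l) (some i))
  obtain ⟨α, hα⟩ := exists_mk (three_U_mem k g none (some i))
  obtain ⟨c, hc⟩ := exists_mk (three_V_mem k g (Sum.inl l) (Sum.inl j))
  obtain ⟨η, hη⟩ := exists_mk (three_V_mem k g (Sum.inr i) (Sum.inl j))
  change (b : F) = r l ^ 2 / r i ^ 2 at hb
  change (α : F) = t ^ 2 / r i ^ 2 at hα
  change (c : F) = exv r l / exv r j at hc
  change (η : F) = exw r t i / exv r j at hη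
  have hη0 : η ≠ 0 := by
    rintro rfl
    have := div_ne_zero (g.w0 i) (g.v0 j)
    exact this hη.symm
  have hα0 : α ≠ 0 := by
    rintro rfl
    have := div_ne_zero (pow_ne_zero 2 g.t0) (pow_ne_zero 2 (g.r0 i))
    exact this hα.symm
  have hrel : α + α ^ 4 = η ^ 2 * (b + b ^ 4) := by
    apply Subtype.ext
    push_cast
    rw [hα, hb, hη]
    exact rel_A3 g h
  have hD1 : KaehlerDifferential.D k (three k g).functionField α⁻¹ =
      (α⁻¹ ^ 2 * η ^ 2) • KaehlerDifferential.D k (three k g).functionField b := by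
    rw [der_inv, der_root _ hrel, smul_smul]
  have hD : KaehlerDifferential.D k (three k g).functionField (α ^ 2 * η⁻¹ + b ^ 2) =
      (α ^ 2 * η⁻¹ ^ 2) • KaehlerDifferential.D k (three k g).functionField η +
        (0 : (three k g).functionField) •
          KaehlerDifferential.D k (three k g).functionField c := by
    rw [map_add, der_sq, Derivation.leibniz, der_sq, smul_zero, add_zero, add_zero, der_inv,
      smul_smul, zero_smul, add_zero]
  have e1 : α⁻¹ ^ 2 * η ^ 2 * 1 * (α ^ 2 * η⁻¹ ^ 2) = 1 := by field_simp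
  rw [par3_eq g .A i j l (x₀ := b) (x₁ := c) (x₂ := η) hb hc hη,
    par3_eq g .C i j l (x₀ := α⁻¹) (x₁ := c) (x₂ := α ^ 2 * η⁻¹ + b ^ 2)
      (by
        push_cast
        rw [hα, inv_div]
        rfl) hc
      (by
        push_cast
        rw [hη, inv_div, hα, hb]
        exact (rel_B1 g h).symm), ← e1]
  exact isJacobian3 hD1 (one_smul _ _).symm hD

theorem form3_type (h : Dist i j l) (T : Ty) :
    IsJacobian k (par3 k g T i j l) (par3 k g .A i j l) 1 := by
  cases T with
  | A => exact IsJacobian.refl _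
  | B => exact form3_B g h
  | C => exact form3_C g h

end Forms

end Pool.Agent.Helper43
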