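import Pool.Agent.Helper43.ExTrans

open scoped KaehlerDifferential

noncomputable section

namespace Pool.Agent.Helper43

universe u

open ProjVar

variable {k F : Type u} [Field k] [Field F] [Algebra k F] [CharP F 2] {r : Fin 3 → F} {t : F}
  (g : Gd r t)

theorem dist_induction {p : Fin 3 → Fin 3 → Fin 3 → Prop} (h0 : p 0 1 2)
    (h1 : ∀ i j l, Dist i j l → p i j l → p i l j) (h2 : ∀ i j l, Dist i j l → p i j l → p j i l)
    (i j l : Fin 3) (h : Dist i j l) : p i j l := by
  have d : Dist 0 1 2 := ⟨by decide, by decide, by decide⟩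
  have q021 := h1 _ _ _ d h0
  have q102 := h2 _ _ _ d h0
  have q201 := h2 _ _ _ d.ilj q021
  have q120 := h1 _ _ _ d.jil q102
  have q210 := h1 _ _ _ d.ilj.jil q201
  obtain ⟨ha, hb, hc⟩ := h
  fin_cases i <;> fin_cases j <;> fin_cases l <;>
    (first
      | exact absurd rfl ha
      | exact absurd rfl hb
      | exact absurd rfl hc
      | assumption)

theorem form2_all {i j l : Fin 3} (h : Dist i j l) :
    IsJacobian k (par2 k g i j l) (par2 k g 0 1 2) 1 := by
  refine dist_induction (p := fun i j l =>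
    IsJacobian k (par2 k g i j l) (par2 k g 0 1 2) 1) (IsJacobian.refl _) ?_ ?_ i j l h
  · intro i j l h hp
    simpa using (form2_M1 g h).trans hp
  · intro i j l h hp
    simpa using (form2_M2 g h).trans hp

omit [CharP F 2] in
theorem kappa_mem (i j i' j' : Fin 3) :
    r i ^ 4 * exv r j' / (r i' ^ 4 * exv r j) ∈ (three k g).functionField := by
  have h1 := mul_mem (pow_mem (three_U_mem k g (some i) (some i')) 2)
    (three_V_mem k g (Sum.inl j') (Sum.inl j))
  have e : (exU r t (some i) / exU r t (some i')) ^ 2 *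
      (exV r t (Sum.inl j') / exV r t (Sum.inl j)) =
      r i ^ 4 * exv r j' / (r i' ^ 4 * exv r j) := by
    change (r i ^ 2 / r i' ^ 2) ^ 2 * (exv r j' / exv r j) = _
    have := g.r0 i'
    have := g.v0 j
    field_simp
  rwa [e] at h1

/-- The ratio between the generators of the canonical sheaf on two charts. -/
def kappa (i j i' j' : Fin 3) : (three k g).functionField :=
  ⟨r i ^ 4 * exv r j' / (r i' ^ 4 * exv r j), kappa_mem g i j i' j'⟩

omit [CharP F 2] in
theorem kappa_mul (i j i' j' i'' j'' : Fin 3) :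
    kappa (k := k) g i j i' j' * kappa g i' j' i'' j'' = kappa g i j i'' j'' := by
  apply Subtype.ext
  change r i ^ 4 * exv r j' / (r i' ^ 4 * exv r j) * (r i' ^ 4 * exv r j'' / (r i'' ^ 4 * exv r j'))
    = r i ^ 4 * exv r j'' / (r i'' ^ 4 * exv r j)
  have := g.r0 i'
  have := g.r0 i''
  have := g.v0 j
  have := g.v0 j'
  field_simp

omit [CharP F 2] in
theorem kappa_ne (i j i' j' : Fin 3) : kappa (k := k) g i j i' j' ≠ 0 := by
  intro h
  have h1 : r i ^ 4 * exv r j' / (r i' ^ 4 * exv r j) = 0 := congrArg Subtype.val h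
  exact div_ne_zero (mul_ne_zero (pow_ne_zero _ (g.r0 _)) (g.v0 _))
    (mul_ne_zero (pow_ne_zero _ (g.r0 _)) (g.v0 _)) h1

omit [CharP F 2] in
theorem kappa_self (i j : Fin 3) : kappa (k := k) g i j i j = 1 := by
  apply Subtype.ext
  change r i ^ 4 * exv r j / (r i ^ 4 * exv r j) = 1
  exact div_self (mul_ne_zero (pow_ne_zero _ (g.r0 _)) (g.v0 _))

theorem form3_all {i j l : Fin 3} (h : Dist i j l) :
    IsJacobian k (par3 k g .A i j l) (par3 k g .A 0 1 2) (kappa (k := k) g i j 0 1) := by
  refine dist_induction (p := fun i j l =>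
    IsJacobian k (par3 k g .A i j l) (par3 k g .A 0 1 2) (kappa (k := k) g i j 0 1)) ?_ ?_ ?_
    i j l h
  · rw [kappa_self]
    exact IsJacobian.refl _
  · intro i j l h hp
    have h1 := (form3_M1 (κ := kappa (k := k) g i l i j) g h (by
      change r i ^ 4 * exv r j / (r i ^ 4 * exv r l) = _
      have := g.r0 i
      field_simp)).trans hp
    rwa [kappa_mul] at h1
  · intro i j l h hp
    have h1 := (form3_M2 (κ := kappa (k := k) g j i i j) g h rfl).trans hp
    rwa [kappa_mul] at h1

end Pool.Agent.Helper43
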