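import Pool.Agent.Helper43.ExCov
import Pool.Agent.Helper43.DiffBasis

open scoped KaehlerDifferential

noncomputable section

namespace Pool.Agent.Helper43

universe u

open Polynomial in
/-- An intermediate field which is separably closed in the big field contains the solutions of
`z + s z ^ 4 = w`. -/
theorem root_mem {E K : Type u} [Field E] [Field K] [Algebra E K] [CharP K 2]
    {B : IntermediateField E K} (hB : ∀ z : K, IsSeparable B z → z ∈ B) {z s w : K}
    (hs : s ∈ B) (hw : w ∈ B) (h : z + s * z ^ 4 = w) : z ∈ B := by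
  apply hB
  let P : B[X] := C (⟨s, hs⟩ : B) * X ^ 4 + X - C (⟨w, hw⟩ : B)
  have : CharP B 2 := (algebraMap B K).charP (algebraMap B K).injective 2
  have h4 : (4 : B[X]) = 0 := by
    linear_combination 2 * (CharTwo.two_eq_zero : (2 : B[X]) = 0)
  have h4' : (4 : B) = 0 := by
    linear_combination 2 * (CharTwo.two_eq_zero : (2 : B) = 0)
  have hd : derivative P = 1 := by
    simp only [P, derivative_sub, derivative_add, derivative_mul, derivative_C, derivative_X_pow,
      derivative_X]
    simp
    right
    exact h4'
  have hsep : P.Separable := by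
    rw [Polynomial.separable_def, hd]
    exact isCoprime_one_right
  have hz : aeval z P = 0 := by
    simp only [P, map_sub, map_add, map_mul, map_pow, aeval_C, aeval_X]
    change s * z ^ 4 + z - w = 0
    rw [← h]; ring
  exact hsep.of_dvd (minpoly.dvd B z hz)

theorem sepClosure_prop {E K : Type u} [Field E] [Field K] [Algebra E K] (z : K)
    (h : IsSeparable (separableClosure E K) z) : z ∈ separableClosure E K := by
  have h1 : z ∈ separableClosure (separableClosure E K) K := mem_separableClosure_iff.mpr h
  rw [separableClosure.separableClosure_eq_bot] at h1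
  obtain ⟨y, rfl⟩ := IntermediateField.mem_bot.mp h1
  exact y.2

theorem algClosure_prop {E K : Type u} [Field E] [Field K] [Algebra E K] (z : K)
    (h : IsAlgebraic (algebraicClosure E K) z) : z ∈ algebraicClosure E K := by
  have h1 : z ∈ algebraicClosure (algebraicClosure E K) K := mem_algebraicClosure_iff.mpr h
  rw [algebraicClosure.algebraicClosure_eq_bot] at h1
  obtain ⟨y, rfl⟩ := IntermediateField.mem_bot.mp h1
  exact y.2

/-- Induction for the function field. -/
theorem functionField_induction {k F : Type u} [Field k] [Field F] [Algebra k F]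
    (X : ProjVar k F) {p : F → Prop}
    (hp : Closed (fun z (_ : k) => z ∈ X.functionField) p) {o : X.ι} (ho : X.x o ≠ 0)
    (h : ∀ i, p (X.x i / X.x o)) : ∀ z ∈ X.functionField, p z := by
  have h0 : ∀ i, p (X.x i / X.x X.o) := by
    intro i
    have h1 := hp.inv (c := 1) (X.ratio_mem X.o o) one_ne_zero (h X.o)
    have h2 := hp.mul (h i) h1
    have h3 := X.x_ne
    have : X.x i / X.x o * (X.x X.o / X.x o)⁻¹ = X.x i / X.x X.o := by field_simp
    rwa [this] at h2
  intro z hz
  refine IntermediateField.adjoin_induction (p := fun z _ => p z) k ?_ ?_ ?_ ?_ ?_ hz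
  · rintro _ ⟨i, rfl⟩
    exact h0 i
  · exact hp.const
  · intro x y _ _ hx hy
    exact hp.add hx hy
  · intro x hx hx'
    exact hp.inv (c := 1) hx one_ne_zero hx'
  · intro x y _ _ hx hy
    exact hp.mul hx hy

/-- Membership in an intermediate field of the function field, as a property in `F`. -/
theorem closed_mem {k F : Type u} [Field k] [Field F] [Algebra k F] [CharP F 2]
    (X : ProjVar k F) {E : IntermediateField k X.functionField}
    {B : IntermediateField E X.functionField}
    (hB : ∀ z : X.functionField, IsSeparable B z → z ∈ B) :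
    Closed (fun z (_ : k) => z ∈ X.functionField)
      (fun z => ∃ z' : X.functionField, (z' : F) = z ∧ z' ∈ B) where
  const c := ⟨algebraMap k _ c, rfl, by
    have : algebraMap k X.functionField c = algebraMap E X.functionField (algebraMap k E c) := rfl
    rw [this]
    exact B.algebraMap_mem _⟩
  add := by
    rintro _ _ ⟨z, rfl, hz⟩ ⟨w, rfl, hw⟩
    exact ⟨z + w, rfl, add_mem hz hw⟩
  mul := by
    rintro _ _ ⟨z, rfl, hz⟩ ⟨w, rfl, hw⟩
    exact ⟨z * w, rfl, mul_mem hz hw⟩
  inv := by
    rintro _ _ _ _ ⟨z, rfl, hz⟩
    exact ⟨z⁻¹, rfl, inv_mem hz⟩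
  root := by
    rintro z _ _ ⟨c, hc⟩ ⟨s, rfl, hs⟩ ⟨w, rfl, hw⟩ h
    exact ⟨⟨z, hc⟩, rfl, root_mem hB hs hw (Subtype.ext (by push_cast; exact h))⟩

end Pool.Agent.Helper43
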