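import Pool.Agent.Helper43.FlRel

open scoped KaehlerDifferential

noncomputable section

namespace Pool.Agent.Helper43.Fl

open Pool.Agent.Helper43 Pool.Agent.Helper43.ProjVar

variable {K : Type} [Field K] [Algebra ℂ K]

namespace Ample

/-- The names of the systems as a sum type. -/
def ixEquiv : ((Fin 4) ⊕ (Fin 5 × Fin 5)) ⊕ ((Fin 5 × Fin 5) ⊕ Fin 5) ≃ Ix where
  toFun
    | .inl (.inl 0) => .U
    | .inl (.inl 1) => .V
    | .inl (.inl 2) => .W
    | .inl (.inl 3) => .S
    | .inl (.inr (i, j)) => .M i j
    | .inr (.inl (i, j)) => .N i j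
    | .inr (.inr i) => .F i
  invFun
    | .U => .inl (.inl 0)
    | .V => .inl (.inl 1)
    | .W => .inl (.inl 2)
    | .S => .inl (.inl 3)
    | .M i j => .inl (.inr (i, j))
    | .N i j => .inr (.inl (i, j))
    | .F i => .inr (.inr i)
  left_inv := by
    rintro ((x | ⟨i, j⟩) | (⟨i, j⟩ | i))
    · fin_cases x <;> rfl
    · rfl
    · rfl
    · rfl
  right_inv := by
    intro a
    cases a <;> rfl

theorem sum_Ix {M : Type} [AddCommMonoid M] (f : Ix → M) :
    ∑ a, f a = (f .U + f .V + f .W + f .S + ∑ i, ∑ j, f (.M i j)) +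
      (∑ i, ∑ j, f (.N i j) + ∑ i, f (.F i)) := by
  rw [← Equiv.sum_comp ixEquiv f, Fintype.sum_sum_type, Fintype.sum_sum_type,
    Fintype.sum_sum_type, Fintype.sum_prod_type, Fintype.sum_prod_type, Fin.sum_univ_four]
  rfl

end Ample

namespace Cfg

variable (C : Cfg K) (u : DivVal ℂ K 2)

theorem ample_of_pos {s : Ix → Bool} (r : Ix → ℝ) (hr : ∀ a, s a = true → 0 < r a)
    {D : BDiv ℂ K 2}
    (h : (D - fun u => -∑ a, if s a = true then r a * C.e a u else 0) ∈ principal ℂ K 2) :
    (C.on s).Ample D := by
  obtain ⟨c, hc, hc'⟩ : ∃ c : ℝ, 0 < c ∧ ∀ a, s a = true → c ≤ r a := by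
    by_cases h1 : ∃ a, s a = true
    · obtain ⟨a₀, ha₀⟩ := h1
      obtain ⟨b, hb1, hb2⟩ := Finset.exists_min_image (Finset.univ.filter fun a => s a = true) r
        ⟨a₀, by simpa using ha₀⟩
      refine ⟨r b, hr b (by simpa using hb1), fun a ha => hb2 a (by simpa using ha)⟩
    · exact ⟨1, one_pos, fun a ha => absurd ⟨a, ha⟩ h1⟩
  let q := Fintype.equivFin Ix
  refine ⟨c, Fintype.card Ix, fun j => if s (q.symm j) = true then r (q.symm j) - c else 0,
    fun j => C.on (fun b => s b && decide (b = q.symm j)), hc, ?_, ?_⟩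
  · intro j
    constructor
    · change 0 ≤ if s (q.symm j) = true then r (q.symm j) - c else 0
      split_ifs with h1
      · linarith [hc' _ h1]
      · exact le_rfl
    · exact C.on_dominates_on fun a ha => by
        simp only [Bool.and_eq_true] at ha
        exact ha.1
  · have h1 := C.on_hyp_mod (K := K) s
    have h2 : ∀ a, ((C.on (fun b => s b && decide (b = a))).hyp 2 -
        (fun u => - if s a = true then (C.e a u : ℝ) else 0)) ∈ principal ℂ K 2 := by
      intro a
      have h3 := C.on_hyp_mod (K := K) (fun b => s b && decide (b = a))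
      convert h3 using 2
      funext u
      congr 1
      rw [Finset.sum_eq_single a]
      · simp
      · intro b _ hb
        simp [hb]
      · simp
    have h3 : ∑ a, (if s a = true then r a - c else 0) •
        ((C.on (fun b => s b && decide (b = a))).hyp 2 -
          (fun u => - if s a = true then (C.e a u : ℝ) else 0)) ∈ principal ℂ K 2 :=
      Submodule.sum_mem _ fun a _ => Submodule.smul_mem _ _ (h2 a)
    have h4 := Submodule.sub_mem _ (Submodule.sub_mem _ h (Submodule.smul_mem _ c h1)) h3
    convert h4 using 1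
    funext u
    have h5 : ∑ j : Fin (Fintype.card Ix), (if s (q.symm j) = true then r (q.symm j) - c else 0) *
        (C.on (fun b => s b && decide (b = q.symm j))).hyp 2 u =
        ∑ a, (if s a = true then r a - c else 0) *
        (C.on (fun b => s b && decide (b = a))).hyp 2 u :=
      Equiv.sum_comp q.symm (fun a => (if s a = true then r a - c else 0) *
        (C.on (fun b => s b && decide (b = a))).hyp 2 u)
    have h6 : ∑ a, (if s a = true then r a * (C.e a u : ℝ) else 0) =
        c * ∑ a, (if s a = true then (C.e a u : ℝ) else 0) +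
        ∑ a, (if s a = true then r a - c else 0) * (if s a = true then (C.e a u : ℝ) else 0) := by
      rw [Finset.mul_sum, ← Finset.sum_add_distrib]
      refine Finset.sum_congr rfl fun a _ => ?_
      split_ifs
      · ring
      · simp
    simp only [Pi.sub_apply, Pi.add_apply, Pi.smul_apply, Finset.sum_apply, smul_eq_mul] at h5 h6 ⊢
    rw [h5, h6]
    simp only [mul_sub, mul_neg, Finset.sum_sub_distrib, Finset.sum_neg_distrib]
    ring

theorem ample_congr {X : ProjVar ℂ K} {D D' : BDiv ℂ K 2} (h : X.Ample D)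
    (h' : D' - D ∈ principal ℂ K 2) : X.Ample D' := by
  obtain ⟨c, m, d, Y, hc, hd, hm⟩ := h
  refine ⟨c, m, d, Y, hc, hd, ?_⟩
  have := Submodule.add_mem _ h' hm
  convert this using 1
  abel

theorem ample_aux {s' : Ix → Bool} {t δ : ℝ} {c : Cls} (r : Ix → ℝ)
    (hr : ∀ a, inX a = true → 0 < r a)
    (h : ∀ u : DivVal ℂ K 2, t * (∑ a, if s' a = true then (C.e a u : ℝ) else 0) -
      δ * logc C c u = ∑ a, if inX a = true then r a * C.e a u else 0) :
    (C.on inX).Ample (t • (C.on s').hyp 2 + δ • logc C c) := by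
  refine C.ample_of_pos r hr ?_
  have h1 := Submodule.smul_mem _ t (C.on_hyp_mod (K := K) s')
  convert h1 using 1
  funext u
  have h2 := h u
  simp only [Pi.sub_apply, Pi.add_apply, Pi.smul_apply, smul_eq_mul]
  rw [← h2]
  ring

theorem ample_T {δ : ℝ} (c : Cls) (h : 0 < δ * (c.1 - c.2.1)) :
    ∃ t : ℝ, (C.on inX).Ample (t • (C.on inT).hyp 2 + δ • logc C c) := by
  let B : Fin 5 → ℝ := fun k => δ * (1 - c.2.2 k / 2)
  let A : ℝ := δ * (12 + c.2.1 - ∑ k, c.2.2 k)
  let t : ℝ := 1 + |A| + |δ| + ∑ k, |B k|
  have hB : ∀ k, |B k| ≤ ∑ k, |B k| := fun k =>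
    Finset.single_le_sum (f := fun k => |B k|) (fun _ _ => abs_nonneg _) (Finset.mem_univ k)
  have hS : 0 ≤ ∑ k, |B k| := Finset.sum_nonneg fun _ _ => abs_nonneg _
  let r : Ix → ℝ
    | .U => δ * (c.1 - c.2.1)
    | .S => t + A
    | .M k l => if k = l then t - δ else t
    | .N k l => if k = l then t - B k else t
    | _ => 1
  refine ⟨t, C.ample_aux r ?_ ?_⟩
  · intro a _
    have h1 := neg_abs_le A
    have h2 := le_abs_self δ
    have h3 := abs_nonneg A
    have h4 := abs_nonneg δ
    cases a with
    | U => exact h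
    | S => change 0 < t + A; simp only [t]; linarith
    | M k l =>
      change 0 < if k = l then t - δ else t
      split_ifs <;> simp only [t] <;> linarith
    | N k l =>
      change 0 < if k = l then t - B k else t
      have h5 := hB k
      have h6 := le_abs_self (B k)
      split_ifs <;> simp only [t] <;> linarith
    | V => exact one_pos
    | W => exact one_pos
    | F i => exact one_pos
  · intro u
    rw [logc_apply, Ample.sum_Ix, Ample.sum_Ix]
    simp only [inT, inX, r, if_true, Bool.false_eq_true, if_false, Fin.sum_univ_five, A, B]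
    simp
    ring

theorem rcart (c : Cls) : (C.on inX).RCartier (logc C c) := by
  let B : Fin 5 → ℝ := fun k => 1 - c.2.2 k / 2
  let A : ℝ := 12 + c.2.1 - ∑ k, c.2.2 k
  let A' : ℝ := c.1 - c.2.1
  let t : ℝ := 2 + |A| + |A'| + ∑ k, |B k|
  have hB : ∀ k, |B k| ≤ ∑ k, |B k| := fun k =>
    Finset.single_le_sum (f := fun k => |B k|) (fun _ _ => abs_nonneg _) (Finset.mem_univ k)
  have hS : 0 ≤ ∑ k, |B k| := Finset.sum_nonneg fun _ _ => abs_nonneg _
  let r : Ix → ℝ
    | .U => t + A'
    | .S => t + A
    | .M k l => if k = l then t - 1 else t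
    | .N k l => if k = l then t - B k else t
    | _ => 1
  refine ⟨t, ?_⟩
  have key := C.ample_aux (s' := inX) (t := t) (δ := 1) (c := c) r ?_ ?_
  · rwa [one_smul, add_comm] at key
  · intro a _
    have h1 := neg_abs_le A
    have h2 := neg_abs_le A'
    have h3 := abs_nonneg A
    have h4 := abs_nonneg A'
    cases a with
    | U => change 0 < t + A'; simp only [t]; linarith
    | S => change 0 < t + A; simp only [t]; linarith
    | M k l =>
      change 0 < if k = l then t - 1 else t
      split_ifs <;> simp only [t] <;> linarith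
    | N k l =>
      change 0 < if k = l then t - B k else t
      have h5 := hB k
      have h6 := le_abs_self (B k)
      split_ifs <;> simp only [t] <;> linarith
    | V => exact one_pos
    | W => exact one_pos
    | F i => exact one_pos
  · intro u
    rw [logc_apply, Ample.sum_Ix, Ample.sum_Ix]
    simp only [inX, r, if_true, Bool.false_eq_true, if_false, Fin.sum_univ_five, A, A', B]
    simp
    ring

theorem ample_Z {δ : ℝ} (c : Cls) (i : Fin 5) (h : 0 < δ * (c.2.1 - c.2.2 i)) :
    ∃ t : ℝ, (C.on inX).Ample (t • (C.on (inZ i)).hyp 2 + δ • logc C c) := by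
  let ε : ℝ := δ * (c.2.1 - c.2.2 i) / 49
  have hε : 0 < ε := by positivity
  let B : Fin 5 → ℝ := fun k => -δ * (1 - c.2.2 k / 2) - 4 * ε
  let A : ℝ := δ * (c.1 - c.2.1)
  let A' : ℝ := -δ - 16 * ε
  let A'' : ℝ := 11 * δ + 92 * ε - δ * ((∑ k, c.2.2 k) - c.2.2 i)
  let t : ℝ := 1 + |A| + |A'| + |A''| + ∑ k, |B k|
  have hB : ∀ k, |B k| ≤ ∑ k, |B k| := fun k =>
    Finset.single_le_sum (f := fun k => |B k|) (fun _ _ => abs_nonneg _) (Finset.mem_univ k)
  have hS : 0 ≤ ∑ k, |B k| := Finset.sum_nonneg fun _ _ => abs_nonneg _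
  let r : Ix → ℝ
    | .U => t + A
    | .S => ε
    | .M k l => if k = i then (if l = i then t + A'' else t + A') else ε
    | .N k l => if k = i then t + B l else ε
    | _ => 1
  refine ⟨t, C.ample_aux r ?_ ?_⟩
  · intro a _
    have h1 := neg_abs_le A
    have h2 := neg_abs_le A'
    have h3 := neg_abs_le A''
    have h4 := abs_nonneg A
    have h5 := abs_nonneg A'
    have h6 := abs_nonneg A''
    cases a with
    | U => change 0 < t + A; simp only [t]; linarith
    | S => exact hε
    | M k l =>
      change 0 < if k = i then (if l = i then t + A'' else t + A') else ε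
      split_ifs
      · simp only [t]; linarith
      · simp only [t]; linarith
      · exact hε
    | N k l =>
      change 0 < if k = i then t + B l else ε
      have h7 := hB l
      have h8 := neg_abs_le (B l)
      split_ifs
      · simp only [t]; linarith
      · exact hε
    | V => exact one_pos
    | W => exact one_pos
    | F i => exact one_pos
  · intro u
    have hM : ∀ k l, k ≠ l → (C.e (.M k l) u : ℝ) =
        C.e (.M k k) u + C.e (.M l l) u - C.e .S u := by
      intro k l hkl
      rw [C.e_MM u hkl]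
      push_cast
      ring
    have hN : ∀ k l, k ≠ l → (C.e (.N k l) u : ℝ) =
        2 * C.e (.M k k) u + C.e (.N l l) u - 2 * C.e .S u := by
      intro k l hkl
      rw [C.e_NN u hkl]
      push_cast
      ring
    have hε' : 49 * ε = δ * (c.2.1 - c.2.2 i) := by
      simp only [ε]
      ring
    rw [logc_apply, Ample.sum_Ix, Ample.sum_Ix]
    simp only [inX, inZ, r, if_true, Bool.false_eq_true, if_false, A, A', A'', B]
    generalize ε = ε at hε'
    generalize t = t
    simp only [Fin.sum_univ_five]
    rw [hM 0 1 (by decide), hM 0 2 (by decide), hM 0 3 (by decide), hM 0 4 (by decide),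
      hM 1 0 (by decide), hM 1 2 (by decide), hM 1 3 (by decide), hM 1 4 (by decide),
      hM 2 0 (by decide), hM 2 1 (by decide), hM 2 3 (by decide), hM 2 4 (by decide),
      hM 3 0 (by decide), hM 3 1 (by decide), hM 3 2 (by decide), hM 3 4 (by decide),
      hM 4 0 (by decide), hM 4 1 (by decide), hM 4 2 (by decide), hM 4 3 (by decide),
      hN 0 1 (by decide), hN 0 2 (by decide), hN 0 3 (by decide), hN 0 4 (by decide),
      hN 1 0 (by decide), hN 1 2 (by decide), hN 1 3 (by decide), hN 1 4 (by decide),
      hN 2 0 (by decide), hN 2 1 (by decide), hN 2 3 (by decide), hN 2 4 (by decide),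
      hN 3 0 (by decide), hN 3 1 (by decide), hN 3 2 (by decide), hN 3 4 (by decide),
      hN 4 0 (by decide), hN 4 1 (by decide), hN 4 2 (by decide), hN 4 3 (by decide)]
    clear hM hN
    generalize (C.e .U u : ℝ) = eU
    generalize (C.e .S u : ℝ) = eS
    generalize (C.e (.M 0 0) u : ℝ) = m0
    generalize (C.e (.M 1 1) u : ℝ) = m1
    generalize (C.e (.M 2 2) u : ℝ) = m2
    generalize (C.e (.M 3 3) u : ℝ) = m3
    generalize (C.e (.M 4 4) u : ℝ) = m4
    generalize (C.e (.N 0 0) u : ℝ) = n0
    generalize (C.e (.N 1 1) u : ℝ) = n1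
    generalize (C.e (.N 2 2) u : ℝ) = n2
    generalize (C.e (.N 3 3) u : ℝ) = n3
    generalize (C.e (.N 4 4) u : ℝ) = n4
    fin_cases i
    · simp at hε' ⊢
      linear_combination -eS * hε'
    · simp at hε' ⊢
      linear_combination -eS * hε'
    · simp at hε' ⊢
      linear_combination -eS * hε'
    · simp at hε' ⊢
      linear_combination -eS * hε'
    · simp at hε' ⊢
      linear_combination -eS * hε'

end Cfg

end Pool.Agent.Helper43.Fl
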