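import Pool.Agent.Helper43.FlVal

open scoped KaehlerDifferential

noncomputable section

namespace Pool.Agent.Helper43.Fl

open Pool.Agent.Helper43 Pool.Agent.Helper43.ProjVar

variable {K : Type} [Field K] [Algebra ℂ K]

theorem T3_zero {a b d X Y : ℤ} (hX : T3 X a 0) (hY : T3 Y b 0) (hd : T3 a b d)
    (h : a ≤ 0 ∨ b ≤ 0) :
    min (2 * min (min a b) (a + b)) d - 2 * min 0 X - 2 * min 0 Y = 0 := by
  have h1 : min 0 X = min 0 a := by unfold T3 at hX; omega
  have h2 : min 0 Y = min 0 b := by unfold T3 at hY; omega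
  rw [h1, h2]
  unfold T3 at hd
  rcases hd with hd | hd | hd <;> rcases h with h | h <;> omega

namespace Cfg

variable (C : Cfg K) (u : DivVal ℂ K 2)

theorem e_V_B {i : Fin 5} (h : ∀ j, j ≠ i → C.κ i + C.κ j ≠ 1) :
    (C.B i h).e .V u = C.e (.F i) u - C.e .U u - C.e .V u - u.v (C.D i) := by
  have h1 := (C.B i h).T_y u i
  have h2 : u.v ((C.B i h).z i) = u.v (C.τ i) + u.v (C.z i) - u.v (C.D i) := by
    rw [B_z_self, v_div u _ _ (mul_ne_zero (C.τ_ne i) (C.z_ne i)) (C.D_ne i),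
      u.mul _ _ (C.τ_ne i) (C.z_ne i)]
  have h3 := C.T_x u i
  have h4 := C.T_y u i
  have h5 := C.T_D u i
  rw [e_V, e_F, e_U, e_V, mF]
  rw [h2] at h1
  generalize u.v (C.B i h).y = Y' at *
  generalize u.v (C.τ i) = a at *
  generalize u.v (C.z i) = b at *
  generalize u.v (C.D i) = d at *
  generalize u.v C.x = X at *
  generalize u.v C.y = Y at *
  unfold T3 at *
  omega

theorem e_F_B_self {i : Fin 5} (h : ∀ j, j ≠ i → C.κ i + C.κ j ≠ 1) :
    (C.B i h).e (.F i) u - 2 * (C.B i h).e .U u - 2 * (C.B i h).e .V u =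
      2 * u.v (C.τ i) - 2 * C.e .U u - (C.e (.F i) u - 2 * C.e .U u - 2 * C.e .V u) := by
  have h2 : u.v ((C.B i h).z i) = u.v (C.τ i) + u.v (C.z i) - u.v (C.D i) := by
    rw [B_z_self, v_div u _ _ (mul_ne_zero (C.τ_ne i) (C.z_ne i)) (C.D_ne i),
      u.mul _ _ (C.τ_ne i) (C.z_ne i)]
  have h6 : u.v ((C.B i h).D i) = 2 * u.v (C.τ i) - u.v (C.D i) := by
    rw [B_D_self, v_div u _ _ (pow_ne_zero 2 (C.τ_ne i)) (C.D_ne i), v_pow u _ (C.τ_ne i)]
    norm_num
  have h3 := C.T_x u i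
  have h4 := C.T_y u i
  have h5 := C.T_D u i
  rw [e_V_B, e_F, e_F, e_U, e_U, e_V, mF, mF, h2, h6, B_x, B_τ]
  generalize u.v (C.τ i) = a at *
  generalize u.v (C.z i) = b at *
  generalize u.v (C.D i) = d at *
  generalize u.v C.x = X at *
  generalize u.v C.y = Y at *
  unfold T3 at *
  omega

theorem e_F_B {i j : Fin 5} (h : ∀ j, j ≠ i → C.κ i + C.κ j ≠ 1) (hj : j ≠ i) :
    (C.B i h).e (.F j) u - 2 * (C.B i h).e .U u - 2 * (C.B i h).e .V u =
      C.e (.F j) u - 2 * C.e .U u - 2 * C.e .V u := by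
  have hκ : cc K (1 - C.κ i) ≠ 0 := cc_ne (sub_ne_zero.mpr (C.κ1 i).symm)
  have e1 : u.v ((C.B i h).z i) = u.v (C.τ i) + u.v (C.z i) - u.v (C.D i) := by
    rw [B_z_self, v_div u _ _ (mul_ne_zero (C.τ_ne i) (C.z_ne i)) (C.D_ne i),
      u.mul _ _ (C.τ_ne i) (C.z_ne i)]
  have e2 : u.v (C.B i h).η = u.v C.η + u.v (C.τ i) - u.v (C.D i) := by
    rw [B_η, v_div u _ _ (mul_ne_zero (mul_ne_zero hκ C.η_ne) (C.τ_ne i)) (C.D_ne i),
      u.mul _ _ (mul_ne_zero hκ C.η_ne) (C.τ_ne i), u.mul _ _ hκ C.η_ne, v_cc, zero_add]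
  have e3 : T3 (u.v (C.D j)) (u.v ((C.B i h).D j)) (2 * u.v C.η - u.v (C.D i)) := by
    have hc : cc K (C.κ i * C.κ j) ≠ 0 := cc_ne (mul_ne_zero (C.κ0 i) (C.κ0 j))
    have h1 := T3_of_add u (a := C.D j) (b := -(C.B i h).D j)
      (c := -(cc K (C.κ i * C.κ j) * C.η ^ 2 / C.D i)) (C.D_ne j)
      (neg_ne_zero.mpr ((C.B i h).D_ne j))
      (neg_ne_zero.mpr (div_ne_zero (mul_ne_zero hc (pow_ne_zero 2 C.η_ne)) (C.D_ne i))) (by
        rw [C.B_D h hj, cc_mul]
        have h0 := C.D_ne i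
        have h1 : C.τ i = C.D i - cc K (C.κ i) * C.η := by simp only [D]; ring
        rw [h1]
        have h2 : C.D j = C.τ j + cc K (C.κ j) * C.η := rfl
        rw [h2]
        field_simp
        ring)
    rwa [v_neg, v_neg, v_div u _ _ (mul_ne_zero hc (pow_ne_zero 2 C.η_ne)) (C.D_ne i),
      u.mul _ _ hc (pow_ne_zero 2 C.η_ne), v_cc, v_pow u _ C.η_ne, zero_add] at h1
  have t1 := C.T_x u i
  have t2 := C.T_x u j
  have t3 := C.T_y u i
  have t4 := C.T_y u j
  have t5 := (C.B i h).T_y u i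
  have t6 := (C.B i h).T_y u j
  have t7 := C.T_τ u hj
  have t8 := C.T_z u hj
  have t9 := (C.B i h).T_z u hj
  have t10 := C.T_η u i
  have t11 := C.T_η u j
  have t12 := (C.B i h).T_η u j
  have t13 := C.T_D' u i
  have t14 := C.T_D u j
  have t15 := (C.B i h).T_D u j
  rw [e_F, e_F, e_U, e_U, e_V, e_V, mF, mF]
  rw [B_x, B_τ]
  rw [B_τ] at t12 t15
  rw [e1] at t5 t9
  rw [e2] at t12
  generalize u.v (C.τ i) = ai at *
  generalize u.v (C.z i) = bi at *
  generalize u.v (C.D i) = di at *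
  generalize u.v (C.τ j) = aj at *
  generalize u.v (C.z j) = bj at *
  generalize u.v (C.D j) = dj at *
  generalize u.v ((C.B i h).z j) = bj' at *
  generalize u.v ((C.B i h).D j) = dj' at *
  generalize u.v C.x = X at *
  generalize u.v C.y = Y at *
  generalize u.v (C.B i h).y = Y' at *
  generalize u.v C.η = e at *
  clear e1 e2
  by_cases ha : aj ≤ 0
  · rw [T3_zero t2 t6 t15 (Or.inl ha), T3_zero t2 t4 t14 (Or.inl ha)]
  have ha := not_le.mp ha
  by_cases hb : bj ≤ 0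
  · by_cases hb' : bj' ≤ 0
    · rw [T3_zero t2 t6 t15 (Or.inr hb'), T3_zero t2 t4 t14 (Or.inr hb)]
    · exfalso
      have r1 : ai = 0 := by
        unfold T3 at t7
        omega
      have r2 : e = bj := by
        unfold T3 at t11
        omega
      have r3 : 0 < e + ai - di := by
        unfold T3 at t12
        omega
      unfold T3 at t13
      omega
  have hb := not_le.mp hb
  have r1 : ai = 0 := by
    unfold T3 at t7
    omega
  have r2 : min aj bj ≤ e ∧ min aj bj = min aj e := by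
    unfold T3 at t11
    omega
  have r3 : di = 0 := by
    unfold T3 at t13
    omega
  have r4 : min aj bj' = min aj e ∧ 0 < bj' := by
    unfold T3 at t12
    omega
  have r5 : min 0 X = 0 ∧ min 0 Y = 0 ∧ min 0 Y' = 0 := by
    unfold T3 at t2 t4 t6
    omega
  have r6 : min (min aj bj) (aj + bj) = min aj e := by omega
  have r7 : min (min aj bj') (aj + bj') = min aj e := by omega
  rw [r6, r7, r5.1, r5.2.1, r5.2.2]
  unfold T3 at e3
  omega

theorem beta_B {i : Fin 5} (h : ∀ j, j ≠ i → C.κ i + C.κ j ≠ 1) (c : Cls) :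
    beta (C.B i h) (cB c i) u = beta C c u + c.2.1 * u.v (C.D i) -
      (2 * c.2.1 - c.2.2 i) * u.v (C.τ i) := by
  have h1 := C.e_V_B u h
  have h2 := C.e_F_B_self u h
  have hU : (C.B i h).e .U u = C.e .U u := by rw [e_U, e_U, B_x]
  have h1' : ((C.B i h).e .V u : ℝ) = C.e (.F i) u - C.e .U u - C.e .V u - u.v (C.D i) := by
    rw [h1]; push_cast; ring
  have h2' : ((C.B i h).e (.F i) u : ℝ) - 2 * (C.B i h).e .U u - 2 * (C.B i h).e .V u =
      2 * u.v (C.τ i) - 2 * C.e .U u - (C.e (.F i) u - 2 * C.e .U u - 2 * C.e .V u) := by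
    exact_mod_cast h2
  have h3 : ∀ j, j ≠ i → ((C.B i h).e (.F j) u : ℝ) - 2 * (C.B i h).e .U u -
      2 * (C.B i h).e .V u = C.e (.F j) u - 2 * C.e .U u - 2 * C.e .V u := fun j hj => by
    exact_mod_cast C.e_F_B u h hj
  have h4 : ∑ j, (cB c i).2.2 j / 2 * (((C.B i h).e (.F j) u : ℝ) - 2 * (C.B i h).e .U u -
      2 * (C.B i h).e .V u) = ∑ j, c.2.2 j / 2 * ((C.e (.F j) u : ℝ) - 2 * C.e .U u -
        2 * C.e .V u) + ((2 * c.2.1 - c.2.2 i) / 2 * (2 * u.v (C.τ i) - 2 * C.e .U u -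
          (C.e (.F i) u - 2 * C.e .U u - 2 * C.e .V u)) - c.2.2 i / 2 *
            ((C.e (.F i) u : ℝ) - 2 * C.e .U u - 2 * C.e .V u)) := by
    rw [← Finset.add_sum_erase _ _ (Finset.mem_univ i),
      ← Finset.add_sum_erase (a := i) _ (fun j => c.2.2 j / 2 * ((C.e (.F j) u : ℝ) -
        2 * C.e .U u - 2 * C.e .V u)) (Finset.mem_univ i)]
    have e1 : ∑ j ∈ Finset.univ.erase i, (cB c i).2.2 j / 2 *
        (((C.B i h).e (.F j) u : ℝ) - 2 * (C.B i h).e .U u - 2 * (C.B i h).e .V u) =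
        ∑ j ∈ Finset.univ.erase i, c.2.2 j / 2 * ((C.e (.F j) u : ℝ) - 2 * C.e .U u -
          2 * C.e .V u) := by
      refine Finset.sum_congr rfl fun j hj => ?_
      have hj' := Finset.ne_of_mem_erase hj
      rw [h3 j hj']
      simp [cB, Function.update_of_ne hj']
    rw [e1, h2']
    simp only [cB, Function.update_self]
    ring
  simp only [beta]
  rw [h4, h1', hU]
  simp only [cB]
  ring

theorem beta_sw (c : Cls) : beta C.sw (cS c) = beta C c := by
  funext u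
  have hU : C.sw.e .U u = C.e .V u := by rw [e_U, e_V, sw_x]
  have hV : C.sw.e .V u = C.e .U u := by rw [e_U, e_V, sw_y]
  have hF : ∀ i, C.sw.e (.F i) u = C.e (.F i) u := fun i => by
    rw [e_F, e_F, mF, mF, sw_τ, sw_z, sw_D, min_comm (u.v (C.z i)), add_comm (u.v (C.z i))]
  simp only [beta, hU, hV, hF, cS]
  have : ∑ i, c.2.2 i / 2 * ((C.e (.F i) u : ℝ) - 2 * C.e .V u - 2 * C.e .U u) =
      ∑ i, c.2.2 i / 2 * ((C.e (.F i) u : ℝ) - 2 * C.e .U u - 2 * C.e .V u) :=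
    Finset.sum_congr rfl fun i _ => by ring
  rw [this]
  ring

end Cfg

end Pool.Agent.Helper43.Fl
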