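import Pool.Agent.Helper43.FlChart0

open scoped KaehlerDifferential

noncomputable section

namespace Pool.Agent.Helper43.Fl

open Pool.Agent.Helper43 Pool.Agent.Helper43.ProjVar

variable {K : Type} [Field K] [Algebra ℂ K]

namespace Cfg

variable (C : Cfg K)

namespace Loc

variable {C} {H : K → ℂ → Prop} {p : K → Prop} (hp : Cl H p)
include hp

theorem cl_div {z : K} (c : ℂ) (hz : p z) : p (z / cc K c) := by
  rw [div_eq_mul_inv, ← cc_inv]
  exact hp.mul hz (hp.const _)

theorem cl_τ (hx : p C.x) (i : Fin 5) : p (C.τ i) := hp.sub hx (hp.const _)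

theorem cl_z (hy : p C.y) (i : Fin 5) : p (C.z i) := hp.sub hy (hp.const _)

theorem cl_D (hx : p C.x) (hy : p C.y) (i : Fin 5) : p (C.D i) :=
  hp.add (cl_τ hp hx i) (hp.mul (hp.const _) (hp.sub hy hx))

theorem cl_h (hx : p C.x) (hy : p C.y) (i j : Fin 5) : p (C.h i j) :=
  hp.add (cl_D hp hx hy j) (cl_div hp _ (hp.mul (cl_τ hp hx j) (cl_z hp hy j)))

theorem cl_m (hx : p C.x) (hy : p C.y) (hw : p C.w) (i j : Fin 5) (q : Fin 4) :
    p (C.m i j q) := by
  unfold m
  fin_cases q
  · exact hw
  · exact hp.sub hy hx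
  · exact hp.mul (cl_τ hp hx i) (cl_z hp hy j)
  · show p (if i = j then C.τ i else 0)
    split_ifs
    · exact cl_τ hp hx i
    · exact hp.zero

theorem cl_U (hx : p C.x) (j : J) : p (C.sys .U j) := by
  rcases j with _ | ⟨q, q'⟩
  · exact hp.zero
  · fin_cases q
    · exact hp.one
    · exact hx
    · exact hp.zero
    · exact hp.zero

theorem cl_S (hx : p C.x) (hy : p C.y) (hw : p C.w) (j : J) : p (C.sys .S j) := by
  rcases j with _ | ⟨q, q'⟩
  · exact hw
  · fin_cases q
    · exact hp.one
    · exact hx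
    · exact hy
    · exact hp.mul hx hy

theorem cl_M (hx : p C.x) (hy : p C.y) (hw : p C.w) (i l : Fin 5) (j : J) :
    p (C.sys (.M i l) j) := by
  rcases j with _ | ⟨q, q'⟩
  · exact hp.zero
  · exact cl_m hp hx hy hw i l q

theorem cl_N (hx : p C.x) (hy : p C.y) (hw : p C.w) (i l : Fin 5) (j : J) :
    p (C.sys (.N i l) j) := by
  rcases j with _ | ⟨q, q'⟩
  · show p (if i = l then C.D i else C.h i l * C.τ i)
    split_ifs
    · exact cl_D hp hx hy i
    · exact hp.mul (cl_h hp hx hy i l) (cl_τ hp hx i)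
  · exact hp.mul (cl_m hp hx hy hw i l q) (cl_m hp hx hy hw i l q')

end Loc

open Loc

theorem chart_a {H : K → ℂ → Prop} (hH : Place H) (hx : ∃ c, H C.x c) (hy : ∃ c, H C.y c)
    (hw : ∃ c, H C.w c) (h : ∀ i, ¬ (H (C.τ i) 0 ∧ H (C.z i) 0 ∧ H C.w 0)) :
    C.IsChart H .a := by
  have hp := Gn.cl H (C.par .a)
  have gx : Gn H (C.par .a) C.x := Gn.par H (C.par .a) 0
  have gy : Gn H (C.par .a) C.y := Gn.par H (C.par .a) 1
  have gw : Gn H (C.par .a) C.w := Gn.par H (C.par .a) 2
  -- the units of the systems `M`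
  have key : ∀ i l : Fin 5, ∃ q c, c ≠ 0 ∧ H (C.m i l q) c := by
    intro i l
    obtain ⟨cx, hx⟩ := hx
    obtain ⟨cy, hy⟩ := hy
    obtain ⟨cw, hw⟩ := hw
    by_cases h1 : cw = 0
    swap
    · exact ⟨0, cw, h1, hw⟩
    subst h1
    have hη : H C.η (cy - cx) := hH.sub hy hx
    by_cases h2 : cy - cx = 0
    swap
    · exact ⟨1, _, h2, hη⟩
    have h3 : cy = cx := sub_eq_zero.mp h2
    subst h3
    have hτ : ∀ k, H (C.τ k) (cy - tt k) := fun k => hH.sub hx (hH.const _)
    have hz : ∀ k, H (C.z k) (cy - tt k) := fun k => hH.sub hy (hH.const _)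
    have h4 : ∀ k, cy - tt k ≠ 0 := fun k h0 => h k
      ⟨by simpa [h0] using hτ k, by simpa [h0] using hz k, hw⟩
    exact ⟨2, _, mul_ne_zero (h4 i) (h4 l), hH.mul (hτ i) (hz l)⟩
  refine ⟨?_, ?_, ?_⟩
  · intro q
    fin_cases q
    · exact hx
    · exact hy
    · exact hw
  · intro a ha j
    cases a with
    | U => simpa [fac, gU] using cl_U hp gx j
    | V => simp [inX] at ha
    | W => simp [inX] at ha
    | F i => simp [inX] at ha
    | S => simpa [fac, gS] using cl_S hp gx gy gw j
    | M i l => simpa [fac, gS] using cl_M hp gx gy gw i l j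
    | N i l => simpa [fac, gS] using cl_N hp gx gy gw i l j
  · intro a ha
    cases a with
    | U => exact ⟨jo, 1, one_ne_zero, by simpa [fac, gU, sys] using hH.one⟩
    | V => simp [inX] at ha
    | W => simp [inX] at ha
    | F i => simp [inX] at ha
    | S => exact ⟨jo, 1, one_ne_zero, by simpa [fac, gS, sys] using hH.one⟩
    | M i l =>
      obtain ⟨q, c, hc, h1⟩ := key i l
      exact ⟨some (q, 0), c, hc, by simpa [fac, gS, sys] using h1⟩
    | N i l =>
      obtain ⟨q, c, hc, h1⟩ := key i l
      exact ⟨some (q, q), c * c, mul_ne_zero hc hc, by simpa [fac, gS, sys] using hH.mul h1 h1⟩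

/-- The common part of the charts over the five points. -/
theorem Loc.chart_aux {H : K → ℂ → Prop} (hH : Place H) {i r : Fin 5} (hx : H (C.τ i) 0)
    (hy : H (C.z i) 0) (h : ∀ q, ∃ c, H (C.par (.q i r) q) c) {g n : K}
    (hg : C.gM i r = g) (hn : C.gN i r = n) (hn0 : n ≠ 0)
    (gg : Gn H (C.par (.q i r)) g)
    (g1 : Gn H (C.par (.q i r)) (C.w / g)) (g2 : Gn H (C.par (.q i r)) (C.τ i / g))
    (g3 : Gn H (C.par (.q i r)) (C.D i / g)) (g4 : Gn H (C.par (.q i r)) (g ^ 2 / n))
    (g5 : Gn H (C.par (.q i r)) (C.D i / n))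
    (hB : ¬ (H (C.w / g) 0 ∧ H (C.η / g) 0 ∧ H (C.τ i / g) 0))
    (hC : ¬ (H (g ^ 2 / n) 0 ∧ H (C.D i / n) 0)) : C.IsChart H (.q i r) := by
  have hg0 : g ≠ 0 := by
    rintro rfl
    exact hB ⟨by simpa using hH.zero, by simpa using hH.zero, by simpa using hH.zero⟩
  have hp := Gn.cl H (C.par (.q i r))
  have reg : ∀ {z : K}, Gn H (C.par (.q i r)) z → ∃ c, H z c := fun hz => Gn.reg hH h hz
  have hκ : cc K (C.κ i) ≠ 0 := cc_ne (C.κ0 i)
  set G : K → Prop := Gn H (C.par (.q i r)) with hG
  have gτ : G (C.τ i) := by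
    have := hp.mul g2 gg
    rwa [div_mul_cancel₀ _ hg0] at this
  have gD : G (C.D i) := by
    have := hp.mul g3 gg
    rwa [div_mul_cancel₀ _ hg0] at this
  have gw : G C.w := by
    have := hp.mul g1 gg
    rwa [div_mul_cancel₀ _ hg0] at this
  have gx : G C.x := by
    have := hp.add gτ (hp.const (tt i))
    simpa [τ] using this
  have ηeq : C.η = (C.D i - C.τ i) / cc K (C.κ i) := by
    simp only [D]
    field_simp
    ring
  have gη : G C.η := by
    rw [ηeq]
    exact cl_div hp _ (hp.sub gD gτ)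
  have gy : G C.y := by
    have := hp.add gη gx
    simpa [η] using this
  -- the quotients by the generator
  have gηg : G (C.η / g) := by
    have h1 : C.η / g = (C.D i / g - C.τ i / g) / cc K (C.κ i) := by
      rw [ηeq]
      field_simp
    rw [h1]
    exact cl_div hp _ (hp.sub g3 g2)
  have zeq : C.z i = C.τ i + C.η := by simp only [z, τ, η]; ring
  have gzg : G (C.z i / g) := by
    rw [zeq, add_div]
    exact hp.add g2 gηg
  have gτk : ∀ k, G (C.τ k) := fun k => cl_τ hp gx k
  have gzk : ∀ k, G (C.z k) := fun k => cl_z hp gy k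
  -- elements of the systems `M` through the point
  have gm : ∀ k l, (k = i ∨ l = i) → ∀ q, G (C.m k l q / g) := by
    intro k l hkl q
    fin_cases q
    · exact g1
    · exact gηg
    · show G (C.τ k * C.z l / g)
      rcases hkl with rfl | rfl
      · rw [mul_div_right_comm]
        exact hp.mul g2 (gzk l)
      · rw [mul_div_assoc]
        exact hp.mul (gτk k) gzg
    · show G ((if k = l then C.τ k else 0) / g)
      split_ifs with hkl2
      · subst hkl2
        have : k = i := by tauto
        subst this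
        exact g2
      · simpa using hp.zero
  have hτk : ∀ k, H (C.τ k) (tt i - tt k) := by
    intro k
    have h1 := hH.add hx (hH.const (tt i - tt k))
    have h2 : C.τ i + algebraMap ℂ K (tt i - tt k) = C.τ k := by
      simp only [τ, cc, map_sub]
      ring
    rwa [h2, zero_add] at h1
  have hzk : ∀ k, H (C.z k) (tt i - tt k) := by
    intro k
    have h1 := hH.add hy (hH.const (tt i - tt k))
    have h2 : C.z i + algebraMap ℂ K (tt i - tt k) = C.z k := by
      simp only [z, cc, map_sub]
      ring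
    rwa [h2, zero_add] at h1
  -- units of the systems `M` through the point
  have um : ∀ k l, (k = i ∨ l = i) → ∃ q c, c ≠ 0 ∧ H (C.m k l q / g) c := by
    intro k l hkl
    obtain ⟨cw, hcw⟩ := reg g1
    obtain ⟨cη, hcη⟩ := reg gηg
    obtain ⟨cτ, hcτ⟩ := reg g2
    by_cases h1 : cw = 0
    swap
    · exact ⟨0, cw, h1, hcw⟩
    by_cases h2 : cη = 0
    swap
    · exact ⟨1, cη, h2, hcη⟩
    subst h1 h2
    have h3 : cτ ≠ 0 := by
      rintro rfl
      exact hB ⟨hcw, hcη, hcτ⟩
    by_cases hkl2 : k = l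
    · subst hkl2
      have : k = i := by tauto
      subst this
      refine ⟨3, cτ, h3, ?_⟩
      show H ((if k = k then C.τ k else 0) / g) cτ
      rw [if_pos rfl]
      exact hcτ
    rcases hkl with rfl | rfl
    · refine ⟨2, cτ * (tt k - tt l), mul_ne_zero h3 (tt_sub hkl2), ?_⟩
      show H (C.τ k * C.z l / g) _
      rw [mul_div_right_comm]
      exact hH.mul hcτ (hzk l)
    · refine ⟨2, (tt l - tt k) * (cτ + 0), mul_ne_zero (tt_sub (Ne.symm hkl2)) (by simpa using h3),
        ?_⟩
      show H (C.τ k * C.z l / g) _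
      rw [mul_div_assoc, zeq, add_div]
      exact hH.mul (hτk k) (hH.add hcτ hcη)
  have um' : ∀ k l, k ≠ i → l ≠ i → ∃ q c, c ≠ 0 ∧ H (C.m k l q) c := by
    intro k l hk hl
    exact ⟨2, _, mul_ne_zero (tt_sub hk.symm) (tt_sub hl.symm), hH.mul (hτk k) (hzk l)⟩
  have hsplit : ∀ a b : K, a * b / n = a / g * (b / g) * (g ^ 2 / n) := by
    intro a b
    field_simp
  -- the element of the system `N k i` which is not a product
  have extra : ∀ k, k ≠ i → C.h k i * C.τ k / n = (C.D i / n +
      C.τ i / g * (C.z i / g) * (g ^ 2 / n) / cc K (tt i - tt k)) * C.τ k := by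
    intro k hk
    have h1 : cc K (tt i - tt k) ≠ 0 := cc_ne (tt_sub hk.symm)
    rw [← hsplit]
    unfold Cfg.h
    field_simp
  have hil : ∀ l, l ≠ i → C.h i l = cc K (C.κ l - 1) * C.η +
      C.τ i * C.z l / cc K (tt l - tt i) := by
    intro l hl
    have h1 : cc K (tt l - tt i) ≠ 0 := cc_ne (tt_sub hl)
    unfold Cfg.h
    field_simp
    simp only [D, τ, z, η, cc, map_sub, map_one]
    ring
  refine ⟨h, ?_, ?_⟩
  · intro a ha j
    cases a with
    | U => simpa [fac, gU] using cl_U hp gx j
    | V => simp [inX] at ha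
    | W => simp [inX] at ha
    | F i => simp [inX] at ha
    | S => simpa [fac, gS] using cl_S hp gx gy gw j
    | M k l =>
      simp only [fac]
      split_ifs with hkl
      · rw [hg]
        rcases j with _ | ⟨q, q'⟩
        · simpa [sys] using hp.zero
        · exact gm k l hkl q
      · simpa using cl_M hp gx gy gw k l j
    | N k l =>
      simp only [fac]
      split_ifs with hl hk
      · subst hl
        rw [hn]
        rcases j with _ | ⟨q, q'⟩
        · show G ((if k = l then C.D k else C.h k l * C.τ k) / n)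
          split_ifs with hk
          · subst hk
            exact g5
          · rw [extra k hk]
            exact hp.mul (hp.add g5 (cl_div hp _ (hp.mul (hp.mul g2 gzg) g4))) (gτk k)
        · show G (C.m k l q * C.m k l q' / n)
          rw [hsplit]
          exact hp.mul (hp.mul (gm k l (Or.inr rfl) q) (gm k l (Or.inr rfl) q')) g4
      · subst hk
        rw [hg]
        have h2 : ∀ a b : K, a * b / g ^ 2 = a / g * (b / g) := by
          intro a b
          field_simp
        rcases j with _ | ⟨q, q'⟩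
        · show G ((if k = l then C.D k else C.h k l * C.τ k) / g ^ 2)
          rw [if_neg (Ne.symm hl), h2]
          refine hp.mul ?_ g2
          rw [hil l hl, add_div]
          refine hp.add ?_ ?_
          · rw [mul_div_assoc]
            exact hp.mul (hp.const _) gηg
          · rw [div_right_comm, mul_div_right_comm]
            exact cl_div hp _ (hp.mul g2 (gzk l))
        · show G (C.m k l q * C.m k l q' / g ^ 2)
          rw [h2]
          exact hp.mul (gm k l (Or.inl rfl) q) (gm k l (Or.inl rfl) q')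
      · simpa using cl_N hp gx gy gw k l j
  · intro a ha
    cases a with
    | U => exact ⟨jo, 1, one_ne_zero, by simpa [fac, gU, sys] using hH.one⟩
    | V => simp [inX] at ha
    | W => simp [inX] at ha
    | F i => simp [inX] at ha
    | S => exact ⟨jo, 1, one_ne_zero, by simpa [fac, gS, sys] using hH.one⟩
    | M k l =>
      simp only [fac]
      split_ifs with hkl
      · rw [hg]
        obtain ⟨q, c, hc, h1⟩ := um k l hkl
        exact ⟨some (q, 0), c, hc, h1⟩
      · rw [not_or] at hkl
        obtain ⟨q, c, hc, h1⟩ := um' k l hkl.1 hkl.2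
        exact ⟨some (q, 0), c, hc, by simpa [sys] using h1⟩
    | N k l =>
      simp only [fac]
      split_ifs with hl hk
      · subst hl
        rw [hn]
        obtain ⟨s, hs⟩ := reg g4
        obtain ⟨d, hd⟩ := reg g5
        obtain ⟨q, c, hc, h1⟩ := um k l (Or.inr rfl)
        by_cases hs0 : s = 0
        · subst hs0
          have hd0 : d ≠ 0 := by
            rintro rfl
            exact hC ⟨hs, hd⟩
          by_cases hk : k = l
          · subst hk
            refine ⟨none, d, hd0, ?_⟩
            show H ((if k = k then C.D k else C.h k k * C.τ k) / n) d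
            rw [if_pos rfl]
            exact hd
          · obtain ⟨a, ha⟩ := reg g2
            obtain ⟨b, hb⟩ := reg gzg
            refine ⟨none, (d + a * b * 0 * (tt l - tt k)⁻¹) * (tt l - tt k),
              mul_ne_zero (by simpa using hd0) (tt_sub (Ne.symm hk)), ?_⟩
            show H ((if k = l then C.D k else C.h k l * C.τ k) / n) _
            rw [if_neg hk, extra k hk]
            refine hH.mul (hH.add hd ?_) (hτk k)
            rw [div_eq_mul_inv _ (cc K (tt l - tt k)), ← cc_inv]
            exact hH.mul (hH.mul (hH.mul ha hb) hs) (hH.const _)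
        · refine ⟨some (q, q), c * c * s, mul_ne_zero (mul_ne_zero hc hc) hs0, ?_⟩
          show H (C.m k l q * C.m k l q / n) _
          rw [hsplit]
          exact hH.mul (hH.mul h1 h1) hs
      · subst hk
        rw [hg]
        obtain ⟨q, c, hc, h1⟩ := um k l (Or.inl rfl)
        refine ⟨some (q, q), c * c, mul_ne_zero hc hc, ?_⟩
        show H (C.m k l q * C.m k l q / g ^ 2) _
        have h2 : C.m k l q * C.m k l q / g ^ 2 = C.m k l q / g * (C.m k l q / g) := by
          field_simp
        rw [h2]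
        exact hH.mul h1 h1
      · obtain ⟨q, c, hc, h1⟩ := um' k l hk hl
        exact ⟨some (q, q), c * c, mul_ne_zero hc hc, by simpa [sys] using hH.mul h1 h1⟩

theorem chart_q {H : K → ℂ → Prop} (hH : Place H) {i r : Fin 5} (hx : H (C.τ i) 0)
    (hy : H (C.z i) 0) (hw : H C.w 0) (h : ∀ q, ∃ c, H (C.par (.q i r) q) c) :
    C.IsChart H (.q i r) := by
  have hτ0 := C.τ_ne i
  have hD0 := C.D_ne i
  have hw0 := C.w_ne
  have h10 : ∀ {z : K}, H z 0 → z ≠ 1 := by
    rintro z hz rfl
    exact one_ne_zero (hH.uniq hH.one hz)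
  have hp := Gn.cl H (C.par (.q i r))
  have p0 := Gn.par H (C.par (.q i r)) 0
  have p1 := Gn.par H (C.par (.q i r)) 1
  have p2 := Gn.par H (C.par (.q i r)) 2
  fin_cases r
  · refine Loc.chart_aux C hH hx hy h (g := C.τ i) (n := C.τ i ^ 2) rfl rfl (pow_ne_zero _ hτ0)
      p0 p2 ?_ ?_ ?_ p1 ?_ ?_
    · rw [div_self hτ0]
      exact hp.one
    · have := hp.mul p1 p0
      convert this using 1
      show C.D i / C.τ i = C.D i / C.τ i ^ 2 * C.τ i
      field_simp
    · rw [div_self (pow_ne_zero _ hτ0)]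
      exact hp.one
    · rintro ⟨-, -, h3⟩
      exact h10 h3 (div_self hτ0)
    · rintro ⟨h3, -⟩
      exact h10 h3 (div_self (pow_ne_zero _ hτ0))
  · refine Loc.chart_aux C hH hx hy h (g := C.w) (n := C.w ^ 2) rfl rfl (pow_ne_zero _ hw0)
      p0 ?_ p2 ?_ ?_ p1 ?_ ?_
    · rw [div_self hw0]
      exact hp.one
    · have := hp.mul p1 p0
      convert this using 1
      show C.D i / C.w = C.D i / C.w ^ 2 * C.w
      field_simp
    · rw [div_self (pow_ne_zero _ hw0)]
      exact hp.one
    · rintro ⟨h3, -, -⟩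
      exact h10 h3 (div_self hw0)
    · rintro ⟨h3, -⟩
      exact h10 h3 (div_self (pow_ne_zero _ hw0))
  · refine Loc.chart_aux C hH hx hy h (g := C.τ i) (n := C.D i) rfl rfl hD0
      ?_ p2 ?_ p1 p0 ?_ ?_ ?_
    · have := hp.mul p0 p1
      convert this using 1
      show C.τ i = C.τ i ^ 2 / C.D i * (C.D i / C.τ i)
      field_simp
    · rw [div_self hτ0]
      exact hp.one
    · rw [div_self hD0]
      exact hp.one
    · rintro ⟨-, -, h3⟩
      exact h10 h3 (div_self hτ0)
    · rintro ⟨-, h3⟩
      exact h10 h3 (div_self hD0)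
  · refine Loc.chart_aux C hH hx hy h (g := C.w) (n := C.D i) rfl rfl hD0
      ?_ ?_ p2 p1 p0 ?_ ?_ ?_
    · have := hp.mul p0 p1
      convert this using 1
      show C.w = C.w ^ 2 / C.D i * (C.D i / C.w)
      field_simp
    · rw [div_self hw0]
      exact hp.one
    · rw [div_self hD0]
      exact hp.one
    · rintro ⟨h3, -, -⟩
      exact h10 h3 (div_self hw0)
    · rintro ⟨-, h3⟩
      exact h10 h3 (div_self hD0)
  · refine Loc.chart_aux C hH hx hy h (g := C.D i) (n := C.D i) rfl rfl hD0
      p0 p2 p1 ?_ ?_ ?_ ?_ ?_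
    · rw [div_self hD0]
      exact hp.one
    · rw [pow_two, mul_div_assoc, div_self hD0, mul_one]
      exact p0
    · rw [div_self hD0]
      exact hp.one
    · rintro ⟨-, h2, h3⟩
      have h4 := hH.add h3 (hH.mul (hH.const (C.κ i)) h2)
      have h5 : C.τ i / C.D i + algebraMap ℂ K (C.κ i) * (C.η / C.D i) = 1 := by
        rw [← mul_div_assoc, ← add_div]
        exact div_self hD0
      rw [h5, mul_zero, add_zero] at h4
      exact h10 h4 rfl
    · rintro ⟨-, h3⟩
      exact h10 h3 (div_self hD0)

end Cfg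

end Pool.Agent.Helper43.Fl
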