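import Pool.Agent.Helper43.FlChartBig
import Pool.Agent.Helper43.FlChartLoc

open scoped KaehlerDifferential

noncomputable section

namespace Pool.Agent.Helper43.Fl

open Pool.Agent.Helper43 Pool.Agent.Helper43.ProjVar

variable {K : Type} [Field K] [Algebra ℂ K]

namespace Cfg

variable (C : Cfg K)

section Reg

variable {H : K → ℂ → Prop} (hH : Place H)

include hH

theorem reg_mul {a b c : K} (ha : ∃ v, H a v) (hb : ∃ v, H b v) (h : c = a * b) :
    ∃ v, H c v := by
  rw [h]
  exact (Fl.Place.cl hH).mul ha hb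

theorem reg_lin {a b c : K} (r s : ℂ) (ha : ∃ v, H a v) (hb : ∃ v, H b v)
    (h : c = cc K r * a + cc K s * b) : ∃ v, H c v := by
  rw [h]
  exact (Fl.Place.cl hH).add ((Fl.Place.cl hH).mul ((Fl.Place.cl hH).const r) ha)
    ((Fl.Place.cl hH).mul ((Fl.Place.cl hH).const s) hb)

theorem reg_inv {a : K} {v : ℂ} (ha : H a v) (hv : v ≠ 0) : ∃ v, H a⁻¹ v :=
  ⟨_, hH.inv ha hv⟩

/-- A function with value zero has no regular inverse. -/
theorem not_inv {a : K} (ha : H a 0) (ha0 : a ≠ 0) : ¬ ∃ v, H a⁻¹ v := by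
  rintro ⟨v, hv⟩
  have h1 := hH.mul ha hv
  rw [mul_inv_cancel₀ ha0, zero_mul] at h1
  exact zero_ne_one (hH.uniq h1 hH.one)

/-- The regular case of the first alternative. -/
theorem reg_U (hU : GenAt H (C.sys .U)) : (∃ c, H C.x c) ∨ H C.x⁻¹ 0 := by
  obtain ⟨j, hj, hr⟩ := hU
  have h0 := hr (some (0, 0))
  have h1 := hr (some (1, 0))
  rcases j with _ | ⟨p, q⟩
  · exact absurd rfl hj
  · fin_cases p
    · left
      change ∃ c, H (C.x / 1) c at h1
      rwa [div_one] at h1
    · change ∃ c, H (1 / C.x) c at h0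
      rw [one_div] at h0
      obtain ⟨c, hc⟩ := h0
      by_cases hc0 : c = 0
      · right
        rwa [hc0] at hc
      · left
        have h2 := reg_inv hH hc hc0
        rwa [inv_inv] at h2
    · exact absurd rfl hj
    · exact absurd rfl hj

end Reg

theorem chart_exists {H : K → ℂ → Prop} (hH : Place H) (hU : GenAt H (C.sys .U))
    (hS : GenAt H (C.sys .S)) (hq : ∀ i, H (C.τ i) 0 → H (C.z i) 0 → H C.w 0 →
      ∃ r, ∀ q, ∃ c, H (C.par (.q i r) q) c) : ∃ T, C.IsChart H T := by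
  have hx0 := C.x_ne
  have hy0 := C.y_ne
  have hw0 := C.w_ne
  -- the affine case
  have key1 : (∃ c, H C.x c) → (∃ c, H C.y c) → (∃ c, H C.w c) → ∃ T, C.IsChart H T := by
    intro hx hy hw
    by_cases h : ∀ i, ¬ (H (C.τ i) 0 ∧ H (C.z i) 0 ∧ H C.w 0)
    · exact ⟨_, C.chart_a hH hx hy hw h⟩
    · push Not at h
      obtain ⟨i, h1, h2, h3⟩ := h
      obtain ⟨r, hr⟩ := hq i h1 h2 h3
      exact ⟨_, C.chart_q hH h1 h2 h3 hr⟩
  obtain ⟨j, hj, hr⟩ := hS
  have g1 := hr (some (0, 0))
  have g2 := hr (some (1, 0))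
  have g3 := hr (some (2, 0))
  have g4 := hr (some (3, 0))
  have g5 := hr none
  rcases C.reg_U hH hU with hx | hx
  · -- `x` regular
    have key2 : (∃ c, H C.y⁻¹ c) → (∃ c, H (C.w / C.y) c) → ∃ T, C.IsChart H T := by
      rintro ⟨c, hc⟩ hw
      by_cases hc0 : c = 0
      · rw [hc0] at hc
        exact ⟨_, C.chart_b hH hx hc hw⟩
      · have h1 := reg_inv hH hc hc0
        rw [inv_inv] at h1
        exact key1 hx h1 (reg_mul hH hw h1 (by field_simp))
    have key3 : (∃ c, H C.w⁻¹ c) → (∃ c, H (C.y / C.w) c) → ∃ T, C.IsChart H T := by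
      rintro ⟨c, hc⟩ ⟨d, hd⟩
      by_cases hc0 : c = 0
      · rw [hc0] at hc
        by_cases hd0 : d = 0
        · rw [hd0] at hd
          exact ⟨_, C.chart_c hH hx hc hd⟩
        · have h1 := reg_inv hH hd hd0
          refine key2 (reg_mul hH ⟨_, hc⟩ h1 (by field_simp)) ?_
          rwa [inv_div] at h1
      · have h1 := reg_inv hH hc hc0
        rw [inv_inv] at h1
        exact key1 hx (reg_mul hH ⟨_, hd⟩ h1 (by field_simp)) h1
    rcases j with _ | ⟨p, q⟩
    · change ∃ c, H (1 / C.w) c at g1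
      change ∃ c, H (C.y / C.w) c at g3
      rw [one_div] at g1
      exact key3 g1 g3
    · fin_cases p
      · change ∃ c, H (C.y / 1) c at g3
        change ∃ c, H (C.w / 1) c at g5
        rw [div_one] at g3 g5
        exact key1 hx g3 g5
      · change ∃ c, H (C.y / C.x) c at g3
        change ∃ c, H (C.w / C.x) c at g5
        exact key1 hx (reg_mul hH g3 hx (by field_simp)) (reg_mul hH g5 hx (by field_simp))
      · change ∃ c, H (1 / C.y) c at g1
        change ∃ c, H (C.w / C.y) c at g5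
        rw [one_div] at g1
        exact key2 g1 g5
      · change ∃ c, H (C.x / (C.x * C.y)) c at g2
        change ∃ c, H (C.w / (C.x * C.y)) c at g5
        have h1 : C.x / (C.x * C.y) = C.y⁻¹ := by field_simp
        rw [h1] at g2
        exact key2 g2 (reg_mul hH g5 hx (by field_simp))
  · -- `x⁻¹` vanishes
    have hxn : ¬ ∃ c, H C.x c := by
      intro h
      have h1 := not_inv hH hx (inv_ne_zero hx0)
      rw [inv_inv] at h1
      exact h1 h
    have key4 : (∃ c, H C.y⁻¹ c) → (∃ c, H (C.w / (C.x * C.y)) c) → ∃ T, C.IsChart H T := by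
      rintro ⟨c, hc⟩ hw
      by_cases hc0 : c = 0
      · rw [hc0] at hc
        exact ⟨_, C.chart_b' hH hx hc hw⟩
      · have h1 := reg_inv hH hc hc0
        rw [inv_inv] at h1
        exact ⟨_, C.chart_a' hH hx h1 (reg_mul hH hw h1 (by field_simp))⟩
    rcases j with _ | ⟨p, q⟩
    · change ∃ c, H (C.x / C.w) c at g2
      change ∃ c, H (C.x * C.y / C.w) c at g4
      obtain ⟨c, hc⟩ := g2
      by_cases hc0 : c = 0
      · rw [hc0] at hc
        obtain ⟨d, hd⟩ := g4
        by_cases hd0 : d = 0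
        · rw [hd0] at hd
          exact ⟨_, C.chart_c' hH hx hc hd⟩
        · have h1 := reg_inv hH hd hd0
          rw [inv_div] at h1
          exact key4 (reg_mul hH ⟨_, hc⟩ h1 (by field_simp)) h1
      · have h1 := reg_inv hH hc hc0
        rw [inv_div] at h1
        exact ⟨_, C.chart_a' hH hx (reg_mul hH g4 h1 (by field_simp)) h1⟩
    · fin_cases p
      · change ∃ c, H (C.x / 1) c at g2
        rw [div_one] at g2
        exact absurd g2 hxn
      · change ∃ c, H (C.x * C.y / C.x) c at g4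
        change ∃ c, H (C.w / C.x) c at g5
        have h1 : C.x * C.y / C.x = C.y := by field_simp
        rw [h1] at g4
        exact ⟨_, C.chart_a' hH hx g4 g5⟩
      · change ∃ c, H (C.x * C.y / C.y) c at g4
        have h1 : C.x * C.y / C.y = C.x := by field_simp
        rw [h1] at g4
        exact absurd g4 hxn
      · change ∃ c, H (C.x / (C.x * C.y)) c at g2
        change ∃ c, H (C.w / (C.x * C.y)) c at g5
        have h1 : C.x / (C.x * C.y) = C.y⁻¹ := by field_simp
        rw [h1] at g2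
        exact key4 g2 g5

/-- The choice of a local generator. -/
theorem pick {H : K → ℂ → Prop} (hH : Place H) {i : Fin 5} {g : K} (hg : g ≠ 0)
    (hw : ∃ c, H (C.w / g) c) (hτ : ∃ c, H (C.τ i / g) c) (hz : ∃ c, H (C.z i / g) c)
    (h : ¬ (H (C.w / g) 0 ∧ H (C.τ i / g) 0 ∧ H (C.z i / g) 0)) :
    ∃ m, (m = C.w ∨ m = C.τ i ∨ m = C.D i) ∧ (∃ c, H (C.w / m) c) ∧
      (∃ c, H (C.τ i / m) c) ∧ ∃ c, H (C.D i / m) c := by
  have hw0 := C.w_ne
  have hτ0 := C.τ_ne i
  have hD0 := C.D_ne i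
  have hD : ∃ c, H (C.D i / g) c := reg_lin hH (1 - C.κ i) (C.κ i) hτ hz (by
    rw [C.D_eq i]
    ring)
  obtain ⟨cw, hcw⟩ := hw
  obtain ⟨cτ, hcτ⟩ := hτ
  obtain ⟨cD, hcD⟩ := hD
  by_cases h1 : cw = 0
  · by_cases h2 : cτ = 0
    · by_cases h3 : cD = 0
      · exfalso
        rw [h1] at hcw
        rw [h2] at hcτ
        rw [h3] at hcD
        refine h ⟨hcw, hcτ, ?_⟩
        have h4 := hH.add (hH.mul (hH.const (C.κ i)⁻¹) hcD)
          (hH.mul (hH.const (-((1 - C.κ i) / C.κ i))) hcτ)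
        rw [mul_zero, mul_zero, add_zero] at h4
        have h5 : algebraMap ℂ K (C.κ i)⁻¹ * (C.D i / g) +
            algebraMap ℂ K (-((1 - C.κ i) / C.κ i)) * (C.τ i / g) = C.z i / g := by
          have hκ : cc K (C.κ i) ≠ 0 := cc_ne (C.κ0 i)
          rw [C.D_eq i]
          rw [map_inv₀, map_neg, map_div₀]
          field_simp
          ring
        rwa [h5] at h4
      · have h4 := reg_inv hH hcD h3
        exact ⟨C.D i, Or.inr (Or.inr rfl), reg_mul hH ⟨_, hcw⟩ h4 (by field_simp),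
          reg_mul hH ⟨_, hcτ⟩ h4 (by field_simp), reg_mul hH ⟨_, hcD⟩ h4 (by field_simp)⟩
    · have h4 := reg_inv hH hcτ h2
      exact ⟨C.τ i, Or.inr (Or.inl rfl), reg_mul hH ⟨_, hcw⟩ h4 (by field_simp),
        reg_mul hH ⟨_, hcτ⟩ h4 (by field_simp), reg_mul hH ⟨_, hcD⟩ h4 (by field_simp)⟩
  · have h4 := reg_inv hH hcw h1
    exact ⟨C.w, Or.inl rfl, reg_mul hH ⟨_, hcw⟩ h4 (by field_simp),
      reg_mul hH ⟨_, hcτ⟩ h4 (by field_simp), reg_mul hH ⟨_, hcD⟩ h4 (by field_simp)⟩

theorem finish {H : K → ℂ → Prop} (hH : Place H) {i : Fin 5} (hx : H (C.τ i) 0)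
    (hy : H (C.z i) 0) (hw : H C.w 0) {m : K} (hm : m = C.w ∨ m = C.τ i ∨ m = C.D i)
    (h1 : ∃ c, H (C.w / m) c) (h2 : ∃ c, H (C.τ i / m) c) (h3 : ∃ c, H (C.D i / m) c)
    (h4 : (∃ c, H (C.D i / m ^ 2) c) ∨ ∃ c, H (m ^ 2 / C.D i) c) :
    ∃ r, ∀ q, ∃ c, H (C.par (.q i r) q) c := by
  have hD0 := C.D_ne i
  have hD : H (C.D i) 0 := by
    have h5 := hH.add (hH.mul (hH.const (1 - C.κ i)) hx) (hH.mul (hH.const (C.κ i)) hy)
    rw [mul_zero, mul_zero, add_zero] at h5
    rw [C.D_eq i]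
    exact h5
  rcases hm with hm | hm | hm
  · subst hm
    rcases h4 with h4 | h4
    · refine ⟨1, fun q => ?_⟩
      fin_cases q
      · exact ⟨_, hw⟩
      · exact h4
      · exact h2
    · refine ⟨3, fun q => ?_⟩
      fin_cases q
      · exact h4
      · exact h3
      · exact h2
  · subst hm
    rcases h4 with h4 | h4
    · refine ⟨0, fun q => ?_⟩
      fin_cases q
      · exact ⟨_, hx⟩
      · exact h4
      · exact h1
    · refine ⟨2, fun q => ?_⟩
      fin_cases q
      · exact h4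
      · exact h3
      · exact h1
  · subst hm
    rcases h4 with h4 | h4
    · exfalso
      have h5 : C.D i / C.D i ^ 2 = (C.D i)⁻¹ := by field_simp
      rw [h5] at h4
      exact not_inv hH hD hD0 h4
    · refine ⟨4, fun q => ?_⟩
      fin_cases q
      · exact ⟨_, hD⟩
      · exact h2
      · exact h1

/-- Regular ratios of the other elements. -/
theorem reg_ratio {H : K → ℂ → Prop} (hH : Place H) {i : Fin 5} {m : K}
    (h2 : ∃ c, H (C.τ i / m) c) (h3 : ∃ c, H (C.D i / m) c) :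
    (∃ c, H (C.η / m) c) ∧ ∃ c, H (C.z i / m) c := by
  have hκ : cc K (C.κ i) ≠ 0 := cc_ne (C.κ0 i)
  constructor
  · refine reg_lin hH (C.κ i)⁻¹ (-(C.κ i)⁻¹) h3 h2 ?_
    rw [cc_neg, cc_inv]
    simp only [D]
    field_simp
    ring
  · refine reg_lin hH (C.κ i)⁻¹ (-((1 - C.κ i) / C.κ i)) h3 h2 ?_
    rw [cc_neg, cc_inv, cc_div, C.D_eq i]
    field_simp
    ring

theorem cluster_self {H : K → ℂ → Prop} (hH : Place H) {i : Fin 5} (hx : H (C.τ i) 0)
    (hy : H (C.z i) 0) (hw : H C.w 0) (hM : GenAt H (C.sys (.M i i)))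
    (hN : GenAt H (C.sys (.N i i))) : ∃ r, ∀ q, ∃ c, H (C.par (.q i r) q) c := by
  have hw0 := C.w_ne
  have hτ0 := C.τ_ne i
  have hz0 := C.z_ne i
  have hD0 := C.D_ne i
  have hη0 := C.η_ne
  have hm3 : C.m i i 3 = C.τ i := if_pos rfl
  have hone : ¬ H (1 : K) 0 := fun h => one_ne_zero (hH.uniq hH.one h)
  -- the generator of `M i i`
  have hpick : ∃ m, (m = C.w ∨ m = C.τ i ∨ m = C.D i) ∧ (∃ c, H (C.w / m) c) ∧
      (∃ c, H (C.τ i / m) c) ∧ ∃ c, H (C.D i / m) c := by
    obtain ⟨j, hj, hr⟩ := hM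
    rcases j with _ | ⟨p, q⟩
    · exact absurd rfl hj
    · have hj' : C.m i i p ≠ 0 := hj
      have g0 : ∃ c, H (C.w / C.m i i p) c := hr (some (0, 0))
      have g1 : ∃ c, H (C.η / C.m i i p) c := hr (some (1, 0))
      have g3 : ∃ c, H (C.m i i 3 / C.m i i p) c := hr (some (3, 0))
      rw [hm3] at g3
      have g4 : ∃ c, H (C.z i / C.m i i p) c := reg_lin hH 1 1 g1 g3 (by
        rw [cc_one]
        simp only [z, τ, η]
        ring)
      refine C.pick hH hj' g0 g3 g4 ?_
      rintro ⟨k1, k2, k3⟩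
      fin_cases p
      · change H (C.w / C.w) 0 at k1
        rw [div_self hw0] at k1
        exact hone k1
      · change H (C.τ i / C.η) 0 at k2
        change H (C.z i / C.η) 0 at k3
        have k4 := hH.sub k3 k2
        rw [sub_zero] at k4
        have k5 : C.z i / C.η - C.τ i / C.η = 1 := by
          rw [← sub_div, div_eq_one_iff_eq hη0]
          simp only [z, τ, η]
          ring
        rw [k5] at k4
        exact hone k4
      · change ∃ c, H (C.τ i / (C.τ i * C.z i)) c at g3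
        have k4 : C.τ i / (C.τ i * C.z i) = (C.z i)⁻¹ := by field_simp
        rw [k4] at g3
        exact not_inv hH hy hz0 g3
      · change H (C.τ i / C.m i i 3) 0 at k2
        rw [hm3, div_self hτ0] at k2
        exact hone k2
  obtain ⟨m, hm, h1, h2, h3⟩ := hpick
  have hm0 : m ≠ 0 := by
    rcases hm with h | h | h
    · rw [h]; exact hw0
    · rw [h]; exact hτ0
    · rw [h]; exact hD0
  obtain ⟨h4, h5⟩ := C.reg_ratio hH h2 h3
  refine C.finish hH hx hy hw hm h1 h2 h3 ?_
  obtain ⟨j, hj, hr⟩ := hN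
  rcases j with _ | ⟨p, q⟩
  · right
    have e1 : C.sys (.N i i) none = C.D i := if_pos rfl
    have g0 := hr (some (0, 0))
    have g3 := hr (some (3, 3))
    rw [e1] at g0 g3
    change ∃ c, H (C.w * C.w / C.D i) c at g0
    change ∃ c, H (C.m i i 3 * C.m i i 3 / C.D i) c at g3
    rw [hm3] at g3
    rcases hm with h | h | h
    · rw [h, pow_two]; exact g0
    · rw [h, pow_two]; exact g3
    · rw [h]
      have hD : ∃ c, H (C.D i) c := reg_lin hH (1 - C.κ i) (C.κ i) ⟨_, hx⟩ ⟨_, hy⟩ (C.D_eq i)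
      have e2 : C.D i ^ 2 / C.D i = C.D i := by field_simp
      rw [e2]
      exact hD
  · left
    have hj' : C.m i i p * C.m i i q ≠ 0 := hj
    have g0 := hr none
    have e1 : C.sys (.N i i) none = C.D i := if_pos rfl
    rw [e1] at g0
    change ∃ c, H (C.D i / (C.m i i p * C.m i i q)) c at g0
    have key : ∀ p, ∃ c, H (C.m i i p / m) c := by
      intro p
      fin_cases p
      · exact h1
      · exact h4
      · exact reg_mul hH (a := C.τ i / m) (b := C.z i) h2 ⟨_, hy⟩ (by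
          change C.τ i * C.z i / m = _
          ring)
      · change ∃ c, H (C.m i i 3 / m) c
        rw [hm3]
        exact h2
    exact reg_mul hH (reg_mul hH (key p) (key q) rfl) g0 (by
      have k1 := left_ne_zero_of_mul hj'
      have k2 := right_ne_zero_of_mul hj'
      field_simp)

theorem cluster_other {H : K → ℂ → Prop} (hH : Place H) {i j : Fin 5} (hij : i ≠ j)
    (hx : H (C.τ j) 0) (hy : H (C.z j) 0) (hw : H C.w 0) (hM : GenAt H (C.sys (.M i j)))
    (hN : GenAt H (C.sys (.N i j))) : ∃ r, ∀ q, ∃ c, H (C.par (.q j r) q) c := by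
  have hw0 := C.w_ne
  have hτi0 := C.τ_ne i
  have hτ0 := C.τ_ne j
  have hz0 := C.z_ne j
  have hD0 := C.D_ne j
  have hη0 := C.η_ne
  have hh0 := C.h_ne i j
  have htt : tt j - tt i ≠ 0 := tt_sub hij.symm
  have htt' : cc K (tt j - tt i) ≠ 0 := cc_ne htt
  have hone : ¬ H (1 : K) 0 := fun h => one_ne_zero (hH.uniq hH.one h)
  have hτi : H (C.τ i) (tt j - tt i) := by
    have h1 := hH.add hx (hH.const (tt j - tt i))
    rw [zero_add] at h1
    have h2 : C.τ j + algebraMap ℂ K (tt j - tt i) = C.τ i := by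
      rw [map_sub]
      simp only [τ, cc]
      ring
    rwa [h2] at h1
  have hτi' := reg_inv hH hτi htt
  -- the generator of `M i j`
  have hpick : ∃ m, (m = C.w ∨ m = C.τ j ∨ m = C.D j) ∧ (∃ c, H (C.w / m) c) ∧
      (∃ c, H (C.τ j / m) c) ∧ ∃ c, H (C.D j / m) c := by
    obtain ⟨k, hk, hr⟩ := hM
    rcases k with _ | ⟨p, q⟩
    · exact absurd rfl hk
    · have hj' : C.m i j p ≠ 0 := hk
      have g0 : ∃ c, H (C.w / C.m i j p) c := hr (some (0, 0))
      have g1 : ∃ c, H (C.η / C.m i j p) c := hr (some (1, 0))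
      have g2 : ∃ c, H (C.τ i * C.z j / C.m i j p) c := hr (some (2, 0))
      have g4 : ∃ c, H (C.z j / C.m i j p) c := reg_mul hH g2 hτi' (by field_simp)
      have g3 : ∃ c, H (C.τ j / C.m i j p) c := reg_lin hH 1 (-1) g4 g1 (by
        rw [cc_neg, cc_one]
        simp only [z, τ, η]
        ring)
      refine C.pick hH hj' g0 g3 g4 ?_
      rintro ⟨k1, k2, k3⟩
      fin_cases p
      · change H (C.w / C.w) 0 at k1
        rw [div_self hw0] at k1
        exact hone k1
      · change H (C.τ j / C.η) 0 at k2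
        change H (C.z j / C.η) 0 at k3
        have k4 := hH.sub k3 k2
        rw [sub_zero] at k4
        have k5 : C.z j / C.η - C.τ j / C.η = 1 := by
          rw [← sub_div, div_eq_one_iff_eq hη0]
          simp only [z, τ, η]
          ring
        rw [k5] at k4
        exact hone k4
      · change H (C.z j / (C.τ i * C.z j)) 0 at k3
        have k4 : C.z j / (C.τ i * C.z j) = (C.τ i)⁻¹ := by field_simp
        rw [k4] at k3
        exact inv_ne_zero htt (hH.uniq (hH.inv hτi htt) k3)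
      · exact hj' (if_neg hij)
  obtain ⟨m, hm, h1, h2, h3⟩ := hpick
  have hm0 : m ≠ 0 := by
    rcases hm with h | h | h
    · rw [h]; exact hw0
    · rw [h]; exact hτ0
    · rw [h]; exact hD0
  obtain ⟨h4, h5⟩ := C.reg_ratio hH h2 h3
  refine C.finish hH hx hy hw hm h1 h2 h3 ?_
  -- from `h` to `D`
  have hDm : (∃ c, H (C.h i j / m ^ 2) c) → ∃ c, H (C.D j / m ^ 2) c := by
    intro g
    refine reg_lin hH 1 (-(tt j - tt i)⁻¹) g (reg_mul hH h2 h5 rfl) ?_
    rw [cc_one, cc_neg, cc_inv]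
    simp only [Cfg.h]
    field_simp
    ring
  obtain ⟨k, hk, hr⟩ := hN
  have e1 : C.sys (.N i j) none = C.h i j * C.τ i := if_neg hij
  rcases k with _ | ⟨p, q⟩
  · -- the generator is `h τ`
    rw [e1] at hr
    have g0 : ∃ c, H (C.w * C.w / (C.h i j * C.τ i)) c := hr (some (0, 0))
    have g1 : ∃ c, H (C.η * C.η / (C.h i j * C.τ i)) c := hr (some (1, 1))
    have g2 : ∃ c, H (C.η * (C.τ i * C.z j) / (C.h i j * C.τ i)) c := hr (some (1, 2))
    have g3 : ∃ c, H (C.τ i * C.z j * (C.τ i * C.z j) / (C.h i j * C.τ i)) c := hr (some (2, 2))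
    have f0 : ∃ c, H (C.w ^ 2 / C.h i j) c := reg_mul hH g0 ⟨_, hτi⟩ (by field_simp)
    have f1 : ∃ c, H (C.η ^ 2 / C.h i j) c := reg_mul hH g1 ⟨_, hτi⟩ (by field_simp)
    have f2 : ∃ c, H (C.η * C.z j / C.h i j) c := reg_mul hH g2 (c := C.η * C.z j / C.h i j)
      (b := 1) ⟨_, hH.one⟩ (by field_simp)
    have f3 : ∃ c, H (C.z j ^ 2 / C.h i j) c := reg_mul hH g3 hτi' (by field_simp)
    have f4 : ∃ c, H (m ^ 2 / C.h i j) c := by
      rcases hm with h | h | h
      · rw [h]; exact f0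
      · rw [h]
        refine reg_lin hH 1 1 (reg_lin hH 1 (-2) f3 f2 rfl) f1 ?_
        rw [cc_one, cc_neg]
        have : cc K 2 = 2 := map_ofNat _ _
        rw [this]
        have e2 : C.τ j = C.z j - C.η := by
          simp only [z, τ, η]
          ring
        rw [e2]
        field_simp
        ring
      · rw [h]
        refine reg_lin hH 1 ((1 - C.κ j) ^ 2) (reg_lin hH 1 (-2 * (1 - C.κ j)) f3 f2 rfl) f1 ?_
        have e2 : C.D j = C.z j - cc K (1 - C.κ j) * C.η := by
          rw [cc_sub, cc_one]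
          simp only [D, z, τ, η]
          ring
        have e3 : cc K (-2 * (1 - C.κ j)) = -2 * cc K (1 - C.κ j) := by
          rw [cc_mul, cc_neg]
          have : cc K 2 = 2 := map_ofNat _ _
          rw [this]
        have e4 : cc K ((1 - C.κ j) ^ 2) = cc K (1 - C.κ j) ^ 2 := map_pow _ _ _
        rw [e2, e3, e4, cc_one]
        field_simp
        ring
    obtain ⟨c, hc⟩ := f4
    by_cases hc0 : c = 0
    · right
      rw [hc0] at hc
      obtain ⟨a, ha⟩ := h2
      obtain ⟨b, hb⟩ := h5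
      have k1 := hH.sub hH.one (hH.mul (hH.const (tt j - tt i)⁻¹) (hH.mul (hH.mul ha hb) hc))
      rw [mul_zero, mul_zero, sub_zero] at k1
      have k2 : 1 - algebraMap ℂ K (tt j - tt i)⁻¹ *
          (C.τ j / m * (C.z j / m) * (m ^ 2 / C.h i j)) = C.D j / C.h i j := by
        rw [map_inv₀, eq_div_iff hh0]
        conv_rhs => rw [← add_sub_cancel_right (C.D j) (C.τ j * C.z j / cc K (tt j - tt i))]
        change _ = C.h i j - C.τ j * C.z j / cc K (tt j - tt i)
        field_simp
      rw [k2] at k1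
      have k3 := reg_inv hH k1 one_ne_zero
      exact reg_mul hH ⟨_, hc⟩ k3 (by field_simp)
    · left
      have k1 := reg_inv hH hc hc0
      rw [inv_div] at k1
      exact hDm k1
  · left
    have hj' : C.m i j p * C.m i j q ≠ 0 := hk
    have g0 := hr none
    rw [e1] at g0
    change ∃ c, H (C.h i j * C.τ i / (C.m i j p * C.m i j q)) c at g0
    have key : ∀ p, ∃ c, H (C.m i j p / m) c := by
      intro p
      fin_cases p
      · exact h1
      · exact h4
      · exact reg_mul hH (a := C.z j / m) (b := C.τ i) h5 ⟨_, hτi⟩ (by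
          change C.τ i * C.z j / m = _
          ring)
      · change ∃ c, H (C.m i j 3 / m) c
        have e2 : C.m i j 3 = 0 := if_neg hij
        rw [e2, zero_div]
        exact ⟨_, hH.zero⟩
    refine hDm (reg_mul hH (reg_mul hH (reg_mul hH (key p) (key q) rfl) g0 rfl) hτi' ?_)
    have k1 := left_ne_zero_of_mul hj'
    have k2 := right_ne_zero_of_mul hj'
    field_simp

end Cfg

end Pool.Agent.Helper43.Fl
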