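import Pool.Agent.Helper43.FlPts

open scoped KaehlerDifferential

noncomputable section

namespace Pool.Agent.Helper43.Fl

open Pool.Agent.Helper43 Pool.Agent.Helper43.ProjVar

variable {K : Type} [Field K] [Algebra ℂ K]

namespace Cfg

open MvPolynomial in
/-- The forms on the curve `T`. -/
def fT : Ix → J → MvPolynomial (Fin 2) ℂ
  | .U, some (p, _) => (![X 0, X 1, 0, 0] : Fin 4 → MvPolynomial (Fin 2) ℂ) p
  | .U, none => 0
  | .S, some _ => 0
  | .S, none => 1
  | .M _ _, some (p, _) => if p = 0 then 1 else 0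
  | .M _ _, none => 0
  | .N _ _, some (p, q) => (if p = 0 then 1 else 0) * (if q = 0 then 1 else 0)
  | .N _ _, none => 0
  | .V, _ => 1
  | .W, _ => 1
  | .F _, _ => 1

/-- The generators on the curve `T`. -/
def gT (b : Fin 4) : Ix → J
  | .U => some (b, 0)
  | .S => none
  | _ => some (0, 0)

variable (C : Cfg K)

/-- The place has its centre on the curve `T`. -/
structure OnT (H : K → ℂ → Prop) : Prop where
  a : H C.w⁻¹ 0
  b : H (C.x / C.w) 0
  c : H (C.y / C.w) 0
  d : H (C.x * C.y / C.w) 0

/-- The position on the curve. -/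
def Crv (H : K → ℂ → Prop) (s : Fin 2 → ℂ) : Prop :=
  (s 0 ≠ 0 ∧ H C.x (s 1 / s 0)) ∨ (s 1 ≠ 0 ∧ H C.x⁻¹ (s 0 / s 1))

section

variable {C} {H : K → ℂ → Prop} (hH : Place H) (h : C.OnT H)
include hH h

theorem OnT.val_m (i j : Fin 5) (p : Fin 4) : H (C.m i j p / C.w) (if p = 0 then 1 else 0) := by
  have hw := C.w_ne
  have hη : H (C.η / C.w) 0 := by
    have h1 := hH.sub h.c h.b
    have e : C.y / C.w - C.x / C.w = C.η / C.w := by unfold η; ring
    rwa [e, sub_zero] at h1
  have hτ : ∀ i, H (C.τ i / C.w) 0 := by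
    intro i
    have h1 := hH.sub h.b (hH.mul (hH.const (tt i)) h.a)
    have e : C.x / C.w - algebraMap ℂ K (tt i) * C.w⁻¹ = C.τ i / C.w := by
      unfold τ; ring
    rwa [e, mul_zero, sub_zero] at h1
  have hτz : H (C.τ i * C.z j / C.w) 0 := by
    have h1 := hH.sub (hH.sub h.d (hH.mul (hH.const (tt i)) h.c)) (hH.mul (hH.const (tt j)) (hτ i))
    have e : C.x * C.y / C.w - algebraMap ℂ K (tt i) * (C.y / C.w) -
        algebraMap ℂ K (tt j) * (C.τ i / C.w) = C.τ i * C.z j / C.w := by
      unfold τ z; ring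
    rwa [e, mul_zero, mul_zero, sub_zero, sub_zero] at h1
  fin_cases p
  · simpa [m, hw] using hH.one
  · simpa [m] using hη
  · simpa [m] using hτz
  · by_cases hij : i = j
    · simpa [m, hij] using hτ j
    · simpa [m, hij] using hH.zero

theorem OnT.val_τ (i : Fin 5) : H (C.τ i / C.w) 0 := by
  have h1 := hH.sub h.b (hH.mul (hH.const (tt i)) h.a)
  have e : C.x / C.w - algebraMap ℂ K (tt i) * C.w⁻¹ = C.τ i / C.w := by
    unfold Cfg.τ; ring
  rwa [e, mul_zero, sub_zero] at h1

theorem OnT.val_D (i : Fin 5) : H (C.D i / C.w) 0 := by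
  have h1 := hH.add (h.val_τ hH i) (hH.mul (hH.const (C.κ i)) (h.val_m hH i i 1))
  have e : C.τ i / C.w + algebraMap ℂ K (C.κ i) * (C.m i i 1 / C.w) = C.D i / C.w := by
    simp only [Cfg.D, Cfg.m, Matrix.cons_val_one, Matrix.cons_val_zero]; ring
  rw [e] at h1
  simpa using h1

theorem OnT.val_h (i j : Fin 5) : H (C.h i j / C.w) 0 := by
  have h2 : H (C.τ j * C.z j / C.w) 0 := by
    have := h.val_m hH j j 2
    simpa [Cfg.m] using this
  have h1 := hH.add (h.val_D hH j) (hH.mul h2 (hH.const (tt j - tt i)⁻¹))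
  have e : C.D j / C.w + C.τ j * C.z j / C.w * algebraMap ℂ K (tt j - tt i)⁻¹ = C.h i j / C.w := by
    simp only [Cfg.h, map_inv₀]
    ring
  rw [e] at h1
  simpa using h1

/-- The values of the systems different from `U`. -/
theorem OnT.vals (b : Fin 4) (s : Fin 2 → ℂ) {a : Ix} (ha : a ≠ .U) :
    C.ext inX a (gT b a) ≠ 0 ∧
      ∀ j, H (C.ext inX a j / C.ext inX a (gT b a)) (MvPolynomial.eval s (fT a j)) := by
  have hw := C.w_ne
  cases a with
  | U => exact absurd rfl ha
  | V =>
    rw [C.ext_false (s := inX) (a := .V) rfl]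
    refine ⟨one_ne_zero, fun j => ?_⟩
    simpa [fT] using hH.one
  | W =>
    rw [C.ext_false (s := inX) (a := .W) rfl]
    refine ⟨one_ne_zero, fun j => ?_⟩
    simpa [fT] using hH.one
  | F i =>
    rw [C.ext_false (s := inX) (a := .F i) rfl]
    refine ⟨one_ne_zero, fun j => ?_⟩
    simpa [fT] using hH.one
  | S =>
    rw [C.ext_true (s := inX) (a := .S) rfl]
    refine ⟨by simpa [gT, sys] using hw, fun j => ?_⟩
    rcases j with _ | ⟨p, q⟩
    · simpa [fT, gT, sys, hw] using hH.one
    · fin_cases p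
      · simpa [fT, gT, sys] using h.a
      · simpa [fT, gT, sys] using h.b
      · simpa [fT, gT, sys] using h.c
      · simpa [fT, gT, sys] using h.d
  | M i j =>
    rw [C.ext_true (s := inX) (a := .M i j) rfl]
    refine ⟨by simpa [gT, sys, m] using hw, fun l => ?_⟩
    rcases l with _ | ⟨p, q⟩
    · simpa [fT, gT, sys] using hH.zero
    · have h1 := h.val_m hH i j p
      have e : C.sys (.M i j) (gT b (.M i j)) = C.w := by simp [gT, sys, m]
      rw [e]
      by_cases hp : p = 0
      · simpa [fT, sys, hp] using h1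
      · simpa [fT, sys, hp] using h1
  | N i j =>
    rw [C.ext_true (s := inX) (a := .N i j) rfl]
    have e : C.sys (.N i j) (gT b (.N i j)) = C.w * C.w := by simp [gT, sys, m]
    rw [e]
    refine ⟨mul_ne_zero hw hw, fun l => ?_⟩
    rcases l with _ | ⟨p, q⟩
    · by_cases hij : i = j
      · have h1 := hH.mul (h.val_D hH i) h.a
        have e1 : C.D i / C.w * C.w⁻¹ = C.sys (.N i j) none / (C.w * C.w) := by
          simp only [sys, hij, if_true]
          field_simp
        rw [e1] at h1
        simpa [fT] using h1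
      · have h1 := hH.mul (h.val_h hH i j) (h.val_τ hH i)
        have e1 : C.h i j / C.w * (C.τ i / C.w) = C.sys (.N i j) none / (C.w * C.w) := by
          simp only [sys, if_neg hij]
          field_simp
        rw [e1] at h1
        simpa [fT] using h1
    · have h1 := hH.mul (h.val_m hH i j p) (h.val_m hH i j q)
      have e1 : C.m i j p / C.w * (C.m i j q / C.w) = C.sys (.N i j) (some (p, q)) / (C.w * C.w) := by
        simp only [sys]
        field_simp
      rw [e1] at h1
      have e2 : MvPolynomial.eval s (fT (.N i j) (some (p, q))) =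
          (if p = 0 then (1 : ℂ) else 0) * (if q = 0 then (1 : ℂ) else 0) := by
        simp only [fT, map_mul]
        congr 1
        · split_ifs <;> simp
        · split_ifs <;> simp
      rw [e2]
      exact h1

/-- The values of all systems. -/
theorem OnT.vals' {s : Fin 2 → ℂ} (hs : C.Crv H s) :
    ∃ (r : ℂ) (g : Ix → J), r ≠ 0 ∧ (∀ a, C.ext inX a (g a) ≠ 0) ∧ ∀ a j,
      H (C.ext inX a j / C.ext inX a (g a))
        ((if a = .U then r⁻¹ else 1) * MvPolynomial.eval s (fT a j)) := by
  have hx := C.x_ne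
  rcases hs with ⟨h0, h1⟩ | ⟨h0, h1⟩
  · refine ⟨s 0, gT 0, h0, fun a => ?_, fun a j => ?_⟩
    · by_cases ha : a = .U
      · subst ha
        simp [ext, inX, gT, sys]
      · exact (h.vals hH 0 s ha).1
    · by_cases ha : a = .U
      · subst ha
        rw [C.ext_true (s := inX) (a := .U) rfl, if_pos rfl]
        rcases j with _ | ⟨p, q⟩
        · simpa [fT, gT, sys] using hH.zero
        · fin_cases p
          · simpa [fT, gT, sys, h0] using hH.one
          · rw [div_eq_inv_mul] at h1
            simpa [fT, gT, sys] using h1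
          · simpa [fT, gT, sys] using hH.zero
          · simpa [fT, gT, sys] using hH.zero
      · rw [if_neg ha, one_mul]
        exact (h.vals hH 0 s ha).2 j
  · refine ⟨s 1, gT 1, h0, fun a => ?_, fun a j => ?_⟩
    · by_cases ha : a = .U
      · subst ha
        simpa [ext, inX, gT, sys] using hx
      · exact (h.vals hH 1 s ha).1
    · by_cases ha : a = .U
      · subst ha
        rw [C.ext_true (s := inX) (a := .U) rfl, if_pos rfl]
        rcases j with _ | ⟨p, q⟩
        · simpa [fT, gT, sys] using hH.zero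
        · fin_cases p
          · rw [div_eq_inv_mul] at h1
            simpa [fT, gT, sys] using h1
          · simpa [fT, gT, sys, h0, hx] using hH.one
          · simpa [fT, gT, sys] using hH.zero
          · simpa [fT, gT, sys] using hH.zero
      · rw [if_neg ha, one_mul]
        exact (h.vals hH 1 s ha).2 j

end

/-- The forms of the curve. -/
def cT (e : Ix → J) : MvPolynomial (Fin 2) ℂ := ∏ a, fT a (e a)

theorem eval_cT (s : Fin 2 → ℂ) (e : Ix → J) :
    MvPolynomial.eval s (cT e) = ∏ a, MvPolynomial.eval s (fT a (e a)) := by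
  simp [cT, map_prod]

theorem prod_U (r : ℂ) (f : Ix → ℂ) : ∏ a, (if a = Ix.U then r else 1) * f a = r * ∏ a, f a := by
  rw [Finset.prod_mul_distrib, Finset.prod_ite_eq' Finset.univ Ix.U fun _ => r]
  simp

/-- The points on the curve. -/
theorem onCurve_T {P : (C.on inX).Pt} (h : C.OnT (HasVal P)) {s : Fin 2 → ℂ}
    (hs : C.Crv (HasVal P) s) : OnCurve (X := C.on inX) cT P := by
  obtain ⟨r, g, hr, hg, hv⟩ := h.vals' (place P) hs
  obtain ⟨-, h1⟩ := C.pts_coord P hg hv
  refine ⟨s, P.p g * r⁻¹, fun e => ?_⟩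
  have h2 : MvPolynomial.eval s (cT e) = ∏ a, MvPolynomial.eval s (fT a ((e : Ix → J) a)) :=
    eval_cT s e
  rw [h2, h1 e, prod_U, mul_assoc]

theorem place_T {s : Fin 2 → ℂ} (hs : s ≠ 0) :
    ∃ H : K → ℂ → Prop, Place H ∧ C.OnT H ∧ C.Crv H s := by
  have hx := C.x_ne
  have hy := C.y_ne
  have hw := C.w_ne
  by_cases h0 : s 0 = 0
  · have h1 : s 1 ≠ 0 := by
      intro h1
      apply hs
      funext i
      fin_cases i
      · exact h0
      · exact h1
    have hind : AlgebraicIndependent ℂ ![C.x⁻¹, C.x / C.w, C.x * C.y / C.w] := by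
      set E := IntermediateField.adjoin ℂ (Set.range ![C.x⁻¹, C.x / C.w, C.x * C.y / C.w]) with hE
      have m0 : C.x⁻¹ ∈ E := IntermediateField.subset_adjoin _ _ ⟨0, rfl⟩
      have m1 : C.x / C.w ∈ E := IntermediateField.subset_adjoin _ _ ⟨1, rfl⟩
      have m2 : C.x * C.y / C.w ∈ E := IntermediateField.subset_adjoin _ _ ⟨2, rfl⟩
      refine C.ind_of_mem _ ?_ ?_ ?_
      · have := inv_mem m0
        rwa [inv_inv] at this
      · have := div_mem m2 m1
        have e : C.x * C.y / C.w / (C.x / C.w) = C.y := by field_simp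
        rwa [e] at this
      · have := inv_mem (mul_mem m0 m1)
        have e : (C.x⁻¹ * (C.x / C.w))⁻¹ = C.w := by field_simp
        rwa [e] at this
    obtain ⟨H, hH, hv⟩ := exists_place hind ![0, 0, 0]
    have v0 : H C.x⁻¹ 0 := hv 0
    have v1 : H (C.x / C.w) 0 := hv 1
    have v2 : H (C.x * C.y / C.w) 0 := hv 2
    refine ⟨H, hH, ⟨?_, v1, ?_, v2⟩, Or.inr ⟨h1, ?_⟩⟩
    · have := hH.mul v0 v1
      have e : C.x⁻¹ * (C.x / C.w) = C.w⁻¹ := by field_simp
      rwa [e, mul_zero] at this
    · have := hH.mul v0 v2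
      have e : C.x⁻¹ * (C.x * C.y / C.w) = C.y / C.w := by field_simp
      rwa [e, mul_zero] at this
    · rw [h0, zero_div]
      exact v0
  · have hind : AlgebraicIndependent ℂ ![C.x, C.w⁻¹, C.y / C.w] := by
      set E := IntermediateField.adjoin ℂ (Set.range ![C.x, C.w⁻¹, C.y / C.w]) with hE
      have m0 : C.x ∈ E := IntermediateField.subset_adjoin _ _ ⟨0, rfl⟩
      have m1 : C.w⁻¹ ∈ E := IntermediateField.subset_adjoin _ _ ⟨1, rfl⟩
      have m2 : C.y / C.w ∈ E := IntermediateField.subset_adjoin _ _ ⟨2, rfl⟩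
      refine C.ind_of_mem _ m0 ?_ ?_
      · have := div_mem m2 m1
        have e : C.y / C.w / C.w⁻¹ = C.y := by field_simp
        rwa [e] at this
      · have := inv_mem m1
        rwa [inv_inv] at this
    obtain ⟨H, hH, hv⟩ := exists_place hind ![s 1 / s 0, 0, 0]
    have v0 : H C.x (s 1 / s 0) := hv 0
    have v1 : H C.w⁻¹ 0 := hv 1
    have v2 : H (C.y / C.w) 0 := hv 2
    refine ⟨H, hH, ⟨v1, ?_, v2, ?_⟩, Or.inl ⟨h0, v0⟩⟩
    · have := hH.mul v0 v1
      rwa [mul_zero, ← div_eq_mul_inv] at this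
    · have := hH.mul v0 v2
      rwa [mul_zero, ← mul_div_assoc] at this

/-- All values of the forms are points. -/
theorem mem_T {s : Fin 2 → ℂ} (hs : s ≠ 0) :
    ∃ P : (C.on inX).Pt, ∀ e : Ix → J, P.p e = MvPolynomial.eval s (cT e) := by
  obtain ⟨H, hH, h, hc⟩ := C.place_T hs
  obtain ⟨r, g, hr, hg, hv⟩ := h.vals' hH hc
  obtain ⟨P, hP⟩ := C.pts_exists hH hg hv hr
  refine ⟨P, fun e => ?_⟩
  rw [hP e, prod_U, eval_cT, ← mul_assoc, mul_inv_cancel₀ hr, one_mul]

theorem homog_fT (a : Ix) (j : J) : (fT a j).IsHomogeneous (if a = .U then 1 else 0) := by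
  cases a with
  | U =>
    rw [if_pos rfl]
    rcases j with _ | ⟨p, q⟩
    · exact MvPolynomial.isHomogeneous_zero _ _ _
    · fin_cases p
      · exact MvPolynomial.isHomogeneous_X _ _
      · exact MvPolynomial.isHomogeneous_X _ _
      · exact MvPolynomial.isHomogeneous_zero _ _ _
      · exact MvPolynomial.isHomogeneous_zero _ _ _
  | S =>
    rw [if_neg (by simp)]
    rcases j with _ | ⟨p, q⟩
    · exact MvPolynomial.isHomogeneous_one _ _
    · exact MvPolynomial.isHomogeneous_zero _ _ _
  | V =>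
    rw [if_neg (by simp)]
    exact MvPolynomial.isHomogeneous_one _ _
  | W =>
    rw [if_neg (by simp)]
    exact MvPolynomial.isHomogeneous_one _ _
  | F i =>
    rw [if_neg (by simp)]
    exact MvPolynomial.isHomogeneous_one _ _
  | M i l =>
    rw [if_neg (by simp)]
    rcases j with _ | ⟨p, q⟩
    · exact MvPolynomial.isHomogeneous_zero _ _ _
    · simp only [fT]
      split_ifs
      · exact MvPolynomial.isHomogeneous_one _ _
      · exact MvPolynomial.isHomogeneous_zero _ _ _
  | N i l =>
    rw [if_neg (by simp)]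
    rcases j with _ | ⟨p, q⟩
    · exact MvPolynomial.isHomogeneous_zero _ _ _
    · simp only [fT]
      split_ifs
      · simpa using MvPolynomial.isHomogeneous_one (Fin 2) ℂ
      · simpa using MvPolynomial.isHomogeneous_zero (Fin 2) ℂ 0
      · simpa using MvPolynomial.isHomogeneous_zero (Fin 2) ℂ 0
      · simpa using MvPolynomial.isHomogeneous_zero (Fin 2) ℂ 0

theorem homog_T (e : Ix → J) : (cT e).IsHomogeneous 1 := by
  have h := MvPolynomial.IsHomogeneous.prod (Finset.univ : Finset Ix) (fun a => fT a (e a))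
    (fun a => if a = .U then 1 else 0) fun a _ => homog_fT a (e a)
  rw [Finset.sum_ite_eq' Finset.univ Ix.U fun _ => 1] at h
  simpa [cT] using h

theorem eval_gT (s : Fin 2 → ℂ) (b : Fin 4) :
    MvPolynomial.eval s (cT (gT b)) = MvPolynomial.eval s (fT .U (gT b .U)) := by
  rw [eval_cT, Finset.prod_eq_single Ix.U]
  · intro a _ ha
    cases a with
    | U => exact absurd rfl ha
    | _ => simp [fT, gT]
  · intro h
    exact absurd (Finset.mem_univ _) h

theorem curve_T : (C.on inX).IsRatCurve 1 cT where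
  homog := homog_T
  mem s hs := C.mem_T hs
  nonconst := by
    refine ⟨![1, 0], ![0, 1], (gT 0 : Ix → J), (gT 1 : Ix → J), ?_⟩
    rw [eval_gT, eval_gT, eval_gT, eval_gT]
    simp [fT, gT]

/-- The points of the curve. -/
theorem onT_of_curve {P : (C.on inX).Pt} (h : OnCurve (X := C.on inX) cT P) :
    C.OnT (HasVal P) := by
  obtain ⟨s, r, h⟩ := h
  obtain ⟨e, he⟩ : ∃ e : Ix → J, P.p e ≠ 0 := P.exists_ne
  have h1 : P.p e = r * MvPolynomial.eval s (cT e) := h e
  have h2 : MvPolynomial.eval s (cT e) ≠ 0 := by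
    intro h0
    rw [h0, mul_zero] at h1
    exact he h1
  have h3 : e .S = none := by
    rw [eval_cT] at h2
    have h4 := Finset.prod_ne_zero_iff.mp h2 Ix.S (Finset.mem_univ _)
    rcases h5 : e .S with _ | ⟨p, q⟩
    · rfl
    · rw [h5] at h4
      simp [fT] at h4
  have h4 : ∀ p : Fin 4, HasVal P (C.sys .S (some (p, 0)) / C.w) 0 := by
    intro p
    have h5 := C.pts_update he (a := .S) rfl (some (p, 0))
    have h6 : P.p (Function.update e .S (some (p, 0))) = 0 := by
      have h7 : P.p (Function.update e .S (some (p, 0))) =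
        r * MvPolynomial.eval s (cT (Function.update e .S (some (p, 0)))) := h _
      rw [h7, eval_cT, Finset.prod_eq_zero (Finset.mem_univ Ix.S), mul_zero]
      rw [Function.update_self]
      simp [fT]
    rw [h6, zero_div, h3] at h5
    exact h5
  refine ⟨?_, ?_, ?_, ?_⟩
  · simpa [sys] using h4 0
  · simpa [sys] using h4 1
  · simpa [sys] using h4 2
  · simpa [sys] using h4 3

theorem crv_exists (P : (C.on inX).Pt) : ∃ s, C.Crv (HasVal P) s := by
  have hx := C.x_ne
  obtain ⟨j, hj, hr⟩ := C.on_gen P (a := .U) rfl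
  rcases j with _ | ⟨p, q⟩
  · exact absurd rfl hj
  · fin_cases p
    · obtain ⟨c, hc⟩ := hr (some (1, 0))
      refine ⟨![1, c], Or.inl ⟨by simp, ?_⟩⟩
      simpa [sys] using hc
    · obtain ⟨c, hc⟩ := hr (some (0, 0))
      refine ⟨![c, 1], Or.inr ⟨by simp, ?_⟩⟩
      simpa [sys] using hc
    · exact absurd rfl hj
    · exact absurd rfl hj

/-- A generator of `S`: either `x` or its inverse is regular, or the place lies on the curve. -/
theorem dich_T {H : K → ℂ → Prop} (hH : Place H) (hS : GenAt H (C.sys .S)) :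
    GenAt H (C.sys .U) ∨ C.OnT H := by
  have hx := C.x_ne
  have hy := C.y_ne
  have hw := C.w_ne
  have c1 : (∃ c, H C.x c) → GenAt H (C.sys .U) := by
    rintro ⟨c, hc⟩
    refine ⟨some (0, 0), by simp [sys], fun i => ?_⟩
    rcases i with _ | ⟨p, q⟩
    · exact ⟨0, by simpa [sys] using hH.zero⟩
    · fin_cases p
      · exact ⟨1, by simpa [sys] using hH.one⟩
      · exact ⟨c, by simpa [sys] using hc⟩
      · exact ⟨0, by simpa [sys] using hH.zero⟩
      · exact ⟨0, by simpa [sys] using hH.zero⟩
  have c2 : (∃ c, H C.x⁻¹ c) → GenAt H (C.sys .U) := by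
    rintro ⟨c, hc⟩
    refine ⟨some (1, 0), by simpa [sys] using hx, fun i => ?_⟩
    rcases i with _ | ⟨p, q⟩
    · exact ⟨0, by simpa [sys] using hH.zero⟩
    · fin_cases p
      · exact ⟨c, by simpa [sys] using hc⟩
      · exact ⟨1, by simpa [sys, hx] using hH.one⟩
      · exact ⟨0, by simpa [sys] using hH.zero⟩
      · exact ⟨0, by simpa [sys] using hH.zero⟩
  obtain ⟨j, hj, hr⟩ := hS
  rcases j with _ | ⟨p, q⟩
  · obtain ⟨v0, h0⟩ := hr (some (0, 0))
    obtain ⟨v1, h1⟩ := hr (some (1, 0))
    obtain ⟨v2, h2⟩ := hr (some (2, 0))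
    obtain ⟨v3, h3⟩ := hr (some (3, 0))
    have h0' : H (1 / C.w) v0 := by simpa [sys] using h0
    have h1' : H (C.x / C.w) v1 := by simpa [sys] using h1
    have h2' : H (C.y / C.w) v2 := by simpa [sys] using h2
    have h3' : H (C.x * C.y / C.w) v3 := by simpa [sys] using h3
    by_cases e0 : v0 = 0
    · by_cases e1 : v1 = 0
      · by_cases e2 : v2 = 0
        · by_cases e3 : v3 = 0
          · right
            subst e0 e1 e2 e3
            exact ⟨by rwa [one_div] at h0', h1', h2', h3'⟩
          · left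
            apply c2
            have h := hH.div h2' h3' e3
            have e : C.y / C.w / (C.x * C.y / C.w) = C.x⁻¹ := by field_simp
            rw [e] at h
            exact ⟨_, h⟩
        · left
          apply c1
          have h := hH.div h3' h2' e2
          have e : C.x * C.y / C.w / (C.y / C.w) = C.x := by field_simp
          rw [e] at h
          exact ⟨_, h⟩
      · left
        apply c2
        have h := hH.div h0' h1' e1
        have e : 1 / C.w / (C.x / C.w) = C.x⁻¹ := by field_simp
        rw [e] at h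
        exact ⟨_, h⟩
    · left
      apply c1
      have h := hH.div h1' h0' e0
      have e : C.x / C.w / (1 / C.w) = C.x := by field_simp
      rw [e] at h
      exact ⟨_, h⟩
  · left
    fin_cases p
    · apply c1
      obtain ⟨c, hc⟩ := hr (some (1, 0))
      exact ⟨c, by simpa [sys] using hc⟩
    · apply c2
      obtain ⟨c, hc⟩ := hr (some (0, 0))
      exact ⟨c, by simpa [sys] using hc⟩
    · apply c1
      obtain ⟨c, hc⟩ := hr (some (3, 0))
      refine ⟨c, ?_⟩
      have e : C.sys .S (some (3, 0)) / C.sys .S (some (2, q)) = C.x := by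
        simp only [sys, Matrix.cons_val]
        field_simp
      rw [← e]
      exact hc
    · apply c2
      obtain ⟨c, hc⟩ := hr (some (2, 0))
      refine ⟨c, ?_⟩
      have e : C.sys .S (some (2, 0)) / C.sys .S (some (3, q)) = C.x⁻¹ := by
        simp only [sys, Matrix.cons_val]
        field_simp
      rw [← e]
      exact hc

/-- The contraction of the curve `T`. -/
theorem contr_T : (C.on inX).ContractsOneCurve (C.on inT) := by
  have hdom : (C.on inX).Dominates (C.on inT) := C.on_dominates_on fun a ha => by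
    cases a <;> simp_all [inX, inT]
  have hTX : ∀ a, inT a = true → inX a = true := fun a ha => by
    cases a <;> simp_all [inX, inT]
  have hTU : ∀ a, inT a = true → a ≠ .U := fun a ha => by
    rintro rfl
    exact absurd ha (by decide)
  refine ⟨hdom, 1, cT, C.curve_T, fun P P' => ⟨?_, ?_⟩⟩
  · rintro ⟨Q, hQ, hQ'⟩
    have hH := place_inter (place P) (place P')
    have hgen : ∀ a, inT a = true →
        GenAt (fun z c => HasVal P z c ∧ HasVal P' z c) (C.sys a) := fun a ha =>
      (C.on_gen Q ha).mono fun z c hz => ⟨hQ z c hz, hQ' z c hz⟩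
    rcases C.dich_T hH (hgen .S rfl) with hU | hT
    · left
      refine C.pts_inter fun a ha => ?_
      cases a with
      | U => exact hU
      | S => exact hgen .S rfl
      | M i j => exact hgen (.M i j) rfl
      | N i j => exact hgen (.N i j) rfl
      | V => exact absurd ha (by decide)
      | W => exact absurd ha (by decide)
      | F i => simp [inX] at ha
    · right
      have hP : C.OnT (HasVal P) := ⟨hT.a.1, hT.b.1, hT.c.1, hT.d.1⟩
      have hP' : C.OnT (HasVal P') := ⟨hT.a.2, hT.b.2, hT.c.2, hT.d.2⟩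
      obtain ⟨s, hs⟩ := C.crv_exists P
      obtain ⟨s', hs'⟩ := C.crv_exists P'
      exact ⟨C.onCurve_T hP hs, C.onCurve_T hP' hs'⟩
  · rintro (⟨r, hr⟩ | ⟨h1, h2⟩)
    · obtain ⟨Q, hQ⟩ := hdom P
      exact ⟨Q, hQ, fun z c hz => hasVal_of_same hr (hQ z c hz)⟩
    · have hP := C.onT_of_curve h1
      have hP' := C.onT_of_curve h2
      obtain ⟨Q, hQ⟩ := hdom P
      obtain ⟨Q', hQ'⟩ := hdom P'
      have key : ∀ {P : (C.on inX).Pt} {Q : (C.on inT).Pt}, C.OnT (HasVal P) → MapsTo P Q →
          (∀ a, C.ext inT a (gT 0 a) ≠ 0) ∧ ∀ a j,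
            HasVal Q (C.ext inT a j / C.ext inT a (gT 0 a))
              (if inT a = true then MvPolynomial.eval 0 (fT a j) else 1) := by
        intro P Q hP hQ
        have hne : ∀ a, C.ext inT a (gT 0 a) ≠ 0 := by
          intro a
          cases ha : inT a
          · rw [C.ext_false ha]
            exact one_ne_zero
          · rw [C.ext_true ha, ← C.ext_true (hTX a ha)]
            exact (hP.vals (place P) 0 0 (hTU a ha)).1
        refine ⟨hne, fun a j => ?_⟩
        cases ha : inT a
        · rw [C.ext_false ha]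
          simpa using (place Q).one
        · have h3 := hne a
          rw [C.ext_true ha] at h3 ⊢
          rw [if_pos rfl]
          refine gen_transfer (place Q) (place P) hQ (C.on_gen Q ha) h3
            (v := fun j => MvPolynomial.eval 0 (fT a j)) (fun j => ?_) j
          have h4 := (hP.vals (place P) 0 0 (hTU a ha)).2 j
          rwa [C.ext_true (hTX a ha)] at h4
      obtain ⟨k1, k2⟩ := key hP hQ
      obtain ⟨-, k3⟩ := key hP' hQ'
      obtain ⟨r, hr⟩ := C.pts_same k1 k2 k3
      exact ⟨Q, hQ, fun z c hz => hQ' z c (hasVal_of_same hr hz)⟩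

end Cfg

end Pool.Agent.Helper43.Fl
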