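import Pool.Agent.Helper43.FlChart0

open scoped KaehlerDifferential

noncomputable section

namespace Pool.Agent.Helper43.Fl

open Pool.Agent.Helper43 Pool.Agent.Helper43.ProjVar

variable {K : Type} [Field K] [Algebra ℂ K]

/-- A coordinate whose ratios are all regular at `P` does not vanish at `P`. -/
theorem pt_ne_of_regular {X : ProjVar ℂ K} (P : X.Pt) {e : X.ι} (he : X.x e ≠ 0)
    (h : ∀ e', ∃ c, HasVal P (X.x e' / X.x e) c) : P.p e ≠ 0 := by
  obtain ⟨e₀, h₀⟩ := P.exists_ne
  obtain ⟨c, hc⟩ := h e₀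
  have h1 := (hasVal_ratio h₀ e).mul hc
  have h2 : X.x e / X.x e₀ * (X.x e₀ / X.x e) = 1 := by
    have := Pt.x_ne h₀
    field_simp
  rw [h2] at h1
  have h3 := h1.uniq (place P).one
  intro h4
  rw [h4, zero_div, zero_mul] at h3
  exact zero_ne_one h3

/-- The property that `z` minus its value lies in the ideal generated by the `s i`. -/
theorem cl_ideal {H : K → ℂ → Prop} (hH : Place H) {n : ℕ} (s : Fin n → K) :
    Cl H fun z => ∃ c, H z c ∧ ∃ d : Fin n → K, (∀ i, ∃ c', H (d i) c') ∧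
      z - algebraMap ℂ K c = ∑ i, d i * s i where
  const c := ⟨c, hH.const c, fun _ => 0, fun _ => ⟨0, hH.zero⟩, by simp⟩
  add := by
    rintro z z' ⟨c, h, d, hd, e⟩ ⟨c', h', d', hd', e'⟩
    refine ⟨c + c', hH.add h h', fun i => d i + d' i, fun i => ?_, ?_⟩
    · obtain ⟨x, hx⟩ := hd i
      obtain ⟨y, hy⟩ := hd' i
      exact ⟨_, hH.add hx hy⟩
    · simp only [add_mul, Finset.sum_add_distrib, ← e, ← e', map_add]
      ring
  mul := by
    rintro z z' ⟨c, h, d, hd, e⟩ ⟨c', h', d', hd', e'⟩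
    refine ⟨c * c', hH.mul h h', fun i => d i * z' + algebraMap ℂ K c * d' i, fun i => ?_, ?_⟩
    · obtain ⟨x, hx⟩ := hd i
      obtain ⟨y, hy⟩ := hd' i
      exact ⟨_, hH.add (hH.mul hx h') (hH.mul (hH.const c) hy)⟩
    · have : ∑ i, (d i * z' + algebraMap ℂ K c * d' i) * s i =
          (∑ i, d i * s i) * z' + algebraMap ℂ K c * ∑ i, d' i * s i := by
        rw [Finset.sum_mul, Finset.mul_sum, ← Finset.sum_add_distrib]
        exact Finset.sum_congr rfl fun i _ => by ring
      rw [this, ← e, ← e', map_mul]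
      ring
  inv := by
    rintro z c₀ h₀ hc₀ ⟨c, h, d, hd, e⟩
    obtain rfl := hH.uniq h h₀
    have hz := hH.ne_zero h hc₀
    have hc : algebraMap ℂ K c ≠ 0 := by simpa using hc₀
    refine ⟨c⁻¹, hH.inv h hc₀, fun i => -(z⁻¹ * algebraMap ℂ K c⁻¹) * d i, fun i => ?_, ?_⟩
    · obtain ⟨x, hx⟩ := hd i
      exact ⟨_, hH.mul (hH.neg (hH.mul (hH.inv h hc₀) (hH.const _))) hx⟩
    · have : ∑ i, (-(z⁻¹ * algebraMap ℂ K c⁻¹) * d i) * s i =
          -(z⁻¹ * algebraMap ℂ K c⁻¹) * ∑ i, d i * s i := by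
        rw [Finset.mul_sum]
        exact Finset.sum_congr rfl fun i _ => by ring
      rw [this, ← e, map_inv₀]
      field_simp
      ring

/-- A criterion for regularity of the local ring. -/
theorem nonsing_of_gn {X : ProjVar ℂ K} {P : X.Pt} {n : ℕ} {par : Fin n → K}
    (hpar : ∀ q, ∃ c, HasVal P (par q) c) {e : X.ι} (he : P.p e ≠ 0)
    (hgen : ∀ e', Gn (HasVal P) par (X.x e' / X.x e)) :
    ∃ s : Fin n → K, (∀ i, HasVal P (s i) 0) ∧
      ∀ z, HasVal P z 0 → ∃ c : Fin n → K, (∀ i, ∃ d, HasVal P (c i) d) ∧ z = ∑ i, c i * s i := by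
  have hH := place P
  choose c hc using hpar
  let s : Fin n → K := fun q => par q - algebraMap ℂ K (c q)
  have hp := cl_ideal hH s
  refine ⟨s, fun q => by simpa using hH.sub (hc q) (hH.const (c q)), fun z hz => ?_⟩
  obtain ⟨c', hc', d, hd, e'⟩ := hasVal_gn he hgen hz _ hp fun q => ⟨c q, hc q, Pi.single q 1,
    fun i => by
      by_cases h : i = q
      · subst h
        exact ⟨1, by simpa using hH.one⟩
      · exact ⟨0, by simpa [h] using hH.zero⟩, by simp [s, Pi.single_apply]⟩
  obtain rfl := hH.uniq hz hc'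
  exact ⟨d, hd, by simpa using e'⟩

namespace Cfg

variable (C : Cfg K)

theorem IsChart.genAt {H : K → ℂ → Prop} (hH : Place H) {T : Ty} (h : C.IsChart H T) {a : Ix}
    (ha : inX a = true) : GenAt H (C.sys a) := by
  obtain ⟨j, c, hc, hj⟩ := h.unit a ha
  have hf := C.fac_ne T a
  have h0 : C.sys a j ≠ 0 := by
    intro h0
    exact hH.ne_zero hj hc (by rw [h0, zero_div])
  refine ⟨j, h0, fun i => ?_⟩
  obtain ⟨d, hd⟩ := Gn.reg hH h.reg (h.gen a ha i)
  have h1 := hH.div hd hj hc
  have h2 : C.sys a i / C.fac T a / (C.sys a j / C.fac T a) = C.sys a i / C.sys a j := by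
    field_simp
  rw [h2] at h1
  exact ⟨_, h1⟩

theorem chart_coord {P : (C.on inX).Pt} {T : Ty} (h : C.IsChart (HasVal P) T) :
    ∃ e, P.p e ≠ 0 ∧ ∀ e', Gn (HasVal P) (C.par T) ((C.on inX).x e' / (C.on inX).x e) := by
  have hH := place P
  have hcl := Gn.cl (HasVal P) (C.par T)
  have hex : ∀ a, ∃ j, (bif inX a then C.sys a else fun _ => 1) j ≠ 0 ∧
      ∀ i, Gn (HasVal P) (C.par T) ((bif inX a then C.sys a else fun _ => 1) i /
        (bif inX a then C.sys a else fun _ => 1) j) := by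
    intro a
    cases ha : inX a
    · exact ⟨jo, by simp, fun i => by simpa using hcl.one⟩
    · obtain ⟨j, c, hc, hj⟩ := h.unit a ha
      have hf := C.fac_ne T a
      have h0 : C.sys a j ≠ 0 := by
        intro h0
        exact hH.ne_zero hj hc (by rw [h0, zero_div])
      refine ⟨j, by simpa using h0, fun i => ?_⟩
      simp only [cond_true]
      have h1 := hcl.div (h.gen a ha i) (h.gen a ha j) hj hc
      have h2 : C.sys a i / C.fac T a / (C.sys a j / C.fac T a) = C.sys a i / C.sys a j := by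
        field_simp
      rwa [h2] at h1
  choose e he0 he using hex
  have hx0 : (C.on inX).x e ≠ 0 := by
    have e0 : (C.on inX).x e = ∏ a, (bif inX a then C.sys a else fun _ => 1) (e a) := rfl
    rw [e0]
    exact Finset.prod_ne_zero_iff.mpr fun a _ => he0 a
  have hg : ∀ e', Gn (HasVal P) (C.par T) ((C.on inX).x e' / (C.on inX).x e) := by
    intro e'
    have e1 : (C.on inX).x e' / (C.on inX).x e =
        ∏ a, (bif inX a then C.sys a else fun _ => 1) (e' a) /
          (bif inX a then C.sys a else fun _ => 1) (e a) := by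
      rw [Finset.prod_div_distrib]
      rfl
    rw [e1]
    exact hcl.prod _ fun a _ => he a (e' a)
  exact ⟨e, pt_ne_of_regular P hx0 fun e' => Gn.reg hH h.reg (hg e'), hg⟩

theorem top_of_mem' (E : IntermediateField ℂ K) (hx : C.x ∈ E) (hy : C.y ∈ E) (hw : C.w ∈ E) :
    E = ⊤ := by
  rw [eq_top_iff, ← C.top]
  refine IntermediateField.adjoin_le_iff.mpr ?_
  rintro _ (rfl | rfl | rfl)
  · exact hx
  · exact hy
  · exact hw

theorem U_mem {s : Ix → Bool} (h : s .U = true) : C.x ∈ (C.on s).functionField := by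
  simpa [sys] using C.on_mem h (some (1, 0)) (some (0, 0))

theorem V_mem {s : Ix → Bool} (h : s .V = true) : C.y ∈ (C.on s).functionField := by
  simpa [sys] using C.on_mem h (some (1, 0)) (some (0, 0))

theorem W_mem {s : Ix → Bool} (h : s .W = true) : C.w ∈ (C.on s).functionField := by
  simpa [sys] using C.on_mem h (some (1, 0)) (some (0, 0))

theorem S_mem {s : Ix → Bool} (h : s .S = true) : C.x ∈ (C.on s).functionField ∧
    C.y ∈ (C.on s).functionField ∧ C.w ∈ (C.on s).functionField := by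
  refine ⟨?_, ?_, ?_⟩
  · simpa [sys] using C.on_mem h (some (1, 0)) (some (0, 0))
  · simpa [sys] using C.on_mem h (some (2, 0)) (some (0, 0))
  · simpa [sys] using C.on_mem h none (some (0, 0))

theorem X_top : (C.on inX).functionField = ⊤ :=
  have h := C.S_mem (s := inX) rfl
  C.top_of_mem' _ h.1 h.2.1 h.2.2

theorem T_top : (C.on inT).functionField = ⊤ :=
  have h := C.S_mem (s := inT) rfl
  C.top_of_mem' _ h.1 h.2.1 h.2.2

theorem F_top : (C.on inF).functionField = ⊤ :=
  C.top_of_mem' _ (C.U_mem rfl) (C.V_mem rfl) (C.W_mem rfl)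

theorem Z_top (i : Fin 5) : (C.on (inZ i)).functionField = ⊤ := by
  have hx : C.x ∈ (C.on (inZ i)).functionField := C.U_mem rfl
  have hM : inZ i (.M i i) = true := by simp [inZ]
  have hτ : C.τ i ∈ (C.on (inZ i)).functionField :=
    sub_mem hx ((C.on (inZ i)).functionField.algebraMap_mem _)
  have hτ0 := C.τ_ne i
  have h1 : C.w / C.τ i ∈ (C.on (inZ i)).functionField := by
    simpa [sys, m] using C.on_mem hM (some (0, 0)) (some (3, 0))
  have h2 : C.η / C.τ i ∈ (C.on (inZ i)).functionField := by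
    simpa [sys, m] using C.on_mem hM (some (1, 0)) (some (3, 0))
  have hw : C.w ∈ (C.on (inZ i)).functionField := by
    have := mul_mem h1 hτ
    rwa [div_mul_cancel₀ _ hτ0] at this
  have hη : C.η ∈ (C.on (inZ i)).functionField := by
    have := mul_mem h2 hτ
    rwa [div_mul_cancel₀ _ hτ0] at this
  have hy : C.y ∈ (C.on (inZ i)).functionField := by
    have := add_mem hη hx
    simpa [η] using this
  exact C.top_of_mem' _ hx hy hw

theorem X_nonsing_of (hP : ∀ P : (C.on inX).Pt, ∃ T, C.IsChart (HasVal P) T) :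
    (C.on inX).IsNonsingular 3 := by
  refine ⟨?_, fun P => ?_⟩
  · rw [C.X_top, IntermediateField.topEquiv.trdeg_eq]
    exact_mod_cast C.trdeg_eq
  · obtain ⟨T, hT⟩ := hP P
    obtain ⟨e, he, hg⟩ := C.chart_coord hT
    exact nonsing_of_gn hT.reg he hg

end Cfg

end Pool.Agent.Helper43.Fl
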