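import Pool.Agent.Helper43.FlPlace
import Pool.Agent.Helper43.FlCluster
import Pool.Agent.Helper43.FlSing

open scoped KaehlerDifferential

noncomputable section

namespace Pool.Agent.Helper43.Fl

open Pool.Agent.Helper43 Pool.Agent.Helper43.ProjVar

namespace CZ

section General

variable {k K : Type} [Field k] [Field K] [Algebra k K]

omit [Field k] [Field K] [Algebra k K] in
theorem cong {H : K → k → Prop} {z z' : K} {c c' : k} (h : H z c) (hz : z = z')
    (hc : c = c') : H z' c' := by
  subst hz hc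
  exact h

theorem place_prod {H : K → k → Prop} (hH : Place H) {A : Type*} (t : Finset A) {f : A → K}
    {c : A → k} (h : ∀ a ∈ t, H (f a) (c a)) : H (∏ a ∈ t, f a) (∏ a ∈ t, c a) := by
  classical
  induction t using Finset.induction_on with
  | empty => simpa using hH.one
  | insert a t ha ih =>
    rw [Finset.prod_insert ha, Finset.prod_insert ha]
    exact hH.mul (h a (Finset.mem_insert_self _ _))
      (ih fun b hb => h b (Finset.mem_insert_of_mem hb))

/-- A family of constants which are the values of the coordinates up to a factor is a point. -/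
theorem pt_of_place {X : ProjVar k K} {H : K → k → Prop} (hH : Place H) {F : K}
    {c : X.ι → k} (hc : ∃ e, c e ≠ 0) (h : ∀ e, H (X.x e / F) (c e)) : ∃ P : X.Pt, P.p = c := by
  have key : ∀ f : MvPolynomial X.ι k, H (MvPolynomial.aeval (fun e => X.x e / F) f)
      (MvPolynomial.eval c f) := by
    intro f
    induction f using MvPolynomial.induction_on with
    | C a => simpa using hH.const a
    | add f g hf hg => simpa using hH.add hf hg
    | mul_X f l hf => simpa using hH.mul hf (h l)
  refine ⟨⟨c, ?_, ?_⟩, rfl⟩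
  · rintro rfl
    obtain ⟨e, he⟩ := hc
    exact he rfl
  · intro n f hf h0
    have e1 : MvPolynomial.aeval (fun e => X.x e / F) f = F⁻¹ ^ n * MvPolynomial.aeval X.x f := by
      rw [← aeval_smul_homog hf]
      congr 2
      funext e
      rw [div_eq_mul_inv, mul_comm]
    have h1 := key f
    rw [e1, h0, mul_zero] at h1
    exact hH.uniq h1 hH.zero

/-- The coordinates of a point are determined up to a factor by the values at the point. -/
theorem pt_prop {X : ProjVar k K} {P : X.Pt} {F : K} {c : X.ι → k} (hc : ∃ e, c e ≠ 0)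
    (h : ∀ e, HasVal P (X.x e / F) (c e)) : ∃ r : k, ∀ e, P.p e = r * c e := by
  obtain ⟨e0, he0⟩ := P.exists_ne
  have hx0 := Pt.x_ne he0
  have h1 : ∀ e, c e = P.p e / P.p e0 * c e0 := by
    intro e
    have h2 := (hasVal_ratio he0 e).mul (h e0)
    have e1 : X.x e / X.x e0 * (X.x e0 / F) = X.x e / F := by field_simp
    rw [e1] at h2
    exact (h e).uniq h2
  have h0 : c e0 ≠ 0 := by
    intro h0
    obtain ⟨e, he⟩ := hc
    rw [h1 e, h0, mul_zero] at he
    exact he rfl
  refine ⟨P.p e0 / c e0, fun e => ?_⟩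
  rw [h1 e]
  field_simp

/-- Two points over one point at which all systems have generators are equal. -/
theorem same_of_two {X : ProjVar k K} {P P' Q : X.Pt}
    (h : ∀ z c, HasVal Q z c → HasVal P z c ∧ HasVal P' z c) :
    ∃ r : k, ∀ i, P'.p i = r * P.p i := by
  obtain ⟨r, hr⟩ := same_of_mapsTo fun z c hz => (h z c hz).1
  obtain ⟨r', hr'⟩ := same_of_mapsTo fun z c hz => (h z c hz).2
  have hr0 : r ≠ 0 := by
    rintro rfl
    apply P.ne
    funext i
    simp [hr]
  refine ⟨r' / r, fun i => ?_⟩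
  rw [hr, hr']
  field_simp

end General

variable {K : Type} [Field K] [Algebra ℂ K]

/-- The forms of the system `M k l` on the `i`-th curve. -/
def cM (i k l : Fin 5) : Fin 4 → MvPolynomial (Fin 2) ℂ :=
  if k = i ∨ l = i then ![1, 0, 0, 0]
  else ![MvPolynomial.X 1, 0,
    MvPolynomial.C ((tt i - tt k) * (tt i - tt l)) * MvPolynomial.X 0,
    if k = l then MvPolynomial.C (tt i - tt k) * MvPolynomial.X 0 else 0]

/-- The form of the additional element of the system `N k l` on the `i`-th curve. -/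
def cN (i k l : Fin 5) : MvPolynomial (Fin 2) ℂ :=
  if k = i ∨ l = i then 0
  else if k = l then MvPolynomial.C (tt i - tt k) * MvPolynomial.X 0 ^ 2
  else MvPolynomial.C (((tt i - tt l) + (tt i - tt l) * (tt i - tt l) / (tt l - tt k)) *
    (tt i - tt k)) * MvPolynomial.X 0 ^ 2

/-- The forms of the systems on the `i`-th curve. -/
def cform (i : Fin 5) : Ix → J → MvPolynomial (Fin 2) ℂ
  | .U, some (p, _) => (![1, MvPolynomial.C (tt i), 0, 0] : Fin 4 → MvPolynomial (Fin 2) ℂ) p
  | .U, none => 0
  | .S, some (p, _) => (![MvPolynomial.X 0, MvPolynomial.C (tt i) * MvPolynomial.X 0,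
      MvPolynomial.C (tt i) * MvPolynomial.X 0,
      MvPolynomial.C (tt i * tt i) * MvPolynomial.X 0] : Fin 4 → MvPolynomial (Fin 2) ℂ) p
  | .S, none => MvPolynomial.X 1
  | .M k l, some (p, _) => cM i k l p
  | .M _ _, none => 0
  | .N k l, some (p, q) => cM i k l p * cM i k l q
  | .N k l, none => cN i k l
  | _, _ => 1

/-- The degrees of the forms. -/
def cdeg (i : Fin 5) : Ix → ℕ
  | .S => 1
  | .M k l => if k = i ∨ l = i then 0 else 1
  | .N k l => if k = i ∨ l = i then 0 else 2
  | _ => 0

theorem cM_homog (i k l : Fin 5) (p : Fin 4) :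
    (cM i k l p).IsHomogeneous (if k = i ∨ l = i then 0 else 1) := by
  have h1 : ∀ n : ℕ, (0 : MvPolynomial (Fin 2) ℂ).IsHomogeneous n := fun n =>
    MvPolynomial.isHomogeneous_zero _ _ _
  have h2 : ∀ (c : ℂ) (q : Fin 2), (MvPolynomial.C c * MvPolynomial.X q :
      MvPolynomial (Fin 2) ℂ).IsHomogeneous 1 := fun c q => by
    have := (MvPolynomial.isHomogeneous_C (Fin 2) c).mul (MvPolynomial.isHomogeneous_X ℂ q)
    simpa using this
  unfold cM
  split_ifs with h h'
  · fin_cases p
    · exact MvPolynomial.isHomogeneous_one _ _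
    · exact h1 _
    · exact h1 _
    · exact h1 _
  · fin_cases p
    · exact MvPolynomial.isHomogeneous_X _ _
    · exact h1 _
    · exact h2 _ _
    · exact h2 _ _
  · fin_cases p
    · exact MvPolynomial.isHomogeneous_X _ _
    · exact h1 _
    · exact h2 _ _
    · exact h1 _

theorem cform_homog (i : Fin 5) (a : Ix) (j : J) : (cform i a j).IsHomogeneous (cdeg i a) := by
  have h1 : ∀ n : ℕ, (0 : MvPolynomial (Fin 2) ℂ).IsHomogeneous n := fun n =>
    MvPolynomial.isHomogeneous_zero _ _ _
  have h2 : ∀ (c : ℂ) (q : Fin 2), (MvPolynomial.C c * MvPolynomial.X q :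
      MvPolynomial (Fin 2) ℂ).IsHomogeneous 1 := fun c q => by
    have := (MvPolynomial.isHomogeneous_C (Fin 2) c).mul (MvPolynomial.isHomogeneous_X ℂ q)
    simpa using this
  have h3 : ∀ (c : ℂ) (q : Fin 2), (MvPolynomial.C c * MvPolynomial.X q ^ 2 :
      MvPolynomial (Fin 2) ℂ).IsHomogeneous 2 := fun c q => by
    have := (MvPolynomial.isHomogeneous_C (Fin 2) c).mul
      ((MvPolynomial.isHomogeneous_X ℂ q).pow 2)
    simpa using this
  have h4 : (1 : MvPolynomial (Fin 2) ℂ).IsHomogeneous 0 := MvPolynomial.isHomogeneous_one _ _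
  rcases j with _ | ⟨p, q⟩
  · cases a with
    | U => exact h1 _
    | V => exact h4
    | W => exact h4
    | S => exact MvPolynomial.isHomogeneous_X _ _
    | M k l => exact h1 _
    | N k l =>
      simp only [cform, cdeg, cN]
      split_ifs
      · exact h1 _
      · exact h3 _ _
      · exact h3 _ _
    | F l => exact h4
  · cases a with
    | U =>
      simp only [cform, cdeg]
      fin_cases p
      · exact h4
      · exact MvPolynomial.isHomogeneous_C _ _
      · exact h1 _
      · exact h1 _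
    | V => exact h4
    | W => exact h4
    | S =>
      simp only [cform, cdeg]
      fin_cases p
      · exact MvPolynomial.isHomogeneous_X _ _
      · exact h2 _ _
      · exact h2 _ _
      · exact h2 _ _
    | M k l => exact cM_homog i k l p
    | N k l =>
      have := (cM_homog i k l p).mul (cM_homog i k l q)
      simp only [cform, cdeg]
      split_ifs at this ⊢ <;> exact this
    | F l => exact h4

/-- The coordinates with a nonzero power of the first variable. -/
def eA (i : Fin 5) : Ix → J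
  | .M k l => if k = i ∨ l = i then jo else some (2, 0)
  | .N k l => if k = i ∨ l = i then jo else some (2, 2)
  | _ => jo

/-- The coordinates with a power of the second variable. -/
def eB : Ix → J
  | .S => none
  | _ => jo

theorem eval_eA (i : Fin 5) (a : Ix) (s : Fin 2 → ℂ) (hs : s 0 ≠ 0) :
    MvPolynomial.eval s (cform i a (eA i a)) ≠ 0 := by
  cases a with
  | U => simp [cform, eA]
  | V => simp [cform]
  | W => simp [cform]
  | S => simpa [cform, eA] using hs
  | F l => simp [cform]
  | M k l =>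
    by_cases h : k = i ∨ l = i
    · simp [cform, eA, cM, h]
    · have h' := h
      push Not at h'
      simp only [eA, if_neg h, cform, cM]
      simpa using ⟨⟨tt_sub h'.1.symm, tt_sub h'.2.symm⟩, hs⟩
  | N k l =>
    by_cases h : k = i ∨ l = i
    · simp [cform, eA, cM, h]
    · have h' := h
      push Not at h'
      simp only [eA, if_neg h, cform, cM]
      simpa using ⟨⟨tt_sub h'.1.symm, tt_sub h'.2.symm⟩, hs⟩

theorem eval_eB (i : Fin 5) (a : Ix) (s : Fin 2 → ℂ) (hs : s 1 ≠ 0) :
    MvPolynomial.eval s (cform i a (eB a)) ≠ 0 := by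
  cases a with
  | U => simp [cform, eB]
  | V => simp [cform]
  | W => simp [cform]
  | S => simpa [cform, eB] using hs
  | F l => simp [cform]
  | M k l =>
    by_cases h : k = i ∨ l = i
    · simp [cform, eB, cM, h]
    · simp only [eB, cform, cM, if_neg h]
      simpa using hs
  | N k l =>
    by_cases h : k = i ∨ l = i
    · simp [cform, eB, cM, h]
    · simp only [eB, cform, cM, if_neg h]
      simpa using hs

/-- The forms of the curve. -/
def cc' (i : Fin 5) (e : Ix → J) : MvPolynomial (Fin 2) ℂ := ∏ a, cform i a (e a)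

theorem eval_cc (i : Fin 5) (e : Ix → J) (s : Fin 2 → ℂ) :
    MvPolynomial.eval s (cc' i e) = ∏ a, MvPolynomial.eval s (cform i a (e a)) := by
  unfold cc'
  rw [map_prod]

theorem exists_eval_ne (i : Fin 5) {s : Fin 2 → ℂ} (hs : s ≠ 0) :
    ∃ e, MvPolynomial.eval s (cc' i e) ≠ 0 := by
  by_cases h0 : s 0 = 0
  · have h1 : s 1 ≠ 0 := by
      intro h1
      apply hs
      funext q
      fin_cases q
      · exact h0
      · exact h1
    refine ⟨eB, ?_⟩
    rw [eval_cc]
    exact Finset.prod_ne_zero_iff.mpr fun a _ => eval_eB i a s h1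
  · refine ⟨eA i, ?_⟩
    rw [eval_cc]
    exact Finset.prod_ne_zero_iff.mpr fun a _ => eval_eA i a s h0

/-- The factors of the systems along the `i`-th curve. -/
def cfac (C : Cfg K) (i : Fin 5) (g : K) : Ix → K
  | .S => g
  | .M k l => if k = i ∨ l = i then C.w else g
  | .N k l => if k = i ∨ l = i then C.w ^ 2 else g ^ 2
  | _ => 1

section CurveVal

variable (C : Cfg K) {H : K → ℂ → Prop} (hH : Place H) {i : Fin 5}
include hH

theorem H_τ (hτ : H (C.τ i) 0) (k : Fin 5) : H (C.τ k) (tt i - tt k) :=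
  cong (hH.add hτ (hH.const (tt i - tt k)))
    (by simp only [Cfg.τ]; rw [map_sub]; ring) (by ring)

theorem H_x (hτ : H (C.τ i) 0) : H C.x (tt i) :=
  cong (hH.add hτ (hH.const (tt i))) (by simp only [Cfg.τ]; ring) (by ring)

variable {g : K} {a b : ℂ} (hτ : H (C.τ i) 0) (h1 : H (C.τ i / C.w) 0) (h2 : H (C.η / C.w) 0)
  (h3 : H (C.D i / C.w ^ 2) 0) (hg : g ≠ 0) (ha : H g⁻¹ a) (hb : H (C.w / g) b)

include h2 hg hb in
theorem H_η : H (C.η / g) 0 := by
  have hw := C.w_ne
  exact cong (hH.mul h2 hb) (by field_simp) (by ring)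

include hτ h2 hg ha hb in
theorem H_zg (l : Fin 5) : H (C.z l / g) ((tt i - tt l) * a) := by
  have hw := C.w_ne
  refine cong (hH.add (hH.mul (H_τ C hH hτ l) ha) (H_η C hH h2 hg hb)) ?_ (by ring)
  simp only [Cfg.τ, Cfg.z, Cfg.η]
  field_simp
  ring

include hτ ha hg in
theorem H_τg (l : Fin 5) : H (C.τ l / g) ((tt i - tt l) * a) :=
  cong (hH.mul (H_τ C hH hτ l) ha) (by rw [div_eq_mul_inv]) rfl

include hτ h2 hg ha hb in
theorem H_Dg (l : Fin 5) : H (C.D l / g) ((tt i - tt l) * a) := by
  refine cong (hH.add (H_τg C hH hτ hg ha l)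
    (hH.mul (hH.const (C.κ l)) (H_η C hH h2 hg hb))) ?_ (by ring)
  simp only [Cfg.D]
  ring

include hτ h2 hg ha hb in
theorem H_hg {k l : Fin 5} (hkl : k ≠ l) : H (C.h k l / g)
    (((tt i - tt l) + (tt i - tt l) * (tt i - tt l) / (tt l - tt k)) * a) := by
  have h5 := tt_sub hkl.symm
  refine cong (hH.add (H_Dg C hH hτ h2 hg ha hb l) (hH.mul (hH.mul (H_τ C hH hτ l)
    (H_zg C hH hτ h2 hg ha hb l)) (hH.const (tt l - tt k)⁻¹))) ?_ ?_
  · simp only [Cfg.h, map_inv₀]
    have h6 := cc_ne (K := K) h5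
    field_simp
  · field_simp

include hτ h1 h2 in
theorem H_zw (l : Fin 5) : H (C.τ i * C.z l / C.w) 0 := by
  have hw := C.w_ne
  refine cong (hH.add (hH.mul h1 (H_τ C hH hτ l)) (hH.mul hτ h2)) ?_ (by ring)
  simp only [Cfg.τ, Cfg.z, Cfg.η]
  field_simp
  ring

include h1 h2 in
theorem H_ziw : H (C.z i / C.w) 0 := by
  refine cong (hH.add h1 h2) ?_ (by ring)
  simp only [Cfg.τ, Cfg.z, Cfg.η]
  ring

include hτ h1 h2 in
theorem H_zw' (k : Fin 5) : H (C.τ k * C.z i / C.w) 0 :=
  cong (hH.mul (H_τ C hH hτ k) (H_ziw C hH h1 h2)) (by ring) (by ring)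

include hτ h1 h2 in
theorem H_hw {l : Fin 5} (hil : i ≠ l) : H (C.h i l / C.w) 0 := by
  have hw := C.w_ne
  have h5 := tt_sub hil.symm
  refine cong (hH.add (hH.mul (hH.const (C.κ l - 1)) h2) (hH.mul (H_zw C hH hτ h1 h2 l)
    (hH.const (tt l - tt i)⁻¹))) ?_ (by ring)
  have h6 := cc_ne (K := K) h5
  simp only [map_inv₀, map_sub, map_one] at h6 ⊢
  simp only [Cfg.h, Cfg.D, Cfg.τ, Cfg.z, Cfg.η, map_sub]
  field_simp
  ring

include hτ h1 h2 h3 in
theorem H_hw2 {k : Fin 5} (hki : k ≠ i) : H (C.h k i / C.w ^ 2) 0 := by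
  have hw := C.w_ne
  have h5 := tt_sub hki.symm
  refine cong (hH.add h3 (hH.mul (hH.mul h1 (H_ziw C hH h1 h2))
    (hH.const (tt i - tt k)⁻¹))) ?_ (by ring)
  have h6 := cc_ne (K := K) h5
  simp only [map_inv₀]
  simp only [Cfg.h]
  field_simp

include hτ h1 h2 hg ha hb in
theorem val_M (k l : Fin 5) (p : Fin 4) :
    H (C.m k l p / (if k = i ∨ l = i then C.w else g))
      (MvPolynomial.eval ![a, b] (cM i k l p)) := by
  have hw := C.w_ne
  have hz : ∀ z : K, H (0 / z) 0 := fun z => cong hH.zero (by simp) rfl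
  split_ifs with h
  · simp only [cM, if_pos h]
    fin_cases p
    · exact cong hH.one (by simp [Cfg.m, div_self hw]) (by simp)
    · exact cong h2 (by simp [Cfg.m]) (by simp)
    · simp only [Cfg.m]
      rcases h with rfl | rfl
      · exact cong (H_zw C hH hτ h1 h2 l) (by simp) (by simp)
      · exact cong (H_zw' C hH hτ h1 h2 k) (by simp) (by simp)
    · simp only [Cfg.m]
      by_cases hkl : k = l
      · subst hkl
        rw [or_self] at h
        subst h
        exact cong h1 (by simp) (by simp)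
      · exact cong (hz C.w) (by simp [hkl]) (by simp)
  · simp only [cM, if_neg h]
    fin_cases p
    · exact cong hb (by simp [Cfg.m]) (by simp)
    · exact cong (H_η C hH h2 hg hb) (by simp [Cfg.m]) (by simp)
    · exact cong (hH.mul (H_τ C hH hτ k) (H_zg C hH hτ h2 hg ha hb l))
        (by simp [Cfg.m]; ring) (by simp; ring)
    · by_cases hkl : k = l
      · exact cong (H_τg C hH hτ hg ha k) (by simp [Cfg.m, hkl]) (by simp [hkl])
      · exact cong (hz g) (by simp [Cfg.m, hkl]) (by simp [hkl])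

include hτ h1 h2 h3 hg ha hb in
theorem curve_val (ix : Ix) (hix : Cfg.inX ix = true) (j : J) :
    H (C.sys ix j / cfac C i g ix) (MvPolynomial.eval ![a, b] (cform i ix j)) := by
  have hw := C.w_ne
  have hz : ∀ z : K, H (0 / z) 0 := fun z => cong hH.zero (by simp) rfl
  have hx := H_x C hH hτ
  have hxg : H (C.x / g) (tt i * a) := cong (hH.mul hx ha) (by rw [div_eq_mul_inv]) rfl
  have hyg : H (C.y / g) (tt i * a) := cong (hH.add hxg (H_η C hH h2 hg hb))
    (by simp only [Cfg.η]; ring) (by ring)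
  rcases j with _ | ⟨p, q⟩
  · cases ix with
    | U => exact cong (hz 1) rfl (by simp [cform])
    | V => simp [Cfg.inX] at hix
    | W => simp [Cfg.inX] at hix
    | F l => simp [Cfg.inX] at hix
    | S => exact cong hb rfl (by simp [cform])
    | M k l => exact cong (hz _) rfl (by simp [cform])
    | N k l =>
      simp only [Cfg.sys, cfac, cform, cN]
      by_cases h : k = i ∨ l = i
      · rw [if_pos h, if_pos h]
        by_cases hkl : k = l
        · subst hkl
          rw [or_self] at h
          subst h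
          exact cong h3 (by simp) (by simp)
        · rw [if_neg hkl]
          rcases h with rfl | rfl
          · exact cong (hH.mul (H_hw C hH hτ h1 h2 hkl) h1) (by field_simp) (by simp)
          · exact cong (hH.mul (H_hw2 C hH hτ h1 h2 h3 hkl) (H_τ C hH hτ k))
              (by field_simp) (by simp)
      · rw [if_neg h, if_neg h]
        by_cases hkl : k = l
        · rw [if_pos hkl, if_pos hkl]
          subst hkl
          exact cong (hH.mul (H_Dg C hH hτ h2 hg ha hb k) ha) (by field_simp) (by simp; ring)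
        · rw [if_neg hkl, if_neg hkl]
          exact cong (hH.mul (H_hg C hH hτ h2 hg ha hb hkl) (H_τg C hH hτ hg ha k))
            (by field_simp) (by simp; ring)
  · cases ix with
    | U =>
      simp only [Cfg.sys, cfac, cform, div_one]
      fin_cases p
      · exact cong hH.one (by simp) (by simp)
      · exact cong hx (by simp) (by simp)
      · exact cong hH.zero (by simp) (by simp)
      · exact cong hH.zero (by simp) (by simp)
    | V => simp [Cfg.inX] at hix
    | W => simp [Cfg.inX] at hix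
    | F l => simp [Cfg.inX] at hix
    | S =>
      simp only [Cfg.sys, cfac, cform]
      fin_cases p
      · exact cong ha (by simp) (by simp)
      · exact cong hxg (by simp) (by simp)
      · exact cong hyg (by simp) (by simp)
      · exact cong (hH.mul hx hyg) (by simp; ring) (by simp; ring)
    | M k l => exact val_M C hH hτ h1 h2 hg ha hb k l p
    | N k l =>
      have hp := val_M C hH hτ h1 h2 hg ha hb k l p
      have hq := val_M C hH hτ h1 h2 hg ha hb k l q
      simp only [Cfg.sys, cfac, cform]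
      split_ifs at hp hq ⊢
      · exact cong (hH.mul hp hq) (by field_simp) (by simp)
      · exact cong (hH.mul hp hq) (by field_simp) (by simp)

include hτ h1 h2 h3 hg ha hb in
theorem all_val (ix : Ix) (j : J) :
    H ((bif Cfg.inX ix then C.sys ix else fun _ => 1) j / cfac C i g ix)
      (MvPolynomial.eval ![a, b] (cform i ix j)) := by
  cases hix : Cfg.inX ix with
  | true => exact curve_val C hH hτ h1 h2 h3 hg ha hb ix hix j
  | false =>
    have e1 : cfac C i g ix = 1 := by
      cases ix <;> simp_all [Cfg.inX, cfac]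
    have e2 : cform i ix j = 1 := by
      rcases j with _ | ⟨p, q⟩ <;> cases ix <;> simp_all [Cfg.inX, cform]
    rw [e1, e2]
    exact cong hH.one (by simp) (by simp)

include hτ h1 h2 h3 hg ha hb in
theorem coord_val (e : Ix → J) :
    H ((C.on Cfg.inX).x e / ∏ ix, cfac C i g ix) (MvPolynomial.eval ![a, b] (cc' i e)) := by
  have h := place_prod hH (Finset.univ : Finset Ix)
    fun ix _ => all_val C hH hτ h1 h2 h3 hg ha hb ix (e ix)
  refine cong h ?_ (eval_cc i e _).symm
  rw [Finset.prod_div_distrib]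
  rfl

end CurveVal

section Curve

variable (C : Cfg K) (i : Fin 5)

theorem vec_eta (s : Fin 2 → ℂ) : ![s 0, s 1] = s := by
  funext q
  fin_cases q <;> rfl

theorem ind1 : AlgebraicIndependent ℂ ![C.w, C.D i / C.w ^ 2, C.τ i / C.w] := by
  have hw := C.w_ne
  set E := IntermediateField.adjoin ℂ (Set.range ![C.w, C.D i / C.w ^ 2, C.τ i / C.w]) with hE
  have h0 : C.w ∈ E := IntermediateField.subset_adjoin _ _ ⟨0, rfl⟩
  have h1 : C.D i / C.w ^ 2 ∈ E := IntermediateField.subset_adjoin _ _ ⟨1, rfl⟩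
  have h2 : C.τ i / C.w ∈ E := IntermediateField.subset_adjoin _ _ ⟨2, rfl⟩
  have hc : ∀ c, cc K c ∈ E := fun c => E.algebraMap_mem c
  have hτ : C.τ i ∈ E := by
    have := mul_mem h2 h0
    rwa [div_mul_cancel₀ _ hw] at this
  have hx : C.x ∈ E := by
    have := add_mem hτ (hc (tt i))
    simpa [Cfg.τ] using this
  have hD : C.D i ∈ E := by
    have := mul_mem h1 (pow_mem h0 2)
    rwa [div_mul_cancel₀ _ (pow_ne_zero 2 hw)] at this
  have hκ : cc K (C.κ i) ≠ 0 := cc_ne (C.κ0 i)
  have hη : C.η ∈ E := by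
    have := div_mem (sub_mem hD hτ) (hc (C.κ i))
    have e : (C.D i - C.τ i) / cc K (C.κ i) = C.η := by
      simp only [Cfg.D]
      field_simp
      ring
    rwa [e] at this
  have hy : C.y ∈ E := by
    have := add_mem hη hx
    simpa [Cfg.η] using this
  exact C.ind_of_mem _ hx hy h0

theorem ind2 : AlgebraicIndependent ℂ ![C.τ i, C.w⁻¹, C.η / C.w] := by
  have hw := C.w_ne
  set E := IntermediateField.adjoin ℂ (Set.range ![C.τ i, C.w⁻¹, C.η / C.w]) with hE
  have hτ : C.τ i ∈ E := IntermediateField.subset_adjoin _ _ ⟨0, rfl⟩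
  have h1 : C.w⁻¹ ∈ E := IntermediateField.subset_adjoin _ _ ⟨1, rfl⟩
  have h2 : C.η / C.w ∈ E := IntermediateField.subset_adjoin _ _ ⟨2, rfl⟩
  have hc : ∀ c, cc K c ∈ E := fun c => E.algebraMap_mem c
  have h0 : C.w ∈ E := by
    have := inv_mem h1
    rwa [inv_inv] at this
  have hx : C.x ∈ E := by
    have := add_mem hτ (hc (tt i))
    simpa [Cfg.τ] using this
  have hη : C.η ∈ E := by
    have := mul_mem h2 h0
    rwa [div_mul_cancel₀ _ hw] at this
  have hy : C.y ∈ E := by
    have := add_mem hη hx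
    simpa [Cfg.η] using this
  exact C.ind_of_mem _ hx hy h0

/-- The forms parametrise points of the threefold. -/
theorem exists_pt {s : Fin 2 → ℂ} (hs : s ≠ 0) :
    ∃ P : (C.on Cfg.inX).Pt, ∀ e, P.p e = MvPolynomial.eval s (cc' i e) := by
  have hw := C.w_ne
  have hκ : cc K (C.κ i) ≠ 0 := cc_ne (C.κ0 i)
  have key : ∃ (H : K → ℂ → Prop) (g : K), Place H ∧ H (C.τ i) 0 ∧ H (C.τ i / C.w) 0 ∧
      H (C.η / C.w) 0 ∧ H (C.D i / C.w ^ 2) 0 ∧ g ≠ 0 ∧ H g⁻¹ (s 0) ∧ H (C.w / g) (s 1) := by
    by_cases h0 : s 0 = 0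
    · have h1 : s 1 ≠ 0 := by
        intro h1
        apply hs
        funext q
        fin_cases q
        · exact h0
        · exact h1
      obtain ⟨H, hH, hv⟩ := Cfg.exists_place (ind2 C i) ![0, 0, 0]
      have hτ : H (C.τ i) 0 := hv 0
      have hw' : H C.w⁻¹ 0 := hv 1
      have hη : H (C.η / C.w) 0 := hv 2
      have h1' : cc K (s 1) ≠ 0 := cc_ne h1
      have hτw : H (C.τ i / C.w) 0 := cong (hH.mul hτ hw') (by field_simp) (by ring)
      refine ⟨H, C.w / cc K (s 1), hH, hτ, hτw, hη, ?_, div_ne_zero hw h1', ?_, ?_⟩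
      · refine cong (hH.mul (hH.add hτw (hH.mul (hH.const (C.κ i)) hη)) hw') ?_ (by ring)
        simp only [Cfg.D]
        field_simp
      · exact cong (hH.mul (hH.const (s 1)) hw') (by field_simp) (by rw [h0]; ring)
      · exact cong (hH.const (s 1)) (by field_simp) rfl
    · obtain ⟨H, hH, hv⟩ := Cfg.exists_place (ind1 C i) ![s 1 / s 0, 0, 0]
      have hw' : H C.w (s 1 / s 0) := hv 0
      have hD : H (C.D i / C.w ^ 2) 0 := hv 1
      have hτw : H (C.τ i / C.w) 0 := hv 2
      have h0' : cc K (s 0) ≠ 0 := cc_ne h0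
      have hτ : H (C.τ i) 0 := cong (hH.mul hτw hw') (by field_simp) (by ring)
      refine ⟨H, (cc K (s 0))⁻¹, hH, hτ, hτw, ?_, hD, inv_ne_zero h0', ?_, ?_⟩
      · refine cong (hH.mul (hH.sub (hH.mul hD hw') hτw) (hH.const (C.κ i)⁻¹)) ?_ (by ring)
        simp only [Cfg.D, map_inv₀]
        field_simp
        ring
      · exact cong (hH.const (s 0)) (by simp) rfl
      · exact cong (hH.mul hw' (hH.const (s 0))) (by simp) (by field_simp)
  obtain ⟨H, g, hH, hτ, h1, h2, h3, hg, ha, hb⟩ := key
  obtain ⟨P, hP⟩ := pt_of_place (X := C.on Cfg.inX) hH (c := fun e => MvPolynomial.eval s (cc' i e))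
    (exists_eval_ne i hs) fun e => by
      have := coord_val C hH hτ h1 h2 h3 hg ha hb e
      rw [vec_eta] at this
      exact this
  exact ⟨P, fun e => by rw [hP]⟩

/-- The forms define a rational curve. -/
theorem isRatCurve : (C.on Cfg.inX).IsRatCurve (∑ a, cdeg i a) (cc' i) where
  homog e := MvPolynomial.IsHomogeneous.prod _ _ _ fun a _ => cform_homog i a (e a)
  mem s hs := exists_pt C i hs
  nonconst := by
    refine ⟨![1, 0], ![0, 1], eA i, eB, ?_⟩
    have h1 : MvPolynomial.eval ![1, 0] (cc' i (eA i)) ≠ 0 := by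
      rw [eval_cc]
      exact Finset.prod_ne_zero_iff.mpr fun a _ => eval_eA i a _ (by simp)
    have h2 : MvPolynomial.eval ![0, 1] (cc' i eB) ≠ 0 := by
      rw [eval_cc]
      exact Finset.prod_ne_zero_iff.mpr fun a _ => eval_eB i a _ (by simp)
    have h3 : MvPolynomial.eval ![1, 0] (cc' i eB) = 0 := by
      rw [eval_cc]
      exact Finset.prod_eq_zero (Finset.mem_univ Ix.S) (by simp [cform, eB])
    rw [h3, zero_mul]
    exact mul_ne_zero h1 h2

/-- The points of the curve are characterised by congruences. -/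
theorem onCurve_of {P : (C.on Cfg.inX).Pt} (hτ : HasVal P (C.τ i) 0)
    (h1 : HasVal P (C.τ i / C.w) 0) (h2 : HasVal P (C.η / C.w) 0)
    (h3 : HasVal P (C.D i / C.w ^ 2) 0) : OnCurve (cc' i) P := by
  have hw := C.w_ne
  have hH := place P
  have key : ∃ (g : K) (a b : ℂ), g ≠ 0 ∧ (a ≠ 0 ∨ b ≠ 0) ∧ HasVal P g⁻¹ a ∧
      HasVal P (C.w / g) b := by
    obtain ⟨j, hj, hr⟩ := C.on_gen P (a := .S) rfl
    obtain ⟨a, ha⟩ := hr (some (0, 0))
    obtain ⟨b, hb⟩ := hr none
    set g := C.sys .S j with hg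
    have ha' : HasVal P g⁻¹ a := cong ha (by simp [Cfg.sys]) rfl
    have hb' : HasVal P (C.w / g) b := hb
    refine ⟨g, a, b, hj, ?_, ha', hb'⟩
    by_contra hab
    push Not at hab
    obtain ⟨rfl, rfl⟩ := hab
    have hx := H_x C hH hτ
    have hxg : HasVal P (C.x / g) 0 := cong (hH.mul hx ha') (by rw [div_eq_mul_inv]) (by ring)
    have hyg : HasVal P (C.y / g) 0 := cong (hH.add hxg (H_η C hH h2 hj hb'))
      (by simp only [Cfg.η]; ring) (by ring)
    have hxyg : HasVal P (C.x * C.y / g) 0 := cong (hH.mul hx hyg) (by ring) (by ring)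
    have h0 : HasVal P (C.sys .S j / g) 0 := by
      rcases j with _ | ⟨p, q⟩
      · exact hb'
      · fin_cases p
        · exact ha
        · exact hxg
        · exact hyg
        · exact hxyg
    rw [div_self hj] at h0
    exact zero_ne_one (hH.uniq h0 hH.one)
  obtain ⟨g, a, b, hg, hab, ha, hb⟩ := key
  have hs : ![a, b] ≠ 0 := by
    intro h
    rcases hab with h0 | h0
    · exact h0 (congrFun h 0)
    · exact h0 (congrFun h 1)
  obtain ⟨r, hr⟩ := pt_prop (P := P) (exists_eval_ne i hs) fun e =>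
    coord_val C hH hτ h1 h2 h3 hg ha hb e
  exact ⟨![a, b], r, hr⟩

end Curve

section OnCurve

variable (C : Cfg K) {i : Fin 5}

theorem cform_const {a : Ix} (ha : Cfg.inZ i a = true) (j : J) (s : Fin 2 → ℂ) :
    MvPolynomial.eval s (cform i a j) = MvPolynomial.eval 0 (cform i a j) := by
  rcases j with _ | ⟨p, q⟩
  · cases a with
    | U => simp [cform]
    | V => simp [cform]
    | W => simp [cform]
    | S => simp [Cfg.inZ] at ha
    | F l => simp [cform]
    | M k l => simp [cform]
    | N k l =>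
      simp only [Cfg.inZ, decide_eq_true_eq] at ha
      simp [cform, cN, ha]
  · cases a with
    | U =>
      simp only [cform]
      fin_cases p <;> simp
    | V => simp [cform]
    | W => simp [cform]
    | S => simp [Cfg.inZ] at ha
    | F l => simp [cform]
    | M k l =>
      simp only [Cfg.inZ, decide_eq_true_eq] at ha
      simp only [cform, cM, ha, true_or, if_true]
      fin_cases p <;> simp
    | N k l =>
      simp only [Cfg.inZ, decide_eq_true_eq] at ha
      simp only [cform, cM, ha, true_or, if_true]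
      fin_cases p <;> fin_cases q <;> simp

theorem cform_jo {a : Ix} (ha : Cfg.inZ i a = true) (s : Fin 2 → ℂ) :
    MvPolynomial.eval s (cform i a jo) = 1 := by
  cases a with
  | U => simp [cform]
  | V => simp [cform]
  | W => simp [cform]
  | S => simp [Cfg.inZ] at ha
  | F l => simp [cform]
  | M k l =>
    simp only [Cfg.inZ, decide_eq_true_eq] at ha
    simp [cform, cM, ha]
  | N k l =>
    simp only [Cfg.inZ, decide_eq_true_eq] at ha
    simp [cform, cM, ha]

theorem inZ_inX {a : Ix} (ha : Cfg.inZ i a = true) : Cfg.inX a = true := by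
  cases a <;> simp_all [Cfg.inZ, Cfg.inX]

/-- The systems of the base are constant along the curve. -/
theorem val_of_onCurve {P : (C.on Cfg.inX).Pt} (h : OnCurve (cc' i) P) {a : Ix}
    (ha : Cfg.inZ i a = true) (j : J) :
    HasVal P (C.sys a j / C.sys a jo) (MvPolynomial.eval 0 (cform i a j)) := by
  obtain ⟨s, r, hr⟩ := h
  obtain ⟨e0, he0⟩ := P.exists_ne
  have hr0 : r ≠ 0 := by
    rintro rfl
    rw [hr, zero_mul] at he0
    exact he0 rfl
  have hprod : ∀ a', MvPolynomial.eval s (cform i a' (e0 a')) ≠ 0 := by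
    rw [hr, eval_cc] at he0
    have := right_ne_zero_of_mul he0
    exact fun a' => Finset.prod_ne_zero_iff.mp this a' (Finset.mem_univ _)
  have hrest : ∏ a' ∈ Finset.univ.erase a, MvPolynomial.eval s (cform i a' (e0 a')) ≠ 0 :=
    Finset.prod_ne_zero_iff.mpr fun a' _ => hprod a'
  have hup : ∀ l : J, P.p (Function.update e0 a l) = r * (MvPolynomial.eval s (cform i a l) *
      ∏ a' ∈ Finset.univ.erase a, MvPolynomial.eval s (cform i a' (e0 a'))) := by
    intro l
    rw [hr, eval_cc, prod_update (fun a' l => MvPolynomial.eval s (cform i a' l)) e0 a l]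
  have h1 : P.p (Function.update e0 a jo) ≠ 0 := by
    rw [hup, cform_jo ha, one_mul]
    exact mul_ne_zero hr0 hrest
  have h2 := hasVal_ratio h1 (Function.update e0 a j)
  have h3 : P.p (Function.update e0 a j) / P.p (Function.update e0 a jo) =
      MvPolynomial.eval 0 (cform i a j) := by
    rw [hup, hup, cform_jo ha, cform_const ha j s]
    field_simp
  have h4 : (C.on Cfg.inX).x (Function.update e0 a j) /
      (C.on Cfg.inX).x (Function.update e0 a jo) = C.sys a j / C.sys a jo := by
    have h5 := fun a' => model_x_ne (P := P) h1 a'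
    have h6 := model_ratio (k := ℂ) (s := fun a => bif Cfg.inX a then C.sys a else fun _ => 1)
      (hs := fun a => by
        cases Cfg.inX a
        · simp
        · simpa using C.sys_ne a) (Function.update e0 a jo) h5 a j
    simp only [Function.update_idem, Function.update_self, inZ_inX ha, cond_true] at h6
    exact h6
  rw [h3, h4] at h2
  exact h2

end OnCurve

section Gen

variable (C : Cfg K) {H : K → ℂ → Prop} (hH : Place H) {i : Fin 5}
include hH

theorem gen_of_unit {s : J → K} {m : K} (h : ∀ j, ∃ c, H (s j / m) c) {j : J} {c : ℂ}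
    (hc : c ≠ 0) (hj : H (s j / m) c) : GenAt H s := by
  have h0 := hH.ne_zero hj hc
  have hs : s j ≠ 0 := fun h => h0 (by rw [h, zero_div])
  have hm : m ≠ 0 := fun h => h0 (by rw [h, div_zero])
  refine ⟨j, hs, fun l => ?_⟩
  obtain ⟨d, hd⟩ := h l
  exact ⟨d / c, cong (hH.div hd hj hc) (by field_simp) rfl⟩

/-- The system `S` has a generator if the generator of `M i i` or its inverse is regular. -/
theorem genS_of {m : K} (hm : m ≠ 0)
    (hmem : m = C.w ∨ m = C.η ∨ m = C.τ i * C.z i ∨ m = C.τ i)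
    (hw : ∃ c, H (C.w / m) c) (hη : ∃ c, H (C.η / m) c) (hp : ∃ c, H (C.τ i * C.z i / m) c)
    (hτ : ∃ c, H (C.τ i / m) c) (h : (∃ c, H m c) ∨ ∃ c, H m⁻¹ c) :
    GenAt H (C.sys .S) := by
  have R := Fl.Place.cl hH
  rcases h with h | h
  · have hw' : ∃ c, H C.w c := by
      have := R.mul hw h
      rwa [div_mul_cancel₀ _ hm] at this
    have hη' : ∃ c, H C.η c := by
      have := R.mul hη h
      rwa [div_mul_cancel₀ _ hm] at this
    have hτ' : ∃ c, H (C.τ i) c := by
      have := R.mul hτ h
      rwa [div_mul_cancel₀ _ hm] at this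
    have hx : ∃ c, H C.x c := by
      have := R.add hτ' (R.const (tt i))
      simpa [Cfg.τ] using this
    have hy : ∃ c, H C.y c := by
      have := R.add hη' hx
      simpa [Cfg.η] using this
    refine ⟨jo, C.sys_ne _, fun l => ?_⟩
    have e1 : C.sys .S jo = 1 := by simp [Cfg.sys]
    rw [e1, div_one]
    rcases l with _ | ⟨p, q⟩
    · exact hw'
    · fin_cases p
      · exact R.one
      · exact hx
      · exact hy
      · exact R.mul hx hy
  · have hx : ∃ c, H (C.x / m) c := by
      have := R.add hτ (R.mul (R.const (tt i)) h)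
      have e : C.τ i / m + cc K (tt i) * m⁻¹ = C.x / m := by
        simp only [Cfg.τ]
        field_simp
        ring
      rwa [e] at this
    have hy : ∃ c, H (C.y / m) c := by
      have := R.add hη hx
      have e : C.η / m + C.x / m = C.y / m := by
        simp only [Cfg.η]
        ring
      rwa [e] at this
    have hxy : ∃ c, H (C.x * C.y / m) c := by
      have := R.add hp (R.sub (R.mul (R.const (tt i)) (R.add hx hy))
        (R.mul (R.const (tt i * tt i)) h))
      have e : C.τ i * C.z i / m + (cc K (tt i) * (C.x / m + C.y / m) -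
          cc K (tt i * tt i) * m⁻¹) = C.x * C.y / m := by
        simp only [Cfg.τ, Cfg.z, map_mul]
        field_simp
        ring
      rwa [e] at this
    have hall : ∀ l : J, ∃ c, H (C.sys .S l / m) c := by
      rintro (_ | ⟨p, q⟩)
      · exact hw
      · fin_cases p
        · simpa [Cfg.sys] using h
        · exact hx
        · exact hy
        · exact hxy
    by_contra hne
    have hzero : ∀ l : J, H (C.sys .S l / m) 0 := by
      intro l
      obtain ⟨c, hc⟩ := hall l
      by_cases h0 : c = 0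
      · rwa [h0] at hc
      · exact absurd (gen_of_unit hH hall h0 hc) hne
    have z1 : H m⁻¹ 0 := cong (hzero (some (0, 0))) (by simp [Cfg.sys]) rfl
    have zx : H (C.x / m) 0 := hzero (some (1, 0))
    have zy : H (C.y / m) 0 := hzero (some (2, 0))
    have zxy : H (C.x * C.y / m) 0 := hzero (some (3, 0))
    have zw : H (C.w / m) 0 := hzero none
    have hmm : H (m / m) 0 := by
      rcases hmem with h1 | h1 | h1 | h1
      · exact cong zw (by rw [← h1]) rfl
      · refine cong (hH.sub zy zx) ?_ (by ring)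
        rw [← sub_div]
        change C.η / m = m / m
        rw [← h1]
      · refine cong (hH.sub zxy (hH.sub (hH.mul (hH.const (tt i)) (hH.add zx zy))
          (hH.mul (hH.const (tt i * tt i)) z1))) ?_ (by ring)
        have e : C.x * C.y / m - (cc K (tt i) * (C.x / m + C.y / m) -
            cc K (tt i * tt i) * m⁻¹) = C.τ i * C.z i / m := by
          simp only [Cfg.τ, Cfg.z, map_mul]
          field_simp
          ring
        exact e.trans (by rw [← h1])
      · refine cong (hH.sub zx (hH.mul (hH.const (tt i)) z1)) ?_ (by ring)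
        have e : C.x / m - cc K (tt i) * m⁻¹ = C.τ i / m := by
          simp only [Cfg.τ]
          field_simp
        exact e.trans (by rw [← h1])
    rw [div_self hm] at hmm
    exact zero_ne_one (hH.uniq hmm hH.one)

/-- Either the function `τ i` vanishes at the place or its inverse is regular. -/
theorem τ_cases (hU : GenAt H (C.sys .U)) : H (C.τ i) 0 ∨ ∃ c, H (C.τ i)⁻¹ c := by
  have h1 : ∀ c, H C.x c → H (C.τ i) 0 ∨ ∃ c, H (C.τ i)⁻¹ c := by
    intro c hc
    have h2 : H (C.τ i) (c - tt i) := hH.sub hc (hH.const (tt i))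
    by_cases h0 : c - tt i = 0
    · left
      rwa [h0] at h2
    · right
      exact ⟨_, hH.inv h2 h0⟩
  obtain ⟨j, hj, hr⟩ := hU
  rcases j with _ | ⟨p, q⟩
  · exact absurd rfl hj
  · fin_cases p
    · obtain ⟨c, hc⟩ := hr (some (1, 0))
      exact h1 c (cong hc (by simp [Cfg.sys]) rfl)
    · obtain ⟨c, hc⟩ := hr (some (0, 0))
      have hc' : H C.x⁻¹ c := cong hc (by simp [Cfg.sys]) rfl
      by_cases h0 : c = 0
      · right
        subst h0
        have hx := C.x_ne
        have h2 : H (1 - cc K (tt i) * C.x⁻¹) 1 :=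
          cong (hH.sub hH.one (hH.mul (hH.const (tt i)) hc')) rfl (by ring)
        refine ⟨0 * 1⁻¹, cong (hH.mul hc' (hH.inv h2 one_ne_zero)) ?_ rfl⟩
        rw [← mul_inv, Cfg.τ]
        congr 1
        field_simp
      · exact h1 c⁻¹ (cong (hH.inv hc' h0) (inv_inv _) rfl)
    · exact absurd rfl hj
    · exact absurd rfl hj

/-- The main case distinction. -/
theorem genS_or (hU : GenAt H (C.sys .U)) (hM : GenAt H (C.sys (.M i i)))
    (hN : GenAt H (C.sys (.N i i))) : GenAt H (C.sys .S) ∨
      (H (C.τ i) 0 ∧ H (C.τ i / C.w) 0 ∧ H (C.η / C.w) 0 ∧ H (C.D i / C.w ^ 2) 0) := by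
  have R := Fl.Place.cl hH
  have hτ0 := C.τ_ne i
  have hz0 := C.z_ne i
  have hw0 := C.w_ne
  have hη0 := C.η_ne
  have hD0 := C.D_ne i
  obtain ⟨j, hj, hr⟩ := hM
  set m := C.sys (.M i i) j with hm
  have hmr : ∀ p, ∃ c, H (C.m i i p / m) c := fun p => hr (some (p, 0))
  have hwm : ∃ c, H (C.w / m) c := hmr 0
  have hηm : ∃ c, H (C.η / m) c := hmr 1
  have hpm : ∃ c, H (C.τ i * C.z i / m) c := hmr 2
  have hτm : ∃ c, H (C.τ i / m) c := by simpa [Cfg.m] using hmr 3
  have hmem : m = C.w ∨ m = C.η ∨ m = C.τ i * C.z i ∨ m = C.τ i := by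
    rcases j with _ | ⟨p, q⟩
    · exact absurd rfl hj
    · fin_cases p
      · exact Or.inl rfl
      · exact Or.inr (Or.inl rfl)
      · exact Or.inr (Or.inr (Or.inl rfl))
      · exact Or.inr (Or.inr (Or.inr (by simp [hm, Cfg.sys, Cfg.m])))
  have key : (∃ c, H m c) ∨ (∃ c, H m⁻¹ c) → GenAt H (C.sys .S) :=
    genS_of C hH hj hmem hwm hηm hpm hτm
  rcases τ_cases C hH (i := i) hU with hτ | hτ
  swap
  · left
    refine key (Or.inr ?_)
    have := R.mul hτ hτm
    have e : (C.τ i)⁻¹ * (C.τ i / m) = m⁻¹ := by field_simp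
    rwa [e] at this
  obtain ⟨cτ, hτm⟩ := hτm
  by_cases hcτ : cτ = 0
  swap
  · left
    refine key (Or.inl ⟨_, cong (hH.div hτ hτm hcτ) ?_ rfl⟩)
    field_simp
  subst hcτ
  obtain ⟨cp, hpm⟩ := hpm
  by_cases hcp : cp = 0
  swap
  · exfalso
    have h1 : H (C.z i)⁻¹ (0 / cp) := cong (hH.div hτm hpm hcp) (by field_simp) rfl
    obtain ⟨cη, hηm⟩ := hηm
    have h2 : H (C.η / (C.τ i * C.z i)) (cη / cp) :=
      cong (hH.div hηm hpm hcp) (by field_simp) rfl
    have h3 : H (C.η / C.z i) 1 := by
      refine cong (hH.sub hH.one (hH.mul hτ h1)) ?_ (by ring)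
      have e : C.η = C.z i - C.τ i := by simp only [Cfg.η, Cfg.z, Cfg.τ]; ring
      rw [e]
      field_simp
    have h4 := hH.mul hτ (hH.div h2 h3 one_ne_zero)
    have e : C.τ i * (C.η / (C.τ i * C.z i) / (C.η / C.z i)) = 1 := by field_simp
    rw [e, zero_mul] at h4
    exact zero_ne_one (hH.uniq h4 hH.one)
  subst hcp
  obtain ⟨cη, hηm⟩ := hηm
  obtain ⟨jn, hjn, hnr⟩ := hN
  by_cases hcη : cη = 0
  swap
  · left
    have h1 : H (C.τ i / C.η) (0 / cη) := cong (hH.div hτm hηm hcη) (by field_simp) rfl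
    have h2 : H (C.D i / C.η) (C.κ i) := by
      refine cong (hH.add h1 (hH.const (C.κ i))) ?_ (by ring)
      simp only [Cfg.D]
      field_simp
    rcases jn with _ | ⟨p, q⟩
    · have h3 : ∃ c, H (C.η * C.η / C.D i) c := by
        have := hnr (some (1, 1))
        simpa [Cfg.sys, Cfg.m] using this
      obtain ⟨c3, h3⟩ := h3
      refine key (Or.inl ⟨_, cong (hH.div (hH.mul h3 h2) hηm hcη) ?_ rfl⟩)
      field_simp
    · have h3 : ∃ c, H (C.D i / (C.m i i p * C.m i i q)) c := by
        have := hnr none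
        simpa [Cfg.sys] using this
      have h4 : C.m i i p * C.m i i q ≠ 0 := hjn
      have h5 := left_ne_zero_of_mul h4
      have h6 := right_ne_zero_of_mul h4
      obtain ⟨c3, h3⟩ := h3
      obtain ⟨c4, h4⟩ := hmr p
      obtain ⟨c5, h5⟩ := hmr q
      have h7 := hH.div (hH.mul h3 (hH.mul h4 h5)) (hH.mul h2 hηm)
        (mul_ne_zero (C.κ0 i) hcη)
      refine key (Or.inr ⟨_, cong h7 ?_ rfl⟩)
      field_simp
  subst hcη
  have hmw : m = C.w := by
    rcases hmem with h1 | h1 | h1 | h1
    · exact h1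
    · rw [← h1, div_self hj] at hηm
      exact absurd (hH.uniq hηm hH.one) zero_ne_one
    · rw [← h1, div_self hj] at hpm
      exact absurd (hH.uniq hpm hH.one) zero_ne_one
    · rw [← h1, div_self hj] at hτm
      exact absurd (hH.uniq hτm hH.one) zero_ne_one
  rw [hmw] at hτm hηm hpm hmr key
  have hDw : H (C.D i / C.w) 0 := by
    refine cong (hH.add hτm (hH.mul (hH.const (C.κ i)) hηm)) ?_ (by ring)
    simp only [Cfg.D]
    ring
  rcases jn with _ | ⟨p, q⟩
  · left
    have h3 : ∃ c, H (C.w * C.w / C.D i) c := by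
      have := hnr (some (0, 0))
      simpa [Cfg.sys, Cfg.m] using this
    obtain ⟨c3, h3⟩ := h3
    refine key (Or.inl ⟨_, cong (hH.mul h3 hDw) ?_ rfl⟩)
    field_simp
  · have h3 : ∃ c, H (C.D i / (C.m i i p * C.m i i q)) c := by
      have := hnr none
      simpa [Cfg.sys] using this
    have h4 : C.m i i p * C.m i i q ≠ 0 := hjn
    have h5 := left_ne_zero_of_mul h4
    have h6 := right_ne_zero_of_mul h4
    obtain ⟨c3, h3⟩ := h3
    obtain ⟨c4, h4⟩ := hmr p
    obtain ⟨c5, h5⟩ := hmr q
    have h7 : H (C.D i / C.w ^ 2) (c3 * (c4 * c5)) :=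
      cong (hH.mul h3 (hH.mul h4 h5)) (by field_simp) rfl
    by_cases h8 : c3 * (c4 * c5) = 0
    · right
      rw [h8] at h7
      exact ⟨hτ, hτm, hηm, h7⟩
    · left
      refine key (Or.inl ⟨_, cong (hH.div hDw h7 h8) ?_ rfl⟩)
      field_simp

end Gen

end CZ

namespace Cfg

variable {K : Type} [Field K] [Algebra ℂ K] (C : Cfg K)

/-- The model `X` contracts precisely one curve to the model of the systems `inZ i`. -/
theorem contr_Z (i : Fin 5) : (C.on inX).ContractsOneCurve (C.on (inZ i)) := by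
  have hdom : (C.on inX).Dominates (C.on (inZ i)) :=
    C.on_dominates_on fun a ha => CZ.inZ_inX ha
  refine ⟨hdom, ∑ a, CZ.cdeg i a, CZ.cc' i, CZ.isRatCurve C i, fun P P' => ⟨?_, ?_⟩⟩
  · rintro ⟨Q, hQ, hQ'⟩
    have hH := place_inter (place P) (place P')
    have hgen : ∀ a, inZ i a = true →
        GenAt (fun z c => HasVal P z c ∧ HasVal P' z c) (C.sys a) := by
      intro a ha
      obtain ⟨j, hj, hr⟩ := C.on_gen Q ha
      refine ⟨j, hj, fun l => ?_⟩
      obtain ⟨c, hc⟩ := hr l
      exact ⟨c, hQ _ _ hc, hQ' _ _ hc⟩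
    have hM : ∀ l, GenAt (fun z c => HasVal P z c ∧ HasVal P' z c) (C.sys (.M i l)) :=
      fun l => hgen _ (by simp [inZ])
    have hN : ∀ l, GenAt (fun z c => HasVal P z c ∧ HasVal P' z c) (C.sys (.N i l)) :=
      fun l => hgen _ (by simp [inZ])
    rcases CZ.genS_or C hH (hgen .U rfl) (hM i) (hN i) with hS | ⟨h1, h2, h3, h4⟩
    · left
      obtain ⟨T, hT⟩ := C.chart_exists hH (hgen .U rfl) hS (by
        intro l hx hy hw
        by_cases hl : l = i
        · subst hl
          exact C.cluster_self hH hx hy hw (hM l) (hN l)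
        · exact C.cluster_other hH (Ne.symm hl) hx hy hw (hM l) (hN l))
      obtain ⟨Q', hQ'⟩ := C.on_exists hH fun a ha => Cfg.IsChart.genAt C hH hT ha
      exact CZ.same_of_two hQ'
    · right
      exact ⟨CZ.onCurve_of C i h1.1 h2.1 h3.1 h4.1, CZ.onCurve_of C i h1.2 h2.2 h3.2 h4.2⟩
  · rintro (⟨r, hr⟩ | ⟨hP, hP'⟩)
    · obtain ⟨Q, hQ⟩ := hdom P
      exact ⟨Q, hQ, fun z c hz => hasVal_of_same hr (hQ z c hz)⟩
    · have hH := place_inter (place P) (place P')
      obtain ⟨Q, hQ⟩ := C.on_exists (s := inZ i) hH fun a ha =>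
        ⟨jo, C.sys_ne a, fun j => ⟨_, CZ.val_of_onCurve C hP ha j, CZ.val_of_onCurve C hP' ha j⟩⟩
      exact ⟨Q, fun z c hz => (hQ z c hz).1, fun z c hz => (hQ z c hz).2⟩

end Cfg

end Pool.Agent.Helper43.Fl
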