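import Pool.Agent.Helper43.FlChart0

open scoped KaehlerDifferential

noncomputable section

namespace Pool.Agent.Helper43.Fl

open Pool.Agent.Helper43 Pool.Agent.Helper43.ProjVar

variable {K : Type} [Field K] [Algebra ℂ K]

namespace Cfg

variable (C : Cfg K) (u : DivVal ℂ K 2)

/-- The function or its inverse is regular at the place. -/
def RI (H : K → ℂ → Prop) (f : K) : Prop := (∃ c, H f c) ∨ ∃ c, H f⁻¹ c

/-- The place has a centre on the surface. -/
structure Good (H : K → ℂ → Prop) : Prop where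
  x : RI H C.x
  y : RI H C.y
  D : ∀ i, H (C.τ i) 0 → H (C.z i) 0 → RI H (C.D i / C.τ i ^ 2)

section aux

variable {H : K → ℂ → Prop}

theorem RI.cases (hH : Place H) {f : K} (h : RI H f) : (∃ c, H f⁻¹ c) ∨ H f 0 := by
  rcases h with ⟨c, hc⟩ | h
  · by_cases h0 : c = 0
    · exact Or.inr (h0 ▸ hc)
    · exact Or.inl ⟨_, hH.inv hc h0⟩
  · exact Or.inl h

theorem RI.cases' (hH : Place H) {f : K} (h : RI H f) : (∃ c, H f c) ∨ H f⁻¹ 0 := by
  rcases h with h | ⟨c, hc⟩
  · exact Or.inl h
  · by_cases h0 : c = 0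
    · exact Or.inr (h0 ▸ hc)
    · have := hH.inv hc h0
      rw [inv_inv] at this
      exact Or.inl ⟨_, this⟩

theorem RI.add (hH : Place H) {f : K} (t : ℂ) (h : RI H f) : RI H (cc K t + f) := by
  rcases h.cases' hH with ⟨c, hc⟩ | hc
  · exact Or.inl ⟨_, hH.add (hH.const t) hc⟩
  · by_cases hf : f = 0
    · subst hf
      exact Or.inl ⟨_, hH.add (hH.const t) hH.zero⟩
    · right
      have h1 : H (cc K t * f⁻¹ + 1) (t * 0 + 1) := hH.add (hH.mul (hH.const t) hc) hH.one
      have h2 := hH.mul hc (hH.inv h1 (by simp))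
      have e : f⁻¹ * (cc K t * f⁻¹ + 1)⁻¹ = (cc K t + f)⁻¹ := by
        rw [← mul_inv]
        congr 1
        field_simp
      rw [e] at h2
      exact ⟨_, h2⟩

omit [Algebra ℂ K] in
theorem RI.inv {f : K} (h : RI H f) : RI H f⁻¹ := by
  rcases h with h | h
  · right; rwa [inv_inv]
  · exact Or.inl h

end aux

theorem τ_add (i : Fin 5) : C.τ i = cc K (-tt i) + C.x := by
  rw [τ, cc_neg]; ring

theorem z_add (i : Fin 5) : C.z i = cc K (-tt i) + C.y := by
  rw [z, cc_neg]; ring

theorem one_sub_κ (i : Fin 5) : (1 : ℂ) - C.κ i ≠ 0 := sub_ne_zero.mpr (C.κ1 i).symm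

/-- Both coordinates vanish and `D / τ ^ 2` is regular: the value of `z / τ`. -/
theorem val_zτ {H : K → ℂ → Prop} (hH : Place H) {i : Fin 5} (h1 : H (C.τ i) 0) {c : ℂ}
    (h : H (C.D i / C.τ i ^ 2) c) : H (C.z i / C.τ i) (-(1 - C.κ i) / C.κ i) := by
  have h2 : H (cc K (C.κ i)⁻¹ * (C.D i / C.τ i ^ 2 * C.τ i - cc K (1 - C.κ i)))
      ((C.κ i)⁻¹ * (c * 0 - (1 - C.κ i))) :=
    hH.mul (hH.const _) (hH.sub (hH.mul h h1) (hH.const _))
  have e : cc K (C.κ i)⁻¹ * (C.D i / C.τ i ^ 2 * C.τ i - cc K (1 - C.κ i)) =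
      C.z i / C.τ i := by
    have h3 := C.τ_ne i
    have h4 : cc K (C.κ i) ≠ 0 := cc_ne (C.κ0 i)
    rw [cc_inv]
    field_simp
    rw [C.D_eq]
    ring
  rw [e] at h2
  convert h2 using 1
  ring

theorem val_ne (i : Fin 5) : -(1 - C.κ i) / C.κ i ≠ 0 :=
  div_ne_zero (neg_ne_zero.mpr (C.one_sub_κ i)) (C.κ0 i)

theorem good_point (P : (C.on inF).Pt) : C.Good (HasVal P) := by
  have hH : Place (HasVal P) := place P
  have hU : GenAt (HasVal P) (C.sys .U) := C.on_gen P rfl
  have hV : GenAt (HasVal P) (C.sys .V) := C.on_gen P rfl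
  refine ⟨?_, ?_, ?_⟩
  · obtain ⟨j, hj, h⟩ := hU
    match j, hj, h with
    | none, hj, _ => simp [sys] at hj
    | some (0, _), _, h =>
      left
      simpa [sys] using h (some (1, 0))
    | some (1, _), _, h =>
      right
      simpa [sys] using h (some (0, 0))
    | some (2, _), hj, _ => simp [sys] at hj
    | some (3, _), hj, _ => simp [sys] at hj
  · obtain ⟨j, hj, h⟩ := hV
    match j, hj, h with
    | none, hj, _ => simp [sys] at hj
    | some (0, _), _, h =>
      left
      simpa [sys] using h (some (1, 0))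
    | some (1, _), _, h =>
      right
      simpa [sys] using h (some (0, 0))
    | some (2, _), hj, _ => simp [sys] at hj
    | some (3, _), hj, _ => simp [sys] at hj
  · intro i h1 h2
    have hF : GenAt (HasVal P) (C.sys (.F i)) := C.on_gen P rfl
    obtain ⟨j, hj, h⟩ := hF
    have hτ := C.τ_ne i
    have hz := C.z_ne i
    have hD := C.D_ne i
    match j, hj, h with
    | none, hj, _ => simp [sys] at hj
    | some (0, q), _, h =>
      exfalso
      obtain ⟨c, hc⟩ := h (some (1, 0))
      have h3 := hH.mul hc (hH.pow h2 2)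
      have e : C.sys (.F i) (some (1, 0)) / C.sys (.F i) (some (0, q)) * C.z i ^ 2 = 1 := by
        simp only [sys, Matrix.cons_val_zero, Matrix.cons_val_one]
        field_simp
      rw [e] at h3
      have := hH.uniq h3 hH.one
      simp at this
    | some (1, _), _, h =>
      left
      simpa [sys] using h (some (3, 0))
    | some (3, _), _, h =>
      right
      have := h (some (1, 0))
      simpa [sys] using this
    | some (2, _), _, h =>
      left
      have h3 : ∃ c, HasVal P (C.D i / C.z i ^ 2) c := by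
        simpa [sys] using h (some (3, 0))
      obtain ⟨c, hc⟩ := h3
      have hκ : cc K (1 - C.κ i) ≠ 0 := cc_ne (C.one_sub_κ i)
      have h4 : HasVal P (cc K (1 - C.κ i)⁻¹ * (C.D i / C.z i ^ 2 * C.z i - cc K (C.κ i)))
          ((1 - C.κ i)⁻¹ * (c * 0 - C.κ i)) :=
        hH.mul (hH.const _) (hH.sub (hH.mul hc h2) (hH.const _))
      have e : cc K (1 - C.κ i)⁻¹ * (C.D i / C.z i ^ 2 * C.z i - cc K (C.κ i)) =
          C.τ i / C.z i := by
        rw [cc_inv]
        field_simp
        rw [C.D_eq]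
        ring
      rw [e] at h4
      have h5 : (1 - C.κ i)⁻¹ * (c * 0 - C.κ i) ≠ 0 := by
        rw [mul_zero, zero_sub]
        exact mul_ne_zero (inv_ne_zero (C.one_sub_κ i)) (neg_ne_zero.mpr (C.κ0 i))
      have h6 := hH.mul hc (hH.pow (hH.inv h4 h5) 2)
      have e2 : C.D i / C.z i ^ 2 * (C.τ i / C.z i)⁻¹ ^ 2 = C.D i / C.τ i ^ 2 := by
        field_simp
      rw [e2] at h6
      exact ⟨_, h6⟩

theorem good_dom {H : K → ℂ → Prop} (hH : Place H) (h : C.Good H) {a : Ix} (ha : inP a = true) :
    GenAt H (C.sys a) := by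
  have key : ∀ f : K, f ≠ 0 → RI H f → ∀ s : J → K,
      (∀ p q, s (some (p, q)) = (![1, f, 0, 0] : Fin 4 → K) p) → s none = 0 → GenAt H s := by
    intro f hf hr s hs hn
    rcases hr with ⟨c, hc⟩ | ⟨c, hc⟩
    · refine ⟨some (0, 0), by rw [hs]; simp, fun j => ?_⟩
      rw [hs 0 0]
      match j with
      | none => rw [hn]; exact ⟨0, by simpa using hH.zero⟩
      | some (0, q) => rw [hs]; exact ⟨1, by simpa using hH.one⟩
      | some (1, q) => rw [hs]; exact ⟨c, by simpa using hc⟩
      | some (2, q) => rw [hs]; exact ⟨0, by simpa using hH.zero⟩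
      | some (3, q) => rw [hs]; exact ⟨0, by simpa using hH.zero⟩
    · refine ⟨some (1, 0), by rw [hs]; simpa using hf, fun j => ?_⟩
      rw [hs 1 0]
      match j with
      | none => rw [hn]; exact ⟨0, by simpa using hH.zero⟩
      | some (0, q) => rw [hs]; exact ⟨c, by simpa using hc⟩
      | some (1, q) => rw [hs]; exact ⟨1, by simpa [hf] using hH.one⟩
      | some (2, q) => rw [hs]; exact ⟨0, by simpa using hH.zero⟩
      | some (3, q) => rw [hs]; exact ⟨0, by simpa using hH.zero⟩
  cases a with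
  | U => exact key C.x C.x_ne h.x _ (fun _ _ => rfl) rfl
  | V => exact key C.y C.y_ne h.y _ (fun _ _ => rfl) rfl
  | W => simp [inP] at ha
  | S => simp [inP] at ha
  | M i j => simp [inP] at ha
  | N i j => simp [inP] at ha
  | F i => simp [inP] at ha

theorem good_B {H : K → ℂ → Prop} (hH : Place H) {i : Fin 5}
    (h : ∀ j, j ≠ i → C.κ i + C.κ j ≠ 1) (hg : C.Good H) : (C.B i h).Good H := by
  have hτ := C.τ_ne i
  have hz := C.z_ne i
  have hD := C.D_ne i
  have hRτ : RI H (C.τ i) := by rw [τ_add]; exact hg.x.add hH _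
  have hRz : RI H (C.z i) := by rw [z_add]; exact hg.y.add hH _
  have hκ := C.κ0 i
  have hκ' := C.one_sub_κ i
  have hcκ : cc K (C.κ i) ≠ 0 := cc_ne hκ
  have hcκ' : cc K (1 - C.κ i) ≠ 0 := cc_ne hκ'
  refine ⟨hg.x, ?_, ?_⟩
  · rw [B_y]
    refine RI.add hH _ ?_
    rcases hRτ.cases hH with ⟨c, hc⟩ | h1
    · rcases hRz.cases hH with ⟨c', hc'⟩ | h2
      · right
        have h3 := hH.add (hH.mul (hH.const (1 - C.κ i)) hc') (hH.mul (hH.const (C.κ i)) hc)
        have e : cc K (1 - C.κ i) * (C.z i)⁻¹ + cc K (C.κ i) * (C.τ i)⁻¹ =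
            (C.τ i * C.z i / C.D i)⁻¹ := by
          rw [inv_div]
          field_simp
          rw [C.D_eq]
          ring
        rw [e] at h3
        exact ⟨_, h3⟩
      · left
        have h3 := hH.add (hH.const (1 - C.κ i)) (hH.mul (hH.const (C.κ i)) (hH.mul h2 hc))
        have h4 := hH.mul h2 (hH.inv h3 (by simpa using hκ'))
        have e0 : C.D i = (cc K (1 - C.κ i) + cc K (C.κ i) * (C.z i * (C.τ i)⁻¹)) * C.τ i := by
          rw [C.D_eq]
          field_simp
        have e : C.z i * (cc K (1 - C.κ i) + cc K (C.κ i) * (C.z i * (C.τ i)⁻¹))⁻¹ =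
            C.τ i * C.z i / C.D i := by
          have h5 : cc K (1 - C.κ i) + cc K (C.κ i) * (C.z i * (C.τ i)⁻¹) ≠ 0 := by
            intro h6
            rw [h6, zero_mul] at e0
            exact hD e0
          rw [e0]
          field_simp
        rw [e] at h4
        exact ⟨_, h4⟩
    · rcases hRz.cases hH with ⟨c', hc'⟩ | h2
      · left
        have h3 := hH.add (hH.mul (hH.const (1 - C.κ i)) (hH.mul h1 hc')) (hH.const (C.κ i))
        have h4 := hH.mul h1 (hH.inv h3 (by simpa using hκ))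
        have e0 : C.D i = (cc K (1 - C.κ i) * (C.τ i * (C.z i)⁻¹) + cc K (C.κ i)) * C.z i := by
          rw [C.D_eq]
          field_simp
        have e : C.τ i * (cc K (1 - C.κ i) * (C.τ i * (C.z i)⁻¹) + cc K (C.κ i))⁻¹ =
            C.τ i * C.z i / C.D i := by
          have h5 : cc K (1 - C.κ i) * (C.τ i * (C.z i)⁻¹) + cc K (C.κ i) ≠ 0 := by
            intro h6
            rw [h6, zero_mul] at e0
            exact hD e0
          rw [e0]
          field_simp
        rw [e] at h4
        exact ⟨_, h4⟩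
      · rcases hg.D i h1 h2 with ⟨c, hc⟩ | ⟨c, hc⟩
        · right
          have h3 := C.val_zτ hH h1 hc
          have h4 := hH.mul hc (hH.inv h3 (C.val_ne i))
          have e : C.D i / C.τ i ^ 2 * (C.z i / C.τ i)⁻¹ = (C.τ i * C.z i / C.D i)⁻¹ := by
            field_simp
          rw [e] at h4
          exact ⟨_, h4⟩
        · left
          have h3 := hH.mul (hH.const (C.κ i)⁻¹)
            (hH.sub h1 (hH.mul (hH.const (1 - C.κ i)) hc))
          have e : cc K (C.κ i)⁻¹ * (C.τ i - cc K (1 - C.κ i) * (C.D i / C.τ i ^ 2)⁻¹) =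
              C.τ i * C.z i / C.D i := by
            rw [cc_inv]
            field_simp
            rw [C.D_eq]
            ring
          rw [e] at h3
          exact ⟨_, h3⟩
  · intro j hj1 hj2
    rw [B_τ] at hj1
    rw [B_τ]
    by_cases hji : j = i
    · subst hji
      rw [B_D_self]
      have e : C.τ j ^ 2 / C.D j / C.τ j ^ 2 = (C.D j)⁻¹ := by
        field_simp
      rw [e]
      apply RI.inv
      rcases hRz.cases' hH with ⟨c, hc⟩ | hc
      · left
        rw [C.D_eq]
        exact ⟨_, hH.add (hH.mul (hH.const _) hj1) (hH.mul (hH.const _) hc)⟩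
      · right
        have h3 := hH.add (hH.mul (hH.const (1 - C.κ j)) (hH.mul hj1 hc)) (hH.const (C.κ j))
        have h4 := hH.mul hc (hH.inv h3 (by simpa using hκ))
        have e : (C.z j)⁻¹ * (cc K (1 - C.κ j) * (C.τ j * (C.z j)⁻¹) + cc K (C.κ j))⁻¹ =
            (C.D j)⁻¹ := by
          rw [← mul_inv]
          congr 1
          rw [C.D_eq]
          field_simp
        rw [e] at h4
        exact ⟨_, h4⟩
    · rw [B_z] at hj2
      set a : ℂ := tt j - tt i with ha
      have ha0 : a ≠ 0 := tt_sub hji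
      have h1 : H (C.τ i) a := by
        have := hH.add hj1 (hH.const a)
        rw [zero_add] at this
        have e : C.τ j + cc K a = C.τ i := by
          rw [ha, cc_sub, τ, τ]; ring
        rwa [e] at this
      have h2 : H (C.τ i * C.z i / C.D i) a := by
        have := hH.add hj2 (hH.const a)
        rw [zero_add] at this
        have e : C.τ i * C.z i / C.D i + cc K (tt i - tt j) + cc K a =
            C.τ i * C.z i / C.D i := by
          rw [ha, cc_sub, cc_sub]; ring
        rwa [e] at this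
      -- `z_i / D_i` has value one
      have h3 : H (C.z i / C.D i) 1 := by
        have := hH.mul h2 (hH.inv h1 ha0)
        rw [mul_inv_cancel₀ ha0] at this
        have e : C.τ i * C.z i / C.D i * (C.τ i)⁻¹ = C.z i / C.D i := by
          field_simp
        rwa [e] at this
      have h4 : H (C.τ i / C.D i) 1 := by
        have := hH.mul (hH.const (1 - C.κ i)⁻¹)
          (hH.sub hH.one (hH.mul (hH.const (C.κ i)) h3))
        have e1 : (1 - C.κ i)⁻¹ * (1 - C.κ i * 1) = 1 := by
          rw [mul_one]; exact inv_mul_cancel₀ hκ'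
        rw [e1] at this
        have e : cc K (1 - C.κ i)⁻¹ * (1 - cc K (C.κ i) * (C.z i / C.D i)) =
            C.τ i / C.D i := by
          rw [cc_inv]
          field_simp
          rw [C.D_eq]
          ring
        rwa [e] at this
      have h5 : H (C.D i)⁻¹ a⁻¹ := by
        have := hH.mul h4 (hH.inv h1 ha0)
        rw [one_mul] at this
        have e : C.τ i / C.D i * (C.τ i)⁻¹ = (C.D i)⁻¹ := by
          field_simp
        rwa [e] at this
      have h6 : H (C.D i) a := by
        have := hH.inv h5 (inv_ne_zero ha0)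
        rwa [inv_inv, inv_inv] at this
      have h7 : H (C.z i) a := by
        have := hH.mul h3 h6
        rw [one_mul] at this
        have e : C.z i / C.D i * C.D i = C.z i := by field_simp
        rwa [e] at this
      have h8 : H (C.z j) 0 := by
        have := hH.sub h7 (hH.const a)
        rw [sub_self] at this
        have e : C.z i - cc K a = C.z j := by
          rw [ha, cc_sub, z, z]; ring
        rwa [e] at this
      have hτj := C.τ_ne j
      have hDj := C.D_ne j
      have hκj := C.κ0 j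
      have hcκj : cc K (C.κ j) ≠ 0 := cc_ne hκj
      rw [C.B_D h hji]
      -- the new function
      have hη : C.η = (C.D j - C.τ j) / cc K (C.κ j) := by
        rw [eq_div_iff hcκj, D]; ring
      have hη' : C.D i - C.τ i = cc K (C.κ i) * C.η := by
        rw [D]; ring
      have hη2 : cc K (C.κ j) * C.η = C.D j - C.τ j := by
        rw [D]; ring
      have key : C.τ j + cc K (C.κ j) * C.η * C.τ i / C.D i =
          C.D j - cc K (C.κ i) * C.η * (cc K (C.κ j) * C.η) / C.D i := by
        rw [← hη', hη2]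
        field_simp
        ring
      have key2 : cc K (C.κ i) * C.η * (cc K (C.κ j) * C.η) =
          cc K (C.κ i / C.κ j) * (C.D j - C.τ j) ^ 2 := by
        rw [hη2, hη, cc_div]
        field_simp
      rw [key, key2]
      have case1 : (∃ c, H (C.D j / C.τ j ^ 2) c) →
          RI H ((C.D j - cc K (C.κ i / C.κ j) * (C.D j - C.τ j) ^ 2 / C.D i) / C.τ j ^ 2) := by
        rintro ⟨c, hc⟩
        left
        have h9 := hH.sub hc (hH.mul (hH.mul (hH.const (C.κ i / C.κ j))
          (hH.pow (hH.sub (hH.mul hc hj1) hH.one) 2)) h5)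
        have e : C.D j / C.τ j ^ 2 - cc K (C.κ i / C.κ j) *
            (C.D j / C.τ j ^ 2 * C.τ j - 1) ^ 2 * (C.D i)⁻¹ =
            (C.D j - cc K (C.κ i / C.κ j) * (C.D j - C.τ j) ^ 2 / C.D i) / C.τ j ^ 2 := by
          field_simp
        rw [e] at h9
        exact ⟨_, h9⟩
      rcases (hg.D j hj1 h8).cases' hH with h9 | h9
      · exact case1 h9
      · right
        have h10 : H (C.D j) 0 := by
          have := hH.add (hH.mul (hH.const (1 - C.κ j)) hj1) (hH.mul (hH.const (C.κ j)) h8)
          rw [← C.D_eq] at this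
          simpa using this
        have h11 := hH.sub hH.one (hH.mul (hH.mul (hH.const (C.κ i / C.κ j))
          (hH.add (hH.sub h10 (hH.mul (hH.const 2) hj1)) h9)) h5)
        have h12 := hH.mul h9 (hH.inv h11 (by simp))
        have e : (C.D j / C.τ j ^ 2)⁻¹ * (1 - cc K (C.κ i / C.κ j) *
            (C.D j - cc K 2 * C.τ j + (C.D j / C.τ j ^ 2)⁻¹) * (C.D i)⁻¹)⁻¹ =
            ((C.D j - cc K (C.κ i / C.κ j) * (C.D j - C.τ j) ^ 2 / C.D i) / C.τ j ^ 2)⁻¹ := by
          rw [← mul_inv]
          congr 1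
          have e2 : cc K 2 = 2 := map_ofNat _ 2
          rw [e2]
          field_simp
          ring
        rw [e] at h12
        exact ⟨_, h12⟩

theorem good_sw {H : K → ℂ → Prop} (hH : Place H) (hg : C.Good H) : C.sw.Good H := by
  refine ⟨hg.y, hg.x, ?_⟩
  intro j h2 h1
  rw [sw_τ] at h2
  rw [sw_z] at h1
  rw [sw_τ, sw_D]
  have hτ := C.τ_ne j
  have hz := C.z_ne j
  have hD := C.D_ne j
  have hκ := C.κ0 j
  have hκ' := C.one_sub_κ j
  have hcκ : cc K (C.κ j) ≠ 0 := cc_ne hκ
  rcases (hg.D j h1 h2).cases' hH with ⟨c, hc⟩ | hc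
  · left
    have h3 := C.val_zτ hH h1 hc
    have h4 := hH.mul hc (hH.pow (hH.inv h3 (C.val_ne j)) 2)
    have e : C.D j / C.τ j ^ 2 * (C.z j / C.τ j)⁻¹ ^ 2 = C.D j / C.z j ^ 2 := by
      field_simp
    rw [e] at h4
    exact ⟨_, h4⟩
  · right
    have h10 : H (C.D j) 0 := by
      have := hH.add (hH.mul (hH.const (1 - C.κ j)) h1) (hH.mul (hH.const (C.κ j)) h2)
      rw [← C.D_eq] at this
      simpa using this
    have h3 := hH.mul (hH.const ((C.κ j)⁻¹ ^ 2)) (hH.add (hH.sub h10
      (hH.mul (hH.const (2 * (1 - C.κ j))) h1)) (hH.mul (hH.const ((1 - C.κ j) ^ 2)) hc))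
    have e : cc K ((C.κ j)⁻¹ ^ 2) * (C.D j - cc K (2 * (1 - C.κ j)) * C.τ j +
        cc K ((1 - C.κ j) ^ 2) * (C.D j / C.τ j ^ 2)⁻¹) = (C.D j / C.z j ^ 2)⁻¹ := by
      have e2 : cc K ((C.κ j)⁻¹ ^ 2) = (cc K (C.κ j))⁻¹ ^ 2 := by
        rw [← cc_inv]; exact map_pow _ _ _
      have e3 : cc K (2 * (1 - C.κ j)) = 2 * cc K (1 - C.κ j) := by
        rw [cc_mul]
        congr 1
        exact map_ofNat _ 2
      have e4 : cc K ((1 - C.κ j) ^ 2) = cc K (1 - C.κ j) ^ 2 := map_pow _ _ _
      have e5 : cc K (C.κ j) * C.z j = C.D j - cc K (1 - C.κ j) * C.τ j := by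
        rw [C.D_eq]; ring
      rw [e2, e3, e4, inv_div, inv_div]
      have e6 : C.z j = (C.D j - cc K (1 - C.κ j) * C.τ j) / cc K (C.κ j) := by
        rw [eq_div_iff hcκ, ← e5]; ring
      rw [e6]
      field_simp
      ring
    rw [e] at h3
    exact ⟨_, h3⟩

end Cfg

end Pool.Agent.Helper43.Fl
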