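import Pool.Agent.Helper43.FlChart0

open scoped KaehlerDifferential

noncomputable section

namespace Pool.Agent.Helper43.Fl

open Pool.Agent.Helper43 Pool.Agent.Helper43.ProjVar

variable {K : Type} [Field K] [Algebra ℂ K]

namespace Cfg

variable (C : Cfg K)

/-- The gradient of a function with respect to the coordinates. -/
def Gr (f a b c : K) : Prop :=
  KaehlerDifferential.D ℂ K f = a • KaehlerDifferential.D ℂ K C.x +
    b • KaehlerDifferential.D ℂ K C.y + c • KaehlerDifferential.D ℂ K C.w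

variable {C}

theorem Gr.x : C.Gr C.x 1 0 0 := by simp [Gr]
theorem Gr.y : C.Gr C.y 0 1 0 := by simp [Gr]
theorem Gr.w : C.Gr C.w 0 0 1 := by simp [Gr]

theorem Gr.const (t : ℂ) : C.Gr (cc K t) 0 0 0 := by simp [Gr]

theorem Gr.add {f a b c f' a' b' c' : K} (h : C.Gr f a b c) (h' : C.Gr f' a' b' c') :
    C.Gr (f + f') (a + a') (b + b') (c + c') := by
  unfold Gr at *
  rw [map_add, h, h']
  module

theorem Gr.sub {f a b c f' a' b' c' : K} (h : C.Gr f a b c) (h' : C.Gr f' a' b' c') :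
    C.Gr (f - f') (a - a') (b - b') (c - c') := by
  unfold Gr at *
  rw [map_sub, h, h']
  module

theorem Gr.mul {f a b c f' a' b' c' : K} (h : C.Gr f a b c) (h' : C.Gr f' a' b' c') :
    C.Gr (f * f') (f * a' + f' * a) (f * b' + f' * b) (f * c' + f' * c) := by
  unfold Gr at *
  rw [Derivation.leibniz, h, h']
  module

theorem Gr.inv {f a b c : K} (h : C.Gr f a b c) :
    C.Gr f⁻¹ (-f⁻¹ ^ 2 * a) (-f⁻¹ ^ 2 * b) (-f⁻¹ ^ 2 * c) := by
  unfold Gr at *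
  rw [Derivation.leibniz_inv, h]
  module

theorem Gr.div {f a b c f' a' b' c' : K} (h : C.Gr f a b c) (h' : C.Gr f' a' b' c') :
    C.Gr (f / f') (a / f' - f * a' / f' ^ 2) (b / f' - f * b' / f' ^ 2)
      (c / f' - f * c' / f' ^ 2) := by
  have h1 := h.mul h'.inv
  rw [← div_eq_mul_inv] at h1
  convert h1 using 1 <;> ring

theorem Gr.sq {f a b c : K} (h : C.Gr f a b c) :
    C.Gr (f ^ 2) (2 * f * a) (2 * f * b) (2 * f * c) := by
  have h1 := h.mul h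
  rw [← pow_two] at h1
  convert h1 using 1 <;> ring

theorem Gr.τ (i : Fin 5) : C.Gr (C.τ i) 1 0 0 := by
  have := (Gr.x (C := C)).sub (Gr.const (tt i))
  simpa [Cfg.τ] using this

theorem Gr.D (i : Fin 5) : C.Gr (C.D i) (1 - cc K (C.κ i)) (cc K (C.κ i)) 0 := by
  have := (Gr.τ (C := C) i).add ((Gr.const (C.κ i)).mul ((Gr.y (C := C)).sub Gr.x))
  have h2 : C.Gr (C.D i) _ _ _ := this
  convert h2 using 1 <;> simp
  ring

theorem jac_of_gr {f g h a₁ b₁ c₁ a₂ b₂ c₂ a₃ b₃ c₃ j : K} (h₁ : C.Gr f a₁ b₁ c₁)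
    (h₂ : C.Gr g a₂ b₂ c₂) (h₃ : C.Gr h a₃ b₃ c₃)
    (hj : a₁ * b₂ * c₃ - a₁ * c₂ * b₃ - b₁ * a₂ * c₃ + b₁ * c₂ * a₃ + c₁ * a₂ * b₃ -
      c₁ * b₂ * a₃ = j) : IsJacobian ℂ ![f, g, h] C.b j := by
  refine ⟨!![a₁, b₁, c₁; a₂, b₂, c₂; a₃, b₃, c₃], ?_, fun i => ?_⟩
  · rw [Matrix.det_fin_three]
    simpa using hj
  · unfold Gr at h₁ h₂ h₃
    fin_cases i
    · simpa [Fin.sum_univ_three, Cfg.b] using h₁
    · simpa [Fin.sum_univ_three, Cfg.b] using h₂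
    · simpa [Fin.sum_univ_three, Cfg.b] using h₃

variable (C)

theorem jac_a : IsJacobian ℂ (C.par .a) C.b 1 :=
  jac_of_gr Gr.x Gr.y Gr.w (by ring)

theorem jac_b : IsJacobian ℂ (C.par .b) C.b (-(C.y ^ 3)⁻¹) := by
  have hy := C.y_ne
  refine jac_of_gr Gr.x Gr.y.inv (Gr.w.div Gr.y) ?_
  field_simp
  ring

theorem jac_c : IsJacobian ℂ (C.par .c) C.b ((C.w ^ 3)⁻¹) := by
  have hw := C.w_ne
  refine jac_of_gr Gr.x Gr.w.inv (Gr.y.div Gr.w) ?_
  field_simp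
  ring

theorem jac_a' : IsJacobian ℂ (C.par .a') C.b (-(C.x ^ 3)⁻¹) := by
  have hx := C.x_ne
  refine jac_of_gr Gr.x.inv Gr.y (Gr.w.div Gr.x) ?_
  field_simp
  ring

theorem jac_b' : IsJacobian ℂ (C.par .b') C.b (((C.x * C.y) ^ 3)⁻¹) := by
  have hx := C.x_ne
  have hy := C.y_ne
  refine jac_of_gr Gr.x.inv Gr.y.inv (Gr.w.div (Gr.x.mul Gr.y)) ?_
  field_simp
  ring

theorem jac_c' : IsJacobian ℂ (C.par .c') C.b (-(C.w ^ 3)⁻¹) := by
  have hx := C.x_ne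
  have hw := C.w_ne
  refine jac_of_gr Gr.x.inv (Gr.x.div Gr.w) ((Gr.x.mul Gr.y).div Gr.w) ?_
  field_simp
  ring

theorem jac_q0 (i : Fin 5) :
    IsJacobian ℂ (C.par (.q i 0)) C.b (cc K (C.κ i) * (C.τ i ^ 3)⁻¹) := by
  have hτ := C.τ_ne i
  refine jac_of_gr (Gr.τ i) ((Gr.D i).div (Gr.τ i).sq) (Gr.w.div (Gr.τ i)) ?_
  field_simp
  ring

theorem jac_q1 (i : Fin 5) :
    IsJacobian ℂ (C.par (.q i 1)) C.b (-(cc K (C.κ i) * (C.w ^ 3)⁻¹)) := by
  have hw := C.w_ne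
  refine jac_of_gr Gr.w ((Gr.D i).div Gr.w.sq) ((Gr.τ i).div Gr.w) ?_
  field_simp
  ring

theorem jac_q2 (i : Fin 5) :
    IsJacobian ℂ (C.par (.q i 2)) C.b (cc K (C.κ i) * (C.τ i * C.D i)⁻¹) := by
  have hτ := C.τ_ne i
  have hD := C.D_ne i
  refine jac_of_gr ((Gr.τ i).sq.div (Gr.D i)) ((Gr.D i).div (Gr.τ i)) (Gr.w.div (Gr.τ i)) ?_
  field_simp
  ring

theorem jac_q3 (i : Fin 5) :
    IsJacobian ℂ (C.par (.q i 3)) C.b (-(cc K (C.κ i) * (C.w * C.D i)⁻¹)) := by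
  have hw := C.w_ne
  have hD := C.D_ne i
  refine jac_of_gr (Gr.w.sq.div (Gr.D i)) ((Gr.D i).div Gr.w) ((Gr.τ i).div Gr.w) ?_
  field_simp
  ring

theorem jac_q4 (i : Fin 5) :
    IsJacobian ℂ (C.par (.q i 4)) C.b (-(cc K (C.κ i) * (C.D i * C.D i)⁻¹)) := by
  have hD := C.D_ne i
  refine jac_of_gr (Gr.D i) ((Gr.τ i).div (Gr.D i)) (Gr.w.div (Gr.D i)) ?_
  field_simp
  ring

theorem v_cube (u : DivVal ℂ K 2) {f : K} (hf : f ≠ 0) : u.v (f ^ 3)⁻¹ = -(3 * u.v f) := by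
  rw [v_inv, v_pow u _ hf]
  norm_num

theorem v_kmul (u : DivVal ℂ K 2) (i : Fin 5) {f : K} (hf : f ≠ 0) :
    u.v (cc K (C.κ i) * f⁻¹) = -u.v f := by
  rw [u.mul _ _ (cc_ne (C.κ0 i)) (inv_ne_zero hf), v_inv, u.const, zero_add]

theorem k_ne (i : Fin 5) {f : K} (hf : f ≠ 0) : cc K (C.κ i) * f⁻¹ ≠ 0 :=
  mul_ne_zero (cc_ne (C.κ0 i)) (inv_ne_zero hf)

theorem jac (T : Ty) : ∃ j : K, j ≠ 0 ∧ IsJacobian ℂ (C.par T) C.b j ∧
    ∀ u : DivVal ℂ K 2, u.v j = 12 * u.v (C.fac T .S) -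
      ∑ i, (u.v (C.fac T (.M i i)) + u.v (C.fac T (.N i i))) := by
  have hx := C.x_ne
  have hy := C.y_ne
  have hw := C.w_ne
  -- the global charts
  have big : ∀ (u : DivVal ℂ K 2) (g : K), g ≠ 0 → 12 * u.v g -
      ∑ _i : Fin 5, (u.v g + u.v (g ^ 2)) = -(3 * u.v g) := by
    intro u g hg
    rw [v_pow u _ hg, Fin.sum_univ_five]
    push_cast
    ring
  have loc : ∀ (i r : Fin 5) (u : DivVal ℂ K 2), 12 * u.v (C.fac (.q i r) .S) -
      ∑ k, (u.v (C.fac (.q i r) (.M k k)) + u.v (C.fac (.q i r) (.N k k))) =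
        -(u.v (C.gM i r) + u.v (C.gN i r)) := by
    intro i r u
    have h1 : ∀ k, u.v (C.fac (.q i r) (.M k k)) + u.v (C.fac (.q i r) (.N k k)) =
        if k = i then u.v (C.gM i r) + u.v (C.gN i r) else 0 := by
      intro k
      by_cases hk : k = i
      · simp [fac, hk]
      · simp [fac, hk, v_one]
    rw [Finset.sum_congr rfl fun k _ => h1 k, Finset.sum_ite_eq']
    simp [fac, gS, v_one]
  cases T with
  | a =>
    refine ⟨1, one_ne_zero, C.jac_a, fun u => ?_⟩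
    have := big u 1 one_ne_zero
    simp only [fac, gS]
    rw [this, v_one]
    rfl
  | b =>
    refine ⟨_, neg_ne_zero.mpr (inv_ne_zero (pow_ne_zero 3 hy)), C.jac_b, fun u => ?_⟩
    have := big u C.y hy
    simp only [fac, gS]
    rw [this, v_neg, v_cube u hy]
  | c =>
    refine ⟨_, inv_ne_zero (pow_ne_zero 3 hw), C.jac_c, fun u => ?_⟩
    have := big u C.w hw
    simp only [fac, gS]
    rw [this, v_cube u hw]
  | a' =>
    refine ⟨_, neg_ne_zero.mpr (inv_ne_zero (pow_ne_zero 3 hx)), C.jac_a', fun u => ?_⟩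
    have := big u C.x hx
    simp only [fac, gS]
    rw [this, v_neg, v_cube u hx]
  | b' =>
    refine ⟨_, inv_ne_zero (pow_ne_zero 3 (mul_ne_zero hx hy)), C.jac_b', fun u => ?_⟩
    have := big u (C.x * C.y) (mul_ne_zero hx hy)
    simp only [fac, gS]
    rw [this, v_cube u (mul_ne_zero hx hy)]
  | c' =>
    refine ⟨_, neg_ne_zero.mpr (inv_ne_zero (pow_ne_zero 3 hw)), C.jac_c', fun u => ?_⟩
    have := big u C.w hw
    simp only [fac, gS]
    rw [this, v_neg, v_cube u hw]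
  | q i r =>
    have hτ := C.τ_ne i
    have hD := C.D_ne i
    fin_cases r
    · refine ⟨_, C.k_ne i (pow_ne_zero 3 hτ), C.jac_q0 i, fun u => ?_⟩
      refine Eq.trans ?_ (loc i 0 u).symm
      rw [C.v_kmul u i (pow_ne_zero 3 hτ), v_pow u _ hτ]
      simp only [gM, gN]
      rw [v_pow u _ hτ]
      push_cast
      ring
    · refine ⟨_, neg_ne_zero.mpr (C.k_ne i (pow_ne_zero 3 hw)), C.jac_q1 i, fun u => ?_⟩
      refine Eq.trans ?_ (loc i 1 u).symm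
      rw [v_neg, C.v_kmul u i (pow_ne_zero 3 hw), v_pow u _ hw]
      simp only [gM, gN]
      rw [v_pow u _ hw]
      push_cast
      ring
    · refine ⟨_, C.k_ne i (mul_ne_zero hτ hD), C.jac_q2 i, fun u => ?_⟩
      refine Eq.trans ?_ (loc i 2 u).symm
      rw [C.v_kmul u i (mul_ne_zero hτ hD), u.mul _ _ hτ hD]
      simp only [gM, gN]
    · refine ⟨_, neg_ne_zero.mpr (C.k_ne i (mul_ne_zero hw hD)), C.jac_q3 i, fun u => ?_⟩
      refine Eq.trans ?_ (loc i 3 u).symm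
      rw [v_neg, C.v_kmul u i (mul_ne_zero hw hD), u.mul _ _ hw hD]
      simp only [gM, gN]
    · refine ⟨_, neg_ne_zero.mpr (C.k_ne i (mul_ne_zero hD hD)), C.jac_q4 i, fun u => ?_⟩
      refine Eq.trans ?_ (loc i 4 u).symm
      rw [v_neg, C.v_kmul u i (mul_ne_zero hD hD), u.mul _ _ hD hD]
      simp only [gM, gN]

end Cfg

end Pool.Agent.Helper43.Fl
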