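import Pool.Agent.Helper43.FlTr

open scoped KaehlerDifferential

noncomputable section

namespace Pool.Agent.Helper43.Fl

open Pool.Agent.Helper43 Pool.Agent.Helper43.ProjVar

variable {K : Type} [Field K] [Algebra ℂ K]

section Grad

variable {b : Fin 3 → K} (hb : IsDiffBasis ℂ b)

/-- The basis of differentials. -/
def dB : Module.Basis (Fin 3) K Ω[K⁄ℂ] := Module.Basis.mk hb.1 (le_of_eq hb.2.symm)

/-- The gradient with respect to a basis of differentials. -/
def grad (f : K) : Fin 3 → K := fun j => (dB hb).repr (KaehlerDifferential.D ℂ K f) j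

theorem grad_sum (f : K) : KaehlerDifferential.D ℂ K f =
    ∑ j, grad hb f j • KaehlerDifferential.D ℂ K (b j) := by
  have h := (dB hb).sum_repr (KaehlerDifferential.D ℂ K f)
  conv_lhs => rw [← h]
  refine Finset.sum_congr rfl fun j _ => ?_
  simp only [grad, dB, Module.Basis.mk_apply]

theorem grad_mul (f g : K) (j : Fin 3) :
    grad hb (f * g) j = f * grad hb g j + g * grad hb f j := by
  simp [grad, Derivation.leibniz, smul_eq_mul]

theorem grad_zpow (f : K) (n : ℤ) (j : Fin 3) :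
    grad hb (f ^ n) j = n * (f ^ (n - 1) * grad hb f j) := by
  simp [grad, Derivation.leibniz_zpow, smul_eq_mul, zsmul_eq_mul]

/-- The Jacobian matrix. -/
def gm (a : Fin 3 → K) : Matrix (Fin 3) (Fin 3) K := Matrix.of fun i j => grad hb (a i) j

theorem jac_grad (a : Fin 3 → K) : IsJacobian ℂ a b (gm hb a).det :=
  ⟨gm hb a, rfl, fun i => grad_sum hb (a i)⟩

theorem jac_eq {a : Fin 3 → K} {J : K} (h : IsJacobian ℂ a b J) :
    J = (gm hb a).det := by
  obtain ⟨M, hM, h1⟩ := h
  rw [← hM]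
  congr 1
  refine Matrix.ext fun i j => ?_
  change M i j = grad hb (a i) j
  have h2 : ∑ l, M i l • KaehlerDifferential.D ℂ K (b l) =
      ∑ l, grad hb (a i) l • KaehlerDifferential.D ℂ K (b l) := by
    rw [← h1 i, ← grad_sum]
  have h5 := Fintype.linearIndependent_iff.mp hb.1 (fun l => M i l - grad hb (a i) l) (by
    simp only [sub_smul, Finset.sum_sub_distrib]
    rw [h2, sub_self]) j
  exact sub_eq_zero.mp h5

end Grad

section Vge

variable (u : DivVal ℂ K 2)

/-- Zero or of value at least `n`. -/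
def Vge (n : ℤ) (z : K) : Prop := z = 0 ∨ n ≤ u.v z

theorem Vge.add {n : ℤ} {z z' : K} (h : Vge u n z) (h' : Vge u n z') : Vge u n (z + z') := by
  by_cases h1 : z = 0
  · rwa [h1, zero_add]
  by_cases h2 : z' = 0
  · rwa [h2, add_zero]
  by_cases h3 : z + z' = 0
  · exact Or.inl h3
  rcases h with h | h
  · exact absurd h h1
  rcases h' with h' | h'
  · exact absurd h' h2
  have := u.add z z' h1 h2 h3
  exact Or.inr (by omega)

theorem Vge.mul {n n' : ℤ} {z z' : K} (h : Vge u n z) (h' : Vge u n' z') :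
    Vge u (n + n') (z * z') := by
  by_cases h1 : z = 0
  · left; simp [h1]
  by_cases h2 : z' = 0
  · left; simp [h2]
  rcases h with h | h
  · exact absurd h h1
  rcases h' with h' | h'
  · exact absurd h' h2
  right
  rw [u.mul _ _ h1 h2]
  omega

theorem Vge.int (n : ℤ) : Vge u 0 (n : K) := by
  right
  have := u.const (n : ℂ)
  rw [map_intCast] at this
  exact this.ge

theorem v_zpow (a : K) (ha : a ≠ 0) (n : ℤ) : u.v (a ^ n) = n * u.v a := by
  obtain ⟨m, rfl | rfl⟩ := n.eq_nat_or_neg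
  · rw [zpow_natCast, v_pow u a ha]
  · rw [zpow_neg, v_inv, zpow_natCast, v_pow u a ha]
    ring

end Vge

namespace Cfg

variable (C : Cfg K) (u : DivVal ℂ K 2)

theorem ord_log {b : Fin 3 → K} (hb : IsDiffBasis ℂ b) {m : ℤ} (hm : IsOrd b u m)
    {f : Fin 3 → K} (hf : ∀ i, f i ≠ 0) {J : K} (hJ : IsJacobian ℂ f b J) (hJ0 : J ≠ 0) :
    ∑ i, u.v (f i) ≤ m + 1 + u.v J := by
  obtain ⟨π, hπ, hπ1⟩ := u.surj
  -- the units
  set g : Fin 3 → K := fun i => f i * π ^ (-u.v (f i)) with hg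
  have hg0 : ∀ i, g i ≠ 0 := fun i => mul_ne_zero (hf i) (zpow_ne_zero _ hπ)
  have hgv : ∀ i, u.v (g i) = 0 := fun i => by
    simp only [hg]
    rw [u.mul _ _ (hf i) (zpow_ne_zero _ hπ), v_zpow u π hπ, hπ1]
    ring
  have hfg : ∀ i, f i = g i * π ^ (u.v (f i)) := fun i => by
    simp only [hg]
    rw [mul_assoc, ← zpow_add₀ hπ]
    simp
  -- regular Jacobians
  have hreg : ∀ a : Fin 3 → K, (∀ i, 0 ≤ u.v (a i)) →
      Vge u (-m) ((gm hb a).det) := by
    intro a ha
    by_cases h : (gm hb a).det = 0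
    · exact Or.inl h
    · exact Or.inr (hm.1 a _ ha (jac_grad hb a) h)
  have h1 := hreg g (fun i => (hgv i).ge)
  have h2 := hreg ![π, g 1, g 2] (fun i => by
    fin_cases i
    · simp [hπ1]
    · simp [hgv]
    · simp [hgv])
  have h3 := hreg ![g 0, π, g 2] (fun i => by
    fin_cases i
    · simp [hgv]
    · simp [hπ1]
    · simp [hgv])
  have h4 := hreg ![g 0, g 1, π] (fun i => by
    fin_cases i
    · simp [hgv]
    · simp [hgv]
    · simp [hπ1])
  -- logarithmic gradients
  have hlog : ∀ i j, grad hb (f i) j =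
      f i * ((u.v (f i) : K) * (grad hb π j / π) + grad hb (g i) j / g i) := by
    intro i j
    have e1 : grad hb (f i) j = g i * (u.v (f i) * (π ^ (u.v (f i) - 1) * grad hb π j)) +
        π ^ (u.v (f i)) * grad hb (g i) j := by
      conv_lhs => rw [hfg i]
      rw [grad_mul, grad_zpow]
    have e2 : π ^ (u.v (f i) - 1) = π ^ (u.v (f i)) / π := by
      rw [zpow_sub₀ hπ, zpow_one]
    have e3 := hg0 i
    have e4 := hfg i
    rw [e1, e2]
    generalize π ^ (u.v (f i)) = q at *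
    generalize (u.v (f i) : K) = α at *
    rw [e4]
    field_simp
  have hdet : J * π * (g 0 * g 1 * g 2) = (f 0 * f 1 * f 2) *
      (π * (gm hb g).det +
        (u.v (f 0) : K) * g 0 * (gm hb ![π, g 1, g 2]).det +
        (u.v (f 1) : K) * g 1 * (gm hb ![g 0, π, g 2]).det +
        (u.v (f 2) : K) * g 2 *
          (gm hb ![g 0, g 1, π]).det) := by
    rw [jac_eq hb hJ]
    simp only [Matrix.det_fin_three, gm, Matrix.of_apply, hlog]
    have e0 := hg0 0
    have e1 := hg0 1
    have e2 := hg0 2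
    simp only [Matrix.cons_val_zero, Matrix.cons_val_one, Matrix.cons_val]
    clear_value g
    field_simp
    ring
  have hs : Vge u (-m) (π * (gm hb g).det +
        (u.v (f 0) : K) * g 0 * (gm hb ![π, g 1, g 2]).det +
        (u.v (f 1) : K) * g 1 * (gm hb ![g 0, π, g 2]).det +
        (u.v (f 2) : K) * g 2 *
          (gm hb ![g 0, g 1, π]).det) := by
    have hgg : ∀ i, Vge u 0 (g i) := fun i => Or.inr (hgv i).ge
    have hππ : Vge u 0 π := Or.inr (by omega)
    have e := fun i => Vge.mul u (Vge.int u (u.v (f i))) (hgg i)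
    refine Vge.add u (Vge.add u (Vge.add u ?_ ?_) ?_) ?_
    · simpa using Vge.mul u hππ h1
    · simpa using Vge.mul u (e 0) h2
    · simpa using Vge.mul u (e 1) h3
    · simpa using Vge.mul u (e 2) h4
  have hl : J * π * (g 0 * g 1 * g 2) ≠ 0 :=
    mul_ne_zero (mul_ne_zero hJ0 hπ) (mul_ne_zero (mul_ne_zero (hg0 0) (hg0 1)) (hg0 2))
  have hff : f 0 * f 1 * f 2 ≠ 0 := mul_ne_zero (mul_ne_zero (hf 0) (hf 1)) (hf 2)
  rcases hs with hs | hs
  · rw [hs, mul_zero] at hdet
    exact absurd hdet hl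
  · set S := (π * (gm hb g).det +
        (u.v (f 0) : K) * g 0 * (gm hb ![π, g 1, g 2]).det +
        (u.v (f 1) : K) * g 1 * (gm hb ![g 0, π, g 2]).det +
        (u.v (f 2) : K) * g 2 *
          (gm hb ![g 0, g 1, π]).det)
    have hS : S ≠ 0 := by
      intro h0
      rw [h0, mul_zero] at hdet
      exact hl hdet
    have h5 := congrArg u.v hdet
    rw [u.mul _ _ (mul_ne_zero hJ0 hπ) (mul_ne_zero (mul_ne_zero (hg0 0) (hg0 1)) (hg0 2)),
      u.mul _ _ hJ0 hπ, u.mul _ _ (mul_ne_zero (hg0 0) (hg0 1)) (hg0 2),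
      u.mul _ _ (hg0 0) (hg0 1), hgv, hgv, hgv, hπ1, u.mul _ _ hff hS,
      u.mul _ _ (mul_ne_zero (hf 0) (hf 1)) (hf 2), u.mul _ _ (hf 0) (hf 1)] at h5
    rw [Fin.sum_univ_three]
    omega

/-- Change of the coordinate system. -/
theorem ord_change (C C' : Cfg K) : ∃ j : K, ∀ (u : DivVal ℂ K 2) (m : ℤ),
    IsOrd C.b u m ↔ IsOrd C'.b u (m + u.v j) := by
  have hj : IsJacobian ℂ C'.b C.b _ := jac_grad C.basis C'.b
  have hj' : IsJacobian ℂ C.b C'.b _ := jac_grad C'.basis C.b
  set j := (gm C.basis C'.b).det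
  set j' := (gm C'.basis C.b).det
  have h1 : j' * j = 1 := by
    have e := jac_eq C.basis (hj'.trans hj)
    rw [e, ← jac_eq C.basis (IsJacobian.refl C.b)]
  have hj0 : j ≠ 0 := by
    intro h
    rw [h, mul_zero] at h1
    exact zero_ne_one h1
  have hj0' : j' ≠ 0 := by
    intro h
    rw [h, zero_mul] at h1
    exact zero_ne_one h1
  refine ⟨j, fun u m => ?_⟩
  have hv : u.v j' = -u.v j := by
    have e := congrArg u.v h1
    rw [u.mul _ _ hj0' hj0, v_one] at e
    omega
  constructor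
  · rintro ⟨h2, a, J, ha, hJ, hJ0, h3⟩
    refine ⟨fun a J ha hJ hJ0 => ?_, a, J * j', ha, hJ.trans hj', mul_ne_zero hJ0 hj0', ?_⟩
    · have e := h2 a (J * j) ha (hJ.trans hj) (mul_ne_zero hJ0 hj0)
      rw [u.mul _ _ hJ0 hj0] at e
      omega
    · rw [u.mul _ _ hJ0 hj0', h3, hv]
      ring
  · rintro ⟨h2, a, J, ha, hJ, hJ0, h3⟩
    refine ⟨fun a J ha hJ hJ0 => ?_, a, J * j, ha, hJ.trans hj, mul_ne_zero hJ0 hj0, ?_⟩
    · have e := h2 a (J * j') ha (hJ.trans hj') (mul_ne_zero hJ0 hj0')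
      rw [u.mul _ _ hJ0 hj0', hv] at e
      omega
    · rw [u.mul _ _ hJ0 hj0, h3]
      ring

end Cfg

end Pool.Agent.Helper43.Fl
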