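import Pool.Agent.Helper43.FlVal
import Pool.Agent.Helper43.FlOrd

open scoped KaehlerDifferential

noncomputable section

namespace Pool.Agent.Helper43.Fl

open Pool.Agent.Helper43 Pool.Agent.Helper43.ProjVar

variable {K : Type} [Field K] [Algebra ℂ K]

namespace Cfg

variable (C : Cfg K) (u : DivVal ℂ K 2)

theorem D_τ (i : Fin 5) : KaehlerDifferential.D ℂ K (C.τ i) = KaehlerDifferential.D ℂ K C.x := by
  unfold τ
  rw [map_sub, Derivation.map_algebraMap, sub_zero]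

theorem D_z (i : Fin 5) : KaehlerDifferential.D ℂ K (C.z i) = KaehlerDifferential.D ℂ K C.y := by
  unfold z
  rw [map_sub, Derivation.map_algebraMap, sub_zero]

theorem D_D (i : Fin 5) : KaehlerDifferential.D ℂ K (C.D i) =
    cc K (1 - C.κ i) • KaehlerDifferential.D ℂ K C.x +
      cc K (C.κ i) • KaehlerDifferential.D ℂ K C.y := by
  rw [D_eq, map_add, Derivation.leibniz, Derivation.leibniz, Derivation.map_algebraMap,
    Derivation.map_algebraMap, smul_zero, smul_zero, add_zero, add_zero, D_τ, D_z]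

/-- The linear combinations `df = p dx + q dy`, `dg = r dx + s dy` together with `dw`. -/
theorem jac_of {f g : K} {p q r s : K}
    (hf : KaehlerDifferential.D ℂ K f =
      p • KaehlerDifferential.D ℂ K C.x + q • KaehlerDifferential.D ℂ K C.y)
    (hg : KaehlerDifferential.D ℂ K g =
      r • KaehlerDifferential.D ℂ K C.x + s • KaehlerDifferential.D ℂ K C.y) :
    IsJacobian ℂ ![f, g, C.w] C.b (p * s - q * r) := by
  refine ⟨!![p, q, 0; r, s, 0; 0, 0, 1], ?_, fun i => ?_⟩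
  · rw [Matrix.det_fin_three]
    simp
  · fin_cases i
    · simp [Fin.sum_univ_three, hf, b]
    · simp [Fin.sum_univ_three, hg, b]
    · simp [Fin.sum_univ_three, b]

theorem log_of {m : ℤ} (hm : IsOrd C.b u m) {f g : K} (hf0 : f ≠ 0) (hg0 : g ≠ 0) {p q r s : K}
    (hf : KaehlerDifferential.D ℂ K f =
      p • KaehlerDifferential.D ℂ K C.x + q • KaehlerDifferential.D ℂ K C.y)
    (hg : KaehlerDifferential.D ℂ K g =
      r • KaehlerDifferential.D ℂ K C.x + s • KaehlerDifferential.D ℂ K C.y) {c : ℂ}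
    (hc : c ≠ 0) (h : p * s - q * r = cc K c) : u.v f + u.v g + u.v C.w ≤ m + 1 := by
  have h1 := ord_log u C.basis hm (f := ![f, g, C.w]) (J := cc K c) (by
    intro i
    fin_cases i
    · exact hf0
    · exact hg0
    · exact C.w_ne) (by rw [← h]; exact C.jac_of hf hg) (cc_ne hc)
  rw [u.const, add_zero, Fin.sum_univ_three] at h1
  simpa using h1

theorem log_xy {m : ℤ} (hm : IsOrd C.b u m) : u.v C.x + u.v C.y + u.v C.w ≤ m + 1 :=
  C.log_of u hm C.x_ne C.y_ne (p := 1) (q := 0) (r := 0) (s := 1) (by simp) (by simp)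
    one_ne_zero (by rw [cc_one]; ring)

theorem log_τz {m : ℤ} (hm : IsOrd C.b u m) (i : Fin 5) :
    u.v (C.τ i) + u.v (C.z i) + u.v C.w ≤ m + 1 :=
  C.log_of u hm (C.τ_ne i) (C.z_ne i) (p := 1) (q := 0) (r := 0) (s := 1)
    (by rw [D_τ]; simp) (by rw [D_z]; simp) one_ne_zero (by rw [cc_one]; ring)

theorem log_τD {m : ℤ} (hm : IsOrd C.b u m) (i : Fin 5) :
    u.v (C.τ i) + u.v (C.D i) + u.v C.w ≤ m + 1 :=
  C.log_of u hm (C.τ_ne i) (C.D_ne i) (p := 1) (q := 0) (by rw [D_τ]; simp) (C.D_D i)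
    (C.κ0 i) (by ring)

theorem log_Dz {m : ℤ} (hm : IsOrd C.b u m) (i : Fin 5) :
    u.v (C.D i) + u.v (C.z i) + u.v C.w ≤ m + 1 :=
  C.log_of u hm (C.D_ne i) (C.z_ne i) (r := 0) (s := 1) (C.D_D i) (by rw [D_z]; simp)
    (C.κ_sub i) (by ring)

theorem ord_nonneg {m : ℤ} (hm : IsOrd C.b u m) (hx : 0 ≤ u.v C.x) (hy : 0 ≤ u.v C.y)
    (hw : 0 ≤ u.v C.w) : 0 ≤ m := by
  have h := hm.1 C.b 1 (by
    intro i
    fin_cases i
    · exact hx
    · exact hy
    · exact hw) (IsJacobian.refl _) one_ne_zero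
  rw [v_one] at h
  omega

/-- The index is special: the centre lies over the `i`-th point. -/
def Sp (i : Fin 5) : Prop := 0 < u.v (C.τ i) ∧ 0 < u.v (C.z i)

/-- A nonspecial index contributes nothing. -/
theorem nonsp {i : Fin 5} (h : ¬ C.Sp u i) :
    C.e (.M i i) u = C.e .S u ∧ C.e (.N i i) u = 2 * C.e .S u ∧
      C.e (.F i) u = 2 * C.e .U u + 2 * C.e .V u := by
  have h1 := C.T_x u i
  have h2 := C.T_y u i
  have h3 := C.T_D u i
  have hM := C.e_M_self u i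
  have hN := C.e_N_self u i
  have hF := C.e_F u i
  rw [C.e_U u, C.e_V u, C.e_S u]
  unfold Sp at h
  unfold T3 at h1 h2 h3
  unfold mF at hM hF
  rw [hM] at hN
  omega

/-- Estimates used in the absence of special indices. -/
theorem est0 {m : ℤ} (hm : IsOrd C.b u m) :
    0 ≤ C.e .U u + C.e .V u - C.e .S u ∧ 1 ≤ m + 1 - 3 * C.e .S u ∧
      C.e .U u + C.e .V u - C.e .S u ≤ m + 1 - 3 * C.e .S u := by
  have h1 := C.log_xy u hm
  have h2 := C.ord_nonneg u hm
  rw [C.e_U u, C.e_V u, C.e_S u]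
  omega

/-- Estimates at a special index. -/
theorem est1 {m : ℤ} (hm : IsOrd C.b u m) {i : Fin 5} (h : C.Sp u i) :
    0 ≤ C.e .U u + C.e .V u - C.e .S u ∧
      0 ≤ (C.e (.F i) u - 2 * C.e .U u - 2 * C.e .V u) - (C.e (.N i i) u - 2 * C.e .S u) ∧
      1 ≤ m + 1 - (C.e (.M i i) u + C.e (.N i i) u) ∧
      (C.e .U u + C.e .V u - C.e .S u) +
        ((C.e (.F i) u - 2 * C.e .U u - 2 * C.e .V u) - (C.e (.N i i) u - 2 * C.e .S u)) ≤
        m + 1 - (C.e (.M i i) u + C.e (.N i i) u) := by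
  have h1 := C.T_x u i
  have h2 := C.T_y u i
  have h3 := C.T_D u i
  have hM := C.e_M_self u i
  have hN := C.e_N_self u i
  have hF := C.e_F u i
  have l1 := C.log_τz u hm i
  have l2 := C.log_τD u hm i
  have l3 := C.log_Dz u hm i
  rw [C.e_U u, C.e_V u, C.e_S u]
  unfold Sp at h
  unfold T3 at h1 h2 h3
  unfold mF at hM hF
  rw [hM] at hN
  omega

/-- Two special indices coincide. -/
theorem sp_unique {i j : Fin 5} (hi : C.Sp u i) (hj : C.Sp u j) : j = i := by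
  by_contra hne
  have h1 := C.T_τ u (i := i) (j := j) fun h => hne h.symm
  have h2 := hi.1
  have h3 := hj.1
  unfold T3 at h1
  omega

/-- The arithmetic of the discrepancy. -/
theorem arith {A N₁ N₂ : ℤ} {r s : ℝ} (hA : 1 ≤ A) (hN : N₁ + N₂ ≤ A) (h₁ : 0 ≤ N₁)
    (h₂ : 0 ≤ N₂) (hr : r < 1) (hs : s < 1) :
    1 - (A : ℝ) + r * N₁ + s * N₂ < 1 := by
  have a1 : (1 : ℝ) ≤ A := by exact_mod_cast hA
  have a2 : (N₁ : ℝ) + N₂ ≤ A := by exact_mod_cast hN
  have a3 : (0 : ℝ) ≤ N₁ := by exact_mod_cast h₁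
  have a4 : (0 : ℝ) ≤ N₂ := by exact_mod_cast h₂
  rcases Int.lt_or_le 0 N₁ with h | h
  · have a5 : (1 : ℝ) ≤ N₁ := by exact_mod_cast h
    nlinarith
  · have a5 : (N₁ : ℝ) ≤ 0 := by exact_mod_cast h
    have a6 : (N₁ : ℝ) = 0 := le_antisymm a5 a3
    rcases Int.lt_or_le 0 N₂ with h' | h'
    · have a7 : (1 : ℝ) ≤ N₂ := by exact_mod_cast h'
      rw [a6] at a2 ⊢
      nlinarith
    · have a7 : (N₂ : ℝ) ≤ 0 := by exact_mod_cast h'
      have a8 : (N₂ : ℝ) = 0 := le_antisymm a7 a4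
      rw [a6, a8]
      linarith

theorem gklt {c : Cls} (h₁ : 0 ≤ c.2.1) (h₂ : c.2.1 < 1) (h₃ : ∀ i, 0 ≤ c.2.2 i)
    (h₄ : ∀ i, c.2.2 i < 2) {m : ℤ} (hm : IsOrd C.b u m) : disc C c u - m < 1 := by
  have e1 : ∑ j, ((C.e (.M j j) u : ℝ) + C.e (.N j j) u) =
      ∑ j, (((C.e (.M j j) u : ℝ) + C.e (.N j j) u) - 3 * C.e .S u) + 15 * C.e .S u := by
    simp only [Fin.sum_univ_five]
    ring
  unfold disc
  rw [e1]
  by_cases hsp : ∃ i, C.Sp u i
  · obtain ⟨i, hi⟩ := hsp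
    have e2 : ∑ j, (((C.e (.M j j) u : ℝ) + C.e (.N j j) u) - 3 * C.e .S u) =
        ((C.e (.M i i) u : ℝ) + C.e (.N i i) u) - 3 * C.e .S u := by
      refine Finset.sum_eq_single i (fun j _ hj => ?_) fun h => absurd (Finset.mem_univ i) h
      obtain ⟨a1, a2, -⟩ := C.nonsp u fun h => hj (C.sp_unique u hi h)
      rw [a1, a2]
      push_cast
      ring
    have e3 : ∑ j, c.2.2 j / 2 * ((C.e (.F j) u - 2 * C.e .U u - 2 * C.e .V u) -
        (C.e (.N j j) u - 2 * C.e .S u) : ℝ) = c.2.2 i / 2 *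
        ((C.e (.F i) u - 2 * C.e .U u - 2 * C.e .V u) -
        (C.e (.N i i) u - 2 * C.e .S u) : ℝ) := by
      refine Finset.sum_eq_single i (fun j _ hj => ?_) fun h => absurd (Finset.mem_univ i) h
      obtain ⟨-, a2, a3⟩ := C.nonsp u fun h => hj (C.sp_unique u hi h)
      rw [a2, a3]
      push_cast
      ring
    rw [e2, e3]
    obtain ⟨b1, b2, b3, b4⟩ := C.est1 u hm hi
    have key := arith b3 b4 b1 b2 h₂ (s := c.2.2 i / 2) (by have := h₄ i; linarith)
    push_cast at key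
    linarith
  · push Not at hsp
    have e2 : ∑ j, (((C.e (.M j j) u : ℝ) + C.e (.N j j) u) - 3 * C.e .S u) = 0 := by
      refine Finset.sum_eq_zero fun j _ => ?_
      obtain ⟨a1, a2, -⟩ := C.nonsp u (hsp j)
      rw [a1, a2]
      push_cast
      ring
    have e3 : ∑ j, c.2.2 j / 2 * ((C.e (.F j) u - 2 * C.e .U u - 2 * C.e .V u) -
        (C.e (.N j j) u - 2 * C.e .S u) : ℝ) = 0 := by
      refine Finset.sum_eq_zero fun j _ => ?_
      obtain ⟨-, a2, a3⟩ := C.nonsp u (hsp j)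
      rw [a2, a3]
      push_cast
      ring
    rw [e2, e3]
    obtain ⟨b1, b3, b4⟩ := C.est0 u hm
    have key := arith b3 (N₂ := 0) (by omega) b1 le_rfl h₂ (s := 0) (by norm_num)
    push_cast at key
    linarith

end Cfg

end Pool.Agent.Helper43.Fl
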