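import Pool.Agent.Helper43.FlBase

open scoped KaehlerDifferential

noncomputable section

namespace Pool.Agent.Helper43.Fl

open Pool.Agent.Helper43 Pool.Agent.Helper43.ProjVar

namespace Cfg

/-- The residue of `z` is a rational function of the residue of `s`. -/
def Rs {k K : Type} [Field k] [Field K] [Algebra k K] {n : ℕ} (u : DivVal k K n) (s z : K) :
    Prop :=
  ∃ A B : Polynomial k, Polynomial.aeval s B ≠ 0 ∧ u.v (Polynomial.aeval s B) = 0 ∧
    (z * Polynomial.aeval s B = Polynomial.aeval s A ∨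
      0 < u.v (z * Polynomial.aeval s B - Polynomial.aeval s A))

section Res

variable {k K : Type} [Field k] [Field K] [Algebra k K] {n : ℕ} (u : DivVal k K n)

/-- The maximal ideal of the valuation ring. -/
def Ic (z : K) : Prop := z = 0 ∨ 0 < u.v z

variable {u}

theorem Ic.add {a b : K} (ha : Ic u a) (hb : Ic u b) : Ic u (a + b) := by
  rcases ha with rfl | ha
  · simpa using hb
  rcases hb with rfl | hb
  · simpa [Ic] using Or.inr ha
  by_cases h : a + b = 0
  · exact Or.inl h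
  have h1 : a ≠ 0 := by rintro rfl; rw [u.zero] at ha; exact lt_irrefl _ ha
  have h2 : b ≠ 0 := by rintro rfl; rw [u.zero] at hb; exact lt_irrefl _ hb
  have := u.add a b h1 h2 h
  exact Or.inr (by omega)

theorem Ic.mul {a b : K} (ha : 0 ≤ u.v a) (hb : Ic u b) : Ic u (a * b) := by
  rcases hb with rfl | hb
  · exact Or.inl (mul_zero _)
  by_cases h : a = 0
  · exact Or.inl (by rw [h, zero_mul])
  have h2 : b ≠ 0 := by rintro rfl; rw [u.zero] at hb; exact lt_irrefl _ hb
  exact Or.inr (by rw [u.mul a b h h2]; omega)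

theorem Ic.neg {a : K} (ha : Ic u a) : Ic u (-a) := by
  rcases ha with rfl | ha
  · exact Or.inl neg_zero
  · exact Or.inr (by rwa [v_neg])

theorem not_Ic {a : K} (ha : a ≠ 0) (h : u.v a = 0) : ¬ Ic u a := by
  rintro (h' | h')
  · exact ha h'
  · omega

variable (u) in
/-- Congruence modulo the maximal ideal. -/
def Cg (a b : K) : Prop := 0 ≤ u.v a ∧ 0 ≤ u.v b ∧ Ic u (a - b)

theorem Cg.refl {a : K} (ha : 0 ≤ u.v a) : Cg u a a := ⟨ha, ha, Or.inl (sub_self a)⟩

theorem Cg.add {a b a' b' : K} (h : Cg u a b) (h' : Cg u a' b') : Cg u (a + a') (b + b') := by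
  refine ⟨val_add u h.1 h'.1, val_add u h.2.1 h'.2.1, ?_⟩
  have e : a + a' - (b + b') = (a - b) + (a' - b') := by ring
  rw [e]
  exact h.2.2.add h'.2.2

theorem Cg.mul {a b a' b' : K} (h : Cg u a b) (h' : Cg u a' b') : Cg u (a * a') (b * b') := by
  refine ⟨val_mul u h.1 h'.1, val_mul u h.2.1 h'.2.1, ?_⟩
  have e : a * a' - (b * b') = a' * (a - b) + b * (a' - b') := by ring
  rw [e]
  exact (Ic.mul h'.1 h.2.2).add (Ic.mul h.2.1 h'.2.2)

theorem Cg.pow {a b : K} (h : Cg u a b) (m : ℕ) : Cg u (a ^ m) (b ^ m) := by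
  induction m with
  | zero => rw [pow_zero, pow_zero]; exact Cg.refl (by rw [v_one])
  | succ m ih => rw [pow_succ, pow_succ]; exact ih.mul h

theorem Cg.sum {ι : Type*} (t : Finset ι) {f g : ι → K} (h : ∀ i ∈ t, Cg u (f i) (g i)) :
    Cg u (∑ i ∈ t, f i) (∑ i ∈ t, g i) := by
  classical
  induction t using Finset.induction_on with
  | empty => simpa using Cg.refl (u := u) (a := 0) (by rw [u.zero])
  | insert i t hi ih =>
    rw [Finset.sum_insert hi, Finset.sum_insert hi]
    exact (h i (Finset.mem_insert_self _ _)).add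
      (ih fun j hj => h j (Finset.mem_insert_of_mem hj))

theorem Cg.symm {a b : K} (h : Cg u a b) : Cg u b a :=
  ⟨h.2.1, h.1, by have := h.2.2.neg; rwa [neg_sub] at this⟩

theorem Cg.trans {a b c : K} (h : Cg u a b) (h' : Cg u b c) : Cg u a c :=
  ⟨h.1, h'.2.1, by have := h.2.2.add h'.2.2; rwa [sub_add_sub_cancel] at this⟩

theorem val_aeval {s : K} (hs : 0 ≤ u.v s) (A : Polynomial k) :
    0 ≤ u.v (Polynomial.aeval s A) := by
  induction A using Polynomial.induction_on' with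
  | add p q hp hq => rw [map_add]; exact val_add u hp hq
  | monomial m a =>
    rw [Polynomial.aeval_monomial]
    apply val_mul u (by rw [u.const])
    by_cases h : s = 0
    · by_cases hm : m = 0
      · rw [hm, pow_zero, v_one]
      · rw [h, zero_pow hm, u.zero]
    · rw [v_pow u s h]
      positivity

theorem rs_iff {s z : K} (hs : 0 ≤ u.v s) (hz : 0 ≤ u.v z) : Rs u s z ↔
    ∃ A B : Polynomial k, Polynomial.aeval s B ≠ 0 ∧ u.v (Polynomial.aeval s B) = 0 ∧
      Cg u (z * Polynomial.aeval s B) (Polynomial.aeval s A) := by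
  constructor
  · rintro ⟨A, B, h1, h2, h3⟩
    refine ⟨A, B, h1, h2, val_mul u hz h2.ge, val_aeval hs A, ?_⟩
    rcases h3 with h3 | h3
    · exact Or.inl (sub_eq_zero.2 h3)
    · exact Or.inr h3
  · rintro ⟨A, B, h1, h2, h3⟩
    refine ⟨A, B, h1, h2, ?_⟩
    rcases h3.2.2 with h3 | h3
    · exact Or.inl (sub_eq_zero.1 h3)
    · exact Or.inr h3

/-- A unit congruent to something makes this a unit. -/
theorem Cg.unit {a b : K} (h : Cg u a b) (ha : a ≠ 0) (hv : u.v a = 0) : b ≠ 0 ∧ u.v b = 0 := by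
  have hb : ¬ Ic u b := by
    intro hb
    have := h.2.2.add hb
    rw [sub_add_cancel] at this
    exact not_Ic ha hv this
  unfold Ic at hb
  push Not at hb
  exact ⟨hb.1, le_antisymm hb.2 h.2.1⟩

theorem unit_mul {a b : K} (ha : a ≠ 0 ∧ u.v a = 0) (hb : b ≠ 0 ∧ u.v b = 0) :
    a * b ≠ 0 ∧ u.v (a * b) = 0 :=
  ⟨mul_ne_zero ha.1 hb.1, by rw [u.mul _ _ ha.1 hb.1, ha.2, hb.2]; rfl⟩

theorem unit_pow {a : K} (ha : a ≠ 0 ∧ u.v a = 0) (m : ℕ) : a ^ m ≠ 0 ∧ u.v (a ^ m) = 0 :=
  ⟨pow_ne_zero _ ha.1, by rw [v_pow u a ha.1, ha.2, mul_zero]⟩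

/-- Rational functions of one variable: two of them are algebraically dependent. -/
theorem alg_dep (A₀ B₀ A₁ B₁ : Polynomial k) : ∃ d : ℕ, ∃ g : Fin (d + 1) × Fin (d + 1) → k,
    g ≠ 0 ∧ ∑ i, Polynomial.C (g i) * (A₀ ^ (i.1 : ℕ) * B₀ ^ (d - i.1) *
      (A₁ ^ (i.2 : ℕ) * B₁ ^ (d - i.2))) = 0 := by
  classical
  let D := max (max A₀.natDegree B₀.natDegree) (max A₁.natDegree B₁.natDegree)
  have hA0 : A₀.natDegree ≤ D := (le_max_left _ _).trans (le_max_left _ _)
  have hB0 : B₀.natDegree ≤ D := (le_max_right _ _).trans (le_max_left _ _)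
  have hA1 : A₁.natDegree ≤ D := (le_max_left _ _).trans (le_max_right _ _)
  have hB1 : B₁.natDegree ≤ D := (le_max_right _ _).trans (le_max_right _ _)
  let d := 2 * D + 1
  let Q : Fin (d + 1) × Fin (d + 1) → Polynomial k := fun i =>
    A₀ ^ (i.1 : ℕ) * B₀ ^ (d - i.1) * (A₁ ^ (i.2 : ℕ) * B₁ ^ (d - i.2))
  have hQ : ∀ i, (Q i).natDegree ≤ 2 * d * D := by
    intro i
    have key : ∀ (A B : Polynomial k) (j : Fin (d + 1)), A.natDegree ≤ D → B.natDegree ≤ D →
        (A ^ (j : ℕ) * B ^ (d - j)).natDegree ≤ d * D := by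
      intro A B j hA hB
      calc (A ^ (j : ℕ) * B ^ (d - j)).natDegree
          ≤ (A ^ (j : ℕ)).natDegree + (B ^ (d - j)).natDegree := Polynomial.natDegree_mul_le
        _ ≤ j * A.natDegree + (d - j) * B.natDegree :=
            add_le_add Polynomial.natDegree_pow_le Polynomial.natDegree_pow_le
        _ ≤ j * D + (d - j) * D :=
            add_le_add (Nat.mul_le_mul_left _ hA) (Nat.mul_le_mul_left _ hB)
        _ = d * D := by
            rw [← add_mul]
            congr 1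
            have := j.2
            omega
    calc (Q i).natDegree ≤ _ := Polynomial.natDegree_mul_le
      _ ≤ d * D + d * D := add_le_add (key _ _ _ hA0 hB0) (key _ _ _ hA1 hB1)
      _ = 2 * d * D := by ring
  let L : (Fin (d + 1) × Fin (d + 1) → k) →ₗ[k] (Fin (2 * d * D + 1) → k) :=
    { toFun := fun g l => ∑ i, g i * (Q i).coeff l
      map_add' := by
        intro g g'
        funext l
        simp [add_mul, Finset.sum_add_distrib]
      map_smul' := by
        intro c g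
        funext l
        simp [mul_assoc, Finset.mul_sum] }
  have hfin : Module.finrank k (Fin (2 * d * D + 1) → k) <
      Module.finrank k (Fin (d + 1) × Fin (d + 1) → k) := by
    rw [Module.finrank_fintype_fun_eq_card, Module.finrank_fintype_fun_eq_card]
    simp only [Fintype.card_fin, Fintype.card_prod, d]
    nlinarith
  obtain ⟨g, hg, hg0⟩ := Submodule.exists_mem_ne_zero_of_ne_bot
    (LinearMap.ker_ne_bot_of_finrank_lt (f := L) hfin)
  refine ⟨d, g, hg0, ?_⟩
  rw [LinearMap.mem_ker] at hg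
  change ∑ i, Polynomial.C (g i) * Q i = 0
  ext l
  rw [Polynomial.finsetSum_coeff, Polynomial.coeff_zero]
  by_cases hl : l < 2 * d * D + 1
  · have := congrFun hg ⟨l, hl⟩
    simp only [Polynomial.coeff_C_mul]
    exact this
  · apply Finset.sum_eq_zero
    intro i _
    rw [Polynomial.coeff_C_mul, Polynomial.coeff_eq_zero_of_natDegree_lt, mul_zero]
    have := hQ i
    omega

end Res

theorem prime_res {k K : Type} [Field k] [Field K] [Algebra k K] {u : DivVal k K 2}
    {X : ProjVar k K} {P : X.Pt} (h₁ : ∀ z, RegularAt P z → 0 ≤ u.v z)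
    (h₂ : ∀ z, 0 ≤ u.v z → ∃ a b, RegularAt P a ∧ RegularAt P b ∧ b ≠ 0 ∧ u.v b = 0 ∧ z * b = a)
    {par : Fin 3 → K} (h₃ : ∀ z, RegularAt P z → Gn (HasVal P) par z) {s : K}
    (hs : 0 ≤ u.v s) (h : ∀ q, Rs u s (par q)) : False := by
  classical
  -- closedness
  have hcl : Cl (HasVal P) fun z => 0 ≤ u.v z ∧ Rs u s z := by
    refine ⟨?_, ?_, ?_, ?_⟩
    · intro c
      refine ⟨(u.const c).ge, Polynomial.C c, 1, by simp, by rw [map_one, v_one], Or.inl ?_⟩
      simp
    · rintro z z' ⟨hz, hr⟩ ⟨hz', hr'⟩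
      rw [rs_iff hs hz] at hr
      rw [rs_iff hs hz'] at hr'
      refine ⟨val_add u hz hz', ?_⟩
      rw [rs_iff hs (val_add u hz hz')]
      obtain ⟨A, B, h1, h2, h3⟩ := hr
      obtain ⟨A', B', h1', h2', h3'⟩ := hr'
      have hu := unit_mul (u := u) ⟨h1, h2⟩ ⟨h1', h2'⟩
      refine ⟨A * B' + A' * B, B * B', by rw [map_mul]; exact hu.1, by rw [map_mul]; exact hu.2, ?_⟩
      have e1 : (z + z') * Polynomial.aeval s (B * B') =
          (z * Polynomial.aeval s B) * Polynomial.aeval s B' +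
          (z' * Polynomial.aeval s B') * Polynomial.aeval s B := by
        rw [map_mul]; ring
      rw [e1, map_add, map_mul, map_mul]
      exact (h3.mul (Cg.refl h2'.ge)).add (h3'.mul (Cg.refl h2.ge))
    · rintro z z' ⟨hz, hr⟩ ⟨hz', hr'⟩
      rw [rs_iff hs hz] at hr
      rw [rs_iff hs hz'] at hr'
      refine ⟨val_mul u hz hz', ?_⟩
      rw [rs_iff hs (val_mul u hz hz')]
      obtain ⟨A, B, h1, h2, h3⟩ := hr
      obtain ⟨A', B', h1', h2', h3'⟩ := hr'
      have hu := unit_mul (u := u) ⟨h1, h2⟩ ⟨h1', h2'⟩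
      refine ⟨A * A', B * B', by rw [map_mul]; exact hu.1, by rw [map_mul]; exact hu.2, ?_⟩
      have e1 : (z * z') * Polynomial.aeval s (B * B') =
          (z * Polynomial.aeval s B) * (z' * Polynomial.aeval s B') := by
        rw [map_mul]; ring
      rw [e1, map_mul]
      exact h3.mul h3'
    · rintro z c hzc hc ⟨hz, hr⟩
      have hz0 : z ≠ 0 := (place P).ne_zero hzc hc
      have hi : 0 ≤ u.v z⁻¹ := h₁ _ ⟨c⁻¹, hzc.inv hc⟩
      rw [v_inv] at hi
      have hzv : u.v z = 0 := by omega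
      have hi' : 0 ≤ u.v z⁻¹ := by rw [v_inv]; omega
      rw [rs_iff hs hz] at hr
      refine ⟨hi', ?_⟩
      rw [rs_iff hs hi']
      obtain ⟨A, B, h1, h2, h3⟩ := hr
      have hu := unit_mul (u := u) ⟨hz0, hzv⟩ ⟨h1, h2⟩
      obtain ⟨hA1, hA2⟩ := h3.unit hu.1 hu.2
      refine ⟨B, A, hA1, hA2, ?_⟩
      have h4 := (Cg.refl hi').mul h3
      rw [← mul_assoc, inv_mul_cancel₀ hz0, one_mul] at h4
      exact h4.symm
  have hreg : ∀ z, RegularAt P z → 0 ≤ u.v z ∧ Rs u s z := by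
    intro z hz
    refine h₃ z hz _ hcl fun q => ?_
    -- the parameters themselves
    by_cases hq : 0 ≤ u.v (par q)
    · exact ⟨hq, h q⟩
    · exfalso
      obtain ⟨A, B, h1, h2, h3⟩ := h q
      have hp0 : par q ≠ 0 := by
        intro h0
        rw [h0, u.zero] at hq
        exact hq le_rfl
      have h4 : u.v (par q * Polynomial.aeval s B) < 0 := by
        rw [u.mul _ _ hp0 h1, h2]; omega
      have h5 := val_aeval hs A
      rcases h3 with h3 | h3
      · rw [h3] at h4; omega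
      · have h6 := val_add u h3.le h5
        rw [sub_add_cancel] at h6
        omega
  have hall : ∀ z, 0 ≤ u.v z → Rs u s z := by
    intro z hz
    obtain ⟨a, b, ha, hb, hb0, hbv, hab⟩ := h₂ z hz
    obtain ⟨ha0, hra⟩ := hreg a ha
    obtain ⟨hb1, hrb⟩ := hreg b hb
    rw [rs_iff hs ha0] at hra
    rw [rs_iff hs hb1] at hrb
    rw [rs_iff hs hz]
    obtain ⟨A, B, h1, h2, h3⟩ := hra
    obtain ⟨A', B', h1', h2', h3'⟩ := hrb
    have hu := unit_mul (u := u) ⟨hb0, hbv⟩ ⟨h1', h2'⟩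
    obtain ⟨hA1, hA2⟩ := h3'.unit hu.1 hu.2
    have hu2 := unit_mul (u := u) ⟨hA1, hA2⟩ ⟨h1, h2⟩
    refine ⟨A * B', A' * B, by rw [map_mul]; exact hu2.1, by rw [map_mul]; exact hu2.2, ?_⟩
    rw [map_mul, map_mul]
    have e1 : Cg u (z * (Polynomial.aeval s A' * Polynomial.aeval s B))
        (z * ((b * Polynomial.aeval s B') * Polynomial.aeval s B)) :=
      (Cg.refl hz).mul (h3'.symm.mul (Cg.refl h2.ge))
    have e2 : z * ((b * Polynomial.aeval s B') * Polynomial.aeval s B) =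
        (a * Polynomial.aeval s B) * Polynomial.aeval s B' := by
      rw [← hab]; ring
    rw [e2] at e1
    exact e1.trans (h3.mul (Cg.refl h2'.ge))
  -- the transcendental residues
  obtain ⟨y, hy⟩ := u.res
  have hyv : ∀ i, 0 ≤ u.v (y i) := by
    intro i
    have := (hy (MvPolynomial.X i) (MvPolynomial.X_ne_zero i)).2
    rw [MvPolynomial.aeval_X] at this
    exact this.ge
  have hr0 := hall _ (hyv 0)
  have hr1 := hall _ (hyv 1)
  rw [rs_iff hs (hyv 0)] at hr0
  rw [rs_iff hs (hyv 1)] at hr1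
  obtain ⟨A₀, B₀, hB0, hB0v, h0⟩ := hr0
  obtain ⟨A₁, B₁, hB1, hB1v, h1⟩ := hr1
  obtain ⟨d, g, hg, hsum⟩ := alg_dep A₀ B₀ A₁ B₁
  let f : MvPolynomial (Fin 2) k := ∑ i : Fin (d + 1) × Fin (d + 1),
    MvPolynomial.C (g i) * (MvPolynomial.X 0 ^ (i.1 : ℕ) * MvPolynomial.X 1 ^ (i.2 : ℕ))
  have hf : f ≠ 0 := by
    intro hf0
    apply hg
    funext i
    have hc := congrArg (MvPolynomial.coeff
      (Finsupp.single 0 (i.1 : ℕ) + Finsupp.single 1 (i.2 : ℕ))) hf0
    rw [MvPolynomial.coeff_zero, MvPolynomial.coeff_sum, Finset.sum_eq_single i] at hc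
    · rw [MvPolynomial.coeff_C_mul, MvPolynomial.X_pow_eq_monomial, MvPolynomial.X_pow_eq_monomial,
        MvPolynomial.monomial_mul, MvPolynomial.coeff_monomial, if_pos rfl] at hc
      simpa using hc
    · intro i' _ hne
      rw [MvPolynomial.coeff_C_mul, MvPolynomial.X_pow_eq_monomial, MvPolynomial.X_pow_eq_monomial,
        MvPolynomial.monomial_mul, MvPolynomial.coeff_monomial, if_neg, mul_zero]
      intro heq
      apply hne
      have e0 := DFunLike.congr_fun heq 0
      have e1 := DFunLike.congr_fun heq 1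
      simp at e0 e1
      exact Prod.ext (Fin.ext e0) (Fin.ext e1)
    · intro h; exact absurd (Finset.mem_univ _) h
  have hfv := hy f hf
  have hpoly := congrArg (Polynomial.aeval s) hsum
  rw [map_zero, map_sum] at hpoly
  simp only [map_mul, map_pow, Polynomial.aeval_C] at hpoly
  have hc0 : ∀ i : Fin (d + 1) × Fin (d + 1),
      Cg u (algebraMap k K (g i) * ((y 0 * Polynomial.aeval s B₀) ^ (i.1 : ℕ) *
        Polynomial.aeval s B₀ ^ (d - i.1) * ((y 1 * Polynomial.aeval s B₁) ^ (i.2 : ℕ) *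
        Polynomial.aeval s B₁ ^ (d - i.2))))
      (algebraMap k K (g i) * (Polynomial.aeval s A₀ ^ (i.1 : ℕ) *
        Polynomial.aeval s B₀ ^ (d - i.1) * (Polynomial.aeval s A₁ ^ (i.2 : ℕ) *
        Polynomial.aeval s B₁ ^ (d - i.2)))) := by
    intro i
    refine (Cg.refl (u.const _).ge).mul (((h0.pow _).mul ((Cg.refl hB0v.ge).pow _)).mul
      ((h1.pow _).mul ((Cg.refl hB1v.ge).pow _)))
  have hc1 := Cg.sum Finset.univ fun i _ => hc0 i
  rw [hpoly] at hc1
  have e : ∀ i : Fin (d + 1) × Fin (d + 1),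
      (algebraMap k K (g i) * ((y 0 * Polynomial.aeval s B₀) ^ (i.1 : ℕ) *
        Polynomial.aeval s B₀ ^ (d - i.1) * ((y 1 * Polynomial.aeval s B₁) ^ (i.2 : ℕ) *
        Polynomial.aeval s B₁ ^ (d - i.2)))) =
      (Polynomial.aeval s B₀ ^ d * Polynomial.aeval s B₁ ^ d) *
        (algebraMap k K (g i) * (y 0 ^ (i.1 : ℕ) * y 1 ^ (i.2 : ℕ))) := by
    intro i
    have p0 : Polynomial.aeval s B₀ ^ d = Polynomial.aeval s B₀ ^ (i.1 : ℕ) *
        Polynomial.aeval s B₀ ^ (d - i.1) := by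
      rw [← pow_add]; congr 1; have := i.1.2; omega
    have p1 : Polynomial.aeval s B₁ ^ d = Polynomial.aeval s B₁ ^ (i.2 : ℕ) *
        Polynomial.aeval s B₁ ^ (d - i.2) := by
      rw [← pow_add]; congr 1; have := i.2.2; omega
    rw [p0, p1, mul_pow, mul_pow]
    ring
  rw [Finset.sum_congr rfl fun i _ => e i, ← Finset.mul_sum] at hc1
  have hfe : MvPolynomial.aeval y f =
      ∑ i : Fin (d + 1) × Fin (d + 1), algebraMap k K (g i) * (y 0 ^ (i.1 : ℕ) *
        y 1 ^ (i.2 : ℕ)) := by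
    simp only [f, map_sum, map_mul, map_pow, MvPolynomial.aeval_C, MvPolynomial.aeval_X]
  rw [← hfe] at hc1
  have hu := unit_mul (unit_mul (unit_pow (u := u) ⟨hB0, hB0v⟩ d) (unit_pow (u := u) ⟨hB1, hB1v⟩ d))
    hfv
  exact (hc1.unit hu.1 hu.2).1 rfl

end Cfg

end Pool.Agent.Helper43.Fl
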