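import Pool.Agent.Helper43.FlVal
import Pool.Agent.Helper43.FlJac
import Pool.Agent.Helper43.FlSing
import Pool.Agent.Helper43.FlRes
import Pool.Agent.Helper43.FlCluster

open scoped KaehlerDifferential

noncomputable section

namespace Pool.Agent.Helper43.Fl

open Pool.Agent.Helper43 Pool.Agent.Helper43.ProjVar

namespace Cfg

section Residue

variable {k F : Type} [Field k] [Field F] [Algebra k F] {n : ℕ} {u : DivVal k F n} {s : F}

theorem pr_small_add {a b : F} (ha : a = 0 ∨ 0 < u.v a) (hb : b = 0 ∨ 0 < u.v b) :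
    a + b = 0 ∨ 0 < u.v (a + b) := by
  by_cases h1 : a = 0
  · rw [h1, zero_add]; exact hb
  by_cases h2 : b = 0
  · rw [h2, add_zero]; exact ha
  by_cases h3 : a + b = 0
  · exact Or.inl h3
  have := u.add a b h1 h2 h3
  have ha' := ha.resolve_left h1
  have hb' := hb.resolve_left h2
  exact Or.inr (by omega)

theorem pr_small_mul {a b : F} (ha : a = 0 ∨ 0 < u.v a) (hb : 0 ≤ u.v b) :
    a * b = 0 ∨ 0 < u.v (a * b) := by
  by_cases h1 : a = 0
  · rw [h1, zero_mul]; exact Or.inl rfl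
  by_cases h2 : b = 0
  · rw [h2, mul_zero]; exact Or.inl rfl
  have ha' := ha.resolve_left h1
  right
  rw [u.mul _ _ h1 h2]
  omega

theorem pr_small_neg {a : F} (ha : a = 0 ∨ 0 < u.v a) : -a = 0 ∨ 0 < u.v (-a) := by
  rw [v_neg, neg_eq_zero]; exact ha

/-- Regular with a residue which is a rational function of the residue of `s`. -/
def PRG (u : DivVal k F n) (s z : F) : Prop := 0 ≤ u.v z ∧ Rs u s z

theorem pr_rs_iff {z : F} : Rs u s z ↔ ∃ A B : Polynomial k, Polynomial.aeval s B ≠ 0 ∧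
    u.v (Polynomial.aeval s B) = 0 ∧ (z * Polynomial.aeval s B - Polynomial.aeval s A = 0 ∨
      0 < u.v (z * Polynomial.aeval s B - Polynomial.aeval s A)) := by
  unfold Rs
  simp only [sub_eq_zero]

theorem pr_val_poly (hs : 0 ≤ u.v s) (A : Polynomial k) : 0 ≤ u.v (Polynomial.aeval s A) := by
  induction A using Polynomial.induction_on' with
  | add p q hp hq => rw [map_add]; exact val_add u hp hq
  | monomial m a =>
    rw [Polynomial.aeval_monomial]
    refine val_mul u (le_of_eq (u.const a).symm) ?_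
    by_cases h : s = 0
    · rw [h]
      by_cases hm : m = 0
      · simp [hm, v_one]
      · rw [zero_pow hm, u.zero]
    · rw [v_pow u _ h]
      positivity

theorem PRG.const (c : k) : PRG u s (algebraMap k F c) :=
  ⟨le_of_eq (u.const c).symm, Polynomial.C c, 1, by simp, by simp [v_one], Or.inl (by simp)⟩

theorem PRG.self (hs : 0 ≤ u.v s) : PRG u s s :=
  ⟨hs, Polynomial.X, 1, by simp, by simp [v_one], Or.inl (by simp)⟩

theorem PRG.small {z : F} (h : 0 < u.v z) : PRG u s z :=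
  ⟨h.le, 0, 1, by simp, by simp [v_one], Or.inr (by simpa using h)⟩

theorem PRG.add {z z' : F} (h : PRG u s z) (h' : PRG u s z') : PRG u s (z + z') := by
  obtain ⟨hz, h⟩ := h
  obtain ⟨hz', h'⟩ := h'
  refine ⟨val_add u hz hz', ?_⟩
  rw [pr_rs_iff] at *
  obtain ⟨A, B, hB, hB0, hA⟩ := h
  obtain ⟨A', B', hB', hB0', hA'⟩ := h'
  refine ⟨A * B' + A' * B, B * B', ?_, ?_, ?_⟩
  · rw [map_mul]; exact mul_ne_zero hB hB'
  · rw [map_mul, u.mul _ _ hB hB', hB0, hB0']; rfl
  · have h1 := pr_small_add (pr_small_mul hA hB0'.ge) (pr_small_mul hA' hB0.ge)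
    have e : (z * Polynomial.aeval s B - Polynomial.aeval s A) * Polynomial.aeval s B' +
        (z' * Polynomial.aeval s B' - Polynomial.aeval s A') * Polynomial.aeval s B =
        (z + z') * Polynomial.aeval s (B * B') - Polynomial.aeval s (A * B' + A' * B) := by
      simp only [map_mul, map_add]
      ring
    rw [← e]
    exact h1

theorem PRG.mul (hs : 0 ≤ u.v s) {z z' : F} (h : PRG u s z) (h' : PRG u s z') :
    PRG u s (z * z') := by
  obtain ⟨hz, h⟩ := h
  obtain ⟨hz', h'⟩ := h'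
  refine ⟨val_mul u hz hz', ?_⟩
  rw [pr_rs_iff] at *
  obtain ⟨A, B, hB, hB0, hA⟩ := h
  obtain ⟨A', B', hB', hB0', hA'⟩ := h'
  refine ⟨A * A', B * B', ?_, ?_, ?_⟩
  · rw [map_mul]; exact mul_ne_zero hB hB'
  · rw [map_mul, u.mul _ _ hB hB', hB0, hB0']; rfl
  · have h1 := pr_small_add (pr_small_mul hA (val_mul u hz' hB0'.ge)) (pr_small_mul hA' (pr_val_poly hs A))
    have e : (z * Polynomial.aeval s B - Polynomial.aeval s A) * (z' * Polynomial.aeval s B') +
        (z' * Polynomial.aeval s B' - Polynomial.aeval s A') * Polynomial.aeval s A =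
        z * z' * Polynomial.aeval s (B * B') - Polynomial.aeval s (A * A') := by
      simp only [map_mul]
      ring
    rw [← e]
    exact h1

theorem PRG.inv {z : F} (h : PRG u s z) (hz0 : z ≠ 0) (hv : u.v z = 0) : PRG u s z⁻¹ := by
  obtain ⟨-, h⟩ := h
  have hi : u.v z⁻¹ = 0 := by rw [v_inv, hv]; rfl
  refine ⟨hi.ge, ?_⟩
  rw [pr_rs_iff] at *
  obtain ⟨A, B, hB, hB0, hA⟩ := h
  have h1 : u.v (z * Polynomial.aeval s B) = 0 := by rw [u.mul _ _ hz0 hB, hv, hB0]; rfl
  have h2 : Polynomial.aeval s A ≠ 0 := by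
    intro h0
    rw [h0, sub_zero, h1] at hA
    rcases hA with hA | hA
    · exact mul_ne_zero hz0 hB hA
    · exact lt_irrefl _ hA
  have h3 : u.v (Polynomial.aeval s A) = 0 := by
    by_cases h0 : z * Polynomial.aeval s B - Polynomial.aeval s A = 0
    · rw [← sub_eq_zero.mp h0, h1]
    · have h4 := hA.resolve_left h0
      have h5 := T3_of_add u (a := z * Polynomial.aeval s B) (b := -Polynomial.aeval s A)
        (c := -(z * Polynomial.aeval s B - Polynomial.aeval s A)) (mul_ne_zero hz0 hB)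
        (neg_ne_zero.mpr h2) (neg_ne_zero.mpr h0) (by ring)
      rw [h1, v_neg, v_neg] at h5
      unfold T3 at h5
      omega
  refine ⟨B, A, h2, h3, ?_⟩
  have h4 := pr_small_neg (pr_small_mul hA hi.ge)
  have e : -((z * Polynomial.aeval s B - Polynomial.aeval s A) * z⁻¹) =
      z⁻¹ * Polynomial.aeval s A - Polynomial.aeval s B := by
    field_simp
    ring
  rw [← e]
  exact h4

theorem PRG.div (hs : 0 ≤ u.v s) {z z' : F} (h : PRG u s z) (h' : PRG u s z') (hz0 : z' ≠ 0)
    (hv : u.v z' = 0) : PRG u s (z / z') := by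
  rw [div_eq_mul_inv]
  exact h.mul hs (h'.inv hz0 hv)

end Residue

variable {K : Type} [Field K] [Algebra ℂ K] (C : Cfg K) (u : DivVal ℂ K 2)

theorem pr_e_fac {P : (C.on inX).Pt} (h₁ : ∀ z, RegularAt P z → 0 ≤ u.v z) {T : Ty}
    (hT : C.IsChart (HasVal P) T) {a : Ix} (ha : inX a = true) :
    C.e a u = u.v (C.fac T a) := by
  refine mn_unique u (C.sys_ne a) (fun j hj => ?_) ?_
  · have h := h₁ _ (Gn.reg (place P) hT.reg (hT.gen a ha j))
    rw [v_div u _ _ hj (C.fac_ne T a)] at h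
    omega
  · obtain ⟨j, c, hc, hj⟩ := hT.unit a ha
    have hne := (place P).ne_zero hj hc
    have hs : C.sys a j ≠ 0 := by
      intro h0
      rw [h0, zero_div] at hne
      exact hne rfl
    have h1 := h₁ _ ⟨_, hj⟩
    have h2 := h₁ _ ⟨_, HasVal.inv hj hc⟩
    rw [v_inv] at h2
    rw [v_div u _ _ hs (C.fac_ne T a)] at h1 h2
    exact ⟨j, hs, by omega⟩

/-- The differentials of functions generated by the parameters. -/
theorem pr_diff_cl {P : (C.on inX).Pt} (h₁ : ∀ z, RegularAt P z → 0 ≤ u.v z) (par : Fin 3 → K) :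
    Cl (HasVal P) fun z => 0 ≤ u.v z ∧ ∃ c : Fin 3 → K, (∀ q, 0 ≤ u.v (c q)) ∧
      KaehlerDifferential.D ℂ K z = ∑ q, c q • KaehlerDifferential.D ℂ K (par q) where
  const c := ⟨le_of_eq (u.const c).symm, fun _ => 0, fun _ => by rw [u.zero], by simp⟩
  add := by
    rintro z z' ⟨hz, c, hc, e⟩ ⟨hz', c', hc', e'⟩
    refine ⟨val_add u hz hz', fun q => c q + c' q, fun q => val_add u (hc q) (hc' q), ?_⟩
    rw [map_add, e, e', ← Finset.sum_add_distrib]
    exact Finset.sum_congr rfl fun q _ => (add_smul _ _ _).symm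
  mul := by
    rintro z z' ⟨hz, c, hc, e⟩ ⟨hz', c', hc', e'⟩
    refine ⟨val_mul u hz hz', fun q => z * c' q + z' * c q, fun q =>
      val_add u (val_mul u hz (hc' q)) (val_mul u hz' (hc q)), ?_⟩
    rw [Derivation.leibniz, e, e', Finset.smul_sum, Finset.smul_sum, ← Finset.sum_add_distrib]
    exact Finset.sum_congr rfl fun q _ => by rw [add_smul, mul_smul, mul_smul]
  inv := by
    rintro z d hd hd0 ⟨hz, c, hc, e⟩
    have hi := h₁ _ ⟨_, HasVal.inv hd hd0⟩
    refine ⟨hi, fun q => -(z⁻¹ * z⁻¹) * c q, fun q =>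
      val_mul u (by rw [v_neg]; exact val_mul u hi hi) (hc q), ?_⟩
    rw [Derivation.leibniz_inv, e, Finset.smul_sum]
    exact Finset.sum_congr rfl fun q _ => by rw [mul_smul, ← sq]

theorem pr_diff_span {P : (C.on inX).Pt} (h₁ : ∀ z, RegularAt P z → 0 ≤ u.v z)
    (h₂ : ∀ z, 0 ≤ u.v z → ∃ a b, RegularAt P a ∧ RegularAt P b ∧ b ≠ 0 ∧ u.v b = 0 ∧ z * b = a)
    {par : Fin 3 → K} (hpar : ∀ q, RegularAt P (par q))
    (h₃ : ∀ z, RegularAt P z → Gn (HasVal P) par z) {z : K} (hz : 0 ≤ u.v z) :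
    ∃ c : Fin 3 → K, (∀ q, 0 ≤ u.v (c q)) ∧
      KaehlerDifferential.D ℂ K z = ∑ q, c q • KaehlerDifferential.D ℂ K (par q) := by
  have hcl := C.pr_diff_cl u h₁ par
  have hq : ∀ q, 0 ≤ u.v (par q) ∧ ∃ c : Fin 3 → K, (∀ q, 0 ≤ u.v (c q)) ∧
      KaehlerDifferential.D ℂ K (par q) = ∑ q, c q • KaehlerDifferential.D ℂ K (par q) := by
    intro q
    refine ⟨h₁ _ (hpar q), Pi.single q 1, fun q' => ?_, ?_⟩
    · by_cases h : q' = q
      · subst h; simp [v_one]
      · simp [h, u.zero]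
    · rw [Finset.sum_eq_single q]
      · simp
      · intro q' _ h
        simp [h]
      · simp
  obtain ⟨a, b, ha, hb, hb0, hbv, e⟩ := h₂ z hz
  obtain ⟨-, c, hc, ec⟩ := h₃ a ha _ hcl hq
  obtain ⟨-, c', hc', ec'⟩ := h₃ b hb _ hcl hq
  have hbi : 0 ≤ u.v b⁻¹ := by rw [v_inv, hbv]; rfl
  refine ⟨fun q => b⁻¹ * (c q - z * c' q), fun q => ?_, ?_⟩
  · refine val_mul u hbi ?_
    rw [sub_eq_add_neg]
    refine val_add u (hc q) ?_
    rw [v_neg]
    exact val_mul u hz (hc' q)
  · have h1 := congrArg (KaehlerDifferential.D ℂ K) e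
    rw [Derivation.leibniz, ec, ec'] at h1
    have h2 : b • KaehlerDifferential.D ℂ K z =
        ∑ q, (c q - z * c' q) • KaehlerDifferential.D ℂ K (par q) := by
      have h3 : ∑ q, (c q - z * c' q) • KaehlerDifferential.D ℂ K (par q) =
          ∑ q, c q • KaehlerDifferential.D ℂ K (par q) -
            z • ∑ q, c' q • KaehlerDifferential.D ℂ K (par q) := by
        rw [Finset.smul_sum, ← Finset.sum_sub_distrib]
        exact Finset.sum_congr rfl fun q _ => by rw [sub_smul, mul_smul]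
      rw [h3, ← h1]
      abel
    calc KaehlerDifferential.D ℂ K z = b⁻¹ • b • KaehlerDifferential.D ℂ K z := by
          rw [smul_smul, inv_mul_cancel₀ hb0, one_smul]
      _ = _ := by
          rw [h2, Finset.smul_sum]
          exact Finset.sum_congr rfl fun q _ => by rw [mul_smul]

theorem pr_det_val {M : Matrix (Fin 3) (Fin 3) K} (h : ∀ i j, 0 ≤ u.v (M i j)) :
    0 ≤ u.v M.det := by
  have hn : ∀ {a : K}, 0 ≤ u.v a → 0 ≤ u.v (-a) := fun h => by rwa [v_neg]
  have hm : ∀ i j k l p q, 0 ≤ u.v (M i j * M k l * M p q) := fun i j k l p q =>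
    val_mul u (val_mul u (h _ _) (h _ _)) (h _ _)
  rw [Matrix.det_fin_three]
  simp only [sub_eq_add_neg]
  exact val_add u (val_add u (val_add u (val_add u (val_add u (hm _ _ _ _ _ _)
    (hn (hm _ _ _ _ _ _))) (hn (hm _ _ _ _ _ _))) (hm _ _ _ _ _ _)) (hm _ _ _ _ _ _))
    (hn (hm _ _ _ _ _ _))

theorem pr_isOrd_of {P : (C.on inX).Pt} (h₁ : ∀ z, RegularAt P z → 0 ≤ u.v z)
    (h₂ : ∀ z, 0 ≤ u.v z → ∃ a b, RegularAt P a ∧ RegularAt P b ∧ b ≠ 0 ∧ u.v b = 0 ∧ z * b = a)
    {par : Fin 3 → K} (hpar : ∀ q, RegularAt P (par q))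
    (h₃ : ∀ z, RegularAt P z → Gn (HasVal P) par z) {j : K} (hj : j ≠ 0)
    (hJ : IsJacobian ℂ par C.b j) : IsOrd C.b u (-u.v j) := by
  constructor
  · rintro a J ha ⟨M, hM, hMa⟩ hJ0
    have h4 := fun i => C.pr_diff_span u h₁ h₂ hpar h₃ (ha i)
    choose c hc hc' using h4
    obtain ⟨N, hN, hNb⟩ := hJ
    have h5 : M = (Matrix.of c) * N := by
      refine Matrix.ext fun i l => ?_
      have h6 : ∑ l, M i l • KaehlerDifferential.D ℂ K (C.b l) =
          ∑ l, ((Matrix.of c) * N) i l • KaehlerDifferential.D ℂ K (C.b l) := by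
        rw [← hMa i, hc' i]
        simp only [hNb, Finset.smul_sum, smul_smul, Matrix.mul_apply, Finset.sum_smul,
          Matrix.of_apply]
        rw [Finset.sum_comm]
      have h7 := Fintype.linearIndependent_iff.mp C.basis.1
        (fun l => M i l - ((Matrix.of c) * N) i l) (by
          simp only [sub_smul, Finset.sum_sub_distrib]
          rw [h6, sub_self]) l
      exact sub_eq_zero.mp h7
    have h8 : J = (Matrix.of c).det * j := by rw [← hM, h5, Matrix.det_mul, hN]
    have h9 : (Matrix.of c).det ≠ 0 := by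
      intro h0
      rw [h0, zero_mul] at h8
      exact hJ0 h8
    have h10 := pr_det_val u (M := Matrix.of c) fun i l => hc i l
    rw [h8, u.mul _ _ h9 hj]
    omega
  · exact ⟨par, j, fun q => h₁ _ (hpar q), hJ, hj, by ring⟩


/-- The residue of a function near the residue of a constant. -/
theorem PRG.near {s z : K} {c : ℂ} (h : 0 < u.v (z - cc K c)) : PRG u s z := by
  have h1 := (PRG.small (s := s) h).add (PRG.const c)
  rwa [sub_add_cancel] at h1

variable {u} in
theorem pr_N1_zero {P : (C.on inX).Pt} (h₁ : ∀ z, RegularAt P z → 0 ≤ u.v z)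
    (h₂ : ∀ z, 0 ≤ u.v z → ∃ a b, RegularAt P a ∧ RegularAt P b ∧ b ≠ 0 ∧ u.v b = 0 ∧ z * b = a)
    {T : Ty} (hT : C.IsChart (HasVal P) T)
    (h₃ : ∀ z, RegularAt P z → Gn (HasVal P) (C.par T) z) :
    C.e .U u + C.e .V u - C.e .S u = 0 := by
  by_contra hne
  have hx0 := C.x_ne
  have hy0 := C.y_ne
  have hw0 := C.w_ne
  rw [C.e_U u, C.e_V u, C.e_S u] at hne
  have hw : u.v C.w < min 0 (u.v C.x) + min 0 (u.v C.y) := by omega
  have hv : ∀ q, 0 ≤ u.v (C.par T q) := fun q => h₁ _ (hT.reg q)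
  cases T with
  | a =>
    have h := hv 2
    change 0 ≤ u.v C.w at h
    omega
  | b =>
    have h := hv 2
    change 0 ≤ u.v (C.w / C.y) at h
    rw [v_div u _ _ hw0 hy0] at h
    omega
  | a' =>
    have h := hv 2
    change 0 ≤ u.v (C.w / C.x) at h
    rw [v_div u _ _ hw0 hx0] at h
    omega
  | b' =>
    have h := hv 2
    change 0 ≤ u.v (C.w / (C.x * C.y)) at h
    rw [v_div u _ _ hw0 (mul_ne_zero hx0 hy0), u.mul _ _ hx0 hy0] at h
    omega
  | c =>
    have h0 := hv 0
    change 0 ≤ u.v C.x at h0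
    refine prime_res h₁ h₂ h₃ (s := C.x) h0 fun q => ?_
    fin_cases q
    · exact (PRG.self h0).2
    · refine (PRG.small ?_).2
      change 0 < u.v C.w⁻¹
      rw [v_inv]
      omega
    · refine (PRG.small ?_).2
      change 0 < u.v (C.y / C.w)
      rw [v_div u _ _ hy0 hw0]
      omega
  | c' =>
    have h0 := hv 0
    change 0 ≤ u.v C.x⁻¹ at h0
    refine prime_res h₁ h₂ h₃ (s := C.x⁻¹) h0 fun q => ?_
    fin_cases q
    · exact (PRG.self h0).2
    · refine (PRG.small ?_).2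
      change 0 < u.v (C.x / C.w)
      rw [v_div u _ _ hx0 hw0]
      omega
    · refine (PRG.small ?_).2
      change 0 < u.v (C.x * C.y / C.w)
      rw [v_div u _ _ (mul_ne_zero hx0 hy0) hw0, u.mul _ _ hx0 hy0]
      omega
  | q i r =>
    have hτ0 := C.τ_ne i
    have hD0 := C.D_ne i
    have h0 := hv 0
    have h1 := hv 1
    have h2 := hv 2
    fin_cases r
    · change 0 ≤ u.v (C.τ i) at h0
      change 0 ≤ u.v (C.w / C.τ i) at h2
      rw [v_div u _ _ hw0 hτ0] at h2
      omega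
    · change 0 ≤ u.v C.w at h0
      omega
    · change 0 ≤ u.v (C.τ i ^ 2 / C.D i) at h0
      change 0 ≤ u.v (C.D i / C.τ i) at h1
      change 0 ≤ u.v (C.w / C.τ i) at h2
      rw [v_div u _ _ (pow_ne_zero _ hτ0) hD0, v_pow u _ hτ0] at h0
      rw [v_div u _ _ hD0 hτ0] at h1
      rw [v_div u _ _ hw0 hτ0] at h2
      push_cast at h0
      omega
    · change 0 ≤ u.v (C.w ^ 2 / C.D i) at h0
      change 0 ≤ u.v (C.D i / C.w) at h1
      rw [v_div u _ _ (pow_ne_zero _ hw0) hD0, v_pow u _ hw0] at h0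
      rw [v_div u _ _ hD0 hw0] at h1
      push_cast at h0
      omega
    · change 0 ≤ u.v (C.D i) at h0
      change 0 ≤ u.v (C.w / C.D i) at h2
      rw [v_div u _ _ hw0 hD0] at h2
      omega

variable {u} in
theorem pr_N2_zero {P : (C.on inX).Pt} (h₁ : ∀ z, RegularAt P z → 0 ≤ u.v z)
    (h₂ : ∀ z, 0 ≤ u.v z → ∃ a b, RegularAt P a ∧ RegularAt P b ∧ b ≠ 0 ∧ u.v b = 0 ∧ z * b = a)
    {T : Ty} (hT : C.IsChart (HasVal P) T)
    (h₃ : ∀ z, RegularAt P z → Gn (HasVal P) (C.par T) z) (i : Fin 5) :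
    (C.e (.F i) u - 2 * C.e .U u - 2 * C.e .V u) - (C.e (.N i i) u - 2 * C.e .S u) = 0 := by
  by_contra hne
  have hN1 := C.pr_N1_zero h₁ h₂ hT h₃
  have hx0 := C.x_ne
  have hy0 := C.y_ne
  have hw0 := C.w_ne
  have hτ0 := C.τ_ne
  have hD0 := C.D_ne
  have e1 := C.e_U u
  have e2 := C.e_V u
  have e3 := C.e_S u
  have e4 := C.e_M_self u i
  have e5 := C.e_N_self u i
  have e6 := C.e_F u i
  have tx := C.T_x u i
  have ty := C.T_y u i
  unfold mF at e4 e6
  unfold T3 at tx ty
  have hτ : 0 < u.v (C.τ i) := by omega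
  have hz : 0 < u.v (C.z i) := by omega
  have hx : u.v C.x = 0 := by omega
  have hy : u.v C.y = 0 := by omega
  have hw : 0 ≤ u.v C.w := by omega
  have hwτ : u.v C.w < u.v (C.τ i) := by omega
  have hwD : 2 * u.v C.w < u.v (C.D i) := by omega
  have rw' : PRG u C.w C.w := PRG.self hw
  have rx : PRG u C.w C.x := PRG.near u hτ
  have ry : PRG u C.w C.y := PRG.near u hz
  have hv : ∀ q, 0 ≤ u.v (C.par T q) := fun q => h₁ _ (hT.reg q)
  have rη : PRG u C.w C.η := by
    have h := ry.add ((PRG.const (-1)).mul hw rx)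
    have e : C.y + algebraMap ℂ K (-1) * C.x = C.η := by
      rw [map_neg, map_one, η]
      ring
    rwa [e] at h
  have rτ : ∀ k, PRG u C.w (C.τ k) := by
    intro k
    have h := rx.add (PRG.const (-tt k))
    have e : C.x + algebraMap ℂ K (-tt k) = C.τ k := by
      rw [map_neg, τ]
      ring
    rwa [e] at h
  have rD : ∀ k, PRG u C.w (C.D k) := fun k => (rτ k).add ((PRG.const _).mul hw rη)
  have hη : 0 < u.v C.η := by
    have := C.T_η u i
    unfold T3 at this
    omega
  have hτk : ∀ k, k ≠ i → u.v (C.τ k) = 0 := by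
    intro k hk
    have := C.T_τ u hk.symm
    unfold T3 at this
    omega
  have hDk : ∀ k, k ≠ i → u.v (C.D k) = 0 := by
    intro k hk
    have := C.T_D' u k
    have := hτk k hk
    unfold T3 at *
    omega
  refine prime_res h₁ h₂ h₃ hw ?_
  suffices H : ∀ q, PRG u C.w (C.par T q) from fun q => (H q).2
  have hh0 := hv 0
  have hh1 := hv 1
  have hh2 := hv 2
  cases T with
  | a =>
    intro q
    fin_cases q
    · exact rx
    · exact ry
    · exact rw'
  | b =>
    intro q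
    fin_cases q
    · exact rx
    · exact ry.inv hy0 hy
    · exact rw'.div hw ry hy0 hy
  | a' =>
    intro q
    fin_cases q
    · exact rx.inv hx0 hx
    · exact ry
    · exact rw'.div hw rx hx0 hx
  | b' =>
    intro q
    fin_cases q
    · exact rx.inv hx0 hx
    · exact ry.inv hy0 hy
    · exact rw'.div hw (rx.mul hw ry) (mul_ne_zero hx0 hy0) (by
        rw [u.mul _ _ hx0 hy0, hx, hy]; rfl)
  | c =>
    change 0 ≤ u.v C.w⁻¹ at hh1
    rw [v_inv] at hh1
    have hw' : u.v C.w = 0 := by omega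
    intro q
    fin_cases q
    · exact rx
    · exact rw'.inv hw0 hw'
    · exact ry.div hw rw' hw0 hw'
  | c' =>
    change 0 ≤ u.v (C.x / C.w) at hh1
    rw [v_div u _ _ hx0 hw0] at hh1
    have hw' : u.v C.w = 0 := by omega
    intro q
    fin_cases q
    · exact rx.inv hx0 hx
    · exact rx.div hw rw' hw0 hw'
    · exact (rx.mul hw ry).div hw rw' hw0 hw'
  | q k r =>
    by_cases hk : k = i
    · subst hk
      fin_cases r
      · exfalso
        change 0 ≤ u.v (C.w / C.τ k) at hh2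
        rw [v_div u _ _ hw0 (hτ0 k)] at hh2
        omega
      · intro q
        fin_cases q
        · exact rw'
        · refine PRG.small ?_
          change 0 < u.v (C.D k / C.w ^ 2)
          rw [v_div u _ _ (hD0 k) (pow_ne_zero _ hw0), v_pow u _ hw0]
          push_cast
          omega
        · refine PRG.small ?_
          change 0 < u.v (C.τ k / C.w)
          rw [v_div u _ _ (hτ0 k) hw0]
          omega
      · exfalso
        change 0 ≤ u.v (C.w / C.τ k) at hh2
        rw [v_div u _ _ hw0 (hτ0 k)] at hh2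
        omega
      · exfalso
        change 0 ≤ u.v (C.w ^ 2 / C.D k) at hh0
        rw [v_div u _ _ (pow_ne_zero _ hw0) (hD0 k), v_pow u _ hw0] at hh0
        push_cast at hh0
        omega
      · exfalso
        change 0 ≤ u.v (C.w / C.D k) at hh2
        rw [v_div u _ _ hw0 (hD0 k)] at hh2
        omega
    · have vτ := hτk k hk
      have vD := hDk k hk
      have sτ := rτ k
      have sD := rD k
      have nτ := hτ0 k
      have nD := hD0 k
      have sτ2 : PRG u C.w (C.τ k ^ 2) := by rw [sq]; exact sτ.mul hw sτ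
      have nτ2 : C.τ k ^ 2 ≠ 0 := pow_ne_zero _ nτ
      have vτ2 : u.v (C.τ k ^ 2) = 0 := by rw [v_pow u _ nτ, vτ]; rfl
      have sw2 : PRG u C.w (C.w ^ 2) := by rw [sq]; exact rw'.mul hw rw'
      fin_cases r
      · intro q
        fin_cases q
        · exact sτ
        · exact sD.div hw sτ2 nτ2 vτ2
        · exact rw'.div hw sτ nτ vτ
      · change 0 ≤ u.v (C.τ k / C.w) at hh2
        rw [v_div u _ _ nτ hw0] at hh2
        have hw' : u.v C.w = 0 := by omega
        have vw2 : u.v (C.w ^ 2) = 0 := by rw [v_pow u _ hw0, hw']; rfl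
        intro q
        fin_cases q
        · exact rw'
        · exact sD.div hw sw2 (pow_ne_zero _ hw0) vw2
        · exact sτ.div hw rw' hw0 hw'
      · intro q
        fin_cases q
        · exact sτ2.div hw sD nD vD
        · exact sD.div hw sτ nτ vτ
        · exact rw'.div hw sτ nτ vτ
      · change 0 ≤ u.v (C.τ k / C.w) at hh2
        rw [v_div u _ _ nτ hw0] at hh2
        have hw' : u.v C.w = 0 := by omega
        intro q
        fin_cases q
        · exact sw2.div hw sD nD vD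
        · exact sD.div hw rw' hw0 hw'
        · exact sτ.div hw rw' hw0 hw'
      · intro q
        fin_cases q
        · exact sD
        · exact sτ.div hw sD nD vD
        · exact rw'.div hw sD nD vD

theorem prime (c : Cls) (hu : (C.on inX).IsPrimeDiv u) :
    ∃ m : ℤ, IsOrd C.b u m ∧ disc C c u = m := by
  obtain ⟨P, h₁, h₂⟩ := hu
  obtain ⟨T, hT⟩ := C.chart_exists (place P) (C.on_gen P rfl) (C.on_gen P rfl)
    fun i hx hy hw => C.cluster_self (place P) hx hy hw (C.on_gen P rfl) (C.on_gen P rfl)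
  obtain ⟨e, he, hgen⟩ := C.chart_coord hT
  have h₃ : ∀ z, RegularAt P z → Gn (HasVal P) (C.par T) z := by
    rintro z ⟨d, hz⟩
    exact hasVal_gn he hgen hz
  obtain ⟨j, hj, hJ, hval⟩ := C.jac T
  refine ⟨-u.v j, C.pr_isOrd_of u h₁ h₂ hT.reg h₃ hj hJ, ?_⟩
  have hS := C.pr_e_fac u h₁ hT (a := .S) rfl
  have hM : ∀ i, C.e (.M i i) u = u.v (C.fac T (.M i i)) := fun i => C.pr_e_fac u h₁ hT rfl
  have hN : ∀ i, C.e (.N i i) u = u.v (C.fac T (.N i i)) := fun i => C.pr_e_fac u h₁ hT rfl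
  have hN1 : ((C.e .U u : ℝ) + C.e .V u - C.e .S u) = 0 := by
    exact_mod_cast C.pr_N1_zero h₁ h₂ hT h₃
  have hN2 : ∀ i, (((C.e (.F i) u : ℝ) - 2 * C.e .U u - 2 * C.e .V u) -
      (C.e (.N i i) u - 2 * C.e .S u)) = 0 := fun i => by
    exact_mod_cast C.pr_N2_zero h₁ h₂ hT h₃ i
  have hsum : ∑ i, c.2.2 i / 2 * (((C.e (.F i) u : ℝ) - 2 * C.e .U u - 2 * C.e .V u) -
      (C.e (.N i i) u - 2 * C.e .S u)) = 0 :=
    Finset.sum_eq_zero fun i _ => by rw [hN2 i, mul_zero]
  unfold disc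
  rw [hN1, hsum, mul_zero, add_zero, add_zero, hval u, hS]
  simp only [hM, hN]
  push_cast
  ring

end Cfg

end Pool.Agent.Helper43.Fl
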