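import Pool.Agent.Helper43.FlModel

open scoped KaehlerDifferential

noncomputable section

namespace Pool.Agent.Helper43.Fl

open Pool.Agent.Helper43 Pool.Agent.Helper43.ProjVar

variable {k K : Type} [Field k] [Field K] [Algebra k K] {n : ℕ}

/-- The Segre product of two projective varieties, presented by the products of the
homogeneous coordinates. -/
def segre (X Y : ProjVar k K) : ProjVar k K where
  ι := X.ι × Y.ι
  fin := by
    have := X.fin
    have := Y.fin
    infer_instance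
  x e := X.x e.1 * Y.x e.2
  o := (X.o, Y.o)
  x_ne := mul_ne_zero X.x_ne Y.x_ne

variable {X Y : ProjVar k K}

theorem hyp_bdd (X : ProjVar k K) (u : DivVal k K n) :
    BddAbove (Set.range fun i => (u.v (X.x X.o / X.x i) : ℝ)) := by
  have := X.fin
  exact (Set.finite_range _).bddAbove

theorem hyp_nonneg (X : ProjVar k K) (u : DivVal k K n) : 0 ≤ X.hyp n u := by
  have h := le_ciSup (hyp_bdd X u) X.o
  rw [div_self X.x_ne, v_one, Int.cast_zero] at h
  exact h

theorem le_hyp (X : ProjVar k K) (u : DivVal k K n) (i : X.ι) :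
    (u.v (X.x X.o / X.x i) : ℝ) ≤ X.hyp n u := le_ciSup (hyp_bdd X u) i

theorem hyp_le (X : ProjVar k K) (u : DivVal k K n) {t : ℝ} (ht : 0 ≤ t)
    (h : ∀ i, X.x i ≠ 0 → (u.v (X.x X.o / X.x i) : ℝ) ≤ t) : X.hyp n u ≤ t := by
  have : Nonempty X.ι := ⟨X.o⟩
  refine ciSup_le fun i => ?_
  by_cases hi : X.x i = 0
  · rw [hi, div_zero, u.zero]
    simpa using ht
  · exact h i hi

theorem hyp_attained (X : ProjVar k K) (u : DivVal k K n) :
    ∃ i, X.x i ≠ 0 ∧ X.hyp n u = u.v (X.x X.o / X.x i) := by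
  have := X.fin
  have : Nonempty X.ι := ⟨X.o⟩
  obtain ⟨i, hi⟩ := exists_eq_ciSup_of_finite (f := fun i => (u.v (X.x X.o / X.x i) : ℝ))
  by_cases h0 : X.x i = 0
  · refine ⟨X.o, X.x_ne, ?_⟩
    rw [div_self X.x_ne, v_one]
    change (⨆ i, (u.v (X.x X.o / X.x i) : ℝ)) = _
    rw [← hi]
    simp only [h0, div_zero, u.zero]
  · exact ⟨i, h0, hi.symm⟩

theorem segre_val (u : DivVal k K n) {i : X.ι} {j : Y.ι} (hi : X.x i ≠ 0) (hj : Y.x j ≠ 0) :
    u.v ((segre X Y).x (segre X Y).o / (segre X Y).x (i, j)) =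
      u.v (X.x X.o / X.x i) + u.v (Y.x Y.o / Y.x j) := by
  have e : (segre X Y).x (segre X Y).o / (segre X Y).x (i, j) =
      X.x X.o / X.x i * (Y.x Y.o / Y.x j) := by
    change X.x X.o * Y.x Y.o / (X.x i * Y.x j) = _
    rw [mul_div_mul_comm]
  rw [e, u.mul _ _ (div_ne_zero X.x_ne hi) (div_ne_zero Y.x_ne hj)]

theorem segre_hyp : (segre X Y).hyp n = X.hyp n + Y.hyp n := by
  funext u
  change (segre X Y).hyp n u = X.hyp n u + Y.hyp n u
  apply le_antisymm
  · refine hyp_le _ _ (add_nonneg (hyp_nonneg X u) (hyp_nonneg Y u)) ?_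
    rintro ⟨i, j⟩ hij
    have hi : X.x i ≠ 0 := left_ne_zero_of_mul hij
    have hj : Y.x j ≠ 0 := right_ne_zero_of_mul hij
    rw [segre_val u hi hj]
    push_cast
    exact add_le_add (le_hyp X u i) (le_hyp Y u j)
  · obtain ⟨i, hi, h1⟩ := hyp_attained X u
    obtain ⟨j, hj, h2⟩ := hyp_attained Y u
    rw [h1, h2]
    have h3 := le_hyp (segre X Y) u (i, j)
    rw [segre_val u hi hj] at h3
    push_cast at h3
    exact h3

theorem segre_fst : (segre X Y).Dominates X := by
  intro P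
  obtain ⟨⟨i, j⟩, hij⟩ := P.exists_ne
  have h := Pt.x_ne hij
  have hi : X.x i ≠ 0 := left_ne_zero_of_mul h
  have hj : Y.x j ≠ 0 := right_ne_zero_of_mul h
  obtain ⟨Q, h1, -⟩ := exists_centre (Y := X) (place P) (e₀ := i) hi fun i' => by
    have h2 := hasVal_ratio hij (i', j)
    have e : (segre X Y).x (i', j) / (segre X Y).x (i, j) = X.x i' / X.x i := by
      change X.x i' * Y.x j / (X.x i * Y.x j) = _
      field_simp
    rw [e] at h2
    exact ⟨_, h2⟩
  exact ⟨Q, h1⟩

theorem segre_snd : (segre X Y).Dominates Y := by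
  intro P
  obtain ⟨⟨i, j⟩, hij⟩ := P.exists_ne
  have h := Pt.x_ne hij
  have hi : X.x i ≠ 0 := left_ne_zero_of_mul h
  have hj : Y.x j ≠ 0 := right_ne_zero_of_mul h
  obtain ⟨Q, h1, -⟩ := exists_centre (Y := Y) (place P) (e₀ := j) hj fun j' => by
    have h2 := hasVal_ratio hij (i, j')
    have e : (segre X Y).x (i, j') / (segre X Y).x (i, j) = Y.x j' / Y.x j := by
      change X.x i * Y.x j' / (X.x i * Y.x j) = _
      field_simp
    rw [e] at h2
    exact ⟨_, h2⟩
  exact ⟨Q, h1⟩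

theorem segre_top (h : X.functionField = ⊤) : (segre X Y).functionField = ⊤ := by
  rw [eq_top_iff, ← h]
  change IntermediateField.adjoin k _ ≤ _
  rw [IntermediateField.adjoin_le_iff]
  rintro z ⟨i, rfl⟩
  have h2 := ProjVar.ratio_mem (X := segre X Y) (i, Y.o) (X.o, Y.o)
  have hy := Y.x_ne
  have e : (segre X Y).x (i, Y.o) / (segre X Y).x (X.o, Y.o) = X.x i / X.x X.o := by
    change X.x i * Y.x Y.o / (X.x X.o * Y.x Y.o) = _
    field_simp
  rw [e] at h2
  exact h2

theorem dominates_trans {X Y Z : ProjVar k K} (h : X.Dominates Y) (h' : Y.Dominates Z) :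
    X.Dominates Z := by
  intro P
  obtain ⟨Q, hQ⟩ := h P
  obtain ⟨R, hR⟩ := h' Q
  exact ⟨R, fun z c hz => hQ z c (hR z c hz)⟩

theorem segre_nef {D : BDiv k K n} (h : X.Nef D) : (segre X Y).Nef D := by
  intro N
  obtain ⟨c, m, d, Z, hc, hd, hmem⟩ := h (2 * N)
  refine ⟨1 / 2, m + 2, Fin.cons (c / 2) (Fin.cons (1 / 2) fun j => d j / 2),
    Fin.cons X (Fin.cons Y Z), by norm_num, ?_, ?_⟩
  · intro j
    refine Fin.cases ?_ (fun j => ?_) j
    · exact ⟨by simp only [Fin.cons_zero]; linarith, segre_fst⟩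
    · refine Fin.cases ?_ (fun j => ?_) j
      · exact ⟨by simp, segre_snd⟩
      · refine ⟨?_, dominates_trans segre_fst (hd j).2⟩
        have := (hd j).1
        simp only [Fin.cons_succ]
        linarith
  · rw [Fin.sum_univ_succ, Fin.sum_univ_succ]
    simp only [Fin.cons_zero, Fin.cons_succ]
    have e : ((N : ℝ) • D + (segre X Y).hyp n) - ((1 / 2 : ℝ) • (segre X Y).hyp n +
        ((c / 2) • X.hyp n + ((1 / 2 : ℝ) • Y.hyp n + ∑ j, (d j / 2) • (Z j).hyp n))) =
        (1 / 2 : ℝ) • ((((2 * N : ℕ) : ℝ) • D + X.hyp n) -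
          (c • X.hyp n + ∑ j, d j • (Z j).hyp n)) := by
      have e2 : ∑ j, (d j / 2) • (Z j).hyp n = (1 / 2 : ℝ) • ∑ j, d j • (Z j).hyp n := by
        rw [Finset.smul_sum]
        refine Finset.sum_congr rfl fun j _ => ?_
        rw [smul_smul]
        congr 1
        ring
      rw [segre_hyp, e2]
      generalize (∑ j, d j • (Z j).hyp n) = S
      funext u
      simp only [Pi.sub_apply, Pi.add_apply, Pi.smul_apply, smul_eq_mul]
      push_cast
      ring
    rw [e]
    exact Submodule.smul_mem _ _ hmem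

end Pool.Agent.Helper43.Fl
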