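import Pool.Agent.Helper43.FlChart0

open scoped KaehlerDifferential

noncomputable section

namespace Pool.Agent.Helper43.Fl

open Pool.Agent.Helper43 Pool.Agent.Helper43.ProjVar

variable {K : Type} [Field K] [Algebra ℂ K]

/-- The constant linear combinations of the elements of a system. -/
abbrev sp (s : J → K) : Submodule ℂ K := Submodule.span ℂ (Set.range s)

theorem sp_mem (s : J → K) (j : J) : s j ∈ sp s := Submodule.subset_span ⟨j, rfl⟩

theorem sp_cc {s : J → K} {z : K} (c : ℂ) (h : z ∈ sp s) : cc K c * z ∈ sp s := by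
  have := (sp s).smul_mem c h
  rwa [Algebra.smul_def] at this

/-- Elements of the span of a system are regular after division by a generator. -/
theorem sp_reg {H : K → ℂ → Prop} (hH : Place H) {s : J → K} {g : K}
    (hg : ∀ i, ∃ c, H (s i / g) c) {z : K} (hz : z ∈ sp s) : ∃ c, H (z / g) c := by
  induction hz using Submodule.span_induction with
  | mem z hz =>
    obtain ⟨i, rfl⟩ := hz
    exact hg i
  | zero => exact ⟨0, by simpa using hH.zero⟩
  | add a b _ _ ha hb =>
    obtain ⟨c, hc⟩ := ha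
    obtain ⟨d, hd⟩ := hb
    exact ⟨c + d, by rw [add_div]; exact hH.add hc hd⟩
  | smul r a _ ha =>
    obtain ⟨c, hc⟩ := ha
    refine ⟨r * c, ?_⟩
    rw [Algebra.smul_def, mul_div_assoc]
    exact hH.mul (hH.const r) hc

theorem sp_reg0 {H : K → ℂ → Prop} (hH : Place H) {s : J → K} {g : K}
    (hg : ∀ i, H (s i / g) 0) {z : K} (hz : z ∈ sp s) : H (z / g) 0 := by
  induction hz using Submodule.span_induction with
  | mem z hz =>
    obtain ⟨i, rfl⟩ := hz
    exact hg i
  | zero => simpa using hH.zero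
  | add a b _ _ ha hb =>
    have := hH.add ha hb
    rwa [add_zero, ← add_div] at this
  | smul r a _ ha =>
    have := hH.mul (hH.const r) ha
    rwa [mul_zero, ← mul_div_assoc, ← Algebra.smul_def] at this

/-- Systems with the same span up to a factor have generators at the same places. -/
theorem gen_of_span {H : K → ℂ → Prop} (hH : Place H) {s s' : J → K} {f : K} (hf : f ≠ 0)
    (h1 : ∀ j, ∃ z ∈ sp s, s' j = f * z) (h2 : ∀ j, f * s j ∈ sp s')
    (hg : GenAt H s) : GenAt H s' := by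
  obtain ⟨j₀, h0, hg⟩ := hg
  have h3 : ∀ j, ∃ c, H (s' j / (f * s j₀)) c := by
    intro j
    obtain ⟨z, hz, hj⟩ := h1 j
    obtain ⟨c, hc⟩ := sp_reg hH hg hz
    refine ⟨c, ?_⟩
    rw [hj, mul_div_mul_left _ _ hf]
    exact hc
  choose c hc using h3
  have h4 : ∃ j, c j ≠ 0 := by
    by_contra h5
    push Not at h5
    have h6 := sp_reg0 hH (g := f * s j₀) (fun i => by have := hc i; rwa [h5 i] at this) (h2 j₀)
    rw [div_self (mul_ne_zero hf h0)] at h6
    exact one_ne_zero (hH.uniq hH.one h6)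
  obtain ⟨j, hj⟩ := h4
  have h5 := hH.ne_zero (hc j) hj
  have h6 : s' j ≠ 0 := by
    intro h7
    rw [h7, zero_div] at h5
    exact h5 rfl
  refine ⟨j, h6, fun i => ⟨c i / c j, ?_⟩⟩
  have h7 := hH.div (hc i) (hc j) hj
  rwa [div_div_div_cancel_right₀ (mul_ne_zero hf h0)] at h7

theorem sp_val {n : ℕ} (u : DivVal ℂ K n) {s : J → K} {m : ℤ}
    (hm : ∀ j, s j ≠ 0 → m ≤ u.v (s j)) {z : K} (hz : z ∈ sp s) : z = 0 ∨ m ≤ u.v z := by
  induction hz using Submodule.span_induction with
  | mem z hz =>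
    obtain ⟨i, rfl⟩ := hz
    by_cases h : s i = 0
    · exact Or.inl h
    · exact Or.inr (hm i h)
  | zero => exact Or.inl rfl
  | add a b _ _ ha hb =>
    by_cases h1 : a = 0
    · simpa [h1] using hb
    by_cases h2 : b = 0
    · simpa [h2] using ha
    by_cases h3 : a + b = 0
    · exact Or.inl h3
    right
    have h4 := u.add a b h1 h2 h3
    have h5 := ha.resolve_left h1
    have h6 := hb.resolve_left h2
    omega
  | smul r a _ ha =>
    by_cases h1 : a = 0
    · left
      rw [h1, smul_zero]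
    by_cases h2 : r = 0
    · left
      rw [h2, zero_smul]
    right
    rw [Algebra.smul_def, u.mul _ _ (by simpa using h2) h1, u.const, zero_add]
    exact ha.resolve_left h1

/-- Systems with the same span up to a factor have the same least value up to a shift. -/
theorem mn_of_span {n : ℕ} (u : DivVal ℂ K n) {s s' : J → K} {f : K} (hf : f ≠ 0)
    (h0 : s jo ≠ 0) (h0' : s' jo ≠ 0)
    (h1 : ∀ j, ∃ z ∈ sp s, s' j = f * z) (h2 : ∀ j, f * s j ∈ sp s') :
    mn s' u = mn s u + u.v f := by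
  have h3 : ∀ j, s' j ≠ 0 → mn s u + u.v f ≤ u.v (s' j) := by
    intro j hj
    obtain ⟨z, hz, hj'⟩ := h1 j
    have hz0 : z ≠ 0 := by
      rintro rfl
      exact hj (by rw [hj', mul_zero])
    have h4 := (sp_val u (fun j hj => mn_le u h0 hj) hz).resolve_left hz0
    rw [hj', u.mul _ _ hf hz0]
    omega
  refine mn_unique u h0' h3 ?_
  by_contra h4
  push Not at h4
  obtain ⟨j, hj, h5⟩ := mn_eq u h0
  have h6 := (sp_val u (m := mn s u + u.v f + 1) (fun j hj => by
    have h7 := h3 j hj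
    have h8 := h4 j hj
    omega) (h2 j)).resolve_left (mul_ne_zero hf hj)
  rw [u.mul _ _ hf hj] at h6
  omega

theorem contr_change' {X Z Z' : ProjVar ℂ K} (h : X.ContractsOneCurve Z) (h₁ : Z.Dominates Z')
    (h₂ : Z'.Dominates Z) : X.ContractsOneCurve Z' := by
  obtain ⟨hd, e, c, hc, hP⟩ := h
  refine ⟨fun P => ?_, e, c, hc, fun P P' => ?_⟩
  · obtain ⟨Q, hQ⟩ := hd P
    obtain ⟨Q', hQ'⟩ := h₁ Q
    exact ⟨Q', fun z c h => hQ z c (hQ' z c h)⟩
  · rw [← hP P P']
    constructor
    · rintro ⟨Q', h3, h4⟩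
      obtain ⟨Q, hQ⟩ := h₂ Q'
      exact ⟨Q, fun z c h => h3 z c (hQ z c h), fun z c h => h4 z c (hQ z c h)⟩
    · rintro ⟨Q, h3, h4⟩
      obtain ⟨Q', hQ'⟩ := h₁ Q
      exact ⟨Q', fun z c h => h3 z c (hQ' z c h), fun z c h => h4 z c (hQ' z c h)⟩

namespace Cfg

variable (C : Cfg K) (u : DivVal ℂ K 2)

/-- Changing all systems within their spans, up to factors. -/
theorem on_change {C C' : Cfg K} {s : Ix → Bool} {F : Ix → K} (hF : ∀ a, F a ≠ 0)
    (h1 : ∀ a, s a = true → ∀ j, ∃ z ∈ sp (C.sys a), C'.sys a j = F a * z)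
    (h2 : ∀ a, s a = true → ∀ j, F a * C.sys a j ∈ sp (C'.sys a)) :
    (C.on s).Dominates (C'.on s) ∧ (C'.on s).hyp 2 - (C.on s).hyp 2 ∈ principal ℂ K 2 := by
  constructor
  · exact C'.on_dominates fun P a ha =>
      gen_of_span (place P) (hF a) (h1 a ha) (h2 a ha) (C.on_gen P ha)
  · have h3 := C'.on_hyp_mod s
    have h4 := C.on_hyp_mod s
    have h5 : (C'.on s).hyp 2 - (C.on s).hyp 2 =
        ((C'.on s).hyp 2 - fun u => -∑ a, if s a = true then (C'.e a u : ℝ) else 0) -
        ((C.on s).hyp 2 - fun u => -∑ a, if s a = true then (C.e a u : ℝ) else 0) -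
        ∑ a, if s a = true then (fun u : DivVal ℂ K 2 => (u.v (F a) : ℝ)) else 0 := by
      funext u
      simp only [Pi.sub_apply, Finset.sum_apply]
      have h6 : (∑ a, if s a = true then (C'.e a u : ℝ) else 0) =
          (∑ a, if s a = true then (C.e a u : ℝ) else 0) +
          ∑ a, (if s a = true then (fun u : DivVal ℂ K 2 => (u.v (F a) : ℝ)) else 0) u := by
        rw [← Finset.sum_add_distrib]
        refine Finset.sum_congr rfl fun a _ => ?_
        by_cases ha : s a = true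
        · simp only [ha, if_true]
          have h7 := mn_of_span u (hF a) (C.sys_ne a) (C'.sys_ne a) (h1 a ha) (h2 a ha)
          unfold Cfg.e
          rw [h7]
          push_cast
          rfl
        · simp [ha]
      rw [h6]
      ring
    rw [h5]
    refine Submodule.sub_mem _ (Submodule.sub_mem _ h3 h4) (Submodule.sum_mem _ fun a _ => ?_)
    split_ifs
    · exact mem_principal _
    · exact Submodule.zero_mem _

theorem m_mem (i j : Fin 5) (p : Fin 4) : C.m i j p ∈ sp (C.sys (.M i j)) :=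
  Submodule.subset_span ⟨some (p, 0), rfl⟩

theorem w_mem (i j : Fin 5) : C.w ∈ sp (C.sys (.M i j)) := C.m_mem i j 0
theorem η_mem (i j : Fin 5) : C.η ∈ sp (C.sys (.M i j)) := C.m_mem i j 1
theorem τz_mem (i j : Fin 5) : C.τ i * C.z j ∈ sp (C.sys (.M i j)) := C.m_mem i j 2
theorem τ_mem (i : Fin 5) : C.τ i ∈ sp (C.sys (.M i i)) := by
  have := C.m_mem i i 3
  simpa [m] using this

/-- Products of elements of the span of `M` are in the span of `N`. -/
theorem mul_mem_N {i j : Fin 5} {a b : K} (ha : a ∈ sp (C.sys (.M i j)))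
    (hb : b ∈ sp (C.sys (.M i j))) : a * b ∈ sp (C.sys (.N i j)) := by
  induction ha, hb using Submodule.span_induction₂ with
  | mem_mem a b ha hb =>
    obtain ⟨p, rfl⟩ := ha
    obtain ⟨q, rfl⟩ := hb
    rcases p with _ | ⟨p, p'⟩
    · simp [sys]
    rcases q with _ | ⟨q, q'⟩
    · simp [sys]
    exact Submodule.subset_span ⟨some (p, q), rfl⟩
  | zero_left b hb => simp
  | zero_right a ha => simp
  | add_left a b c _ _ _ h1 h2 => rw [add_mul]; exact Submodule.add_mem _ h1 h2
  | add_right a b c _ _ _ h1 h2 => rw [mul_add]; exact Submodule.add_mem _ h1 h2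
  | smul_left r a b _ _ h1 => rw [smul_mul_assoc]; exact Submodule.smul_mem _ r h1
  | smul_right r a b _ _ h1 => rw [mul_smul_comm]; exact Submodule.smul_mem _ r h1

theorem D_mem (i : Fin 5) : C.D i ∈ sp (C.sys (.N i i)) := by
  refine Submodule.subset_span ⟨none, ?_⟩
  simp [sys]

theorem hτ_mem {i j : Fin 5} (hij : i ≠ j) : C.h i j * C.τ i ∈ sp (C.sys (.N i j)) := by
  refine Submodule.subset_span ⟨none, ?_⟩
  simp [sys, hij]

theorem h_eq {i j : Fin 5} (hij : i ≠ j) : C.h i j =
    cc K (C.κ j - 1) * C.η + C.τ i * C.z j / cc K (tt j - tt i) := by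
  have h0 : cc K (tt j - tt i) ≠ 0 := cc_ne (tt_sub hij.symm)
  simp only [Cfg.h, D]
  rw [← sub_eq_zero]
  have h1 : C.τ j + cc K (C.κ j) * C.η + C.τ j * C.z j / cc K (tt j - tt i) -
      (cc K (C.κ j - 1) * C.η + C.τ i * C.z j / cc K (tt j - tt i)) =
      (cc K (tt j - tt i) * (C.τ j + C.η) + (C.τ j - C.τ i) * C.z j) / cc K (tt j - tt i) := by
    rw [cc_sub (C.κ j) 1, cc_one]
    field_simp
    ring
  rw [h1, div_eq_zero_iff]
  left
  simp only [τ, z, η, cc_sub]
  ring

theorem hη_mem {i j : Fin 5} (hij : i ≠ j) : C.h i j * C.η ∈ sp (C.sys (.N i j)) := by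
  have h1 : C.h i j * C.η = cc K (C.κ j - 1) * (C.η * C.η) +
      cc K (tt j - tt i)⁻¹ * (C.τ i * C.z j * C.η) := by
    rw [C.h_eq hij, cc_inv]
    ring
  rw [h1]
  exact Submodule.add_mem _ (sp_cc _ (C.mul_mem_N (C.η_mem i j) (C.η_mem i j)))
    (sp_cc _ (C.mul_mem_N (C.τz_mem i j) (C.η_mem i j)))

/-- The factors under an elementary transformation. -/
def fB (i : Fin 5) : Ix → K
  | .M _ _ => C.τ i / C.D i
  | .N _ _ => (C.τ i / C.D i) ^ 2
  | _ => 1

theorem fB_ne (i : Fin 5) (a : Ix) : C.fB i a ≠ 0 := by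
  have h1 := div_ne_zero (C.τ_ne i) (C.D_ne i)
  cases a <;> simp only [fB] <;> first | exact one_ne_zero | exact h1 | exact pow_ne_zero 2 h1

section

variable {i : Fin 5} (h : ∀ j, j ≠ i → C.κ i + C.κ j ≠ 1)

theorem B_m (j : Fin 5) (p : Fin 4) :
    ∃ z ∈ sp (C.sys (.M i j)), (C.B i h).m i j p = C.τ i / C.D i * z := by
  have h0 := C.D_ne i
  have hτ : C.τ i = C.τ i / C.D i * C.D i := by field_simp
  fin_cases p
  · exact ⟨cc K (1 - C.κ i) * C.w, sp_cc _ (C.w_mem i j), by
      simp only [m, Fin.zero_eta, Matrix.cons_val_zero, B_w]; ring⟩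
  · exact ⟨cc K (1 - C.κ i) * C.η, sp_cc _ (C.η_mem i j), by
      simp only [m, Fin.mk_one, Matrix.cons_val_one, Matrix.cons_val_zero, B_η]; ring⟩
  · refine ⟨C.τ i * C.z j + cc K ((tt i - tt j) * C.κ i) * C.η,
      Submodule.add_mem _ (C.τz_mem i j) (sp_cc _ (C.η_mem i j)), ?_⟩
    simp only [m, Fin.reduceFinMk, Matrix.cons_val, B_τ, B_z]
    field_simp
    simp only [D, τ, z, η, cc_sub, cc_mul]
    ring
  · by_cases hij : i = j
    · subst hij
      refine ⟨C.D i, ?_, ?_⟩
      · exact Submodule.add_mem _ (C.τ_mem i) (sp_cc _ (C.η_mem i i))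
      · simp only [m, Fin.reduceFinMk, Matrix.cons_val, B_τ, if_true]
        exact hτ
    · refine ⟨0, Submodule.zero_mem _, ?_⟩
      simp only [m, Fin.reduceFinMk, Matrix.cons_val, if_neg hij, mul_zero]

theorem B_h {j : Fin 5} (hij : i ≠ j) : (C.B i h).h i j = C.τ i / C.D i * C.h i j := by
  have h0 := C.D_ne i
  have h1 : cc K (tt j - tt i) ≠ 0 := cc_ne (tt_sub hij.symm)
  have h2 : (1 : ℂ) - C.κ i ≠ 0 := sub_ne_zero.mpr (C.κ1 i).symm
  have h3 : cc K (1 - C.κ i) ≠ 0 := cc_ne h2
  rw [(C.B i h).h_eq hij, C.h_eq hij, B_η, B_τ, B_z, B_κ, if_neg (Ne.symm hij)]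
  rw [cc_sub (C.κ j / (1 - C.κ i)) 1, cc_div, cc_one]
  have h4 : cc K (tt i - tt j) = -cc K (tt j - tt i) := by rw [← cc_neg]; congr 1; ring
  rw [h4]
  field_simp
  simp only [D, τ, z, η, cc_sub, cc_one]
  ring

theorem B_sys {a : Ix} (ha : inZ i a = true) (q : J) :
    ∃ z ∈ sp (C.sys a), (C.B i h).sys a q = C.fB i a * z := by
  cases a with
  | U =>
    refine ⟨C.sys .U q, sp_mem _ q, ?_⟩
    simp only [fB, one_mul]
    rcases q with _ | ⟨q, q'⟩ <;> rfl
  | V => simp [inZ] at ha
  | W => simp [inZ] at ha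
  | S => simp [inZ] at ha
  | F j => simp [inZ] at ha
  | M k j =>
    have hk : k = i := by simpa [inZ] using ha
    subst hk
    rcases q with _ | ⟨q, q'⟩
    · exact ⟨0, Submodule.zero_mem _, by simp [sys]⟩
    · exact C.B_m h j q
  | N k j =>
    have hk : k = i := by simpa [inZ] using ha
    subst hk
    rcases q with _ | ⟨q, q'⟩
    · by_cases hij : k = j
      · subst hij
        refine ⟨C.D k, C.D_mem k, ?_⟩
        simp only [sys, if_true, fB, B_D_self]
        have h0 := C.D_ne k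
        field_simp
      · refine ⟨C.h k j * C.τ k + cc K (C.κ k) * (C.h k j * C.η),
          Submodule.add_mem _ (C.hτ_mem hij) (sp_cc _ (C.hη_mem hij)), ?_⟩
        simp only [sys, if_neg hij, fB, C.B_h h hij, B_τ]
        have h0 := C.D_ne k
        have h1 : C.h k j * C.τ k + cc K (C.κ k) * (C.h k j * C.η) = C.h k j * C.D k := by
          simp only [D]
          ring
        rw [h1]
        field_simp
    · obtain ⟨z, hz, h1⟩ := C.B_m h j q
      obtain ⟨z', hz', h2⟩ := C.B_m h j q'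
      refine ⟨z * z', C.mul_mem_N hz hz', ?_⟩
      simp only [sys, fB, h1, h2]
      ring

theorem B_sys' {a : Ix} (ha : inZ i a = true) (q : J) :
    C.fB i a * C.sys a q ∈ sp ((C.B i h).sys a) := by
  obtain ⟨z, hz, h1⟩ := (C.B i h).B_sys (C.B_h' h) ha q
  rw [C.B_B h] at h1
  have h2 : C.fB i a * (C.B i h).fB i a = 1 := by
    have h0 := C.D_ne i
    have h3 := C.τ_ne i
    have h4 : C.τ i / C.D i * ((C.B i h).τ i / (C.B i h).D i) = 1 := by
      rw [B_D_self, B_τ]
      field_simp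
    cases a with
    | M _ _ => exact h4
    | N _ _ =>
      simp only [fB]
      rw [← mul_pow, h4, one_pow]
    | _ => simp [fB]
  rw [h1, ← mul_assoc, h2, one_mul]
  exact hz

end

theorem sw_m (i j : Fin 5) (p : Fin 4) : C.sw.m i j p ∈ sp (C.sys (.M i j)) := by
  fin_cases p
  · exact C.w_mem i j
  · have : C.sw.m i j 1 = -C.η := by simp [m]
    change C.sw.m i j 1 ∈ _
    rw [this]
    exact Submodule.neg_mem _ (C.η_mem i j)
  · have : C.sw.m i j 2 = C.τ i * C.z j - cc K (tt j - tt i) * C.η := by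
      simp only [m, Matrix.cons_val, sw_x, sw_y, τ, z, η, cc_sub]
      ring
    change C.sw.m i j 2 ∈ _
    rw [this]
    exact Submodule.sub_mem _ (C.τz_mem i j) (sp_cc _ (C.η_mem i j))
  · change C.sw.m i j 3 ∈ _
    by_cases hij : i = j
    · subst hij
      have : C.sw.m i i 3 = C.τ i + C.η := by
        simp only [m, Matrix.cons_val, if_true, sw_x, τ, η]
        ring
      rw [this]
      exact Submodule.add_mem _ (C.τ_mem i) (C.η_mem i i)
    · have : C.sw.m i j 3 = 0 := by simp [m, hij]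
      rw [this]
      exact Submodule.zero_mem _

theorem sw_h (i j : Fin 5) : C.sw.h i j = C.h i j := by
  simp only [Cfg.h, sw_D, sw_τ, sw_z]
  ring

theorem sw_sys {a : Ix} (ha : inT a = true) (q : J) : C.sw.sys a q ∈ sp (C.sys a) := by
  cases a with
  | U => simp [inT] at ha
  | V => simp [inT] at ha
  | W => simp [inT] at ha
  | F j => simp [inT] at ha
  | S =>
    rcases q with _ | ⟨q, q'⟩
    · exact sp_mem (C.sys .S) none
    · fin_cases q
      · exact sp_mem (C.sys .S) (some (0, 0))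
      · exact sp_mem (C.sys .S) (some (2, 0))
      · exact sp_mem (C.sys .S) (some (1, 0))
      · have : C.sw.sys .S (some (3, q')) = C.sys .S (some (3, q')) := by
          simp only [sys, Matrix.cons_val, sw_x, sw_y]
          ring
        change C.sw.sys .S (some (3, q')) ∈ _
        rw [this]
        exact sp_mem (C.sys .S) (some (3, q'))
  | M i j =>
    rcases q with _ | ⟨q, q'⟩
    · exact sp_mem (C.sys (.M i j)) none
    · exact C.sw_m i j q
  | N i j =>
    rcases q with _ | ⟨q, q'⟩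
    · by_cases hij : i = j
      · subst hij
        have : C.sw.sys (.N i i) none = C.D i := by simp [sys]
        rw [this]
        exact C.D_mem i
      · have : C.sw.sys (.N i j) none = C.h i j * C.τ i + C.h i j * C.η := by
          simp only [sys, if_neg hij, C.sw_h, sw_x, τ, η]
          ring
        rw [this]
        exact Submodule.add_mem _ (C.hτ_mem hij) (C.hη_mem hij)
    · exact C.mul_mem_N (C.sw_m i j q) (C.sw_m i j q')

theorem contr_change {X Z Z' : ProjVar ℂ K} (h : X.ContractsOneCurve Z) (h₁ : Z.Dominates Z')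
    (h₂ : Z'.Dominates Z) : X.ContractsOneCurve Z' := contr_change' h h₁ h₂

theorem Z_dom {i : Fin 5} (h : ∀ j, j ≠ i → C.κ i + C.κ j ≠ 1) :
    (C.on (inZ i)).Dominates ((C.B i h).on (inZ i)) :=
  (on_change (C.fB_ne i) (fun _ ha => C.B_sys h ha) (fun _ ha => C.B_sys' h ha)).1
theorem Z_hyp {i : Fin 5} (h : ∀ j, j ≠ i → C.κ i + C.κ j ≠ 1) :
    ((C.B i h).on (inZ i)).hyp 2 - (C.on (inZ i)).hyp 2 ∈ principal ℂ K 2 :=
  (on_change (C.fB_ne i) (fun _ ha => C.B_sys h ha) (fun _ ha => C.B_sys' h ha)).2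

theorem sw_change : (C.on inT).Dominates (C.sw.on inT) ∧
    (C.sw.on inT).hyp 2 - (C.on inT).hyp 2 ∈ principal ℂ K 2 := by
  refine on_change (F := fun _ => 1) (fun _ => one_ne_zero)
    (fun a ha j => ⟨C.sw.sys a j, C.sw_sys ha j, by rw [one_mul]⟩) (fun a ha j => ?_)
  have := C.sw.sw_sys ha j
  rw [C.sw_sw] at this
  rwa [one_mul]

theorem T_dom : (C.on inT).Dominates (C.sw.on inT) := C.sw_change.1
theorem T_hyp : (C.sw.on inT).hyp 2 - (C.on inT).hyp 2 ∈ principal ℂ K 2 := C.sw_change.2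

end Cfg

end Pool.Agent.Helper43.Fl
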