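import Pool.Agent.Helper43.FlRel
import Pool.Agent.Helper43.FlBeta
import Pool.Agent.Helper43.FlOrd
import Pool.Agent.Helper43.FlKlt
import Pool.Agent.Helper43.FlCluster
import Pool.Agent.Helper43.FlJac
import Pool.Agent.Helper43.FlSing
import Pool.Agent.Helper43.FlRes
import Pool.Agent.Helper43.FlPrime
import Pool.Agent.Helper43.FlContrT
import Pool.Agent.Helper43.FlContrZ
import Pool.Agent.Helper43.FlZEq
import Pool.Agent.Helper43.FlAmple
import Pool.Agent.Helper43.FlGood
import Pool.Agent.Helper43.FlSegre

open scoped KaehlerDifferential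

noncomputable section

namespace Pool.Agent.Helper43.Fl.Cfg

open Pool.Agent.Helper43 Pool.Agent.Helper43.ProjVar

variable {K : Type} [Field K] [Algebra ℂ K] (C : Cfg K)

/-- Every point of the threefold lies in a chart. -/
theorem point_chart (P : (C.on inX).Pt) : ∃ T, C.IsChart (HasVal P) T :=
  C.chart_exists (place P) (C.on_gen P rfl) (C.on_gen P rfl) fun _ hx hy hw =>
    C.cluster_self (place P) hx hy hw (C.on_gen P rfl) (C.on_gen P rfl)

theorem X_nonsing : (C.on inX).IsNonsingular 3 := C.X_nonsing_of C.point_chart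

end Pool.Agent.Helper43.Fl.Cfg
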