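import Pool.Agent.Helper43.GeoLemmas

open scoped KaehlerDifferential

noncomputable section

namespace Pool.Agent.Helper43

universe u

/-- A property of functions stable under the ring operations, inverses of units at the place, and
solutions of `z + s z ^ 4 = w` (an étale equation in characteristic two). -/
structure Closed {k F : Type u} [Field k] [Field F] [Algebra k F] (H : F → k → Prop)
    (p : F → Prop) : Prop where
  const : ∀ c, p (algebraMap k F c)
  add : ∀ {z z'}, p z → p z' → p (z + z')
  mul : ∀ {z z'}, p z → p z' → p (z * z')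
  inv : ∀ {z c}, H z c → c ≠ 0 → p z → p z⁻¹
  root : ∀ {z s w}, (∃ c, H z c) → p s → p w → z + s * z ^ 4 = w → p z

variable {k F : Type u} [Field k] [Field F] [Algebra k F]

namespace Closed

variable {H : F → k → Prop} {p : F → Prop} (hp : Closed H p)
include hp

theorem one : p 1 := by simpa using hp.const 1

theorem pow {z : F} (hz : p z) (n : ℕ) : p (z ^ n) := by
  induction n with
  | zero => simpa using hp.one
  | succ n ih => rw [pow_succ]; exact hp.mul ih hz

theorem root1 {z w : F} (hz : ∃ c, H z c) (hw : p w) (h : z + z ^ 4 = w) : p z :=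
  hp.root hz hp.one hw (by rw [one_mul]; exact h)

end Closed

namespace Place

variable {H : F → k → Prop} (hH : Place H)
include hH

theorem one : H 1 1 := by simpa using hH.const 1

theorem zero : H 0 0 := by simpa using hH.const 0

theorem pow {z : F} {c : k} (hz : H z c) (n : ℕ) : H (z ^ n) (c ^ n) := by
  induction n with
  | zero => simpa using hH.one
  | succ n ih => rw [pow_succ, pow_succ]; exact hH.mul ih hz

theorem neg {z : F} {c : k} (hz : H z c) : H (-z) (-c) := by
  have := hH.mul (hH.const (-1)) hz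
  simpa using this

theorem sub {z z' : F} {c c' : k} (hz : H z c) (hz' : H z' c') : H (z - z') (c - c') := by
  rw [sub_eq_add_neg, sub_eq_add_neg]
  exact hH.add hz (hH.neg hz')

theorem div {z z' : F} {c c' : k} (hz : H z c) (hz' : H z' c') (h : c' ≠ 0) :
    H (z / z') (c / c') := by
  rw [div_eq_mul_inv, div_eq_mul_inv]
  exact hH.mul hz (hH.inv hz' h)

theorem ne_zero {z : F} {c : k} (hz : H z c) (hc : c ≠ 0) : z ≠ 0 := by
  rintro rfl
  exact hc (hH.uniq hz hH.zero)

/-- The property that `z` minus its value lies in the ideal generated by the `s i`. -/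
theorem closed_ideal [CharP F 2] {n : ℕ} (s : Fin n → F) :
    Closed H fun z => ∃ c, H z c ∧ ∃ d : Fin n → F, (∀ i, ∃ c', H (d i) c') ∧
      z - algebraMap k F c = ∑ i, d i * s i where
  const c := ⟨c, hH.const c, fun _ => 0, fun _ => ⟨0, hH.zero⟩, by simp⟩
  add := by
    rintro z z' ⟨c, h, d, hd, e⟩ ⟨c', h', d', hd', e'⟩
    refine ⟨c + c', hH.add h h', fun i => d i + d' i, fun i => ?_, ?_⟩
    · obtain ⟨x, hx⟩ := hd i
      obtain ⟨y, hy⟩ := hd' i
      exact ⟨_, hH.add hx hy⟩
    · simp only [add_mul, Finset.sum_add_distrib, ← e, ← e', map_add]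
      ring
  mul := by
    rintro z z' ⟨c, h, d, hd, e⟩ ⟨c', h', d', hd', e'⟩
    refine ⟨c * c', hH.mul h h', fun i => d i * z' + algebraMap k F c * d' i, fun i => ?_, ?_⟩
    · obtain ⟨x, hx⟩ := hd i
      obtain ⟨y, hy⟩ := hd' i
      exact ⟨_, hH.add (hH.mul hx h') (hH.mul (hH.const c) hy)⟩
    · have : ∑ i, (d i * z' + algebraMap k F c * d' i) * s i =
          (∑ i, d i * s i) * z' + algebraMap k F c * ∑ i, d' i * s i := by
        rw [Finset.sum_mul, Finset.mul_sum, ← Finset.sum_add_distrib]
        exact Finset.sum_congr rfl fun i _ => by ring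
      rw [this, ← e, ← e', map_mul]
      ring
  inv := by
    rintro z c₀ h₀ hc₀ ⟨c, h, d, hd, e⟩
    obtain rfl := hH.uniq h h₀
    have hz := hH.ne_zero h hc₀
    have hc : algebraMap k F c ≠ 0 := by simpa using hc₀
    refine ⟨c⁻¹, hH.inv h hc₀, fun i => -(z⁻¹ * algebraMap k F c⁻¹) * d i, fun i => ?_, ?_⟩
    · obtain ⟨x, hx⟩ := hd i
      exact ⟨_, hH.mul (hH.neg (hH.mul (hH.inv h hc₀) (hH.const _))) hx⟩
    · have : ∑ i, (-(z⁻¹ * algebraMap k F c⁻¹) * d i) * s i =
          -(z⁻¹ * algebraMap k F c⁻¹) * ∑ i, d i * s i := by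
        rw [Finset.mul_sum]
        exact Finset.sum_congr rfl fun i _ => by ring
      rw [this, ← e, map_inv₀]
      field_simp
      ring
  root := by
    rintro z t w ⟨c, hc⟩ ⟨ct, ht, d, hd, e⟩ ⟨cw, hw, d', hd', e'⟩ hzw
    have h2 : (2 : F) = 0 := CharTwo.two_eq_zero
    have hcw : c + ct * c ^ 4 = cw := by
      have := hH.add hc (hH.mul ht (hH.pow hc 4))
      rw [hzw] at this
      exact hH.uniq this hw
    have hunit : H (1 + t * (z - algebraMap k F c) ^ 3) 1 := by
      have := hH.add hH.one (hH.mul ht (hH.pow (hH.sub hc (hH.const c)) 3))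
      simpa using this
    have hne := hH.ne_zero hunit one_ne_zero
    have hkey : (z - algebraMap k F c) * (1 + t * (z - algebraMap k F c) ^ 3) =
        (w - algebraMap k F cw) - algebraMap k F c ^ 4 * (t - algebraMap k F ct) := by
      rw [← hcw, ← hzw]
      simp only [map_add, map_mul, map_pow]
      linear_combination (-2 * t * z ^ 3 * algebraMap k F c + 3 * t * z ^ 2 * algebraMap k F c ^ 2
        - 2 * t * z * algebraMap k F c ^ 3 + t * algebraMap k F c ^ 4) * h2
    refine ⟨c, hc, fun i => (1 + t * (z - algebraMap k F c) ^ 3)⁻¹ *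
      (d' i - algebraMap k F c ^ 4 * d i), fun i => ?_, ?_⟩
    · obtain ⟨x, hx⟩ := hd i
      obtain ⟨y, hy⟩ := hd' i
      exact ⟨_, hH.mul (hH.inv hunit one_ne_zero)
        (hH.sub hy (hH.mul (hH.pow (hH.const c) 4) hx))⟩
    · have : ∑ i, ((1 + t * (z - algebraMap k F c) ^ 3)⁻¹ *
          (d' i - algebraMap k F c ^ 4 * d i)) * s i =
          (1 + t * (z - algebraMap k F c) ^ 3)⁻¹ * ((∑ i, d' i * s i) -
            algebraMap k F c ^ 4 * ∑ i, d i * s i) := by
        rw [Finset.mul_sum, ← Finset.sum_sub_distrib, Finset.mul_sum]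
        exact Finset.sum_congr rfl fun i _ => by ring
      rw [this, ← e, ← e', ← hkey, eq_comm, inv_mul_eq_iff_eq_mul₀ hne]
      ring

end Place

namespace ProjVar

variable {X Y : ProjVar k F}

theorem mem_localRing {P : X.Pt} {z : X.functionField} :
    z ∈ X.localRing P ↔ ∃ c, HasVal P (z : F) c := Iff.rfl

instance charP_functionField [CharP F 2] : CharP X.functionField 2 :=
  (algebraMap X.functionField F).charP (algebraMap X.functionField F).injective 2

theorem ratio_mem (i j : X.ι) : X.x i / X.x j ∈ X.functionField := by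
  have h : ∀ l, X.x l / X.x X.o ∈ X.functionField := fun l =>
    IntermediateField.subset_adjoin _ _ ⟨l, rfl⟩
  have h2 := div_mem (h i) (h j)
  have h3 := X.x_ne
  have : X.x i / X.x X.o / (X.x j / X.x X.o) = X.x i / X.x j := by
    by_cases hj : X.x j = 0
    · simp [hj]
    · field_simp
  rwa [this] at h2

theorem HasVal.mem {P : X.Pt} {z : F} {c : k} (h : HasVal P z c) : z ∈ X.functionField := by
  obtain ⟨j, hj⟩ := P.exists_ne
  exact regular_induction P (p := fun z => z ∈ X.functionField)
    (fun c => X.functionField.algebraMap_mem c) (fun _ _ => add_mem) (fun _ _ => mul_mem)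
    (fun _ _ _ _ => inv_mem) hj (fun l => ratio_mem l j) h

/-- The property that the differential of `z` lies in a submodule over the local ring. -/
theorem closed_diff [CharP F 2] (P : X.Pt)
    (M : Submodule (X.localRing P) Ω[X.functionField⁄k]) :
    Closed (HasVal P) fun z => ∃ z' : X.functionField, (z' : F) = z ∧ z' ∈ X.localRing P ∧
      KaehlerDifferential.D k X.functionField z' ∈ M where
  const c := ⟨algebraMap k X.functionField c, rfl, Subalgebra.algebraMap_mem _ _, by simp⟩
  add := by
    rintro _ _ ⟨z, rfl, hz, hz'⟩ ⟨w, rfl, hw, hw'⟩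
    exact ⟨z + w, rfl, add_mem hz hw, by rw [map_add]; exact add_mem hz' hw'⟩
  mul := by
    rintro _ _ ⟨z, rfl, hz, hz'⟩ ⟨w, rfl, hw, hw'⟩
    refine ⟨z * w, rfl, mul_mem hz hw, ?_⟩
    rw [Derivation.leibniz]
    exact add_mem (M.smul_mem ⟨z, hz⟩ hw') (M.smul_mem ⟨w, hw⟩ hz')
  inv := by
    rintro _ c hc hc0 ⟨z, rfl, hz, hz'⟩
    have hinv : z⁻¹ ∈ X.localRing P := ⟨c⁻¹, by simpa using HasVal.inv hc hc0⟩
    refine ⟨z⁻¹, rfl, hinv, ?_⟩
    have h0 : z ≠ 0 := by
      have := (place P).ne_zero hc hc0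
      rintro rfl
      exact this rfl
    rw [Derivation.leibniz_inv]
    have h2 : -(z⁻¹ ^ 2) ∈ X.localRing P := neg_mem (pow_mem hinv 2)
    have h3 := M.smul_mem ⟨_, h2⟩ hz'
    have h4 : -z⁻¹ ^ 2 • KaehlerDifferential.D k X.functionField z =
      (-(z⁻¹ ^ 2)) • KaehlerDifferential.D k X.functionField z := by simp
    rw [h4]
    exact h3
  root := by
    rintro z _ _ ⟨c, hc⟩ ⟨s, rfl, hs, hs'⟩ ⟨w, rfl, hw, hw'⟩ h
    obtain ⟨z, rfl⟩ : ∃ z' : X.functionField, (z' : F) = z := ⟨⟨z, hc.mem⟩, rfl⟩
    have hz : z ∈ X.localRing P := ⟨c, hc⟩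
    have h' : z + s * z ^ 4 = w := by
      apply Subtype.ext
      push_cast
      exact h
    have h4 : (4 : X.functionField) = 0 := by
      linear_combination 2 * (CharTwo.two_eq_zero : (2 : X.functionField) = 0)
    refine ⟨z, rfl, hz, ?_⟩
    have h5 := congrArg (KaehlerDifferential.D k X.functionField) h'
    rw [map_add, Derivation.leibniz, Derivation.leibniz_pow] at h5
    have h6 : (4 : ℕ) • z ^ (4 - 1) • KaehlerDifferential.D k X.functionField z = 0 := by
      rw [← Nat.cast_smul_eq_nsmul X.functionField]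
      push_cast
      rw [h4, zero_smul]
    rw [h6, smul_zero, zero_add] at h5
    have h7 : KaehlerDifferential.D k X.functionField z =
        KaehlerDifferential.D k X.functionField w -
          z ^ 4 • KaehlerDifferential.D k X.functionField s := by
      rw [← h5]; abel
    rw [h7]
    exact sub_mem hw' (M.smul_mem ⟨_, pow_mem hz 4⟩ hs')

end ProjVar

end Pool.Agent.Helper43
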