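import Pool.Agent.Helper43.FlDefs
import Pool.Agent.Helper43.GeoClosed

open scoped KaehlerDifferential

noncomputable section

namespace Pool.Agent.Helper43.Fl

open Pool.Agent.Helper43 Pool.Agent.Helper43.ProjVar

section Val

variable {k K : Type} [Field k] [Field K] [Algebra k K] {n : ℕ} (u : DivVal k K n)

theorem v_one : u.v 1 = 0 := by simpa using u.const 1

theorem v_inv (a : K) : u.v a⁻¹ = -u.v a := by
  by_cases h : a = 0
  · simp [h, u.zero]
  · have := u.mul a a⁻¹ h (inv_ne_zero h)
    rw [mul_inv_cancel₀ h, v_one] at this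
    omega

theorem v_div (a b : K) (ha : a ≠ 0) (hb : b ≠ 0) : u.v (a / b) = u.v a - u.v b := by
  rw [div_eq_mul_inv, u.mul _ _ ha (inv_ne_zero hb), v_inv]
  ring

theorem v_pow (a : K) (ha : a ≠ 0) (m : ℕ) : u.v (a ^ m) = m * u.v a := by
  induction m with
  | zero => simp [v_one]
  | succ m ih =>
    rw [pow_succ, u.mul _ _ (pow_ne_zero _ ha) ha, ih]
    push_cast
    ring

theorem v_neg (a : K) : u.v (-a) = u.v a := by
  by_cases h : a = 0
  · simp [h]
  · have h1 : u.v (-1) = 0 := by simpa using u.const (-1)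
    have := u.mul (-1) a (by simp) h
    rw [h1, neg_one_mul] at this
    omega

theorem v_cc (c : k) : u.v (algebraMap k K c) = 0 := u.const c

/-- Three integers such that the least value is attained at least twice. -/
def T3 (a b c : ℤ) : Prop := (a = b ∧ a ≤ c) ∨ (a = c ∧ a ≤ b) ∨ (b = c ∧ b ≤ a)

theorem T3_of_add {a b c : K} (ha : a ≠ 0) (hb : b ≠ 0) (hc : c ≠ 0) (h : a + b + c = 0) :
    T3 (u.v a) (u.v b) (u.v c) := by
  have h1 : ∀ {a b c : K}, a ≠ 0 → b ≠ 0 → c ≠ 0 → a + b + c = 0 →
      min (u.v a) (u.v b) ≤ u.v c := by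
    intro a b c ha hb hc h
    have h2 : a + b = -c := by linear_combination h
    have h3 := u.add a b ha hb (by rw [h2]; simpa using hc)
    rwa [h2, v_neg] at h3
  have h2 := h1 ha hb hc h
  have h3 := h1 hb hc ha (by linear_combination h)
  have h4 := h1 hc ha hb (by linear_combination h)
  unfold T3
  omega

/-- Linear combinations: if `s a + t b = r c` with nonzero constants `s, t, r`. -/
theorem T3_lin {a b c : K} {r s t : k} (ha : a ≠ 0) (hb : b ≠ 0) (hc : c ≠ 0) (hr : r ≠ 0)
    (hs : s ≠ 0) (ht : t ≠ 0)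
    (h : algebraMap k K s * a + algebraMap k K t * b = algebraMap k K r * c) :
    T3 (u.v a) (u.v b) (u.v c) := by
  have e : ∀ {r : k}, r ≠ 0 → algebraMap k K r ≠ 0 := fun h => by simpa using h
  have h1 := T3_of_add u (a := algebraMap k K s * a) (b := algebraMap k K t * b)
    (c := -(algebraMap k K r * c)) (mul_ne_zero (e hs) ha) (mul_ne_zero (e ht) hb)
    (neg_ne_zero.mpr (mul_ne_zero (e hr) hc)) (by rw [h]; ring)
  rwa [v_neg, u.mul _ _ (e hs) ha, u.mul _ _ (e ht) hb, u.mul _ _ (e hr) hc, u.const, u.const,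
    u.const, zero_add, zero_add, zero_add] at h1

/-- The elements of nonnegative value. -/
theorem val_add {a b : K} (ha : 0 ≤ u.v a) (hb : 0 ≤ u.v b) : 0 ≤ u.v (a + b) := by
  by_cases h1 : a = 0
  · simpa [h1] using hb
  by_cases h2 : b = 0
  · simpa [h2] using ha
  by_cases h3 : a + b = 0
  · rw [h3, u.zero]
  have := u.add a b h1 h2 h3
  omega

theorem val_mul {a b : K} (ha : 0 ≤ u.v a) (hb : 0 ≤ u.v b) : 0 ≤ u.v (a * b) := by
  by_cases h1 : a = 0
  · simp [h1, u.zero]
  by_cases h2 : b = 0
  · simp [h2, u.zero]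
  rw [u.mul _ _ h1 h2]
  omega

end Val

section Pl

variable {k K : Type} [Field k] [Field K] [Algebra k K]

/-- A property of functions stable under the ring operations and inverses of functions with
nonzero value. -/
structure Cl (H : K → k → Prop) (p : K → Prop) : Prop where
  const : ∀ c, p (algebraMap k K c)
  add : ∀ {z z'}, p z → p z' → p (z + z')
  mul : ∀ {z z'}, p z → p z' → p (z * z')
  inv : ∀ {z c}, H z c → c ≠ 0 → p z → p z⁻¹

namespace Cl

variable {H : K → k → Prop} {p : K → Prop} (hp : Cl H p)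
include hp

theorem one : p 1 := by simpa using hp.const 1

theorem zero : p 0 := by simpa using hp.const 0

theorem neg {z : K} (hz : p z) : p (-z) := by
  have := hp.mul (hp.const (-1)) hz
  simpa using this

theorem sub {z z' : K} (hz : p z) (hz' : p z') : p (z - z') := by
  rw [sub_eq_add_neg]
  exact hp.add hz (hp.neg hz')

theorem pow {z : K} (hz : p z) (n : ℕ) : p (z ^ n) := by
  induction n with
  | zero => simpa using hp.one
  | succ n ih => rw [pow_succ]; exact hp.mul ih hz

theorem div {z z' : K} {c : k} (hz : p z) (hz' : p z') (h : H z' c) (hc : c ≠ 0) :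
    p (z / z') := by
  rw [div_eq_mul_inv]
  exact hp.mul hz (hp.inv h hc hz')

theorem prod {ι : Type*} (s : Finset ι) {f : ι → K} (h : ∀ i ∈ s, p (f i)) :
    p (∏ i ∈ s, f i) := by
  classical
  induction s using Finset.induction_on with
  | empty => simpa using hp.one
  | insert i s hi ih =>
    rw [Finset.prod_insert hi]
    exact hp.mul (h i (Finset.mem_insert_self _ _))
      (ih fun j hj => h j (Finset.mem_insert_of_mem hj))

end Cl

/-- The functions generated by the `par q` at the place. -/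
def Gn (H : K → k → Prop) {m : ℕ} (par : Fin m → K) (z : K) : Prop :=
  ∀ p : K → Prop, Cl H p → (∀ q, p (par q)) → p z

theorem Gn.cl (H : K → k → Prop) {m : ℕ} (par : Fin m → K) : Cl H (Gn H par) where
  const c := fun _ hp _ => hp.const c
  add h h' := fun p hp hq => hp.add (h p hp hq) (h' p hp hq)
  mul h h' := fun p hp hq => hp.mul (h p hp hq) (h' p hp hq)
  inv h hc hz := fun p hp hq => hp.inv h hc (hz p hp hq)

theorem Gn.par (H : K → k → Prop) {m : ℕ} (par : Fin m → K) (q : Fin m) : Gn H par (par q) :=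
  fun _ _ hq => hq q

/-- Regular functions are stable. -/
theorem Place.cl {H : K → k → Prop} (hH : Place H) : Cl H fun z => ∃ c, H z c where
  const c := ⟨c, hH.const c⟩
  add := fun ⟨_, h⟩ ⟨_, h'⟩ => ⟨_, hH.add h h'⟩
  mul := fun ⟨_, h⟩ ⟨_, h'⟩ => ⟨_, hH.mul h h'⟩
  inv h hc _ := ⟨_, hH.inv h hc⟩

theorem Gn.reg {H : K → k → Prop} (hH : Place H) {m : ℕ} {par : Fin m → K}
    (hpar : ∀ q, ∃ c, H (par q) c) {z : K} (h : Gn H par z) : ∃ c, H z c :=
  h _ (Fl.Place.cl hH) hpar

/-- The intersection of two places. -/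
theorem place_inter {H H' : K → k → Prop} (hH : Place H) (hH' : Place H') :
    Place fun z c => H z c ∧ H' z c where
  const c := ⟨hH.const c, hH'.const c⟩
  add h h' := ⟨hH.add h.1 h'.1, hH'.add h.2 h'.2⟩
  mul h h' := ⟨hH.mul h.1 h'.1, hH'.mul h.2 h'.2⟩
  inv h hc := ⟨hH.inv h.1 hc, hH'.inv h.2 hc⟩
  uniq h h' := hH.uniq h.1 h'.1

/-- Everything regular at a place of a projective variety is generated by functions which
generate the coordinate ratios. -/
theorem hasVal_gn {X : ProjVar k K} {P : X.Pt} {m : ℕ} {par : Fin m → K} {e : X.ι}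
    (he : P.p e ≠ 0) (hgen : ∀ e', Gn (HasVal P) par (X.x e' / X.x e)) {z : K} {c : k}
    (h : HasVal P z c) : Gn (HasVal P) par z := by
  have hp := Gn.cl (HasVal P) par
  exact regular_induction P hp.const (fun _ _ => hp.add) (fun _ _ => hp.mul)
    (fun _ _ => hp.inv) he hgen h

end Pl

end Pool.Agent.Helper43.Fl
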