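import Pool.Agent.Helper43.FlPV0

open scoped KaehlerDifferential

noncomputable section

namespace Pool.Agent.Helper43.Fl

open Pool.Agent.Helper43 Pool.Agent.Helper43.ProjVar MvPolynomial

variable {K : Type} [Field K] [Algebra ℂ K]

/-! ### Module PV -/

theorem pv_rep {p : Fin 3 → K} (ht : IntermediateField.adjoin ℂ (Set.range p) = ⊤) (z : K) :
    ∃ A B : MvPolynomial (Fin 3) ℂ, aeval p B ≠ 0 ∧ z * aeval p B = aeval p A := by
  have hz : z ∈ IntermediateField.adjoin ℂ (Set.range p) := by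
    rw [ht]
    trivial
  obtain ⟨r, s, hrs⟩ := (IntermediateField.mem_adjoin_range_iff ℂ p z).1 hz
  by_cases hs : aeval p s = 0
  · refine ⟨0, 1, by simp, ?_⟩
    rw [hrs, hs]
    simp
  · exact ⟨r, s, hs, by rw [hrs, div_mul_cancel₀ _ hs]⟩

theorem pv_fin {q : MvPolynomial (Fin 3) ℂ} (hq : Prime q) {f : MvPolynomial (Fin 3) ℂ}
    (hf : f ≠ 0) : FiniteMultiplicity q f :=
  FiniteMultiplicity.of_not_isUnit hq.not_isUnit hf

theorem pv_mult_mul {q : MvPolynomial (Fin 3) ℂ} (hq : Prime q) {f g : MvPolynomial (Fin 3) ℂ}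
    (hf : f ≠ 0) (hg : g ≠ 0) :
    multiplicity q (f * g) = multiplicity q f + multiplicity q g :=
  multiplicity_mul hq (pv_fin hq (mul_ne_zero hf hg))

theorem exists_pv {p : Fin 3 → K} (hi : AlgebraicIndependent ℂ p)
    (ht : IntermediateField.adjoin ℂ (Set.range p) = ⊤) {q : MvPolynomial (Fin 3) ℂ}
    (hq : Prime q) : ∃ u : PV K, IsPV p q u := by
  classical
  have hinj : Function.Injective (aeval p : MvPolynomial (Fin 3) ℂ →ₐ[ℂ] K) := hi
  have hne : ∀ f : MvPolynomial (Fin 3) ℂ, aeval p f ≠ 0 ↔ f ≠ 0 := by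
    intro f
    rw [ne_eq, ne_eq, not_iff_not]
    constructor
    · intro h
      exact hinj (by rw [h, map_zero])
    · rintro rfl
      exact map_zero _
  choose A B hB hAB using pv_rep ht
  let v : K → ℤ := fun z => if z = 0 then 0 else (multiplicity q (A z) : ℤ) - multiplicity q (B z)
  have key : ∀ (z : K) (a b : MvPolynomial (Fin 3) ℂ), z ≠ 0 → b ≠ 0 →
      z * aeval p b = aeval p a → a ≠ 0 ∧ v z = (multiplicity q a : ℤ) - multiplicity q b := by
    intro z a b hz hb hab
    have ha : a ≠ 0 := by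
      rw [← hne, ← hab]
      exact mul_ne_zero hz ((hne b).2 hb)
    have hBz : B z ≠ 0 := (hne _).1 (hB z)
    have hAz : A z ≠ 0 := by
      rw [← hne, ← hAB]
      exact mul_ne_zero hz (hB z)
    refine ⟨ha, ?_⟩
    have h1 : A z * b = a * B z := by
      apply hinj
      rw [map_mul, map_mul, ← hAB, ← hab]
      ring
    have h2 := congrArg (multiplicity q) h1
    rw [pv_mult_mul hq hAz hb, pv_mult_mul hq ha hBz] at h2
    simp only [v, if_neg hz]
    omega
  have hpoly : ∀ f : MvPolynomial (Fin 3) ℂ, f ≠ 0 → v (aeval p f) = multiplicity q f := by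
    intro f hf
    have h := (key (aeval p f) f 1 ((hne f).2 hf) one_ne_zero (by simp)).2
    have h1 : multiplicity q (1 : MvPolynomial (Fin 3) ℂ) = 0 :=
      multiplicity_eq_zero.2 fun h => hq.not_isUnit (isUnit_of_dvd_one h)
    rw [h, h1]
    simp
  refine ⟨⟨v, by simp [v], ?_, ?_, ?_⟩, ⟨?_, ?_, ?_⟩⟩
  · intro a b ha hb
    have hBa : B a ≠ 0 := (hne _).1 (hB a)
    have hBb : B b ≠ 0 := (hne _).1 (hB b)
    obtain ⟨ha0, ha1⟩ := key a (A a) (B a) ha hBa (hAB a)
    obtain ⟨hb0, hb1⟩ := key b (A b) (B b) hb hBb (hAB b)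
    have := (key (a * b) (A a * A b) (B a * B b) (mul_ne_zero ha hb) (mul_ne_zero hBa hBb) (by
      rw [map_mul, map_mul, ← hAB, ← hAB]
      ring)).2
    rw [this, pv_mult_mul hq ha0 hb0, pv_mult_mul hq hBa hBb, ha1, hb1]
    push_cast
    ring
  · intro a b ha hb hab
    have hBa : B a ≠ 0 := (hne _).1 (hB a)
    have hBb : B b ≠ 0 := (hne _).1 (hB b)
    obtain ⟨ha0, ha1⟩ := key a (A a) (B a) ha hBa (hAB a)
    obtain ⟨hb0, hb1⟩ := key b (A b) (B b) hb hBb (hAB b)
    obtain ⟨hs0, hs1⟩ := key (a + b) (A a * B b + A b * B a) (B a * B b) hab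
      (mul_ne_zero hBa hBb) (by
        rw [map_add, map_mul, map_mul, map_mul, ← hAB, ← hAB]
        ring)
    have h1 := pv_mult_mul hq ha0 hBb
    have h2 := pv_mult_mul hq hb0 hBa
    have h3 := pv_mult_mul hq hBa hBb
    have h4 : min (multiplicity q (A a * B b)) (multiplicity q (A b * B a)) ≤
        multiplicity q (A a * B b + A b * B a) := by
      apply (pv_fin hq hs0).le_multiplicity_of_pow_dvd
      apply dvd_add
      · exact pow_dvd_of_le_multiplicity (min_le_left _ _)
      · exact pow_dvd_of_le_multiplicity (min_le_right _ _)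
    rw [hs1, ha1, hb1]
    omega
  · intro c
    by_cases hc : c = 0
    · simp [hc, v]
    · have h1 : (algebraMap ℂ K c) = aeval p (C c : MvPolynomial (Fin 3) ℂ) := by simp
      have hC : (C c : MvPolynomial (Fin 3) ℂ) ≠ 0 := by
        rw [ne_eq, C_eq_zero]
        exact hc
      rw [h1, hpoly _ hC]
      have : multiplicity q (C c : MvPolynomial (Fin 3) ℂ) = 0 := by
        apply multiplicity_eq_zero.2
        intro h
        exact hq.not_isUnit (isUnit_of_dvd_unit h ((isUnit_iff_ne_zero.2 hc).map C))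
      rw [this]
      simp
  · change v (aeval p q) = 1
    rw [hpoly q hq.ne_zero, multiplicity_self]
    simp
  · intro f
    change 0 ≤ v (aeval p f)
    by_cases hf : f = 0
    · rw [hf, map_zero]
      simp [v]
    · rw [hpoly f hf]
      positivity
  · intro f hf h
    change 0 < v (aeval p f) at h
    rw [hpoly f hf] at h
    by_contra hd
    rw [multiplicity_eq_zero.2 hd] at h
    simp at h

theorem isPV_poly {p : Fin 3 → K} (hi : AlgebraicIndependent ℂ p)
    {q : MvPolynomial (Fin 3) ℂ} (hq : Prime q) {u : PV K} (hu : IsPV p q u)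
    (f : MvPolynomial (Fin 3) ℂ) (hf : f ≠ 0) : u.v (aeval p f) = multiplicity q f := by
  have hinj : Function.Injective (aeval p : MvPolynomial (Fin 3) ℂ →ₐ[ℂ] K) := hi
  have hne : ∀ f : MvPolynomial (Fin 3) ℂ, f ≠ 0 → aeval p f ≠ 0 := by
    intro f hf h
    exact hf (hinj (by rw [h, map_zero]))
  obtain ⟨g, hg, hqg⟩ := (pv_fin hq hf).exists_eq_pow_mul_and_not_dvd
  have hg0 : g ≠ 0 := by
    rintro rfl
    exact hqg (dvd_zero _)
  have h1 : u.v (aeval p g) = 0 := by
    by_contra h
    have : 0 < u.v (aeval p g) := lt_of_le_of_ne (hu.nonneg g) (Ne.symm h)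
    exact hqg (hu.dvd g hg0 this)
  have h2 : ∀ m : ℕ, u.v (aeval p (q ^ m)) = m := by
    intro m
    induction m with
    | zero =>
      rw [pow_zero, map_one, Nat.cast_zero]
      have := u.const 1
      rwa [map_one] at this
    | succ m ih =>
      rw [pow_succ, map_mul, u.mul _ _ (hne _ (pow_ne_zero _ hq.ne_zero)) (hne _ hq.ne_zero), ih,
        hu.one]
      push_cast
      ring
  conv_lhs => rw [hg]
  rw [map_mul, u.mul _ _ (hne _ (pow_ne_zero _ hq.ne_zero)) (hne _ hg0), h1, h2, add_zero]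

theorem pv_unique {p : Fin 3 → K} (hi : AlgebraicIndependent ℂ p)
    (ht : IntermediateField.adjoin ℂ (Set.range p) = ⊤) {q q' : MvPolynomial (Fin 3) ℂ}
    (hq : Prime q) (hqq : Associated q q') {u u' : PV K} (hu : IsPV p q u) (hu' : IsPV p q' u')
    (z : K) : u.v z = u'.v z := by
  have hinj : Function.Injective (aeval p : MvPolynomial (Fin 3) ℂ →ₐ[ℂ] K) := hi
  have hq' : Prime q' := (hqq.prime_iff).1 hq
  by_cases hz : z = 0
  · rw [hz, u.zero, u'.zero]
  · obtain ⟨A, B, hB, hAB⟩ := pv_rep ht z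
    have hB0 : B ≠ 0 := by
      rintro rfl
      exact hB (map_zero _)
    have hA : aeval p A ≠ 0 := by
      rw [← hAB]
      exact mul_ne_zero hz hB
    have hA0 : A ≠ 0 := by
      rintro rfl
      exact hA (map_zero _)
    have h1 := u.mul z (aeval p B) hz hB
    have h2 := u'.mul z (aeval p B) hz hB
    rw [hAB, isPV_poly hi hq hu A hA0, isPV_poly hi hq hu B hB0] at h1
    rw [hAB, isPV_poly hi hq' hu' A hA0, isPV_poly hi hq' hu' B hB0] at h2
    have eA : multiplicity q A = multiplicity q' A := multiplicity_eq_of_associated_left hqq.symm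
    have eB : multiplicity q B = multiplicity q' B := multiplicity_eq_of_associated_left hqq.symm
    rw [eA, eB] at h1
    omega

end Pool.Agent.Helper43.Fl
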