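import Pool.Agent.Helper43.FlPV0

open scoped KaehlerDifferential

noncomputable section

namespace Pool.Agent.Helper43.Fl

open Pool.Agent.Helper43 Pool.Agent.Helper43.ProjVar MvPolynomial

variable {K : Type} [Field K] [Algebra ℂ K]

namespace Cfg

variable (C : Cfg K)

/-! ### Module ParInd -/

theorem D_y (i : Fin 5) : C.y = cc K (tt i) +
    (C.D i - cc K (1 - C.κ i) * C.τ i) / cc K (C.κ i) := by
  have h1 := C.D_eq i
  have h2 : cc K (C.κ i) ≠ 0 := cc_ne (C.κ0 i)
  rw [h1]
  simp only [z]
  field_simp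
  ring

theorem par_mem (T : Ty) :
    C.x ∈ IntermediateField.adjoin ℂ (Set.range (C.par T)) ∧
    C.y ∈ IntermediateField.adjoin ℂ (Set.range (C.par T)) ∧
    C.w ∈ IntermediateField.adjoin ℂ (Set.range (C.par T)) := by
  have hp : ∀ k, C.par T k ∈ IntermediateField.adjoin ℂ (Set.range (C.par T)) :=
    fun k => IntermediateField.subset_adjoin _ _ ⟨k, rfl⟩
  have hc : ∀ c, cc K c ∈ IntermediateField.adjoin ℂ (Set.range (C.par T)) :=
    fun c => IntermediateField.algebraMap_mem _ c
  have h0 := hp 0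
  have h1 := hp 1
  have h2 := hp 2
  have hx := C.x_ne
  have hy := C.y_ne
  have hw := C.w_ne
  -- from `τ`, `D`, `w` to `x`, `y`, `w`
  have key : ∀ i, C.τ i ∈ IntermediateField.adjoin ℂ (Set.range (C.par T)) →
      C.D i ∈ IntermediateField.adjoin ℂ (Set.range (C.par T)) →
      C.x ∈ IntermediateField.adjoin ℂ (Set.range (C.par T)) ∧
      C.y ∈ IntermediateField.adjoin ℂ (Set.range (C.par T)) := by
    intro i hτ hD
    constructor
    · have e : C.x = C.τ i + cc K (tt i) := by simp only [τ]; ring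
      rw [e]
      exact add_mem hτ (hc _)
    · rw [C.D_y i]
      exact add_mem (hc _) (div_mem (sub_mem hD (mul_mem (hc _) hτ)) (hc _))
  generalize hE : IntermediateField.adjoin ℂ (Set.range (C.par T)) = E at *
  clear hp hE
  cases T with
  | a => exact ⟨h0, h1, h2⟩
  | b =>
    replace h0 : C.x ∈ E := h0
    replace h1 : C.y⁻¹ ∈ E := h1
    replace h2 : C.w / C.y ∈ E := h2
    have hy' : C.y ∈ E := by
      have := inv_mem h1
      rwa [inv_inv] at this
    refine ⟨h0, hy', ?_⟩
    have := mul_mem h2 hy'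
    rwa [div_mul_cancel₀ _ hy] at this
  | c =>
    replace h0 : C.x ∈ E := h0
    replace h1 : C.w⁻¹ ∈ E := h1
    replace h2 : C.y / C.w ∈ E := h2
    have hw' : C.w ∈ E := by
      have := inv_mem h1
      rwa [inv_inv] at this
    refine ⟨h0, ?_, hw'⟩
    have := mul_mem h2 hw'
    rwa [div_mul_cancel₀ _ hw] at this
  | a' =>
    replace h0 : C.x⁻¹ ∈ E := h0
    replace h1 : C.y ∈ E := h1
    replace h2 : C.w / C.x ∈ E := h2
    have hx' : C.x ∈ E := by
      have := inv_mem h0
      rwa [inv_inv] at this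
    refine ⟨hx', h1, ?_⟩
    have := mul_mem h2 hx'
    rwa [div_mul_cancel₀ _ hx] at this
  | b' =>
    replace h0 : C.x⁻¹ ∈ E := h0
    replace h1 : C.y⁻¹ ∈ E := h1
    replace h2 : C.w / (C.x * C.y) ∈ E := h2
    have hx' : C.x ∈ E := by
      have := inv_mem h0
      rwa [inv_inv] at this
    have hy' : C.y ∈ E := by
      have := inv_mem h1
      rwa [inv_inv] at this
    refine ⟨hx', hy', ?_⟩
    have := mul_mem h2 (mul_mem hx' hy')
    rwa [div_mul_cancel₀ _ (mul_ne_zero hx hy)] at this
  | c' =>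
    replace h0 : C.x⁻¹ ∈ E := h0
    replace h1 : C.x / C.w ∈ E := h1
    replace h2 : C.x * C.y / C.w ∈ E := h2
    have hx' : C.x ∈ E := by
      have := inv_mem h0
      rwa [inv_inv] at this
    refine ⟨hx', ?_, ?_⟩
    · have := div_mem h2 h1
      have e : C.x * C.y / C.w / (C.x / C.w) = C.y := by field_simp
      rwa [e] at this
    · have := div_mem hx' h1
      have e : C.x / (C.x / C.w) = C.w := by field_simp
      rwa [e] at this
  | q i r =>
    have hτ0 := C.τ_ne i
    have hD0 := C.D_ne i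
    fin_cases r
    · replace h0 : C.τ i ∈ E := h0
      replace h1 : C.D i / C.τ i ^ 2 ∈ E := h1
      replace h2 : C.w / C.τ i ∈ E := h2
      have hD : C.D i ∈ E := by
        have := mul_mem h1 (pow_mem h0 2)
        have e : C.D i / C.τ i ^ 2 * C.τ i ^ 2 = C.D i := by field_simp
        rwa [e] at this
      refine ⟨(key i h0 hD).1, (key i h0 hD).2, ?_⟩
      have := mul_mem h2 h0
      rwa [div_mul_cancel₀ _ hτ0] at this
    · replace h0 : C.w ∈ E := h0
      replace h1 : C.D i / C.w ^ 2 ∈ E := h1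
      replace h2 : C.τ i / C.w ∈ E := h2
      have hD : C.D i ∈ E := by
        have := mul_mem h1 (pow_mem h0 2)
        have e : C.D i / C.w ^ 2 * C.w ^ 2 = C.D i := by field_simp
        rwa [e] at this
      have hτ : C.τ i ∈ E := by
        have := mul_mem h2 h0
        rwa [div_mul_cancel₀ _ hw] at this
      exact ⟨(key i hτ hD).1, (key i hτ hD).2, h0⟩
    · replace h0 : C.τ i ^ 2 / C.D i ∈ E := h0
      replace h1 : C.D i / C.τ i ∈ E := h1
      replace h2 : C.w / C.τ i ∈ E := h2
      have hτ : C.τ i ∈ E := by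
        have := mul_mem h0 h1
        have e : C.τ i ^ 2 / C.D i * (C.D i / C.τ i) = C.τ i := by field_simp
        rwa [e] at this
      have hD : C.D i ∈ E := by
        have := mul_mem h1 hτ
        rwa [div_mul_cancel₀ _ hτ0] at this
      refine ⟨(key i hτ hD).1, (key i hτ hD).2, ?_⟩
      have := mul_mem h2 hτ
      rwa [div_mul_cancel₀ _ hτ0] at this
    · replace h0 : C.w ^ 2 / C.D i ∈ E := h0
      replace h1 : C.D i / C.w ∈ E := h1
      replace h2 : C.τ i / C.w ∈ E := h2
      have hw' : C.w ∈ E := by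
        have := mul_mem h0 h1
        have e : C.w ^ 2 / C.D i * (C.D i / C.w) = C.w := by field_simp
        rwa [e] at this
      have hD : C.D i ∈ E := by
        have := mul_mem h1 hw'
        rwa [div_mul_cancel₀ _ hw] at this
      have hτ : C.τ i ∈ E := by
        have := mul_mem h2 hw'
        rwa [div_mul_cancel₀ _ hw] at this
      exact ⟨(key i hτ hD).1, (key i hτ hD).2, hw'⟩
    · replace h0 : C.D i ∈ E := h0
      replace h1 : C.τ i / C.D i ∈ E := h1
      replace h2 : C.w / C.D i ∈ E := h2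
      have hτ : C.τ i ∈ E := by
        have := mul_mem h1 h0
        rwa [div_mul_cancel₀ _ hD0] at this
      refine ⟨(key i hτ h0).1, (key i hτ h0).2, ?_⟩
      have := mul_mem h2 h0
      rwa [div_mul_cancel₀ _ hD0] at this

theorem par_ind (T : Ty) : AlgebraicIndependent ℂ (C.par T) :=
  C.ind_of_mem _ (C.par_mem T).1 (C.par_mem T).2.1 (C.par_mem T).2.2

theorem par_top (T : Ty) : IntermediateField.adjoin ℂ (Set.range (C.par T)) = ⊤ :=
  C.top_of_mem _ (C.par_mem T).1 (C.par_mem T).2.1 (C.par_mem T).2.2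

theorem b_ind : AlgebraicIndependent ℂ C.b := C.ind

theorem b_top : IntermediateField.adjoin ℂ (Set.range C.b) = ⊤ := by
  change IntermediateField.adjoin ℂ (Set.range ![C.x, C.y, C.w]) = ⊤
  rw [C.range_b]
  exact C.top

end Cfg

end Pool.Agent.Helper43.Fl
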