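import Pool.Agent.Helper43.FlPV0
import Pool.Agent.Helper43.FlParInd
import Pool.Agent.Helper43.FlPV

open scoped KaehlerDifferential

noncomputable section

namespace Pool.Agent.Helper43.Fl

open Pool.Agent.Helper43 Pool.Agent.Helper43.ProjVar MvPolynomial

variable {K : Type} [Field K] [Algebra ℂ K]

/-! ### Module BdVal -/

/-- The field generated by all coordinates but one. -/
def bdL (p : Fin 3 → K) (j : Fin 3) : IntermediateField ℂ K :=
  IntermediateField.adjoin ℂ (Set.range fun k : {k : Fin 3 // k ≠ j} => p k)

theorem bdL_mem (p : Fin 3 → K) (j : Fin 3) {k : Fin 3} (h : k ≠ j) : p k ∈ bdL p j :=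
  IntermediateField.subset_adjoin _ _ ⟨⟨k, h⟩, rfl⟩

/-- The substitution `X j = 0`. -/
def bdS (j : Fin 3) : MvPolynomial (Fin 3) ℂ →ₐ[ℂ] MvPolynomial (Fin 3) ℂ :=
  MvPolynomial.aeval fun k => if k = j then 0 else X k

theorem bdS_dvd (j : Fin 3) (f : MvPolynomial (Fin 3) ℂ) : X j ∣ f - bdS j f := by
  induction f using MvPolynomial.induction_on with
  | C a => simp [bdS]
  | add f g hf hg =>
    rw [map_add]
    have : f + g - (bdS j f + bdS j g) = (f - bdS j f) + (g - bdS j g) := by ring
    rw [this]
    exact dvd_add hf hg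
  | mul_X f k hf =>
    rw [map_mul]
    have : f * X k - bdS j f * bdS j (X k) = (f - bdS j f) * X k + bdS j f * (X k - bdS j (X k)) := by
      ring
    rw [this]
    refine dvd_add (hf.mul_right _) (Dvd.dvd.mul_left ?_ _)
    by_cases hk : k = j
    · subst hk
      simp [bdS]
    · simp [bdS, hk]

theorem bdS_rename (j : Fin 3) (r : MvPolynomial {k : Fin 3 // k ≠ j} ℂ) :
    bdS j (rename Subtype.val r) = rename Subtype.val r := by
  unfold bdS
  rw [aeval_rename]
  have : ((fun k => if k = j then (0 : MvPolynomial (Fin 3) ℂ) else X k) ∘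
      (Subtype.val : {k : Fin 3 // k ≠ j} → Fin 3)) = fun k => X k.1 := by
    funext k
    simp [k.2]
  rw [this]
  have h2 : (aeval fun k : {k : Fin 3 // k ≠ j} => (X k.1 : MvPolynomial (Fin 3) ℂ)) =
      rename Subtype.val := by
    apply MvPolynomial.algHom_ext
    intro k
    rw [aeval_X, rename_X]
  rw [h2]

theorem bdS_X (j : Fin 3) : bdS j (X j) = 0 := by simp [bdS]

namespace PV

variable (u : PV K)

theorem neg (a : K) : u.v (-a) = u.v a := by
  by_cases h : a = 0
  · rw [h, neg_zero]
  · have h1 : -a = algebraMap ℂ K (-1) * a := by simp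
    rw [h1, u.mul _ _ (by simp) h, u.const, zero_add]

theorem v_one : u.v 1 = 0 := by
  have := u.const 1
  rwa [map_one] at this

theorem inv (a : K) (h : a ≠ 0) : u.v a⁻¹ = -u.v a := by
  have h1 := u.mul a a⁻¹ h (inv_ne_zero h)
  rw [mul_inv_cancel₀ h, u.v_one] at h1
  omega

theorem div (a b : K) (ha : a ≠ 0) (hb : b ≠ 0) : u.v (a / b) = u.v a - u.v b := by
  rw [div_eq_mul_inv, u.mul _ _ ha (inv_ne_zero hb), u.inv b hb]
  ring

theorem nonneg_add {a b : K} (ha : 0 ≤ u.v a) (hb : 0 ≤ u.v b) : 0 ≤ u.v (a + b) := by
  by_cases h1 : a = 0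
  · rw [h1, zero_add]; exact hb
  · by_cases h2 : b = 0
    · rw [h2, add_zero]; exact ha
    · by_cases h3 : a + b = 0
      · rw [h3, u.zero]
      · exact le_trans (le_min ha hb) (u.add a b h1 h2 h3)

theorem nonneg_mul {a b : K} (ha : 0 ≤ u.v a) (hb : 0 ≤ u.v b) : 0 ≤ u.v (a * b) := by
  by_cases h1 : a = 0
  · rw [h1, zero_mul, u.zero]
  · by_cases h2 : b = 0
    · rw [h2, mul_zero, u.zero]
    · rw [u.mul a b h1 h2]
      omega

end PV

/-- A nonzero element of the field of the other coordinates has value zero. -/
theorem bd_zero {p : Fin 3 → K} {j : Fin 3} {u : PV K}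
    (hu : IsPV p (X j) u) {z : K} (hz : z ∈ bdL p j) (h0 : z ≠ 0) : u.v z = 0 := by
  unfold bdL at hz
  rw [IntermediateField.mem_adjoin_range_iff] at hz
  obtain ⟨r, s, rfl⟩ := hz
  have key : ∀ r : MvPolynomial {k : Fin 3 // k ≠ j} ℂ,
      aeval (fun k : {k : Fin 3 // k ≠ j} => p k) r ≠ 0 →
      u.v (aeval (fun k : {k : Fin 3 // k ≠ j} => p k) r) = 0 := by
    intro r hr
    have e1 : aeval (fun k : {k : Fin 3 // k ≠ j} => p k) r = aeval p (rename Subtype.val r) := by
      rw [aeval_rename]
      rfl
    rw [e1] at hr ⊢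
    have hr0 : rename Subtype.val r ≠ (0 : MvPolynomial (Fin 3) ℂ) := by
      intro h
      rw [h, map_zero] at hr
      exact hr rfl
    rcases (hu.nonneg (rename Subtype.val r)).eq_or_lt with h | h
    · exact h.symm
    · exfalso
      obtain ⟨g, hg⟩ := hu.dvd _ hr0 h
      have h2 := congrArg (bdS j) hg
      rw [bdS_rename, map_mul, bdS_X, zero_mul] at h2
      exact hr0 h2
  have hr : aeval (fun k : {k : Fin 3 // k ≠ j} => p k) r ≠ 0 := by
    intro h
    rw [h, zero_div] at h0
    exact h0 rfl
  have hs : aeval (fun k : {k : Fin 3 // k ≠ j} => p k) s ≠ 0 := by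
    intro h
    rw [h, div_zero] at h0
    exact h0 rfl
  rw [u.div _ _ hr hs, key r hr, key s hs, sub_zero]

theorem bd_mem {p : Fin 3 → K} {j : Fin 3} {L : IntermediateField ℂ K}
    (h : ∀ k, k ≠ j → p k ∈ L) (f : MvPolynomial (Fin 3) ℂ) :
    aeval (fun k => if k = j then (0 : K) else p k) f ∈ L := by
  induction f using MvPolynomial.induction_on with
  | C a =>
    rw [← MvPolynomial.algebraMap_eq, AlgHom.commutes]
    exact L.algebraMap_mem a
  | add f g hf hg =>
    rw [map_add]
    exact add_mem hf hg
  | mul_X f k hf =>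
    rw [map_mul, aeval_X]
    refine mul_mem hf ?_
    by_cases hk : k = j
    · rw [if_pos hk]; exact zero_mem L
    · rw [if_neg hk]; exact h k hk

/-- The same divisor in another chart. -/
theorem bd_transfer {p p' : Fin 3 → K} (hi : AlgebraicIndependent ℂ p)
    (hi' : AlgebraicIndependent ℂ p') {j j' : Fin 3} {u : PV K} (hu : IsPV p' (X j') u)
    {z : K} (hz : z ∈ bdL p' j') (hj : p j = z * p' j')
    (hmem : ∀ k, k ≠ j → p k ∈ bdL p' j') : IsPV p (X j) u := by
  have hne : ∀ k, p k ≠ 0 := fun k => hi.ne_zero k
  have hne' : ∀ k, p' k ≠ 0 := fun k => hi'.ne_zero k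
  have hz0 : z ≠ 0 := by
    intro h
    rw [h, zero_mul] at hj
    exact hne j hj
  have h1 : u.v (p' j') = 1 := by
    have := hu.one
    rwa [aeval_X] at this
  have hpj : u.v (p j) = 1 := by
    rw [hj, u.mul _ _ hz0 (hne' j'), bd_zero hu hz hz0, h1, zero_add]
  have hpk : ∀ k, k ≠ j → u.v (p k) = 0 := fun k hk => bd_zero hu (hmem k hk) (hne k)
  have hnn : ∀ f : MvPolynomial (Fin 3) ℂ, 0 ≤ u.v (aeval p f) := by
    intro f
    induction f using MvPolynomial.induction_on with
    | C a => rw [← MvPolynomial.algebraMap_eq, AlgHom.commutes, u.const]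
    | add f g hf hg => rw [map_add]; exact u.nonneg_add hf hg
    | mul_X f k hf =>
      rw [map_mul, aeval_X]
      refine u.nonneg_mul hf ?_
      by_cases hk : k = j
      · rw [hk, hpj]; exact zero_le_one
      · rw [hpk k hk]
  refine ⟨by rw [aeval_X]; exact hpj, hnn, ?_⟩
  intro f hf0 hf
  by_contra hnd
  obtain ⟨g, hg⟩ := bdS_dvd j f
  have hs0 : bdS j f ≠ 0 := by
    intro h
    rw [h, sub_zero] at hg
    exact hnd ⟨g, hg⟩
  have hs0' : aeval p (bdS j f) ≠ 0 := fun h => hs0 ((algebraicIndependent_iff.mp hi) _ h)
  -- the remainder lies in the field of the other coordinates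
  have hsm : aeval p (bdS j f) ∈ bdL p' j' := by
    have : aeval p (bdS j f) = aeval (fun k => if k = j then (0 : K) else p k) f := by
      unfold bdS
      rw [← AlgHom.comp_apply, MvPolynomial.comp_aeval]
      congr 1
      congr 1
      funext k
      by_cases hk : k = j
      · simp [hk]
      · simp [hk]
    rw [this]
    exact bd_mem hmem f
  have hv0 : u.v (aeval p (bdS j f)) = 0 := bd_zero hu hsm hs0'
  by_cases hg0 : g = 0
  · rw [hg0, mul_zero, sub_eq_zero] at hg
    rw [← hg] at hv0
    omega
  · have hf0' : aeval p f ≠ 0 := fun h => hf0 ((algebraicIndependent_iff.mp hi) _ h)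
    have hg0' : aeval p g ≠ 0 := fun h => hg0 ((algebraicIndependent_iff.mp hi) _ h)
    have e1 : aeval p (bdS j f) = aeval p f + -(p j * aeval p g) := by
      have : bdS j f = f - X j * g := by rw [← hg]; ring
      rw [this, map_sub, map_mul, aeval_X]
      ring
    have h2 := u.add (aeval p f) (-(p j * aeval p g)) hf0'
      (neg_ne_zero.mpr (mul_ne_zero (hne j) hg0')) (by rw [← e1]; exact hs0')
    rw [← e1, hv0, u.neg, u.mul _ _ (hne j) hg0', hpj] at h2
    have h3 := hnn g
    rcases min_le_iff.mp h2 with h | h <;> omega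

namespace Cfg

variable (C : Cfg K)

theorem bd_tr {T₀ T : Ty} {j₀ j : Fin 3} {u : PV K} (hu : IsPV (C.par T₀) (X j₀) u) {z : K}
    (hz : z ∈ bdL (C.par T₀) j₀) (hj : C.par T j = z * C.par T₀ j₀)
    (hmem : ∀ k, k ≠ j → C.par T k ∈ bdL (C.par T₀) j₀) : IsPV (C.par T) (X j) u :=
  bd_transfer (C.par_ind T) (C.par_ind T₀) hu hz hj hmem

theorem bd_val (d : Dv) : ∃ u : PV K, ∀ T j, bd T j = true → dv T j = d →
    IsPV (C.par T) (X j) u := by
  have hx := C.x_ne
  have hy := C.y_ne
  have hw := C.w_ne
  cases d with
  | D1 =>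
    obtain ⟨u, hu⟩ := exists_pv (C.par_ind .a') (C.par_top .a') (q := X 0) (X_prime)
    have m1 : C.y ∈ bdL (C.par .a') 0 := bdL_mem (C.par .a') 0 (k := 1) (by decide)
    have m2 : C.w / C.x ∈ bdL (C.par .a') 0 := bdL_mem (C.par .a') 0 (k := 2) (by decide)
    refine ⟨u, ?_⟩
    intro T j hb hd
    cases T with
    | a => simp [bd] at hb
    | b => simp [dv] at hd
    | c => simp [dv] at hd
    | a' =>
      have hj : j = 0 := by simpa [bd] using hb
      subst hj
      exact hu
    | b' =>
      have hj : j = 0 := by
        by_contra h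
        simp [dv, h] at hd
      subst hj
      refine C.bd_tr hu (z := 1) (one_mem _) (one_mul _).symm ?_
      intro k hk
      fin_cases k
      · exact absurd rfl hk
      · exact inv_mem m1
      · have e : C.w / (C.x * C.y) = C.w / C.x * C.y⁻¹ := by field_simp
        change C.w / (C.x * C.y) ∈ _
        rw [e]
        exact mul_mem m2 (inv_mem m1)
    | c' =>
      have hj : j = 0 := by
        by_contra h
        simp [dv, h] at hd
      subst hj
      refine C.bd_tr hu (z := 1) (one_mem _) (one_mul _).symm ?_
      intro k hk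
      fin_cases k
      · exact absurd rfl hk
      · have e : C.x / C.w = (C.w / C.x)⁻¹ := by field_simp
        change C.x / C.w ∈ _
        rw [e]
        exact inv_mem m2
      · have e : C.x * C.y / C.w = C.y * (C.w / C.x)⁻¹ := by field_simp
        change C.x * C.y / C.w ∈ _
        rw [e]
        exact mul_mem m1 (inv_mem m2)
    | q i r => fin_cases r <;> simp [dv] at hd <;> split_ifs at hd
  | D2 =>
    obtain ⟨u, hu⟩ := exists_pv (C.par_ind .b) (C.par_top .b) (q := X 1) (X_prime)
    have m0 : C.x ∈ bdL (C.par .b) 1 := bdL_mem (C.par .b) 1 (k := 0) (by decide)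
    have m2 : C.w / C.y ∈ bdL (C.par .b) 1 := bdL_mem (C.par .b) 1 (k := 2) (by decide)
    have m2' : C.y / C.w ∈ bdL (C.par .b) 1 := by
      have e : C.y / C.w = (C.w / C.y)⁻¹ := by field_simp
      rw [e]
      exact inv_mem m2
    refine ⟨u, ?_⟩
    intro T j hb hd
    cases T with
    | a => simp [bd] at hb
    | b =>
      have hj : j = 1 := by simpa [bd] using hb
      subst hj
      exact hu
    | c =>
      have hj : j = 1 := by simpa [bd] using hb
      subst hj
      refine C.bd_tr hu (z := C.y / C.w) m2' ?_ ?_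
      · change C.w⁻¹ = C.y / C.w * C.y⁻¹
        field_simp
      · intro k hk
        fin_cases k
        · exact m0
        · exact absurd rfl hk
        · exact m2'
    | a' => simp [dv] at hd
    | b' =>
      have hj : j = 1 := by
        by_cases h : j = 0
        · simp [dv, h] at hd
        · have h2 : j ≠ 2 := by simpa [bd] using hb
          omega
      subst hj
      refine C.bd_tr hu (z := 1) (one_mem _) (one_mul _).symm ?_
      intro k hk
      fin_cases k
      · exact inv_mem m0
      · exact absurd rfl hk
      · have e : C.w / (C.x * C.y) = C.w / C.y * C.x⁻¹ := by field_simp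
        change C.w / (C.x * C.y) ∈ _
        rw [e]
        exact mul_mem m2 (inv_mem m0)
    | c' =>
      have hj : j = 1 := by
        by_cases h : j = 0
        · simp [dv, h] at hd
        · have h2 : j ≠ 2 := by simpa [bd] using hb
          omega
      subst hj
      refine C.bd_tr hu (z := C.x * (C.y / C.w)) (mul_mem m0 m2') ?_ ?_
      · change C.x / C.w = C.x * (C.y / C.w) * C.y⁻¹
        field_simp
      · intro k hk
        fin_cases k
        · exact inv_mem m0
        · exact absurd rfl hk
        · have e : C.x * C.y / C.w = C.x * (C.y / C.w) := by field_simp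
          change C.x * C.y / C.w ∈ _
          rw [e]
          exact mul_mem m0 m2'
    | q i r => fin_cases r <;> simp [dv] at hd <;> split_ifs at hd
  | E1 i =>
    obtain ⟨u, hu⟩ := exists_pv (C.par_ind (.q i 2)) (C.par_top (.q i 2)) (q := X 0) (X_prime)
    have hτ0 := C.τ_ne i
    have hD0 := C.D_ne i
    have m1 : C.D i / C.τ i ∈ bdL (C.par (.q i 2)) 0 :=
      bdL_mem (C.par (.q i 2)) 0 (k := 1) (by decide)
    have m2 : C.w / C.τ i ∈ bdL (C.par (.q i 2)) 0 :=
      bdL_mem (C.par (.q i 2)) 0 (k := 2) (by decide)
    refine ⟨u, ?_⟩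
    intro T j hb hd
    cases T with
    | a => simp [bd] at hb
    | b => simp [dv] at hd
    | c => simp [dv] at hd
    | a' => simp [dv] at hd
    | b' => simp [dv] at hd; split_ifs at hd
    | c' => simp [dv] at hd; split_ifs at hd
    | q i' r =>
      fin_cases r
      · simp [dv] at hd
      · simp [dv] at hd
      · have hj : j = 0 := by
          by_contra h
          simp [dv, h] at hd
        subst hj
        have hi : i' = i := by simpa [dv] using hd
        subst hi
        exact hu
      · have hj : j = 0 := by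
          by_contra h
          simp [dv, h] at hd
        subst hj
        have hi : i' = i := by simpa [dv] using hd
        subst hi
        refine C.bd_tr hu (T := .q i' 3) (z := (C.w / C.τ i') ^ 2) (pow_mem m2 2) ?_ ?_
        · change C.w ^ 2 / C.D i' = (C.w / C.τ i') ^ 2 * (C.τ i' ^ 2 / C.D i')
          field_simp
        · intro k hk
          fin_cases k
          · exact absurd rfl hk
          · have e : C.D i' / C.w = C.D i' / C.τ i' * (C.w / C.τ i')⁻¹ := by field_simp
            change C.D i' / C.w ∈ _
            rw [e]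
            exact mul_mem m1 (inv_mem m2)
          · have e : C.τ i' / C.w = (C.w / C.τ i')⁻¹ := by field_simp
            change C.τ i' / C.w ∈ _
            rw [e]
            exact inv_mem m2
      · have hj : j = 0 := by simpa [bd] using hb
        subst hj
        have hi : i' = i := by simpa [dv] using hd
        subst hi
        refine C.bd_tr hu (T := .q i' 4) (z := (C.D i' / C.τ i') ^ 2) (pow_mem m1 2) ?_ ?_
        · change C.D i' = (C.D i' / C.τ i') ^ 2 * (C.τ i' ^ 2 / C.D i')
          field_simp
        · intro k hk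
          fin_cases k
          · exact absurd rfl hk
          · have e : C.τ i' / C.D i' = (C.D i' / C.τ i')⁻¹ := by field_simp
            change C.τ i' / C.D i' ∈ _
            rw [e]
            exact inv_mem m1
          · have e : C.w / C.D i' = C.w / C.τ i' * (C.D i' / C.τ i')⁻¹ := by field_simp
            change C.w / C.D i' ∈ _
            rw [e]
            exact mul_mem m2 (inv_mem m1)
  | E2 i =>
    obtain ⟨u, hu⟩ := exists_pv (C.par_ind (.q i 0)) (C.par_top (.q i 0)) (q := X 0) (X_prime)
    have hτ0 := C.τ_ne i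
    have hD0 := C.D_ne i
    have m1 : C.D i / C.τ i ^ 2 ∈ bdL (C.par (.q i 0)) 0 :=
      bdL_mem (C.par (.q i 0)) 0 (k := 1) (by decide)
    have m2 : C.w / C.τ i ∈ bdL (C.par (.q i 0)) 0 :=
      bdL_mem (C.par (.q i 0)) 0 (k := 2) (by decide)
    refine ⟨u, ?_⟩
    intro T j hb hd
    cases T with
    | a => simp [bd] at hb
    | b => simp [dv] at hd
    | c => simp [dv] at hd
    | a' => simp [dv] at hd
    | b' => simp [dv] at hd; split_ifs at hd
    | c' => simp [dv] at hd; split_ifs at hd
    | q i' r =>
      fin_cases r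
      · have hj : j = 0 := by simpa [bd] using hb
        subst hj
        have hi : i' = i := by simpa [dv] using hd
        subst hi
        exact hu
      · have hj : j = 0 := by simpa [bd] using hb
        subst hj
        have hi : i' = i := by simpa [dv] using hd
        subst hi
        refine C.bd_tr hu (T := .q i' 1) (z := C.w / C.τ i') m2 ?_ ?_
        · change C.w = C.w / C.τ i' * C.τ i'
          field_simp
        · intro k hk
          fin_cases k
          · exact absurd rfl hk
          · have e : C.D i' / C.w ^ 2 = C.D i' / C.τ i' ^ 2 * ((C.w / C.τ i') ^ 2)⁻¹ := by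
              field_simp
            change C.D i' / C.w ^ 2 ∈ _
            rw [e]
            exact mul_mem m1 (inv_mem (pow_mem m2 2))
          · have e : C.τ i' / C.w = (C.w / C.τ i')⁻¹ := by field_simp
            change C.τ i' / C.w ∈ _
            rw [e]
            exact inv_mem m2
      · have hj : j = 1 := by
          by_cases h : j = 0
          · simp [dv, h] at hd
          · have h2 : j ≠ 2 := by simpa [bd] using hb
            omega
        subst hj
        have hi : i' = i := by simpa [dv] using hd
        subst hi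
        refine C.bd_tr hu (T := .q i' 2) (z := C.D i' / C.τ i' ^ 2) m1 ?_ ?_
        · change C.D i' / C.τ i' = C.D i' / C.τ i' ^ 2 * C.τ i'
          field_simp
        · intro k hk
          fin_cases k
          · have e : C.τ i' ^ 2 / C.D i' = (C.D i' / C.τ i' ^ 2)⁻¹ := by field_simp
            change C.τ i' ^ 2 / C.D i' ∈ _
            rw [e]
            exact inv_mem m1
          · exact absurd rfl hk
          · exact m2
      · have hj : j = 1 := by
          by_cases h : j = 0
          · simp [dv, h] at hd
          · have h2 : j ≠ 2 := by simpa [bd] using hb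
            omega
        subst hj
        have hi : i' = i := by simpa [dv] using hd
        subst hi
        refine C.bd_tr hu (T := .q i' 3) (z := C.D i' / C.τ i' ^ 2 * (C.w / C.τ i')⁻¹)
          (mul_mem m1 (inv_mem m2)) ?_ ?_
        · change C.D i' / C.w = C.D i' / C.τ i' ^ 2 * (C.w / C.τ i')⁻¹ * C.τ i'
          field_simp
        · intro k hk
          fin_cases k
          · have e : C.w ^ 2 / C.D i' = (C.w / C.τ i') ^ 2 * (C.D i' / C.τ i' ^ 2)⁻¹ := by
              field_simp
            change C.w ^ 2 / C.D i' ∈ _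
            rw [e]
            exact mul_mem (pow_mem m2 2) (inv_mem m1)
          · exact absurd rfl hk
          · have e : C.τ i' / C.w = (C.w / C.τ i')⁻¹ := by field_simp
            change C.τ i' / C.w ∈ _
            rw [e]
            exact inv_mem m2
      · simp [dv] at hd

end Cfg

end Pool.Agent.Helper43.Fl
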