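import Pool.Agent.Helper43.FlPV0

open scoped KaehlerDifferential

noncomputable section

namespace Pool.Agent.Helper43.Fl

open Pool.Agent.Helper43 Pool.Agent.Helper43.ProjVar MvPolynomial

variable {K : Type} [Field K] [Algebra ℂ K]

theorem cen_aeval_nonneg {n : ℕ} (u : DivVal ℂ K n) {ι : Type} {y : ι → K}
    (hy : ∀ e, 0 ≤ u.v (y e)) (f : MvPolynomial ι ℂ) : 0 ≤ u.v (aeval y f) := by
  induction f using MvPolynomial.induction_on with
  | C a => simp only [aeval_C]; rw [u.const]
  | add f g hf hg => rw [map_add]; exact val_add u hf hg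
  | mul_X f i hf => rw [map_mul, aeval_X]; exact val_mul u hf (hy i)

/-- Polynomials whose value at `y` has positive valuation. -/
def cenIdeal {n : ℕ} (u : DivVal ℂ K n) {ι : Type} (y : ι → K)
    (hy : ∀ e, 0 ≤ u.v (y e)) : Ideal (MvPolynomial ι ℂ) where
  carrier := {f | aeval y f = 0 ∨ 0 < u.v (aeval y f)}
  zero_mem' := by left; simp
  add_mem' := by
    intro a b ha hb
    simp only [Set.mem_ofPred_eq, map_add] at *
    rcases ha with ha | ha
    · rw [ha, zero_add]; exact hb
    rcases hb with hb | hb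
    · rw [hb, add_zero]; right; exact ha
    by_cases h : aeval y a + aeval y b = 0
    · left; exact h
    right
    have ha0 : aeval y a ≠ 0 := fun h0 => by rw [h0, u.zero] at ha; omega
    have hb0 : aeval y b ≠ 0 := fun h0 => by rw [h0, u.zero] at hb; omega
    have := u.add _ _ ha0 hb0 h
    omega
  smul_mem' := by
    intro c a ha
    simp only [Set.mem_ofPred_eq, smul_eq_mul, map_mul] at *
    rcases ha with ha | ha
    · left; rw [ha, mul_zero]
    by_cases hc : aeval y c = 0
    · left; rw [hc, zero_mul]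
    right
    have ha0 : aeval y a ≠ 0 := fun h0 => by rw [h0, u.zero] at ha; omega
    rw [u.mul _ _ hc ha0]
    have := cen_aeval_nonneg u hy c
    omega

/-- Every divisorial valuation has a centre on a projective variety. -/
theorem exists_centre_val {X : ProjVar ℂ K} {n : ℕ} (u : DivVal ℂ K n) :
    ∃ P : X.Pt, ∀ z, RegularAt P z → 0 ≤ u.v z := by
  have := X.fin
  have : Nonempty {e : X.ι // X.x e ≠ 0} := ⟨⟨X.o, X.x_ne⟩⟩
  obtain ⟨⟨e₀, he₀⟩, hmin⟩ := Finite.exists_min (fun e : {e : X.ι // X.x e ≠ 0} => u.v (X.x e))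
  set y : X.ι → K := fun e => (X.x e₀)⁻¹ * X.x e with hydef
  have hy : ∀ e, 0 ≤ u.v (y e) := by
    intro e
    by_cases he : X.x e = 0
    · simp [hydef, he, u.zero]
    · have h1 := hmin ⟨e, he⟩
      simp only at h1
      simp only [hydef]
      rw [u.mul _ _ (inv_ne_zero he₀) he, v_inv]
      omega
  have hye : y e₀ = 1 := inv_mul_cancel₀ he₀
  have hproper : cenIdeal u y hy ≠ ⊤ := by
    rw [Ideal.ne_top_iff_one]
    intro h
    rcases h with h | h
    · simp at h
    · rw [map_one, v_one] at h; omega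
  obtain ⟨𝔪, hmax, hle⟩ := Ideal.exists_le_maximal _ hproper
  obtain ⟨c, hc⟩ := MvPolynomial.isMaximal_iff_eq_vanishingIdeal_singleton.mp hmax
  have hev : ∀ f ∈ cenIdeal u y hy, eval c f = 0 := by
    intro f hf
    have h1 := hle hf
    rw [hc, MvPolynomial.mem_vanishingIdeal_singleton_iff] at h1
    simpa using h1
  have hce : c e₀ = 1 := by
    have h1 := hev (MvPolynomial.X e₀ - 1) (by left; simp [hye])
    simp only [map_sub, eval_X, map_one] at h1
    exact sub_eq_zero.mp h1
  let P : X.Pt := ⟨c, fun h => by rw [h] at hce; simp at hce, fun m f hf hf0 => by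
    apply hev
    left
    rw [hydef, aeval_smul_homog hf, hf0, mul_zero]⟩
  refine ⟨P, ?_⟩
  rintro z ⟨a₀, m, a, b, ha, hb, hb0, hz, -⟩
  have hb1 : ¬ (aeval y b = 0 ∨ 0 < u.v (aeval y b)) := fun h => hb0 (hev b h)
  push Not at hb1
  have hb2 := cen_aeval_nonneg u hy b
  have ha2 := cen_aeval_nonneg u hy a
  have hz' : z * aeval y b = aeval y a := by
    rw [hydef, aeval_smul_homog hb, aeval_smul_homog ha, ← hz]
    ring
  by_cases hz0 : z = 0
  · rw [hz0, u.zero]
  rw [← hz', u.mul _ _ hz0 hb1.1] at ha2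
  omega

end Pool.Agent.Helper43.Fl
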