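import Pool.Agent.Helper43.GeoClosed

open scoped KaehlerDifferential

noncomputable section

namespace Pool.Agent.Helper43

universe u

section Jacobian

variable {k K : Type u} [Field k] [Field K] [Algebra k K] {n : ℕ}

theorem IsJacobian.refl (b : Fin n → K) : IsJacobian k b b 1 := by
  refine ⟨1, Matrix.det_one, fun i => ?_⟩
  simp [Matrix.one_apply]

theorem IsJacobian.trans {a b c : Fin n → K} {J J' : K} (h : IsJacobian k a b J)
    (h' : IsJacobian k b c J') : IsJacobian k a c (J * J') := by
  obtain ⟨M, hM, h1⟩ := h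
  obtain ⟨N, hN, h2⟩ := h'
  refine ⟨M * N, by rw [Matrix.det_mul, hM, hN], fun i => ?_⟩
  rw [h1 i]
  simp only [h2, Finset.smul_sum, smul_smul, Matrix.mul_apply, Finset.sum_smul]
  rw [Finset.sum_comm]

theorem isJacobian3 {f g h f' g' h' s₁ s₂ s₃ s₄ : K}
    (hf : KaehlerDifferential.D k K f' = s₁ • KaehlerDifferential.D k _ f)
    (hg : KaehlerDifferential.D k K g' = s₂ • KaehlerDifferential.D k _ g)
    (hh : KaehlerDifferential.D k K h' = s₃ • KaehlerDifferential.D k _ h +
      s₄ • KaehlerDifferential.D k _ g) :
    IsJacobian k ![f', g', h'] ![f, g, h] (s₁ * s₂ * s₃) := by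
  refine ⟨!![s₁, 0, 0; 0, s₂, 0; 0, s₄, s₃], ?_, fun i => ?_⟩
  · rw [Matrix.det_fin_three]
    simp
  · fin_cases i
    · simp [Fin.sum_univ_three, hf]
    · simp [Fin.sum_univ_three, hg]
    · simp [Fin.sum_univ_three, hh, add_comm]

theorem isJacobian2 {f g f' g' s₁ s₂ : K}
    (hf : KaehlerDifferential.D k K f' = s₁ • KaehlerDifferential.D k _ f)
    (hg : KaehlerDifferential.D k K g' = s₂ • KaehlerDifferential.D k _ g) :
    IsJacobian k ![f', g'] ![f, g] (s₁ * s₂) := by
  refine ⟨!![s₁, 0; 0, s₂], ?_, fun i => ?_⟩
  · rw [Matrix.det_fin_two]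
    simp
  · fin_cases i
    · simp [Fin.sum_univ_two, hf]
    · simp [Fin.sum_univ_two, hg]

end Jacobian

variable {k F : Type u} [Field k] [Field F] [Algebra k F]

namespace ProjVar

variable {X Y : ProjVar k F}

theorem isCanonicalGen_of_span {n : ℕ} {P : X.Pt} {par b : Fin n → X.functionField}
    {κ : X.functionField} (hpar : ∀ i, par i ∈ X.localRing P)
    (h : ∀ z ∈ X.localRing P, KaehlerDifferential.D k X.functionField z ∈
      Submodule.span (X.localRing P)
        (Set.range fun i => KaehlerDifferential.D k X.functionField (par i)))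
    (hb : IsDiffBasis k b) (hκ : IsJacobian k par b κ) : IsCanonicalGen P b κ := by
  constructor
  · rintro a J ha ⟨M, hM, hMa⟩
    have h1 : ∀ i, ∃ c : Fin n → X.localRing P, ∑ j, c j •
        KaehlerDifferential.D k X.functionField (par j) =
          KaehlerDifferential.D k X.functionField (a i) := fun i =>
      (Submodule.mem_span_range_iff_exists_fun _).mp (h _ (ha i))
    choose c hc using h1
    obtain ⟨N, hN, hNb⟩ := hκ
    let C : Matrix (Fin n) (Fin n) X.functionField := fun i j => (c i j : X.functionField)
    have hc' : ∀ i, ∑ j, C i j • KaehlerDifferential.D k X.functionField (par j) =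
        KaehlerDifferential.D k X.functionField (a i) := fun i => hc i
    have h2 : M = C * N := by
      refine Matrix.ext fun i l => ?_
      have h3 : ∑ l, M i l • KaehlerDifferential.D k X.functionField (b l) =
          ∑ l, (C * N) i l • KaehlerDifferential.D k X.functionField (b l) := by
        rw [← hMa i, ← hc' i]
        simp only [hNb, Finset.smul_sum, smul_smul, Matrix.mul_apply, Finset.sum_smul]
        rw [Finset.sum_comm]
      have h5 := Fintype.linearIndependent_iff.mp hb.1 (fun l => M i l - (C * N) i l) (by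
        simp only [sub_smul, Finset.sum_sub_distrib]
        rw [h3, sub_self]) l
      exact sub_eq_zero.mp h5
    have h6 : C.det = ((Matrix.det (fun i j => c i j) : X.localRing P) : X.functionField) := by
      have := (X.localRing P).val.toRingHom.map_det (fun i j => c i j)
      exact this.symm
    obtain ⟨d, hd⟩ := (Matrix.det (fun i j => c i j) : X.localRing P).2
    refine ⟨_, ⟨d, hd⟩, ?_⟩
    rw [← hM, h2, Matrix.det_mul, hN, h6]
    rfl
  · exact ⟨par, κ, hpar, hκ, 1, ⟨1, (place P).one⟩, (one_mul _).symm⟩

end ProjVar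

end Pool.Agent.Helper43
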