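import Pool.Agent.Helper43.FlModel
import Pool.Agent.Helper43.GeoForms
import Pool.Agent.Helper43.DiffBasis

open scoped KaehlerDifferential

noncomputable section

namespace Pool.Agent.Helper43.Fl

open Pool.Agent.Helper43 Pool.Agent.Helper43.ProjVar

/-- The names of the linear systems. -/
inductive Ix
  | U | V | W | S
  | M (i j : Fin 5)
  | N (i j : Fin 5)
  | F (i : Fin 5)
  deriving DecidableEq, Fintype

/-- The five points. -/
def tt (i : Fin 5) : ℂ := ((i : ℕ) : ℂ) + 1

theorem tt_ne (i : Fin 5) : tt i ≠ 0 := by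
  unfold tt
  exact_mod_cast Nat.succ_ne_zero i.val

theorem tt_inj {i j : Fin 5} (h : i ≠ j) : tt i ≠ tt j := by
  unfold tt
  intro h2
  apply h
  have h3 : ((i : ℕ) : ℂ) = ((j : ℕ) : ℂ) := by linear_combination h2
  exact Fin.ext (by exact_mod_cast h3)

theorem tt_sub {i j : Fin 5} (h : i ≠ j) : tt i - tt j ≠ 0 := sub_ne_zero.mpr (tt_inj h)

/-- A coordinate system of the field together with five parameters. -/
structure Cfg (K : Type) [Field K] [Algebra ℂ K] where
  x : K
  y : K
  w : K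
  ind : AlgebraicIndependent ℂ ![x, y, w]
  top : IntermediateField.adjoin ℂ {x, y, w} = ⊤
  κ : Fin 5 → ℂ
  κ0 : ∀ i, κ i ≠ 0
  κ1 : ∀ i, κ i ≠ 1

variable {K : Type} [Field K] [Algebra ℂ K]

/-- Constants. -/
abbrev cc (K : Type) [Field K] [Algebra ℂ K] (c : ℂ) : K := algebraMap ℂ K c

theorem cc_ne {c : ℂ} (h : c ≠ 0) : cc K c ≠ 0 := by simpa using h

theorem cc_add (a b : ℂ) : cc K (a + b) = cc K a + cc K b := map_add _ _ _
theorem cc_sub (a b : ℂ) : cc K (a - b) = cc K a - cc K b := map_sub _ _ _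
theorem cc_mul (a b : ℂ) : cc K (a * b) = cc K a * cc K b := map_mul _ _ _
theorem cc_div (a b : ℂ) : cc K (a / b) = cc K a / cc K b := map_div₀ _ _ _
theorem cc_neg (a : ℂ) : cc K (-a) = -cc K a := map_neg _ _
theorem cc_inv (a : ℂ) : cc K a⁻¹ = (cc K a)⁻¹ := map_inv₀ _ _
theorem cc_one : cc K 1 = 1 := map_one _
theorem cc_zero : cc K 0 = 0 := map_zero _

namespace Cfg

variable (C : Cfg K)

def b : Fin 3 → K := ![C.x, C.y, C.w]
def τ (i : Fin 5) : K := C.x - cc K (tt i)
def z (i : Fin 5) : K := C.y - cc K (tt i)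
def η : K := C.y - C.x
def D (i : Fin 5) : K := C.τ i + cc K (C.κ i) * C.η
def h (i j : Fin 5) : K := C.D j + C.τ j * C.z j / cc K (tt j - tt i)

def m (i j : Fin 5) : Fin 4 → K := ![C.w, C.η, C.τ i * C.z j, if i = j then C.τ i else 0]

/-- The linear systems. -/
def sys : Ix → J → K
  | .U, some (p, _) => (![1, C.x, 0, 0] : Fin 4 → K) p
  | .U, none => 0
  | .V, some (p, _) => (![1, C.y, 0, 0] : Fin 4 → K) p
  | .V, none => 0
  | .W, some (p, _) => (![1, C.w, 0, 0] : Fin 4 → K) p
  | .W, none => 0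
  | .S, some (p, _) => (![1, C.x, C.y, C.x * C.y] : Fin 4 → K) p
  | .S, none => C.w
  | .M i j, some (p, _) => C.m i j p
  | .M _ _, none => 0
  | .N i j, some (p, q) => C.m i j p * C.m i j q
  | .N i j, none => if i = j then C.D i else C.h i j * C.τ i
  | .F i, some (p, _) => (![(C.τ i * C.z i) ^ 2, C.τ i ^ 2, C.z i ^ 2, C.D i] : Fin 4 → K) p
  | .F _, none => 0

theorem ne_of_eval (f : MvPolynomial (Fin 3) ℂ) (p : Fin 3 → ℂ)
    (h : MvPolynomial.eval p f ≠ 0) : MvPolynomial.aeval ![C.x, C.y, C.w] f ≠ 0 := by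
  intro h0
  have : f = 0 := (algebraicIndependent_iff.mp C.ind) f h0
  rw [this] at h
  exact h (map_zero _)

open MvPolynomial in
theorem w_ne : C.w ≠ 0 := by
  have := C.ne_of_eval (X 2) ![0, 0, 1] (by simp)
  simpa using this

open MvPolynomial in
theorem x_sub_ne (c : ℂ) : C.x - cc K c ≠ 0 := by
  have := C.ne_of_eval (X 0 - MvPolynomial.C c) ![c + 1, 0, 0] (by simp)
  simpa using this

open MvPolynomial in
theorem y_sub_ne (c : ℂ) : C.y - cc K c ≠ 0 := by
  have := C.ne_of_eval (X 1 - MvPolynomial.C c) ![0, c + 1, 0] (by simp)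
  simpa using this

theorem x_ne : C.x ≠ 0 := by simpa using C.x_sub_ne 0

theorem y_ne : C.y ≠ 0 := by simpa using C.y_sub_ne 0

theorem τ_ne (i : Fin 5) : C.τ i ≠ 0 := C.x_sub_ne _

theorem z_ne (i : Fin 5) : C.z i ≠ 0 := C.y_sub_ne _

open MvPolynomial in
theorem η_ne : C.η ≠ 0 := by
  have := C.ne_of_eval (X 1 - X 0) ![0, 1, 0] (by simp)
  simpa [η] using this

open MvPolynomial in
theorem D_ne (i : Fin 5) : C.D i ≠ 0 := by
  have := C.ne_of_eval (X 0 - MvPolynomial.C (tt i) + MvPolynomial.C (C.κ i) * (X 1 - X 0))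
    ![tt i, tt i + 1, 0] (by simpa using C.κ0 i)
  simpa [D, τ, η] using this

open MvPolynomial in
theorem h_ne (i j : Fin 5) : C.h i j ≠ 0 := by
  have := C.ne_of_eval (X 0 - MvPolynomial.C (tt j) + MvPolynomial.C (C.κ j) * (X 1 - X 0) +
    (X 0 - MvPolynomial.C (tt j)) * (X 1 - MvPolynomial.C (tt j)) *
      MvPolynomial.C (tt j - tt i)⁻¹) ![tt j, tt j + 1, 0] (by simpa using C.κ0 j)
  simpa [Cfg.h, D, τ, η, z, div_eq_mul_inv] using this

theorem sys_ne (a : Ix) : C.sys a jo ≠ 0 := by
  cases a with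
  | U => simp [sys]
  | V => simp [sys]
  | W => simp [sys]
  | S => simp [sys]
  | M i j => simpa [sys, m] using C.w_ne
  | N i j => simpa [sys, m] using C.w_ne
  | F i => simpa [sys] using ⟨C.τ_ne i, C.z_ne i⟩

/-- The model attached to a set of linear systems. -/
def on (s : Ix → Bool) : ProjVar ℂ K :=
  model (fun a => bif s a then C.sys a else fun _ => 1) (fun a => by
    cases s a
    · simp
    · simpa using C.sys_ne a)

/-- The systems of the threefolds. -/
def inX : Ix → Bool
  | .U | .S | .M _ _ | .N _ _ => true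
  | _ => false

/-- The systems of the base of the flop of the `i`-th curve. -/
def inZ (i : Fin 5) : Ix → Bool
  | .U => true
  | .M k _ | .N k _ => k = i
  | _ => false

/-- The systems of the base of the flop of the curve `T`. -/
def inT : Ix → Bool
  | .S | .M _ _ | .N _ _ => true
  | _ => false

/-- The systems of the variety on which the class is nef. -/
def inF : Ix → Bool
  | .U | .V | .W | .F _ => true
  | _ => false

/-- The systems of the product of two lines. -/
def inP : Ix → Bool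
  | .U | .V => true
  | _ => false

/-- The least value of the elements of a system. -/
def e (a : Ix) (u : DivVal ℂ K 2) : ℤ := mn (C.sys a) u

end Cfg

/-- The coefficients `d₁`, `d₂` and `a` of a class. -/
abbrev Cls := ℝ × ℝ × (Fin 5 → ℝ)

/-- The b-divisor of a class. -/
def beta (C : Cfg K) (c : Cls) : BDiv ℂ K 2 := fun u =>
  -c.1 * C.e .U u - c.2.1 * C.e .V u -
    ∑ i, c.2.2 i / 2 * (C.e (.F i) u - 2 * C.e .U u - 2 * C.e .V u)

/-- The canonical divisor of the threefold plus the discrepancy of the class. -/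
def disc (C : Cfg K) (c : Cls) : BDiv ℂ K 2 := fun u =>
  -12 * C.e .S u + ∑ i, ((C.e (.M i i) u : ℝ) + C.e (.N i i) u) +
    c.2.1 * (C.e .U u + C.e .V u - C.e .S u) +
    ∑ i, c.2.2 i / 2 * ((C.e (.F i) u - 2 * C.e .U u - 2 * C.e .V u) -
      (C.e (.N i i) u - 2 * C.e .S u))

/-- The log canonical divisor. -/
def logc (C : Cfg K) (c : Cls) : BDiv ℂ K 2 := disc C c + beta C c

theorem logc_apply (C : Cfg K) (c : Cls) (u : DivVal ℂ K 2) : logc C c u =
    -(12 + c.2.1 - ∑ i, c.2.2 i) * C.e .S u - (c.1 - c.2.1) * C.e .U u +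
      ∑ i, (C.e (.M i i) u : ℝ) + ∑ i, (1 - c.2.2 i / 2) * C.e (.N i i) u := by
  simp only [logc, disc, beta, Pi.add_apply, Fin.sum_univ_five]
  ring

namespace Cfg

variable (C : Cfg K)

theorem on_gen {s : Ix → Bool} (P : (C.on s).Pt) {a : Ix} (ha : s a = true) :
    GenAt (HasVal P) (C.sys a) := by
  have h := model_gen P a
  simp only [ha, cond_true] at h
  exact h

theorem genAt_one {H : K → ℂ → Prop} (hH : Place H) : GenAt H (fun _ => (1 : K)) :=
  ⟨jo, one_ne_zero, fun _ => ⟨1, by simpa using hH.one⟩⟩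

theorem on_exists {s : Ix → Bool} {H : K → ℂ → Prop} (hH : Place H)
    (h : ∀ a, s a = true → GenAt H (C.sys a)) :
    ∃ Q : (C.on s).Pt, ∀ z c, HasVal Q z c → H z c := by
  refine model_exists hH fun a => ?_
  cases ha : s a
  · exact genAt_one hH
  · exact h a ha

theorem on_dominates {s : Ix → Bool} {X : ProjVar ℂ K}
    (h : ∀ P : X.Pt, ∀ a, s a = true → GenAt (HasVal P) (C.sys a)) :
    X.Dominates (C.on s) := fun P => C.on_exists (place P) (h P)

theorem on_dominates_on {s s' : Ix → Bool} (h : ∀ a, s' a = true → s a = true) :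
    (C.on s).Dominates (C.on s') := C.on_dominates fun P _ ha => C.on_gen P (h _ ha)

theorem on_hyp (s : Ix → Bool) (u : DivVal ℂ K 2) :
    (C.on s).hyp 2 u = ∑ a, if s a = true then ((u.v (C.sys a jo) : ℝ) - C.e a u) else 0 := by
  unfold on
  rw [model_hyp]
  refine Finset.sum_congr rfl fun a _ => ?_
  cases ha : s a
  · have : mn (fun _ : J => (1 : K)) u = 0 :=
      mn_unique u one_ne_zero (fun _ _ => by rw [v_one]) ⟨jo, one_ne_zero, v_one u⟩
    simp [this, v_one]
  · simp [e]

theorem mem_principal (f : K) : (fun u : DivVal ℂ K 2 => (u.v f : ℝ)) ∈ principal ℂ K 2 :=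
  Submodule.subset_span ⟨f, rfl⟩

/-- The hyperplane section of a model, modulo principal divisors. -/
theorem on_hyp_mod (s : Ix → Bool) :
    ((C.on s).hyp 2 - fun u => -∑ a, if s a = true then (C.e a u : ℝ) else 0) ∈
      principal ℂ K 2 := by
  have h1 : ((C.on s).hyp 2 - fun u => -∑ a, if s a = true then (C.e a u : ℝ) else 0) =
      ∑ a, if s a = true then (fun u : DivVal ℂ K 2 => (u.v (C.sys a jo) : ℝ)) else 0 := by
    funext u
    simp only [Pi.sub_apply, C.on_hyp, Finset.sum_apply]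
    rw [sub_neg_eq_add, ← Finset.sum_add_distrib]
    refine Finset.sum_congr rfl fun a _ => ?_
    split_ifs
    · ring
    · simp
  rw [h1]
  refine Submodule.sum_mem _ fun a _ => ?_
  split_ifs
  · exact mem_principal _
  · exact Submodule.zero_mem _

theorem on_mem {s : Ix → Bool} {a : Ix} (ha : s a = true) (i j : J) :
    C.sys a i / C.sys a j ∈ (C.on s).functionField := by
  have h := model_mem (k := ℂ) (s := fun a => bif s a then C.sys a else fun _ => 1)
    (hs := fun a => by
      cases s a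
      · simp
      · simpa using C.sys_ne a) a i j
  simp only [ha, cond_true] at h
  exact h

end Cfg

end Pool.Agent.Helper43.Fl
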