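import Pool.Agent.Helper43.FlTr

open scoped KaehlerDifferential

noncomputable section

namespace Pool.Agent.Helper43.Fl

open Pool.Agent.Helper43 Pool.Agent.Helper43.ProjVar

variable {K : Type} [Field K] [Algebra ℂ K]

/-- The types of the affine charts of the threefold. -/
inductive Ty
  | a | b | c | a' | b' | c'
  | q (i : Fin 5) (r : Fin 5)

namespace Cfg

variable (C : Cfg K)

/-- The local parameters of the charts. -/
def par : Ty → Fin 3 → K
  | .a => ![C.x, C.y, C.w]
  | .b => ![C.x, C.y⁻¹, C.w / C.y]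
  | .c => ![C.x, C.w⁻¹, C.y / C.w]
  | .a' => ![C.x⁻¹, C.y, C.w / C.x]
  | .b' => ![C.x⁻¹, C.y⁻¹, C.w / (C.x * C.y)]
  | .c' => ![C.x⁻¹, C.x / C.w, C.x * C.y / C.w]
  | .q i 0 => ![C.τ i, C.D i / C.τ i ^ 2, C.w / C.τ i]
  | .q i 1 => ![C.w, C.D i / C.w ^ 2, C.τ i / C.w]
  | .q i 2 => ![C.τ i ^ 2 / C.D i, C.D i / C.τ i, C.w / C.τ i]
  | .q i 3 => ![C.w ^ 2 / C.D i, C.D i / C.w, C.τ i / C.w]
  | .q i 4 => ![C.D i, C.τ i / C.D i, C.w / C.D i]

/-- The generator of the system `U` on a chart. -/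
def gU : Ty → K
  | .a' | .b' | .c' => C.x
  | _ => 1

/-- The generator of the system `S` on a chart. -/
def gS : Ty → K
  | .b => C.y
  | .a' => C.x
  | .b' => C.x * C.y
  | .c | .c' => C.w
  | _ => 1

/-- The generator of `M i i` over the `i`-th point. -/
def gM (i : Fin 5) : Fin 5 → K
  | 0 => C.τ i
  | 1 => C.w
  | 2 => C.τ i
  | 3 => C.w
  | 4 => C.D i

/-- The generator of `N i i` over the `i`-th point. -/
def gN (i : Fin 5) : Fin 5 → K
  | 0 => C.τ i ^ 2
  | 1 => C.w ^ 2
  | 2 => C.D i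
  | 3 => C.D i
  | 4 => C.D i

/-- The generators of the systems on the charts. -/
def fac : Ty → Ix → K
  | T, .U => C.gU T
  | T, .S => C.gS T
  | .q i r, .M k l => if k = i ∨ l = i then C.gM i r else 1
  | T, .M _ _ => C.gS T
  | .q i r, .N k l => if l = i then C.gN i r else if k = i then C.gM i r ^ 2 else 1
  | T, .N _ _ => C.gS T ^ 2
  | _, _ => 1

/-- The place is centred in the chart of type `T`. -/
structure IsChart (H : K → ℂ → Prop) (T : Ty) : Prop where
  reg : ∀ q, ∃ c, H (C.par T q) c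
  gen : ∀ a, inX a = true → ∀ j, Gn H (C.par T) (C.sys a j / C.fac T a)
  unit : ∀ a, inX a = true → ∃ j c, c ≠ 0 ∧ H (C.sys a j / C.fac T a) c

theorem fac_ne (T : Ty) (a : Ix) : C.fac T a ≠ 0 := by
  have hx := C.x_ne
  have hy := C.y_ne
  have hw := C.w_ne
  have hS : C.gS T ≠ 0 := by cases T <;> simp [gS, hx, hy, hw]
  have hU : C.gU T ≠ 0 := by cases T <;> simp [gU, hx]
  have hM : ∀ i r, C.gM i r ≠ 0 := by
    intro i r
    fin_cases r <;> simp [gM, hw, C.τ_ne, C.D_ne]
  have hN : ∀ i r, C.gN i r ≠ 0 := by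
    intro i r
    fin_cases r <;> simp [gN, hw, C.τ_ne, C.D_ne]
  cases a with
  | U => simpa [fac] using hU
  | V => cases T <;> simp [fac]
  | W => cases T <;> simp [fac]
  | S => simpa [fac] using hS
  | F i => cases T <;> simp [fac]
  | M k l =>
    cases T with
    | q i r =>
      simp only [fac]
      split_ifs
      · exact hM i r
      · exact one_ne_zero
    | _ => simpa [fac] using hS
  | N k l =>
    cases T with
    | q i r =>
      simp only [fac]
      split_ifs
      · exact hN i r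
      · exact pow_ne_zero _ (hM i r)
      · exact one_ne_zero
    | _ => simpa [fac] using hS

end Cfg

end Pool.Agent.Helper43.Fl
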