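import Pool.Agent.Helper43.FlChart0

open scoped KaehlerDifferential

noncomputable section

namespace Pool.Agent.Helper43.Fl

open Pool.Agent.Helper43 Pool.Agent.Helper43.ProjVar

variable {K : Type} [Field K] [Algebra ℂ K]

namespace Cfg

variable (C : Cfg K)

/-- General lemma for the charts away from the five points. -/
theorem chart_big {H : K → ℂ → Prop} (hH : Place H) (T : Ty)
    (fM : ∀ i j, C.fac T (.M i j) = C.gS T) (fN : ∀ i j, C.fac T (.N i j) = C.gS T ^ 2)
    (reg : ∀ q, ∃ c, H (C.par T q) c)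
    (g1 : Gn H (C.par T) (1 / C.gS T)) (gx : Gn H (C.par T) (C.x / C.gS T))
    (gy : Gn H (C.par T) (C.y / C.gS T)) (gxy : Gn H (C.par T) (C.x * C.y / C.gS T))
    (gw : Gn H (C.par T) (C.w / C.gS T))
    (u1 : Gn H (C.par T) (1 / C.gU T)) (ux : Gn H (C.par T) (C.x / C.gU T))
    (unitU : ∃ j c, c ≠ 0 ∧ H (C.sys .U j / C.gU T) c)
    (unitS : ∃ j c, c ≠ 0 ∧ H (C.sys .S j / C.gS T) c)
    (unitM : ∀ i j, ∃ p c, c ≠ 0 ∧ H (C.m i j p / C.gS T) c) : C.IsChart H T := by
  have hp := Gn.cl H (C.par T)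
  have hS : C.gS T ≠ 0 := C.fac_ne T .S
  have hτ : ∀ i, Gn H (C.par T) (C.τ i / C.gS T) := by
    intro i
    have : C.τ i / C.gS T = C.x / C.gS T - cc K (tt i) * (1 / C.gS T) := by
      unfold Cfg.τ
      field_simp
    rw [this]
    exact hp.sub gx (hp.mul (hp.const _) g1)
  have hη : Gn H (C.par T) (C.η / C.gS T) := by
    have : C.η / C.gS T = C.y / C.gS T - C.x / C.gS T := by
      unfold Cfg.η
      field_simp
    rw [this]
    exact hp.sub gy gx
  have hτz : ∀ i j, Gn H (C.par T) (C.τ i * C.z j / C.gS T) := by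
    intro i j
    have : C.τ i * C.z j / C.gS T = C.x * C.y / C.gS T - cc K (tt j) * (C.x / C.gS T)
        - cc K (tt i) * (C.y / C.gS T) + cc K (tt i) * cc K (tt j) * (1 / C.gS T) := by
      unfold Cfg.τ Cfg.z
      field_simp
      ring
    rw [this]
    exact hp.add (hp.sub (hp.sub gxy (hp.mul (hp.const _) gx)) (hp.mul (hp.const _) gy))
      (hp.mul (hp.mul (hp.const _) (hp.const _)) g1)
  have hm : ∀ i j p, Gn H (C.par T) (C.m i j p / C.gS T) := by
    intro i j p
    fin_cases p
    · simpa [m] using gw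
    · simpa [m] using hη
    · simpa [m] using hτz i j
    · by_cases hij : i = j
      · simpa [m, hij] using hτ j
      · simpa [m, hij] using hp.zero
  have hD : ∀ i, Gn H (C.par T) (C.D i / C.gS T) := by
    intro i
    have : C.D i / C.gS T = C.τ i / C.gS T + cc K (C.κ i) * (C.η / C.gS T) := by
      unfold Cfg.D
      field_simp
    rw [this]
    exact hp.add (hτ i) (hp.mul (hp.const _) hη)
  have hh : ∀ i j, Gn H (C.par T) (C.h i j / C.gS T) := by
    intro i j
    have : C.h i j / C.gS T = C.D j / C.gS T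
        + cc K (tt j - tt i)⁻¹ * (C.τ j * C.z j / C.gS T) := by
      unfold Cfg.h
      rw [cc_inv, add_div, div_eq_mul_inv (C.τ j * C.z j)]
      ring
    rw [this]
    exact hp.add (hD j) (hp.mul (hp.const _) (hτz j j))
  have fU : C.fac T .U = C.gU T := by cases T <;> rfl
  have fS : C.fac T .S = C.gS T := by cases T <;> rfl
  refine ⟨reg, ?_, ?_⟩
  · intro a ha j
    cases a with
    | U =>
      rw [fU]
      rcases j with _ | ⟨p, q⟩
      · simpa [sys] using hp.zero
      · fin_cases p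
        · simpa [sys] using u1
        · simpa [sys] using ux
        · simpa [sys] using hp.zero
        · simpa [sys] using hp.zero
    | V => simp [inX] at ha
    | W => simp [inX] at ha
    | F i => simp [inX] at ha
    | S =>
      rw [fS]
      rcases j with _ | ⟨p, q⟩
      · simpa [sys] using gw
      · fin_cases p
        · simpa [sys] using g1
        · simpa [sys] using gx
        · simpa [sys] using gy
        · simpa [sys] using gxy
    | M i k =>
      rw [fM]
      rcases j with _ | ⟨p, q⟩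
      · simpa [sys] using hp.zero
      · simpa [sys] using hm i k p
    | N i k =>
      rw [fN]
      rcases j with _ | ⟨p, q⟩
      · by_cases hik : i = k
        · have : C.sys (.N i k) none / C.gS T ^ 2 = C.D i / C.gS T * (1 / C.gS T) := by
            simp only [sys, if_pos hik]
            field_simp
          rw [this]
          exact hp.mul (hD i) g1
        · have : C.sys (.N i k) none / C.gS T ^ 2 = C.h i k / C.gS T * (C.τ i / C.gS T) := by
            simp only [sys, if_neg hik]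
            field_simp
          rw [this]
          exact hp.mul (hh i k) (hτ i)
      · have : C.sys (.N i k) (some (p, q)) / C.gS T ^ 2
            = C.m i k p / C.gS T * (C.m i k q / C.gS T) := by
          simp only [sys]
          field_simp
        rw [this]
        exact hp.mul (hm i k p) (hm i k q)
  · intro a ha
    cases a with
    | U => rw [fU]; exact unitU
    | V => simp [inX] at ha
    | W => simp [inX] at ha
    | F i => simp [inX] at ha
    | S => rw [fS]; exact unitS
    | M i k =>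
      rw [fM]
      obtain ⟨p, c, hc, h⟩ := unitM i k
      exact ⟨some (p, 0), c, hc, by simpa [sys] using h⟩
    | N i k =>
      rw [fN]
      obtain ⟨p, c, hc, h⟩ := unitM i k
      refine ⟨some (p, p), c * c, mul_ne_zero hc hc, ?_⟩
      have : C.sys (.N i k) (some (p, p)) / C.gS T ^ 2
          = C.m i k p / C.gS T * (C.m i k p / C.gS T) := by
        simp only [sys]
        field_simp
      rw [this]
      exact hH.mul h h

theorem chart_b {H : K → ℂ → Prop} (hH : Place H) (hx : ∃ c, H C.x c) (hy : H C.y⁻¹ 0)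
    (hw : ∃ c, H (C.w / C.y) c) : C.IsChart H .b := by
  have hy0 := C.y_ne
  have hp := Gn.cl H (C.par .b)
  have p0 : Gn H (C.par .b) C.x := Gn.par H (C.par .b) 0
  have p1 : Gn H (C.par .b) C.y⁻¹ := Gn.par H (C.par .b) 1
  have p2 : Gn H (C.par .b) (C.w / C.y) := Gn.par H (C.par .b) 2
  have gS : C.gS .b = C.y := rfl
  have gU : C.gU .b = 1 := rfl
  apply C.chart_big hH .b (fun _ _ => rfl) (fun _ _ => rfl)
  · intro q
    fin_cases q
    · exact hx
    · exact ⟨0, hy⟩
    · exact hw
  · rw [gS, one_div]; exact p1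
  · rw [gS, div_eq_mul_inv]; exact hp.mul p0 p1
  · rw [gS, div_self hy0]; exact hp.one
  · rw [gS, mul_div_assoc, div_self hy0, mul_one]; exact p0
  · rw [gS]; exact p2
  · rw [gU, div_one]; exact hp.one
  · rw [gU, div_one]; exact p0
  · exact ⟨jo, 1, one_ne_zero, by simpa [gU, sys, jo] using hH.one⟩
  · exact ⟨some (2, 0), 1, one_ne_zero, by simpa [gS, sys, hy0] using hH.one⟩
  · intro i j
    obtain ⟨c, hc⟩ := hx
    refine ⟨1, 1 - c * 0, by simp, ?_⟩
    have : C.m i j 1 / C.gS .b = 1 - C.x * C.y⁻¹ := by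
      simp only [m, gS, Cfg.η]
      simp
      field_simp
    rw [this]
    exact hH.sub hH.one (hH.mul hc hy)

theorem chart_c {H : K → ℂ → Prop} (hH : Place H) (hx : ∃ c, H C.x c) (hw : H C.w⁻¹ 0)
    (hy : H (C.y / C.w) 0) : C.IsChart H .c := by
  have hw0 := C.w_ne
  have hp := Gn.cl H (C.par .c)
  have p0 : Gn H (C.par .c) C.x := Gn.par H (C.par .c) 0
  have p1 : Gn H (C.par .c) C.w⁻¹ := Gn.par H (C.par .c) 1
  have p2 : Gn H (C.par .c) (C.y / C.w) := Gn.par H (C.par .c) 2
  have gS : C.gS .c = C.w := rfl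
  have gU : C.gU .c = 1 := rfl
  apply C.chart_big hH .c (fun _ _ => rfl) (fun _ _ => rfl)
  · intro q
    fin_cases q
    · exact hx
    · exact ⟨0, hw⟩
    · exact ⟨0, hy⟩
  · rw [gS, one_div]; exact p1
  · rw [gS, div_eq_mul_inv]; exact hp.mul p0 p1
  · rw [gS]; exact p2
  · rw [gS, mul_div_assoc]; exact hp.mul p0 p2
  · rw [gS, div_self hw0]; exact hp.one
  · rw [gU, div_one]; exact hp.one
  · rw [gU, div_one]; exact p0
  · exact ⟨jo, 1, one_ne_zero, by simpa [gU, sys, jo] using hH.one⟩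
  · exact ⟨none, 1, one_ne_zero, by simpa [gS, sys, hw0] using hH.one⟩
  · intro i j
    refine ⟨0, 1, one_ne_zero, ?_⟩
    simpa [m, gS, hw0] using hH.one

theorem chart_a' {H : K → ℂ → Prop} (hH : Place H) (hx : H C.x⁻¹ 0) (hy : ∃ c, H C.y c)
    (hw : ∃ c, H (C.w / C.x) c) : C.IsChart H .a' := by
  have hx0 := C.x_ne
  have hp := Gn.cl H (C.par .a')
  have p0 : Gn H (C.par .a') C.x⁻¹ := Gn.par H (C.par .a') 0
  have p1 : Gn H (C.par .a') C.y := Gn.par H (C.par .a') 1
  have p2 : Gn H (C.par .a') (C.w / C.x) := Gn.par H (C.par .a') 2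
  have gS : C.gS .a' = C.x := rfl
  have gU : C.gU .a' = C.x := rfl
  apply C.chart_big hH .a' (fun _ _ => rfl) (fun _ _ => rfl)
  · intro q
    fin_cases q
    · exact ⟨0, hx⟩
    · exact hy
    · exact hw
  · rw [gS, one_div]; exact p0
  · rw [gS, div_self hx0]; exact hp.one
  · rw [gS, div_eq_mul_inv]; exact hp.mul p1 p0
  · rw [gS, mul_div_right_comm, div_self hx0, one_mul]; exact p1
  · rw [gS]; exact p2
  · rw [gU, one_div]; exact p0
  · rw [gU, div_self hx0]; exact hp.one
  · exact ⟨some (1, 0), 1, one_ne_zero, by simpa [gU, sys, hx0] using hH.one⟩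
  · exact ⟨some (1, 0), 1, one_ne_zero, by simpa [gS, sys, hx0] using hH.one⟩
  · intro i j
    obtain ⟨c, hc⟩ := hy
    refine ⟨1, c * 0 - 1, by simp, ?_⟩
    have : C.m i j 1 / C.gS .a' = C.y * C.x⁻¹ - 1 := by
      simp only [m, gS, Cfg.η]
      simp
      field_simp
    rw [this]
    exact hH.sub (hH.mul hc hx) hH.one

theorem chart_b' {H : K → ℂ → Prop} (hH : Place H) (hx : H C.x⁻¹ 0) (hy : H C.y⁻¹ 0)
    (hw : ∃ c, H (C.w / (C.x * C.y)) c) : C.IsChart H .b' := by
  have hx0 := C.x_ne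
  have hy0 := C.y_ne
  have hp := Gn.cl H (C.par .b')
  have p0 : Gn H (C.par .b') C.x⁻¹ := Gn.par H (C.par .b') 0
  have p1 : Gn H (C.par .b') C.y⁻¹ := Gn.par H (C.par .b') 1
  have p2 : Gn H (C.par .b') (C.w / (C.x * C.y)) := Gn.par H (C.par .b') 2
  have gS : C.gS .b' = C.x * C.y := rfl
  have gU : C.gU .b' = C.x := rfl
  apply C.chart_big hH .b' (fun _ _ => rfl) (fun _ _ => rfl)
  · intro q
    fin_cases q
    · exact ⟨0, hx⟩
    · exact ⟨0, hy⟩
    · exact hw
  · rw [gS, one_div, mul_inv]; exact hp.mul p0 p1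
  · rw [gS, show C.x / (C.x * C.y) = C.y⁻¹ by field_simp]; exact p1
  · rw [gS, show C.y / (C.x * C.y) = C.x⁻¹ by field_simp]; exact p0
  · rw [gS, div_self (mul_ne_zero hx0 hy0)]; exact hp.one
  · rw [gS]; exact p2
  · rw [gU, one_div]; exact p0
  · rw [gU, div_self hx0]; exact hp.one
  · exact ⟨some (1, 0), 1, one_ne_zero, by simpa [gU, sys, hx0] using hH.one⟩
  · refine ⟨some (3, 0), 1, one_ne_zero, ?_⟩
    have : C.sys .S (some (3, 0)) / C.gS .b' = 1 := by
      simp only [sys, gS]
      simp [hx0, hy0]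
    rw [this]
    exact hH.one
  · intro i j
    refine ⟨2, (1 - tt i * 0) * (1 - tt j * 0), by simp, ?_⟩
    have : C.m i j 2 / C.gS .b' = (1 - cc K (tt i) * C.x⁻¹) * (1 - cc K (tt j) * C.y⁻¹) := by
      simp only [m, gS, Cfg.τ, Cfg.z]
      simp only [Matrix.cons_val]
      field_simp
    rw [this]
    exact hH.mul (hH.sub hH.one (hH.mul (hH.const _) hx)) (hH.sub hH.one (hH.mul (hH.const _) hy))

theorem chart_c' {H : K → ℂ → Prop} (hH : Place H) (hx : H C.x⁻¹ 0) (hy : H (C.x / C.w) 0)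
    (hw : H (C.x * C.y / C.w) 0) : C.IsChart H .c' := by
  have hx0 := C.x_ne
  have hw0 := C.w_ne
  have hp := Gn.cl H (C.par .c')
  have p0 : Gn H (C.par .c') C.x⁻¹ := Gn.par H (C.par .c') 0
  have p1 : Gn H (C.par .c') (C.x / C.w) := Gn.par H (C.par .c') 1
  have p2 : Gn H (C.par .c') (C.x * C.y / C.w) := Gn.par H (C.par .c') 2
  have gS : C.gS .c' = C.w := rfl
  have gU : C.gU .c' = C.x := rfl
  apply C.chart_big hH .c' (fun _ _ => rfl) (fun _ _ => rfl)
  · intro q
    fin_cases q
    · exact ⟨0, hx⟩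
    · exact ⟨0, hy⟩
    · exact ⟨0, hw⟩
  · rw [gS, show 1 / C.w = C.x⁻¹ * (C.x / C.w) by field_simp]; exact hp.mul p0 p1
  · rw [gS]; exact p1
  · rw [gS, show C.y / C.w = C.x⁻¹ * (C.x * C.y / C.w) by field_simp]; exact hp.mul p0 p2
  · rw [gS]; exact p2
  · rw [gS, div_self hw0]; exact hp.one
  · rw [gU, one_div]; exact p0
  · rw [gU, div_self hx0]; exact hp.one
  · exact ⟨some (1, 0), 1, one_ne_zero, by simpa [gU, sys, hx0] using hH.one⟩
  · exact ⟨none, 1, one_ne_zero, by simpa [gS, sys, hw0] using hH.one⟩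
  · intro i j
    refine ⟨0, 1, one_ne_zero, ?_⟩
    simpa [m, gS, hw0] using hH.one

end Cfg

end Pool.Agent.Helper43.Fl
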