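import Pool.Agent.Helper43.FlPV0

open scoped KaehlerDifferential

noncomputable section

namespace Pool.Agent.Helper43.Fl

open Pool.Agent.Helper43 Pool.Agent.Helper43.ProjVar MvPolynomial

variable {K : Type} [Field K] [Algebra ℂ K]

theorem cop_totalDegree_pos {π : MvPolynomial (Fin 3) ℂ} (hπ : Prime π) : 0 < π.totalDegree := by
  rw [Nat.pos_iff_ne_zero]
  intro h
  rw [totalDegree_eq_zero_iff_eq_C] at h
  apply hπ.not_isUnit
  rw [h]
  have hc : coeff 0 π ≠ 0 := by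
    intro h0
    rw [h0, map_zero] at h
    exact hπ.ne_zero h
  exact (isUnit_iff_ne_zero.mpr hc).map (C : ℂ →+* MvPolynomial (Fin 3) ℂ)

theorem cop_aux {ι : Type} (i₀ : ι) : ∀ (n : ℕ) (f : ι → MvPolynomial (Fin 3) ℂ), f i₀ ≠ 0 →
    (f i₀).totalDegree = n → ∃ (d : MvPolynomial (Fin 3) ℂ) (f' : ι → MvPolynomial (Fin 3) ℂ),
      d ≠ 0 ∧ (∀ i, f i = d * f' i) ∧ ¬ ∃ π, Prime π ∧ ∀ i, π ∣ f' i := by
  intro n
  induction n using Nat.strong_induction_on with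
  | _ n ih =>
    intro f hf hn
    by_cases h : ∃ π, Prime π ∧ ∀ i, π ∣ f i
    · obtain ⟨π, hπ, hd⟩ := h
      choose f₁ hf₁ using hd
      have h0 : f₁ i₀ ≠ 0 := by
        intro h0
        apply hf
        rw [hf₁, h0, mul_zero]
      have hdeg : (f₁ i₀).totalDegree < n := by
        rw [← hn, hf₁ i₀, totalDegree_mul_of_isDomain hπ.ne_zero h0]
        have := cop_totalDegree_pos hπ
        omega
      obtain ⟨d, f', hd, hf', hno⟩ := ih _ hdeg f₁ h0 rfl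
      refine ⟨π * d, f', mul_ne_zero hπ.ne_zero hd, fun i => ?_, hno⟩
      rw [hf₁, hf', mul_assoc]
    · exact ⟨1, f, one_ne_zero, fun i => (one_mul _).symm, h⟩

theorem coprime_rep {p : Fin 3 → K} (hi : AlgebraicIndependent ℂ p)
    (ht : IntermediateField.adjoin ℂ (Set.range p) = ⊤) {ι : Type} [Finite ι] (y : ι → K)
    {i₀ : ι} (hy : y i₀ ≠ 0) : ∃ (g : K) (f : ι → MvPolynomial (Fin 3) ℂ), g ≠ 0 ∧
      (∀ i, y i = g * aeval p (f i)) ∧ ¬ ∃ π, Prime π ∧ ∀ i, π ∣ f i := by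
  classical
  have := Fintype.ofFinite ι
  have hinj : ∀ f : MvPolynomial (Fin 3) ℂ, f ≠ 0 → aeval p f ≠ 0 := fun f hf h0 =>
    hf ((algebraicIndependent_iff.mp hi) f h0)
  have hrep : ∀ i, ∃ A B : MvPolynomial (Fin 3) ℂ, B ≠ 0 ∧ y i = aeval p A / aeval p B := by
    intro i
    have hmem : y i ∈ IntermediateField.adjoin ℂ (Set.range p) := by rw [ht]; trivial
    obtain ⟨r, s, hrs⟩ := (IntermediateField.mem_adjoin_range_iff ℂ p (y i)).mp hmem
    by_cases hs : s = 0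
    · exact ⟨0, 1, one_ne_zero, by rw [hrs, hs]; simp⟩
    · exact ⟨r, s, hs, hrs⟩
  choose A B hB hAB using hrep
  let f : ι → MvPolynomial (Fin 3) ℂ := fun i => A i * ∏ j ∈ Finset.univ.erase i, B j
  have hBp : (∏ j, B j) ≠ 0 := Finset.prod_ne_zero_iff.mpr fun j _ => hB j
  have hf : ∀ i, y i = (aeval p (∏ j, B j))⁻¹ * aeval p (f i) := by
    intro i
    have h1 : (∏ j, B j) = B i * ∏ j ∈ Finset.univ.erase i, B j :=
      (Finset.mul_prod_erase _ _ (Finset.mem_univ i)).symm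
    have h2 : (∏ j ∈ Finset.univ.erase i, B j) ≠ 0 := Finset.prod_ne_zero_iff.mpr fun j _ => hB j
    have h3 := hinj _ (hB i)
    have h4 := hinj _ h2
    rw [h1, hAB i]
    simp only [f, map_mul]
    field_simp
  have hf0 : f i₀ ≠ 0 := by
    intro h0
    apply hy
    rw [hf i₀, h0, map_zero, mul_zero]
  obtain ⟨d, f', hd, hf', hno⟩ := cop_aux i₀ _ f hf0 rfl
  refine ⟨(aeval p (∏ j, B j))⁻¹ * aeval p d, f',
    mul_ne_zero (inv_ne_zero (hinj _ hBp)) (hinj _ hd), fun i => ?_, hno⟩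
  rw [hf i, hf' i, map_mul, mul_assoc]

end Pool.Agent.Helper43.Fl
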