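import Pool.Agent.Helper43.FlNm

open scoped KaehlerDifferential

noncomputable section

namespace Pool.Agent.Helper43

/-- A divisorial valuation of the field `K` over `k`, where `K` has transcendence degree `n + 1`:
a normalised discrete valuation, trivial on `k`, whose residue field has transcendence degree
at least `n` (hence equal to `n`) over `k`.  The value at `0` is put to `0`. -/
structure DivVal (k K : Type) [Field k] [Field K] [Algebra k K] (n : ℕ) where
  v : K → ℤ
  zero : v 0 = 0
  mul : ∀ a b, a ≠ 0 → b ≠ 0 → v (a * b) = v a + v b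
  add : ∀ a b, a ≠ 0 → b ≠ 0 → a + b ≠ 0 → min (v a) (v b) ≤ v (a + b)
  const : ∀ c : k, v (algebraMap k K c) = 0
  surj : ∃ a, a ≠ 0 ∧ v a = 1
  res : ∃ y : Fin n → K, ∀ f : MvPolynomial (Fin n) k, f ≠ 0 →
    MvPolynomial.aeval y f ≠ 0 ∧ v (MvPolynomial.aeval y f) = 0

/-- A b-divisor with real coefficients: it has a coefficient at every prime divisor over the
varieties with function field `K`.  An `ℝ`-Cartier divisor on one of them is identified with
the b-divisor of its pull-backs. -/
abbrev BDiv (k K : Type) [Field k] [Field K] [Algebra k K] (n : ℕ) : Type := DivVal k K n → ℝ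

/-- The principal b-divisors with real coefficients: linear combinations of the divisors of
rational functions. -/
def principal (k K : Type) [Field k] [Field K] [Algebra k K] (n : ℕ) :
    Submodule ℝ (BDiv k K n) :=
  Submodule.span ℝ (Set.range fun (f : K) (u : DivVal k K n) => (u.v f : ℝ))

/-- The order `m` of the rational form `db₀ ∧ … ∧ dbₙ` along `u`: the forms `da₀ ∧ … ∧ daₙ` with
all `aᵢ` in the valuation ring generate the module of regular forms over the valuation ring. -/
def IsOrd {k K : Type} [Field k] [Field K] [Algebra k K] {n : ℕ} (b : Fin (n + 1) → K)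
    (u : DivVal k K n) (m : ℤ) : Prop :=
  (∀ a J, (∀ i, 0 ≤ u.v (a i)) → IsJacobian k a b J → J ≠ 0 → -m ≤ u.v J) ∧
    ∃ a J, (∀ i, 0 ≤ u.v (a i)) ∧ IsJacobian k a b J ∧ J ≠ 0 ∧ u.v J = -m

namespace ProjVar

variable {k K : Type} [Field k] [Field K] [Algebra k K] {n : ℕ} (X Y : ProjVar k K)

/-- The hyperplane section `x o = 0`, as a b-divisor. -/
def hyp (X : ProjVar k K) (n : ℕ) : BDiv k K n := fun u => ⨆ i, (u.v (X.x X.o / X.x i) : ℝ)

/-- The inclusion of function fields defines a morphism `X → Y`. -/
def Dominates : Prop := ∀ P : X.Pt, ∃ Q : Y.Pt, MapsTo P Q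

/-- The b-divisor `D` is the pull-back of an ample `ℝ`-divisor on `X`: up to principal divisors it
is the sum of a positive multiple of the hyperplane section of `X` and of nonnegative multiples of
the pull-backs of hyperplane sections of projective varieties `Y j` under morphisms `X → Y j`. -/
def Ample (D : BDiv k K n) : Prop :=
  ∃ (c : ℝ) (m : ℕ) (d : Fin m → ℝ) (Y : Fin m → ProjVar k K), 0 < c ∧
    (∀ j, 0 ≤ d j ∧ X.Dominates (Y j)) ∧
    D - (c • X.hyp n + ∑ j, d j • (Y j).hyp n) ∈ principal k K n

/-- The b-divisor `D` is the pull-back of an `ℝ`-Cartier divisor on `X`. -/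
def RCartier (D : BDiv k K n) : Prop := ∃ t : ℝ, X.Ample (D + t • X.hyp n)

/-- The b-divisor `D` is the pull-back of a nef `ℝ`-divisor on `X`. -/
def Nef (D : BDiv k K n) : Prop := ∀ N : ℕ, X.Ample ((N : ℝ) • D + X.hyp n)

/-- The valuation `u` is that of a prime divisor on `X`: its valuation ring is the localization
at a prime ideal of the local ring of a closed point. -/
def IsPrimeDiv (u : DivVal k K n) : Prop :=
  ∃ P : X.Pt, (∀ z, RegularAt P z → 0 ≤ u.v z) ∧
    ∀ z, 0 ≤ u.v z → ∃ a b, RegularAt P a ∧ RegularAt P b ∧ b ≠ 0 ∧ u.v b = 0 ∧ z * b = a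

/-- The binary forms `c` of degree `e` parametrise a rational curve on `X`: they have no common
zero on the projective line, their values are points of `X`, and the resulting morphism is
not constant. -/
structure IsRatCurve (e : ℕ) (c : X.ι → MvPolynomial (Fin 2) k) : Prop where
  homog : ∀ i, (c i).IsHomogeneous e
  mem : ∀ s : Fin 2 → k, s ≠ 0 → ∃ P : X.Pt, ∀ i, P.p i = MvPolynomial.eval s (c i)
  nonconst : ∃ s s' i j, MvPolynomial.eval s (c i) * MvPolynomial.eval s' (c j) ≠
    MvPolynomial.eval s (c j) * MvPolynomial.eval s' (c i)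

variable {X} in
/-- The point `P` lies on the curve parametrised by the forms `c`. -/
def OnCurve (c : X.ι → MvPolynomial (Fin 2) k) (P : X.Pt) : Prop :=
  ∃ (s : Fin 2 → k) (r : k), ∀ i, P.p i = r * MvPolynomial.eval s (c i)

/-- There is a morphism `X → Z` which contracts precisely one irreducible curve: two points
of `X` have the same image if and only if they are equal or both lie on this curve. -/
def ContractsOneCurve (Z : ProjVar k K) : Prop :=
  X.Dominates Z ∧ ∃ e c, X.IsRatCurve e c ∧
    ∀ P P' : X.Pt, (∃ Q : Z.Pt, MapsTo P Q ∧ MapsTo P' Q) ↔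
      ((∃ r : k, ∀ i, P'.p i = r * P.p i) ∨ (OnCurve c P ∧ OnCurve c P'))

/-- Every `ℝ`-Cartier divisor on `X` is, up to principal divisors, the sum of a multiple of `L` and
of the pull-back of an `ℝ`-Cartier divisor on `Z`.  So the relative Picard number of `X` over `Z`
is at most one; it is one if a curve of nonzero degree on `L` is contracted. -/
def RelPicardOne (Z : ProjVar k K) (L : BDiv k K n) : Prop :=
  ∀ D : BDiv k K n, X.RCartier D → ∃ s : ℝ, Z.RCartier (D - s • L)

/-- The birational map `X ⇢ X'` of nonsingular projective varieties of dimension at least `3` is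
a flip for the `ℝ`-divisors `L` on `X` and `L'` on `X'`: there is a normal projective variety `Z`
such that both have birational morphisms to `Z` which contract precisely one irreducible curve,
with relative Picard number one, `-L` is ample relative to `Z` on `X`, and `L'` is ample relative
to `Z` on `X'`.  Here a divisor is ample relative to `Z` if it becomes ample after adding a
multiple of the pull-back of the hyperplane section of `Z`.  These conditions imply that the
contracted curve on `X` spans an extremal ray on which `L` is negative, with supporting class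
the pull-back of the hyperplane section of `Z`. -/
def IsFlip (X X' : ProjVar k K) (L L' : BDiv k K n) : Prop :=
  ∃ Z : ProjVar k K, Z.functionField = ⊤ ∧ Z.IsNormal ∧
    X.ContractsOneCurve Z ∧ X.RelPicardOne Z L ∧ (∃ t : ℝ, X.Ample (t • Z.hyp n - L)) ∧
    X'.ContractsOneCurve Z ∧ X'.RelPicardOne Z L' ∧ ∃ t : ℝ, X'.Ample (t • Z.hyp n + L')

end ProjVar

end Pool.Agent.Helper43
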