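import Pool.Agent.Helper43.FlPV0

open scoped KaehlerDifferential

noncomputable section

namespace Pool.Agent.Helper43.Fl

open Pool.Agent.Helper43 Pool.Agent.Helper43.ProjVar MvPolynomial

variable {K : Type} [Field K] [Algebra ℂ K]

/-- The value of a polynomial in functions with known values. -/
theorem place_aeval {H : K → ℂ → Prop} (hH : Place H) {m : ℕ} {par : Fin m → K}
    {c : Fin m → ℂ} (hc : ∀ q, H (par q) (c q)) (A : MvPolynomial (Fin m) ℂ) :
    H (aeval par A) (eval c A) := by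
  induction A using MvPolynomial.induction_on with
  | C a => simpa using hH.const a
  | add p q hp hq => rw [map_add, map_add]; exact hH.add hp hq
  | mul_X p n hp =>
    rw [map_mul, map_mul, aeval_X, eval_X]
    exact hH.mul hp (hc n)

theorem place_zero {H : K → ℂ → Prop} (hH : Place H) {c : ℂ} (h : H 0 c) : c = 0 := by
  have h0 : H 0 0 := by simpa using hH.const 0
  exact hH.uniq h h0

theorem gn_frac {H : K → ℂ → Prop} (hH : Place H) {m : ℕ} {par : Fin m → K} {c : Fin m → ℂ}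
    (hc : ∀ q, H (par q) (c q)) {z : K} (h : Gn H par z) :
    ∃ A B : MvPolynomial (Fin m) ℂ, eval c B ≠ 0 ∧ z * aeval par B = aeval par A := by
  refine h (fun z => ∃ A B : MvPolynomial (Fin m) ℂ, eval c B ≠ 0 ∧
    z * aeval par B = aeval par A) ⟨?_, ?_, ?_, ?_⟩ ?_
  · intro a
    exact ⟨C a, 1, by simp, by simp⟩
  · rintro z z' ⟨A, B, h0, h1⟩ ⟨A', B', h0', h1'⟩
    refine ⟨A * B' + A' * B, B * B', ?_, ?_⟩
    · rw [map_mul]
      exact mul_ne_zero h0 h0'
    · simp only [map_mul, map_add]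
      rw [← h1, ← h1']
      ring
  · rintro z z' ⟨A, B, h0, h1⟩ ⟨A', B', h0', h1'⟩
    refine ⟨A * A', B * B', ?_, ?_⟩
    · rw [map_mul]
      exact mul_ne_zero h0 h0'
    · simp only [map_mul]
      rw [← h1, ← h1']
      ring
  · rintro z a hza ha ⟨A, B, h0, h1⟩
    have hz : z ≠ 0 := by
      rintro rfl
      exact ha (place_zero hH hza)
    have h2 : H (aeval par A) (a * eval c B) := by
      rw [← h1]
      exact hH.mul hza (place_aeval hH hc B)
    have h3 : eval c A = a * eval c B := hH.uniq (place_aeval hH hc A) h2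
    refine ⟨B, A, ?_, ?_⟩
    · rw [h3]
      exact mul_ne_zero ha h0
    · rw [← h1]
      field_simp
  · intro q
    exact ⟨X q, 1, by simp, by simp⟩

/-- A polynomial vanishing at a point has a prime factor vanishing there. -/
theorem exists_prime_vanish {c : Fin 3 → ℂ} {A : MvPolynomial (Fin 3) ℂ} (hA : A ≠ 0)
    (h : eval c A = 0) : ∃ q, Prime q ∧ eval c q = 0 ∧ q ∣ A := by
  obtain ⟨f, hf, hfA⟩ := UniqueFactorizationMonoid.exists_prime_factors A hA
  obtain ⟨w, hw⟩ := hfA
  have h1 : eval c f.prod = 0 := by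
    have h2 : eval c f.prod * eval c (w : MvPolynomial (Fin 3) ℂ) = 0 := by
      rw [← map_mul, hw, h]
    rcases mul_eq_zero.mp h2 with h3 | h3
    · exact h3
    · exact absurd h3 (w.isUnit.map (eval c)).ne_zero
  rw [map_multiset_prod, Multiset.prod_eq_zero_iff, Multiset.mem_map] at h1
  obtain ⟨q, hq, hq0⟩ := h1
  exact ⟨q, hf q hq, hq0, (Multiset.dvd_prod hq).trans ⟨w, hw.symm⟩⟩

theorem isPV_dvd {p : Fin 3 → K} (hi : AlgebraicIndependent ℂ p)
    {q A : MvPolynomial (Fin 3) ℂ} {u : PV K} (hu : IsPV p q u) (hA : A ≠ 0) (hq : q ∣ A) :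
    0 < u.v (aeval p A) := by
  obtain ⟨A', rfl⟩ := hq
  have hne : ∀ B : MvPolynomial (Fin 3) ℂ, B ≠ 0 → aeval p B ≠ 0 := by
    intro B hB h0
    exact hB ((algebraicIndependent_iff.mp hi) B h0)
  rw [map_mul, u.mul _ _ (hne _ (left_ne_zero_of_mul hA)) (hne _ (right_ne_zero_of_mul hA)),
    hu.one]
  have := hu.nonneg A'
  omega

theorem isPV_not_dvd {p : Fin 3 → K} {q A : MvPolynomial (Fin 3) ℂ} {u : PV K}
    (hu : IsPV p q u) (hA : A ≠ 0) (hq : ¬ q ∣ A) : u.v (aeval p A) = 0 := by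
  have h1 := hu.nonneg A
  by_contra h2
  exact hq (hu.dvd A hA (lt_of_le_of_ne h1 (Ne.symm h2)))

/-- The criterion for units, given the valuations of all primes (module PV). -/
theorem unit_crit_of {H : K → ℂ → Prop} (hH : Place H) {par : Fin 3 → K} {c : Fin 3 → ℂ}
    (hpv : ∀ q : MvPolynomial (Fin 3) ℂ, Prime q → ∃ u : PV K, IsPV par q u)
    (hc : ∀ q, H (par q) (c q)) (hi : AlgebraicIndependent ℂ par)
    (ht : IntermediateField.adjoin ℂ (Set.range par) = ⊤) {F : K} (hF : F ≠ 0)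
    (h : ∀ q, Prime q → eval c q = 0 → ∀ u, IsPV par q u → u.v F = 0) :
    ∃ a, a ≠ 0 ∧ H F a := by
  have hne : ∀ B : MvPolynomial (Fin 3) ℂ, B ≠ 0 → aeval par B ≠ 0 := by
    intro B hB h0
    exact hB ((algebraicIndependent_iff.mp hi) B h0)
  have hF1 : F ∈ IntermediateField.adjoin ℂ (Set.range par) := by rw [ht]; trivial
  obtain ⟨R, S, hRS⟩ := (IntermediateField.mem_adjoin_range_iff ℂ par F).mp hF1
  have hS : S ≠ 0 := by
    rintro rfl
    rw [map_zero, div_zero] at hRS
    exact hF hRS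
  have hR : R ≠ 0 := by
    rintro rfl
    rw [map_zero, zero_div] at hRS
    exact hF hRS
  obtain ⟨A, B, G, hAB, hA, hB⟩ := UniqueFactorizationMonoid.exists_reduced_factors R hR S
  have hG : G ≠ 0 := by
    rintro rfl
    rw [zero_mul] at hA
    exact hR hA.symm
  have hA0 : A ≠ 0 := by
    rintro rfl
    rw [mul_zero] at hA
    exact hR hA.symm
  have hB0 : B ≠ 0 := by
    rintro rfl
    rw [mul_zero] at hB
    exact hS hB.symm
  have hFAB : F = aeval par A / aeval par B := by
    rw [hRS, ← hA, ← hB, map_mul, map_mul, mul_div_mul_left _ _ (hne G hG)]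
  have hmul : F * aeval par B = aeval par A := by
    rw [hFAB, div_mul_cancel₀ _ (hne B hB0)]
  -- values of the valuations
  have hv : ∀ u : PV K, u.v F + u.v (aeval par B) = u.v (aeval par A) := by
    intro u
    rw [← hmul, u.mul _ _ hF (hne B hB0)]
  have hAc : eval c A ≠ 0 := by
    intro h0
    obtain ⟨q, hq, hq0, hqA⟩ := exists_prime_vanish hA0 h0
    obtain ⟨u, hu⟩ := hpv q hq
    have h1 := isPV_dvd hi hu hA0 hqA
    have h2 := isPV_not_dvd hu hB0 fun hqB => hq.not_isUnit (hAB hqA hqB)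
    have h3 := hv u
    have h4 := h q hq hq0 u hu
    omega
  have hBc : eval c B ≠ 0 := by
    intro h0
    obtain ⟨q, hq, hq0, hqB⟩ := exists_prime_vanish hB0 h0
    obtain ⟨u, hu⟩ := hpv q hq
    have h1 := isPV_dvd hi hu hB0 hqB
    have h2 := isPV_not_dvd hu hA0 fun hqA => hq.not_isUnit (hAB hqA hqB)
    have h3 := hv u
    have h4 := h q hq hq0 u hu
    omega
  refine ⟨eval c A / eval c B, div_ne_zero hAc hBc, ?_⟩
  rw [hFAB, div_eq_mul_inv, div_eq_mul_inv]
  exact hH.mul (place_aeval hH hc A) (hH.inv (place_aeval hH hc B) hBc)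

end Pool.Agent.Helper43.Fl
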