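import Pool.Agent.Helper43.FlPV0

open scoped KaehlerDifferential

noncomputable section

namespace Pool.Agent.Helper43.Fl

open Pool.Agent.Helper43 Pool.Agent.Helper43.ProjVar MvPolynomial

variable {K : Type} [Field K] [Algebra ℂ K]

namespace PV

variable (u : PV K)

theorem one' : u.v 1 = 0 := by simpa using u.const 1

theorem add_nonneg' {a b : K} (ha : 0 ≤ u.v a) (hb : 0 ≤ u.v b) : 0 ≤ u.v (a + b) := by
  by_cases h1 : a = 0
  · simpa [h1] using hb
  by_cases h2 : b = 0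
  · simpa [h2] using ha
  by_cases h3 : a + b = 0
  · rw [h3, u.zero]
  have := u.add a b h1 h2 h3
  omega

theorem mul_nonneg' {a b : K} (ha : 0 ≤ u.v a) (hb : 0 ≤ u.v b) : 0 ≤ u.v (a * b) := by
  by_cases h1 : a = 0
  · simp [h1, u.zero]
  by_cases h2 : b = 0
  · simp [h2, u.zero]
  rw [u.mul _ _ h1 h2]
  omega

theorem pow' {a : K} (ha : a ≠ 0) (m : ℕ) : u.v (a ^ m) = m * u.v a := by
  induction m with
  | zero => simp [one']
  | succ m ih =>
    rw [pow_succ, u.mul _ _ (pow_ne_zero _ ha) ha, ih]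
    push_cast
    ring

theorem aeval_nonneg' {p : Fin 3 → K} (hpos : ∀ k, 0 ≤ u.v (p k))
    (f : MvPolynomial (Fin 3) ℂ) : 0 ≤ u.v (aeval p f) := by
  induction f using MvPolynomial.induction_on with
  | C a =>
    rw [aeval_C, u.const]
  | add f g hf hg =>
    rw [map_add]
    exact u.add_nonneg' hf hg
  | mul_X f i hf =>
    rw [map_mul, aeval_X]
    exact u.mul_nonneg' hf (hpos i)

end PV

/-- Polynomials in `p'` become polynomials in `p` after multiplication by a power of `h`. -/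
theorem clear_powers {p p' : Fin 3 → K} {h : MvPolynomial (Fin 3) ℂ}
    (hpar : ∀ k, ∃ (N : ℕ) (a : MvPolynomial (Fin 3) ℂ), p' k * aeval p h ^ N = aeval p a)
    (f : MvPolynomial (Fin 3) ℂ) : ∃ (N : ℕ) (a : MvPolynomial (Fin 3) ℂ),
      aeval p' f * aeval p h ^ N = aeval p a := by
  induction f using MvPolynomial.induction_on with
  | C a => exact ⟨0, MvPolynomial.C a, by simp⟩
  | add f g hf hg =>
    obtain ⟨N, a, hf⟩ := hf
    obtain ⟨M, b, hg⟩ := hg
    refine ⟨N + M, a * h ^ M + b * h ^ N, ?_⟩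
    rw [map_add, map_add, map_mul, map_mul, map_pow, map_pow, ← hf, ← hg]
    ring
  | mul_X f i hf =>
    obtain ⟨N, a, hf⟩ := hf
    obtain ⟨M, b, hi⟩ := hpar i
    refine ⟨N + M, a * b, ?_⟩
    rw [map_mul, map_mul, aeval_X, ← hf, ← hi]
    ring

/-- The elements of the valuation ring are fractions of polynomials in `p` with a unit as
denominator. -/
theorem frac_of_nonneg {p p' : Fin 3 → K} (hi' : AlgebraicIndependent ℂ p')
    (ht' : IntermediateField.adjoin ℂ (Set.range p') = ⊤)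
    {q : MvPolynomial (Fin 3) ℂ} (hq : Prime q) {u : PV K} (hu : IsPV p' q u)
    {h : MvPolynomial (Fin 3) ℂ} (hne : aeval p h ≠ 0) (hh : u.v (aeval p h) = 0)
    (hpar : ∀ k, ∃ (N : ℕ) (a : MvPolynomial (Fin 3) ℂ), p' k * aeval p h ^ N = aeval p a)
    {z : K} (hz : z ≠ 0) (hz0 : 0 ≤ u.v z) : ∃ s s' : MvPolynomial (Fin 3) ℂ,
      aeval p s' ≠ 0 ∧ u.v (aeval p s') = 0 ∧ z * aeval p s' = aeval p s := by
  have hmem : z ∈ IntermediateField.adjoin ℂ (Set.range p') := by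
    rw [ht']
    trivial
  obtain ⟨β₀, γ₀, hzβ⟩ := (IntermediateField.mem_adjoin_range_iff ℂ p' z).mp hmem
  have hγ₀ : γ₀ ≠ 0 := by
    intro h0
    rw [h0, map_zero, div_zero] at hzβ
    exact hz hzβ
  obtain ⟨β, γ, c, hcop, hcβ, hcγ⟩ := UniqueFactorizationMonoid.exists_reduced_factors' β₀ γ₀ hγ₀
  have hc : c ≠ 0 := by
    intro h0
    rw [h0, zero_mul] at hcγ
    exact hγ₀ hcγ.symm
  have hγ : γ ≠ 0 := by
    intro h0
    rw [h0, mul_zero] at hcγ
    exact hγ₀ hcγ.symm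
  have hinj : ∀ f : MvPolynomial (Fin 3) ℂ, f ≠ 0 → aeval p' f ≠ 0 := fun f hf h0 =>
    hf ((algebraicIndependent_iff.mp hi') f h0)
  have hzγ : z * aeval p' γ = aeval p' β := by
    rw [hzβ, ← hcβ, ← hcγ, map_mul, map_mul]
    have := hinj c hc
    have := hinj γ hγ
    field_simp
  have hβ : β ≠ 0 := by
    intro h0
    rw [h0, map_zero] at hzγ
    exact (mul_ne_zero hz (hinj γ hγ)) hzγ
  have hv := congrArg u.v hzγ
  rw [u.mul _ _ hz (hinj γ hγ)] at hv
  have hγ0 : u.v (aeval p' γ) = 0 := by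
    by_contra hne0
    have h1 : 0 < u.v (aeval p' γ) := lt_of_le_of_ne (hu.nonneg γ) (Ne.symm hne0)
    have h2 : 0 < u.v (aeval p' β) := by omega
    exact hq.not_isUnit (hcop (hu.dvd β hβ h2) (hu.dvd γ hγ h1))
  obtain ⟨N, a, ha⟩ := clear_powers hpar β
  obtain ⟨M, b, hb⟩ := clear_powers hpar γ
  have hpow : ∀ m : ℕ, aeval p h ^ m ≠ 0 := fun m => pow_ne_zero m hne
  have hvpow : ∀ m : ℕ, u.v (aeval p h ^ m) = 0 := fun m => by
    rw [u.pow' hne, hh, mul_zero]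
  have e1 : aeval p (b * h ^ N) = aeval p' γ * (aeval p h ^ M * aeval p h ^ N) := by
    rw [map_mul, ← hb, map_pow]
    ring
  refine ⟨a * h ^ M, b * h ^ N, ?_, ?_, ?_⟩
  · rw [e1]
    exact mul_ne_zero (hinj γ hγ) (mul_ne_zero (hpow _) (hpow _))
  · rw [e1, u.mul _ _ (hinj γ hγ) (mul_ne_zero (hpow _) (hpow _)),
      u.mul _ _ (hpow _) (hpow _), hvpow, hvpow, hγ0]
    rfl
  · rw [e1, ← mul_assoc, hzγ, map_mul, ← ha, map_pow]
    ring

/-- A polynomial of positive value has a prime factor of positive value. -/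
theorem exists_prime_pos {p : Fin 3 → K} (hi : AlgebraicIndependent ℂ p) {u : PV K}
    (S : MvPolynomial (Fin 3) ℂ) : S ≠ 0 → 0 < u.v (aeval p S) →
      ∃ π, Prime π ∧ π ∣ S ∧ 0 < u.v (aeval p π) := by
  have hinj : ∀ f : MvPolynomial (Fin 3) ℂ, f ≠ 0 → aeval p f ≠ 0 := fun f hf h0 =>
    hf ((algebraicIndependent_iff.mp hi) f h0)
  induction S using UniqueFactorizationMonoid.induction_on_prime with
  | h₁ => exact fun h => absurd rfl h
  | h₂ x hx =>
    intro _ h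
    obtain ⟨c, hc, rfl⟩ := MvPolynomial.isUnit_iff_eq_C_of_isReduced.mp hx
    rw [aeval_C, u.const] at h
    exact absurd h (lt_irrefl 0)
  | h₃ a π ha hπ ih =>
    intro h1 h2
    by_cases h3 : 0 < u.v (aeval p π)
    · exact ⟨π, hπ, dvd_mul_right π a, h3⟩
    · rw [map_mul, u.mul _ _ (hinj π hπ.ne_zero) (hinj a ha)] at h2
      obtain ⟨π', h4, h5, h6⟩ := ih ha (by omega)
      exact ⟨π', h4, h5.trans (dvd_mul_left a π), h6⟩

theorem height_one {p p' : Fin 3 → K} (hi : AlgebraicIndependent ℂ p)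
    (hi' : AlgebraicIndependent ℂ p') (ht' : IntermediateField.adjoin ℂ (Set.range p') = ⊤)
    {q : MvPolynomial (Fin 3) ℂ} (hq : Prime q) {u : PV K} (hu : IsPV p' q u)
    (hpos : ∀ k, 0 ≤ u.v (p k)) {h : MvPolynomial (Fin 3) ℂ} (h0 : h ≠ 0)
    (hh : u.v (aeval p h) = 0)
    (hpar : ∀ k, ∃ (N : ℕ) (a : MvPolynomial (Fin 3) ℂ), p' k * aeval p h ^ N = aeval p a)
    {ι : Type} [Finite ι] (f : ι → MvPolynomial (Fin 3) ℂ)
    (hf : ∀ i, f i = 0 ∨ 0 < u.v (aeval p (f i))) : ∃ π, Prime π ∧ ∀ i, π ∣ f i := by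
  have hinj : ∀ f : MvPolynomial (Fin 3) ℂ, f ≠ 0 → aeval p f ≠ 0 := fun f hf h0 =>
    hf ((algebraicIndependent_iff.mp hi) f h0)
  have hinj' : ∀ f : MvPolynomial (Fin 3) ℂ, f ≠ 0 → aeval p' f ≠ 0 := fun f hf h0 =>
    hf ((algebraicIndependent_iff.mp hi') f h0)
  have key := fun {z : K} (hz : z ≠ 0) (hz0 : 0 ≤ u.v z) =>
    frac_of_nonneg (p := p) hi' ht' hq hu (hinj h h0) hh hpar hz hz0
  obtain ⟨s, s', hs'0, hs'v, hs⟩ := key (hinj' q hq.ne_zero) (by rw [hu.one]; norm_num)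
  have hsv : u.v (aeval p s) = 1 := by
    rw [← hs, u.mul _ _ (hinj' q hq.ne_zero) hs'0, hs'v, hu.one]
    rfl
  have hs0 : s ≠ 0 := by
    rintro rfl
    rw [map_zero, u.zero] at hsv
    exact absurd hsv (by norm_num)
  obtain ⟨π, hπ, ⟨t, ht⟩, hπv⟩ := exists_prime_pos hi (u := u) s hs0 (by omega)
  have ht0 : t ≠ 0 := by
    rintro rfl
    rw [mul_zero] at ht
    exact hs0 ht
  have hπ1 : u.v (aeval p π) = 1 := by
    have h1 := u.aeval_nonneg' hpos t
    rw [ht, map_mul, u.mul _ _ (hinj π hπ.ne_zero) (hinj t ht0)] at hsv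
    omega
  refine ⟨π, hπ, fun i => ?_⟩
  rcases hf i with h1 | h1
  · rw [h1]
    exact dvd_zero π
  by_cases h2 : f i = 0
  · rw [h2]
    exact dvd_zero π
  have hfi := hinj _ h2
  have hπ0 := hinj π hπ.ne_zero
  have hz : aeval p (f i) * (aeval p π)⁻¹ ≠ 0 := mul_ne_zero hfi (inv_ne_zero hπ0)
  have hz1 : u.v (aeval p (f i) * (aeval p π)⁻¹) = u.v (aeval p (f i)) - 1 := by
    have h3 := u.mul _ _ hπ0 (inv_ne_zero hπ0)
    rw [mul_inv_cancel₀ hπ0, u.one'] at h3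
    rw [u.mul _ _ hfi (inv_ne_zero hπ0)]
    omega
  obtain ⟨a, b, hb0, hbv, hab⟩ := key hz (by omega)
  have h3 : f i * b = π * a := by
    have h4 : aeval p (f i * b) = aeval p (π * a) := by
      rw [map_mul, map_mul, ← hab]
      field_simp
    exact hi h4
  have h5 : π ∣ f i * b := ⟨a, h3⟩
  rcases hπ.dvd_or_dvd h5 with h6 | ⟨c, hc⟩
  · exact h6
  · exfalso
    have hc0 : c ≠ 0 := by
      rintro rfl
      rw [mul_zero] at hc
      rw [hc, map_zero] at hb0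
      exact hb0 rfl
    have h7 := u.aeval_nonneg' hpos c
    rw [hc, map_mul, u.mul _ _ hπ0 (hinj c hc0), hπ1] at hbv
    omega

end Pool.Agent.Helper43.Fl
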