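import Pool.Agent.Helper43.FlOrd

open scoped KaehlerDifferential

noncomputable section

namespace Pool.Agent.Helper43.Fl

open Pool.Agent.Helper43 Pool.Agent.Helper43.ProjVar

section Horner

open Polynomial in
/-- The leading coefficient times a root is integral. -/
theorem integral_lead {A K : Type} [CommRing A] [Field K] [Algebra A K] {a : K} (N : ℕ)
    (q : ℕ → K) (hq : ∀ i, IsIntegral A (q i))
    (h0 : ∑ i ∈ Finset.range (N + 1), q i * a ^ i = 0) : IsIntegral A (q N * a) := by
  by_cases hc : q N = 0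
  · rw [hc, zero_mul]
    exact isIntegral_zero
  let c : ℕ → integralClosure A K := fun i => ⟨q i, hq i⟩
  let p : (integralClosure A K)[X] := ∑ i ∈ Finset.range (N + 1), C (c i) * X ^ i
  have hcN : c N ≠ 0 := fun h => hc (congrArg Subtype.val h)
  have hcoeff : ∀ j, p.coeff j = if j < N + 1 then c j else 0 := by
    intro j
    simp only [p, finsetSum_coeff, coeff_C_mul, coeff_X_pow, mul_ite, mul_one, mul_zero]
    rw [Finset.sum_ite_eq]
    simp only [Finset.mem_range]
  have hdeg : p.natDegree = N := by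
    apply natDegree_eq_of_le_of_coeff_ne_zero
    · rw [natDegree_le_iff_coeff_eq_zero]
      intro j hj
      rw [hcoeff, if_neg (by omega)]
    · rw [hcoeff, if_pos (by omega)]
      exact hcN
  have hlead : p.leadingCoeff = c N := by
    rw [leadingCoeff, hdeg, hcoeff, if_pos (by omega)]
  have hp : aeval a p = 0 := by
    simp only [p, map_sum, map_mul, map_pow, aeval_X, aeval_C]
    exact h0
  have h1 := isIntegral_leadingCoeff_smul (R := integralClosure A K) p a hp
  rw [hlead] at h1
  have h2 := isIntegral_trans (R := A) _ h1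
  exact h2

variable {k K : Type} [Field k] [Field K] [Algebra k K] {n : ℕ} (u : DivVal k K n)

theorem unit_add' {x y : K} (hx : x ≠ 0) (hv : u.v x = 0) (hy : y = 0 ∨ 0 < u.v y) :
    x + y ≠ 0 ∧ u.v (x + y) = 0 := by
  rcases hy with hy | hy
  · rw [hy, add_zero]
    exact ⟨hx, hv⟩
  by_cases h0 : y = 0
  · rw [h0, add_zero]
    exact ⟨hx, hv⟩
  have h1 : x + y ≠ 0 := by
    intro h
    have h2 : x = -y := by linear_combination h
    rw [h2, v_neg] at hv
    omega
  refine ⟨h1, ?_⟩
  have h2 := T3_of_add u (a := x) (b := y) (c := -(x + y)) hx h0 (neg_ne_zero.mpr h1) (by ring)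
  rw [v_neg] at h2
  unfold T3 at h2
  omega

/-- An element of the valuation ring which satisfies a primitive equation is a quotient of
integral elements, the denominator being a unit of the valuation ring. -/
theorem frac_of_dep {A : Type} [CommRing A] [Algebra A K] {a : K} (ha : 0 ≤ u.v a) (N : ℕ) :
    ∀ (q : ℕ → K), (∀ i, IsIntegral A (q i)) → (∀ i, 0 ≤ u.v (q i)) →
      (∃ i ≤ N, q i ≠ 0 ∧ u.v (q i) = 0) → ∑ i ∈ Finset.range (N + 1), q i * a ^ i = 0 →
      ∃ s t, IsIntegral A s ∧ IsIntegral A t ∧ t ≠ 0 ∧ u.v t = 0 ∧ a * t = s := by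
  induction N with
  | zero =>
    rintro q hq hv ⟨i, hi, h1, h2⟩ h0
    obtain rfl : i = 0 := by omega
    simp at h0
    exact absurd h0 h1
  | succ N ih =>
    rintro q hq hv ⟨i, hi, h1, h2⟩ h0
    have hint := integral_lead (N + 1) q hq h0
    by_cases hc : q (N + 1) ≠ 0 ∧ u.v (q (N + 1)) = 0
    · exact ⟨q (N + 1) * a, q (N + 1), hint, hq _, hc.1, hc.2, mul_comm _ _⟩
    have hpos : q (N + 1) * a = 0 ∨ 0 < u.v (q (N + 1) * a) := by
      by_cases h3 : q (N + 1) = 0
      · left
        rw [h3, zero_mul]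
      by_cases h4 : a = 0
      · left
        rw [h4, mul_zero]
      right
      rw [u.mul _ _ h3 h4]
      have h5 := hv (N + 1)
      have h6 : u.v (q (N + 1)) ≠ 0 := fun h => hc ⟨h3, h⟩
      omega
    have hi' : i ≤ N := by
      rcases Nat.lt_or_ge N i with h | h
      · exfalso
        have : i = N + 1 := by omega
        subst this
        exact hc ⟨h1, h2⟩
      · exact h
    refine ih (fun j => if j = N then q N + q (N + 1) * a else q j) ?_ ?_ ?_ ?_
    · intro j
      split_ifs
      · exact (hq N).add hint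
      · exact hq j
    · intro j
      split_ifs
      · refine val_add u (hv N) ?_
        exact val_mul u (hv _) ha
      · exact hv j
    · refine ⟨i, hi', ?_⟩
      split_ifs with h
      · rw [h] at h1 h2
        exact unit_add' u h1 h2 hpos
      · exact ⟨h1, h2⟩
    · rw [Finset.sum_range_succ]
      rw [Finset.sum_range_succ, Finset.sum_range_succ] at h0
      have h3 : ∑ j ∈ Finset.range N, (if j = N then q N + q (N + 1) * a else q j) * a ^ j =
          ∑ j ∈ Finset.range N, q j * a ^ j := by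
        refine Finset.sum_congr rfl fun j hj => ?_
        rw [if_neg (by have := Finset.mem_range.mp hj; omega)]
      rw [h3, if_pos rfl]
      linear_combination h0

/-- An algebraic element satisfies a primitive equation. -/
theorem exists_prim {A : Subalgebra k K} {π : K} (hπ : π ≠ 0) (hπ1 : u.v π = 1)
    (hA : ∀ c ∈ A, 0 ≤ u.v c)
    (hdiv : ∀ c ∈ A, (c = 0 ∨ 0 < u.v c) → ∃ c' ∈ A, c = π * c') {a : K}
    (h : IsAlgebraic A a) :
    ∃ (N : ℕ) (q : ℕ → K), (∀ i, q i ∈ A) ∧ (∃ i ≤ N, q i ≠ 0 ∧ u.v (q i) = 0) ∧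
      ∑ i ∈ Finset.range (N + 1), q i * a ^ i = 0 := by
  obtain ⟨p, hp, hpa⟩ := h
  refine ⟨p.natDegree, ?_⟩
  have key : ∀ e : ℕ, ∀ q : ℕ → K, (∀ i, q i ∈ A) →
      (∃ i ≤ p.natDegree, q i ≠ 0 ∧ u.v (q i) = e) →
      ∑ i ∈ Finset.range (p.natDegree + 1), q i * a ^ i = 0 →
      ∃ q : ℕ → K, (∀ i, q i ∈ A) ∧ (∃ i ≤ p.natDegree, q i ≠ 0 ∧ u.v (q i) = 0) ∧
        ∑ i ∈ Finset.range (p.natDegree + 1), q i * a ^ i = 0 := by
    intro e
    induction e with
    | zero =>
      rintro q hq ⟨i, hi, h1, h2⟩ h0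
      exact ⟨q, hq, ⟨i, hi, h1, by simpa using h2⟩, h0⟩
    | succ e ih =>
      rintro q hq ⟨i, hi, h1, h2⟩ h0
      by_cases hall : ∀ j ≤ p.natDegree, q j = 0 ∨ 0 < u.v (q j)
      · have h3 : ∀ j, ∃ c' ∈ A, j ≤ p.natDegree → q j = π * c' := by
          intro j
          by_cases hj : j ≤ p.natDegree
          · obtain ⟨c', hc', h4⟩ := hdiv (q j) (hq j) (hall j hj)
            exact ⟨c', hc', fun _ => h4⟩
          · exact ⟨0, A.zero_mem, fun h => absurd h hj⟩
        choose q' hq' hqq using h3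
        refine ih q' hq' ⟨i, hi, ?_, ?_⟩ ?_
        · intro h4
          rw [hqq i hi, h4, mul_zero] at h1
          exact h1 rfl
        · have h4 : q' i ≠ 0 := by
            intro h4
            rw [hqq i hi, h4, mul_zero] at h1
            exact h1 rfl
          rw [hqq i hi, u.mul _ _ hπ h4, hπ1] at h2
          push_cast at h2
          omega
        · have h5 : ∑ j ∈ Finset.range (p.natDegree + 1), q j * a ^ j =
              π * ∑ j ∈ Finset.range (p.natDegree + 1), q' j * a ^ j := by
            rw [Finset.mul_sum]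
            refine Finset.sum_congr rfl fun j hj => ?_
            rw [hqq j (by have := Finset.mem_range.mp hj; omega)]
            ring
          rw [h5] at h0
          exact (mul_eq_zero.mp h0).resolve_left hπ
      · push Not at hall
        obtain ⟨j, hj, h3, h4⟩ := hall
        refine ⟨q, hq, ⟨j, hj, h3, ?_⟩, h0⟩
        have := hA _ (hq j)
        omega
  refine key (u.v (p.leadingCoeff : K)).toNat (fun i => (p.coeff i : K)) (fun i => (p.coeff i).2)
    ⟨p.natDegree, le_rfl, ?_, ?_⟩ ?_
  · intro h1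
    apply hp
    rw [← Polynomial.leadingCoeff_eq_zero]
    exact Subtype.ext h1
  · have h1 := hA _ p.leadingCoeff.2
    change u.v (p.leadingCoeff : K) = _
    omega
  · rw [Polynomial.aeval_eq_sum_range] at hpa
    rw [← hpa]
    refine Finset.sum_congr rfl fun i _ => ?_
    rw [Algebra.smul_def]
    rfl

end Horner

section Par

open MvPolynomial in
/-- Division of a polynomial by the first variable. -/
theorem split_var {k : Type} [Field k] {n : ℕ} (f : MvPolynomial (Fin (n + 1)) k) :
    ∃ (f₀ : MvPolynomial (Fin n) k) (f₁ : MvPolynomial (Fin (n + 1)) k),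
      f = rename Fin.succ f₀ + X 0 * f₁ := by
  induction f using MvPolynomial.induction_on with
  | C a => exact ⟨C a, 0, by simp⟩
  | add f g hf hg =>
    obtain ⟨f₀, f₁, hf⟩ := hf
    obtain ⟨g₀, g₁, hg⟩ := hg
    refine ⟨f₀ + g₀, f₁ + g₁, ?_⟩
    rw [map_add, hf, hg]
    ring
  | mul_X f i hf =>
    refine Fin.cases ⟨0, f, ?_⟩ (fun i => ?_) i
    · rw [map_zero, zero_add, mul_comm]
    · obtain ⟨f₀, f₁, hf⟩ := hf
      refine ⟨f₀ * X i, f₁ * X i.succ, ?_⟩
      rw [map_mul, rename_X, hf]
      ring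

variable {k K : Type} [Field k] [Field K] [Algebra k K] {n : ℕ} {u : DivVal k K n}
  {π : K} {y : Fin n → K}

/-- A uniformiser and elements with algebraically independent residues. -/
structure IsPar (u : DivVal k K n) (π : K) (y : Fin n → K) : Prop where
  ne : π ≠ 0
  one : u.v π = 1
  res : ∀ f : MvPolynomial (Fin n) k, f ≠ 0 →
    MvPolynomial.aeval y f ≠ 0 ∧ u.v (MvPolynomial.aeval y f) = 0

/-- The parameters. -/
def pg (π : K) (y : Fin n → K) : Fin (n + 1) → K := Fin.cons π y

namespace IsPar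

variable (h : IsPar u π y)
include h

theorem y_val (i : Fin n) : u.v (y i) = 0 := by
  have := (h.res (MvPolynomial.X i) (MvPolynomial.X_ne_zero i)).2
  simpa using this

theorem g_val (i : Fin (n + 1)) : 0 ≤ u.v (pg π y i) := by
  refine Fin.cases ?_ (fun i => ?_) i
  · change 0 ≤ u.v π
    rw [h.one]
    norm_num
  · change 0 ≤ u.v (y i)
    rw [h.y_val]

theorem val_nonneg {c : K} (hc : c ∈ Algebra.adjoin k (Set.range (pg π y))) : 0 ≤ u.v c := by
  induction hc using Algebra.adjoin_induction with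
  | mem c hc =>
    obtain ⟨i, rfl⟩ := hc
    exact h.g_val i
  | algebraMap c => rw [u.const]
  | add a b _ _ ha hb => exact val_add u ha hb
  | mul a b _ _ ha hb => exact val_mul u ha hb

omit h in
theorem split (f : MvPolynomial (Fin (n + 1)) k) :
    ∃ (f₀ : MvPolynomial (Fin n) k) (f₁ : MvPolynomial (Fin (n + 1)) k),
      f = MvPolynomial.rename Fin.succ f₀ + MvPolynomial.X 0 * f₁ ∧
      MvPolynomial.aeval (pg π y) f = MvPolynomial.aeval y f₀ +
        π * MvPolynomial.aeval (pg π y) f₁ := by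
  obtain ⟨f₀, f₁, hf⟩ := split_var f
  refine ⟨f₀, f₁, hf, ?_⟩
  conv_lhs => rw [hf]
  rw [map_add, map_mul, MvPolynomial.aeval_X, MvPolynomial.aeval_rename]
  rfl

theorem aeval_nonneg (f : MvPolynomial (Fin (n + 1)) k) :
    0 ≤ u.v (MvPolynomial.aeval (pg π y) f) := by
  refine h.val_nonneg ?_
  rw [Algebra.adjoin_range_eq_range_aeval]
  exact ⟨f, rfl⟩

theorem unit_of {f : MvPolynomial (Fin (n + 1)) k} {f₀ : MvPolynomial (Fin n) k}
    {f₁ : MvPolynomial (Fin (n + 1)) k}
    (hf : MvPolynomial.aeval (pg π y) f = MvPolynomial.aeval y f₀ +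
        π * MvPolynomial.aeval (pg π y) f₁) (h0 : f₀ ≠ 0) :
    MvPolynomial.aeval (pg π y) f ≠ 0 ∧ u.v (MvPolynomial.aeval (pg π y) f) = 0 := by
  rw [hf]
  obtain ⟨h1, h2⟩ := h.res f₀ h0
  refine unit_add' u h1 h2 ?_
  by_cases h3 : MvPolynomial.aeval (pg π y) f₁ = 0
  · left
    rw [h3, mul_zero]
  · right
    rw [u.mul _ _ h.ne h3, h.one]
    have := h.aeval_nonneg f₁
    omega

theorem dvd {c : K} (hc : c ∈ Algebra.adjoin k (Set.range (pg π y)))
    (h0 : c = 0 ∨ 0 < u.v c) : ∃ c' ∈ Algebra.adjoin k (Set.range (pg π y)), c = π * c' := by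
  rw [Algebra.adjoin_range_eq_range_aeval] at hc
  obtain ⟨f, rfl⟩ := hc
  obtain ⟨f₀, f₁, -, hf⟩ := split (π := π) (y := y) f
  by_cases h1 : f₀ = 0
  · refine ⟨MvPolynomial.aeval (pg π y) f₁, ?_, ?_⟩
    · rw [Algebra.adjoin_range_eq_range_aeval]
      exact ⟨f₁, rfl⟩
    · change MvPolynomial.aeval (pg π y) f = _
      rw [hf, h1, map_zero, zero_add]
  · exfalso
    obtain ⟨h2, h3⟩ := h.unit_of hf h1
    rcases h0 with h0 | h0
    · exact h2 h0
    · change 0 < u.v (MvPolynomial.aeval (pg π y) f) at h0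
      omega

theorem ind : AlgebraicIndependent k (pg π y) := by
  rw [algebraicIndependent_iff]
  have key : ∀ (d : ℕ) (f : MvPolynomial (Fin (n + 1)) k), f.totalDegree ≤ d →
      MvPolynomial.aeval (pg π y) f = 0 → f = 0 := by
    intro d
    induction d with
    | zero =>
      intro f hd h0
      rw [MvPolynomial.totalDegree_eq_zero_iff_eq_C.mp (Nat.le_zero.mp hd)] at h0 ⊢
      rw [MvPolynomial.aeval_C] at h0
      have := (map_eq_zero (algebraMap k K)).mp h0
      rw [this, map_zero]
    | succ d ih =>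
      intro f hd h0
      obtain ⟨f₀, f₁, h1, hf⟩ := split (π := π) (y := y) f
      by_cases h2 : f₀ = 0
      · rw [h2, map_zero, zero_add] at hf h1
        rw [h0] at hf
        have h3 := (mul_eq_zero.mp hf.symm).resolve_left h.ne
        by_cases h4 : f₁ = 0
        · rw [h1, h4, mul_zero]
        · have h5 : f.totalDegree = (MvPolynomial.X 0 : MvPolynomial (Fin (n + 1)) k).totalDegree +
              f₁.totalDegree := by
            rw [h1]
            exact MvPolynomial.totalDegree_mul_of_isDomain (MvPolynomial.X_ne_zero 0) h4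
          rw [MvPolynomial.totalDegree_X] at h5
          exact absurd (ih f₁ (by omega) h3) h4
      · exact absurd h0 (h.unit_of hf h2).1
  exact fun f h0 => key _ f le_rfl h0

end IsPar

end Par

section Grad

variable {K : Type} [Field K] [Algebra ℂ K] (u : DivVal ℂ K 2)

theorem Vge.mono {n m : ℤ} {z : K} (h : Vge u n z) (hm : m ≤ n) : Vge u m z :=
  h.imp id fun h => hm.trans h

theorem Vge.neg {n : ℤ} {z : K} (h : Vge u n z) : Vge u n (-z) := by
  rcases h with h | h
  · left
    rw [h, neg_zero]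
  · right
    rwa [v_neg]

theorem Vge.sub {n : ℤ} {z z' : K} (h : Vge u n z) (h' : Vge u n z') : Vge u n (z - z') := by
  rw [sub_eq_add_neg]
  exact h.add u (h'.neg u)

theorem Vge.sum {ι : Type*} (s : Finset ι) {n : ℤ} {z : ι → K} (h : ∀ i ∈ s, Vge u n (z i)) :
    Vge u n (∑ i ∈ s, z i) := by
  classical
  induction s using Finset.induction_on with
  | empty => exact Or.inl rfl
  | insert i s hi ih =>
    rw [Finset.sum_insert hi]
    exact (h i (Finset.mem_insert_self _ _)).add u
      (ih fun j hj => h j (Finset.mem_insert_of_mem hj))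

theorem exists_Vge {ι : Type*} [Finite ι] (z : ι → K) : ∃ B : ℤ, ∀ i, Vge u B (z i) := by
  obtain ⟨B, hB⟩ := (Set.finite_range fun i => u.v (z i)).bddBelow
  exact ⟨B, fun i => Or.inr (hB ⟨i, rfl⟩)⟩

variable {b : Fin 3 → K} (hb : IsDiffBasis ℂ b)

theorem grad_add (f g : K) (j : Fin 3) : grad hb (f + g) j = grad hb f j + grad hb g j := by
  simp [grad]

theorem grad_algebraMap (c : ℂ) (j : Fin 3) : grad hb (algebraMap ℂ K c) j = 0 := by
  simp [grad]

theorem grad_fsum {ι : Type*} (s : Finset ι) (f : ι → K) (j : Fin 3) :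
    grad hb (∑ i ∈ s, f i) j = ∑ i ∈ s, grad hb (f i) j := by
  simp [grad]

end Grad

namespace Cfg

variable {K : Type} [Field K] [Algebra ℂ K] (C : Cfg K) (u : DivVal ℂ K 2)

open IntermediateField.algebraAdjoinAdjoin in
include C in
/-- The integral closure of the ring of parameters is finite. -/
theorem finite_closure {π : K} {y : Fin 2 → K} (h : IsPar u π y) :
    Algebra.IsAlgebraic (Algebra.adjoin ℂ (Set.range (pg π y))) K ∧
      Module.Finite (Algebra.adjoin ℂ (Set.range (pg π y)))
        (integralClosure (Algebra.adjoin ℂ (Set.range (pg π y))) K) := by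
  have hind := h.ind
  have htb : IsTranscendenceBasis ℂ (pg π y) :=
    hind.isTranscendenceBasis_of_trdeg_le_of_finite (by rw [C.trdeg_eq]; simp)
  have halg : Algebra.IsAlgebraic (Algebra.adjoin ℂ (Set.range (pg π y))) K := htb.isAlgebraic
  refine ⟨halg, ?_⟩
  have halgL : Algebra.IsAlgebraic (IntermediateField.adjoin ℂ (Set.range (pg π y))) K :=
    IntermediateField.isAlgebraic_adjoin_iff_top.mpr halg
  have hfin : FiniteDimensional (IntermediateField.adjoin ℂ (Set.range (pg π y))) K := by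
    have h1 := IntermediateField.finiteDimensional_adjoin
      (K := IntermediateField.adjoin ℂ (Set.range (pg π y))) (S := ({C.x, C.y, C.w} : Set K))
      (fun x _ => (halgL.isAlgebraic x).isIntegral)
    have h2 : IntermediateField.adjoin (IntermediateField.adjoin ℂ (Set.range (pg π y)))
        ({C.x, C.y, C.w} : Set K) = ⊤ := by
      rw [eq_top_iff]
      intro z _
      have h3 : IntermediateField.adjoin ℂ ({C.x, C.y, C.w} : Set K) ≤
          (IntermediateField.adjoin (IntermediateField.adjoin ℂ (Set.range (pg π y)))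
            ({C.x, C.y, C.w} : Set K)).restrictScalars ℂ := by
        rw [IntermediateField.adjoin_le_iff]
        exact IntermediateField.subset_adjoin _ _
      rw [C.top] at h3
      exact h3 (by trivial)
    rw [h2] at h1
    exact Module.Finite.equiv IntermediateField.topEquiv.toLinearEquiv
  have hic : IsIntegrallyClosed (Algebra.adjoin ℂ (Set.range (pg π y))) :=
    IsIntegrallyClosed.of_equiv hind.aevalEquiv.toRingEquiv
  have hno : IsNoetherianRing (Algebra.adjoin ℂ (Set.range (pg π y))) :=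
    isNoetherianRing_of_ringEquiv _ hind.aevalEquiv.toRingEquiv
  exact IsIntegralClosure.finite _ (IntermediateField.adjoin ℂ (Set.range (pg π y))) K _

/-- The derivatives of elements of the valuation ring have bounded poles. -/
theorem bounded_grad : ∃ B : ℤ, ∀ a : K, 0 ≤ u.v a → ∀ j, Vge u B (grad C.basis a j) := by
  obtain ⟨π, hπ, hπ1⟩ := u.surj
  obtain ⟨y, hy⟩ := u.res
  have h : IsPar u π y := ⟨hπ, hπ1, hy⟩
  obtain ⟨halg, hfin⟩ := C.finite_closure u h
  obtain ⟨B₀, hB₀⟩ := exists_Vge u (fun p : Fin 3 × Fin 3 => grad C.basis (pg π y p.1) p.2)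
  have hA : ∀ z ∈ Algebra.adjoin ℂ (Set.range (pg π y)), ∀ j, Vge u B₀ (grad C.basis z j) := by
    intro z hz
    induction hz using Algebra.adjoin_induction with
    | mem c hc =>
      obtain ⟨i, rfl⟩ := hc
      exact fun j => hB₀ (i, j)
    | algebraMap c =>
      intro j
      left
      exact grad_algebraMap _ _ _
    | add a b _ _ ha hb =>
      intro j
      rw [grad_add]
      exact (ha j).add u (hb j)
    | mul a b ha' hb' ha hb =>
      intro j
      rw [grad_mul]
      have e1 := Vge.mul u (Or.inr (h.val_nonneg ha') : Vge u 0 a) (hb j)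
      have e2 := Vge.mul u (Or.inr (h.val_nonneg hb') : Vge u 0 b) (ha j)
      rw [zero_add] at e1 e2
      exact e1.add u e2
  obtain ⟨r, e, he⟩ := Module.Finite.exists_fin
    (R := Algebra.adjoin ℂ (Set.range (pg π y)))
    (M := integralClosure (Algebra.adjoin ℂ (Set.range (pg π y))) K)
  obtain ⟨B₁, hB₁⟩ := exists_Vge u (fun i => ((e i : integralClosure _ K) : K))
  obtain ⟨B₂, hB₂⟩ := exists_Vge u
    (fun p : Fin r × Fin 3 => grad C.basis ((e p.1 : integralClosure _ K) : K) p.2)
  have hint : ∀ s : K, IsIntegral (Algebra.adjoin ℂ (Set.range (pg π y))) s →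
      ∀ j, Vge u (min (B₁ + B₀) B₂) (grad C.basis s j) := by
    intro s hs j
    have h1 : (⟨s, hs⟩ : integralClosure (Algebra.adjoin ℂ (Set.range (pg π y))) K) ∈
        Submodule.span (Algebra.adjoin ℂ (Set.range (pg π y))) (Set.range e) := by
      rw [he]
      trivial
    obtain ⟨c, hc⟩ := (Submodule.mem_span_range_iff_exists_fun _).mp h1
    have h2 : s = ∑ i, (c i : K) * ((e i : integralClosure _ K) : K) := by
      have h3 := congrArg (Subtype.val) hc
      rw [AddSubmonoidClass.coe_finsetSum] at h3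
      exact h3.symm
    rw [h2, grad_fsum]
    refine Vge.sum u _ fun i _ => ?_
    rw [grad_mul]
    have e1 := Vge.mul u (Or.inr (h.val_nonneg (c i).2) : Vge u 0 (c i : K)) (hB₂ (i, j))
    have e2 := Vge.mul u (hB₁ i) (hA _ (c i).2 j)
    rw [zero_add] at e1
    exact (e1.mono u (min_le_right _ _)).add u (e2.mono u (min_le_left _ _))
  refine ⟨min (B₁ + B₀) B₂, fun a ha j => ?_⟩
  obtain ⟨N, q, hq, hu, h0⟩ := exists_prim u hπ hπ1 (fun c hc => h.val_nonneg hc)
    (fun c hc h0 => h.dvd hc h0) (halg.isAlgebraic a)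
  obtain ⟨s, t, hs, ht, ht0, htv, hst⟩ := frac_of_dep u
    (A := Algebra.adjoin ℂ (Set.range (pg π y))) ha N q
    (fun i => isIntegral_algebraMap (x := (⟨q i, hq i⟩ :
      Algebra.adjoin ℂ (Set.range (pg π y))))) (fun i => h.val_nonneg (hq i)) hu h0
  have h1 := congrArg (fun z => grad C.basis z j) hst
  simp only [grad_mul] at h1
  have h2 : grad C.basis a j = t⁻¹ * (grad C.basis s j - a * grad C.basis t j) := by
    rw [← h1]
    field_simp
    ring
  rw [h2]
  have e1 := Vge.mul u (Or.inr ha : Vge u 0 a) (hint t ht j)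
  rw [zero_add] at e1
  have e2 := Vge.mul u (Or.inr (by rw [v_inv, htv, neg_zero]) : Vge u 0 t⁻¹)
    ((hint s hs j).sub u e1)
  rwa [zero_add] at e2

end Cfg

/-- The order of the form `dx ∧ dy ∧ dw` along a divisorial valuation exists. -/
theorem exists_ord {K : Type} [Field K] [Algebra ℂ K] (C : Cfg K) (u : DivVal ℂ K 2) :
    ∃ m : ℤ, IsOrd C.b u m := by
  obtain ⟨B, hB⟩ := C.bounded_grad u
  have hbd : ∀ a J, (∀ i, 0 ≤ u.v (a i)) → IsJacobian ℂ a C.b J → J ≠ 0 → B + B + B ≤ u.v J := by
    intro a J ha hJ hJ0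
    have h1 := jac_eq C.basis hJ
    have h2 : Vge u (B + B + B) J := by
      rw [h1, Matrix.det_fin_three]
      have h3 : ∀ i j, Vge u B (gm C.basis a i j) := fun i j => hB (a i) (ha i) j
      have h4 : ∀ i j i' j' i'' j'', Vge u (B + B + B)
          (gm C.basis a i j * gm C.basis a i' j' * gm C.basis a i'' j'') :=
        fun i j i' j' i'' j'' => Vge.mul u (Vge.mul u (h3 _ _) (h3 _ _)) (h3 _ _)
      exact Vge.sub u (Vge.add u (Vge.add u (Vge.sub u (Vge.sub u (h4 _ _ _ _ _ _)
        (h4 _ _ _ _ _ _)) (h4 _ _ _ _ _ _)) (h4 _ _ _ _ _ _)) (h4 _ _ _ _ _ _))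
        (h4 _ _ _ _ _ _)
    exact h2.resolve_left hJ0
  -- a nonzero Jacobian
  have hne : ∀ i, C.b i ≠ 0 := by
    intro i
    have := C.basis.1.ne_zero i
    intro h
    simp [h] at this
  let a : Fin 3 → K := fun i => if 0 ≤ u.v (C.b i) then C.b i else (C.b i)⁻¹
  let d : Fin 3 → K := fun i => if 0 ≤ u.v (C.b i) then 1 else -(C.b i)⁻¹ ^ 2
  have ha : ∀ i, 0 ≤ u.v (a i) := by
    intro i
    simp only [a]
    split_ifs with h
    · exact h
    · rw [v_inv]
      omega
  have hd : ∀ i, d i ≠ 0 := by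
    intro i
    simp only [d]
    split_ifs
    · exact one_ne_zero
    · exact neg_ne_zero.mpr (pow_ne_zero _ (inv_ne_zero (hne i)))
  have hJ : IsJacobian ℂ a C.b (∏ i, d i) := by
    refine ⟨Matrix.diagonal d, Matrix.det_diagonal, fun i => ?_⟩
    have h1 : ∑ j, Matrix.diagonal d i j • KaehlerDifferential.D ℂ K (C.b j) =
        d i • KaehlerDifferential.D ℂ K (C.b i) := by
      rw [Finset.sum_eq_single i]
      · rw [Matrix.diagonal_apply_eq]
      · intro j _ hj
        rw [Matrix.diagonal_apply_ne _ hj.symm, zero_smul]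
      · intro h
        exact absurd (Finset.mem_univ i) h
    rw [h1]
    simp only [a, d]
    split_ifs
    · rw [one_smul]
    · rw [Derivation.leibniz_inv]
  obtain ⟨m, ⟨a', J', ha', hJ', hJ0', hm⟩, hmin⟩ := Int.exists_least_of_bdd
    (P := fun z => ∃ a J, (∀ i, 0 ≤ u.v (a i)) ∧ IsJacobian ℂ a C.b J ∧ J ≠ 0 ∧ u.v J = z)
    ⟨B + B + B, by
      rintro z ⟨a, J, h1, h2, h3, rfl⟩
      exact hbd a J h1 h2 h3⟩
    ⟨_, a, _, ha, hJ, Finset.prod_ne_zero_iff.mpr fun i _ => hd i, rfl⟩
  refine ⟨-m, fun a J h1 h2 h3 => ?_, a', J', ha', hJ', hJ0', by rw [hm, neg_neg]⟩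
  rw [neg_neg]
  exact hmin _ ⟨a, J, h1, h2, h3, rfl⟩

end Pool.Agent.Helper43.Fl
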