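import Pool.Agent.Helper43.FlDefs

open scoped KaehlerDifferential

noncomputable section

namespace Pool.Agent.Helper43

/-- `(X, β)` is a generalized klt pair with boundary `B = 0`, where `X` is a nonsingular projective
variety of dimension `n + 1` with function field `K`, and `L` is the b-divisor of the pull-backs
of `K_X + β_X`.  The canonical divisor is that of the rational form `db₀ ∧ … ∧ dbₙ`. -/
structure IsGkltPair {K : Type} [Field K] [Algebra ℂ K] {n : ℕ} (b : Fin (n + 1) → K)
    (β : BDiv ℂ K n) (X : ProjVar ℂ K) (L : BDiv ℂ K n) : Prop where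
  birational : X.functionField = ⊤
  nonsingular : X.IsNonsingular (n + 1)
  /-- `β` consists of the pull-backs of a nef divisor on some model `W` over `X` (and hence of a
  nef divisor on every resolution of `W`). -/
  descends : ∃ W : ProjVar ℂ K, W.functionField = ⊤ ∧ W.Dominates X ∧ W.Nef β
  /-- `L` consists of the pull-backs of an `ℝ`-Cartier divisor on `X`. -/
  cartier : X.RCartier L
  /-- This divisor is `K_X + β_X`. -/
  log : ∀ u : DivVal ℂ K n, X.IsPrimeDiv u → ∃ m : ℤ, IsOrd b u m ∧ L u = m + β u
  /-- The coefficient `L - K - β` of `B_{X'}` at every prime divisor over `X` is less than `1`. -/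
  klt : ∀ u : DivVal ℂ K n, ∃ m : ℤ, IsOrd b u m ∧ L u - m - β u < 1

/-- The field of rational functions in three variables. -/
abbrev RatFun3 : Type := FractionRing (MvPolynomial (Fin 3) ℂ)

end Pool.Agent.Helper43
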