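import Pool.Agent.Helper43.FlSeq2
import Pool.Agent.Helper43.FlStat
import Pool.Agent.Helper43.FlOrdEx

open scoped KaehlerDifferential

noncomputable section

namespace Pool.Agent.Helper43.Fl

open Pool.Agent.Helper43 Pool.Agent.Helper43.ProjVar

variable {K : Type} [Field K] [Algebra ℂ K]

/-- The step of the sequence with the classes is a flip. -/
theorem flip_step {n : ℕ} {C C' : Cfg K} (h : Step n C C') {c c' : Cls} (hc : StepC n c c')
    (h₁ : ∀ hm : n % 6 < 5, c.2.1 < c.2.2 ⟨n % 6, hm⟩) (h₂ : n % 6 = 5 → c.1 < c.2.1)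
    {L L' : BDiv ℂ K 2} (hL : L - logc C c ∈ principal ℂ K 2)
    (hL' : L' - logc C' c' ∈ principal ℂ K 2) :
    IsFlip (C.on Cfg.inX) (C'.on Cfg.inX) L L' := by
  rcases h with ⟨hm, h, rfl⟩ | ⟨hm, rfl⟩
  · rcases hc with ⟨_, rfl⟩ | ⟨hm', -⟩
    · exact C.flip_B h c (h₁ hm) hL hL'
    · omega
  · rcases hc with ⟨hm', -⟩ | ⟨-, rfl⟩
    · omega
    · exact C.flip_T c (h₂ hm) hL hL'

theorem c₀_bounds (n : ℕ) : 0 ≤ (c₀ n).2.1 ∧ (c₀ n).2.1 < 1 ∧ (∀ i, 0 ≤ (c₀ n).2.2 i) ∧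
    (∀ i, (c₀ n).2.2 i < 2) ∧ (∀ hm : n % 6 < 5, (c₀ n).2.1 < (c₀ n).2.2 ⟨n % 6, hm⟩) ∧
    (n % 6 = 5 → (c₀ n).1 < (c₀ n).2.1) := by
  have hs1 := sq5_lt
  have hs2 := sq5_gt
  have hl : 0 < lam ^ (n / 6) := pow_pos lam_pos _
  have hl1 : lam ^ (n / 6) ≤ 1 := pow_le_one₀ lam_pos.le lam_lt.le
  unfold c₀ cseq cph
  simp only [Prod.smul_fst, Prod.smul_snd, Pi.smul_apply, smul_eq_mul]
  refine ⟨?_, ?_, ?_, ?_, ?_, ?_⟩
  · have : 0 ≤ (5 - Real.sqrt 5) / 4 := by linarith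
    positivity
  · nlinarith
  · intro i
    split_ifs
    · have : 0 ≤ 2 * ((5 - Real.sqrt 5) / 4) - 1 := by linarith
      positivity
    · linarith
  · intro i
    split_ifs <;> nlinarith
  · intro hm
    rw [if_neg (lt_irrefl _)]
    nlinarith
  · intro hm
    rw [hm]
    push_cast
    nlinarith

/-- The main theorem, given a coordinate system. -/
theorem main_of_cfg {k : ℂ} (hk : 5 * k ^ 2 - 5 * k + 1 = 0) (C₀ : Cfg K)
    (h₀ : C₀.κ = fun _ => k) : ∃ (b : Fin 3 → K) (β : BDiv ℂ K 2)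
    (X : ℕ → ProjVar ℂ K) (L : ℕ → BDiv ℂ K 2), IsDiffBasis ℂ b ∧
    (∀ n, IsGkltPair b β (X n) (L n)) ∧ ∀ n, IsFlip (X n) (X (n + 1)) (L n) (L (n + 1)) := by
  obtain ⟨C, hC0, hC⟩ := exists_seq hk C₀ h₀
  have hj := fun n => Cfg.ord_change (C 0) (C n)
  choose j hj using hj
  let β := beta (C 0) (c₀ 0)
  let L : ℕ → BDiv ℂ K 2 := fun n => β + disc (C n) (c₀ n) - fun u => (u.v (j n) : ℝ)
  have hL : ∀ n, L n - logc (C n) (c₀ n) ∈ principal ℂ K 2 := by
    intro n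
    have h1 := beta_seq hC c₀_step n
    have h2 := Cfg.mem_principal (K := K) (j n)
    have h3 := neg_mem (add_mem h1 h2)
    convert h3 using 1
    simp only [L, β, logc]
    abel
  refine ⟨(C 0).b, β, fun n => (C n).on Cfg.inX, L, (C 0).basis, fun n => ?_, fun n => ?_⟩
  · obtain ⟨h1, h2, h3, h4, -, -⟩ := c₀_bounds n
    refine ⟨(C n).X_top, (C n).X_nonsing, ?_, ?_, ?_, ?_⟩
    · exact ⟨segre ((C 0).on Cfg.inF) ((C n).on Cfg.inX), segre_top (C 0).F_top, segre_snd,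
        segre_nef (nef_main hC)⟩
    · obtain ⟨t, ht⟩ := (C n).rcart (c₀ n)
      refine ⟨t, Cfg.ample_congr ht ?_⟩
      have : L n + t • ((C n).on Cfg.inX).hyp 2 -
          (logc (C n) (c₀ n) + t • ((C n).on Cfg.inX).hyp 2) = L n - logc (C n) (c₀ n) := by
        abel
      rw [this]
      exact hL n
    · intro u hu
      obtain ⟨m, hm, hm'⟩ := (C n).prime u (c₀ n) hu
      refine ⟨m - u.v (j n), (hj n u _).mpr (by rwa [sub_add_cancel]), ?_⟩
      simp only [L, Pi.sub_apply, Pi.add_apply, hm']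
      push_cast
      ring
    · intro u
      obtain ⟨m, hm⟩ := exists_ord (C 0) u
      refine ⟨m, hm, ?_⟩
      have h5 := (C n).gklt u h1 h2 h3 h4 ((hj n u m).mp hm)
      simp only [L, Pi.sub_apply, Pi.add_apply]
      push_cast at h5
      linarith
  · obtain ⟨-, -, -, -, h5, h6⟩ := c₀_bounds n
    exact flip_step (hC n) (c₀_step n) h5 h6 (hL n) (hL (n + 1))

/-! ### The function field -/

theorem k3_ind : AlgebraicIndependent ℂ
    (fun i : Fin 3 => algebraMap (MvPolynomial (Fin 3) ℂ) RatFun3 (MvPolynomial.X i)) := by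
  have h := (MvPolynomial.algebraicIndependent_X (Fin 3) ℂ).map'
    (f := Algebra.ofId (MvPolynomial (Fin 3) ℂ) RatFun3 |>.restrictScalars ℂ)
    (IsFractionRing.injective (MvPolynomial (Fin 3) ℂ) RatFun3)
  exact h

theorem k3_top : IntermediateField.adjoin ℂ (Set.range fun i : Fin 3 =>
    algebraMap (MvPolynomial (Fin 3) ℂ) RatFun3 (MvPolynomial.X i)) = ⊤ := by
  rw [eq_top_iff]
  intro z _
  obtain ⟨a, b, hb, rfl⟩ := IsFractionRing.div_surjective (A := MvPolynomial (Fin 3) ℂ) z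
  have key : ∀ f : MvPolynomial (Fin 3) ℂ, algebraMap (MvPolynomial (Fin 3) ℂ) RatFun3 f ∈
      IntermediateField.adjoin ℂ (Set.range fun i : Fin 3 =>
        algebraMap (MvPolynomial (Fin 3) ℂ) RatFun3 (MvPolynomial.X i)) := by
    intro f
    induction f using MvPolynomial.induction_on with
    | C c => 
      have : algebraMap (MvPolynomial (Fin 3) ℂ) RatFun3 (MvPolynomial.C c) = algebraMap ℂ RatFun3 c :=
        (IsScalarTower.algebraMap_apply ℂ (MvPolynomial (Fin 3) ℂ) RatFun3 c).symm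
      rw [this]
      exact IntermediateField.algebraMap_mem _ c
    | add f g hf hg => rw [map_add]; exact add_mem hf hg
    | mul_X f i hf =>
      rw [map_mul]
      exact mul_mem hf (IntermediateField.subset_adjoin _ _ ⟨i, rfl⟩)
  exact div_mem (key a) (key b)

theorem exists_k : ∃ k : ℂ, 5 * k ^ 2 - 5 * k + 1 = 0 := by
  refine ⟨(((5 + Real.sqrt 5) / 10 : ℝ) : ℂ), ?_⟩
  have h := sq5
  have : (5 * ((5 + Real.sqrt 5) / 10) ^ 2 - 5 * ((5 + Real.sqrt 5) / 10) + 1 : ℝ) = 0 := by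
    nlinarith
  exact_mod_cast this

theorem exists_cfg {k : ℂ} (hk : 5 * k ^ 2 - 5 * k + 1 = 0) : ∃ C : Cfg RatFun3, C.κ = fun _ => k := by
  have e : (![algebraMap (MvPolynomial (Fin 3) ℂ) RatFun3 (MvPolynomial.X 0),
      algebraMap (MvPolynomial (Fin 3) ℂ) RatFun3 (MvPolynomial.X 1),
      algebraMap (MvPolynomial (Fin 3) ℂ) RatFun3 (MvPolynomial.X 2)] : Fin 3 → RatFun3) =
      fun i : Fin 3 => algebraMap (MvPolynomial (Fin 3) ℂ) RatFun3 (MvPolynomial.X i) := by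
    funext i
    fin_cases i <;> rfl
  refine ⟨{ x := algebraMap (MvPolynomial (Fin 3) ℂ) RatFun3 (MvPolynomial.X 0)
            y := algebraMap (MvPolynomial (Fin 3) ℂ) RatFun3 (MvPolynomial.X 1)
            w := algebraMap (MvPolynomial (Fin 3) ℂ) RatFun3 (MvPolynomial.X 2)
            ind := by rw [e]; exact k3_ind
            top := ?_
            κ := fun _ => k
            κ0 := fun _ h => ?_
            κ1 := fun _ h => ?_ }, rfl⟩
  · rw [← k3_top]
    congr 1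
    ext z
    simp only [Set.mem_range, Set.mem_insert_iff, Set.mem_singleton_iff]
    constructor
    · rintro (rfl | rfl | rfl)
      · exact ⟨0, rfl⟩
      · exact ⟨1, rfl⟩
      · exact ⟨2, rfl⟩
    · rintro ⟨i, rfl⟩
      fin_cases i <;> simp
  · rw [h] at hk
    norm_num at hk
  · rw [h] at hk
    norm_num at hk

theorem main : ∃ (b : Fin 3 → RatFun3) (β : BDiv ℂ RatFun3 2) (X : ℕ → ProjVar ℂ RatFun3)
    (L : ℕ → BDiv ℂ RatFun3 2), IsDiffBasis ℂ b ∧
    (∀ n, IsGkltPair b β (X n) (L n)) ∧ ∀ n, IsFlip (X n) (X (n + 1)) (L n) (L (n + 1)) := by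
  obtain ⟨k, hk⟩ := exists_k
  obtain ⟨C, hC⟩ := exists_cfg hk
  exact main_of_cfg hk C hC

end Pool.Agent.Helper43.Fl
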