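import Pool.Agent.Helper43.FlBase

open scoped KaehlerDifferential

noncomputable section

namespace Pool.Agent.Helper43.Fl

open Pool.Agent.Helper43 Pool.Agent.Helper43.ProjVar

/-- The index set of the elements of a linear system. -/
abbrev J := Option (Fin 4 × Fin 4)

/-- The base index. -/
abbrev jo : J := some (0, 0)

variable {k K : Type} [Field k] [Field K] [Algebra k K]

/-- The linear system has a generator at the place. -/
def GenAt (H : K → k → Prop) (s : J → K) : Prop := ∃ j, s j ≠ 0 ∧ ∀ i, ∃ c, H (s i / s j) c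

/-- The least value of an element of a linear system. -/
def mn {n : ℕ} (s : J → K) (u : DivVal k K n) : ℤ :=
  u.v (s jo) - Finset.univ.sup' ⟨jo, Finset.mem_univ _⟩ (fun j => u.v (s jo / s j))

theorem mn_le {n : ℕ} {s : J → K} (u : DivVal k K n) (h0 : s jo ≠ 0) {j : J} (hj : s j ≠ 0) :
    mn s u ≤ u.v (s j) := by
  unfold mn
  have h1 : u.v (s jo / s j) ≤ Finset.univ.sup' ⟨jo, Finset.mem_univ _⟩
      (fun j => u.v (s jo / s j)) := Finset.le_sup' (fun j => u.v (s jo / s j)) (Finset.mem_univ j)
  rw [v_div u _ _ h0 hj] at h1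
  omega

theorem mn_eq {n : ℕ} {s : J → K} (u : DivVal k K n) (h0 : s jo ≠ 0) :
    ∃ j, s j ≠ 0 ∧ mn s u = u.v (s j) := by
  obtain ⟨j, -, hj⟩ := Finset.exists_mem_eq_sup' (s := Finset.univ) ⟨jo, Finset.mem_univ _⟩
    (fun j => u.v (s jo / s j))
  by_cases h : s j = 0
  · refine ⟨jo, h0, ?_⟩
    unfold mn
    rw [hj, h, div_zero, u.zero]
    ring
  · refine ⟨j, h, ?_⟩
    unfold mn
    rw [hj, v_div u _ _ h0 h]
    ring

/-- The least value is characterised by its properties. -/
theorem mn_unique {n : ℕ} {s : J → K} (u : DivVal k K n) (h0 : s jo ≠ 0) {m : ℤ}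
    (h1 : ∀ j, s j ≠ 0 → m ≤ u.v (s j)) (h2 : ∃ j, s j ≠ 0 ∧ u.v (s j) = m) : mn s u = m := by
  obtain ⟨j, hj, h3⟩ := mn_eq u h0
  obtain ⟨i, hi, h4⟩ := h2
  have h5 := mn_le u h0 hi
  have h6 := h1 j hj
  omega

/-- The Segre product of linear systems. -/
def model {A : Type} [Fintype A] (s : A → J → K) (hs : ∀ a, s a jo ≠ 0) : ProjVar k K where
  ι := A → J
  fin := by classical exact inferInstance
  x e := ∏ a, s a (e a)
  o := fun _ => jo
  x_ne := Finset.prod_ne_zero_iff.mpr fun a _ => hs a

/-- A place of the function field at which one coordinate generates has a centre. -/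
theorem exists_centre {Y : ProjVar k K} {H : K → k → Prop} (hH : Place H) {e₀ : Y.ι}
    (h0 : Y.x e₀ ≠ 0) (h : ∀ e, ∃ c, H (Y.x e / Y.x e₀) c) :
    ∃ Q : Y.Pt, (∀ z c, HasVal Q z c → H z c) ∧ ∀ e, H (Y.x e / Y.x e₀) (Q.p e) := by
  choose c hc using h
  have key : ∀ f : MvPolynomial Y.ι k, H (MvPolynomial.aeval (fun e => Y.x e / Y.x e₀) f)
      (MvPolynomial.eval c f) := by
    intro f
    induction f using MvPolynomial.induction_on with
    | C a => simpa using hH.const a
    | add f g hf hg => simpa using hH.add hf hg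
    | mul_X f l hf => simpa using hH.mul hf (hc l)
  have e1 : ∀ (n : ℕ) (f : MvPolynomial Y.ι k), f.IsHomogeneous n → MvPolynomial.aeval Y.x f =
      Y.x e₀ ^ n * MvPolynomial.aeval (fun e => Y.x e / Y.x e₀) f := by
    intro n f hf
    rw [← aeval_smul_homog hf]
    congr 2
    funext i
    field_simp
  have c1 : c e₀ = 1 := by
    have h1 := hc e₀
    rw [div_self h0] at h1
    exact hH.uniq h1 hH.one
  refine ⟨⟨c, ?_, ?_⟩, ?_, hc⟩
  · intro h2
    rw [h2] at c1
    exact zero_ne_one c1
  · intro n f hf h2
    rw [e1 n f hf] at h2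
    have h3 := (mul_eq_zero.mp h2).resolve_left (pow_ne_zero _ h0)
    have h4 := key f
    rw [h3] at h4
    exact hH.uniq h4 hH.zero
  · rintro z d ⟨n, a, b, ha, hb, hb0, h2, h3⟩
    change MvPolynomial.eval c b ≠ 0 at hb0
    change d * MvPolynomial.eval c b = MvPolynomial.eval c a at h3
    have h4 := hH.div (key a) (key b) hb0
    have hbx := hH.ne_zero (key b) hb0
    rw [e1 n a ha, e1 n b hb] at h2
    have h5 : Y.x e₀ ^ n ≠ 0 := pow_ne_zero _ h0
    have h6 : z = MvPolynomial.aeval (fun e => Y.x e / Y.x e₀) a /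
        MvPolynomial.aeval (fun e => Y.x e / Y.x e₀) b := by
      rw [eq_div_iff hbx]
      refine mul_left_cancel₀ h5 ?_
      rw [← h2]
      ring
    have h7 : d = MvPolynomial.eval c a / MvPolynomial.eval c b := by
      rw [eq_div_iff hb0]
      exact h3
    rw [h6, h7]
    exact h4

section

variable {A : Type} [Fintype A] {s : A → J → K} {hs : ∀ a, s a jo ≠ 0}

theorem model_x (e : A → J) : (model (k := k) s hs).x e = ∏ a, s a (e a) := rfl

theorem prod_update [DecidableEq A] {M : Type} [CommMonoid M] (f : A → J → M) (e : A → J) (a : A)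
    (j : J) : ∏ a', f a' (Function.update e a j a') = f a j * ∏ a' ∈ Finset.univ.erase a, f a' (e a') := by
  rw [← Finset.mul_prod_erase _ _ (Finset.mem_univ a), Function.update_self]
  congr 1
  exact Finset.prod_congr rfl fun a' ha' => by
    rw [Function.update_of_ne (Finset.ne_of_mem_erase ha')]

/-- The ratio of two coordinates which differ in one place. -/
theorem model_ratio [DecidableEq A] (e : A → J) (he : ∀ a, s a (e a) ≠ 0) (a : A) (j : J) :
    (model (k := k) s hs).x (Function.update e a j) / (model (k := k) s hs).x e =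
      s a j / s a (e a) := by
  rw [model_x, model_x, prod_update s e a j, ← Finset.mul_prod_erase _ _ (Finset.mem_univ a)]
  have h1 := he a
  have h2 : ∏ a' ∈ Finset.univ.erase a, s a' (e a') ≠ 0 :=
    Finset.prod_ne_zero_iff.mpr fun a' _ => he a'
  field_simp

theorem model_x_ne {P : (model (k := k) s hs).Pt} {e : A → J} (he : P.p e ≠ 0) (a : A) :
    s a (e a) ≠ 0 := by
  have h := Pt.x_ne he
  rw [model_x] at h
  exact Finset.prod_ne_zero_iff.mp h a (Finset.mem_univ a)

/-- At every point of the model all systems have generators. -/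
theorem model_gen (P : (model (k := k) s hs).Pt) (a : A) : GenAt (HasVal P) (s a) := by
  classical
  obtain ⟨e, he⟩ := P.exists_ne
  refine ⟨e a, model_x_ne he a, fun i => ?_⟩
  have h := hasVal_ratio he (Function.update e a i)
  rw [model_ratio e (model_x_ne he)] at h
  exact ⟨_, h⟩

/-- A place at which all systems have generators has a centre on the model. -/
theorem model_exists {H : K → k → Prop} (hH : Place H) (h : ∀ a, GenAt H (s a)) :
    ∃ Q : (model (k := k) s hs).Pt, ∀ z c, HasVal Q z c → H z c := by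
  choose g hg0 hg using h
  obtain ⟨Q, h1, -⟩ := exists_centre (Y := model (k := k) s hs) hH (e₀ := g)
    (Finset.prod_ne_zero_iff.mpr fun a _ => hg0 a) fun e => by
      have e1 : (model (k := k) s hs).x e / (model (k := k) s hs).x g =
          ∏ a, s a (e a) / s a (g a) := by
        rw [Finset.prod_div_distrib]; rfl
      rw [e1]
      exact (Fl.Place.cl hH).prod _ fun a _ => hg a (e a)
  exact ⟨Q, h1⟩

theorem model_dominates {X : ProjVar k K} (h : ∀ P : X.Pt, ∀ a, GenAt (HasVal P) (s a)) :
    X.Dominates (model s hs) := fun P => model_exists (place P) (h P)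

theorem model_hyp {n : ℕ} (u : DivVal k K n) :
    (model s hs).hyp n u = ∑ a, ((u.v (s a jo) : ℝ) - mn (s a) u) := by
  classical
  have h1 : ∀ a, ((u.v (s a jo) : ℝ) - mn (s a) u) =
      ((Finset.univ.sup' ⟨jo, Finset.mem_univ _⟩ (fun j => u.v (s a jo / s a j)) : ℤ) : ℝ) := by
    intro a
    unfold mn
    push_cast
    ring
  simp_rw [h1]
  unfold ProjVar.hyp
  have hfin : Finite (model (k := k) s hs).ι := (model (k := k) s hs).fin
  have hx0 : (model (k := k) s hs).x (model (k := k) s hs).o ≠ 0 := (model (k := k) s hs).x_ne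
  have hval : ∀ e : A → J, (∀ a, s a (e a) ≠ 0) →
      u.v ((model (k := k) s hs).x (model (k := k) s hs).o / (model (k := k) s hs).x e) =
        ∑ a, u.v (s a jo / s a (e a)) := by
    intro e he
    have e1 : (model (k := k) s hs).x (model (k := k) s hs).o / (model (k := k) s hs).x e =
        ∏ a, s a jo / s a (e a) := by
      rw [Finset.prod_div_distrib]; rfl
    rw [e1]
    have : ∀ t : Finset A, u.v (∏ a ∈ t, s a jo / s a (e a)) = ∑ a ∈ t, u.v (s a jo / s a (e a)) := by
      intro t
      induction t using Finset.induction_on with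
      | empty => simp [v_one]
      | insert a t ha ih =>
        rw [Finset.prod_insert ha, Finset.sum_insert ha, u.mul _ _ (div_ne_zero (hs a) (he a))
          (Finset.prod_ne_zero_iff.mpr fun a _ => div_ne_zero (hs a) (he a)), ih]
    exact this _
  apply le_antisymm
  · have : Nonempty (model (k := k) s hs).ι := ⟨(model (k := k) s hs).o⟩
    refine ciSup_le fun e => ?_
    by_cases he : ∀ a, s a (e a) ≠ 0
    · rw [hval e he]
      push_cast
      refine Finset.sum_le_sum fun a _ => ?_
      exact_mod_cast Finset.le_sup' (fun j => u.v (s a jo / s a j)) (Finset.mem_univ (e a))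
    · have h2 : (model (k := k) s hs).x e = 0 := by
        push Not at he
        obtain ⟨a, ha⟩ := he
        exact Finset.prod_eq_zero (Finset.mem_univ a) ha
      rw [h2, div_zero, u.zero]
      push_cast
      refine Finset.sum_nonneg fun a _ => ?_
      have := Finset.le_sup' (fun j => u.v (s a jo / s a j)) (Finset.mem_univ jo)
      rw [div_self (hs a), v_one] at this
      exact_mod_cast this
  · have h3 : ∀ a, ∃ j, s a j ≠ 0 ∧ Finset.univ.sup' ⟨jo, Finset.mem_univ _⟩
        (fun j => u.v (s a jo / s a j)) = u.v (s a jo / s a j) := by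
      intro a
      obtain ⟨j, hj, h4⟩ := mn_eq u (hs a)
      refine ⟨j, hj, ?_⟩
      unfold mn at h4
      rw [v_div u _ _ (hs a) hj]
      omega
    choose g hg0 hg using h3
    have h4 := le_ciSup (f := fun i => (u.v ((model (k := k) s hs).x (model (k := k) s hs).o /
      (model (k := k) s hs).x i) : ℝ)) (Set.finite_range _).bddAbove g
    refine le_trans (le_of_eq ?_) h4
    rw [hval g hg0]
    push_cast
    exact Finset.sum_congr rfl fun a _ => by rw [hg a]

theorem model_mem (a : A) (i j : J) : s a i / s a j ∈ (model (k := k) s hs).functionField := by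
  classical
  have h : ∀ i, s a i / s a jo ∈ (model (k := k) s hs).functionField := by
    intro i
    have h1 := ProjVar.ratio_mem (X := model (k := k) s hs) (Function.update (fun _ => jo) a i)
      (fun _ => jo)
    rwa [model_ratio (fun _ => jo) hs] at h1
  have h2 := div_mem (h i) (h j)
  have h3 := hs a
  have : s a i / s a jo / (s a j / s a jo) = s a i / s a j := by
    by_cases hj : s a j = 0
    · simp [hj]
    · field_simp
  rwa [this] at h2

end

/-- Morphisms: points with the same local ring have proportional coordinates. -/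
theorem same_of_mapsTo {X : ProjVar k K} {P P' : X.Pt} (h : ∀ z c, HasVal P z c → HasVal P' z c) :
    ∃ r : k, ∀ i, P'.p i = r * P.p i := by
  obtain ⟨e, he⟩ := P.exists_ne
  have h1 : ∀ i, HasVal P' (X.x i / X.x e) (P.p i / P.p e) := fun i => h _ _ (hasVal_ratio he i)
  have he' : P'.p e ≠ 0 := by
    obtain ⟨e', he'⟩ := P'.exists_ne
    intro h0
    have h2 := (h1 e').mul (hasVal_ratio he' e)
    rw [h0, zero_div, mul_zero] at h2
    have h3 : X.x e' / X.x e * (X.x e / X.x e') = 1 := by
      have := Pt.x_ne he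
      have := Pt.x_ne he'
      field_simp
    rw [h3] at h2
    exact one_ne_zero (h2.uniq (place P').one).symm
  refine ⟨P'.p e / P.p e, fun i => ?_⟩
  have h2 := (hasVal_ratio he' i).uniq (h1 i)
  field_simp at h2 ⊢
  linear_combination h2

theorem hasVal_of_same {X : ProjVar k K} {P P' : X.Pt} {r : k} (h : ∀ i, P'.p i = r * P.p i)
    {z : K} {c : k} (hz : HasVal P z c) : HasVal P' z c := by
  have hr : r ≠ 0 := by
    rintro rfl
    apply P'.ne
    funext i
    simp [h]
  obtain ⟨n, a, b, ha, hb, h0, h1, h2⟩ := hz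
  have e1 : ∀ f : MvPolynomial X.ι k, f.IsHomogeneous n →
      MvPolynomial.eval P'.p f = r ^ n * MvPolynomial.eval P.p f := by
    intro f hf
    have := aeval_smul_homog hf r P.p
    rw [← MvPolynomial.coe_aeval_eq_eval, ← MvPolynomial.coe_aeval_eq_eval]
    simp only [RingHom.coe_coe]
    rw [← this]
    congr 2
    funext i
    exact h i
  refine ⟨n, a, b, ha, hb, ?_, h1, ?_⟩
  · rw [e1 b hb]
    exact mul_ne_zero (pow_ne_zero _ hr) h0
  · rw [e1 b hb, e1 a ha, ← h2]
    ring

end Pool.Agent.Helper43.Fl
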