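import Pool.Agent.Helper43.FlFrac
import Pool.Agent.Helper43.FlParInd

open scoped KaehlerDifferential

noncomputable section

namespace Pool.Agent.Helper43.Fl

open Pool.Agent.Helper43 Pool.Agent.Helper43.ProjVar MvPolynomial

variable {K : Type} [Field K] [Algebra ℂ K]

/-- Polynomials in functions with a value have a value. -/
private theorem nchart_aeval {H : K → ℂ → Prop} (hH : Place H) {m : ℕ} {par : Fin m → K}
    {c : Fin m → ℂ} (hc : ∀ q, H (par q) (c q)) (A : MvPolynomial (Fin m) ℂ) :
    H (aeval par A) (eval c A) := by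
  induction A using MvPolynomial.induction_on with
  | C a => simpa using hH.const a
  | add p q hp hq => simpa using hH.add hp hq
  | mul_X p q hp => simpa using hH.mul hp (hc q)

/-- A rational function which is integral over the localization of a polynomial ring at a point
lies in this localization. -/
private theorem integral_frac {par : Fin 3 → K} (hi : AlgebraicIndependent ℂ par)
    (ht : IntermediateField.adjoin ℂ (Set.range par) = ⊤) {c : Fin 3 → ℂ} {z : K} {n : ℕ}
    {a : Fin n → K} (ha : ∀ i, ∃ A B : MvPolynomial (Fin 3) ℂ, eval c B ≠ 0 ∧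
      a i * aeval par B = aeval par A) (hz : z ^ n = ∑ i, a i * z ^ (i : ℕ)) :
    ∃ A B : MvPolynomial (Fin 3) ℂ, eval c B ≠ 0 ∧ z * aeval par B = aeval par A := by
  choose A B hB hAB using ha
  let φ : MvPolynomial (Fin 3) ℂ →ₐ[ℂ] K := aeval par
  have hinj : Function.Injective φ := hi
  let alg : Algebra (MvPolynomial (Fin 3) ℂ) K := φ.toRingHom.toAlgebra
  have hφ : ∀ p, algebraMap (MvPolynomial (Fin 3) ℂ) K p = aeval par p := fun _ => rfl
  have : FaithfulSMul (MvPolynomial (Fin 3) ℂ) K := by
    rw [faithfulSMul_iff_algebraMap_injective]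
    exact hinj
  have : IsFractionRing (MvPolynomial (Fin 3) ℂ) K := by
    refine IsFractionRing.of_field _ _ fun w => ?_
    have hw : w ∈ IntermediateField.adjoin ℂ (Set.range par) := by rw [ht]; trivial
    obtain ⟨r, s, hrs⟩ := (IntermediateField.mem_adjoin_range_iff ℂ par w).mp hw
    exact ⟨r, s, hrs⟩
  let D : MvPolynomial (Fin 3) ℂ := ∏ i, B i
  have hD : eval c D ≠ 0 := by
    simp only [D, map_prod]
    exact Finset.prod_ne_zero_iff.mpr fun i _ => hB i
  -- `a i * D` is a polynomial
  have hE : ∀ i, ∃ E : MvPolynomial (Fin 3) ℂ, a i * aeval par D = aeval par E := by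
    intro i
    refine ⟨A i * ∏ j ∈ Finset.univ.erase i, B j, ?_⟩
    have h1 : D = B i * ∏ j ∈ Finset.univ.erase i, B j :=
      (Finset.mul_prod_erase _ _ (Finset.mem_univ i)).symm
    rw [h1, map_mul, map_mul, ← mul_assoc, hAB i]
  choose E hE using hE
  have hint : IsIntegral (MvPolynomial (Fin 3) ℂ) (z * aeval par D) := by
    refine ⟨Polynomial.X ^ n - ∑ i : Fin n, Polynomial.C (E i * D ^ (n - 1 - (i : ℕ))) *
      Polynomial.X ^ (i : ℕ), ?_, ?_⟩
    · refine (Polynomial.monic_X_pow n).sub_of_left ?_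
      rw [Polynomial.degree_X_pow]
      exact Polynomial.degree_sum_fin_lt fun i : Fin n => E i * D ^ (n - 1 - (i : ℕ))
    · rw [Polynomial.eval₂_sub, Polynomial.eval₂_X_pow, Polynomial.eval₂_finsetSum, sub_eq_zero,
        mul_pow, hz, Finset.sum_mul]
      refine Finset.sum_congr rfl fun i _ => ?_
      rw [Polynomial.eval₂_mul, Polynomial.eval₂_C, Polynomial.eval₂_X_pow, map_mul, map_pow,
        hφ, hφ, ← hE i, mul_pow]
      have h2 : n = (i : ℕ) + (n - 1 - (i : ℕ)) + 1 := by have := i.2; omega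
      have h3 : aeval par D ^ n = aeval par D ^ (i : ℕ) * aeval par D ^ (n - 1 - (i : ℕ)) *
          aeval par D := by
        rw [← pow_add, ← pow_succ]
        congr 1
      rw [h3]
      ring
  obtain ⟨F, hF⟩ := IsIntegrallyClosed.isIntegral_iff.mp hint
  exact ⟨F, D, hD, by rw [← hF, hφ]⟩

namespace Cfg

variable (C : Cfg K)

private theorem chart_coord' {s : Ix → Bool} (hs : ∀ a, s a = true → inX a = true)
    {P : (C.on s).Pt} {T : Ty} (h : C.IsChart (HasVal P) T) :
    ∃ e, P.p e ≠ 0 ∧ ∀ e', Gn (HasVal P) (C.par T) ((C.on s).x e' / (C.on s).x e) := by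
  have hH := place P
  have hcl := Gn.cl (HasVal P) (C.par T)
  have hex : ∀ a, ∃ j, (bif s a then C.sys a else fun _ => 1) j ≠ 0 ∧
      ∀ i, Gn (HasVal P) (C.par T) ((bif s a then C.sys a else fun _ => 1) i /
        (bif s a then C.sys a else fun _ => 1) j) := by
    intro a
    cases ha : s a
    · exact ⟨jo, by simp, fun i => by simpa using hcl.one⟩
    · obtain ⟨j, c, hc, hj⟩ := h.unit a (hs a ha)
      have hf := C.fac_ne T a
      have h0 : C.sys a j ≠ 0 := by
        intro h0
        exact hH.ne_zero hj hc (by rw [h0, zero_div])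
      refine ⟨j, by simpa using h0, fun i => ?_⟩
      simp only [cond_true]
      have h1 := hcl.div (h.gen a (hs a ha) i) (h.gen a (hs a ha) j) hj hc
      have h2 : C.sys a i / C.fac T a / (C.sys a j / C.fac T a) = C.sys a i / C.sys a j := by
        field_simp
      rwa [h2] at h1
  choose e he0 he using hex
  have hx0 : (C.on s).x e ≠ 0 := by
    have e0 : (C.on s).x e = ∏ a, (bif s a then C.sys a else fun _ => 1) (e a) := rfl
    rw [e0]
    exact Finset.prod_ne_zero_iff.mpr fun a _ => he0 a
  have hg : ∀ e', Gn (HasVal P) (C.par T) ((C.on s).x e' / (C.on s).x e) := by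
    intro e'
    have e1 : (C.on s).x e' / (C.on s).x e =
        ∏ a, (bif s a then C.sys a else fun _ => 1) (e' a) /
          (bif s a then C.sys a else fun _ => 1) (e a) := by
      rw [Finset.prod_div_distrib]
      rfl
    rw [e1]
    exact hcl.prod _ fun a _ => he a (e' a)
  exact ⟨e, pt_ne_of_regular P hx0 fun e' => Gn.reg hH h.reg (hg e'), hg⟩

theorem normal_chart {s : Ix → Bool} (hs : ∀ a, s a = true → inX a = true) {Q : (C.on s).Pt}
    {T : Ty} (h : C.IsChart (HasVal Q) T) {z : K} {n : ℕ} {c : Fin n → K}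
    (hc : ∀ i, RegularAt Q (c i)) (hz : z ^ n = ∑ i, c i * z ^ (i : ℕ)) : RegularAt Q z := by
  have hH := place Q
  obtain ⟨e, he, hgen⟩ := C.chart_coord' hs h
  choose d hd using h.reg
  have h1 : ∀ i, ∃ A B : MvPolynomial (Fin 3) ℂ, eval d B ≠ 0 ∧
      c i * aeval (C.par T) B = aeval (C.par T) A := by
    intro i
    obtain ⟨v, hv⟩ := hc i
    exact gn_frac hH hd (hasVal_gn he hgen hv)
  obtain ⟨A, B, hB, hAB⟩ := integral_frac (C.par_ind T) (C.par_top T) h1 hz
  have hA := nchart_aeval hH hd A
  have hB' := nchart_aeval hH hd B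
  have hB0 := hH.ne_zero hB' hB
  have hz' : z = aeval (C.par T) A / aeval (C.par T) B := by
    rw [eq_div_iff hB0, hAB]
  exact ⟨_, hz' ▸ hH.div hA hB' hB⟩

end Cfg

end Pool.Agent.Helper43.Fl
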