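import Pool.Agent.Helper43.FlPV0

/-! # The cone over a quadric is normal -/

open scoped KaehlerDifferential

noncomputable section

namespace Pool.Agent.Helper43.Fl

open Pool.Agent.Helper43 Pool.Agent.Helper43.ProjVar MvPolynomial

variable {K : Type} [Field K] [Algebra ℂ K]

namespace NCone

theorem mem_range_of_integral {m : ℕ} {par : Fin m → K} (hi : AlgebraicIndependent ℂ par)
    (ht : IntermediateField.adjoin ℂ (Set.range par) = ⊤) {z : K}
    (hz : (aeval par : MvPolynomial (Fin m) ℂ →ₐ[ℂ] K).toRingHom.IsIntegralElem z) :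
    ∃ f : MvPolynomial (Fin m) ℂ, z = aeval par f := by
  let _ := (aeval par : MvPolynomial (Fin m) ℂ →ₐ[ℂ] K).toRingHom.toAlgebra
  have hinj : Function.Injective (algebraMap (MvPolynomial (Fin m) ℂ) K) := hi
  have : FaithfulSMul (MvPolynomial (Fin m) ℂ) K :=
    (faithfulSMul_iff_algebraMap_injective _ _).mpr hinj
  have : IsFractionRing (MvPolynomial (Fin m) ℂ) K := by
    refine IsFractionRing.of_field _ _ fun z => ?_
    have hz : z ∈ IntermediateField.adjoin ℂ (Set.range par) := by rw [ht]; trivial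
    obtain ⟨r, s, h⟩ := (IntermediateField.mem_adjoin_range_iff ℂ par z).mp hz
    exact ⟨r, s, h⟩
  obtain ⟨f, hf⟩ :=
    (IsIntegrallyClosed.isIntegral_iff (R := MvPolynomial (Fin m) ℂ) (K := K) (x := z)).mp hz
  exact ⟨f, hf.symm⟩

omit [Algebra ℂ K] in
/-- Clearing the denominators of an integral equation. -/
theorem integral_of {A : Type*} [CommRing A] (φ : A →+* K) {n : ℕ} {z : K} (s : A) (c : Fin n → K)
    (hc : ∀ i, ∃ a, φ a = φ s * c i) (hz : z ^ n = ∑ i, c i * z ^ (i : ℕ)) :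
    φ.IsIntegralElem (φ s * z) := by
  choose a ha using hc
  refine ⟨Polynomial.X ^ n - ∑ i : Fin n, Polynomial.C (s ^ (n - 1 - (i : ℕ)) * a i) *
    Polynomial.X ^ (i : ℕ), ?_, ?_⟩
  · refine Polynomial.monic_X_pow_sub ?_
    refine (Polynomial.degree_sum_le _ _).trans_lt ?_
    refine (Finset.sup_lt_iff (WithBot.bot_lt_coe n)).mpr fun i _ => ?_
    exact (Polynomial.degree_C_mul_X_pow_le _ _).trans_lt (WithBot.coe_lt_coe.mpr i.2)
  · rw [Polynomial.eval₂_sub, Polynomial.eval₂_X_pow, Polynomial.eval₂_finsetSum, sub_eq_zero,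
      mul_pow, hz, Finset.mul_sum]
    refine Finset.sum_congr rfl fun i _ => ?_
    rw [Polynomial.eval₂_mul, Polynomial.eval₂_C, Polynomial.eval₂_X_pow, map_mul, ha, map_pow,
      mul_pow]
    have h1 : φ s ^ n = φ s ^ (n - 1 - (i : ℕ)) * φ s * φ s ^ (i : ℕ) := by
      rw [← pow_succ, ← pow_add]
      congr 1
      have := i.2
      omega
    rw [h1]
    ring

/-- A property stable under sums and products and true for constants and the values. -/
theorem aeval_mem {m : ℕ} (par : Fin m → K) (P : K → Prop) (hc : ∀ c, P (algebraMap ℂ K c))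
    (ha : ∀ x y, P x → P y → P (x + y)) (hm : ∀ x y, P x → P y → P (x * y)) (hp : ∀ i, P (par i))
    (f : MvPolynomial (Fin m) ℂ) : P (aeval par f) := by
  induction f using MvPolynomial.induction_on with
  | C a => simpa using hc a
  | add p q hp hq => rw [map_add]; exact ha _ _ hp hq
  | mul_X p i h => rw [map_mul, aeval_X]; exact hm _ _ h (hp i)

/-- The polynomial with the exponents of the first variable reflected. -/
theorem aeval_refl {t p q : K} (ht0 : t ≠ 0) (f : MvPolynomial (Fin 3) ℂ) {N : ℕ}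
    (hN : ∀ m ∈ f.support, m 0 ≤ N) :
    t ^ N * aeval ![t⁻¹, p * t, q * t] f =
      aeval ![t, p, q] (∑ m ∈ f.support, monomial
        (Finsupp.single (0 : Fin 3) (N - m 0 + m 1 + m 2) + Finsupp.single 1 (m 1) +
          Finsupp.single 2 (m 2)) (f.coeff m)) := by
  conv_lhs => rw [f.as_sum]
  rw [map_sum, map_sum, Finset.mul_sum]
  refine Finset.sum_congr rfl fun m hm => ?_
  have h1 := hN m hm
  rw [aeval_monomial, aeval_monomial, Finsupp.prod_fintype _ _ (fun _ => pow_zero _),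
    Finsupp.prod_fintype _ _ (fun _ => pow_zero _), Fin.prod_univ_three, Fin.prod_univ_three]
  simp only [Fin.isValue, Matrix.cons_val_zero, Matrix.cons_val_one, Matrix.cons_val, mul_pow,
    Finsupp.coe_add, Pi.add_apply, Finsupp.single_apply, inv_pow]
  have h2 : t ^ N = t ^ (N - m 0) * t ^ m 0 := by rw [← pow_add, Nat.sub_add_cancel h1]
  have h3 : t ^ m 0 ≠ 0 := pow_ne_zero _ ht0
  simp only [Fin.isValue, if_true, one_ne_zero, if_false, add_zero, Fin.reduceEq, zero_add,
    zero_ne_one]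
  rw [h2, pow_add, pow_add]
  field_simp

/-- The monomials of a common element of the two polynomial rings. -/
theorem inter_exp {t p q : K} (ht0 : t ≠ 0) (hi : AlgebraicIndependent ℂ ![t, p, q])
    {f g : MvPolynomial (Fin 3) ℂ}
    (h : aeval ![t, p, q] f = aeval ![t⁻¹, p * t, q * t] g) {m : Fin 3 →₀ ℕ}
    (hm : m ∈ f.support) : m 0 ≤ m 1 + m 2 := by
  obtain ⟨N, hN⟩ : ∃ N, ∀ m ∈ g.support, m 0 ≤ N :=
    ⟨g.support.sup fun m => m 0, fun m hm => Finset.le_sup (f := fun m : Fin 3 →₀ ℕ => m 0) hm⟩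
  have h1 := aeval_refl ht0 (p := p) (q := q) g hN
  rw [← h] at h1
  set G := ∑ m ∈ g.support, monomial
        (Finsupp.single (0 : Fin 3) (N - m 0 + m 1 + m 2) + Finsupp.single 1 (m 1) +
          Finsupp.single 2 (m 2)) (g.coeff m) with hG
  have h2 : aeval ![t, p, q] (X 0 ^ N * f) = aeval ![t, p, q] G := by
    rw [← h1, map_mul, map_pow, aeval_X]
    rfl
  have h3 : X 0 ^ N * f = G := hi h2
  have h4 : coeff (Finsupp.single 0 N + m) (X 0 ^ N * f) = coeff m f := by
    rw [X_pow_eq_monomial, coeff_monomial_mul, one_mul]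
  have h5 : coeff (Finsupp.single 0 N + m) G ≠ 0 := by
    rw [← h3, h4]
    exact mem_support_iff.mp hm
  rw [hG, coeff_sum] at h5
  obtain ⟨m', hm', h6⟩ := Finset.exists_ne_zero_of_sum_ne_zero h5
  rw [coeff_monomial] at h6
  have h7 := (ite_ne_right_iff.mp h6).1
  have e0 := DFunLike.congr_fun h7 0
  have e1 := DFunLike.congr_fun h7 1
  have e2 := DFunLike.congr_fun h7 2
  have := hN m' hm'
  simp at e0 e1 e2
  omega

omit [Algebra ℂ K] in
/-- The monomials of the cone. -/
theorem mono_mem {t p q : K} {P : K → Prop} (h1 : P 1)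
    (hm : ∀ x y, P x → P y → P (x * y)) (hp : P p) (hpt : P (p * t)) (hq : P q)
    (hqt : P (q * t)) {a b c : ℕ} (h : a ≤ b + c) : P (t ^ a * p ^ b * q ^ c) := by
  have hpow : ∀ x, P x → ∀ n, P (x ^ n) := fun x hx n => by
    induction n with
    | zero => simpa using h1
    | succ n ih => rw [pow_succ]; exact hm _ _ ih hx
  rcases le_total a b with hab | hab
  · obtain ⟨d, rfl⟩ := Nat.exists_eq_add_of_le hab
    have : t ^ a * p ^ (a + d) * q ^ c = (p * t) ^ a * p ^ d * q ^ c := by ring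
    rw [this]
    exact hm _ _ (hm _ _ (hpow _ hpt _) (hpow _ hp _)) (hpow _ hq _)
  · obtain ⟨d, rfl⟩ := Nat.exists_eq_add_of_le hab
    obtain ⟨e, rfl⟩ := Nat.exists_eq_add_of_le (show d ≤ c by omega)
    have : t ^ (b + d) * p ^ b * q ^ (d + e) = (p * t) ^ b * (q * t) ^ d * q ^ e := by ring
    rw [this]
    exact hm _ _ (hm _ _ (hpow _ hpt _) (hpow _ hqt _)) (hpow _ hq _)

/-- Common elements of the two polynomial rings are polynomials in the four functions. -/
theorem inter_mem {t p q : K} (ht0 : t ≠ 0) (hi : AlgebraicIndependent ℂ ![t, p, q])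
    {f g : MvPolynomial (Fin 3) ℂ}
    (h : aeval ![t, p, q] f = aeval ![t⁻¹, p * t, q * t] g) {P : K → Prop}
    (hc : ∀ c, P (algebraMap ℂ K c)) (ha : ∀ x y, P x → P y → P (x + y))
    (hm : ∀ x y, P x → P y → P (x * y)) (hp : P p) (hpt : P (p * t)) (hq : P q)
    (hqt : P (q * t)) : P (aeval ![t, p, q] f) := by
  rw [f.as_sum, map_sum]
  have h0 : P 0 := by simpa using hc 0
  have h1 : P 1 := by simpa using hc 1
  refine Finset.sum_induction _ P ha h0 fun m hmem => ?_
  rw [aeval_monomial, Finsupp.prod_fintype _ _ (fun _ => pow_zero _), Fin.prod_univ_three]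
  exact hm _ _ (hc _) (mono_mem h1 hm hp hpt hq hqt (inter_exp ht0 hi h hmem))

/-- Functions generated at a place are quotients of polynomials. -/
theorem gn_quot {H : K → ℂ → Prop} (hH : Place H) {m : ℕ} {par : Fin m → K} {c : Fin m → ℂ}
    (hc : ∀ q, H (par q) (c q)) {z : K} (h : Gn H par z) :
    ∃ A B : MvPolynomial (Fin m) ℂ, eval c B ≠ 0 ∧ z * aeval par B = aeval par A := by
  have hv : ∀ f : MvPolynomial (Fin m) ℂ, H (aeval par f) (eval c f) := by
    intro f
    induction f using MvPolynomial.induction_on with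
    | C a => simpa using hH.const a
    | add p q hp hq => rw [map_add, map_add]; exact hH.add hp hq
    | mul_X p i h => rw [map_mul, map_mul, aeval_X, eval_X]; exact hH.mul h (hc i)
  have hne : ∀ f : MvPolynomial (Fin m) ℂ, eval c f ≠ 0 → aeval par f ≠ 0 := by
    intro f hf h0
    have h1 := hv f
    rw [h0] at h1
    have h2 := hH.const 0
    rw [map_zero] at h2
    exact hf (hH.uniq h1 h2)
  refine h (fun z => ∃ A B : MvPolynomial (Fin m) ℂ, eval c B ≠ 0 ∧
    z * aeval par B = aeval par A) ?_ fun q => ⟨X q, 1, by simp, by simp⟩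
  refine ⟨fun a => ⟨C a, 1, by simp, by simp⟩, ?_, ?_, ?_⟩
  · rintro z z' ⟨A, B, h0, h1⟩ ⟨A', B', h0', h1'⟩
    refine ⟨A * B' + A' * B, B * B', by rw [map_mul]; exact mul_ne_zero h0 h0', ?_⟩
    simp only [map_mul, map_add]
    rw [← h1, ← h1']
    ring
  · rintro z z' ⟨A, B, h0, h1⟩ ⟨A', B', h0', h1'⟩
    refine ⟨A * A', B * B', by rw [map_mul]; exact mul_ne_zero h0 h0', ?_⟩
    simp only [map_mul]
    rw [← h1, ← h1']
    ring
  · rintro z a hz ha ⟨A, B, h0, h1⟩
    have hA : eval c A ≠ 0 := by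
      have h2 := hH.mul hz (hv B)
      rw [h1] at h2
      rw [hH.uniq (hv A) h2]
      exact mul_ne_zero ha h0
    have hz0 : z ≠ 0 := by
      rintro rfl
      rw [zero_mul] at h1
      exact hne A hA h1.symm
    refine ⟨B, A, hA, ?_⟩
    rw [← h1, inv_mul_cancel_left₀ hz0]

theorem tb {g : Fin 3 → K} (hi : AlgebraicIndependent ℂ g)
    (ht : IntermediateField.adjoin ℂ (Set.range g) = ⊤) : IsTranscendenceBasis ℂ g := by
  have h1 : Algebra.IsAlgebraic (IntermediateField.adjoin ℂ (Set.range g)) K :=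
    Cfg.isAlg_of_top _ ht
  exact hi.isTranscendenceBasis_iff_isAlgebraic.mpr
    (IntermediateField.isAlgebraic_adjoin_iff_top.mp h1)

end NCone

open NCone in
theorem cone_normal {t p q : K} (hi : AlgebraicIndependent ℂ ![t, p, q])
    (ht : IntermediateField.adjoin ℂ (Set.range ![t, p, q]) = ⊤) {H : K → ℂ → Prop}
    (hH : Place H) (h : ∀ i, H ((![p, p * t, q, q * t] : Fin 4 → K) i) 0)
    (hgen : ∀ z, (∃ c, H z c) → Gn H ![p, p * t, q, q * t] z) {z : K} {n : ℕ} {c : Fin n → K}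
    (hc : ∀ i, ∃ a, H (c i) a) (hz : z ^ n = ∑ i, c i * z ^ (i : ℕ)) : ∃ a, H z a := by
  have ht0 : t ≠ 0 := hi.ne_zero 0
  -- the second polynomial ring
  set g : Fin 3 → K := ![t⁻¹, p * t, q * t] with hg
  have hmem : ∀ i, (![t, p, q] : Fin 3 → K) i ∈ IntermediateField.adjoin ℂ (Set.range g) := by
    have h0 : t⁻¹ ∈ IntermediateField.adjoin ℂ (Set.range g) :=
      IntermediateField.subset_adjoin _ _ ⟨0, rfl⟩
    have h1 : p * t ∈ IntermediateField.adjoin ℂ (Set.range g) :=
      IntermediateField.subset_adjoin _ _ ⟨1, rfl⟩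
    have h2 : q * t ∈ IntermediateField.adjoin ℂ (Set.range g) :=
      IntermediateField.subset_adjoin _ _ ⟨2, rfl⟩
    intro i
    fin_cases i
    · simpa using inv_mem h0
    · have := mul_mem h1 h0
      rwa [mul_assoc, mul_inv_cancel₀ ht0, mul_one] at this
    · have := mul_mem h2 h0
      rwa [mul_assoc, mul_inv_cancel₀ ht0, mul_one] at this
  have hgi : AlgebraicIndependent ℂ g := by
    refine algInd_of_isAlg (tb hi ht) fun i => ?_
    rw [← IntermediateField.isAlgebraic_adjoin_iff]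
    exact isAlgebraic_algebraMap (⟨_, hmem i⟩ : IntermediateField.adjoin ℂ (Set.range g))
  have hgt : IntermediateField.adjoin ℂ (Set.range g) = ⊤ := by
    rw [eq_top_iff, ← ht]
    refine IntermediateField.adjoin_le_iff.mpr ?_
    rintro _ ⟨i, rfl⟩
    exact hmem i
  -- the ring of the cone
  set r : Fin 4 → K := ![p, p * t, q, q * t] with hr
  have hv : ∀ f : MvPolynomial (Fin 4) ℂ, H (aeval r f) (eval (fun _ => 0) f) := by
    intro f
    induction f using MvPolynomial.induction_on with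
    | C a => simpa using hH.const a
    | add p q hp hq => rw [map_add, map_add]; exact hH.add hp hq
    | mul_X p i h' => rw [map_mul, map_mul, aeval_X, eval_X]; exact hH.mul h' (h i)
  -- common denominator
  have hfr := fun i => gn_quot (c := fun _ => 0) hH h (hgen _ (hc i))
  choose A B hB hAB using hfr
  set S : MvPolynomial (Fin 4) ℂ := ∏ i, B i with hS
  have hS0 : eval (fun _ => (0 : ℂ)) S ≠ 0 := by
    rw [hS, map_prod]
    exact Finset.prod_ne_zero_iff.mpr fun i _ => hB i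
  have hcS : ∀ i, ∃ a : MvPolynomial (Fin 4) ℂ, aeval r a = aeval r S * c i := by
    intro i
    refine ⟨A i * ∏ j ∈ Finset.univ.erase i, B j, ?_⟩
    rw [map_mul, ← hAB, hS, ← Finset.mul_prod_erase _ _ (Finset.mem_univ i), map_mul]
    ring
  -- the cone ring lies in both polynomial rings
  have hr1 : ∀ f : MvPolynomial (Fin 4) ℂ, ∃ f' : MvPolynomial (Fin 3) ℂ,
      aeval ![t, p, q] f' = aeval r f := by
    refine aeval_mem r (fun x => ∃ f' : MvPolynomial (Fin 3) ℂ, aeval ![t, p, q] f' = x)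
      (fun c => ⟨C c, by simp⟩) ?_ ?_ ?_
    · rintro _ _ ⟨f, rfl⟩ ⟨f', rfl⟩
      exact ⟨f + f', map_add _ _ _⟩
    · rintro _ _ ⟨f, rfl⟩ ⟨f', rfl⟩
      exact ⟨f * f', map_mul _ _ _⟩
    · intro i
      fin_cases i
      · exact ⟨X 1, by simp [hr]⟩
      · exact ⟨X 1 * X 0, by simp [hr]⟩
      · exact ⟨X 2, by simp [hr]⟩
      · exact ⟨X 2 * X 0, by simp [hr]⟩
  have hr2 : ∀ f : MvPolynomial (Fin 4) ℂ, ∃ f' : MvPolynomial (Fin 3) ℂ,
      aeval g f' = aeval r f := by
    refine aeval_mem r (fun x => ∃ f' : MvPolynomial (Fin 3) ℂ, aeval g f' = x)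
      (fun c => ⟨C c, by simp⟩) ?_ ?_ ?_
    · rintro _ _ ⟨f, rfl⟩ ⟨f', rfl⟩
      exact ⟨f + f', map_add _ _ _⟩
    · rintro _ _ ⟨f, rfl⟩ ⟨f', rfl⟩
      exact ⟨f * f', map_mul _ _ _⟩
    · intro i
      fin_cases i
      · refine ⟨X 1 * X 0, ?_⟩
        simp [hr, hg, mul_assoc, mul_inv_cancel₀ ht0]
      · exact ⟨X 1, by simp [hr, hg]⟩
      · refine ⟨X 2 * X 0, ?_⟩
        simp [hr, hg, mul_assoc, mul_inv_cancel₀ ht0]
      · exact ⟨X 2, by simp [hr, hg]⟩
  -- the numerator is integral over both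
  have key : ∀ (par : Fin 3 → K), AlgebraicIndependent ℂ par →
      IntermediateField.adjoin ℂ (Set.range par) = ⊤ →
      (∀ f : MvPolynomial (Fin 4) ℂ, ∃ f' : MvPolynomial (Fin 3) ℂ,
        aeval par f' = aeval r f) → ∃ f : MvPolynomial (Fin 3) ℂ,
        aeval r S * z = aeval par f := by
    intro par hpi hpt hpr
    obtain ⟨s, hs⟩ := hpr S
    have h1 := integral_of (aeval par : MvPolynomial (Fin 3) ℂ →ₐ[ℂ] K).toRingHom (z := z) s c
      (fun i => by
        obtain ⟨a, ha⟩ := hcS i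
        obtain ⟨a', ha'⟩ := hpr a
        exact ⟨a', (ha'.trans ha).trans (by rw [← hs]; rfl)⟩) hz
    obtain ⟨f, hf⟩ := mem_range_of_integral hpi hpt h1
    exact ⟨f, by rw [← hf, ← hs]; rfl⟩
  obtain ⟨f1, hf1⟩ := key _ hi ht hr1
  obtain ⟨f2, hf2⟩ := key _ hgi hgt hr2
  have hfin : ∃ a, H (aeval ![t, p, q] f1) a := by
    have hcl : Cl H fun z => ∃ c, H z c := Fl.Place.cl hH
    exact inter_mem ht0 hi (hf1.symm.trans hf2) (P := fun z => ∃ c, H z c) hcl.const
      (fun _ _ => hcl.add) (fun _ _ => hcl.mul) ⟨0, h 0⟩ ⟨0, h 1⟩ ⟨0, h 2⟩ ⟨0, h 3⟩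
  rw [← hf1] at hfin
  obtain ⟨a, ha⟩ := hfin
  have hne : aeval r S ≠ 0 := by
    intro h0
    have h1 := hv S
    rw [h0] at h1
    have h2 := hH.const 0
    rw [map_zero] at h2
    exact hS0 (hH.uniq h1 h2)
  refine ⟨(eval (fun _ => (0 : ℂ)) S)⁻¹ * a, ?_⟩
  have h1 := hH.mul (hH.inv (hv S) hS0) ha
  rwa [inv_mul_cancel_left₀ hne] at h1

end Pool.Agent.Helper43.Fl
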