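import Pool.Agent.Helper43.FlPV0
import Pool.Agent.Helper43.FlNChart
import Pool.Agent.Helper43.FlNCone

open scoped KaehlerDifferential

noncomputable section

namespace Pool.Agent.Helper43.Fl

open Pool.Agent.Helper43 Pool.Agent.Helper43.ProjVar

variable {K : Type} [Field K] [Algebra ℂ K]

namespace Cfg

variable (C : Cfg K)

/-- The coordinates of a model from generators of the systems. -/
theorem coord_gen {s : Ix → Bool} {P : (C.on s).Pt} {m : ℕ} {par : Fin m → K}
    (hpar : ∀ q, ∃ c, HasVal P (par q) c) (g : Ix → J)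
    (hg : ∀ a, s a = true → C.sys a (g a) ≠ 0)
    (h : ∀ a, s a = true → ∀ j, Gn (HasVal P) par (C.sys a j / C.sys a (g a))) :
    ∃ e, P.p e ≠ 0 ∧ ∀ e', Gn (HasVal P) par ((C.on s).x e' / (C.on s).x e) := by
  have hH := place P
  have hcl := Gn.cl (HasVal P) par
  have hg' : ∀ a, C.ext s a (g a) ≠ 0 := by
    intro a
    cases ha : s a
    · rw [C.ext_false ha]
      exact one_ne_zero
    · rw [C.ext_true ha]
      exact hg a ha
  have h' : ∀ a j, Gn (HasVal P) par (C.ext s a j / C.ext s a (g a)) := by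
    intro a j
    cases ha : s a
    · rw [C.ext_false ha]
      simpa using hcl.one
    · rw [C.ext_true ha]
      exact h a ha j
  have hx0 : (C.on s).x g ≠ 0 := by
    rw [C.on_x]
    exact Finset.prod_ne_zero_iff.mpr fun a _ => hg' a
  have hgn : ∀ e', Gn (HasVal P) par ((C.on s).x e' / (C.on s).x g) := by
    intro e'
    rw [C.on_x, C.on_x, ← Finset.prod_div_distrib]
    exact hcl.prod _ fun a _ => h' a _
  exact ⟨g, pt_ne_of_regular P hx0 fun e' => Gn.reg hH hpar (hgn e'), hgn⟩

/-- The systems of the base of the flop of the curve `i`, over the curve. -/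
theorem cl_curve_Z {H : K → ℂ → Prop} {p : K → Prop} (hp : Cl H p) {i : Fin 5}
    (h1 : p (C.τ i / C.w)) (h2 : p (C.τ i)) (h3 : p (C.D i / C.w ^ 2)) (h4 : p (C.D i / C.w))
    {a : Ix} (ha : inZ i a = true) (j : J) : p (C.sys a j / C.sys a jo) := by
  have hw := C.w_ne
  have hκ : cc K (C.κ i) ≠ 0 := cc_ne (C.κ0 i)
  have hη : p (C.η / C.w) := by
    have h := hp.mul (hp.const (C.κ i)⁻¹) (hp.sub h4 h1)
    have e : algebraMap ℂ K (C.κ i)⁻¹ * (C.D i / C.w - C.τ i / C.w) = C.η / C.w := by
      rw [map_inv₀]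
      simp only [Cfg.D]
      field_simp
      ring
    rwa [e] at h
  have hz : ∀ l, p (C.τ i * C.z l / C.w) := by
    intro l
    have h := hp.add (hp.add (hp.mul h1 h2) (hp.mul h2 hη))
      (hp.mul (hp.const (tt i - tt l)) h1)
    have e : C.τ i / C.w * C.τ i + C.τ i * (C.η / C.w) +
        algebraMap ℂ K (tt i - tt l) * (C.τ i / C.w) = C.τ i * C.z l / C.w := by
      simp only [Cfg.τ, Cfg.z, Cfg.η, map_sub]
      field_simp
      ring
    rwa [e] at h
  have hm : ∀ (l : Fin 5) (q : Fin 4), p (C.m i l q / C.w) := by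
    intro l q
    fin_cases q
    · simpa [Cfg.m, hw] using hp.one
    · simpa [Cfg.m] using hη
    · simpa [Cfg.m] using hz l
    · by_cases hil : i = l
      · simpa [Cfg.m, hil] using (hil ▸ h1 : p (C.τ l / C.w))
      · simpa [Cfg.m, hil] using hp.zero
  cases a with
  | U =>
    have e : C.sys .U jo = 1 := by simp [sys]
    rw [e, div_one]
    rcases j with _ | ⟨q, q'⟩
    · exact hp.zero
    · fin_cases q
      · exact hp.one
      · have h := hp.add h2 (hp.const (tt i))
        have e : C.τ i + algebraMap ℂ K (tt i) = C.x := by simp only [Cfg.τ]; ring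
        rw [e] at h
        exact h
      · exact hp.zero
      · exact hp.zero
  | V => simp [inZ] at ha
  | W => simp [inZ] at ha
  | S => simp [inZ] at ha
  | F l => simp [inZ] at ha
  | M k l =>
    have hk : k = i := by simpa [inZ] using ha
    subst hk
    have e : C.sys (.M k l) jo = C.w := by simp [sys, m]
    rw [e]
    rcases j with _ | ⟨q, q'⟩
    · simpa [sys] using hp.zero
    · exact hm l q
  | N k l =>
    have hk : k = i := by simpa [inZ] using ha
    subst hk
    have e : C.sys (.N k l) jo = C.w * C.w := by simp [sys, m]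
    rw [e]
    rcases j with _ | ⟨q, q'⟩
    · by_cases hkl : k = l
      · have e1 : C.sys (.N k l) none / (C.w * C.w) = C.D k / C.w ^ 2 := by
          simp only [sys, if_pos hkl, pow_two]
        rw [e1]
        exact h3
      · have h5 := cc_ne (K := K) (tt_sub (Ne.symm hkl))
        have hh : p (C.h k l / C.w) := by
          have h := hp.add (hp.mul (hp.const (C.κ l - 1)) hη)
            (hp.mul (hz l) (hp.const (tt l - tt k)⁻¹))
          have e : algebraMap ℂ K (C.κ l - 1) * (C.η / C.w) +
              C.τ k * C.z l / C.w * algebraMap ℂ K (tt l - tt k)⁻¹ = C.h k l / C.w := by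
            simp only [map_inv₀, map_sub, map_one] at h5 ⊢
            simp only [Cfg.h, Cfg.D, Cfg.τ, Cfg.z, Cfg.η, map_sub]
            field_simp
            ring
          rwa [e] at h
        have h := hp.mul hh h1
        have e1 : C.h k l / C.w * (C.τ k / C.w) = C.sys (.N k l) none / (C.w * C.w) := by
          simp only [sys, if_neg hkl]
          field_simp
        rwa [e1] at h
    · have h := hp.mul (hm l q) (hm l q')
      have e1 : C.m k l q / C.w * (C.m k l q' / C.w) =
          C.sys (.N k l) (some (q, q')) / (C.w * C.w) := by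
        simp only [sys]
        field_simp
      rwa [e1] at h

/-- The generators over the curve `T`. -/
def gTT : Ix → J
  | .S => none
  | _ => jo

/-- The systems of the base of the flop of the curve `T`, over the curve. -/
theorem cl_curve_T {H : K → ℂ → Prop} {p : K → Prop} (hp : Cl H p)
    (h1 : p C.w⁻¹) (h2 : p (C.x / C.w)) (h3 : p (C.y / C.w)) (h4 : p (C.x * C.y / C.w))
    {a : Ix} (ha : inT a = true) (j : J) : p (C.sys a j / C.sys a (gTT a)) := by
  have hw := C.w_ne
  have hη : p (C.η / C.w) := by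
    have h := hp.sub h3 h2
    have e : C.y / C.w - C.x / C.w = C.η / C.w := by simp only [Cfg.η]; ring
    rwa [e] at h
  have hτ : ∀ l, p (C.τ l / C.w) := by
    intro l
    have h := hp.sub h2 (hp.mul (hp.const (tt l)) h1)
    have e : C.x / C.w - algebraMap ℂ K (tt l) * C.w⁻¹ = C.τ l / C.w := by
      simp only [Cfg.τ]
      field_simp
    rwa [e] at h
  have hz : ∀ k l, p (C.τ k * C.z l / C.w) := by
    intro k l
    have h := hp.sub (hp.sub h4 (hp.mul (hp.const (tt k)) h3)) (hp.mul (hp.const (tt l)) (hτ k))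
    have e : C.x * C.y / C.w - algebraMap ℂ K (tt k) * (C.y / C.w) -
        algebraMap ℂ K (tt l) * (C.τ k / C.w) = C.τ k * C.z l / C.w := by
      simp only [Cfg.τ, Cfg.z]
      field_simp
    rwa [e] at h
  have hD : ∀ l, p (C.D l / C.w) := by
    intro l
    have h := hp.add (hτ l) (hp.mul (hp.const (C.κ l)) hη)
    have e : C.τ l / C.w + algebraMap ℂ K (C.κ l) * (C.η / C.w) = C.D l / C.w := by
      simp only [Cfg.D]
      ring
    rwa [e] at h
  have hm : ∀ (k l : Fin 5) (q : Fin 4), p (C.m k l q / C.w) := by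
    intro k l q
    fin_cases q
    · simpa [Cfg.m, hw] using hp.one
    · simpa [Cfg.m] using hη
    · simpa [Cfg.m] using hz k l
    · by_cases hkl : k = l
      · simpa [Cfg.m, hkl] using hτ l
      · simpa [Cfg.m, hkl] using hp.zero
  cases a with
  | U => simp [inT] at ha
  | V => simp [inT] at ha
  | W => simp [inT] at ha
  | F l => simp [inT] at ha
  | S =>
    have e : C.sys .S (gTT .S) = C.w := by simp [sys, gTT]
    rw [e]
    rcases j with _ | ⟨q, q'⟩
    · simpa [sys, hw] using hp.one
    · fin_cases q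
      · simpa [sys] using h1
      · simpa [sys] using h2
      · simpa [sys] using h3
      · simpa [sys] using h4
  | M k l =>
    have e : C.sys (.M k l) (gTT (.M k l)) = C.w := by simp [sys, m, gTT]
    rw [e]
    rcases j with _ | ⟨q, q'⟩
    · simpa [sys] using hp.zero
    · exact hm k l q
  | N k l =>
    have e : C.sys (.N k l) (gTT (.N k l)) = C.w * C.w := by simp [sys, m, gTT]
    rw [e]
    rcases j with _ | ⟨q, q'⟩
    · by_cases hkl : k = l
      · have h := hp.mul (hD k) h1
        have e1 : C.D k / C.w * C.w⁻¹ = C.sys (.N k l) none / (C.w * C.w) := by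
          simp only [sys, if_pos hkl]
          field_simp
        rwa [e1] at h
      · have h5 := cc_ne (K := K) (tt_sub (Ne.symm hkl))
        have hh : p (C.h k l / C.w) := by
          have h := hp.add (hD l) (hp.mul (hz l l) (hp.const (tt l - tt k)⁻¹))
          have e : C.D l / C.w + C.τ l * C.z l / C.w * algebraMap ℂ K (tt l - tt k)⁻¹ =
              C.h k l / C.w := by
            simp only [map_inv₀]
            simp only [Cfg.h]
            field_simp
          rwa [e] at h
        have h := hp.mul hh (hτ k)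
        have e1 : C.h k l / C.w * (C.τ k / C.w) = C.sys (.N k l) none / (C.w * C.w) := by
          simp only [sys, if_neg hkl]
          field_simp
        rwa [e1] at h
    · have h := hp.mul (hm k l q) (hm k l q')
      have e1 : C.m k l q / C.w * (C.m k l q' / C.w) =
          C.sys (.N k l) (some (q, q')) / (C.w * C.w) := by
        simp only [sys]
        field_simp
      rwa [e1] at h

theorem gen_curve_Z {i : Fin 5} {Q : (C.on (inZ i)).Pt} (h₁ : HasVal Q (C.τ i) 0)
    (h₂ : HasVal Q (C.τ i / C.w) 0) (h₃ : HasVal Q (C.η / C.w) 0)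
    (h₄ : HasVal Q (C.D i / C.w ^ 2) 0) {z : K} (hz : RegularAt Q z) :
    Gn (HasVal Q) ![C.τ i / C.w, C.τ i / C.w * C.w, C.D i / C.w ^ 2, C.D i / C.w ^ 2 * C.w] z := by
  have hw := C.w_ne
  have hH := place Q
  set par : Fin 4 → K :=
    ![C.τ i / C.w, C.τ i / C.w * C.w, C.D i / C.w ^ 2, C.D i / C.w ^ 2 * C.w] with hpar
  have hcl := Gn.cl (HasVal Q) par
  have e1 : C.τ i / C.w * C.w = C.τ i := div_mul_cancel₀ _ hw
  have e2 : C.D i / C.w ^ 2 * C.w = C.D i / C.w := by field_simp
  have hDw : HasVal Q (C.D i / C.w) 0 := by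
    have h := hH.add h₂ (hH.mul (hH.const (C.κ i)) h₃)
    have e : C.τ i / C.w + algebraMap ℂ K (C.κ i) * (C.η / C.w) = C.D i / C.w := by
      simp only [Cfg.D]
      ring
    rw [e] at h
    simpa using h
  have hreg : ∀ q, ∃ c, HasVal Q (par q) c := by
    intro q
    refine ⟨0, ?_⟩
    fin_cases q
    · exact h₂
    · change HasVal Q (C.τ i / C.w * C.w) 0
      rw [e1]
      exact h₁
    · exact h₄
    · change HasVal Q (C.D i / C.w ^ 2 * C.w) 0
      rw [e2]
      exact hDw
  have g0 : Gn (HasVal Q) par (C.τ i / C.w) := Gn.par (HasVal Q) par 0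
  have g1 : Gn (HasVal Q) par (C.τ i) := by
    have := Gn.par (HasVal Q) par 1
    change Gn (HasVal Q) par (C.τ i / C.w * C.w) at this
    rwa [e1] at this
  have g2 : Gn (HasVal Q) par (C.D i / C.w ^ 2) := Gn.par (HasVal Q) par 2
  have g3 : Gn (HasVal Q) par (C.D i / C.w) := by
    have := Gn.par (HasVal Q) par 3
    change Gn (HasVal Q) par (C.D i / C.w ^ 2 * C.w) at this
    rwa [e2] at this
  obtain ⟨e, he, hgen⟩ := C.coord_gen (P := Q) hreg (fun _ => jo) (fun a _ => C.sys_ne a)
    fun a ha j => C.cl_curve_Z hcl g0 g1 g2 g3 ha j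
  obtain ⟨c, hc⟩ := hz
  exact hasVal_gn he hgen hc

theorem gen_curve_T {Q : (C.on inT).Pt} (h : C.OnT (HasVal Q)) {z : K} (hz : RegularAt Q z) :
    Gn (HasVal Q) ![C.w⁻¹, C.w⁻¹ * C.x, C.y / C.w, C.y / C.w * C.x] z := by
  have hw := C.w_ne
  have hH := place Q
  set par : Fin 4 → K := ![C.w⁻¹, C.w⁻¹ * C.x, C.y / C.w, C.y / C.w * C.x] with hpar
  have hcl := Gn.cl (HasVal Q) par
  have e1 : C.w⁻¹ * C.x = C.x / C.w := by field_simp
  have e2 : C.y / C.w * C.x = C.x * C.y / C.w := by ring
  have hreg : ∀ q, ∃ c, HasVal Q (par q) c := by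
    intro q
    refine ⟨0, ?_⟩
    fin_cases q
    · exact h.a
    · change HasVal Q (C.w⁻¹ * C.x) 0
      rw [e1]
      exact h.b
    · exact h.c
    · change HasVal Q (C.y / C.w * C.x) 0
      rw [e2]
      exact h.d
  have g0 : Gn (HasVal Q) par C.w⁻¹ := Gn.par (HasVal Q) par 0
  have g1 : Gn (HasVal Q) par (C.x / C.w) := by
    have := Gn.par (HasVal Q) par 1
    change Gn (HasVal Q) par (C.w⁻¹ * C.x) at this
    rwa [e1] at this
  have g2 : Gn (HasVal Q) par (C.y / C.w) := Gn.par (HasVal Q) par 2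
  have g3 : Gn (HasVal Q) par (C.x * C.y / C.w) := by
    have := Gn.par (HasVal Q) par 3
    change Gn (HasVal Q) par (C.y / C.w * C.x) at this
    rwa [e2] at this
  obtain ⟨e, he, hgen⟩ := C.coord_gen (P := Q) hreg gTT (fun a ha => by
      cases a with
      | S => simpa [sys, gTT] using hw
      | M k l => simpa [sys, m, gTT] using hw
      | N k l => simpa [sys, m, gTT] using hw
      | U => simp [inT] at ha
      | V => simp [inT] at ha
      | W => simp [inT] at ha
      | F l => simp [inT] at ha)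
    fun a ha j => C.cl_curve_T hcl g0 g1 g2 g3 ha j
  obtain ⟨c, hc⟩ := hz
  exact hasVal_gn he hgen hc

theorem indZ (i : Fin 5) :
    C.x ∈ IntermediateField.adjoin ℂ (Set.range ![C.w, C.τ i / C.w, C.D i / C.w ^ 2]) ∧
    C.y ∈ IntermediateField.adjoin ℂ (Set.range ![C.w, C.τ i / C.w, C.D i / C.w ^ 2]) ∧
    C.w ∈ IntermediateField.adjoin ℂ (Set.range ![C.w, C.τ i / C.w, C.D i / C.w ^ 2]) := by
  have hw := C.w_ne
  set E := IntermediateField.adjoin ℂ (Set.range ![C.w, C.τ i / C.w, C.D i / C.w ^ 2]) with hE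
  have h0 : C.w ∈ E := IntermediateField.subset_adjoin _ _ ⟨0, rfl⟩
  have h2 : C.τ i / C.w ∈ E := IntermediateField.subset_adjoin _ _ ⟨1, rfl⟩
  have h1 : C.D i / C.w ^ 2 ∈ E := IntermediateField.subset_adjoin _ _ ⟨2, rfl⟩
  have hc : ∀ c, cc K c ∈ E := fun c => E.algebraMap_mem c
  have hτ : C.τ i ∈ E := by
    have := mul_mem h2 h0
    rwa [div_mul_cancel₀ _ hw] at this
  have hx : C.x ∈ E := by
    have := add_mem hτ (hc (tt i))
    simpa [Cfg.τ] using this
  have hD : C.D i ∈ E := by
    have := mul_mem h1 (pow_mem h0 2)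
    rwa [div_mul_cancel₀ _ (pow_ne_zero 2 hw)] at this
  have hκ : cc K (C.κ i) ≠ 0 := cc_ne (C.κ0 i)
  have hη : C.η ∈ E := by
    have := div_mem (sub_mem hD hτ) (hc (C.κ i))
    have e : (C.D i - C.τ i) / cc K (C.κ i) = C.η := by
      simp only [Cfg.D]
      field_simp
      ring
    rwa [e] at this
  have hy : C.y ∈ E := by
    have := add_mem hη hx
    simpa [Cfg.η] using this
  exact ⟨hx, hy, h0⟩

theorem indT :
    C.x ∈ IntermediateField.adjoin ℂ (Set.range ![C.x, C.w⁻¹, C.y / C.w]) ∧
    C.y ∈ IntermediateField.adjoin ℂ (Set.range ![C.x, C.w⁻¹, C.y / C.w]) ∧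
    C.w ∈ IntermediateField.adjoin ℂ (Set.range ![C.x, C.w⁻¹, C.y / C.w]) := by
  have hw := C.w_ne
  set E := IntermediateField.adjoin ℂ (Set.range ![C.x, C.w⁻¹, C.y / C.w]) with hE
  have hx : C.x ∈ E := IntermediateField.subset_adjoin _ _ ⟨0, rfl⟩
  have h1 : C.w⁻¹ ∈ E := IntermediateField.subset_adjoin _ _ ⟨1, rfl⟩
  have h2 : C.y / C.w ∈ E := IntermediateField.subset_adjoin _ _ ⟨2, rfl⟩
  have h0 : C.w ∈ E := by
    have := inv_mem h1
    rwa [inv_inv] at this
  have hy : C.y ∈ E := by
    have := mul_mem h2 h0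
    rwa [div_mul_cancel₀ _ hw] at this
  exact ⟨hx, hy, h0⟩

theorem norm_Z (i : Fin 5) : (C.on (inZ i)).IsNormal := by
  intro Q z n c hc hz
  have hw := C.w_ne
  have hH := place Q
  have hU : inZ i .U = true := rfl
  have hM : ∀ l, inZ i (.M i l) = true := fun l => by simp [inZ]
  have hN : ∀ l, inZ i (.N i l) = true := fun l => by simp [inZ]
  rcases CZ.genS_or C hH (C.on_gen Q hU) (C.on_gen Q (hM i)) (C.on_gen Q (hN i)) with
    hS | ⟨h1, h2, h3, h4⟩
  · obtain ⟨T, hT⟩ := C.chart_exists hH (C.on_gen Q hU) hS (by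
      intro l hx hy hw
      by_cases hl : l = i
      · subst hl
        exact C.cluster_self hH hx hy hw (C.on_gen Q (hM l)) (C.on_gen Q (hN l))
      · exact C.cluster_other hH (Ne.symm hl) hx hy hw (C.on_gen Q (hM l)) (C.on_gen Q (hN l)))
    exact C.normal_chart (fun a ha => CZ.inZ_inX ha) hT hc hz
  · have hDw : HasVal Q (C.D i / C.w) 0 := by
      have h := hH.add h2 (hH.mul (hH.const (C.κ i)) h3)
      have e : C.τ i / C.w + algebraMap ℂ K (C.κ i) * (C.η / C.w) = C.D i / C.w := by
        simp only [Cfg.D]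
        ring
      rw [e] at h
      simpa using h
    have hm := C.indZ i
    refine cone_normal (t := C.w) (p := C.τ i / C.w) (q := C.D i / C.w ^ 2)
      (C.ind_of_mem _ hm.1 hm.2.1 hm.2.2) (C.top_of_mem _ hm.1 hm.2.1 hm.2.2) hH ?_
      (fun z hz => C.gen_curve_Z h1 h2 h3 h4 hz) hc hz
    intro q
    fin_cases q
    · exact h2
    · change HasVal Q (C.τ i / C.w * C.w) 0
      rw [div_mul_cancel₀ _ hw]
      exact h1
    · exact h4
    · change HasVal Q (C.D i / C.w ^ 2 * C.w) 0
      have e2 : C.D i / C.w ^ 2 * C.w = C.D i / C.w := by field_simp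
      rw [e2]
      exact hDw

theorem norm_T : (C.on inT).IsNormal := by
  intro Q z n c hc hz
  have hw := C.w_ne
  have hH := place Q
  have hTX : ∀ a, inT a = true → inX a = true := fun a ha => by
    cases a <;> simp_all [inX, inT]
  rcases C.dich_T hH (C.on_gen Q (a := .S) rfl) with hU | hT
  · obtain ⟨T, hT⟩ := C.chart_exists hH hU (C.on_gen Q (a := .S) rfl) (by
      intro l hx hy hw
      exact C.cluster_self hH hx hy hw (C.on_gen Q (a := .M l l) rfl)
        (C.on_gen Q (a := .N l l) rfl))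
    exact C.normal_chart hTX hT hc hz
  · have hm := C.indT
    refine cone_normal (t := C.x) (p := C.w⁻¹) (q := C.y / C.w)
      (C.ind_of_mem _ hm.1 hm.2.1 hm.2.2) (C.top_of_mem _ hm.1 hm.2.1 hm.2.2) hH ?_
      (fun z hz => C.gen_curve_T hT hz) hc hz
    intro q
    fin_cases q
    · exact hT.a
    · change HasVal Q (C.w⁻¹ * C.x) 0
      have e1 : C.w⁻¹ * C.x = C.x / C.w := by field_simp
      rw [e1]
      exact hT.b
    · exact hT.c
    · change HasVal Q (C.y / C.w * C.x) 0
      have e2 : C.y / C.w * C.x = C.x * C.y / C.w := by ring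
      rw [e2]
      exact hT.d

end Cfg

end Pool.Agent.Helper43.Fl
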