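import Pool.Agent.Helper43.GeoBase

namespace Pool.Agent.Helper43.ProjVar

variable {k K : Type} [Field k] [Field K] [Algebra k K]

/-- The variety is normal: an element of `K` which is integral over the local ring of a closed
point lies in this local ring. -/
def IsNormal (Z : ProjVar k K) : Prop :=
  ∀ (Q : Z.Pt) (z : K) (n : ℕ) (c : Fin n → K), (∀ i, RegularAt Q (c i)) →
    z ^ n = ∑ i, c i * z ^ (i : ℕ) → RegularAt Q z

end Pool.Agent.Helper43.ProjVar
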