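import Pool.Agent.Helper43.FlPV0

open scoped KaehlerDifferential

noncomputable section

namespace Pool.Agent.Helper43.Fl

open Pool.Agent.Helper43 Pool.Agent.Helper43.ProjVar MvPolynomial

variable {K : Type} [Field K] [Algebra ℂ K]

namespace PV

variable (u : PV K)

theorem v_one' : u.v 1 = 0 := by simpa using u.const 1

theorem v_inv' (a : K) : u.v a⁻¹ = -u.v a := by
  by_cases ha : a = 0
  · subst ha; simp [u.zero]
  · have h := u.mul a a⁻¹ ha (inv_ne_zero ha)
    rw [mul_inv_cancel₀ ha, u.v_one'] at h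
    omega

theorem v_div' {a b : K} (ha : a ≠ 0) (hb : b ≠ 0) : u.v (a / b) = u.v a - u.v b := by
  rw [div_eq_mul_inv, u.mul a b⁻¹ ha (inv_ne_zero hb), u.v_inv']
  ring

theorem nn_mul {a b : K} (ha : 0 ≤ u.v a) (hb : 0 ≤ u.v b) : 0 ≤ u.v (a * b) := by
  by_cases h0 : a = 0
  · subst h0; simp [u.zero]
  by_cases h1 : b = 0
  · subst h1; simp [u.zero]
  rw [u.mul a b h0 h1]; omega

theorem nn_add {a b : K} (ha : 0 ≤ u.v a) (hb : 0 ≤ u.v b) : 0 ≤ u.v (a + b) := by
  by_cases h0 : a = 0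
  · subst h0; simpa using hb
  by_cases h1 : b = 0
  · subst h1; simpa using ha
  by_cases h2 : a + b = 0
  · rw [h2, u.zero]
  have := u.add a b h0 h1 h2
  omega

theorem nn_cc (c : ℂ) : 0 ≤ u.v (cc K c) := (u.const c).ge

theorem nn_sub {a b : K} (ha : 0 ≤ u.v a) (hb : 0 ≤ u.v b) : 0 ≤ u.v (a - b) := by
  have h := u.nn_add ha (u.nn_mul (u.nn_cc (-1)) hb)
  have h1 : a + cc K (-1) * b = a - b := by
    rw [cc_neg, cc_one]; ring
  rwa [h1] at h

theorem v_sq {a : K} (ha : a ≠ 0) : u.v (a ^ 2) = 2 * u.v a := by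
  rw [sq, u.mul a a ha ha]; ring

end PV

namespace Cfg

variable (C : Cfg K)

/-- The polynomial of `τ i`. -/
def tauP (i : Fin 5) : MvPolynomial (Fin 3) ℂ := X 0 - MvPolynomial.C (tt i)

/-- The polynomial of `D i`. -/
def DP (i : Fin 5) : MvPolynomial (Fin 3) ℂ :=
  X 0 - MvPolynomial.C (tt i) + MvPolynomial.C (C.κ i) * (X 1 - X 0)

theorem ae0 : aeval C.b (X 0 : MvPolynomial (Fin 3) ℂ) = C.x := by simp [b]
theorem ae1 : aeval C.b (X 1 : MvPolynomial (Fin 3) ℂ) = C.y := by simp [b]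
theorem ae2 : aeval C.b (X 2 : MvPolynomial (Fin 3) ℂ) = C.w := by simp [b]
theorem aeT (i : Fin 5) : aeval C.b (tauP i) = C.τ i := by simp [b, tauP, τ]
theorem aeD (i : Fin 5) : aeval C.b (C.DP i) = C.D i := by simp [b, DP, D, τ, η]

theorem nonbd_nn {u : PV K} {i : Fin 5} (h1 : 0 ≤ u.v (C.τ i)) (h2 : 0 ≤ u.v (C.D i))
    (h3 : 0 ≤ u.v C.w) : ∀ k, 0 ≤ u.v (C.b k) := by
  have hx : 0 ≤ u.v C.x := by
    have h := u.nn_add h1 (u.nn_cc (tt i))
    have e : C.τ i + cc K (tt i) = C.x := by simp [τ]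
    rwa [e] at h
  have hy : 0 ≤ u.v C.y := by
    have h := u.nn_add (u.nn_mul (u.nn_cc (C.κ i)⁻¹)
      (u.nn_sub h2 (u.nn_mul (u.nn_cc (1 - C.κ i)) h1))) (u.nn_cc (tt i))
    have hk : cc K (C.κ i) ≠ 0 := cc_ne (C.κ0 i)
    have e : cc K (C.κ i)⁻¹ * (C.D i - cc K (1 - C.κ i) * C.τ i) + cc K (tt i) = C.y := by
      rw [cc_inv, C.D_eq i]
      simp only [z]
      field_simp
      ring
    rwa [e] at h
  intro k
  fin_cases k
  · exact hx
  · exact hy
  · exact h3

theorem nonbd_aux (T : Ty) {u : PV K} (h₂ : ∀ k, 0 ≤ u.v (C.b k))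
    (h : MvPolynomial (Fin 3) ℂ) (hne : aeval C.b h ≠ 0) (hv : u.v (aeval C.b h) = 0)
    (N : Fin 3 → ℕ) (a : Fin 3 → MvPolynomial (Fin 3) ℂ)
    (ha : ∀ k, C.par T k * aeval C.b h ^ N k = aeval C.b (a k)) :
    (∀ k, 0 ≤ u.v (C.b k)) ∧
    ∃ h : MvPolynomial (Fin 3) ℂ, h ≠ 0 ∧ u.v (aeval C.b h) = 0 ∧
      ∀ k, ∃ (N : ℕ) (a : MvPolynomial (Fin 3) ℂ), C.par T k * aeval C.b h ^ N = aeval C.b a := by
  refine ⟨h₂, h, ?_, hv, fun k => ⟨N k, a k, ha k⟩⟩
  rintro rfl
  exact hne (map_zero _)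

theorem nonbd_one {p : Fin 3 → K} {q : MvPolynomial (Fin 3) ℂ} (hq : Prime q) {j : Fin 3}
    (hb : ¬ X j ∣ q) {u : PV K} (hu : IsPV p q u) : u.v (p j) = 0 := by
  have h0 := hu.nonneg (X j)
  rw [aeval_X] at h0
  rcases h0.eq_or_lt with h | h
  · exact h.symm
  · exfalso
    have h1 : q ∣ X j := hu.dvd _ (X_ne_zero j) (by rwa [aeval_X])
    have hX : Prime (X j : MvPolynomial (Fin 3) ℂ) := X_prime
    exact hb ((hq.associated_of_dvd hX h1).symm.dvd)

theorem nonbd (T : Ty) {q : MvPolynomial (Fin 3) ℂ} (hq : Prime q)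
    (hb : ∀ j, bd T j = true → ¬ X j ∣ q) {u : PV K} (hu : IsPV (C.par T) q u) :
    (∀ j, bd T j = true → u.v (C.par T j) = 0) ∧ (∀ k, 0 ≤ u.v (C.b k)) ∧
    ∃ h : MvPolynomial (Fin 3) ℂ, h ≠ 0 ∧ u.v (aeval C.b h) = 0 ∧
      ∀ k, ∃ (N : ℕ) (a : MvPolynomial (Fin 3) ℂ), C.par T k * aeval C.b h ^ N = aeval C.b a := by
  have hB : ∀ j, bd T j = true → u.v (C.par T j) = 0 := fun j hj => nonbd_one hq (hb j hj) hu
  have hP : ∀ j, 0 ≤ u.v (C.par T j) := fun j => by
    simpa using hu.nonneg (X j)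
  refine ⟨hB, ?_⟩
  clear hu hb
  have hx := C.x_ne
  have hy := C.y_ne
  have hw := C.w_ne
  match T, hB, hP with
  | .a, hB, hP =>
    refine C.nonbd_aux _ ?_ 1 (by simp) (by simpa using u.v_one') (fun _ => 0) ![X 0, X 1, X 2] ?_
    · intro k
      have := hP k
      fin_cases k <;> simpa [par, b] using this
    · intro k
      fin_cases k <;> simp [par, b]
  | .b, hB, hP =>
    have h1 : u.v C.y = 0 := by
      have := hB 1 (by simp [bd])
      simp only [par, Matrix.cons_val_one, Matrix.cons_val_zero, u.v_inv'] at this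
      omega
    have h0 := hP 0
    have h2 := hP 2
    simp only [par, Matrix.cons_val_zero, Matrix.cons_val] at h0 h2
    rw [u.v_div' hw hy] at h2
    refine C.nonbd_aux _ ?_ (X 1) (by rwa [C.ae1]) (by rwa [C.ae1]) ![0, 1, 1]
      ![X 0, 1, X 2] ?_
    · intro k
      fin_cases k
      · exact h0
      · exact h1.ge
      · change 0 ≤ u.v C.w
        omega
    · intro k
      rw [C.ae1]
      fin_cases k
      · simp [par, b]
      · simp [par, hy]
      · simp [par, b, hy]
  | .c, hB, hP =>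
    have h1 : u.v C.w = 0 := by
      have := hB 1 (by simp [bd])
      simp only [par, Matrix.cons_val_one, Matrix.cons_val_zero, u.v_inv'] at this
      omega
    have h0 := hP 0
    have h2 := hP 2
    simp only [par, Matrix.cons_val_zero, Matrix.cons_val] at h0 h2
    rw [u.v_div' hy hw] at h2
    refine C.nonbd_aux _ ?_ (X 2) (by rwa [C.ae2]) (by rwa [C.ae2]) ![0, 1, 1]
      ![X 0, 1, X 1] ?_
    · intro k
      fin_cases k
      · exact h0
      · change 0 ≤ u.v C.y
        omega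
      · exact h1.ge
    · intro k
      rw [C.ae2]
      fin_cases k
      · simp [par, b]
      · simp [par, hw]
      · simp [par, b, hw]
  | .a', hB, hP =>
    have h1 : u.v C.x = 0 := by
      have := hB 0 (by simp [bd])
      simp only [par, Matrix.cons_val_zero, u.v_inv'] at this
      omega
    have h0 := hP 1
    have h2 := hP 2
    simp only [par, Matrix.cons_val_one, Matrix.cons_val_zero, Matrix.cons_val] at h0 h2
    rw [u.v_div' hw hx] at h2
    refine C.nonbd_aux _ ?_ (X 0) (by rwa [C.ae0]) (by rwa [C.ae0]) ![1, 0, 1]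
      ![1, X 1, X 2] ?_
    · intro k
      fin_cases k
      · exact h1.ge
      · exact h0
      · change 0 ≤ u.v C.w
        omega
    · intro k
      rw [C.ae0]
      fin_cases k
      · simp [par, hx]
      · simp [par, b]
      · simp [par, b, hx]
  | .b', hB, hP =>
    have h1 : u.v C.x = 0 := by
      have := hB 0 (by simp [bd])
      simp only [par, Matrix.cons_val_zero, u.v_inv'] at this
      omega
    have h1' : u.v C.y = 0 := by
      have := hB 1 (by simp [bd])
      simp only [par, Matrix.cons_val_one, Matrix.cons_val_zero, u.v_inv'] at this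
      omega
    have h2 := hP 2
    simp only [par, Matrix.cons_val] at h2
    rw [u.v_div' hw (mul_ne_zero hx hy), u.mul _ _ hx hy] at h2
    refine C.nonbd_aux _ ?_ (X 0 * X 1) (by rw [map_mul, C.ae0, C.ae1]; exact mul_ne_zero hx hy)
      (by rw [map_mul, C.ae0, C.ae1, u.mul _ _ hx hy, h1, h1']; rfl) ![1, 1, 1]
      ![X 1, X 0, X 2] ?_
    · intro k
      fin_cases k
      · exact h1.ge
      · exact h1'.ge
      · change 0 ≤ u.v C.w
        omega
    · intro k
      rw [map_mul, C.ae0, C.ae1]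
      fin_cases k
      · simp [par, b, hx]
      · simp [par, b]
        field_simp
      · simp [par, b]
        field_simp
  | .c', hB, hP =>
    have h1 : u.v C.x = 0 := by
      have := hB 0 (by simp [bd])
      simp only [par, Matrix.cons_val_zero, u.v_inv'] at this
      omega
    have h1' : u.v C.w = 0 := by
      have := hB 1 (by simp [bd])
      simp only [par, Matrix.cons_val_one, Matrix.cons_val_zero] at this
      rw [u.v_div' hx hw] at this
      omega
    have h2 := hP 2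
    simp only [par, Matrix.cons_val] at h2
    rw [u.v_div' (mul_ne_zero hx hy) hw, u.mul _ _ hx hy] at h2
    refine C.nonbd_aux _ ?_ (X 0 * X 2) (by rw [map_mul, C.ae0, C.ae2]; exact mul_ne_zero hx hw)
      (by rw [map_mul, C.ae0, C.ae2, u.mul _ _ hx hw, h1, h1']; rfl) ![1, 1, 1]
      ![X 2, X 0 ^ 2, X 0 ^ 2 * X 1] ?_
    · intro k
      fin_cases k
      · exact h1.ge
      · change 0 ≤ u.v C.y
        omega
      · exact h1'.ge
    · intro k
      rw [map_mul, C.ae0, C.ae2]
      fin_cases k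
      · simp [par, b, hx]
      · simp [par, b]
        field_simp
      · simp [par, b]
        field_simp
  | .q i 0, hB, hP =>
    have ht := C.τ_ne i
    have hD := C.D_ne i
    have h1 : u.v (C.τ i) = 0 := by
      have := hB 0 (by simp [bd])
      simpa only [par, Matrix.cons_val_zero] using this
    have h0 := hP 1
    have h2 := hP 2
    simp only [par, Matrix.cons_val_one, Matrix.cons_val_zero, Matrix.cons_val] at h0 h2
    rw [u.v_div' hw ht] at h2
    rw [u.v_div' hD (pow_ne_zero 2 ht), u.v_sq ht] at h0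
    refine C.nonbd_aux _ (C.nonbd_nn h1.ge (by omega) (by omega)) (tauP i) (by rwa [C.aeT])
      (by rwa [C.aeT]) ![0, 2, 1] ![tauP i, C.DP i, X 2] ?_
    intro k
    rw [C.aeT]
    fin_cases k
    · simp [par, C.aeT]
    · simp [par, C.aeD, ht]
    · simp [par, b, ht]
  | .q i 1, hB, hP =>
    have ht := C.τ_ne i
    have hD := C.D_ne i
    have h1 : u.v C.w = 0 := by
      have := hB 0 (by simp [bd])
      simpa only [par, Matrix.cons_val_zero] using this
    have h0 := hP 1
    have h2 := hP 2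
    simp only [par, Matrix.cons_val_one, Matrix.cons_val_zero, Matrix.cons_val] at h0 h2
    rw [u.v_div' ht hw] at h2
    rw [u.v_div' hD (pow_ne_zero 2 hw), u.v_sq hw] at h0
    refine C.nonbd_aux _ (C.nonbd_nn (i := i) (by omega) (by omega) (by omega)) (X 2)
      (by rwa [C.ae2]) (by rwa [C.ae2]) ![0, 2, 1] ![X 2, C.DP i, tauP i] ?_
    intro k
    rw [C.ae2]
    fin_cases k
    · simp [par, b]
    · simp [par, C.aeD, hw]
    · simp [par, C.aeT, hw]
  | .q i 2, hB, hP =>
    have ht := C.τ_ne i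
    have hD := C.D_ne i
    have h1 := hB 0 (by simp [bd])
    have h1' := hB 1 (by simp [bd])
    have h2 := hP 2
    simp only [par, Matrix.cons_val_one, Matrix.cons_val_zero, Matrix.cons_val] at h1 h1' h2
    rw [u.v_div' hw ht] at h2
    rw [u.v_div' (pow_ne_zero 2 ht) hD, u.v_sq ht] at h1
    rw [u.v_div' hD ht] at h1'
    have e1 : u.v (C.τ i) = 0 := by omega
    have e2 : u.v (C.D i) = 0 := by omega
    refine C.nonbd_aux _ (C.nonbd_nn e1.ge e2.ge (by omega)) (tauP i * C.DP i)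
      (by rw [map_mul, C.aeT, C.aeD]; exact mul_ne_zero ht hD)
      (by rw [map_mul, C.aeT, C.aeD, u.mul _ _ ht hD, e1, e2]; rfl) ![1, 1, 1]
      ![tauP i ^ 3, C.DP i ^ 2, X 2 * C.DP i] ?_
    intro k
    rw [map_mul, C.aeT, C.aeD]
    fin_cases k
    · simp only [par, Fin.zero_eta, Matrix.cons_val_zero, map_pow, C.aeT]
      field_simp
    · simp only [par, Fin.mk_one, Matrix.cons_val_one, Matrix.cons_val_zero, map_pow, C.aeD]
      field_simp
    · simp only [par, Fin.reduceFinMk, Matrix.cons_val, map_mul, C.ae2, C.aeD]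
      field_simp
  | .q i 3, hB, hP =>
    have ht := C.τ_ne i
    have hD := C.D_ne i
    have h1 := hB 0 (by simp [bd])
    have h1' := hB 1 (by simp [bd])
    have h2 := hP 2
    simp only [par, Matrix.cons_val_one, Matrix.cons_val_zero, Matrix.cons_val] at h1 h1' h2
    rw [u.v_div' ht hw] at h2
    rw [u.v_div' (pow_ne_zero 2 hw) hD, u.v_sq hw] at h1
    rw [u.v_div' hD hw] at h1'
    have e1 : u.v C.w = 0 := by omega
    have e2 : u.v (C.D i) = 0 := by omega
    refine C.nonbd_aux _ (C.nonbd_nn (i := i) (by omega) e2.ge e1.ge) (X 2 * C.DP i)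
      (by rw [map_mul, C.ae2, C.aeD]; exact mul_ne_zero hw hD)
      (by rw [map_mul, C.ae2, C.aeD, u.mul _ _ hw hD, e1, e2]; rfl) ![1, 1, 1]
      ![X 2 ^ 3, C.DP i ^ 2, tauP i * C.DP i] ?_
    intro k
    rw [map_mul, C.ae2, C.aeD]
    fin_cases k
    · simp only [par, Fin.zero_eta, Matrix.cons_val_zero, map_pow, C.ae2]
      field_simp
    · simp only [par, Fin.mk_one, Matrix.cons_val_one, Matrix.cons_val_zero, map_pow, C.aeD]
      field_simp
    · simp only [par, Fin.reduceFinMk, Matrix.cons_val, map_mul, C.aeT, C.aeD]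
      field_simp
  | .q i 4, hB, hP =>
    have ht := C.τ_ne i
    have hD := C.D_ne i
    have h1 : u.v (C.D i) = 0 := by
      have := hB 0 (by simp [bd])
      simpa only [par, Matrix.cons_val_zero] using this
    have h0 := hP 1
    have h2 := hP 2
    simp only [par, Matrix.cons_val_one, Matrix.cons_val_zero, Matrix.cons_val] at h0 h2
    rw [u.v_div' hw hD] at h2
    rw [u.v_div' ht hD] at h0
    refine C.nonbd_aux _ (C.nonbd_nn (i := i) (by omega) (by omega) (by omega)) (C.DP i)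
      (by rwa [C.aeD]) (by rwa [C.aeD]) ![0, 1, 1] ![C.DP i, tauP i, X 2] ?_
    intro k
    rw [C.aeD]
    fin_cases k
    · simp [par, C.aeD]
    · simp [par, C.aeT, hD]
    · simp [par, b, hD]

end Cfg

end Pool.Agent.Helper43.Fl
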