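import Pool.Agent.Helper43.FlAll
import Pool.Agent.Helper43.FlNm

open scoped KaehlerDifferential

noncomputable section

namespace Pool.Agent.Helper43.Fl

open Pool.Agent.Helper43 Pool.Agent.Helper43.ProjVar

variable {K : Type} [Field K] [Algebra ℂ K]

/-- A valuation with integral values, without a condition on the residue field. -/
structure PV (K : Type) [Field K] [Algebra ℂ K] where
  v : K → ℤ
  zero : v 0 = 0
  mul : ∀ a b, a ≠ 0 → b ≠ 0 → v (a * b) = v a + v b
  add : ∀ a b, a ≠ 0 → b ≠ 0 → a + b ≠ 0 → min (v a) (v b) ≤ v (a + b)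
  const : ∀ c : ℂ, v (algebraMap ℂ K c) = 0

/-- The valuation of the prime element `q` of the polynomial ring in the `p k`. -/
structure IsPV (p : Fin 3 → K) (q : MvPolynomial (Fin 3) ℂ) (u : PV K) : Prop where
  one : u.v (MvPolynomial.aeval p q) = 1
  nonneg : ∀ f : MvPolynomial (Fin 3) ℂ, 0 ≤ u.v (MvPolynomial.aeval p f)
  dvd : ∀ f : MvPolynomial (Fin 3) ℂ, f ≠ 0 → 0 < u.v (MvPolynomial.aeval p f) → q ∣ f

/-- The names of the boundary divisors. -/
inductive Dv
  | D1 | D2
  | E1 (i : Fin 5)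
  | E2 (i : Fin 5)
  deriving DecidableEq

/-- The parameters of the charts which define boundary divisors. -/
def bd : Ty → Fin 3 → Bool
  | .a, _ => false
  | .b, j => j = 1
  | .c, j => j = 1
  | .a', j => j = 0
  | .b', j => j ≠ 2
  | .c', j => j ≠ 2
  | .q _ 0, j => j = 0
  | .q _ 1, j => j = 0
  | .q _ 2, j => j ≠ 2
  | .q _ 3, j => j ≠ 2
  | .q _ 4, j => j = 0

/-- The boundary divisor defined by a parameter. -/
def dv : Ty → Fin 3 → Dv
  | .a, _ => .D1
  | .b, _ => .D2
  | .c, _ => .D2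
  | .a', _ => .D1
  | .b', j => if j = 0 then .D1 else .D2
  | .c', j => if j = 0 then .D1 else .D2
  | .q i 0, _ => .E2 i
  | .q i 1, _ => .E2 i
  | .q i 2, j => if j = 0 then .E1 i else .E2 i
  | .q i 3, j => if j = 0 then .E1 i else .E2 i
  | .q i 4, _ => .E1 i

end Pool.Agent.Helper43.Fl
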