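import Pool.Agent.Helper43.FlPV
import Pool.Agent.Helper43.FlHt
import Pool.Agent.Helper43.FlFrac
import Pool.Agent.Helper43.FlCop
import Pool.Agent.Helper43.FlCen
import Pool.Agent.Helper43.FlParInd
import Pool.Agent.Helper43.FlBdVal
import Pool.Agent.Helper43.FlNonBd

open scoped KaehlerDifferential

noncomputable section

namespace Pool.Agent.Helper43.Fl

open Pool.Agent.Helper43 Pool.Agent.Helper43.ProjVar MvPolynomial

variable {K : Type} [Field K] [Algebra ℂ K]

section PVal

variable (u : PV K)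

theorem pv_one : u.v 1 = 0 := by simpa using u.const 1

theorem pv_inv (a : K) : u.v a⁻¹ = -u.v a := by
  by_cases h : a = 0
  · simp [h, u.zero]
  · have := u.mul a a⁻¹ h (inv_ne_zero h)
    rw [mul_inv_cancel₀ h, pv_one] at this
    omega

theorem pv_div (a b : K) (ha : a ≠ 0) (hb : b ≠ 0) : u.v (a / b) = u.v a - u.v b := by
  rw [div_eq_mul_inv, u.mul _ _ ha (inv_ne_zero hb), pv_inv]
  ring

theorem pv_pow (a : K) (ha : a ≠ 0) (m : ℕ) : u.v (a ^ m) = m * u.v a := by
  induction m with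
  | zero => simp [pv_one]
  | succ m ih =>
    rw [pow_succ, u.mul _ _ (pow_ne_zero _ ha) ha, ih]
    push_cast
    ring

theorem pv_zpow (a : K) (ha : a ≠ 0) (m : ℤ) : u.v (a ^ m) = m * u.v a := by
  cases m with
  | ofNat m => simpa using pv_pow u a ha m
  | negSucc m =>
    rw [zpow_negSucc, pv_inv, pv_pow u a ha, Int.negSucc_eq]
    push_cast
    ring

theorem pv_prod {ι : Type} (s : Finset ι) (f : ι → K) (hf : ∀ i ∈ s, f i ≠ 0) :
    u.v (∏ i ∈ s, f i) = ∑ i ∈ s, u.v (f i) := by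
  classical
  induction s using Finset.induction_on with
  | empty => simp [pv_one]
  | insert i s hi ih =>
    rw [Finset.prod_insert hi, Finset.sum_insert hi, u.mul _ _ (hf i (Finset.mem_insert_self _ _))
      (Finset.prod_ne_zero_iff.mpr fun j hj => hf j (Finset.mem_insert_of_mem hj)),
      ih fun j hj => hf j (Finset.mem_insert_of_mem hj)]

theorem dv_prod {n : ℕ} (u : DivVal ℂ K n) {ι : Type} (s : Finset ι) (f : ι → K)
    (hf : ∀ i ∈ s, f i ≠ 0) : u.v (∏ i ∈ s, f i) = ∑ i ∈ s, u.v (f i) := by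
  classical
  induction s using Finset.induction_on with
  | empty => simp [v_one]
  | insert i s hi ih =>
    rw [Finset.prod_insert hi, Finset.sum_insert hi, u.mul _ _ (hf i (Finset.mem_insert_self _ _))
      (Finset.prod_ne_zero_iff.mpr fun j hj => hf j (Finset.mem_insert_of_mem hj)),
      ih fun j hj => hf j (Finset.mem_insert_of_mem hj)]

/-- A coordinate of an algebraically independent family is nonzero. -/
theorem ind_ne {p : Fin 3 → K} (hi : AlgebraicIndependent ℂ p) (j : Fin 3) : p j ≠ 0 :=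
  hi.ne_zero j

theorem pv_add_nonneg {a b : K} (ha : 0 ≤ u.v a) (hb : 0 ≤ u.v b) : 0 ≤ u.v (a + b) := by
  by_cases h1 : a = 0
  · simpa [h1] using hb
  by_cases h2 : b = 0
  · simpa [h2] using ha
  by_cases h3 : a + b = 0
  · rw [h3, u.zero]
  have := u.add a b h1 h2 h3
  omega

theorem pv_mul_nonneg {a b : K} (ha : 0 ≤ u.v a) (hb : 0 ≤ u.v b) : 0 ≤ u.v (a * b) := by
  by_cases h1 : a = 0
  · simp [h1, u.zero]
  by_cases h2 : b = 0
  · simp [h2, u.zero]
  rw [u.mul _ _ h1 h2]
  omega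

theorem pv_aeval_nonneg {m : ℕ} {p : Fin m → K} (h : ∀ k, 0 ≤ u.v (p k))
    (f : MvPolynomial (Fin m) ℂ) : 0 ≤ u.v (aeval p f) := by
  induction f using MvPolynomial.induction_on with
  | C a => rw [aeval_C, u.const]
  | add f g hf hg => rw [map_add]; exact pv_add_nonneg u hf hg
  | mul_X f k hf => rw [map_mul, aeval_X]; exact pv_mul_nonneg u hf (h k)

end PVal

/-- Elements of the local ring have nonnegative value at the primes through the point. -/
theorem reg_nonneg {H : K → ℂ → Prop} (hH : Place H) {par : Fin 3 → K} {c : Fin 3 → ℂ}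
    (hc : ∀ q, H (par q) (c q)) {q : MvPolynomial (Fin 3) ℂ}
    (hq : eval c q = 0) {u : PV K} (hu : IsPV par q u) {z : K} (hz : Gn H par z) :
    0 ≤ u.v z := by
  obtain ⟨A, B, hB, hAB⟩ := gn_frac hH hc hz
  have hB0 : B ≠ 0 := by
    rintro rfl
    exact hB (map_zero _)
  have h1 := hu.nonneg B
  have h2 : u.v (aeval par B) = 0 := by
    by_contra h3
    obtain ⟨D, rfl⟩ := hu.dvd B hB0 (by omega)
    rw [map_mul, hq, zero_mul] at hB
    exact hB rfl
  have hBne : aeval par B ≠ 0 := by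
    intro h3
    have key : ∀ f : MvPolynomial (Fin 3) ℂ, H (aeval par f) (eval c f) := by
      intro f
      induction f using MvPolynomial.induction_on with
      | C a => simpa using hH.const a
      | add f g hf hg => simpa using hH.add hf hg
      | mul_X f l hf => simpa using hH.mul hf (hc l)
    have h4 := key B
    rw [h3] at h4
    exact hB (hH.uniq h4 hH.zero)
  by_cases hz0 : z = 0
  · rw [hz0, u.zero]
  · have h3 := hu.nonneg A
    rw [← hAB, u.mul _ _ hz0 hBne, h2] at h3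
    omega

namespace Cfg

variable (C : Cfg K)

/-- The exponent of a boundary divisor in a chart. -/
def bx (n : Dv → ℤ) (T : Ty) (j : Fin 3) : ℤ := if bd T j = true then n (dv T j) else 0

/-- The local equation of a base point free linear system without fixed part on the affine
space. -/
theorem pic_local {ι : Type} [Finite ι] {f : ι → MvPolynomial (Fin 3) ℂ}
    (hcop : ¬ ∃ π, Prime π ∧ ∀ i, π ∣ f i) {U : Dv → PV K}
    (hU : ∀ d T j, bd T j = true → dv T j = d → IsPV (C.par T) (X j) (U d)) {n : Dv → ℤ}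
    (hn : ∀ d, (∀ i, f i ≠ 0 → n d ≤ (U d).v (aeval C.b (f i))) ∧
      ∃ i, f i ≠ 0 ∧ (U d).v (aeval C.b (f i)) = n d)
    {H : K → ℂ → Prop} (hH : Place H) {T : Ty} (hreg : ∀ q, ∃ c, H (C.par T q) c)
    (hgn : ∀ z, (∃ c, H z c) → Gn H (C.par T) z) {i : ι} (hi : f i ≠ 0)
    (hgen : ∀ l, ∃ c, H (aeval C.b (f l) / aeval C.b (f i)) c) :
    ∃ a, a ≠ 0 ∧ H (aeval C.b (f i) * ∏ j, C.par T j ^ (-bx n T j)) a := by
  choose c hc using hreg
  have hpar0 : ∀ j, C.par T j ≠ 0 := ind_ne (C.par_ind T)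
  have hb0 : ∀ l, f l ≠ 0 → aeval C.b (f l) ≠ 0 := fun l hl h0 =>
    hl ((algebraicIndependent_iff.mp C.b_ind) _ h0)
  have hP0 : ∏ j, C.par T j ^ (-bx n T j) ≠ 0 :=
    Finset.prod_ne_zero_iff.mpr fun j _ => zpow_ne_zero _ (hpar0 j)
  refine unit_crit_of hH (fun q hq => exists_pv (C.par_ind T) (C.par_top T) hq) hc (C.par_ind T) (C.par_top T) (mul_ne_zero (hb0 i hi) hP0) ?_
  intro q hq hqc u hu
  have hle : ∀ l, f l ≠ 0 → u.v (aeval C.b (f i)) ≤ u.v (aeval C.b (f l)) := by
    intro l hl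
    have h1 := reg_nonneg hH hc hqc hu (hgn _ (hgen l))
    rw [pv_div u _ _ (hb0 l hl) (hb0 i hi)] at h1
    omega
  have hval : u.v (aeval C.b (f i) * ∏ j, C.par T j ^ (-bx n T j)) =
      u.v (aeval C.b (f i)) - ∑ j, bx n T j * u.v (C.par T j) := by
    rw [u.mul _ _ (hb0 i hi) hP0, pv_prod u _ _ fun j _ => zpow_ne_zero _ (hpar0 j)]
    simp_rw [pv_zpow u _ (hpar0 _)]
    rw [sub_eq_add_neg, ← Finset.sum_neg_distrib]
    congr 1
    exact Finset.sum_congr rfl fun j _ => by ring
  rw [hval]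
  by_cases hb : ∃ j, bd T j = true ∧ X j ∣ q
  · obtain ⟨j, hj, hjq⟩ := hb
    have hass : Associated (X j) q := MvPolynomial.X_prime.associated_of_dvd hq hjq
    have hUd := hU _ T j hj rfl
    have heq : ∀ z, (U (dv T j)).v z = u.v z := fun z =>
      pv_unique (C.par_ind T) (C.par_top T) MvPolynomial.X_prime hass hUd hu z
    have h1 : ∀ k, u.v (C.par T k) = if k = j then 1 else 0 := by
      intro k
      rw [← heq]
      split_ifs with hkj
      · subst hkj
        simpa using hUd.one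
      · have h2 := hUd.nonneg (X k)
        rw [aeval_X] at h2
        by_contra h3
        have h4 := hUd.dvd (X k) (MvPolynomial.X_ne_zero k) (by rw [aeval_X]; omega)
        rw [MvPolynomial.X_dvd_X] at h4
        exact hkj h4.symm
    have h2 : ∑ k, bx n T k * u.v (C.par T k) = n (dv T j) := by
      simp_rw [h1]
      simp [bx, hj]
    rw [h2]
    obtain ⟨h3, l, hl, h4⟩ := hn (dv T j)
    have h5 := h3 i hi
    rw [heq] at h5 h4
    have h6 := hle l hl
    omega
  · push Not at hb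
    obtain ⟨h1, h2, h, hh0, hh, hpar⟩ := C.nonbd T hq hb hu
    have h3 : ∑ k, bx n T k * u.v (C.par T k) = 0 := by
      refine Finset.sum_eq_zero fun k _ => ?_
      unfold bx
      split_ifs with hk
      · rw [h1 k hk, mul_zero]
      · rw [zero_mul]
    rw [h3, sub_zero]
    have h4 := pv_aeval_nonneg u h2 (f i)
    by_contra h5
    apply hcop
    refine height_one C.b_ind (C.par_ind T) (C.par_top T) hq hu h2 hh0 hh hpar f fun l => ?_
    by_cases hl : f l = 0
    · exact Or.inl hl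
    · right
      have h6 := hle l hl
      omega

/-- The coefficients of the class in terms of the exponents. -/
def rx (n : Dv → ℤ) : Ix → ℝ
  | .U => n .D2 - n .D1
  | .S => -n .D2 - ∑ i, (n (.E2 i) : ℝ)
  | .M i j => if i = j then 2 * n (.E1 i) - n (.E2 i) else 0
  | .N i j => if i = j then n (.E2 i) - n (.E1 i) else 0
  | _ => 0

theorem rx_sum (n : Dv → ℤ) (e : Ix → ℝ) : (∑ a, if inX a = true then rx n a * e a else 0) =
    rx n .U * e .U + rx n .S * e .S + ∑ i, ((2 * n (.E1 i) - n (.E2 i)) * e (.M i i) +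
      (n (.E2 i) - n (.E1 i)) * e (.N i i)) := by
  rw [Ample.sum_Ix]
  simp only [inX, if_true, Bool.false_eq_true, if_false, rx, Finset.sum_add_distrib,
    ite_mul, zero_mul, Finset.sum_ite_eq, Finset.mem_univ, Finset.sum_const_zero]
  ring

/-- The value of the local equation. -/
theorem pic_val (n : Dv → ℤ) (u : DivVal ℂ K 2) (T : Ty) :
    ((∑ j, bx n T j * u.v (C.par T j) : ℤ) : ℝ) =
      ∑ a, if inX a = true then rx n a * (u.v (C.fac T a) : ℝ) else 0 := by
  rw [rx_sum]
  have hx := C.x_ne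
  have hy := C.y_ne
  have hw := C.w_ne
  have e1 : ∀ a : K, a ≠ 0 → u.v (a ^ 2) = 2 * u.v a := fun a ha => by
    rw [v_pow u a ha]; rfl
  have exy : u.v (C.x * C.y) = u.v C.x + u.v C.y := u.mul _ _ hx hy
  cases T with
  | a =>
    simp [bx, bd, fac, gU, gS, v_one]
  | b =>
    simp only [bx, bd, dv, par, fac, gU, gS, Fin.sum_univ_three, v_one, e1 _ hy, rx]
    simp [Finset.sum_add_distrib, ← Finset.sum_mul, Finset.sum_sub_distrib, v_inv]
    simp only [Fin.sum_univ_five]
    ring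
  | c =>
    simp only [bx, bd, dv, par, fac, gU, gS, Fin.sum_univ_three, v_one, v_inv, e1 _ hw, rx]
    simp [v_inv]
    simp only [Fin.sum_univ_five]
    ring
  | a' =>
    simp only [bx, bd, dv, par, fac, gU, gS, Fin.sum_univ_three, v_one, v_inv, e1 _ hx, rx]
    simp [v_inv]
    simp only [Fin.sum_univ_five]
    ring
  | b' =>
    simp only [bx, bd, dv, par, fac, gU, gS, Fin.sum_univ_three, v_one, v_inv,
      e1 _ (mul_ne_zero hx hy), exy, rx]
    simp [v_inv]
    simp only [Fin.sum_univ_five]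
    ring
  | c' =>
    simp only [bx, bd, dv, par, fac, gU, gS, Fin.sum_univ_three, v_one, v_inv, e1 _ hw, rx]
    simp [v_inv, v_div u _ _ hx hw]
    simp only [Fin.sum_univ_five]
    ring
  | q i r =>
    have hs : ∑ k, ((2 * (n (.E1 k) : ℝ) - n (.E2 k)) * (u.v (C.fac (.q i r) (.M k k)) : ℝ) +
        ((n (.E2 k) : ℝ) - n (.E1 k)) * (u.v (C.fac (.q i r) (.N k k)) : ℝ)) =
        (2 * (n (.E1 i) : ℝ) - n (.E2 i)) * (u.v (C.gM i r) : ℝ) +
          ((n (.E2 i) : ℝ) - n (.E1 i)) * (u.v (C.gN i r) : ℝ) := by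
      rw [Finset.sum_eq_single i]
      · simp [fac]
      · intro k _ hk
        simp [fac, hk, v_one]
      · intro h
        exact absurd (Finset.mem_univ i) h
    rw [hs]
    have hτ := C.τ_ne i
    have hD := C.D_ne i
    have h1 : u.v (C.fac (.q i r) .U) = 0 := by simp [fac, gU, v_one]
    have h2 : u.v (C.fac (.q i r) .S) = 0 := by simp [fac, gS, v_one]
    rw [h1, h2]
    have e2 : u.v (C.τ i ^ 2 / C.D i) = 2 * u.v (C.τ i) - u.v (C.D i) := by
      rw [v_div u _ _ (pow_ne_zero _ hτ) hD, e1 _ hτ]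
    have e3 : u.v (C.w ^ 2 / C.D i) = 2 * u.v C.w - u.v (C.D i) := by
      rw [v_div u _ _ (pow_ne_zero _ hw) hD, e1 _ hw]
    have e4 : u.v (C.D i / C.τ i) = u.v (C.D i) - u.v (C.τ i) := v_div u _ _ hD hτ
    have e5 : u.v (C.D i / C.w) = u.v (C.D i) - u.v C.w := v_div u _ _ hD hw
    fin_cases r <;>
      simp [bx, bd, dv, par, gM, gN, Fin.sum_univ_three, e1 _ hτ, e1 _ hw, e2, e3, e4, e5] <;> ring

/-- The Picard group: the pull-back of the hyperplane section of a variety dominated by the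
threefold is, modulo principal divisors, a combination of the classes of the systems. -/
theorem pic {Y : ProjVar ℂ K} (h : (C.on inX).Dominates Y) : ∃ r : Ix → ℝ,
    (Y.hyp 2 - fun u => -∑ a, if inX a = true then r a * C.e a u else 0) ∈
      principal ℂ K 2 := by
  have := Y.fin
  obtain ⟨g, f, hg, hf, hcop⟩ := coprime_rep C.b_ind C.b_top Y.x Y.x_ne
  choose U hU using C.bd_val
  have hf0 : ∀ i, Y.x i ≠ 0 → f i ≠ 0 := by
    rintro i hi h0
    rw [hf, h0, map_zero, mul_zero] at hi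
    exact hi rfl
  have hn : ∀ d, ∃ m : ℤ, (∀ i, f i ≠ 0 → m ≤ (U d).v (aeval C.b (f i))) ∧
      ∃ i, f i ≠ 0 ∧ (U d).v (aeval C.b (f i)) = m := by
    intro d
    have : Nonempty {i // f i ≠ 0} := ⟨⟨Y.o, hf0 _ Y.x_ne⟩⟩
    obtain ⟨⟨i, hi⟩, him⟩ := Finite.exists_min
      (fun i : {i // f i ≠ 0} => (U d).v (aeval C.b (f i.1)))
    exact ⟨_, fun l hl => him ⟨l, hl⟩, i, hi, rfl⟩
  choose n hn using hn
  refine ⟨rx n, ?_⟩
  have key : (Y.hyp 2 - fun u => -∑ a, if inX a = true then rx n a * C.e a u else 0) =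
      fun u : DivVal ℂ K 2 => (u.v (Y.x Y.o / g) : ℝ) := by
    funext u
    simp only [Pi.sub_apply]
    obtain ⟨P, hP⟩ := exists_centre_val (X := C.on inX) u
    obtain ⟨T, hT⟩ := C.point_chart P
    obtain ⟨Q, hQ⟩ := h P
    obtain ⟨i, hi⟩ := Q.exists_ne
    have hxi := Pt.x_ne hi
    have hfi := hf0 i hxi
    have hb0 : ∀ l, f l ≠ 0 → aeval C.b (f l) ≠ 0 := fun l hl h0 =>
      hl ((algebraicIndependent_iff.mp C.b_ind) _ h0)
    have hrat : ∀ l, aeval C.b (f l) / aeval C.b (f i) = Y.x l / Y.x i := by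
      intro l
      have h1 := hb0 i hfi
      rw [hf l, hf i]
      field_simp
    obtain ⟨e, he, hgn⟩ := C.chart_coord hT
    obtain ⟨a, ha, hHa⟩ := C.pic_local hcop hU hn (place P) hT.reg
      (fun z ⟨c, hz⟩ => hasVal_gn he hgn hz) hfi (fun l => by
        rw [hrat l]
        exact ⟨_, hQ _ _ (hasVal_ratio hi l)⟩)
    have hpar0 : ∀ j, C.par T j ≠ 0 := ind_ne (C.par_ind T)
    have hP0 : ∏ j, C.par T j ^ (-bx n T j) ≠ 0 :=
      Finset.prod_ne_zero_iff.mpr fun j _ => zpow_ne_zero _ (hpar0 j)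
    have hF0 : u.v (aeval C.b (f i) * ∏ j, C.par T j ^ (-bx n T j)) = 0 := by
      have h1 := hP _ ⟨_, hHa⟩
      have h2 := hP _ ⟨_, (place P).inv hHa ha⟩
      rw [v_inv] at h2
      omega
    have hzp : ∀ (z : K) (m : ℤ), z ≠ 0 → u.v (z ^ m) = m * u.v z := by
      intro z m hz
      cases m with
      | ofNat m => simpa using v_pow u z hz m
      | negSucc m =>
        rw [zpow_negSucc, v_inv, v_pow u z hz, Int.negSucc_eq]
        push_cast
        ring
    have hval : u.v (aeval C.b (f i)) = ∑ j, bx n T j * u.v (C.par T j) := by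
      rw [u.mul _ _ (hb0 i hfi) hP0, dv_prod u _ _ fun j _ => zpow_ne_zero _ (hpar0 j)] at hF0
      simp_rw [fun j => hzp _ (-bx n T j) (hpar0 j)] at hF0
      have h1 : ∑ j, -bx n T j * u.v (C.par T j) = -∑ j, bx n T j * u.v (C.par T j) := by
        rw [← Finset.sum_neg_distrib]
        exact Finset.sum_congr rfl fun j _ => by ring
      rw [h1] at hF0
      omega
    have hsum : (∑ a, if inX a = true then rx n a * (C.e a u : ℝ) else 0) =
        (u.v (aeval C.b (f i)) : ℝ) := by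
      rw [hval, C.pic_val n u T]
      refine Finset.sum_congr rfl fun a _ => ?_
      split_ifs with ha
      · rw [C.pr_e_fac u hP hT ha]
      · rfl
    rw [hsum]
    have hxo := Y.x_ne
    have hvx : ∀ l, Y.x l ≠ 0 → u.v (Y.x Y.o / Y.x l) = u.v (Y.x Y.o / Y.x i) -
        u.v (Y.x l / Y.x i) := by
      intro l hl
      rw [v_div u _ _ hxo hl, v_div u _ _ hxo hxi, v_div u _ _ hl hxi]
      ring
    have hge : ∀ l, Y.x l ≠ 0 → u.v (Y.x Y.o / Y.x l) ≤ u.v (Y.x Y.o / Y.x i) := by
      intro l hl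
      have h1 := hP _ ⟨_, hQ _ _ (hasVal_ratio hi l)⟩
      rw [hvx l hl]
      omega
    have hhyp : Y.hyp 2 u = (u.v (Y.x Y.o / Y.x i) : ℝ) := by
      refine le_antisymm (hyp_le Y u ?_ fun l hl => ?_) (le_hyp Y u i)
      · have h1 := hge Y.o hxo
        rw [div_self hxo, v_one] at h1
        exact_mod_cast h1
      · exact_mod_cast hge l hl
    rw [hhyp]
    have h1 : u.v (Y.x Y.o / Y.x i) = u.v (Y.x Y.o / g) - u.v (aeval C.b (f i)) := by
      rw [v_div u _ _ hxo hxi, v_div u _ _ hxo hg]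
      have h2 := hf i
      rw [h2, u.mul _ _ hg (hb0 i hfi)]
      ring
    rw [h1]
    push_cast
    ring
  rw [key]
  exact mem_principal _

end Cfg

end Pool.Agent.Helper43.Fl
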