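import Pool.Agent.Helper43.FlChart0

open scoped KaehlerDifferential

noncomputable section

namespace Pool.Agent.Helper43.Fl

open Pool.Agent.Helper43 Pool.Agent.Helper43.ProjVar

variable {K : Type} [Field K] [Algebra ℂ K]

namespace Cfg

/-- Algebraically independent functions take any prescribed values at a suitable place. -/
theorem exists_place {g : Fin 3 → K} (hg : AlgebraicIndependent ℂ g) (c : Fin 3 → ℂ) :
    ∃ H : K → ℂ → Prop, Place H ∧ ∀ q, H (g q) (c q) := by
  have hne : ∀ A : MvPolynomial (Fin 3) ℂ, MvPolynomial.eval c A ≠ 0 →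
      MvPolynomial.aeval g A ≠ 0 := by
    intro A hA h0
    rw [(algebraicIndependent_iff.mp hg) A h0] at hA
    exact hA (map_zero _)
  refine ⟨fun z a => ∃ A B : MvPolynomial (Fin 3) ℂ, MvPolynomial.eval c B ≠ 0 ∧
    z * MvPolynomial.aeval g B = MvPolynomial.aeval g A ∧
    a * MvPolynomial.eval c B = MvPolynomial.eval c A, ⟨?_, ?_, ?_, ?_, ?_⟩, ?_⟩
  · intro a
    exact ⟨MvPolynomial.C a, 1, by simp, by simp, by simp⟩
  · rintro z z' a a' ⟨A, B, h0, h1, h2⟩ ⟨A', B', h0', h1', h2'⟩
    refine ⟨A * B' + A' * B, B * B', ?_, ?_, ?_⟩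
    · rw [map_mul]
      exact mul_ne_zero h0 h0'
    · simp only [map_mul, map_add]
      rw [← h1, ← h1']
      ring
    · simp only [map_mul, map_add]
      rw [← h2, ← h2']
      ring
  · rintro z z' a a' ⟨A, B, h0, h1, h2⟩ ⟨A', B', h0', h1', h2'⟩
    refine ⟨A * A', B * B', ?_, ?_, ?_⟩
    · rw [map_mul]
      exact mul_ne_zero h0 h0'
    · simp only [map_mul]
      rw [← h1, ← h1']
      ring
    · simp only [map_mul]
      rw [← h2, ← h2']
      ring
  · rintro z a ⟨A, B, h0, h1, h2⟩ ha
    have hA : MvPolynomial.eval c A ≠ 0 := by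
      rw [← h2]
      exact mul_ne_zero ha h0
    have hA' := hne A hA
    have hz : z ≠ 0 := by
      rintro rfl
      rw [zero_mul] at h1
      exact hA' h1.symm
    refine ⟨B, A, hA, ?_, ?_⟩
    · rw [← h1]
      field_simp
    · rw [← h2]
      field_simp
  · rintro z a a' ⟨A, B, h0, h1, h2⟩ ⟨A', B', h0', h1', h2'⟩
    have h3 : MvPolynomial.aeval g (A * B' - A' * B) = 0 := by
      simp only [map_mul, map_sub]
      rw [← h1, ← h1']
      ring
    have h4 := (algebraicIndependent_iff.mp hg) _ h3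
    have h5 := congrArg (MvPolynomial.eval c) h4
    simp only [map_mul, map_sub, map_zero] at h5
    rw [← h2, ← h2'] at h5
    have h6 : (a - a') * (MvPolynomial.eval c B * MvPolynomial.eval c B') = 0 := by
      rw [← h5]
      ring
    rcases mul_eq_zero.mp h6 with h | h
    · exact sub_eq_zero.mp h
    · exact absurd h (mul_ne_zero h0 h0')
  · intro q
    exact ⟨MvPolynomial.X q, 1, by simp, by simp, by simp⟩

end Cfg

end Pool.Agent.Helper43.Fl
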