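import Pool.Agent.Helper43.FlPlace

open scoped KaehlerDifferential

noncomputable section

namespace Pool.Agent.Helper43.Fl

open Pool.Agent.Helper43 Pool.Agent.Helper43.ProjVar

variable {K : Type} [Field K] [Algebra ℂ K]

theorem place_prod {H : K → ℂ → Prop} (hH : Place H) {A : Type*} (t : Finset A) {f : A → K}
    {v : A → ℂ} (h : ∀ a ∈ t, H (f a) (v a)) : H (∏ a ∈ t, f a) (∏ a ∈ t, v a) := by
  classical
  induction t using Finset.induction_on with
  | empty => simpa using hH.one
  | insert a t ha ih =>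
    rw [Finset.prod_insert ha, Finset.prod_insert ha]
    exact hH.mul (h a (Finset.mem_insert_self _ _))
      (ih fun b hb => h b (Finset.mem_insert_of_mem hb))

omit [Algebra ℂ K] in
/-- Generators are preserved when the place is enlarged. -/
theorem GenAt.mono {H H' : K → ℂ → Prop} {s : J → K} (hs : GenAt H s)
    (h : ∀ z c, H z c → H' z c) : GenAt H' s := by
  obtain ⟨j, hj, hr⟩ := hs
  refine ⟨j, hj, fun i => ?_⟩
  obtain ⟨c, hc⟩ := hr i
  exact ⟨c, h _ _ hc⟩

/-- A generator of the larger place is a generator of the smaller one, if there is one. -/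
theorem gen_transfer {H H' : K → ℂ → Prop} (hH : Place H) (hH' : Place H')
    (h : ∀ z c, H z c → H' z c) {s : J → K} (hs : GenAt H s) {g : J} (hg : s g ≠ 0) {v : J → ℂ}
    (hv : ∀ j, H' (s j / s g) (v j)) (j : J) : H (s j / s g) (v j) := by
  obtain ⟨j0, hj0, hr⟩ := hs
  obtain ⟨c, hc⟩ := hr g
  have h1 := hH'.mul (h _ _ hc) (hv j0)
  have h2 : s g / s j0 * (s j0 / s g) = 1 := by field_simp
  rw [h2] at h1
  have h3 : c * v j0 = 1 := hH'.uniq h1 hH'.one
  have hc0 : c ≠ 0 := by
    rintro rfl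
    rw [zero_mul] at h3
    exact zero_ne_one h3
  obtain ⟨d, hd⟩ := hr j
  have h4 := hH.div hd hc hc0
  have h5 : s j / s j0 / (s g / s j0) = s j / s g := by field_simp
  rw [h5] at h4
  rwa [hH'.uniq (hv j) (h _ _ h4)]

/-- Rescaling of the coordinates of a point. -/
def scale {X : ProjVar ℂ K} (P : X.Pt) {r : ℂ} (hr : r ≠ 0) : X.Pt where
  p i := r * P.p i
  ne h := by
    obtain ⟨j, hj⟩ := P.exists_ne
    have := congrFun h j
    exact mul_ne_zero hr hj this
  vanish n f hf h0 := by
    have h1 := P.vanish n f hf h0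
    have h2 := aeval_smul_homog hf r P.p
    rw [← MvPolynomial.coe_aeval_eq_eval] at h1 ⊢
    simp only [RingHom.coe_coe] at h1 ⊢
    rw [h2, h1, mul_zero]

namespace Cfg

variable (C : Cfg K)

/-- The systems of a model, with a constant system in place of the missing ones. -/
def ext (s : Ix → Bool) (a : Ix) : J → K := bif s a then C.sys a else fun _ => 1

theorem ext_true {s : Ix → Bool} {a : Ix} (h : s a = true) : C.ext s a = C.sys a := by
  simp [ext, h]

theorem ext_false {s : Ix → Bool} {a : Ix} (h : s a = false) : C.ext s a = fun _ => 1 := by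
  simp [ext, h]

theorem on_x (s : Ix → Bool) (e : Ix → J) : (C.on s).x e = ∏ a, C.ext s a (e a) := rfl

/-- The values of the ratios of coordinates. -/
theorem pts_ratio {s : Ix → Bool} {H : K → ℂ → Prop} (hH : Place H) {g : Ix → J}
    {v : Ix → J → ℂ} (hv : ∀ a j, H (C.ext s a j / C.ext s a (g a)) (v a j)) (e : Ix → J) :
    H ((C.on s).x e / (C.on s).x g) (∏ a, v a (e a)) := by
  rw [C.on_x, C.on_x, ← Finset.prod_div_distrib]
  exact place_prod hH _ fun a _ => hv a (e a)

/-- The coordinates of a point, from the values of the generators. -/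
theorem pts_coord {s : Ix → Bool} (P : (C.on s).Pt) {g : Ix → J} (hg : ∀ a, C.ext s a (g a) ≠ 0)
    {v : Ix → J → ℂ} (hv : ∀ a j, HasVal P (C.ext s a j / C.ext s a (g a)) (v a j)) :
    P.p g ≠ 0 ∧ ∀ e : Ix → J, P.p e = P.p g * ∏ a, v a (e a) := by
  have hH := place P
  have hxg : (C.on s).x g ≠ 0 := by
    rw [C.on_x]
    exact Finset.prod_ne_zero_iff.mpr fun a _ => hg a
  have h1 := C.pts_ratio hH hv
  obtain ⟨e1, he1⟩ := P.exists_ne
  have hx1 := Pt.x_ne he1
  have hg0 : P.p g ≠ 0 := by
    intro h0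
    have h2 := hH.mul (hasVal_ratio he1 g) (h1 e1)
    have h3 : (C.on s).x g / (C.on s).x e1 * ((C.on s).x e1 / (C.on s).x g) = 1 := by field_simp
    rw [h3, h0, zero_div, zero_mul] at h2
    exact zero_ne_one (hH.uniq h2 hH.one)
  refine ⟨hg0, fun e => ?_⟩
  have h2 := hH.uniq (hasVal_ratio hg0 e) (h1 e)
  rw [← h2]
  field_simp

/-- The existence of a point with given values of the generators. -/
theorem pts_exists {s : Ix → Bool} {H : K → ℂ → Prop} (hH : Place H) {g : Ix → J}
    (hg : ∀ a, C.ext s a (g a) ≠ 0) {v : Ix → J → ℂ}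
    (hv : ∀ a j, H (C.ext s a j / C.ext s a (g a)) (v a j)) {r : ℂ} (hr : r ≠ 0) :
    ∃ P : (C.on s).Pt, ∀ e : Ix → J, P.p e = r * ∏ a, v a (e a) := by
  have hxg : (C.on s).x g ≠ 0 := by
    rw [C.on_x]
    exact Finset.prod_ne_zero_iff.mpr fun a _ => hg a
  have h1 := C.pts_ratio hH hv
  obtain ⟨Q, -, hQ⟩ := exists_centre (Y := C.on s) hH hxg fun e => ⟨_, h1 e⟩
  refine ⟨scale Q hr, fun e => ?_⟩
  change r * Q.p e = _
  rw [hH.uniq (hQ e) (h1 e)]

/-- The ratio of two elements of a system at a point. -/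
theorem pts_update {s : Ix → Bool} {P : (C.on s).Pt} {e : Ix → J} (he : P.p e ≠ 0) {a : Ix}
    (ha : s a = true) (j : J) :
    HasVal P (C.sys a j / C.sys a (e a)) (P.p (Function.update e a j) / P.p e) := by
  have h := hasVal_ratio he (Function.update e a j)
  have h1 := model_ratio (k := ℂ) (s := fun a => bif s a then C.sys a else fun _ => 1)
    (hs := fun a => by
      cases s a
      · simp
      · simpa using C.sys_ne a) e (model_x_ne he) a j
  have h2 : (C.on s).x (Function.update e a j) / (C.on s).x e = C.sys a j / C.sys a (e a) := by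
    have h3 := h1
    simp only [ha, cond_true] at h3
    exact h3
  rwa [h2] at h

/-- Two points of a model with the same values of the generators are equal. -/
theorem pts_same {s : Ix → Bool} {P P' : (C.on s).Pt} {g : Ix → J}
    (hg : ∀ a, C.ext s a (g a) ≠ 0) {v : Ix → J → ℂ}
    (hv : ∀ a j, HasVal P (C.ext s a j / C.ext s a (g a)) (v a j))
    (hv' : ∀ a j, HasVal P' (C.ext s a j / C.ext s a (g a)) (v a j)) :
    ∃ r : ℂ, ∀ i, P'.p i = r * P.p i := by
  obtain ⟨h0, h1⟩ := C.pts_coord P hg hv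
  obtain ⟨h0', h1'⟩ := C.pts_coord P' hg hv'
  refine ⟨P'.p g / P.p g, fun e => ?_⟩
  rw [h1 e, h1' e]
  field_simp

/-- Two points with a place between: if all systems have generators at the intersection of the
local rings, the points are equal. -/
theorem pts_inter {s : Ix → Bool} {P P' : (C.on s).Pt}
    (h : ∀ a, s a = true → GenAt (fun z c => HasVal P z c ∧ HasVal P' z c) (C.sys a)) :
    ∃ r : ℂ, ∀ i, P'.p i = r * P.p i := by
  obtain ⟨Q, hQ⟩ := C.on_exists (place_inter (place P) (place P')) h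
  obtain ⟨r1, h1⟩ := same_of_mapsTo (P := Q) (P' := P) fun z c hz => (hQ z c hz).1
  obtain ⟨r2, h2⟩ := same_of_mapsTo (P := Q) (P' := P') fun z c hz => (hQ z c hz).2
  have hr1 : r1 ≠ 0 := by
    rintro rfl
    apply P.ne
    funext i
    simp [h1]
  refine ⟨r2 / r1, fun i => ?_⟩
  rw [h1, h2]
  field_simp

end Cfg

end Pool.Agent.Helper43.Fl
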