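import Pool.Agent.Helper43.FlVal

open scoped KaehlerDifferential

noncomputable section

namespace Pool.Agent.Helper43.Fl

open Pool.Agent.Helper43 Pool.Agent.Helper43.ProjVar

variable {K : Type} [Field K] [Algebra ℂ K]

namespace Cfg

theorem T3_zero {x a : ℤ} (h : T3 x a 0) : a = min 0 x ∨ 0 < a ∧ min 0 x = 0 := by
  unfold T3 at h
  omega

theorem T3_pos {a b : ℤ} (h : T3 a b 0) : 0 < a → b = 0 := by
  unfold T3 at h
  omega

theorem T3_pos' {a b : ℤ} (h : T3 a b 0) : 0 < b → a = 0 := by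
  unfold T3 at h
  omega

/-- The numerical identity behind `e_MM`. -/
theorem MM_aux {x y w e a a' b b' : ℤ} (hx : x ≤ 0) (hy : y ≤ 0) (h1 : a = x ∨ 0 < a ∧ x = 0)
    (h2 : a' = x ∨ 0 < a' ∧ x = 0) (h3 : b = y ∨ 0 < b ∧ y = 0) (h4 : b' = y ∨ 0 < b' ∧ y = 0)
    (_h5 : 0 < a → a' = 0) (h5' : 0 < a' → a = 0) (h6 : 0 < b → b' = 0) (h6' : 0 < b' → b = 0)
    (h7 : T3 a b e) (h8 : T3 a' b' e) :
    min w (min e (a + b')) =
      min w (min (min a b) (a + b)) + min w (min (min a' b') (a' + b')) - min (x + y) w := by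
  unfold T3 at h7 h8
  rcases h1 with h1 | h1 <;> rcases h3 with h3 | h3 <;> rcases h2 with h2 | h2 <;>
    rcases h4 with h4 | h4
  all_goals try (exfalso; omega)
  all_goals omega

/-- The numerical identity behind `e_NN`. -/
theorem NN_aux {x y w e a a' b b' d g S A B : ℤ} (hx : x ≤ 0) (hy : y ≤ 0)
    (h1 : a = x ∨ 0 < a ∧ x = 0) (h2 : a' = x ∨ 0 < a' ∧ x = 0)
    (h3 : b = y ∨ 0 < b ∧ y = 0) (h4 : b' = y ∨ 0 < b' ∧ y = 0)
    (h5 : 0 < a → a' = 0) (h5' : 0 < a' → a = 0) (h6 : 0 < b → b' = 0) (h6' : 0 < b' → b = 0)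
    (h7 : min a b ≤ e) (h8 : min a' b' ≤ d) (h9 : min e (a + b') ≤ g)
    (h10 : min e (a' + b) ≤ g) (h11 : T3 g d (a' + b')) (hS : S = min (x + y) w)
    (hA : A = min w (min (min a b) (a + b))) (hB : B = min w (min (min a' b') (a' + b'))) :
    min (2 * (A + B - S)) (g + a) = 2 * A + min (2 * B) d - 2 * S := by
  have hax : x ≤ a := by clear * - h1 hx; omega
  have hby : y ≤ b := by clear * - h3 hy; omega
  have hax' : x ≤ a' := by clear * - h2 hx; omega
  have hby' : y ≤ b' := by clear * - h4 hy; omega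
  have hS0 : S ≤ 0 := by clear * - hS hx hy; omega
  have hSx : S ≤ x := by clear * - hS hx hy; omega
  have hSxy : S ≤ x + y := by clear * - hS; omega
  have hF : ¬ (0 < a ∧ 0 < b) → min (min a b) (a + b) = x + y := by
    clear * - h1 h3 hx hy
    omega
  have hF' : ¬ (0 < a' ∧ 0 < b') → min (min a' b') (a' + b') = x + y := by
    clear * - h2 h4 hx hy
    omega
  by_cases hi : 0 < a ∧ 0 < b
  · have e1 : x = 0 := by clear * - h1 hi hx; omega
    have e2 : y = 0 := by clear * - h3 hi hy; omega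
    have e3 : a' = 0 := h5 hi.1
    have e4 : b' = 0 := h6 hi.2
    subst e1 e2 e3 e4
    have e5 : B = S := by clear * - hB hS; omega
    have e6 : A ≤ a ∧ A ≤ b := by clear * - hA hi; omega
    have e8 : A ≤ g := by clear * - e6 h10 h7; omega
    have e9 : 0 ≤ d := by clear * - h8; omega
    clear * - e5 e6 e8 e9 hS0
    omega
  · have hF := hF hi
    rw [hF, min_comm, ← hS] at hA
    by_cases hj : 0 < a' ∧ 0 < b'
    · have e1 : x = 0 := by clear * - h2 hj hx; omega
      have e2 : y = 0 := by clear * - h4 hj hy; omega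
      have e3 : a = 0 := h5' hj.1
      have e6 : 2 * B ≤ a' + b' := by clear * - hB hj; omega
      have e7 : min (2 * B) g = min (2 * B) d := by
        unfold T3 at h11
        clear * - h11 e6
        omega
      clear * - e7 e3 hA
      omega
    · have hF' := hF' hj
      rw [hF', min_comm, ← hS] at hB
      have e5 : x + y ≤ e := by clear * - h7 hax hby hx hy; omega
      have e6 : x + y ≤ d := by clear * - h8 hax' hby' hx hy; omega
      have e7 : x + y ≤ g := by clear * - h9 e5 hax hby'; omega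
      clear * - e6 e7 hA hB hSx hSxy hax hx hy hS0
      omega

theorem T3_le {a b c : ℤ} (h : T3 a b c) : min a b ≤ c := by
  unfold T3 at h
  omega

theorem T3_le' {a b c : ℤ} (h : T3 a b c) : min b c ≤ a := by
  unfold T3 at h
  omega

variable (C : Cfg K) (u : DivVal ℂ K 2)

theorem e_MM {i j : Fin 5} (h : i ≠ j) :
    C.e (.M i j) u = C.e (.M i i) u + C.e (.M j j) u - C.e .S u := by
  rw [C.e_M u h, C.e_M_self, C.e_M_self, C.e_S, mF, mF]
  exact MM_aux (min_le_left _ _) (min_le_left _ _) (T3_zero (C.T_x u i)) (T3_zero (C.T_x u j))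
    (T3_zero (C.T_y u i)) (T3_zero (C.T_y u j)) (T3_pos (C.T_τ u h)) (T3_pos' (C.T_τ u h))
    (T3_pos (C.T_z u h)) (T3_pos' (C.T_z u h)) (C.T_η u i) (C.T_η u j)

theorem e_NN {i j : Fin 5} (h : i ≠ j) :
    C.e (.N i j) u = 2 * C.e (.M i i) u + C.e (.N j j) u - 2 * C.e .S u := by
  rw [C.e_N u h, C.e_N_self, e_MM C u h]
  exact NN_aux (min_le_left 0 (u.v C.x)) (min_le_left 0 (u.v C.y)) (T3_zero (C.T_x u i))
    (T3_zero (C.T_x u j)) (T3_zero (C.T_y u i)) (T3_zero (C.T_y u j)) (T3_pos (C.T_τ u h))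
    (T3_pos' (C.T_τ u h)) (T3_pos (C.T_z u h)) (T3_pos' (C.T_z u h)) (T3_le (C.T_η u i))
    (T3_le (C.T_D u j)) (T3_le' (C.T_h₁ u h)) (T3_le' (C.T_h₂ u h)) (C.T_h₃ u h)
    (C.e_S u) (C.e_M_self u i) (C.e_M_self u j)

end Cfg

end Pool.Agent.Helper43.Fl
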