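import Pool.Agent.Helper43.FlPic

open scoped KaehlerDifferential

noncomputable section

namespace Pool.Agent.Helper43.Fl

open Pool.Agent.Helper43 Pool.Agent.Helper43.ProjVar

variable {K : Type} [Field K] [Algebra ℂ K]

namespace Cfg

theorem rcart_change {Z Z' : ProjVar ℂ K} {D : BDiv ℂ K 2} (h : Z'.RCartier D)
    (h₁ : Z.Dominates Z') (h₂ : Z'.Dominates Z)
    (h₃ : Z'.hyp 2 - Z.hyp 2 ∈ principal ℂ K 2) : Z.RCartier D := by
  obtain ⟨t, c, m, d, Y, hc, hd, hm⟩ := h
  refine ⟨t, c, m, d, Y, hc, fun j => ⟨(hd j).1, dominates_trans h₁ (hd j).2⟩, ?_⟩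
  have h4 := Submodule.sub_mem _ hm (Submodule.smul_mem _ (t - c) h₃)
  convert h4 using 1
  funext u
  simp only [Pi.sub_apply, Pi.add_apply, Pi.smul_apply, smul_eq_mul]
  ring

theorem rcart_congr {Z : ProjVar ℂ K} {D D' : BDiv ℂ K 2} (h : Z.RCartier D)
    (h₁ : D' - D ∈ principal ℂ K 2) : Z.RCartier D' := by
  obtain ⟨t, ht⟩ := h
  refine ⟨t, ample_congr ht ?_⟩
  convert h₁ using 1
  abel

variable (C : Cfg K)

/-- The b-divisor of a system. -/
def rhE (a : Ix) : BDiv ℂ K 2 := fun u => (C.e a u : ℝ)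

/-- The b-divisors which are, modulo principal ones, combinations of the systems in `s`. -/
def rhW (s : Ix → Bool) : Submodule ℝ (BDiv ℂ K 2) where
  carrier := {D | ∃ r : Ix → ℝ,
    (D - fun u => -∑ a, if s a = true then r a * C.e a u else 0) ∈ principal ℂ K 2}
  add_mem' := by
    rintro D D' ⟨r, hr⟩ ⟨r', hr'⟩
    refine ⟨fun a => r a + r' a, ?_⟩
    have h := Submodule.add_mem _ hr hr'
    convert h using 1
    funext u
    have h1 : ∑ a, (if s a = true then (r a + r' a) * (C.e a u : ℝ) else 0) =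
        ∑ a, (if s a = true then r a * (C.e a u : ℝ) else 0) +
        ∑ a, (if s a = true then r' a * (C.e a u : ℝ) else 0) := by
      rw [← Finset.sum_add_distrib]
      refine Finset.sum_congr rfl fun a _ => ?_
      split_ifs
      · ring
      · simp
    simp only [Pi.sub_apply, Pi.add_apply, h1]
    ring
  zero_mem' := ⟨fun _ => 0, by
    have h : ((0 : BDiv ℂ K 2) - fun u => -∑ a, if s a = true then (0 : ℝ) * C.e a u else 0) =
        0 := by
      funext u
      simp
    rw [h]
    exact Submodule.zero_mem _⟩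
  smul_mem' := by
    rintro t D ⟨r, hr⟩
    refine ⟨fun a => t * r a, ?_⟩
    have h := Submodule.smul_mem _ t hr
    convert h using 1
    funext u
    have h1 : ∑ a, (if s a = true then (t * r a) * (C.e a u : ℝ) else 0) =
        t * ∑ a, (if s a = true then r a * (C.e a u : ℝ) else 0) := by
      rw [Finset.mul_sum]
      refine Finset.sum_congr rfl fun a _ => ?_
      split_ifs
      · ring
      · simp
    simp only [Pi.sub_apply, Pi.smul_apply, smul_eq_mul, h1]
    ring

theorem rh_principal_le (s : Ix → Bool) : principal ℂ K 2 ≤ C.rhW s := by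
  intro D hD
  refine ⟨fun _ => 0, ?_⟩
  have h : (D - fun u => -∑ a, if s a = true then (0 : ℝ) * C.e a u else 0) = D := by
    funext u
    simp
  rw [h]
  exact hD

theorem rh_mem {s : Ix → Bool} {a : Ix} (ha : s a = true) : C.rhE a ∈ C.rhW s := by
  refine ⟨fun b => if b = a then -1 else 0, ?_⟩
  have h : (C.rhE a - fun u => -∑ b, if s b = true then (if b = a then (-1 : ℝ) else 0) * C.e b u
      else 0) = 0 := by
    funext u
    simp only [Pi.sub_apply, Pi.zero_apply, rhE]
    rw [Finset.sum_eq_single a]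
    · simp [ha]
    · intro b _ hb
      simp [hb]
    · simp
  rw [h]
  exact Submodule.zero_mem _

theorem rh_rcart {s : Ix → Bool} {D : BDiv ℂ K 2} (h : D ∈ C.rhW s) :
    (C.on s).RCartier D := by
  obtain ⟨r, hr⟩ := h
  refine ⟨1 + ∑ a, |r a|, C.ample_of_pos (fun a => r a + (1 + ∑ a, |r a|)) ?_ ?_⟩
  · intro a _
    have h1 := Finset.single_le_sum (f := fun a => |r a|) (fun _ _ => abs_nonneg _)
      (Finset.mem_univ a)
    have h2 := neg_abs_le (r a)
    linarith
  · have h1 := Submodule.add_mem _ hr (Submodule.smul_mem _ (1 + ∑ a, |r a|)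
      (C.on_hyp_mod (K := K) s))
    convert h1 using 1
    generalize (1 + ∑ a, |r a|) = t
    funext u
    have h2 : ∑ a, (if s a = true then (r a + t) * (C.e a u : ℝ) else 0) =
        ∑ a, (if s a = true then r a * (C.e a u : ℝ) else 0) +
        t * ∑ a, (if s a = true then (C.e a u : ℝ) else 0) := by
      rw [Finset.mul_sum, ← Finset.sum_add_distrib]
      refine Finset.sum_congr rfl fun a _ => ?_
      split_ifs
      · ring
      · simp
    simp only [Pi.sub_apply, Pi.add_apply, Pi.smul_apply, smul_eq_mul, h2]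
    ring

theorem rh_hyp (s : Ix → Bool) : (C.on s).hyp 2 ∈ C.rhW s := by
  refine ⟨fun _ => 1, ?_⟩
  have h := C.on_hyp_mod (K := K) s
  simpa using h

theorem rh_of_rcart {D : BDiv ℂ K 2} (h : (C.on inX).RCartier D) : D ∈ C.rhW inX := by
  obtain ⟨t, c, m, d, Y, _, hd, hm⟩ := h
  have h1 : ∀ j, (Y j).hyp 2 ∈ C.rhW inX := fun j => C.pic (hd j).2
  have h2 := Submodule.add_mem _ (C.rh_principal_le inX hm) (Submodule.add_mem _
    (Submodule.smul_mem _ (c - t) (C.rh_hyp inX))
    (Submodule.sum_mem _ fun j (_ : j ∈ Finset.univ) => Submodule.smul_mem _ (d j) (h1 j)))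
  convert h2 using 1
  generalize (∑ j, d j • (Y j).hyp 2) = S
  funext u
  simp only [Pi.sub_apply, Pi.add_apply, Pi.smul_apply, smul_eq_mul]
  ring

theorem rh_MM {i j : Fin 5} (h : i ≠ j) :
    C.rhE (.M i j) = C.rhE (.M i i) + C.rhE (.M j j) - C.rhE .S := by
  funext u
  simp only [Pi.sub_apply, Pi.add_apply, rhE]
  rw [C.e_MM u h]
  push_cast
  ring

theorem rh_NN {i j : Fin 5} (h : i ≠ j) :
    C.rhE (.N i j) = (2 : ℝ) • C.rhE (.M i i) + C.rhE (.N j j) - (2 : ℝ) • C.rhE .S := by
  funext u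
  simp only [Pi.sub_apply, Pi.add_apply, Pi.smul_apply, smul_eq_mul, rhE]
  rw [C.e_NN u h]
  push_cast
  ring

/-- The coefficient of `S` of the systems modulo those of the base of the flop. -/
def rhc (i : Fin 5) : Ix → ℝ
  | .S => 1
  | .M k l => (if k = i then 0 else 1) + (if l = i then 0 else 1) -
      (if k = l then (if k = i then 0 else 1) else 1)
  | .N k l => if k = l then (if k = i then 0 else 2) else
      2 * (if k = i then 0 else 1) + (if l = i then 0 else 2) - 2
  | _ => 0

theorem rh_sub {i : Fin 5} {a : Ix} (ha : inX a = true) :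
    C.rhE a - rhc i a • C.rhE .S ∈ C.rhW (inZ i) := by
  have hM : ∀ l, C.rhE (.M i l) ∈ C.rhW (inZ i) := fun l => C.rh_mem (by simp [inZ])
  have hN : ∀ l, C.rhE (.N i l) ∈ C.rhW (inZ i) := fun l => C.rh_mem (by simp [inZ])
  have hU : C.rhE .U ∈ C.rhW (inZ i) := C.rh_mem (by simp [inZ])
  have hM' : ∀ k, k ≠ i → C.rhE (.M k k) - C.rhE .S ∈ C.rhW (inZ i) := by
    intro k hk
    have h1 := Submodule.sub_mem _ (hM k) (hM i)
    rw [C.rh_MM (Ne.symm hk)] at h1
    convert h1 using 1
    abel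
  have hN' : ∀ k, k ≠ i → C.rhE (.N k k) - (2 : ℝ) • C.rhE .S ∈ C.rhW (inZ i) := by
    intro k hk
    have h1 := Submodule.sub_mem _ (hN k) (Submodule.smul_mem _ (2 : ℝ) (hM i))
    rw [C.rh_NN (Ne.symm hk)] at h1
    convert h1 using 1
    abel
  have hMk : ∀ k, C.rhE (.M k k) - (if k = i then (0 : ℝ) else 1) • C.rhE .S ∈
      C.rhW (inZ i) := by
    intro k
    split_ifs with h
    · rw [zero_smul, sub_zero, h]
      exact hM i
    · rw [one_smul]
      exact hM' k h
  have hNk : ∀ k, C.rhE (.N k k) - (if k = i then (0 : ℝ) else 2) • C.rhE .S ∈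
      C.rhW (inZ i) := by
    intro k
    split_ifs with h
    · rw [zero_smul, sub_zero, h]
      exact hN i
    · exact hN' k h
  cases a with
  | U => simpa [rhc] using hU
  | V => simp [inX] at ha
  | W => simp [inX] at ha
  | F i => simp [inX] at ha
  | S => simp [rhc]
  | M k l =>
    by_cases hkl : k = l
    · subst hkl
      have h1 := hMk k
      convert h1 using 2
      congr 1
      simp only [rhc, if_true]
      ring
    · have h1 := Submodule.add_mem _ (hMk k) (hMk l)
      rw [C.rh_MM hkl]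
      convert h1 using 1
      simp only [rhc, hkl, if_false]
      module
  | N k l =>
    by_cases hkl : k = l
    · subst hkl
      have h1 := hNk k
      simpa only [rhc, if_true] using h1
    · have h1 := Submodule.add_mem _ (Submodule.smul_mem _ (2 : ℝ) (hMk k)) (hNk l)
      rw [C.rh_NN hkl]
      convert h1 using 1
      simp only [rhc, hkl, if_false]
      module

theorem rh_logc (c : Cls) : logc C c = (-(12 + c.2.1 - ∑ i, c.2.2 i)) • C.rhE .S -
    (c.1 - c.2.1) • C.rhE .U + ∑ i, C.rhE (.M i i) + ∑ i, (1 - c.2.2 i / 2) • C.rhE (.N i i) := by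
  funext u
  rw [logc_apply]
  simp only [Pi.sub_apply, Pi.add_apply, Pi.smul_apply, smul_eq_mul, rhE, Finset.sum_apply]

/-- A combination of systems, modulo a submodule which contains all but one of them up to
multiples of the latter. -/
theorem rh_comb {s : Ix → Bool} {W : Submodule ℝ (BDiv ℂ K 2)} {E : BDiv ℂ K 2} {ρ : Ix → ℝ}
    (hp : principal ℂ K 2 ≤ W) (hρ : ∀ a, s a = true → C.rhE a - ρ a • E ∈ W)
    {D : BDiv ℂ K 2} (hD : D ∈ C.rhW s) : ∃ r : ℝ, D - r • E ∈ W := by
  obtain ⟨r, hr⟩ := hD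
  refine ⟨-∑ a, if s a = true then r a * ρ a else 0, ?_⟩
  have h1 := Submodule.sub_mem _ (hp hr) (Submodule.sum_mem (t := Finset.univ)
    (f := fun a => (if s a = true then r a else 0) • (C.rhE a - ρ a • E)) _ fun a _ => by
      split_ifs with h
      · exact Submodule.smul_mem _ _ (hρ a h)
      · rw [zero_smul]
        exact Submodule.zero_mem _)
  convert h1 using 1
  funext u
  simp only [Pi.sub_apply, Pi.smul_apply, smul_eq_mul, Finset.sum_apply, rhE]
  have h2 : ∑ a, (if s a = true then r a else 0) * ((C.e a u : ℝ) - ρ a * E u) =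
      ∑ a, (if s a = true then r a * (C.e a u : ℝ) else 0) -
      (∑ a, (if s a = true then r a * ρ a else 0)) * E u := by
    rw [Finset.sum_mul, ← Finset.sum_sub_distrib]
    refine Finset.sum_congr rfl fun a _ => ?_
    split_ifs
    · ring
    · simp
  rw [h2]
  ring

theorem rh_aux {W : Submodule ℝ (BDiv ℂ K 2)} {E D L : BDiv ℂ K 2} {r δ : ℝ}
    (h : D - r • E ∈ W) (h' : L - δ • E ∈ W) (hδ : δ ≠ 0) : D - (r / δ) • L ∈ W := by
  have h1 := Submodule.sub_mem _ h (Submodule.smul_mem _ (r / δ) h')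
  convert h1 using 1
  rw [smul_sub, smul_smul, div_mul_cancel₀ _ hδ]
  abel

theorem rho_Z (c : Cls) (i : Fin 5) (h : c.2.1 ≠ c.2.2 i) (D : BDiv ℂ K 2)
    (hD : (C.on inX).RCartier D) : ∃ s : ℝ, (C.on (inZ i)).RCartier (D - s • logc C c) := by
  obtain ⟨r, hr⟩ := C.rh_comb (C.rh_principal_le (inZ i))
    (fun a ha => C.rh_sub (i := i) ha) (C.rh_of_rcart hD)
  have h1 : logc C c - (c.2.2 i - c.2.1) • C.rhE .S ∈ C.rhW (inZ i) := by
    rw [rh_logc]
    have hU := C.rh_sub (i := i) (a := .U) rfl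
    have hM : ∑ k, (C.rhE (.M k k) - rhc i (.M k k) • C.rhE .S) ∈ C.rhW (inZ i) :=
      Submodule.sum_mem _ fun k _ => C.rh_sub (i := i) (a := .M k k) rfl
    have hN : ∑ k, (1 - c.2.2 k / 2) • (C.rhE (.N k k) - rhc i (.N k k) • C.rhE .S) ∈
        C.rhW (inZ i) :=
      Submodule.sum_mem _ fun k _ => Submodule.smul_mem _ _
        (C.rh_sub (i := i) (a := .N k k) rfl)
    have h2 := Submodule.add_mem _ (Submodule.add_mem _
      (Submodule.smul_mem _ (-(c.1 - c.2.1)) hU) hM) hN
    convert h2 using 1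
    simp only [Fin.sum_univ_five, rhc]
    fin_cases i <;> simp <;> module
  exact ⟨_, C.rh_rcart (rh_aux hr h1 (sub_ne_zero.mpr h.symm))⟩

theorem rho_T (c : Cls) (h : c.1 ≠ c.2.1) (D : BDiv ℂ K 2)
    (hD : (C.on inX).RCartier D) : ∃ s : ℝ, (C.on inT).RCartier (D - s • logc C c) := by
  have h0 : ∀ a, inX a = true → C.rhE a - (if a = .U then (1 : ℝ) else 0) • C.rhE .U ∈
      C.rhW inT := by
    intro a ha
    cases a with
    | U => simp
    | V => simp [inX] at ha
    | W => simp [inX] at ha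
    | F i => simp [inX] at ha
    | S => simpa using C.rh_mem (s := inT) rfl
    | M k l => simpa using C.rh_mem (s := inT) rfl
    | N k l => simpa using C.rh_mem (s := inT) rfl
  obtain ⟨r, hr⟩ := C.rh_comb (C.rh_principal_le inT) h0 (C.rh_of_rcart hD)
  have h1 : logc C c - (c.2.1 - c.1) • C.rhE .U ∈ C.rhW inT := by
    rw [rh_logc]
    have hM : ∑ k, C.rhE (.M k k) ∈ C.rhW inT :=
      Submodule.sum_mem _ fun k _ => C.rh_mem (s := inT) (a := .M k k) rfl
    have hN : ∑ k, (1 - c.2.2 k / 2) • C.rhE (.N k k) ∈ C.rhW inT :=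
      Submodule.sum_mem _ fun k _ => Submodule.smul_mem _ _
        (C.rh_mem (s := inT) (a := .N k k) rfl)
    have h2 := Submodule.add_mem _ (Submodule.add_mem _
      (Submodule.smul_mem _ (-(12 + c.2.1 - ∑ i, c.2.2 i))
        (C.rh_mem (s := inT) (a := .S) rfl)) hM) hN
    convert h2 using 1
    module
  exact ⟨_, C.rh_rcart (rh_aux hr h1 (sub_ne_zero.mpr h.symm))⟩

end Cfg

end Pool.Agent.Helper43.Fl
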