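import Pool.Agent.Helper43.FlAll
import Pool.Agent.Helper43.FlRho
import Pool.Agent.Helper43.FlNGen

open scoped KaehlerDifferential

noncomputable section

namespace Pool.Agent.Helper43.Fl

open Pool.Agent.Helper43 Pool.Agent.Helper43.ProjVar

variable {K : Type} [Field K] [Algebra ℂ K]

namespace Cfg

variable (C : Cfg K)

/-- The change of the base and of the divisor in the condition on the Picard number. -/
theorem rel_change {X Z Z' : ProjVar ℂ K} {L L' : BDiv ℂ K 2}
    (h : ∀ D : BDiv ℂ K 2, X.RCartier D → ∃ s : ℝ, Z'.RCartier (D - s • L))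
    (h₁ : Z.Dominates Z') (h₂ : Z'.Dominates Z)
    (h₃ : Z'.hyp 2 - Z.hyp 2 ∈ principal ℂ K 2) (h₄ : L' - L ∈ principal ℂ K 2) :
    X.RelPicardOne Z L' := by
  intro D hD
  obtain ⟨s, hs⟩ := h D hD
  refine ⟨s, rcart_congr (rcart_change hs h₁ h₂ h₃) ?_⟩
  have h5 := neg_mem (Submodule.smul_mem _ s h₄)
  convert h5 using 1
  rw [smul_sub]
  abel

theorem dominates_refl (Z : ProjVar ℂ K) : Z.Dominates Z := fun P => ⟨P, fun _ _ h => h⟩

/-- The flop of the `i`-th curve is a flip. -/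
theorem flip_B {i : Fin 5} (h : ∀ j, j ≠ i → C.κ i + C.κ j ≠ 1) (c : Cls)
    (hc : c.2.1 < c.2.2 i) {L L' : BDiv ℂ K 2} (hL : L - logc C c ∈ principal ℂ K 2)
    (hL' : L' - logc (C.B i h) (cB c i) ∈ principal ℂ K 2) :
    IsFlip (C.on inX) ((C.B i h).on inX) L L' := by
  have hd := (C.B i h).Z_dom (C.B_h' h)
  rw [B_B] at hd
  refine ⟨C.on (inZ i), C.Z_top i, C.norm_Z i, C.contr_Z i, ?_, ?_, ?_, ?_, ?_⟩
  · exact rel_change (C.rho_Z c i hc.ne) (dominates_refl _) (dominates_refl _)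
      (by rw [sub_self]; exact Submodule.zero_mem _) hL
  · obtain ⟨t, ht⟩ := C.ample_Z (δ := -1) c i (by linarith)
    refine ⟨t, ample_congr ht ?_⟩
    have : t • (C.on (inZ i)).hyp 2 - L - (t • (C.on (inZ i)).hyp 2 + (-1 : ℝ) • logc C c) =
        -(L - logc C c) := by
      rw [neg_one_smul]
      abel
    rw [this]
    exact neg_mem hL
  · exact contr_change ((C.B i h).contr_Z i) hd (C.Z_dom h)
  · exact rel_change ((C.B i h).rho_Z (cB c i) i (by
      simp only [cB, Function.update_self]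
      intro h0
      linarith)) (C.Z_dom h) hd (C.Z_hyp h) hL'
  · obtain ⟨t, ht⟩ := (C.B i h).ample_Z (δ := 1) (cB c i) i (by
      simp only [cB, Function.update_self]
      linarith)
    refine ⟨t, ample_congr ht ?_⟩
    have : t • (C.on (inZ i)).hyp 2 + L' - (t • ((C.B i h).on (inZ i)).hyp 2 +
        (1 : ℝ) • logc (C.B i h) (cB c i)) =
        (L' - logc (C.B i h) (cB c i)) -
          t • (((C.B i h).on (inZ i)).hyp 2 - (C.on (inZ i)).hyp 2) := by
      rw [one_smul, smul_sub]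
      abel
    rw [this]
    exact sub_mem hL' (Submodule.smul_mem _ _ (C.Z_hyp h))

/-- The flop of the curve `T` is a flip. -/
theorem flip_T (c : Cls) (hc : c.1 < c.2.1) {L L' : BDiv ℂ K 2}
    (hL : L - logc C c ∈ principal ℂ K 2)
    (hL' : L' - logc C.sw (cS c) ∈ principal ℂ K 2) :
    IsFlip (C.on inX) (C.sw.on inX) L L' := by
  have hd := C.sw.T_dom
  rw [sw_sw] at hd
  refine ⟨C.on inT, C.T_top, C.norm_T, C.contr_T, ?_, ?_, ?_, ?_, ?_⟩
  · exact rel_change (C.rho_T c hc.ne) (dominates_refl _) (dominates_refl _)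
      (by rw [sub_self]; exact Submodule.zero_mem _) hL
  · obtain ⟨t, ht⟩ := C.ample_T (δ := -1) c (by linarith)
    refine ⟨t, ample_congr ht ?_⟩
    have : t • (C.on inT).hyp 2 - L - (t • (C.on inT).hyp 2 + (-1 : ℝ) • logc C c) =
        -(L - logc C c) := by
      rw [neg_one_smul]
      abel
    rw [this]
    exact neg_mem hL
  · exact contr_change C.sw.contr_T hd C.T_dom
  · exact rel_change (C.sw.rho_T (cS c) (by
      simp only [cS]
      exact hc.ne')) C.T_dom hd C.T_hyp hL'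
  · obtain ⟨t, ht⟩ := C.sw.ample_T (δ := 1) (cS c) (by
      simp only [cS]
      linarith)
    refine ⟨t, ample_congr ht ?_⟩
    have : t • (C.on inT).hyp 2 + L' - (t • (C.sw.on inT).hyp 2 + (1 : ℝ) • logc C.sw (cS c)) =
        (L' - logc C.sw (cS c)) - t • ((C.sw.on inT).hyp 2 - (C.on inT).hyp 2) := by
      rw [one_smul, smul_sub]
      abel
    rw [this]
    exact sub_mem hL' (Submodule.smul_mem _ _ C.T_hyp)

end Cfg

/-! ### The constants -/

theorem k_ne {k : ℂ} (hk : 5 * k ^ 2 - 5 * k + 1 = 0) (j : ℕ) (hj : j ≤ 6) : (j : ℂ) * k ≠ 1 := by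
  intro h
  have h1 : ((j : ℂ) ^ 2 - 5 * j + 5) = 0 := by
    linear_combination (j : ℂ) ^ 2 * hk + (5 * (j : ℂ) - 5 * (j : ℂ) * k - 5) * h
  interval_cases j <;> norm_num at h1

/-- The parameters in the phase `m`. -/
def kap (k : ℂ) (m : ℕ) (i : Fin 5) : ℂ :=
  if (i : ℕ) < m then k / (m * k - 1) else k / (1 - m * k)

theorem kap_h {k : ℂ} (hk : 5 * k ^ 2 - 5 * k + 1 = 0) {m : ℕ} (hm : m < 5) (j : Fin 5) : kap k m ⟨m, hm⟩ + kap k m j ≠ 1 := by
  have h1 := k_ne hk m (by omega)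
  have h2 := k_ne hk (m + 2) (by omega)
  have h3 : 1 - (m : ℂ) * k ≠ 0 := sub_ne_zero.mpr h1.symm
  have h4 : (m : ℂ) * k - 1 ≠ 0 := sub_ne_zero.mpr h1
  unfold kap
  simp only [lt_self_iff_false, if_false]
  split_ifs with h5
  · have : k / (1 - m * k) + k / (m * k - 1) = 0 := by
      have : (m : ℂ) * k - 1 = -(1 - m * k) := by ring
      rw [this, div_neg]
      ring
    rw [this]
    exact zero_ne_one
  · intro h6
    rw [← add_div, div_eq_one_iff_eq h3] at h6
    apply h2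
    push_cast
    linear_combination h6

theorem kap_aux1 {k A B : ℂ} (hA : A ≠ 0) (hB : B ≠ 0) (h : B = A - k) :
    k / A / (k / A - 1) = k / -B := by
  have h1 : k / A - 1 = -B / A := by
    rw [h]
    field_simp
    ring
  rw [h1]
  field_simp

theorem kap_aux2 {k k' A B : ℂ} (hA : A ≠ 0) (hB : B ≠ 0) (h : B = A - k) :
    k' / A / (1 - k / A) = k' / B := by
  have h1 : 1 - k / A = B / A := by
    rw [h]
    field_simp
  rw [h1]
  field_simp

theorem kap_step {k : ℂ} (hk : 5 * k ^ 2 - 5 * k + 1 = 0) {m : ℕ} (hm : m < 5) :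
    Cfg.κB (kap k m) ⟨m, hm⟩ = kap k (m + 1) := by
  have h1 := k_ne hk m (by omega)
  have h2 := k_ne hk (m + 1) (by omega)
  obtain ⟨A, hA⟩ : ∃ A, A = 1 - (m : ℂ) * k := ⟨_, rfl⟩
  obtain ⟨B, hB⟩ : ∃ B, B = 1 - ((m + 1 : ℕ) : ℂ) * k := ⟨_, rfl⟩
  have hA0 : A ≠ 0 := by rw [hA]; exact sub_ne_zero.mpr h1.symm
  have hB0 : B ≠ 0 := by rw [hB]; exact sub_ne_zero.mpr h2.symm
  have hAB : B = A - k := by rw [hA, hB]; push_cast; ring
  have e1 : (m : ℂ) * k - 1 = -A := by rw [hA]; ring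
  have e2 : ((m + 1 : ℕ) : ℂ) * k - 1 = -B := by rw [hB]; ring
  funext j
  unfold Cfg.κB kap
  rw [e1, e2, ← hA, ← hB]
  simp only [lt_self_iff_false, if_false]
  by_cases hj : j = ⟨m, hm⟩
  · rw [if_pos hj, if_pos (by rw [hj]; simp), kap_aux1 hA0 hB0 hAB]
  · rw [if_neg hj]
    have hj' : (j : ℕ) ≠ m := fun h => hj (Fin.ext h)
    by_cases hlt : (j : ℕ) < m
    · rw [if_pos hlt, if_pos (by omega), div_neg, neg_div, kap_aux2 hA0 hB0 hAB, div_neg]
    · rw [if_neg hlt, if_neg (by omega), kap_aux2 hA0 hB0 hAB]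

theorem kap_sw {k : ℂ} (hk : 5 * k ^ 2 - 5 * k + 1 = 0) (j : Fin 5) :
    1 - kap k 5 j = kap k 0 j := by
  have h2 := k_ne hk 5 (by omega)
  have h5 : (5 : ℂ) * k - 1 ≠ 0 := by
    have := sub_ne_zero.mpr h2
    push_cast at this
    exact this
  unfold kap
  rw [if_pos j.2, if_neg (by omega)]
  push_cast
  rw [zero_mul, sub_zero, div_one, sub_eq_iff_eq_add, eq_comm, ← eq_sub_iff_add_eq',
    div_eq_iff h5]
  linear_combination hk

/-! ### The classes -/

/-- The class in the phase `m` for the symmetric class `(d, e; a)`. -/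
def cph (d e a : ℝ) (m : ℕ) : Cls :=
  (d + m * (e - a), e, fun i => if (i : ℕ) < m then 2 * e - a else a)

theorem cph_step (d e a : ℝ) {m : ℕ} (hm : m < 5) : cB (cph d e a m) ⟨m, hm⟩ = cph d e a (m + 1) := by
  unfold cB cph
  refine Prod.ext ?_ (Prod.ext rfl ?_)
  · simp only [lt_self_iff_false, if_false]
    push_cast
    ring
  · funext i
    simp only [lt_self_iff_false, if_false]
    by_cases hi : i = ⟨m, hm⟩
    · subst hi
      simp
    · have hi' : (i : ℕ) ≠ m := fun h => hi (Fin.ext h)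
      rw [Function.update_of_ne hi]
      by_cases hlt : (i : ℕ) < m
      · rw [if_pos hlt, if_pos (by omega)]
      · rw [if_neg hlt, if_neg (by omega)]

theorem cB_smul (r : ℝ) (c : Cls) (i : Fin 5) : cB (r • c) i = r • cB c i := by
  unfold cB
  refine Prod.ext ?_ (Prod.ext rfl ?_)
  · simp only [Prod.smul_fst, Prod.smul_snd, Pi.smul_apply, smul_eq_mul]
    ring
  · funext j
    simp only [Prod.smul_fst, Prod.smul_snd, Pi.smul_apply, smul_eq_mul]
    by_cases hj : j = i
    · subst hj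
      simp only [Function.update_self]
      ring
    · rw [Function.update_of_ne hj, Function.update_of_ne hj]
      rfl

theorem cS_smul (r : ℝ) (c : Cls) : cS (r • c) = r • cS c := rfl

/-- The sequence of classes starting with the eigenvector `(d, e; a)` for the eigenvalue `μ`. -/
def cseq (μ d e a : ℝ) (n : ℕ) : Cls := μ ^ (n / 6) • cph d e a (n % 6)

theorem cseq_B (μ d e a : ℝ) {n : ℕ} (hm : n % 6 < 5) :
    cB (cseq μ d e a n) ⟨n % 6, hm⟩ = cseq μ d e a (n + 1) := by
  unfold cseq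
  have h1 : (n + 1) / 6 = n / 6 := by omega
  have h2 : (n + 1) % 6 = n % 6 + 1 := by omega
  rw [cB_smul, cph_step, h1, h2]

theorem cseq_S {μ d e a : ℝ} (h₁ : e = μ * d) (h₂ : d + 5 * (e - a) = μ * e)
    (h₃ : 2 * e - a = μ * a) {n : ℕ} (hm : n % 6 = 5) :
    cS (cseq μ d e a n) = cseq μ d e a (n + 1) := by
  unfold cseq
  have h1 : (n + 1) / 6 = n / 6 + 1 := by omega
  have h2 : (n + 1) % 6 = 0 := by omega
  have h3 : cS (cph d e a 5) = μ • cph d e a 0 := by
    unfold cS cph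
    refine Prod.ext ?_ (Prod.ext ?_ ?_)
    · simp only [Prod.smul_fst, smul_eq_mul]
      push_cast
      linarith
    · simp only [Prod.smul_fst, Prod.smul_snd, smul_eq_mul]
      push_cast
      linarith
    · funext i
      simp only [Prod.smul_snd, Pi.smul_apply, smul_eq_mul]
      rw [if_pos i.2, if_neg (by omega)]
      linarith
  rw [cS_smul, hm, h3, h1, h2, pow_succ, mul_smul]

end Pool.Agent.Helper43.Fl
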