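import Pool.Agent.Helper43.FlSeq

open scoped KaehlerDifferential

noncomputable section

namespace Pool.Agent.Helper43.Fl

open Pool.Agent.Helper43 Pool.Agent.Helper43.ProjVar

variable {K : Type} [Field K] [Algebra ℂ K]

/-- One step of the sequence of coordinate systems. -/
def Step (n : ℕ) (C C' : Cfg K) : Prop :=
  (∃ (hm : n % 6 < 5) (h : ∀ j, j ≠ ⟨n % 6, hm⟩ → C.κ ⟨n % 6, hm⟩ + C.κ j ≠ 1),
    C' = C.B ⟨n % 6, hm⟩ h) ∨ (n % 6 = 5 ∧ C' = C.sw)

theorem exists_step {k : ℂ} (hk : 5 * k ^ 2 - 5 * k + 1 = 0) (n : ℕ) (C : Cfg K)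
    (hC : C.κ = kap k (n % 6)) : ∃ C' : Cfg K, C'.κ = kap k ((n + 1) % 6) ∧ Step n C C' := by
  by_cases hm : n % 6 < 5
  · have h : ∀ j, j ≠ ⟨n % 6, hm⟩ → C.κ ⟨n % 6, hm⟩ + C.κ j ≠ 1 := by
      rw [hC]
      exact fun j _ => kap_h hk hm j
    refine ⟨C.B ⟨n % 6, hm⟩ h, ?_, Or.inl ⟨hm, h, rfl⟩⟩
    have h2 : (n + 1) % 6 = n % 6 + 1 := by omega
    rw [h2, ← kap_step hk hm, ← hC]
    rfl
  · have hm' : n % 6 = 5 := by omega
    refine ⟨C.sw, ?_, Or.inr ⟨hm', rfl⟩⟩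
    have h2 : (n + 1) % 6 = 0 := by omega
    rw [h2]
    funext j
    rw [← kap_sw hk j, ← hm', ← hC]
    rfl

/-- The sequence of coordinate systems. -/
theorem exists_seq {k : ℂ} (hk : 5 * k ^ 2 - 5 * k + 1 = 0) (C₀ : Cfg K)
    (h₀ : C₀.κ = fun _ => k) : ∃ C : ℕ → Cfg K, C 0 = C₀ ∧ ∀ n, Step n (C n) (C (n + 1)) := by
  have h := fun (n : ℕ) (s : {C : Cfg K // C.κ = kap k (n % 6)}) => exists_step hk n s.1 s.2
  choose f hf hf' using h
  have h0 : C₀.κ = kap k (0 % 6) := by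
    rw [h₀]
    funext j
    simp [kap]
  let S : (n : ℕ) → {C : Cfg K // C.κ = kap k (n % 6)} := fun n =>
    Nat.rec ⟨C₀, h0⟩ (fun n s => ⟨f n s, hf n s⟩) n
  exact ⟨fun n => (S n).1, rfl, fun n => hf' n (S n)⟩

/-- The classes transform like the coordinate systems. -/
def StepC (n : ℕ) (c c' : Cls) : Prop :=
  (∃ hm : n % 6 < 5, c' = cB c ⟨n % 6, hm⟩) ∨ (n % 6 = 5 ∧ c' = cS c)

theorem cseq_step {μ d e a : ℝ} (h₁ : e = μ * d) (h₂ : d + 5 * (e - a) = μ * e)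
    (h₃ : 2 * e - a = μ * a) (n : ℕ) : StepC n (cseq μ d e a n) (cseq μ d e a (n + 1)) := by
  by_cases hm : n % 6 < 5
  · exact Or.inl ⟨hm, (cseq_B μ d e a hm).symm⟩
  · have hm' : n % 6 = 5 := by omega
    exact Or.inr ⟨hm', (cseq_S h₁ h₂ h₃ hm').symm⟩

theorem beta_step {n : ℕ} {C C' : Cfg K} (h : Step n C C') {c c' : Cls} (hc : StepC n c c') :
    beta C' c' - beta C c ∈ principal ℂ K 2 := by
  rcases h with ⟨hm, h, rfl⟩ | ⟨hm, rfl⟩
  · rcases hc with ⟨-, rfl⟩ | ⟨hm', -⟩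
    · have : beta (C.B ⟨n % 6, hm⟩ h) (cB c ⟨n % 6, hm⟩) - beta C c =
          c.2.1 • (fun u : DivVal ℂ K 2 => (u.v (C.D ⟨n % 6, hm⟩) : ℝ)) -
          (2 * c.2.1 - c.2.2 ⟨n % 6, hm⟩) •
            (fun u : DivVal ℂ K 2 => (u.v (C.τ ⟨n % 6, hm⟩) : ℝ)) := by
        funext u
        simp only [Pi.sub_apply, Pi.smul_apply, smul_eq_mul]
        rw [C.beta_B u h c]
        ring
      rw [this]
      exact sub_mem (Submodule.smul_mem _ _ (Cfg.mem_principal _))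
        (Submodule.smul_mem _ _ (Cfg.mem_principal _))
    · omega
  · rcases hc with ⟨hm', -⟩ | ⟨-, rfl⟩
    · omega
    · rw [C.beta_sw, sub_self]
      exact zero_mem _

theorem beta_seq {C : ℕ → Cfg K} (h : ∀ n, Step n (C n) (C (n + 1))) {c : ℕ → Cls}
    (hc : ∀ n, StepC n (c n) (c (n + 1))) (n : ℕ) :
    beta (C n) (c n) - beta (C 0) (c 0) ∈ principal ℂ K 2 := by
  induction n with
  | zero => rw [sub_self]; exact zero_mem _
  | succ n ih =>
    have h1 := add_mem (beta_step (h n) (hc n)) ih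
    rwa [sub_add_sub_cancel] at h1

theorem good_seq {C : ℕ → Cfg K} (h : ∀ n, Step n (C n) (C (n + 1))) {H : K → ℂ → Prop}
    (hH : Place H) (h0 : (C 0).Good H) (n : ℕ) : (C n).Good H := by
  induction n with
  | zero => exact h0
  | succ n ih =>
    rcases h n with ⟨hm, h, e⟩ | ⟨hm, e⟩
    · rw [e]
      exact (C n).good_B hH h ih
    · rw [e]
      exact (C n).good_sw hH ih

/-! ### The eigenvectors -/

theorem sq5 : Real.sqrt 5 ^ 2 = 5 := Real.sq_sqrt (by norm_num)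

theorem sq5_lt : Real.sqrt 5 < 9 / 4 := by
  rw [Real.sqrt_lt' (by norm_num)]
  norm_num

theorem sq5_gt : 11 / 5 < Real.sqrt 5 := by
  rw [Real.lt_sqrt (by norm_num)]
  norm_num

/-- The small eigenvalue. -/
def lam : ℝ := (3 - Real.sqrt 5) / 2

theorem lam_pos : 0 < lam := by
  have := sq5_lt
  unfold lam
  linarith

theorem lam_lt : lam < 1 := by
  have := sq5_gt
  unfold lam
  linarith

theorem lam_inv : lam⁻¹ = (3 + Real.sqrt 5) / 2 := by
  rw [inv_eq_iff_eq_inv]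
  refine eq_inv_of_mul_eq_one_left ?_
  unfold lam
  have := sq5
  nlinarith

/-- The nef class. -/
def c₀ (n : ℕ) : Cls := cseq lam ((5 + Real.sqrt 5) / 4) ((5 - Real.sqrt 5) / 4) 1 n

/-- The conjugate class. -/
def c₁ (n : ℕ) : Cls := cseq lam⁻¹ ((5 - Real.sqrt 5) / 4) ((5 + Real.sqrt 5) / 4) 1 n

/-- The invariant class. -/
def c₂ (n : ℕ) : Cls := cseq 1 1 1 1 n

theorem c₀_step (n : ℕ) : StepC n (c₀ n) (c₀ (n + 1)) := by
  have := sq5
  refine cseq_step ?_ ?_ ?_ n <;> unfold lam <;> nlinarith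

theorem c₁_step (n : ℕ) : StepC n (c₁ n) (c₁ (n + 1)) := by
  have := sq5
  refine cseq_step ?_ ?_ ?_ n <;> rw [lam_inv] <;> nlinarith

theorem c₂_step (n : ℕ) : StepC n (c₂ n) (c₂ (n + 1)) := by
  refine cseq_step ?_ ?_ ?_ n <;> norm_num

theorem cseq_six (μ d e a : ℝ) (j : ℕ) : cseq μ d e a (6 * j) = μ ^ j • cph d e a 0 := by
  unfold cseq
  have h1 : 6 * j / 6 = j := by omega
  have h2 : 6 * j % 6 = 0 := by omega
  rw [h1, h2]

theorem beta_smul (C : Cfg K) (r : ℝ) (c : Cls) : beta C (r • c) = r • beta C c := by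
  funext u
  simp only [beta, Prod.smul_fst, Prod.smul_snd, Pi.smul_apply, smul_eq_mul, Fin.sum_univ_five]
  ring

theorem beta_add (C : Cfg K) (c c' : Cls) : beta C (c + c') = beta C c + beta C c' := by
  funext u
  simp only [beta, Prod.fst_add, Prod.snd_add, Pi.add_apply, Fin.sum_univ_five]
  ring

theorem ample_add {X Y : ProjVar ℂ K} {D : BDiv ℂ K 2} (h : X.Ample D) (hY : X.Dominates Y)
    {r : ℝ} (hr : 0 ≤ r) : X.Ample (r • Y.hyp 2 + D) := by
  obtain ⟨c, m, d, Z, hc, hd, hp⟩ := h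
  refine ⟨c, m + 1, Fin.cons r d, Fin.cons Y Z, hc, fun j => ?_, ?_⟩
  · refine Fin.cases ?_ (fun j => ?_) j
    · exact ⟨hr, hY⟩
    · exact hd j
  · have : r • Y.hyp 2 + D - (c • X.hyp 2 + ∑ j : Fin (m + 1),
        (Fin.cons r d : Fin (m + 1) → ℝ) j • ((Fin.cons Y Z : Fin (m + 1) → ProjVar ℂ K) j).hyp 2) =
        D - (c • X.hyp 2 + ∑ j, d j • (Z j).hyp 2) := by
      rw [Fin.sum_univ_succ]
      simp only [Fin.cons_zero, Fin.cons_succ]
      abel
    rw [this]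
    exact hp

/-- The product of lines as a class. -/
theorem hyp_inP (C : Cfg K) : (C.on Cfg.inP).hyp 2 - beta C (1, 1, 0) ∈ principal ℂ K 2 := by
  have h := C.on_hyp_mod Cfg.inP
  have e : (fun u => -∑ a, if Cfg.inP a = true then (C.e a u : ℝ) else 0) = beta C (1, 1, 0) := by
    funext u
    simp only [beta, Pi.zero_apply, zero_div, zero_mul, Finset.sum_const_zero]
    have h2 : (∑ a, if Cfg.inP a = true then (C.e a u : ℝ) else 0) = C.e .U u + C.e .V u := by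
      rw [← Finset.sum_filter]
      have : (Finset.univ.filter fun a => Cfg.inP a = true) = {Ix.U, Ix.V} := by decide
      rw [this, Finset.sum_pair (by decide)]
    rw [h2]
    ring
  rwa [e] at h

theorem class_eq : ((1, 1, 0) : Cls) = (-4 : ℝ) • cph 1 1 1 0 +
    (2 : ℝ) • cph ((5 + Real.sqrt 5) / 4) ((5 - Real.sqrt 5) / 4) 1 0 +
    (2 : ℝ) • cph ((5 - Real.sqrt 5) / 4) ((5 + Real.sqrt 5) / 4) 1 0 := by
  unfold cph
  refine Prod.ext ?_ (Prod.ext ?_ ?_)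
  · simp
    ring
  · simp
    ring
  · funext i
    simp
    norm_num

/-- The pull-backs of the product of lines. -/
theorem hyp_seq {C : ℕ → Cfg K} (h : ∀ n, Step n (C n) (C (n + 1))) (j : ℕ) :
    ((C (6 * j)).on Cfg.inP).hyp 2 - ((-4 : ℝ) • beta (C 0) (c₂ 0) +
      (2 * (lam ^ j)⁻¹) • beta (C 0) (c₀ 0) + (2 * lam ^ j) • beta (C 0) (c₁ 0)) ∈
      principal ℂ K 2 := by
  have h1 := hyp_inP (C (6 * j))
  rw [class_eq, beta_add, beta_add, beta_smul, beta_smul, beta_smul] at h1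
  have h0 := beta_seq h c₀_step (6 * j)
  have h1' := beta_seq h c₁_step (6 * j)
  have h2 := beta_seq h c₂_step (6 * j)
  have e0 : c₀ (6 * j) = lam ^ j • cph ((5 + Real.sqrt 5) / 4) ((5 - Real.sqrt 5) / 4) 1 0 :=
    cseq_six _ _ _ _ _
  have e1 : c₁ (6 * j) = lam⁻¹ ^ j • cph ((5 - Real.sqrt 5) / 4) ((5 + Real.sqrt 5) / 4) 1 0 :=
    cseq_six _ _ _ _ _
  have e2 : c₂ (6 * j) = (1 : ℝ) ^ j • cph 1 1 1 0 := cseq_six _ _ _ _ _
  rw [e0, beta_smul] at h0
  rw [e1, beta_smul] at h1'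
  rw [e2, beta_smul, one_pow, one_smul] at h2
  have hl : lam ^ j ≠ 0 := pow_ne_zero _ lam_pos.ne'
  have h3 := add_mem (add_mem (add_mem h1 (Submodule.smul_mem _ (-4 : ℝ) h2))
    (Submodule.smul_mem _ (2 * (lam ^ j)⁻¹) h0)) (Submodule.smul_mem _ (2 * lam ^ j) h1')
  convert h3 using 1
  funext u
  simp only [Pi.sub_apply, Pi.add_apply, Pi.smul_apply, smul_eq_mul, inv_pow]
  field_simp
  ring

theorem nef_main {C : ℕ → Cfg K} (h : ∀ n, Step n (C n) (C (n + 1))) :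
    ((C 0).on Cfg.inF).Nef (beta (C 0) (c₀ 0)) := by
  intro N
  obtain ⟨j, hj⟩ : ∃ j, lam ^ j < (8 * N + 1 : ℝ)⁻¹ :=
    exists_pow_lt_of_lt_one (by positivity) lam_lt
  have hl : 0 < lam ^ j := pow_pos lam_pos j
  have hl1 : lam ^ j ≤ 1 := pow_le_one₀ lam_pos.le lam_lt.le
  have hj' : 8 * N * lam ^ j < 1 := by
    have h1 : (8 * N + 1 : ℝ) * lam ^ j < 1 := by
      have h2 : (0 : ℝ) < 8 * N + 1 := by positivity
      calc (8 * N + 1 : ℝ) * lam ^ j < (8 * N + 1) * (8 * N + 1 : ℝ)⁻¹ := by gcongr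
        _ = 1 := mul_inv_cancel₀ h2.ne'
    linarith
  have hN : (0 : ℝ) ≤ N * lam ^ j := by positivity
  -- the remaining divisor
  obtain ⟨D, hD⟩ : ∃ D : BDiv ℂ K 2, D = ((C 0).on Cfg.inF).hyp 2 +
    (2 * N * lam ^ j) • beta (C 0) (c₂ 0) - (N * lam ^ j * lam ^ j) • beta (C 0) (c₁ 0) := ⟨_, rfl⟩
  have hample : ((C 0).on Cfg.inF).Ample D := by
    let s := Real.sqrt 5
    have hs1 := sq5_lt
    have hs2 := sq5_gt
    let r : Ix → ℝ := fun a => match a with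
      | .U => 1 + 2 * N * lam ^ j * (1 - 5) - N * lam ^ j * lam ^ j * ((5 - s) / 4 - 5)
      | .V => 1 + 2 * N * lam ^ j * (1 - 5) - N * lam ^ j * lam ^ j * ((5 + s) / 4 - 5)
      | .F _ => 1 + 2 * N * lam ^ j * (1 / 2) - N * lam ^ j * lam ^ j * (1 / 2)
      | _ => 1
    have hNl : 0 ≤ N * lam ^ j * lam ^ j := by positivity
    have hNl2 : N * lam ^ j * lam ^ j ≤ N * lam ^ j := by nlinarith
    refine (C 0).ample_of_pos r ?_ ?_
    · intro a _
      cases a <;> simp only [r]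
      all_goals first
        | exact one_pos
        | nlinarith
    · rw [hD]
      have h1 := (C 0).on_hyp_mod Cfg.inF
      convert h1 using 1
      funext u
      simp only [Pi.sub_apply, Pi.add_apply, Pi.smul_apply, smul_eq_mul]
      have hsum : ∀ f : Ix → ℝ, (∑ a, if Cfg.inF a = true then f a else 0) =
          f .U + f .V + f .W + ∑ i, f (.F i) := by
        intro f
        rw [← Finset.sum_filter]
        have : (Finset.univ.filter fun a => Cfg.inF a = true) =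
            {Ix.U, Ix.V, Ix.W, Ix.F 0, Ix.F 1, Ix.F 2, Ix.F 3, Ix.F 4} := by decide
        rw [this, Fin.sum_univ_five]
        simp [Finset.sum_insert, Finset.sum_singleton]
        ring
      rw [hsum (fun a => r a * ((C 0).e a u : ℝ)), hsum (fun a => ((C 0).e a u : ℝ))]
      simp only [r, s, beta, c₁, c₂, cseq, cph, Fin.sum_univ_five, Prod.smul_fst, Prod.smul_snd,
        Pi.smul_apply, smul_eq_mul]
      norm_num
      ring
  have hdom : ((C 0).on Cfg.inF).Dominates ((C (6 * j)).on Cfg.inP) := by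
    refine (C (6 * j)).on_dominates fun P a ha => ?_
    exact Cfg.good_dom _ (place P) (good_seq h (place P) ((C 0).good_point P) (6 * j)) ha
  have h2 := ample_add hample hdom (r := N * lam ^ j / 2) (by positivity)
  refine Cfg.ample_congr h2 ?_
  have h3 := Submodule.smul_mem _ (-(N * lam ^ j / 2)) (hyp_seq h j)
  convert h3 using 1
  rw [hD]
  funext u
  simp only [Pi.sub_apply, Pi.add_apply, Pi.smul_apply, smul_eq_mul]
  have : lam ^ j * (lam ^ j)⁻¹ = 1 := mul_inv_cancel₀ hl.ne'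
  linear_combination (N * beta (C 0) (c₀ 0) u) * (-this)

end Pool.Agent.Helper43.Fl
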