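import Pool.Agent.Helper43.FlCfg

open scoped KaehlerDifferential

noncomputable section

namespace Pool.Agent.Helper43.Fl

open Pool.Agent.Helper43 Pool.Agent.Helper43.ProjVar

variable {K : Type} [Field K] [Algebra ℂ K]

/-- A generating family up to algebraic extensions, as long as a transcendence basis, is
algebraically independent. -/
theorem algInd_of_isAlg {k F : Type} [Field k] [Field F] [Algebra k F] {n : ℕ}
    {x e : Fin n → F} (hx : IsTranscendenceBasis k x)
    (he : ∀ i, IsAlgebraic (Algebra.adjoin k (Set.range e)) (x i)) :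
    AlgebraicIndependent k e := by
  have : Algebra.IsAlgebraic (Algebra.adjoin k (Set.range e)) F := ⟨fun z =>
    IsAlgebraic.adjoin_of_forall_isAlgebraic (s := Set.range x)
      (by rintro _ ⟨⟨i, rfl⟩, _⟩; exact he i) (hx.isAlgebraic.isAlgebraic z)⟩
  refine (Algebra.IsAlgebraic.isTranscendenceBasis_of_lift_le_trdeg_of_finite k e ?_).1
  rw [hx.lift_cardinalMk_eq_trdeg]

namespace Cfg

variable (C : Cfg K)

@[ext] theorem ext' {C C' : Cfg K} (hx : C.x = C'.x) (hy : C.y = C'.y) (hw : C.w = C'.w)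
    (hκ : C.κ = C'.κ) : C = C' := by
  cases C
  cases C'
  simp only at hx hy hw hκ
  subst hx hy hw hκ
  rfl

theorem range_b : Set.range ![C.x, C.y, C.w] = {C.x, C.y, C.w} := by
  ext z
  simp only [Set.mem_range, Set.mem_insert_iff, Set.mem_singleton_iff]
  constructor
  · rintro ⟨i, rfl⟩
    fin_cases i <;> simp
  · rintro (rfl | rfl | rfl)
    · exact ⟨0, rfl⟩
    · exact ⟨1, rfl⟩
    · exact ⟨2, rfl⟩

theorem top_of_mem (g : Fin 3 → K) (hx : C.x ∈ IntermediateField.adjoin ℂ (Set.range g))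
    (hy : C.y ∈ IntermediateField.adjoin ℂ (Set.range g))
    (hw : C.w ∈ IntermediateField.adjoin ℂ (Set.range g)) :
    IntermediateField.adjoin ℂ (Set.range g) = ⊤ := by
  rw [eq_top_iff, ← C.top]
  refine IntermediateField.adjoin_le_iff.mpr ?_
  rintro _ (rfl | rfl | rfl)
  · exact hx
  · exact hy
  · exact hw

theorem isAlg_of_top (s : Set K) (hs : IntermediateField.adjoin ℂ s = ⊤) :
    Algebra.IsAlgebraic (IntermediateField.adjoin ℂ s) K :=
  ⟨fun z => by
    have hz : z ∈ IntermediateField.adjoin ℂ s := by rw [hs]; trivial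
    exact isAlgebraic_algebraMap (⟨z, hz⟩ : IntermediateField.adjoin ℂ s)⟩

theorem tb : IsTranscendenceBasis ℂ ![C.x, C.y, C.w] := by
  have h1 : Algebra.IsAlgebraic (IntermediateField.adjoin ℂ (Set.range ![C.x, C.y, C.w])) K :=
    isAlg_of_top _ (by rw [C.range_b]; exact C.top)
  exact C.ind.isTranscendenceBasis_iff_isAlgebraic.mpr
    (IntermediateField.isAlgebraic_adjoin_iff_top.mp h1)

/-- A triple of elements over whose field the coordinates are rational is a coordinate system. -/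
theorem ind_of_mem (g : Fin 3 → K) (hx : C.x ∈ IntermediateField.adjoin ℂ (Set.range g))
    (hy : C.y ∈ IntermediateField.adjoin ℂ (Set.range g))
    (hw : C.w ∈ IntermediateField.adjoin ℂ (Set.range g)) : AlgebraicIndependent ℂ g := by
  refine algInd_of_isAlg C.tb fun i => ?_
  rw [← IntermediateField.isAlgebraic_adjoin_iff]
  have h : (![C.x, C.y, C.w] : Fin 3 → K) i ∈ IntermediateField.adjoin ℂ (Set.range g) := by
    fin_cases i
    · exact hx
    · exact hy
    · exact hw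
  exact isAlgebraic_algebraMap (⟨_, h⟩ : IntermediateField.adjoin ℂ (Set.range g))

include C in
theorem trdeg_eq : Algebra.trdeg ℂ K = 3 := by
  have h3 := C.tb.lift_cardinalMk_eq_trdeg
  simpa using h3.symm

theorem basis : IsDiffBasis ℂ C.b := by
  have h1 : Algebra.IsAlgebraic (IntermediateField.adjoin ℂ (Set.range ![C.x, C.y, C.w])) K :=
    isAlg_of_top _ (by rw [C.range_b]; exact C.top)
  have h2 : Algebra.IsSeparable (IntermediateField.adjoin ℂ (Set.range ![C.x, C.y, C.w])) K :=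
    inferInstance
  obtain ⟨b, hb⟩ := exists_basis_D C.ind h2
  have h1 : (fun i => KaehlerDifferential.D ℂ K (C.b i)) = b := funext fun i => (hb i).symm
  unfold IsDiffBasis
  rw [h1]
  exact ⟨b.linearIndependent, b.span_eq⟩

/-- The constants after an elementary transformation. -/
def κB (κ : Fin 5 → ℂ) (i j : Fin 5) : ℂ := if j = i then κ i / (κ i - 1) else κ j / (1 - κ i)

/-- The elementary transformation of the second coordinate. -/
def yB (i : Fin 5) : K := cc K (tt i) + C.τ i * C.z i / C.D i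

/-- The elementary transformation of the third coordinate. -/
def wB (i : Fin 5) : K := cc K (1 - C.κ i) * C.w * C.τ i / C.D i

theorem D_eq (i : Fin 5) : C.D i = cc K (1 - C.κ i) * C.τ i + cc K (C.κ i) * C.z i := by
  simp only [D, τ, z, η, cc_sub, cc_one]
  ring

/-- The denominator over the new coordinates. -/
theorem D_yB (i : Fin 5) : C.D i * (C.yB i - cc K (tt i)) = C.τ i * C.z i := by
  have := C.D_ne i
  unfold yB
  field_simp
  ring

theorem B_mem (i : Fin 5) :
    C.x ∈ IntermediateField.adjoin ℂ (Set.range ![C.x, C.yB i, C.wB i]) ∧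
    C.y ∈ IntermediateField.adjoin ℂ (Set.range ![C.x, C.yB i, C.wB i]) ∧
    C.w ∈ IntermediateField.adjoin ℂ (Set.range ![C.x, C.yB i, C.wB i]) := by
  set E := IntermediateField.adjoin ℂ (Set.range ![C.x, C.yB i, C.wB i]) with hE
  have hx : C.x ∈ E := IntermediateField.subset_adjoin _ _ ⟨0, rfl⟩
  have hy' : C.yB i ∈ E := IntermediateField.subset_adjoin _ _ ⟨1, rfl⟩
  have hw' : C.wB i ∈ E := IntermediateField.subset_adjoin _ _ ⟨2, rfl⟩
  have hc : ∀ c, cc K c ∈ E := fun c => E.algebraMap_mem c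
  have hτ : C.τ i ∈ E := sub_mem hx (hc _)
  have hD0 := C.D_ne i
  have hτ0 := C.τ_ne i
  have hz0 := C.z_ne i
  have hκ : cc K (1 - C.κ i) ≠ 0 := cc_ne (sub_ne_zero.mpr (C.κ1 i).symm)
  -- `z = (1 - κ) τ z' / (τ - κ z')` with `z' = τ z / D`
  have hz' : C.τ i * C.z i / C.D i ∈ E := by
    have := sub_mem hy' (hc (tt i))
    have e : C.yB i - cc K (tt i) = C.τ i * C.z i / C.D i := by unfold yB; ring
    rwa [e] at this
  have e1 : C.τ i - cc K (C.κ i) * (C.τ i * C.z i / C.D i) =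
      cc K (1 - C.κ i) * C.τ i ^ 2 / C.D i := by
    have := C.D_eq i
    field_simp
    rw [this]
    ring
  have hz : C.z i ∈ E := by
    have h1 : cc K (1 - C.κ i) * C.τ i ^ 2 / C.D i ∈ E := by
      rw [← e1]
      exact sub_mem hτ (mul_mem (hc _) hz')
    have h2 := div_mem (mul_mem (mul_mem (hc (1 - C.κ i)) hτ) hz') h1
    have e2 : cc K (1 - C.κ i) * C.τ i * (C.τ i * C.z i / C.D i) /
        (cc K (1 - C.κ i) * C.τ i ^ 2 / C.D i) = C.z i := by
      field_simp
    rwa [e2] at h2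
  have hy : C.y ∈ E := by
    have := add_mem hz (hc (tt i))
    simpa [z] using this
  have hD : C.D i ∈ E := by
    rw [C.D_eq]
    exact add_mem (mul_mem (hc _) hτ) (mul_mem (hc _) hz)
  refine ⟨hx, hy, ?_⟩
  have h1 := div_mem (mul_mem hw' hD) (mul_mem (hc (1 - C.κ i)) hτ)
  have e3 : C.wB i * C.D i / (cc K (1 - C.κ i) * C.τ i) = C.w := by
    unfold wB
    field_simp
  rwa [e3] at h1

/-- The elementary transformation at the `i`-th point. -/
def B (i : Fin 5) (h : ∀ j, j ≠ i → C.κ i + C.κ j ≠ 1) : Cfg K where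
  x := C.x
  y := C.yB i
  w := C.wB i
  ind := C.ind_of_mem _ (C.B_mem i).1 (C.B_mem i).2.1 (C.B_mem i).2.2
  top := by
    have h1 := C.top_of_mem _ (C.B_mem i).1 (C.B_mem i).2.1 (C.B_mem i).2.2
    have e : Set.range ![C.x, C.yB i, C.wB i] = {C.x, C.yB i, C.wB i} := by
      ext z
      simp only [Set.mem_range, Set.mem_insert_iff, Set.mem_singleton_iff]
      constructor
      · rintro ⟨i, rfl⟩
        fin_cases i <;> simp
      · rintro (rfl | rfl | rfl)
        · exact ⟨0, rfl⟩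
        · exact ⟨1, rfl⟩
        · exact ⟨2, rfl⟩
    rwa [e] at h1
  κ := κB C.κ i
  κ0 j := by
    unfold κB
    have h0 := C.κ0 j
    have h0' := C.κ0 i
    have h1 : C.κ i - 1 ≠ 0 := sub_ne_zero.mpr (C.κ1 i)
    have h2 : 1 - C.κ i ≠ 0 := sub_ne_zero.mpr (C.κ1 i).symm
    split_ifs
    · exact div_ne_zero h0' h1
    · exact div_ne_zero h0 h2
  κ1 j := by
    unfold κB
    have h1 : C.κ i - 1 ≠ 0 := sub_ne_zero.mpr (C.κ1 i)
    have h2 : 1 - C.κ i ≠ 0 := sub_ne_zero.mpr (C.κ1 i).symm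
    split_ifs with hj
    · intro h3
      rw [div_eq_one_iff_eq h1] at h3
      exact one_ne_zero (α := ℂ) (by linear_combination h3)
    · intro h3
      rw [div_eq_one_iff_eq h2] at h3
      exact h j hj (by linear_combination h3)

/-- Interchange of the first two coordinates. -/
def sw : Cfg K where
  x := C.y
  y := C.x
  w := C.w
  ind := C.ind_of_mem _ (IntermediateField.subset_adjoin _ _ ⟨1, rfl⟩)
    (IntermediateField.subset_adjoin _ _ ⟨0, rfl⟩) (IntermediateField.subset_adjoin _ _ ⟨2, rfl⟩)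
  top := by
    rw [← C.top]
    congr 1
    exact Set.insert_comm _ _ _
  κ j := 1 - C.κ j
  κ0 j := sub_ne_zero.mpr (C.κ1 j).symm
  κ1 j h := C.κ0 j (by linear_combination -h)

theorem sw_sw : C.sw.sw = C := by
  refine ext' rfl rfl rfl ?_
  funext j
  simp [sw]

section

variable {i : Fin 5} (h : ∀ j, j ≠ i → C.κ i + C.κ j ≠ 1)

@[simp] theorem B_x : (C.B i h).x = C.x := rfl
@[simp] theorem B_y : (C.B i h).y = cc K (tt i) + C.τ i * C.z i / C.D i := rfl
@[simp] theorem B_w : (C.B i h).w = cc K (1 - C.κ i) * C.w * C.τ i / C.D i := rfl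
@[simp] theorem B_τ (j : Fin 5) : (C.B i h).τ j = C.τ j := rfl
theorem B_κ (j : Fin 5) : (C.B i h).κ j = if j = i then C.κ i / (C.κ i - 1)
    else C.κ j / (1 - C.κ i) := rfl

theorem B_z_self : (C.B i h).z i = C.τ i * C.z i / C.D i := by
  simp only [z, B_y]
  ring

theorem B_z (j : Fin 5) : (C.B i h).z j = C.τ i * C.z i / C.D i + cc K (tt i - tt j) := by
  simp only [z, B_y, cc_sub]
  ring

theorem B_η : (C.B i h).η = cc K (1 - C.κ i) * C.η * C.τ i / C.D i := by
  have h0 := C.D_ne i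
  have h1 := C.D_eq i
  simp only [η, B_y, B_x]
  rw [eq_div_iff h0]
  have h2 : (cc K (tt i) + C.τ i * C.z i / C.D i - C.x) * C.D i =
    (cc K (tt i) - C.x) * C.D i + C.τ i * C.z i := by
    field_simp
    ring
  rw [h2, h1]
  simp only [τ, z, cc_sub, cc_one]
  ring

theorem B_D_self : (C.B i h).D i = C.τ i ^ 2 / C.D i := by
  have h0 := C.D_ne i
  have h2 : C.κ i - 1 ≠ 0 := sub_ne_zero.mpr (C.κ1 i)
  have h3 : (C.B i h).D i = C.τ i + cc K (C.κ i / (C.κ i - 1)) * (C.B i h).η := by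
    simp only [D, B_τ, B_κ, if_true]
  rw [h3, B_η, cc_div]
  have h4 : cc K (C.κ i - 1) ≠ 0 := cc_ne h2
  have h5 : cc K (1 - C.κ i) = -cc K (C.κ i - 1) := by rw [← cc_neg]; congr 1; ring
  rw [h5]
  field_simp
  simp only [D]
  ring

theorem B_D {j : Fin 5} (hj : j ≠ i) :
    (C.B i h).D j = C.τ j + cc K (C.κ j) * C.η * C.τ i / C.D i := by
  have h0 := C.D_ne i
  have h2 : 1 - C.κ i ≠ 0 := sub_ne_zero.mpr (C.κ1 i).symm
  have h3 : (C.B i h).D j = C.τ j + cc K (C.κ j / (1 - C.κ i)) * (C.B i h).η := by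
    simp only [D, B_τ, B_κ, if_neg hj]
  rw [h3, B_η, cc_div]
  have h4 : cc K (1 - C.κ i) ≠ 0 := cc_ne h2
  field_simp

theorem B_h' : ∀ j, j ≠ i → (C.B i h).κ i + (C.B i h).κ j ≠ 1 := by
  intro j hj
  have h1 : C.κ i - 1 ≠ 0 := sub_ne_zero.mpr (C.κ1 i)
  have h2 : 1 - C.κ i ≠ 0 := sub_ne_zero.mpr (C.κ1 i).symm
  rw [B_κ, B_κ, if_pos rfl, if_neg hj]
  intro h3
  have h4 : C.κ i / (C.κ i - 1) + C.κ j / (1 - C.κ i) = (C.κ i - C.κ j) / (C.κ i - 1) := by
    have : 1 - C.κ i = -(C.κ i - 1) := by ring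
    rw [this, div_neg]
    ring
  rw [h4, div_eq_one_iff_eq h1] at h3
  exact C.κ1 j (by linear_combination -h3)

theorem B_B : (C.B i h).B i (C.B_h' h) = C := by
  have h0 := C.D_ne i
  have h0' := C.τ_ne i
  have h1 : C.κ i - 1 ≠ 0 := sub_ne_zero.mpr (C.κ1 i)
  have h2 : 1 - C.κ i ≠ 0 := sub_ne_zero.mpr (C.κ1 i).symm
  apply ext'
  · rfl
  · rw [B_y, B_D_self, B_z_self, B_τ]
    have : C.τ i * (C.τ i * C.z i / C.D i) / (C.τ i ^ 2 / C.D i) = C.z i := by
      field_simp
    rw [this, z]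
    ring
  · rw [B_w, B_D_self, B_τ, B_w, B_κ, if_pos rfl]
    have h4 : cc K (C.κ i - 1) ≠ 0 := cc_ne h1
    have h5 : cc K (1 - C.κ i) = -cc K (C.κ i - 1) := by rw [← cc_neg]; congr 1; ring
    have h6 : (1 : ℂ) - C.κ i / (C.κ i - 1) = -(C.κ i - 1)⁻¹ := by
      field_simp
      ring
    rw [h5, h6, cc_neg, cc_inv]
    field_simp
  · funext j
    rw [B_κ, B_κ, B_κ, if_pos rfl]
    split_ifs with hj
    · subst hj
      have : C.κ j / (C.κ j - 1) - 1 = (C.κ j - 1)⁻¹ := by
        field_simp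
        ring
      rw [this]
      field_simp
    · have : 1 - C.κ i / (C.κ i - 1) = (1 - C.κ i)⁻¹ := by
        rw [eq_comm, inv_eq_iff_eq_inv]
        have : 1 - C.κ i / (C.κ i - 1) = -(C.κ i - 1)⁻¹ := by
          field_simp
          ring
        rw [this, inv_neg, inv_inv]
        ring
      rw [this]
      field_simp

end

@[simp] theorem sw_x : C.sw.x = C.y := rfl
@[simp] theorem sw_y : C.sw.y = C.x := rfl
@[simp] theorem sw_w : C.sw.w = C.w := rfl
@[simp] theorem sw_τ (j : Fin 5) : C.sw.τ j = C.z j := rfl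
@[simp] theorem sw_z (j : Fin 5) : C.sw.z j = C.τ j := rfl
@[simp] theorem sw_κ (j : Fin 5) : C.sw.κ j = 1 - C.κ j := rfl

@[simp] theorem sw_η : C.sw.η = -C.η := by
  simp only [η, sw_x, sw_y]
  ring

@[simp] theorem sw_D (j : Fin 5) : C.sw.D j = C.D j := by
  rw [D, sw_τ, sw_κ, sw_η]
  simp only [D, τ, z, η, cc_sub, cc_one]
  ring

end Cfg

/-- The class after an elementary transformation. -/
def cB (c : Cls) (i : Fin 5) : Cls :=
  (c.1 + c.2.1 - c.2.2 i, c.2.1, Function.update c.2.2 i (2 * c.2.1 - c.2.2 i))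

/-- The class after interchange of the coordinates. -/
def cS (c : Cls) : Cls := (c.2.1, c.1, c.2.2)

end Pool.Agent.Helper43.Fl
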