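import Pool.Agent.Helper43.FlTr

open scoped KaehlerDifferential

noncomputable section

namespace Pool.Agent.Helper43.Fl

open Pool.Agent.Helper43 Pool.Agent.Helper43.ProjVar

variable {K : Type} [Field K] [Algebra ℂ K]

namespace Cfg

variable (C : Cfg K) (u : DivVal ℂ K 2)

theorem m_self (i : Fin 5) : C.m i i = ![C.w, C.η, C.τ i * C.z i, C.τ i] := by
  simp [m]

theorem m_other {i j : Fin 5} (h : i ≠ j) : C.m i j = ![C.w, C.η, C.τ i * C.z j, 0] := by
  simp [m, h]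

/-- The two other expressions of `h i j`. -/
theorem h_eq₁ {i j : Fin 5} (h : i ≠ j) :
    cc K (tt j - tt i) * C.h i j = cc K ((C.κ j - 1) * (tt j - tt i)) * C.η + C.τ i * C.z j := by
  have h1 : cc K (tt j - tt i) ≠ 0 := cc_ne (tt_sub h.symm)
  unfold Cfg.h
  rw [mul_add, mul_div_cancel₀ _ h1]
  simp only [D, τ, z, η, cc_sub, cc_mul, cc_one]
  ring

theorem h_eq₂ {i j : Fin 5} (h : i ≠ j) :
    cc K (tt j - tt i) * C.h i j = cc K (C.κ j * (tt j - tt i)) * C.η + C.τ j * C.z i := by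
  have h1 : cc K (tt j - tt i) ≠ 0 := cc_ne (tt_sub h.symm)
  unfold Cfg.h
  rw [mul_add, mul_div_cancel₀ _ h1]
  simp only [D, τ, z, η, cc_sub, cc_mul]
  ring

theorem h_eq₃ {i j : Fin 5} (h : i ≠ j) :
    cc K (tt j - tt i) * C.h i j = cc K (tt j - tt i) * C.D j + C.τ j * C.z j := by
  have h1 : cc K (tt j - tt i) ≠ 0 := cc_ne (tt_sub h.symm)
  unfold Cfg.h
  rw [mul_add, mul_div_cancel₀ _ h1]

theorem T_x (i : Fin 5) : T3 (u.v C.x) (u.v (C.τ i)) 0 := by
  have h := T3_of_add u (a := C.x) (b := -C.τ i) (c := -cc K (tt i)) C.x_ne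
    (neg_ne_zero.mpr (C.τ_ne i)) (neg_ne_zero.mpr (cc_ne (tt_ne i))) (by simp only [τ]; ring)
  rwa [v_neg, v_neg, u.const] at h

theorem T_y (i : Fin 5) : T3 (u.v C.y) (u.v (C.z i)) 0 := by
  have h := T3_of_add u (a := C.y) (b := -C.z i) (c := -cc K (tt i)) C.y_ne
    (neg_ne_zero.mpr (C.z_ne i)) (neg_ne_zero.mpr (cc_ne (tt_ne i))) (by simp only [z]; ring)
  rwa [v_neg, v_neg, u.const] at h

theorem T_τ {i j : Fin 5} (h : i ≠ j) : T3 (u.v (C.τ i)) (u.v (C.τ j)) 0 := by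
  have h := T3_of_add u (a := C.τ i) (b := -C.τ j) (c := cc K (tt i - tt j)) (C.τ_ne i)
    (neg_ne_zero.mpr (C.τ_ne j)) (cc_ne (tt_sub h)) (by simp only [τ, cc_sub]; ring)
  rwa [v_neg, u.const] at h

theorem T_z {i j : Fin 5} (h : i ≠ j) : T3 (u.v (C.z i)) (u.v (C.z j)) 0 := by
  have h := T3_of_add u (a := C.z i) (b := -C.z j) (c := cc K (tt i - tt j)) (C.z_ne i)
    (neg_ne_zero.mpr (C.z_ne j)) (cc_ne (tt_sub h)) (by simp only [z, cc_sub]; ring)
  rwa [v_neg, u.const] at h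

theorem T_η (i : Fin 5) : T3 (u.v (C.τ i)) (u.v (C.z i)) (u.v C.η) := by
  have h := T3_of_add u (a := C.τ i) (b := -C.z i) (c := C.η) (C.τ_ne i)
    (neg_ne_zero.mpr (C.z_ne i)) C.η_ne (by simp only [τ, z, η]; ring)
  rwa [v_neg] at h

theorem κ_sub (i : Fin 5) : 1 - C.κ i ≠ 0 := sub_ne_zero.mpr (C.κ1 i).symm

theorem T_D (i : Fin 5) : T3 (u.v (C.τ i)) (u.v (C.z i)) (u.v (C.D i)) :=
  T3_lin u (r := (1 : ℂ)) (C.τ_ne i) (C.z_ne i) (C.D_ne i) one_ne_zero (C.κ_sub i) (C.κ0 i)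
    (by rw [C.D_eq]; simp)

theorem T_D' (i : Fin 5) : T3 (u.v (C.τ i)) (u.v C.η) (u.v (C.D i)) :=
  T3_lin u (r := (1 : ℂ)) (s := (1 : ℂ)) (t := C.κ i) (C.τ_ne i) C.η_ne (C.D_ne i) one_ne_zero
    one_ne_zero (C.κ0 i) (by rw [D]; simp)

theorem T_D'' (i : Fin 5) : T3 (u.v (C.z i)) (u.v C.η) (u.v (C.D i)) :=
  T3_lin u (r := (1 : ℂ)) (s := (1 : ℂ)) (t := -(1 - C.κ i)) (C.z_ne i) C.η_ne (C.D_ne i)
    one_ne_zero one_ne_zero (neg_ne_zero.mpr (C.κ_sub i)) (by
      simp only [D, τ, z, η, map_sub, map_neg, map_one]; ring)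

theorem T_h₁ {i j : Fin 5} (h : i ≠ j) :
    T3 (u.v (C.h i j)) (u.v C.η) (u.v (C.τ i) + u.v (C.z j)) := by
  have h1 := T3_lin u (r := (1 : ℂ)) (s := tt j - tt i) (t := -((C.κ j - 1) * (tt j - tt i)))
    (a := C.h i j) (b := C.η) (c := C.τ i * C.z j) (C.h_ne i j) C.η_ne
    (mul_ne_zero (C.τ_ne i) (C.z_ne j)) one_ne_zero (tt_sub h.symm)
    (neg_ne_zero.mpr (mul_ne_zero (sub_ne_zero.mpr (C.κ1 j)) (tt_sub h.symm))) (by
      have := C.h_eq₁ h
      rw [map_one, one_mul, map_neg]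
      linear_combination this)
  rwa [u.mul _ _ (C.τ_ne i) (C.z_ne j)] at h1

theorem T_h₂ {i j : Fin 5} (h : i ≠ j) :
    T3 (u.v (C.h i j)) (u.v C.η) (u.v (C.τ j) + u.v (C.z i)) := by
  have h1 := T3_lin u (r := (1 : ℂ)) (s := tt j - tt i) (t := -(C.κ j * (tt j - tt i)))
    (a := C.h i j) (b := C.η) (c := C.τ j * C.z i) (C.h_ne i j) C.η_ne
    (mul_ne_zero (C.τ_ne j) (C.z_ne i)) one_ne_zero (tt_sub h.symm)
    (neg_ne_zero.mpr (mul_ne_zero (C.κ0 j) (tt_sub h.symm))) (by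
      have := C.h_eq₂ h
      rw [map_one, one_mul, map_neg]
      linear_combination this)
  rwa [u.mul _ _ (C.τ_ne j) (C.z_ne i)] at h1

theorem T_h₃ {i j : Fin 5} (h : i ≠ j) :
    T3 (u.v (C.h i j)) (u.v (C.D j)) (u.v (C.τ j) + u.v (C.z j)) := by
  have h1 := T3_lin u (r := (1 : ℂ)) (s := tt j - tt i) (t := -(tt j - tt i))
    (a := C.h i j) (b := C.D j) (c := C.τ j * C.z j) (C.h_ne i j) (C.D_ne j)
    (mul_ne_zero (C.τ_ne j) (C.z_ne j)) one_ne_zero (tt_sub h.symm)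
    (neg_ne_zero.mpr (tt_sub h.symm)) (by
      have := C.h_eq₃ h
      rw [map_one, one_mul, map_neg]
      linear_combination this)
  rwa [u.mul _ _ (C.τ_ne j) (C.z_ne j)] at h1

/-- The least value of `τ, z, τ z`. -/
def mF (C : Cfg K) (u : DivVal ℂ K 2) (i : Fin 5) : ℤ :=
  min (min (u.v (C.τ i)) (u.v (C.z i))) (u.v (C.τ i) + u.v (C.z i))

theorem v_τz (i j : Fin 5) : u.v (C.τ i * C.z j) = u.v (C.τ i) + u.v (C.z j) :=
  u.mul _ _ (C.τ_ne i) (C.z_ne j)

theorem e_U : C.e .U u = min 0 (u.v C.x) := by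
  obtain ⟨j, hj, h⟩ := mn_eq (s := C.sys .U) u (C.sys_ne _)
  have h1 := mn_le (s := C.sys .U) u (C.sys_ne _) (j := some (0, 0)) (by simp [sys])
  have h2 := mn_le (s := C.sys .U) u (C.sys_ne _) (j := some (1, 0)) (by simpa [sys] using C.x_ne)
  unfold e
  simp only [sys, Matrix.cons_val_zero, Matrix.cons_val_one, v_one] at h1 h2
  rcases j with _ | ⟨p, q⟩
  · exact absurd rfl hj
  · fin_cases p
    · simp [sys, v_one] at h; omega
    · simp [sys] at h; omega
    · exact absurd rfl hj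
    · exact absurd rfl hj

theorem e_V : C.e .V u = min 0 (u.v C.y) := by
  obtain ⟨j, hj, h⟩ := mn_eq (s := C.sys .V) u (C.sys_ne _)
  have h1 := mn_le (s := C.sys .V) u (C.sys_ne _) (j := some (0, 0)) (by simp [sys])
  have h2 := mn_le (s := C.sys .V) u (C.sys_ne _) (j := some (1, 0)) (by simpa [sys] using C.y_ne)
  unfold e
  simp only [sys, Matrix.cons_val_zero, Matrix.cons_val_one, v_one] at h1 h2
  rcases j with _ | ⟨p, q⟩
  · exact absurd rfl hj
  · fin_cases p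
    · simp [sys, v_one] at h; omega
    · simp [sys] at h; omega
    · exact absurd rfl hj
    · exact absurd rfl hj

theorem e_S : C.e .S u = min (min 0 (u.v C.x) + min 0 (u.v C.y)) (u.v C.w) := by
  obtain ⟨j, hj, h⟩ := mn_eq (s := C.sys .S) u (C.sys_ne _)
  have h0 := mn_le (s := C.sys .S) u (C.sys_ne _) (j := none) (by simpa [sys] using C.w_ne)
  have h1 := mn_le (s := C.sys .S) u (C.sys_ne _) (j := some (0, 0)) (by simp [sys])
  have h2 := mn_le (s := C.sys .S) u (C.sys_ne _) (j := some (1, 0)) (by simpa [sys] using C.x_ne)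
  have h3 := mn_le (s := C.sys .S) u (C.sys_ne _) (j := some (2, 0)) (by simpa [sys] using C.y_ne)
  have h4 := mn_le (s := C.sys .S) u (C.sys_ne _) (j := some (3, 0))
    (by simpa [sys] using ⟨C.x_ne, C.y_ne⟩)
  have e4 : u.v (C.x * C.y) = u.v C.x + u.v C.y := u.mul _ _ C.x_ne C.y_ne
  unfold e
  simp only [sys, Matrix.cons_val_zero, Matrix.cons_val_one, Matrix.cons_val, v_one] at h0 h1 h2 h3 h4
  rw [e4] at h4
  rcases j with _ | ⟨p, q⟩
  · simp only [sys] at h; omega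
  · fin_cases p
    · simp [sys, v_one] at h; omega
    · simp [sys] at h; omega
    · simp [sys] at h; omega
    · simp [sys, e4] at h; omega

theorem e_M_self (i : Fin 5) : C.e (.M i i) u = min (u.v C.w) (C.mF u i) := by
  obtain ⟨j, hj, h⟩ := mn_eq (s := C.sys (.M i i)) u (C.sys_ne _)
  have h1 := mn_le (s := C.sys (.M i i)) u (C.sys_ne _) (j := some (0, 0))
    (by simpa [sys, m] using C.w_ne)
  have h2 := mn_le (s := C.sys (.M i i)) u (C.sys_ne _) (j := some (1, 0))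
    (by simpa [sys, m] using C.η_ne)
  have h3 := mn_le (s := C.sys (.M i i)) u (C.sys_ne _) (j := some (2, 0))
    (by simpa [sys, m] using ⟨C.τ_ne i, C.z_ne i⟩)
  have h4 := mn_le (s := C.sys (.M i i)) u (C.sys_ne _) (j := some (3, 0))
    (by simpa [sys, m] using C.τ_ne i)
  have hT := C.T_η u i
  unfold e mF T3 at *
  simp only [sys, m_self, Matrix.cons_val_zero, Matrix.cons_val_one, Matrix.cons_val, v_τz]
    at h1 h2 h3 h4
  rcases j with _ | ⟨p, q⟩
  · exact absurd rfl hj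
  · fin_cases p
    · simp [sys, m_self] at h; omega
    · simp [sys, m_self] at h; omega
    · simp [sys, m_self, v_τz] at h; omega
    · simp [sys, m_self] at h; omega

theorem e_M {i j : Fin 5} (hij : i ≠ j) :
    C.e (.M i j) u = min (u.v C.w) (min (u.v C.η) (u.v (C.τ i) + u.v (C.z j))) := by
  obtain ⟨a, hj, h⟩ := mn_eq (s := C.sys (.M i j)) u (C.sys_ne _)
  have h1 := mn_le (s := C.sys (.M i j)) u (C.sys_ne _) (j := some (0, 0))
    (by simpa [sys, m] using C.w_ne)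
  have h2 := mn_le (s := C.sys (.M i j)) u (C.sys_ne _) (j := some (1, 0))
    (by simpa [sys, m] using C.η_ne)
  have h3 := mn_le (s := C.sys (.M i j)) u (C.sys_ne _) (j := some (2, 0))
    (by simpa [sys, m] using ⟨C.τ_ne i, C.z_ne j⟩)
  unfold e
  simp only [sys, C.m_other hij, Matrix.cons_val_zero, Matrix.cons_val_one, Matrix.cons_val, v_τz]
    at h1 h2 h3
  rcases a with _ | ⟨p, q⟩
  · exact absurd rfl hj
  · fin_cases p
    · simp [sys, C.m_other hij] at h; omega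
    · simp [sys, C.m_other hij] at h; omega
    · simp [sys, C.m_other hij, v_τz] at h; omega
    · exact absurd (by simp [sys, C.m_other hij]) hj

/-- The least value of a product system. -/
theorem e_N_aux (i j : Fin 5) : (∃ p, C.m i j p ≠ 0 ∧ C.e (.M i j) u = u.v (C.m i j p)) ∧
    ∀ p, C.m i j p ≠ 0 → C.e (.M i j) u ≤ u.v (C.m i j p) := by
  constructor
  · obtain ⟨a, hj, h⟩ := mn_eq (s := C.sys (.M i j)) u (C.sys_ne _)
    rcases a with _ | ⟨p, q⟩
    · exact absurd rfl hj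
    · exact ⟨p, hj, h⟩
  · intro p hp
    exact mn_le (s := C.sys (.M i j)) u (C.sys_ne _) (j := some (p, 0)) hp

theorem e_N_gen (i j : Fin 5) {r : ℤ} (h0 : C.sys (.N i j) none ≠ 0)
    (hr : u.v (C.sys (.N i j) none) = r) : C.e (.N i j) u = min (2 * C.e (.M i j) u) r := by
  obtain ⟨⟨p, hp, hp'⟩, hle⟩ := C.e_N_aux u i j
  obtain ⟨a, hj, h⟩ := mn_eq (s := C.sys (.N i j)) u (C.sys_ne _)
  have h1 := mn_le (s := C.sys (.N i j)) u (C.sys_ne _) (j := none) h0
  have h2 := mn_le (s := C.sys (.N i j)) u (C.sys_ne _) (j := some (p, p))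
    (by simpa [sys] using hp)
  have e2 : u.v (C.sys (.N i j) (some (p, p))) = 2 * C.e (.M i j) u := by
    change u.v (C.m i j p * C.m i j p) = _
    rw [u.mul _ _ hp hp, hp']
    ring
  rw [e2] at h2
  rw [hr] at h1
  change C.e (.N i j) u ≤ _ at h1
  change C.e (.N i j) u ≤ _ at h2
  change C.e (.N i j) u = _ at h
  rcases a with _ | ⟨q, q'⟩
  · rw [hr] at h
    omega
  · have hq : C.m i j q ≠ 0 := fun h0 => hj (by simp [sys, h0])
    have hq' : C.m i j q' ≠ 0 := fun h0 => hj (by simp [sys, h0])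
    have e3 : u.v (C.sys (.N i j) (some (q, q'))) = u.v (C.m i j q) + u.v (C.m i j q') := by
      change u.v (C.m i j q * C.m i j q') = _
      rw [u.mul _ _ hq hq']
    rw [e3] at h
    have h3 := hle q hq
    have h4 := hle q' hq'
    omega

theorem e_N_self (i : Fin 5) : C.e (.N i i) u = min (2 * C.e (.M i i) u) (u.v (C.D i)) :=
  C.e_N_gen u i i (by simpa [sys] using C.D_ne i) (by simp [sys])

theorem e_N {i j : Fin 5} (h : i ≠ j) :
    C.e (.N i j) u = min (2 * C.e (.M i j) u) (u.v (C.h i j) + u.v (C.τ i)) :=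
  C.e_N_gen u i j (by simpa [sys, h] using ⟨C.h_ne i j, C.τ_ne i⟩)
    (by simp only [sys, if_neg h]; exact u.mul _ _ (C.h_ne i j) (C.τ_ne i))

theorem e_F (i : Fin 5) : C.e (.F i) u = min (2 * C.mF u i) (u.v (C.D i)) := by
  obtain ⟨j, hj, h⟩ := mn_eq (s := C.sys (.F i)) u (C.sys_ne _)
  have h1 := mn_le (s := C.sys (.F i)) u (C.sys_ne _) (j := some (0, 0))
    (by simpa [sys] using ⟨C.τ_ne i, C.z_ne i⟩)
  have h2 := mn_le (s := C.sys (.F i)) u (C.sys_ne _) (j := some (1, 0))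
    (by simpa [sys] using C.τ_ne i)
  have h3 := mn_le (s := C.sys (.F i)) u (C.sys_ne _) (j := some (2, 0))
    (by simpa [sys] using C.z_ne i)
  have h4 := mn_le (s := C.sys (.F i)) u (C.sys_ne _) (j := some (3, 0))
    (by simpa [sys] using C.D_ne i)
  have e1 : u.v ((C.τ i * C.z i) ^ 2) = 2 * (u.v (C.τ i) + u.v (C.z i)) := by
    rw [v_pow u _ (mul_ne_zero (C.τ_ne i) (C.z_ne i)), v_τz]
    rfl
  have e2 : u.v (C.τ i ^ 2) = 2 * u.v (C.τ i) := by rw [v_pow u _ (C.τ_ne i)]; rfl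
  have e3 : u.v (C.z i ^ 2) = 2 * u.v (C.z i) := by rw [v_pow u _ (C.z_ne i)]; rfl
  unfold e mF
  simp only [sys, Matrix.cons_val_zero, Matrix.cons_val_one, Matrix.cons_val, e1, e2, e3]
    at h1 h2 h3 h4
  rcases j with _ | ⟨p, q⟩
  · exact absurd rfl hj
  · fin_cases p
    · simp only [sys, Fin.zero_eta, Matrix.cons_val_zero, e1] at h; omega
    · simp only [sys, Fin.mk_one, Matrix.cons_val_one, Matrix.cons_val_zero, e2] at h; omega
    · simp only [sys, Fin.reduceFinMk, Matrix.cons_val, e3] at h; omega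
    · simp only [sys, Fin.reduceFinMk, Matrix.cons_val] at h; omega

end Cfg

end Pool.Agent.Helper43.Fl
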