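import Mathlib

open scoped KaehlerDifferential

namespace Pool.Agent.Helper43

universe u

section Differentials

variable (k : Type u) {K : Type u} [Field k] [Field K] [Algebra k K] {n : ℕ}

/-- The differentials `db₁, …, dbₙ` form a basis of the Kähler differentials of `K` over `k`. -/
def IsDiffBasis (b : Fin n → K) : Prop :=
  LinearIndependent K (fun i => KaehlerDifferential.D k K (b i)) ∧
    Submodule.span K (Set.range fun i => KaehlerDifferential.D k K (b i)) = ⊤

/-- `J` is the Jacobian determinant of `a` with respect to `b`: the differentials `daᵢ` are
linear combinations of the `dbⱼ` with a coefficient matrix of determinant `J`.  In other words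
`da₁ ∧ … ∧ daₙ = J db₁ ∧ … ∧ dbₙ`. -/
def IsJacobian (a b : Fin n → K) (J : K) : Prop :=
  ∃ M : Matrix (Fin n) (Fin n) K, M.det = J ∧
    ∀ i, KaehlerDifferential.D k K (a i) = ∑ j, M i j • KaehlerDifferential.D k K (b j)

end Differentials

/-- A projective variety over `k`, presented by its generic point: a family `x` of homogeneous
coordinates with values in an extension field `F` of `k` (a universal domain), one of them,
`x o`, being nonzero.  The variety is the set of points of projective space over `k` at which
every homogeneous polynomial vanishing at `x` vanishes.  Its ideal is prime, and for `k`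
algebraically closed every projective variety arises in this way. -/
structure ProjVar (k F : Type u) [Field k] [Field F] [Algebra k F] where
  /-- index set of the homogeneous coordinates -/
  ι : Type
  fin : Finite ι
  /-- homogeneous coordinates of the generic point -/
  x : ι → F
  o : ι
  x_ne : x o ≠ 0

namespace ProjVar

variable {k F : Type u} [Field k] [Field F] [Algebra k F] (X Y : ProjVar k F)

/-- The closed points: nonzero vectors of homogeneous coordinates in `k` at which every
homogeneous polynomial that vanishes at the generic point vanishes. -/
structure Pt where
  p : X.ι → k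
  ne : p ≠ 0
  vanish : ∀ (n : ℕ) (f : MvPolynomial X.ι k), f.IsHomogeneous n →
    MvPolynomial.aeval X.x f = 0 → MvPolynomial.eval p f = 0

/-- The function field, generated by the ratios of the coordinates of the generic point. -/
def functionField : IntermediateField k F :=
  IntermediateField.adjoin k {z | ∃ i, z = X.x i / X.x X.o}

variable {X} in
/-- The rational function `z` is regular at the point `P` and has the value `c` there:
`z = a / b` with `a`, `b` homogeneous of the same degree, `b(P) ≠ 0` and `c = a(P) / b(P)`. -/
def HasVal (P : X.Pt) (z : F) (c : k) : Prop :=
  ∃ (n : ℕ) (a b : MvPolynomial X.ι k), a.IsHomogeneous n ∧ b.IsHomogeneous n ∧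
    MvPolynomial.eval P.p b ≠ 0 ∧ z * MvPolynomial.aeval X.x b = MvPolynomial.aeval X.x a ∧
    c * MvPolynomial.eval P.p b = MvPolynomial.eval P.p a

variable {X} in
/-- The rational function `z` is regular at `P`, that is, it lies in the local ring of `P`. -/
def RegularAt (P : X.Pt) (z : F) : Prop := ∃ c, HasVal P z c

/-- `X` is nonsingular of dimension `n`: its function field has transcendence degree `n`, and the
maximal ideal of the local ring at each closed point is generated by `n` elements. -/
def IsNonsingular (n : ℕ) : Prop :=
  Algebra.trdeg k X.functionField = n ∧
    ∀ P : X.Pt, ∃ s : Fin n → F, (∀ i, HasVal P (s i) 0) ∧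
      ∀ z, HasVal P z 0 → ∃ c : Fin n → F, (∀ i, RegularAt P (c i)) ∧ z = ∑ i, c i * s i

variable {X Y} in
/-- The rational map `X ⇢ Y` given by an inclusion of function fields is defined at `P` and sends
it to `Q`: the local ring at `P` dominates the local ring at `Q`. -/
def MapsTo (P : X.Pt) (Q : Y.Pt) : Prop := ∀ z c, HasVal Q z c → HasVal P z c

end ProjVar

end Pool.Agent.Helper43
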