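import Pool.Agent.Helper43.GeoBase

open scoped KaehlerDifferential

namespace Pool.Agent.Helper43.ProjVar

universe u

variable {k F : Type u} [Field k] [Field F] [Algebra k F] (X Y : ProjVar k F)

variable {X} in
/-- The rational `n`-form `l db₁ ∧ … ∧ dbₙ` generates the canonical sheaf at the point `P` of the
nonsingular `n`-dimensional variety `X`: every form `da₁ ∧ … ∧ daₙ` with all `aᵢ` regular at `P`
is a multiple of it by a function regular at `P`, and it is itself such a multiple of one of
these forms. -/
def IsCanonicalGen {n : ℕ} (P : X.Pt) (b : Fin n → X.functionField) (l : X.functionField) :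
    Prop :=
  (∀ a J, (∀ i, RegularAt P (a i)) → IsJacobian k a b J → ∃ u : F, RegularAt P u ∧ J = u * l) ∧
    ∃ a J, (∀ i, RegularAt P (a i)) ∧ IsJacobian k a b J ∧ ∃ u : F, RegularAt P u ∧ l = u * J

/-- The canonical divisor of the nonsingular `n`-dimensional variety `X` is pseudo-effective.
With `K` the divisor of the form `db₁ ∧ … ∧ dbₙ` and `H` the hyperplane section `x o = 0`, for
every `N` some positive multiple `m (N K + H)` has a nonzero global section, that is, there is a
rational function `g ≠ 0` with `div g + m (N K + H) ≥ 0`.  At a point `P` the line bundle of `K`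
is generated by `l` if `l db₁ ∧ … ∧ dbₙ` generates the canonical sheaf, and the line bundle of `H`
by `x i / x o` if `x i` does not vanish at `P`. -/
def CanonicalPseudoEffective (n : ℕ) : Prop :=
  ∀ b : Fin n → X.functionField, IsDiffBasis k b → ∀ N : ℕ, ∃ m : ℕ, 0 < m ∧
    ∃ g ∈ X.functionField, g ≠ 0 ∧ ∀ (P : X.Pt) (l : X.functionField) (i : X.ι),
      IsCanonicalGen P b l → P.p i ≠ 0 →
        ∃ s, RegularAt P s ∧ g = s * (l ^ N * (X.x i / X.x X.o)) ^ m

/-- The canonical divisor of the nonsingular `n`-dimensional variety `X` is trivial: a nonzero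
rational `n`-form generates the canonical sheaf at every closed point. -/
def CanonicalTrivial (n : ℕ) : Prop :=
  ∃ (b : Fin n → X.functionField) (l : X.functionField), IsDiffBasis k b ∧ l ≠ 0 ∧
    ∀ P : X.Pt, IsCanonicalGen P b l

/-- The inclusion of function fields `k(Y) ⊆ k(X)` defines a surjective morphism `X → Y`, and
`k(Y)` is algebraically closed in `k(X)`.  For normal `Y` the last condition says that the
direct image of the structure sheaf of `X` is the structure sheaf of `Y`. -/
def IsFibration : Prop :=
  Y.functionField ≤ X.functionField ∧ (∀ P : X.Pt, ∃ Q : Y.Pt, MapsTo P Q) ∧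
    (∀ Q : Y.Pt, ∃ P : X.Pt, MapsTo P Q) ∧
    ∀ z ∈ X.functionField, IsAlgebraic Y.functionField z → z ∈ Y.functionField

/-- The canonical sheaf of the nonsingular `n`-dimensional variety `X` is trivial along every
fibre of `X → Y`: for every point `Q` of `Y` one nonzero rational `n`-form generates the canonical
sheaf at all points of the fibre over `Q`. -/
def CanonicalTrivialOnFibres (n : ℕ) : Prop :=
  ∀ Q : Y.Pt, ∃ (b : Fin n → X.functionField) (l : X.functionField), IsDiffBasis k b ∧ l ≠ 0 ∧
    ∀ P : X.Pt, MapsTo P Q → IsCanonicalGen P b l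

end Pool.Agent.Helper43.ProjVar
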