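import Pool.Agent.Helper43.GeoDefs

open scoped KaehlerDifferential

noncomputable section

namespace Pool.Agent.Helper43

universe u

/-- A subring of the field `F` with residue field `k`, given by its values. -/
structure Place {k F : Type u} [Field k] [Field F] [Algebra k F] (H : F → k → Prop) : Prop where
  const : ∀ c, H (algebraMap k F c) c
  add : ∀ {z z' c c'}, H z c → H z' c' → H (z + z') (c + c')
  mul : ∀ {z z' c c'}, H z c → H z' c' → H (z * z') (c * c')
  inv : ∀ {z c}, H z c → c ≠ 0 → H z⁻¹ c⁻¹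
  uniq : ∀ {z c c'}, H z c → H z c' → c = c'

namespace ProjVar

variable {k F : Type u} [Field k] [Field F] [Algebra k F] {X Y : ProjVar k F}

open MvPolynomial

section HasVal

variable (P : X.Pt)

theorem hasVal_const (c : k) : HasVal P (algebraMap k F c) c :=
  ⟨0, MvPolynomial.C c, 1, MvPolynomial.isHomogeneous_C _ _, MvPolynomial.isHomogeneous_one _ _,
    by simp, by simp, by simp⟩

variable {P}

theorem HasVal.add {z z' : F} {c c' : k} (h : HasVal P z c) (h' : HasVal P z' c') :
    HasVal P (z + z') (c + c') := by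
  obtain ⟨n, a, b, ha, hb, h0, h1, h2⟩ := h
  obtain ⟨n', a', b', ha', hb', h0', h1', h2'⟩ := h'
  refine ⟨n + n', a * b' + b * a', b * b', (ha.mul hb').add (hb.mul ha'), hb.mul hb', ?_, ?_, ?_⟩
  · rw [map_mul]; exact mul_ne_zero h0 h0'
  · simp only [map_mul, map_add]
    rw [← h1, ← h1']; ring
  · simp only [map_mul, map_add]
    rw [← h2, ← h2']; ring

theorem HasVal.mul {z z' : F} {c c' : k} (h : HasVal P z c) (h' : HasVal P z' c') :
    HasVal P (z * z') (c * c') := by
  obtain ⟨n, a, b, ha, hb, h0, h1, h2⟩ := h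
  obtain ⟨n', a', b', ha', hb', h0', h1', h2'⟩ := h'
  refine ⟨n + n', a * a', b * b', ha.mul ha', hb.mul hb', ?_, ?_, ?_⟩
  · rw [map_mul]; exact mul_ne_zero h0 h0'
  · simp only [map_mul]
    rw [← h1, ← h1']; ring
  · simp only [map_mul]
    rw [← h2, ← h2']; ring

end HasVal

/-- The local ring of `X` at `P`, as a subring of the function field. -/
def localRing (X : ProjVar k F) (P : X.Pt) : Subalgebra k X.functionField where
  carrier := {z | ∃ c, HasVal P (z : F) c}
  mul_mem' := by
    rintro z z' ⟨c, h⟩ ⟨c', h'⟩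
    exact ⟨c * c', h.mul h'⟩
  add_mem' := by
    rintro z z' ⟨c, h⟩ ⟨c', h'⟩
    exact ⟨c + c', h.add h'⟩
  algebraMap_mem' c := ⟨c, hasVal_const P c⟩

theorem Pt.aeval_ne {P : X.Pt} {n : ℕ} {f : MvPolynomial X.ι k} (hf : f.IsHomogeneous n)
    (h : eval P.p f ≠ 0) : aeval X.x f ≠ 0 := fun h0 => h (P.vanish n f hf h0)

theorem HasVal.inv {P : X.Pt} {z : F} {c : k} (h : HasVal P z c) (hc : c ≠ 0) :
    HasVal P z⁻¹ c⁻¹ := by
  obtain ⟨n, a, b, ha, hb, h0, h1, h2⟩ := h
  have ha0 : eval P.p a ≠ 0 := by rw [← h2]; exact mul_ne_zero hc h0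
  have hax := P.aeval_ne ha ha0
  have hz : z ≠ 0 := by
    rintro rfl
    rw [zero_mul] at h1
    exact hax h1.symm
  refine ⟨n, b, a, hb, ha, ha0, ?_, ?_⟩
  · rw [← h1]; field_simp
  · rw [← h2]; field_simp

theorem HasVal.uniq {P : X.Pt} {z : F} {c c' : k} (h : HasVal P z c) (h' : HasVal P z c') :
    c = c' := by
  obtain ⟨n, a, b, ha, hb, h0, h1, h2⟩ := h
  obtain ⟨n', a', b', ha', hb', h0', h1', h2'⟩ := h'
  have h := P.vanish (n + n') (a * b' - b * a') ((ha.mul hb').sub (hb.mul ha')) (by
    simp only [map_mul, map_sub]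
    rw [← h1, ← h1']; ring)
  simp only [map_mul, map_sub] at h
  rw [← h2, ← h2'] at h
  have : (c - c') * (eval P.p b * eval P.p b') = 0 := by rw [← h]; ring
  rcases mul_eq_zero.mp this with h | h
  · exact sub_eq_zero.mp h
  · exact absurd h (mul_ne_zero h0 h0')

theorem place (P : X.Pt) : Place (HasVal P) where
  const := hasVal_const P
  add := HasVal.add
  mul := HasVal.mul
  inv := HasVal.inv
  uniq := HasVal.uniq

theorem Pt.x_ne {P : X.Pt} {j : X.ι} (hj : P.p j ≠ 0) : X.x j ≠ 0 := by
  have := P.aeval_ne (f := MvPolynomial.X j) (isHomogeneous_X k j) (by simpa using hj)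
  simpa using this

theorem hasVal_ratio {P : X.Pt} {j : X.ι} (hj : P.p j ≠ 0) (l : X.ι) :
    HasVal P (X.x l / X.x j) (P.p l / P.p j) := by
  have hx := Pt.x_ne hj
  refine ⟨1, MvPolynomial.X l, MvPolynomial.X j, isHomogeneous_X k l, isHomogeneous_X k j,
    by simpa using hj, ?_, ?_⟩
  · simp only [aeval_X]; field_simp
  · simp only [eval_X]; field_simp

theorem Pt.exists_ne (P : X.Pt) : ∃ j, P.p j ≠ 0 := by
  by_contra h
  push Not at h
  exact P.ne (funext h)

theorem aeval_smul_homog {n : ℕ} {f : MvPolynomial X.ι k} (hf : f.IsHomogeneous n) {A : Type*}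
    [CommRing A] [Algebra k A] (s : A) (y : X.ι → A) :
    aeval (fun i => s * y i) f = s ^ n * aeval y f := by
  rw [aeval_def, aeval_def, eval₂_eq, eval₂_eq, Finset.mul_sum]
  refine Finset.sum_congr rfl fun d hd => ?_
  have hdeg := hf (mem_support_iff.mp hd)
  have : (∏ i ∈ d.support, (s * y i) ^ d i) = s ^ n * ∏ i ∈ d.support, y i ^ d i := by
    simp_rw [mul_pow]
    rw [Finset.prod_mul_distrib, Finset.prod_pow_eq_pow_sum]
    congr 2
    rw [← hdeg, Finsupp.weight_apply, Finsupp.sum]
    simp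
  rw [this]; ring

/-- Induction for the local ring at a point: a property of rational functions which holds for
the constants, for the ratios of coordinates over one coordinate not vanishing at `P`, and is
stable under sums, products and inverses of functions with nonzero value, holds for all functions
regular at `P`. -/
theorem regular_induction (P : X.Pt) {p : F → Prop}
    (hconst : ∀ c, p (algebraMap k F c)) (hadd : ∀ z z', p z → p z' → p (z + z'))
    (hmul : ∀ z z', p z → p z' → p (z * z'))
    (hinv : ∀ z c, HasVal P z c → c ≠ 0 → p z → p z⁻¹)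
    {j : X.ι} (hj : P.p j ≠ 0) (hx : ∀ l, p (X.x l / X.x j)) {z : F} {c : k}
    (h : HasVal P z c) : p z := by
  have key : ∀ f : MvPolynomial X.ι k, p (aeval (fun l => X.x l / X.x j) f) ∧
      HasVal P (aeval (fun l => X.x l / X.x j) f) (eval (fun l => P.p l / P.p j) f) := by
    intro f
    induction f using MvPolynomial.induction_on with
    | C a => 
      simp only [aeval_C, eval_C]
      exact ⟨hconst a, hasVal_const P a⟩
    | add f g hf hg =>
      simp only [map_add]
      exact ⟨hadd _ _ hf.1 hg.1, hf.2.add hg.2⟩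
    | mul_X f l hf =>
      simp only [map_mul, aeval_X, eval_X]
      exact ⟨hmul _ _ hf.1 (hx l), hf.2.mul (hasVal_ratio hj l)⟩
  obtain ⟨n, a, b, ha, hb, h0, h1, h2⟩ := h
  have hxj := Pt.x_ne hj
  have e1 : ∀ f : MvPolynomial X.ι k, f.IsHomogeneous n →
      aeval X.x f = X.x j ^ n * aeval (fun l => X.x l / X.x j) f := by
    intro f hf
    rw [← aeval_smul_homog hf]
    congr 2
    funext i
    field_simp
  have e2 : ∀ f : MvPolynomial X.ι k, f.IsHomogeneous n →
      eval P.p f = P.p j ^ n * eval (fun l => P.p l / P.p j) f := by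
    intro f hf
    have := aeval_smul_homog hf (P.p j) (fun l => P.p l / P.p j)
    rw [← MvPolynomial.coe_aeval_eq_eval, ← MvPolynomial.coe_aeval_eq_eval]
    simp only [RingHom.coe_coe]
    rw [← this]
    congr 2
    funext i
    field_simp
  have hb0 : eval (fun l => P.p l / P.p j) b ≠ 0 := by
    intro h3
    rw [e2 b hb, h3, mul_zero] at h0
    exact h0 rfl
  have hbx : aeval (fun l => X.x l / X.x j) b ≠ 0 := by
    intro h3
    have := P.aeval_ne hb h0
    rw [e1 b hb, h3, mul_zero] at this
    exact this rfl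
  have hz : z = aeval (fun l => X.x l / X.x j) a * (aeval (fun l => X.x l / X.x j) b)⁻¹ := by
    rw [e1 a ha, e1 b hb] at h1
    have h4 : X.x j ^ n ≠ 0 := pow_ne_zero _ hxj
    have h5 : X.x j ^ n * (z * aeval (fun l => X.x l / X.x j) b) =
        X.x j ^ n * aeval (fun l => X.x l / X.x j) a := by rw [← h1]; ring
    have h6 := mul_left_cancel₀ h4 h5
    rw [← h6]; field_simp
  rw [hz]
  exact hmul _ _ (key a).1 (hinv _ _ (key b).2 hb0 (key b).1)

end ProjVar

end Pool.Agent.Helper43
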